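import Mathlib

set_option autoImplicit false

namespace Pool.Agent.H12.AddPoset

/-- `le` makes the abelian group `A` an additive poset. -/
def IsAddPoset {A : Type} [AddCommGroup A] (le : A → A → Prop) : Prop :=
  IsPartialOrder A le ∧ (∀ a b c, le b a → le c a → le (b + c) a) ∧
    ∀ a b c, le a b → le a c → le a (a + b + c)

abbrev V : Type := ZMod 2 × ZMod 2 × ZMod 2 × ZMod 2

def rel : List (V × V) :=
  [((1, 1, 0, 0), (0, 0, 0, 1)),
    ((1, 1, 0, 1), (0, 0, 0, 1)),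
    ((0, 1, 0, 0), (1, 1, 1, 0)),
    ((1, 0, 1, 0), (1, 1, 1, 0)),
    ((0, 0, 1, 0), (1, 0, 0, 1)),
    ((1, 0, 1, 1), (1, 0, 0, 1)),
    ((0, 1, 0, 1), (0, 1, 1, 0)),
    ((0, 0, 1, 1), (0, 1, 1, 0)),
    ((0, 1, 1, 1), (1, 0, 0, 0)),
    ((1, 1, 1, 1), (1, 0, 0, 0))]

def le (a b : V) : Prop := a = 0 ∨ a = b ∨ (a, b) ∈ rel

instance : DecidableRel le := fun _ _ => inferInstanceAs (Decidable (_ ∨ _ ∨ _))

theorem le_addPoset : IsAddPoset le :=
  ⟨{ refl := by decide +kernel, trans := by decide +kernel, antisymm := by decide +kernel },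
    by decide +kernel, by decide +kernel⟩

end Pool.Agent.H12.AddPoset
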