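import Mathlib

set_option autoImplicit false

namespace Pool.Agent.H12.Agree

def ltb (a b : Fin 7) : Bool :=
  (a.1, b.1) ∈ [(0,2),(0,3),(1,3),(2,3),(0,5),(2,5),(4,5),(0,6),(1,6),(4,6)]

def P : Type := Fin 7

instance : Fintype P := inferInstanceAs (Fintype (Fin 7))
instance : DecidableEq P := inferInstanceAs (DecidableEq (Fin 7))

instance : PartialOrder P where
  le a b := a = b ∨ ltb a b = true
  lt a b := ltb a b = true
  le_refl a := Or.inl rfl
  le_trans := by decide
  le_antisymm := by decide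
  lt_iff_le_not_ge := by decide

def cnt (σ : Equiv.Perm (Fin 7)) : ℕ :=
  (Finset.univ.filter (fun p : Fin 7 × Fin 7 => ltb p.1 p.2 = true ∧ σ p.1 < σ p.2)).card

def A (i : ℕ) : ℕ := (Finset.univ.filter (fun σ : Equiv.Perm (Fin 7) => cnt σ = i)).card

def pairs : List (Fin 7 × Fin 7) := [(0,2),(0,3),(1,3),(2,3),(0,5),(2,5),(4,5),(0,6),(1,6),(4,6)]

def cntN : List ℕ → ℕ
  | [a, b, c, d, e, f, g] =>
    cond (Nat.blt a c) 1 0 + cond (Nat.blt a d) 1 0 + cond (Nat.blt b d) 1 0 + cond (Nat.blt c d) 1 0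
    + cond (Nat.blt a f) 1 0 + cond (Nat.blt c f) 1 0 + cond (Nat.blt e f) 1 0
    + cond (Nat.blt a g) 1 0 + cond (Nat.blt b g) 1 0 + cond (Nat.blt e g) 1 0
  | _ => 0

def L : List (List ℕ) := [0,1,2,3,4,5,6].permutations'

lemma c4 : (L.filter (fun l => cntN l == 4)).length = 792 := by decide +kernel
lemma c5 : (L.filter (fun l => cntN l == 5)).length = 764 := by decide +kernel
lemma c6 : (L.filter (fun l => cntN l == 6)).length = 792 := by decide +kernel

def toL (σ : Equiv.Perm (Fin 7)) : List ℕ := List.ofFn ((fun i : Fin 7 => i.1) ∘ σ)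

lemma cond_eq (a b : Fin 7) : cond (Nat.blt a.1 b.1) 1 0 = if a < b then 1 else 0 := by
  revert a b; decide

lemma cnt_eq (σ : Equiv.Perm (Fin 7)) : cnt σ = cntN (toL σ) := by
  unfold cnt
  have h1 : (Finset.univ.filter (fun p : Fin 7 × Fin 7 => ltb p.1 p.2 = true ∧ σ p.1 < σ p.2)) =
      (pairs.filter (fun p => σ p.1 < σ p.2)).toFinset := by
    ext p
    have : ltb p.1 p.2 = true ↔ p ∈ pairs := by revert p; decide
    simp [this]
  rw [h1, List.toFinset_card_of_nodup (List.Nodup.filter _ (by decide))]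
  have h2 : toL σ = [(σ 0).1, (σ 1).1, (σ 2).1, (σ 3).1, (σ 4).1, (σ 5).1, (σ 6).1] := by
    simp [toL, List.ofFn_succ]
  rw [h2, ← List.countP_eq_length_filter]
  simp only [cntN, cond_eq, pairs, List.countP_cons, List.countP_nil, decide_eq_true_eq]
  omega

lemma L_nodup : L.Nodup :=
  (List.permutations_perm_permutations' _).nodup_iff.1 (List.nodup_permutations _ (by decide))

lemma L_len : L.length = 5040 := by
  rw [L, ← (List.permutations_perm_permutations' _).length_eq, List.length_permutations]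
  rfl

lemma toL_mem (σ : Equiv.Perm (Fin 7)) : toL σ ∈ L := by
  rw [L, List.mem_permutations']
  exact σ.ofFn_comp_perm (fun i : Fin 7 => i.1)

lemma toL_inj : Function.Injective toL := by
  intro σ τ h
  have := List.ofFn_injective h
  ext i
  exact congrFun this i

lemma toL_surj (l : List ℕ) (hl : l ∈ L) : ∃ σ, toL σ = l := by
  have h : (Finset.univ.image toL) = L.toFinset := by
    apply Finset.eq_of_subset_of_card_le
    · intro x hx
      obtain ⟨σ, -, rfl⟩ := Finset.mem_image.1 hx
      exact List.mem_toFinset.2 (toL_mem σ)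
    · rw [Finset.card_image_of_injective _ toL_inj, List.toFinset_card_of_nodup L_nodup, L_len,
        Finset.card_univ, Fintype.card_perm, Fintype.card_fin]
      rfl
  have := List.mem_toFinset.2 hl
  rw [← h] at this
  obtain ⟨σ, -, h⟩ := Finset.mem_image.1 this
  exact ⟨σ, h⟩

lemma A_eq (i : ℕ) : A i = (L.filter (fun l => cntN l == i)).length := by
  rw [← List.toFinset_card_of_nodup (L_nodup.filter _), A]
  apply Finset.card_bij (fun σ _ => toL σ)
  · intro σ hσ
    simp only [Finset.mem_filter, Finset.mem_univ, true_and] at hσ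
    simp [toL_mem, ← cnt_eq, hσ]
  · intro a _ b _ h
    exact toL_inj h
  · intro l hl
    simp only [List.mem_toFinset, List.mem_filter, beq_iff_eq] at hl
    obtain ⟨σ, rfl⟩ := toL_surj l hl.1
    exact ⟨σ, by simp [cnt_eq, hl.2], rfl⟩

lemma A_vals : A 4 = 792 ∧ A 5 = 764 ∧ A 6 = 792 := by
  rw [A_eq, A_eq, A_eq]
  exact ⟨c4, c5, c6⟩

lemma k_val : (Finset.univ.filter (fun p : Fin 7 × Fin 7 => ltb p.1 p.2 = true)).card = 10 := by
  decide

lemma irrel {β : Type} (F₁ F₂ : Fintype β) (p q : β → Prop) (d₁ : DecidablePred p)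
    (d₂ : DecidablePred q) (h : ∀ x, p x ↔ q x) :
    (@Finset.filter β p d₁ (@Finset.univ β F₁)).card =
      (@Finset.filter β q d₂ (@Finset.univ β F₂)).card := by
  congr 1
  ext x
  simp [h]

end Pool.Agent.H12.Agree
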