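import Mathlib

set_option autoImplicit false

namespace Pool.Agent.H12.BiLip

open Finset

/-- block of a coordinate -/
def blk (k : ℕ) (i : Fin (2 * k + 2)) : Fin 4 :=
  if i.val = 0 then 0 else if i.val = 1 then 1 else if i.val < k + 2 then 2 else 3

def cnt (k : ℕ) (j : Fin 4) (x : Fin (2 * k + 2) → Bool) : ℕ :=
  (univ.filter (fun i => blk k i = j ∧ x i = true)).card

def sz (k : ℕ) (j : Fin 4) : ℕ := (univ.filter (fun i => blk k i = j)).card

def pat (k : ℕ) (x : Fin (2 * k + 2) → Bool) (j : Fin 4) : Bool :=
  decide (sz k j < 2 * cnt k j x)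

def tr (k : ℕ) (d : Fin 4 → Bool) (x : Fin (2 * k + 2) → Bool) : Fin (2 * k + 2) → Bool :=
  fun i => xor (x i) (d (blk k i))

def F (p : Fin 4 → Bool) : Bool :=
  if p 2 = false ∧ p 3 = false then true
  else if p 2 = true ∧ p 3 = true then p 0 else (p 0 && p 1)

def f (k : ℕ) (x : Fin (2 * k + 2) → Bool) : Bool := F (pat k x)

lemma card_val (n : ℕ) (P : ℕ → Prop) [DecidablePred P] :
    (univ.filter (fun i : Fin n => P i.val)).card = ((range n).filter P).card := by
  rw [Finset.card_filter, Finset.card_filter]
  exact Fin.sum_univ_eq_sum_range (fun i => if P i then 1 else 0) n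

lemma sz0 (k : ℕ) : sz k 0 = 1 := by
  have h : (univ.filter (fun i : Fin (2 * k + 2) => blk k i = 0))
      = univ.filter (fun i : Fin (2 * k + 2) => i.val = 0) := by
    apply Finset.filter_congr
    intro i _
    unfold blk
    split_ifs <;> simp_all
  unfold sz
  rw [h, card_val (2 * k + 2) (fun i => i = 0)]
  have : (range (2 * k + 2)).filter (fun i => i = 0) = {0} := by
    ext i; simp only [mem_filter, mem_range, mem_singleton]; omega
  rw [this]; simp

lemma sz1 (k : ℕ) : sz k 1 = 1 := by
  have h : (univ.filter (fun i : Fin (2 * k + 2) => blk k i = 1))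
      = univ.filter (fun i : Fin (2 * k + 2) => i.val = 1) := by
    apply Finset.filter_congr
    intro i _
    unfold blk
    split_ifs <;> simp_all
  unfold sz
  rw [h, card_val (2 * k + 2) (fun i => i = 1)]
  have : (range (2 * k + 2)).filter (fun i => i = 1) = {1} := by
    ext i; simp only [mem_filter, mem_range, mem_singleton]; omega
  rw [this]; simp

lemma sz2 (k : ℕ) : sz k 2 = k := by
  have h : (univ.filter (fun i : Fin (2 * k + 2) => blk k i = 2))
      = univ.filter (fun i : Fin (2 * k + 2) => 2 ≤ i.val ∧ i.val < k + 2) := by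
    apply Finset.filter_congr
    intro i _
    unfold blk
    split_ifs with h1 h2 h3
    · exact ⟨fun h => absurd h (by decide), fun h => by omega⟩
    · exact ⟨fun h => absurd h (by decide), fun h => by omega⟩
    · exact ⟨fun _ => by omega, fun _ => rfl⟩
    · exact ⟨fun h => absurd h (by decide), fun h => by omega⟩
  unfold sz
  rw [h, card_val (2 * k + 2) (fun i => 2 ≤ i ∧ i < k + 2)]
  have : (range (2 * k + 2)).filter (fun i => 2 ≤ i ∧ i < k + 2) = Ico 2 (k + 2) := by
    ext i; simp only [mem_filter, mem_range, mem_Ico]; omega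
  rw [this]; simp

lemma sz3 (k : ℕ) : sz k 3 = k := by
  have h : (univ.filter (fun i : Fin (2 * k + 2) => blk k i = 3))
      = univ.filter (fun i : Fin (2 * k + 2) => 2 ≤ i.val ∧ k + 2 ≤ i.val) := by
    apply Finset.filter_congr
    intro i _
    unfold blk
    split_ifs <;> simp_all <;> omega
  unfold sz
  rw [h, card_val (2 * k + 2) (fun i => 2 ≤ i ∧ k + 2 ≤ i)]
  have : (range (2 * k + 2)).filter (fun i => 2 ≤ i ∧ k + 2 ≤ i) = Ico (k + 2) (2 * k + 2) := by
    ext i; simp only [mem_filter, mem_range, mem_Ico]; omega
  rw [this]; simp; omega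

lemma sz_odd (k : ℕ) (hk : k % 2 = 1) (j : Fin 4) : sz k j % 2 = 1 := by
  fin_cases j
  · show sz k 0 % 2 = 1
    rw [sz0]
  · show sz k 1 % 2 = 1
    rw [sz1]
  · show sz k 2 % 2 = 1
    rw [sz2]; exact hk
  · show sz k 3 % 2 = 1
    rw [sz3]; exact hk

lemma pat_tr (k : ℕ) (hk : k % 2 = 1) (d : Fin 4 → Bool) (x : Fin (2 * k + 2) → Bool)
    (j : Fin 4) : pat k (tr k d x) j = xor (pat k x j) (d j) := by
  cases hd : d j
  · have : cnt k j (tr k d x) = cnt k j x := by
      unfold cnt
      congr 1
      apply Finset.filter_congr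
      intro i _
      constructor
      · rintro ⟨h1, h2⟩
        refine ⟨h1, ?_⟩
        simpa [tr, h1, hd] using h2
      · rintro ⟨h1, h2⟩
        refine ⟨h1, ?_⟩
        simp [tr, h1, hd, h2]
    simp [pat, this]
  · have h1 : cnt k j (tr k d x) + cnt k j x = sz k j := by
      unfold cnt sz
      have e1 : univ.filter (fun i => blk k i = j ∧ tr k d x i = true)
          = (univ.filter (fun i => blk k i = j)).filter (fun i => ¬ (x i = true)) := by
        ext i
        simp only [mem_filter, mem_univ, true_and]
        constructor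
        · rintro ⟨h1, h2⟩
          refine ⟨h1, ?_⟩
          simpa [tr, h1, hd] using h2
        · rintro ⟨h1, h2⟩
          refine ⟨h1, ?_⟩
          simpa [tr, h1, hd] using h2
      have e2 : univ.filter (fun i => blk k i = j ∧ x i = true)
          = (univ.filter (fun i => blk k i = j)).filter (fun i => x i = true) := by
        rw [Finset.filter_filter]
      rw [e1, e2, add_comm]
      exact Finset.card_filter_add_card_filter_not _
    have h2 := sz_odd k hk j
    unfold pat
    by_cases h : sz k j < 2 * cnt k j x
    · have : ¬ sz k j < 2 * cnt k j (tr k d x) := by omega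
      simp [h, this]
    · have : sz k j < 2 * cnt k j (tr k d x) := by omega
      simp [h, this]

/-- an involution on patterns exchanging the values of `F` -/
def sig (p : Fin 4 → Bool) : Fin 4 → Bool :=
  match p 0, p 1, p 2, p 3 with
  | false, false, false, false => ![false, false, true, false]
  | false, false, true, false => ![false, false, false, false]
  | false, true, false, false => ![false, true, true, false]
  | false, true, true, false => ![false, true, false, false]
  | true, false, false, false => ![true, false, false, true]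
  | true, false, false, true => ![true, false, false, false]
  | true, true, false, false => ![false, false, false, true]
  | false, false, false, true => ![true, true, false, false]
  | true, true, true, false => ![true, false, true, false]
  | true, false, true, false => ![true, true, true, false]
  | true, true, false, true => ![false, true, false, true]
  | false, true, false, true => ![true, true, false, true]
  | a, b, true, true => ![!a, b, true, true]

lemma sig_sig : ∀ p : Fin 4 → Bool, sig (sig p) = p := by decide

lemma F_sig : ∀ p : Fin 4 → Bool, F (sig p) = !(F p) := by decide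

def sw (k : ℕ) (x : Fin (2 * k + 2) → Bool) : Fin (2 * k + 2) → Bool :=
  tr k (fun j => xor (pat k x j) (sig (pat k x) j)) x

lemma pat_sw (k : ℕ) (hk : k % 2 = 1) (x : Fin (2 * k + 2) → Bool) :
    pat k (sw k x) = sig (pat k x) := by
  funext j
  unfold sw
  rw [pat_tr k hk]
  cases pat k x j <;> cases sig (pat k x) j <;> rfl

lemma sw_sw (k : ℕ) (hk : k % 2 = 1) (x : Fin (2 * k + 2) → Bool) : sw k (sw k x) = x := by
  funext i
  have h := pat_sw k hk x
  show xor (sw k x i) (xor (pat k (sw k x) (blk k i)) (sig (pat k (sw k x)) (blk k i))) = x i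
  rw [h, sig_sig]
  show xor (xor (x i) (xor (pat k x (blk k i)) (sig (pat k x) (blk k i))))
    (xor (sig (pat k x) (blk k i)) (pat k x (blk k i))) = x i
  cases x i <;> cases pat k x (blk k i) <;> cases sig (pat k x) (blk k i) <;> rfl

lemma f_sw (k : ℕ) (hk : k % 2 = 1) (x : Fin (2 * k + 2) → Bool) : f k (sw k x) = !(f k x) := by
  unfold f
  rw [pat_sw k hk, F_sig]

lemma card_eq (k : ℕ) (hk : k % 2 = 1) :
    (univ.filter (fun x => f k x = true)).card = (univ.filter (fun x => ¬ f k x = true)).card := by
  apply Finset.card_bij' (fun x _ => sw k x) (fun x _ => sw k x)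
  · intro x hx
    simp only [mem_filter, mem_univ, true_and] at hx ⊢
    rw [f_sw k hk, hx]; simp
  · intro x hx
    simp only [mem_filter, mem_univ, true_and] at hx ⊢
    rw [f_sw k hk]; simpa using hx
  · intro x _; exact sw_sw k hk x
  · intro x _; exact sw_sw k hk x

lemma card_tot (k : ℕ) :
    (univ.filter (fun x => f k x = true)).card + (univ.filter (fun x => ¬ f k x = true)).card
      = 2 ^ (2 * k + 2) := by
  rw [Finset.card_filter_add_card_filter_not]
  simp

lemma bal (k : ℕ) (hk : k % 2 = 1) :
    2 * (univ.filter (fun x => f k x = true)).card = 2 ^ (2 * k + 2) := by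
  have h1 := card_eq k hk
  have h2 := card_tot k
  omega

lemma bal' (k : ℕ) (hk : k % 2 = 1) :
    2 * (univ.filter (fun x => (!(f k x)) = true)).card = 2 ^ (2 * k + 2) := by
  have h1 := card_eq k hk
  have h2 := card_tot k
  have h3 : (univ.filter (fun x => (!(f k x)) = true)) = univ.filter (fun x => ¬ f k x = true) := by
    apply Finset.filter_congr
    intro x _
    simp
  rw [h3]
  omega

lemma cnt_le (k : ℕ) (j : Fin 4) (y : Fin (2 * k + 2) → Bool) :
    cnt k j y ≤ hammingDist y (fun _ => false) := by
  unfold cnt hammingDist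
  apply Finset.card_le_card
  intro i hi
  simp only [mem_filter, mem_univ, true_and] at hi ⊢
  rw [hi.2]; simp

lemma deep (k : ℕ) (y : Fin (2 * k + 2) → Bool) (hy : f k y = false) :
    k < 2 * hammingDist y (fun _ => false) := by
  have h2 := cnt_le k 2 y
  have h3 := cnt_le k 3 y
  by_contra hc
  have p2 : pat k y 2 = false := by
    unfold pat; rw [sz2]; simp only [decide_eq_false_iff_not]; omega
  have p3 : pat k y 3 = false := by
    unfold pat; rw [sz3]; simp only [decide_eq_false_iff_not]; omega
  unfold f F at hy
  simp [p2, p3] at hy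

lemma shallow (k : ℕ) (x : Fin (2 * k + 2) → Bool) :
    ∃ x', f k x' = true ∧ hammingDist x' x ≤ 2 := by
  refine ⟨fun i => if i.val ≤ 1 then true else x i, ?_, ?_⟩
  · have p0 : pat k (fun i => if i.val ≤ 1 then true else x i) 0 = true := by
      unfold pat
      rw [sz0]
      have : 0 < cnt k 0 (fun i => if i.val ≤ 1 then true else x i) := by
        unfold cnt
        apply Finset.card_pos.mpr
        exact ⟨⟨0, by omega⟩, by simp [blk]⟩
      simp only [decide_eq_true_eq]; omega
    have p1 : pat k (fun i => if i.val ≤ 1 then true else x i) 1 = true := by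
      unfold pat
      rw [sz1]
      have : 0 < cnt k 1 (fun i => if i.val ≤ 1 then true else x i) := by
        unfold cnt
        apply Finset.card_pos.mpr
        exact ⟨⟨1, by omega⟩, by simp [blk]⟩
      simp only [decide_eq_true_eq]; omega
    unfold f F
    rw [p0, p1]
    split_ifs <;> rfl
  · unfold hammingDist
    have : (univ.filter (fun i : Fin (2 * k + 2) => (if i.val ≤ 1 then true else x i) ≠ x i))
        ⊆ univ.filter (fun i : Fin (2 * k + 2) => i.val ≤ 1) := by
      intro i hi
      simp only [mem_filter, mem_univ, true_and] at hi ⊢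
      by_contra hc
      simp [hc] at hi
    refine le_trans (Finset.card_le_card this) ?_
    rw [card_val (2 * k + 2) (fun i => i ≤ 1)]
    have : (range (2 * k + 2)).filter (fun i => i ≤ 1) ⊆ range 2 := by
      intro i hi
      simp only [mem_filter, mem_range] at hi ⊢
      omega
    simpa using Finset.card_le_card this

/-- every value-reversing map with a preimage of the origin has a large Lipschitz constant -/
lemma lip_lower (k : ℕ) (ψ : (Fin (2 * k + 2) → Bool) → (Fin (2 * k + 2) → Bool))
    (hψ : ∀ x, f k (ψ x) = !(f k x)) (x0 : Fin (2 * k + 2) → Bool) (h0 : ψ x0 = fun _ => false)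
    (C : ℝ) (hC : 0 ≤ C)
    (hL : ∀ x y, (hammingDist (ψ x) (ψ y) : ℝ) ≤ C * (hammingDist x y : ℝ)) :
    (k : ℝ) < 4 * C := by
  obtain ⟨x', h1, h2⟩ := shallow k x0
  have h3 : f k (ψ x') = false := by rw [hψ, h1]; rfl
  have h4 := deep k _ h3
  have h5 := hL x' x0
  rw [h0] at h5
  have h6 : (hammingDist x' x0 : ℝ) ≤ 2 := by exact_mod_cast h2
  have h7 : (k : ℝ) < 2 * (hammingDist (ψ x') (fun _ => false) : ℝ) := by exact_mod_cast h4
  nlinarith [mul_le_mul_of_nonneg_left h6 hC]

end Pool.Agent.H12.BiLip
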