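import Mathlib

set_option autoImplicit false

namespace Pool.Agent.H12.MatInter

open Finset

variable {α : Type*} [DecidableEq α]

structure RankFn (r : Finset α → ℕ) : Prop where
  empty : r ∅ = 0
  mono : ∀ X Y, X ⊆ Y → r X ≤ r Y
  ins : ∀ e X, r (insert e X) ≤ r X + 1
  sub : ∀ X Y, r (X ∪ Y) + r (X ∩ Y) ≤ r X + r Y

lemma RankFn.contract {r : Finset α → ℕ} (h : RankFn r) (e : α) (he : r {e} = 1) :
    RankFn (fun X => r (insert e X) - 1) := by
  have h1 : ∀ X, 1 ≤ r (insert e X) := fun X => he ▸ h.mono _ _ (by simp)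
  refine ⟨by simp [he], fun X Y hXY => ?_, fun f X => ?_, fun X Y => ?_⟩
  · have := h.mono _ _ (insert_subset_insert e hXY)
    omega
  · have := h.ins f (insert e X)
    rw [insert_comm] at this
    have := h1 X
    omega
  · have := h.sub (insert e X) (insert e Y)
    rw [← insert_union_distrib, ← insert_inter_distrib] at this
    have := h1 X
    have := h1 Y
    have := h1 (X ∪ Y)
    have := h1 (X ∩ Y)
    omega

lemma RankFn.single {r : Finset α → ℕ} (h : RankFn r) (e : α) (X : Finset α)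
    (hlt : r X < r (insert e X)) : r {e} = 1 := by
  have h1 := h.ins e ∅
  have h2 := h.sub {e} X
  rw [← insert_eq] at h2
  have h3 : (insert e (∅ : Finset α)) = {e} := rfl
  rw [h3, h.empty] at h1
  omega

theorem inter (S : Finset α) : ∀ (r₁ r₂ : Finset α → ℕ) (k : ℕ), RankFn r₁ → RankFn r₂ →
    (∀ X ⊆ S, k ≤ r₁ X + r₂ (S \ X)) → ∃ I ⊆ S, I.card = k ∧ r₁ I = k ∧ r₂ I = k := by
  induction S using Finset.induction_on with
  | empty =>
    intro r₁ r₂ k h₁ h₂ h
    have := h ∅ (Subset.refl _)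
    simp only [sdiff_self, bot_eq_empty, h₁.empty, h₂.empty] at this
    have hk : k = 0 := by omega
    exact ⟨∅, Subset.refl _, by simp [hk], by simp [hk, h₁.empty], by simp [hk, h₂.empty]⟩
  | insert e S he ih =>
    intro r₁ r₂ k h₁ h₂ h
    by_cases hA : ∀ X ⊆ S, k ≤ r₁ X + r₂ (S \ X)
    · obtain ⟨I, hI, hr⟩ := ih r₁ r₂ k h₁ h₂ hA
      exact ⟨I, hI.trans (subset_insert _ _), hr⟩
    push Not at hA
    obtain ⟨X₁, hX₁, hlt⟩ := hA
    have heX₁ : e ∉ X₁ := fun h => he (hX₁ h)
    have a1 := h X₁ (hX₁.trans (subset_insert _ _))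
    rw [insert_sdiff_of_notMem _ heX₁] at a1
    have a2 := h (insert e X₁) (insert_subset_insert e hX₁)
    have e2 : insert e S \ insert e X₁ = S \ X₁ := by
      ext y; simp only [mem_sdiff, mem_insert]
      constructor
      · rintro ⟨h1 | h1, h2⟩
        · exact absurd (Or.inl h1) h2
        · exact ⟨h1, fun h => h2 (Or.inr h)⟩
      · rintro ⟨h1, h2⟩
        refine ⟨Or.inr h1, ?_⟩
        rintro (h | h)
        · exact he (h ▸ h1)
        · exact h2 h
    rw [e2] at a2
    have s1 : r₁ {e} = 1 := h₁.single e X₁ (by omega)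
    have s2 : r₂ {e} = 1 := h₂.single e (S \ X₁) (by omega)
    have g1 : ∀ X, 1 ≤ r₁ (insert e X) := fun X => s1 ▸ h₁.mono _ _ (by simp)
    have g2 : ∀ X, 1 ≤ r₂ (insert e X) := fun X => s2 ▸ h₂.mono _ _ (by simp)
    have key : ∀ X ⊆ S, k - 1 ≤ (r₁ (insert e X) - 1) + (r₂ (insert e (S \ X)) - 1) := by
      intro X₂ hX₂
      have b1 := h₁.sub X₁ (insert e X₂)
      have b2 := h₂.sub (S \ X₁) (insert e (S \ X₂))
      have c1 := h (X₁ ∪ insert e X₂) (by
        intro y hy
        simp only [mem_union, mem_insert] at hy ⊢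
        rcases hy with hy | hy | hy
        · exact Or.inr (hX₁ hy)
        · exact Or.inl hy
        · exact Or.inr (hX₂ hy))
      have c2 := h (X₁ ∩ insert e X₂) ((inter_subset_left.trans hX₁).trans (subset_insert _ _))
      have d1 : insert e S \ (X₁ ∪ insert e X₂) = (S \ X₁) ∩ insert e (S \ X₂) := by
        ext y; simp only [mem_sdiff, mem_insert, mem_union, mem_inter]
        by_cases hy : y = e
        · subst hy; simp [he]
        · simp [hy]; tauto
      have d2 : insert e S \ (X₁ ∩ insert e X₂) = (S \ X₁) ∪ insert e (S \ X₂) := by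
        ext y; simp only [mem_sdiff, mem_insert, mem_union, mem_inter]
        by_cases hy : y = e
        · subst hy; simp [heX₁]
        · simp [hy]; tauto
      rw [d1] at c1
      rw [d2] at c2
      have := g1 X₂
      have := g2 (S \ X₂)
      omega
    obtain ⟨I, hI, hc, hr1, hr2⟩ := ih _ _ (k - 1) (h₁.contract e s1) (h₂.contract e s2) key
    have heI : e ∉ I := fun h => he (hI h)
    have := g1 I
    have := g2 I
    refine ⟨insert e I, insert_subset_insert e hI, ?_, ?_, ?_⟩
    · rw [card_insert_of_notMem heI]; omega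
    · omega
    · omega

noncomputable def rk (M : Matroid α) (X : Finset α) : ℕ := (M.eRk (X : Set α)).toNat

omit [DecidableEq α] in
lemma coe_rk (M : Matroid α) (X : Finset α) : (rk M X : ℕ∞) = M.eRk (X : Set α) := by
  unfold rk
  rw [ENat.natCast_toNat]
  exact ((M.eRk_le_encard _).trans_lt (X.finite_toSet.encard_lt_top)).ne

lemma rankFn (M : Matroid α) : RankFn (rk M) := by
  refine ⟨by simp [rk], fun X Y h => ?_, fun e X => ?_, fun X Y => ?_⟩
  · have := M.eRk_mono (show (X : Set α) ⊆ Y from h)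
    rw [← coe_rk, ← coe_rk] at this
    exact_mod_cast this
  · have := M.eRk_insert_le_add_one e (X : Set α)
    rw [← coe_insert, ← coe_rk, ← coe_rk] at this
    exact_mod_cast this
  · have := M.eRk_inter_add_eRk_union_le (X : Set α) Y
    rw [← coe_inter, ← coe_union, ← coe_rk, ← coe_rk, ← coe_rk, ← coe_rk] at this
    have : rk M (X ∩ Y) + rk M (X ∪ Y) ≤ rk M X + rk M Y := by exact_mod_cast this
    omega

omit [DecidableEq α] in
lemma indep_iff (M : Matroid α) (I : Finset α) : M.Indep (I : Set α) ↔ rk M I = I.card := by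
  rw [Matroid.indep_iff_eRk_eq_encard_of_finite I.finite_toSet, ← coe_rk, Set.encard_coe_eq_coe_finsetCard]
  exact_mod_cast Iff.rfl

/-- Edmonds' matroid intersection theorem, in certificate form. -/
theorem exists_tight (M N : Matroid α) (S : Finset α) :
    ∃ I X : Finset α, I ⊆ S ∧ X ⊆ S ∧ M.Indep (I : Set α) ∧ N.Indep (I : Set α) ∧
      I.card = rk M X + rk N (S \ X) := by
  obtain ⟨X, hX, hmin⟩ := exists_min_image S.powerset (fun X => rk M X + rk N (S \ X))
    ⟨∅, by simp⟩
  obtain ⟨I, hI, hc, h1, h2⟩ := inter S (rk M) (rk N) _ (rankFn M) (rankFn N)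
    (fun Y hY => hmin Y (mem_powerset.2 hY))
  exact ⟨I, X, hI, mem_powerset.1 hX, (indep_iff M I).2 (h1.trans hc.symm),
    (indep_iff N I).2 (h2.trans hc.symm), hc⟩

end Pool.Agent.H12.MatInter
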