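import Mathlib
import Pool.Agent.H12.MatInter

set_option autoImplicit false

namespace Pool.Agent.H12.Borsuk

open Set Pool.Agent.H12.MatInter

variable {n : ℕ} (M : Matroid (Fin n))

/-- structure of the farthest pairs of bases -/
theorem structure_far : ∃ (X : Set (Fin n)) (C₁ C₂ : Set (Fin n)), X ⊆ M.E ∧
    M.IsBase C₁ ∧ M.IsBase C₂ ∧
    ∀ B₁ B₂, M.IsBase B₁ → M.IsBase B₂ → (C₁ \ C₂).ncard ≤ (B₁ \ B₂).ncard →
      M.IsBasis (B₁ ∩ X) X ∧ Disjoint (B₁ ∩ X) B₂ ∧ M.E \ X ⊆ B₁ ∪ B₂ := by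
  classical
  obtain ⟨I, X, hI, hX, h1, h2, hc⟩ := exists_tight M M✶ (toFinite M.E).toFinset
  have hXE : (X : Set (Fin n)) ⊆ M.E := fun x hx => (toFinite M.E).mem_toFinset.1 (hX hx)
  obtain ⟨C₁, hC₁, hIC₁⟩ := h1.exists_isBase_superset
  obtain ⟨-, C₂, hC₂, hdis⟩ := Matroid.dual_indep_iff_exists'.1 h2
  refine ⟨X, C₁, C₂, hXE, hC₁, hC₂, fun B₁ B₂ hB₁ hB₂ hle => ?_⟩
  have hIle : I.card ≤ (C₁ \ C₂).ncard := by
    rw [← ncard_coe_finset]
    exact ncard_le_ncard (subset_sdiff.2 ⟨hIC₁, hdis⟩) (toFinite _)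
  set Y : Finset (Fin n) := (toFinite M.E).toFinset \ X with hY
  have hYc : (Y : Set (Fin n)) = M.E \ X := by
    rw [hY, Finset.coe_sdiff, Finite.coe_toFinset]
  have split : (B₁ \ B₂).ncard = ((B₁ \ B₂) ∩ X).ncard + ((B₁ \ B₂) \ X).ncard :=
    (ncard_inter_add_ncard_sdiff_eq_ncard _ _ (toFinite _)).symm
  have u1 : (B₁ ∩ X).ncard ≤ rk M X := by
    have := (hB₁.indep.inter_right X).encard_le_eRk_of_subset (inter_subset_right (s := B₁))
    rw [← coe_rk, ← (toFinite _).cast_ncard_eq] at this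
    exact_mod_cast this
  have hco : M✶.Indep ((M.E \ B₂) ∩ Y) := hB₂.compl_isBase_dual.indep.inter_right _
  have u2 : ((M.E \ B₂) ∩ Y).ncard ≤ rk M✶ Y := by
    have := hco.encard_le_eRk_of_subset (inter_subset_right (s := M.E \ B₂))
    rw [← coe_rk, ← (toFinite _).cast_ncard_eq] at this
    exact_mod_cast this
  have s1 : (B₁ \ B₂) ∩ X ⊆ B₁ ∩ X := inter_subset_inter_left _ sdiff_subset
  have s2 : (B₁ \ B₂) \ X ⊆ (M.E \ B₂) ∩ Y := by
    rw [hYc]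
    rintro x ⟨⟨hx1, hx2⟩, hx3⟩
    exact ⟨⟨hB₁.subset_ground hx1, hx2⟩, hB₁.subset_ground hx1, hx3⟩
  have l1 := ncard_le_ncard s1 (toFinite _)
  have l2 := ncard_le_ncard s2 (toFinite _)
  have e1 : (B₁ \ B₂) ∩ X = B₁ ∩ X := eq_of_subset_of_ncard_le s1 (by omega) (toFinite _)
  have e2 : (B₁ \ B₂) \ X = (M.E \ B₂) ∩ Y := eq_of_subset_of_ncard_le s2 (by omega) (toFinite _)
  refine ⟨?_, ?_, ?_⟩
  · rw [Matroid.isBasis_iff_indep_encard_eq_of_finite (toFinite _) hXE]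
    refine ⟨inter_subset_right, hB₁.indep.inter_right _, ?_⟩
    rw [← coe_rk, ← (toFinite _).cast_ncard_eq]
    have : (B₁ ∩ X).ncard = rk M X := by omega
    exact_mod_cast this
  · rw [← e1, disjoint_left]
    rintro x ⟨⟨-, hx⟩, -⟩
    exact hx
  · intro x hx
    by_cases hx2 : x ∈ B₂
    · exact Or.inr hx2
    · have : x ∈ (M.E \ B₂) ∩ Y := ⟨⟨hx.1, hx2⟩, by rw [hYc]; exact hx⟩
      rw [← e2] at this
      exact Or.inl this.1.1

def R (x y : Fin n) : Prop :=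
  ∃ B, M.IsBase B ∧ x ∉ B ∧ y ∈ B ∧ M.IsBase (insert x (B \ {y}))

def Good (x : Fin n) : Prop := (∃ B, M.IsBase B ∧ x ∈ B) ∧ (∃ B, M.IsBase B ∧ x ∉ B)

variable {M}

lemma R.good {x y : Fin n} (h : R M x y) : Good M x ∧ Good M y := by
  obtain ⟨B, hB, hx, hy, hB'⟩ := h
  refine ⟨⟨⟨_, hB', mem_insert _ _⟩, ⟨B, hB, hx⟩⟩, ⟨⟨B, hB, hy⟩, ⟨_, hB', ?_⟩⟩⟩
  rintro (h | h)
  · exact hx (h ▸ hy)
  · exact h.2 rfl

def K (M : Matroid (Fin n)) (x₀ : Fin n) : Set (Fin n) :=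
  {y | Relation.ReflTransGen (fun a b => R M a b ∨ R M b a) x₀ y}

lemma K_good {x₀ : Fin n} (h₀ : Good M x₀) {y : Fin n} (hy : y ∈ K M x₀) : Good M y := by
  induction hy with
  | refl => exact h₀
  | tail _ h _ => exact h.elim (fun h => h.good.2) (fun h => h.good.1)

noncomputable abbrev dir (M : Matroid (Fin n)) : Submodule ℝ (Fin n → ℝ) :=
  (affineSpan ℝ ((fun B : Set (Fin n) => B.indicator (fun _ : Fin n => (1 : ℝ))) ''
                {B : Set (Fin n) | M.IsBase B})).direction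

lemma R.mem_dir {x y : Fin n} (h : R M x y) :
    (Pi.single x 1 - Pi.single y 1 : Fin n → ℝ) ∈ dir M := by
  obtain ⟨B, hB, hx, hy, hB'⟩ := h
  have := AffineSubspace.vsub_mem_direction
    (subset_affineSpan ℝ _ (mem_image_of_mem
      (fun B : Set (Fin n) => B.indicator (fun _ : Fin n => (1 : ℝ)))
      (show insert x (B \ {y}) ∈ {B : Set (Fin n) | M.IsBase B} from hB')))
    (subset_affineSpan ℝ _ (mem_image_of_mem
      (fun B : Set (Fin n) => B.indicator (fun _ : Fin n => (1 : ℝ)))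
      (show B ∈ {B : Set (Fin n) | M.IsBase B} from hB)))
  convert this using 1
  have hxy : x ≠ y := fun h => hx (h ▸ hy)
  ext z
  simp only [vsub_eq_sub, Pi.sub_apply, Pi.single_apply, indicator, mem_insert_iff, mem_sdiff,
    mem_singleton_iff]
  by_cases h1 : z = x
  · subst h1; simp [hx, hxy]
  · by_cases h2 : z = y
    · subst h2; simp [hy, h1]
    · have : z ∈ insert x (B \ {y}) ↔ z ∈ B := by simp [h1, h2]
      simp only [h1, h2, if_false, sub_self]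
      by_cases hz : z ∈ B
      · rw [if_pos hz, if_pos (this.2 hz), sub_self]
      · rw [if_neg hz, if_neg (fun h => hz (this.1 h)), sub_self]

lemma K_mem_dir {x₀ y : Fin n} (hy : y ∈ K M x₀) :
    (Pi.single y 1 - Pi.single x₀ 1 : Fin n → ℝ) ∈ dir M := by
  induction hy with
  | refl => simp
  | @tail b c _ h ih =>
    have : (Pi.single c 1 - Pi.single b 1 : Fin n → ℝ) ∈ dir M := by
      rcases h with h | h
      · have := (dir M).neg_mem h.mem_dir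
        simpa using this
      · exact h.mem_dir
    have := (dir M).add_mem this ih
    simpa using this

lemma K_card (x₀ : Fin n) : (K M x₀).ncard ≤ Module.finrank ℝ (dir M) + 1 := by
  classical
  set T : Set (Fin n) := K M x₀ \ {x₀} with hT
  let w : T → dir M := fun y => ⟨Pi.single y.1 1 - Pi.single x₀ 1, K_mem_dir y.2.1⟩
  have hw : LinearIndependent ℝ w := by
    rw [Fintype.linearIndependent_iff]
    intro g hg z
    have h1 := congrArg (fun v : dir M => (v : Fin n → ℝ) z.1) hg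
    have hz : z.1 ≠ x₀ := z.2.2
    simp only [w, AddSubmonoidClass.coe_finsetSum, SetLike.val_smul, Finset.sum_apply,
      Pi.smul_apply, Pi.sub_apply, smul_eq_mul, ZeroMemClass.coe_zero, Pi.zero_apply,
      Pi.single_apply, hz, if_false, sub_zero] at h1
    rw [Finset.sum_eq_single z] at h1
    · simpa using h1
    · intro b _ hb
      have : z.1 ≠ b.1 := fun h => hb (Subtype.ext h.symm)
      simp [this]
    · simp
  have h1 := hw.fintype_card_le_finrank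
  have h2 : Fintype.card T = T.ncard := by
    rw [← Nat.card_coe_set_eq, Nat.card_eq_fintype_card]
  have h3 : (K M x₀).ncard ≤ T.ncard + 1 := by
    have : K M x₀ ⊆ insert x₀ T := by
      intro y hy
      by_cases h : y = x₀
      · exact Or.inl h
      · exact Or.inr ⟨hy, h⟩
    exact (ncard_le_ncard this (toFinite _)).trans (ncard_insert_le _ _)
  omega

lemma miss {x₀ : Fin n} (h₀ : Good M x₀) {B : Set (Fin n)} (hB : M.IsBase B) :
    ∃ y ∈ K M x₀, y ∉ B := by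
  by_cases hx : x₀ ∈ B
  · obtain ⟨B', hB', hx'⟩ := h₀.2
    obtain ⟨y, hy, hb⟩ := hB.exchange hB' ⟨hx, hx'⟩
    exact ⟨y, Relation.ReflTransGen.single (Or.inr ⟨B, hB, hy.2, hx, hb⟩), hy.2⟩
  · exact ⟨x₀, Relation.ReflTransGen.refl, hx⟩

lemma hit {x₀ : Fin n} (h₀ : Good M x₀) {B X : Set (Fin n)} (hB : M.IsBase B)
    (hX : M.IsBasis (B ∩ X) X) {x : Fin n} (hxK : x ∈ K M x₀) (hxX : x ∈ X) :
    ∃ y ∈ K M x₀, y ∈ B ∩ X := by
  by_cases hx : x ∈ B
  · exact ⟨x, hxK, hx, hxX⟩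
  have hcl : x ∈ M.closure (B ∩ X) := hX.subset_closure hxX
  have hxI : x ∉ B ∩ X := fun h => hx h.1
  have hC := hX.indep.fundCircuit_isCircuit hcl hxI
  have hclB : x ∈ M.closure B := M.closure_subset_closure inter_subset_left hcl
  have hCsub : M.fundCircuit x (B ∩ X) ⊆ insert x B :=
    (M.fundCircuit_subset_insert _ _).trans (insert_subset_insert inter_subset_left)
  have hCe := hC.eq_fundCircuit_of_subset hB.indep hCsub
  obtain ⟨B', hB', hxB'⟩ := (K_good h₀ hxK).1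
  have hns : ¬ M.fundCircuit x (B ∩ X) ⊆ {x} := fun h =>
    hC.dep.not_indep (hB'.indep.subset (h.trans (singleton_subset_iff.2 hxB')))
  obtain ⟨y, hyC, hyx⟩ := not_subset.1 hns
  have hyx' : y ≠ x := hyx
  have hyI : y ∈ B ∩ X := ((M.fundCircuit_subset_insert _ _) hyC).resolve_left hyx'
  rw [hCe, hB.indep.mem_fundCircuit_iff hclB hx, ← insert_sdiff_singleton_comm hyx'.symm] at hyC
  have hb := hB.exchange_isBase_of_indep hx hyC
  exact ⟨y, Relation.ReflTransGen.tail hxK (Or.inl ⟨B, hB, hx, hyI.1, hb⟩), hyI⟩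

lemma symm_card {B₁ B₂ : Set (Fin n)} (h₁ : M.IsBase B₁) (h₂ : M.IsBase B₂) :
    (B₂ \ B₁).ncard = (B₁ \ B₂).ncard ∧ (symmDiff B₁ B₂).ncard = 2 * (B₁ \ B₂).ncard := by
  have h : (B₂ \ B₁).ncard = (B₁ \ B₂).ncard := by
    rw [ncard_def, ncard_def, h₂.encard_sdiff_comm h₁]
  refine ⟨h, ?_⟩
  rw [Set.symmDiff_def, ncard_union_eq disjoint_sdiff_sdiff (toFinite _) (toFinite _), h]
  ring

theorem main (M : Matroid (Fin n))
    (h : ∃ B₁ B₂ : Set (Fin n), M.IsBase B₁ ∧ M.IsBase B₂ ∧ B₁ ≠ B₂) :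
    ∃ f : Set (Fin n) → Fin (Module.finrank ℝ (dir M) + 1),
      ∀ B₁ B₂ : Set (Fin n), M.IsBase B₁ → M.IsBase B₂ → f B₁ = f B₂ →
        ∃ C₁ C₂ : Set (Fin n), M.IsBase C₁ ∧ M.IsBase C₂ ∧
          (symmDiff B₁ B₂).ncard < (symmDiff C₁ C₂).ncard := by
  classical
  obtain ⟨A₁, A₂, hA₁, hA₂, hne⟩ := h
  obtain ⟨x₀, hx₀⟩ : ∃ x, x ∈ A₁ \ A₂ := by
    by_contra hcon
    push Not at hcon
    exact hne (hA₁.eq_of_subset_isBase hA₂ fun x hx => by_contra fun h => hcon x ⟨hx, h⟩)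
  have h₀ : Good M x₀ := ⟨⟨A₁, hA₁, hx₀.1⟩, ⟨A₂, hA₂, hx₀.2⟩⟩
  obtain ⟨X, C₁, C₂, hXE, hC₁, hC₂, hfar⟩ := structure_far M
  obtain ⟨g, hg⟩ : ∃ g : Fin n → Fin (Module.finrank ℝ (dir M) + 1), InjOn g (K M x₀) := by
    have h1 : Fintype.card (K M x₀) ≤ Fintype.card (Fin (Module.finrank ℝ (dir M) + 1)) := by
      rw [Fintype.card_fin, ← Nat.card_eq_fintype_card, Nat.card_coe_set_eq]
      exact K_card x₀
    obtain ⟨e⟩ := Function.Embedding.nonempty_of_card_le h1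
    refine ⟨fun y => if h : y ∈ K M x₀ then e ⟨y, h⟩ else 0, fun a ha b hb hab => ?_⟩
    simp only [ha, hb, dif_pos] at hab
    exact congrArg Subtype.val (e.injective hab)
  have red : ∀ (P : Set (Fin n) → Fin n → Prop),
      (∀ B₁ B₂, M.IsBase B₁ → M.IsBase B₂ → (C₁ \ C₂).ncard ≤ (B₁ \ B₂).ncard →
        (∃ y ∈ K M x₀, P B₁ y) ∧ ∀ y ∈ K M x₀, P B₁ y → ¬ P B₂ y) →
      ∃ f : Set (Fin n) → Fin (Module.finrank ℝ (dir M) + 1),
      ∀ B₁ B₂ : Set (Fin n), M.IsBase B₁ → M.IsBase B₂ → f B₁ = f B₂ →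
        ∃ C₁ C₂ : Set (Fin n), M.IsBase C₁ ∧ M.IsBase C₂ ∧
          (symmDiff B₁ B₂).ncard < (symmDiff C₁ C₂).ncard := by
    intro P hP
    refine ⟨fun B => if h : ∃ y ∈ K M x₀, P B y then g h.choose else 0,
      fun B₁ B₂ h₁ h₂ hf => ⟨C₁, C₂, hC₁, hC₂, ?_⟩⟩
    rw [(symm_card h₁ h₂).2, (symm_card hC₁ hC₂).2]
    by_contra hcon
    have hle : (C₁ \ C₂).ncard ≤ (B₁ \ B₂).ncard := by omega
    obtain ⟨e1, d1⟩ := hP B₁ B₂ h₁ h₂ hle
    obtain ⟨e2, -⟩ := hP B₂ B₁ h₂ h₁ (by rw [(symm_card h₁ h₂).1]; exact hle)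
    simp only [e1, e2, dif_pos] at hf
    have := hg e1.choose_spec.1 e2.choose_spec.1 hf
    exact d1 _ e1.choose_spec.1 e1.choose_spec.2 (this ▸ e2.choose_spec.2)
  by_cases hc : ∃ x ∈ K M x₀, x ∈ X
  · obtain ⟨x, hxK, hxX⟩ := hc
    refine red (fun B y => y ∈ B ∩ X) fun B₁ B₂ h₁ h₂ hle => ?_
    obtain ⟨a, b, -⟩ := hfar B₁ B₂ h₁ h₂ hle
    exact ⟨hit h₀ h₁ a hxK hxX, fun y _ hy hy' => disjoint_left.1 b hy hy'.1⟩
  · push Not at hc
    refine red (fun B y => y ∉ B) fun B₁ B₂ h₁ h₂ hle => ?_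
    obtain ⟨-, -, c⟩ := hfar B₁ B₂ h₁ h₂ hle
    refine ⟨miss h₀ h₁, fun y hy hy1 hy2 => ?_⟩
    obtain ⟨B, hB, hyB⟩ := (K_good h₀ hy).1
    exact (c ⟨hB.subset_ground hyB, hc y hy⟩).elim hy1 hy2

end Pool.Agent.H12.Borsuk
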