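import Mathlib

set_option autoImplicit false

namespace Pool.Agent.H12.CF

open Finset

/-- reachability avoiding S -/
def Rch (A : ℕ → ℕ → Bool) (S : Finset ℕ) : ℕ → ℕ → Prop :=
  Relation.ReflTransGen (fun a b => A a b = true ∧ a ∉ S ∧ b ∉ S)

lemma Rch.symm {A : ℕ → ℕ → Bool} (hA : ∀ a b, A a b = A b a) {S : Finset ℕ} {u v : ℕ}
    (h : Rch A S u v) : Rch A S v u := by
  induction h with
  | refl => exact Relation.ReflTransGen.refl
  | tail _ h ih => exact Relation.ReflTransGen.head ⟨hA _ _ ▸ h.1, h.2.2, h.2.1⟩ ih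

def chain (A : ℕ → ℕ → Bool) : ℕ → List ℕ → Bool
  | _, [] => true
  | v, x :: xs => A v x && chain A x xs

def lastD : ℕ → List ℕ → ℕ
  | v, [] => v
  | _, x :: xs => lastD x xs

lemma chain_rch {A : ℕ → ℕ → Bool} {S : Finset ℕ} : ∀ (l : List ℕ) (v : ℕ), chain A v l = true →
    v ∉ S → (∀ x ∈ l, x ∉ S) → Rch A S v (lastD v l) ∧ lastD v l ∉ S
  | [], v, _, hv, _ => ⟨Relation.ReflTransGen.refl, hv⟩
  | x :: xs, v, h, hv, hl => by
    simp only [chain, Bool.and_eq_true] at h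
    have hx := hl x (by simp)
    have := chain_rch xs x h.2 hx (fun y hy => hl y (by simp [hy]))
    exact ⟨Relation.ReflTransGen.head ⟨h.1, hv, hx⟩ this.1, this.2⟩

lemma lastD_app (w : ℕ) : ∀ (l : List ℕ) (v : ℕ), lastD v (l ++ [w]) = w
  | [], _ => rfl
  | x :: xs, _ => lastD_app w xs x

lemma avoid : ∀ (ps : List (List ℕ)) (S : Finset ℕ), ps.flatten.Nodup → S.card < ps.length →
    ∃ p ∈ ps, ∀ x ∈ p, x ∉ S
  | [], S, _, h => by simp at h
  | p :: ps, S, hn, h => by
    by_cases c : ∀ x ∈ p, x ∉ S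
    · exact ⟨p, by simp, c⟩
    push Not at c
    obtain ⟨x, hx, hS⟩ := c
    rw [List.flatten_cons, List.nodup_append] at hn
    have h1 := card_erase_of_mem hS
    have h2 := card_pos.2 ⟨x, hS⟩
    obtain ⟨q, hq, hq'⟩ := avoid ps (S.erase x) hn.2.1 (by simp at h; omega)
    refine ⟨q, by simp [hq], fun y hy hyS => hq' y hy (mem_erase.2 ⟨?_, hyS⟩)⟩
    rintro rfl
    exact hn.2.2 y hx y (List.mem_flatten.2 ⟨q, hq, hy⟩) rfl

def pairOK (A : ℕ → ℕ → Bool) (c : ℕ × ℕ × List (List ℕ)) : Bool :=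
  c.2.2.length == 4 && decide c.2.2.flatten.Nodup && c.2.2.all (fun p => chain A c.1 (p ++ [c.2.1]))

lemma pair_rch {A : ℕ → ℕ → Bool} {c : ℕ × ℕ × List (List ℕ)} (h : pairOK A c = true)
    {S : Finset ℕ} (hS : S.card < 4) (h1 : c.1 ∉ S) (h2 : c.2.1 ∉ S) : Rch A S c.1 c.2.1 := by
  simp only [pairOK, Bool.and_eq_true, beq_iff_eq, decide_eq_true_eq, List.all_eq_true] at h
  obtain ⟨p, hp, hp'⟩ := avoid c.2.2 S h.1.2 (by omega)
  have := (chain_rch (S := S) _ _ (h.2 p hp) h1 (by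
    intro x hx
    rcases List.mem_append.1 hx with hx | hx
    · exact hp' x hx
    · rw [List.mem_singleton.1 hx]; exact h2)).1
  rwa [lastD_app] at this

def fanOK (A : ℕ → ℕ → Bool) (seen : ℕ) (c : ℕ × List (List ℕ)) : Bool :=
  c.2.length == 4 && decide c.2.flatten.Nodup &&
    c.2.all (fun p => chain A c.1 p && seen.testBit (lastD c.1 p))

def run (A : ℕ → ℕ → Bool) (N : ℕ) : ℕ → List (ℕ × List (List ℕ)) → Bool
  | seen, [] => seen == 2 ^ N - 1
  | seen, c :: cs => fanOK A seen c && run A N (seen ||| 2 ^ c.1) cs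

lemma run_ok {A : ℕ → ℕ → Bool} (hA : ∀ a b, A a b = A b a) {N : ℕ} {S : Finset ℕ}
    (hS : S.card < 4) : ∀ (cs : List (ℕ × List (List ℕ))) (seen : ℕ), run A N seen cs = true →
    (∀ u w, seen.testBit u = true → seen.testBit w = true → u ∉ S → w ∉ S → Rch A S u w) →
    ∀ u w, u < N → w < N → u ∉ S → w ∉ S → Rch A S u w
  | [], seen, h, inv => by
    simp only [run, beq_iff_eq] at h
    intro u w hu hw
    apply inv <;> simp [h, hu, hw]
  | c :: cs, seen, h, inv => by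
    simp only [run, Bool.and_eq_true] at h
    apply run_ok hA hS cs _ h.2
    have hf := h.1
    simp only [fanOK, Bool.and_eq_true, beq_iff_eq, decide_eq_true_eq, List.all_eq_true] at hf
    obtain ⟨p, hp, hp'⟩ := avoid c.2 S hf.1.2 (by omega)
    have key : ∀ u, (seen ||| 2 ^ c.1).testBit u = true → u ∉ S →
        ∃ x, seen.testBit x = true ∧ x ∉ S ∧ Rch A S u x := by
      intro u hu huS
      rw [Nat.testBit_or, Bool.or_eq_true, Nat.testBit_two_pow, decide_eq_true_eq] at hu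
      rcases hu with hu | rfl
      · exact ⟨u, hu, huS, Relation.ReflTransGen.refl⟩
      · have := chain_rch (S := S) _ _ (hf.2 p hp).1 huS hp'
        exact ⟨_, (hf.2 p hp).2, this.2, this.1⟩
    intro u w hu hw huS hwS
    obtain ⟨x, x1, x2, x3⟩ := key u hu huS
    obtain ⟨y, y1, y2, y3⟩ := key w hw hwS
    exact (x3.trans (inv x y x1 y1 x2 y2)).trans (y3.symm hA)

abbrev E2 := EuclideanSpace ℝ (Fin 2)

noncomputable def pt (p : ℕ × ℕ × ℕ) : E2 := !₂[(p.1 : ℝ) / p.2.2, (p.2.1 : ℝ) / p.2.2]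

noncomputable def ln (l : ℕ × ℕ × ℕ) : AffineSubspace ℝ E2 :=
  AffineSubspace.mk' (!₂[0, (l.2.2 : ℝ) / l.2.1] : E2)
    (Submodule.span ℝ {(!₂[(l.2.1 : ℝ), (l.1 : ℝ)] : E2)})

def inc (p l : ℕ × ℕ × ℕ) : Bool := Nat.beq (l.1 * p.1 + l.2.2 * p.2.2) (l.2.1 * p.2.1)

lemma ln_rank (l : ℕ × ℕ × ℕ) (hb : 0 < l.2.1) : Module.finrank ℝ (ln l).direction = 1 := by
  rw [ln, AffineSubspace.direction_mk']
  apply finrank_span_singleton
  intro h
  have := congrArg (fun v : E2 => v 0) h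
  simp at this
  omega

lemma mem_ln (p l : ℕ × ℕ × ℕ) (hz : 0 < p.2.2) (hb : 0 < l.2.1) :
    pt p ∈ ln l ↔ inc p l = true := by
  obtain ⟨x, y, z⟩ := p
  obtain ⟨a, b, c⟩ := l
  simp only at hz hb
  have hz' : (z : ℝ) ≠ 0 := by positivity
  have hb' : (b : ℝ) ≠ 0 := by positivity
  rw [ln, AffineSubspace.mem_mk', Submodule.mem_span_singleton, inc, Nat.beq_eq]
  simp only [pt]
  rw [← Nat.cast_inj (R := ℝ)]
  push_cast
  constructor
  · rintro ⟨t, ht⟩
    have h0 := congrArg (fun v : E2 => v 0) ht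
    have h1 := congrArg (fun v : E2 => v 1) ht
    simp at h0 h1
    field_simp at h0 h1
    linear_combination (-(a : ℝ)) * h0 + h1
  · intro h
    refine ⟨x / z / b, ?_⟩
    ext i
    fin_cases i
    · simp; field_simp
    · simp; field_simp; linear_combination h

/-- indices of the list entries with a property -/
def idxs {α : Type} (l : List α) (Q : α → Bool) : List ℕ :=
  (l.zipIdx.filter (fun z => Q z.1)).map Prod.snd

lemma mem_idxs {α : Type} (l : List α) (Q : α → Bool) (d : α) (j : ℕ) :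
    j ∈ idxs l Q ↔ j < l.length ∧ Q (l.getD j d) = true := by
  simp only [idxs, List.mem_map, List.mem_filter, Prod.exists, exists_eq_right,
    List.mem_zipIdx_iff_getElem?]
  constructor
  · rintro ⟨a, h1, h2⟩
    obtain ⟨h, rfl⟩ := List.getElem?_eq_some_iff.1 h1
    exact ⟨h, by rwa [List.getD_eq_getElem _ _ h]⟩
  · rintro ⟨h, h2⟩
    exact ⟨l[j], by simp [h], by rwa [List.getD_eq_getElem _ _ h] at h2⟩

lemma nodup_idxs {α : Type} (l : List α) (Q : α → Bool) : (idxs l Q).Nodup := by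
  have : (idxs l Q).Sublist (l.zipIdx.map Prod.snd) := List.Sublist.map _ List.filter_sublist
  apply this.nodup
  rw [List.zipIdx_map_snd]
  exact List.nodup_range'

lemma card_idxs {α : Type} (l : List α) (Q : α → Bool) (d : α) :
    ((range l.length).filter (fun j => Q (l.getD j d) = true)).card = (idxs l Q).length := by
  rw [← List.toFinset_card_of_nodup (nodup_idxs l Q)]
  congr 1
  ext j
  simp [mem_idxs l Q d]

end Pool.Agent.H12.CF
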