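import Pool.Agent.H12.CF1

set_option autoImplicit false

namespace Pool.Agent.H12.CF

open Finset Classical

lemma walk_const {V : Type} {G : SimpleGraph V} (F : V → Prop) : ∀ {u v : V} (q : G.Walk u v),
    (∀ a b, s(a, b) ∈ q.edges → (F a ↔ F b)) → ∀ w ∈ q.support, (F w ↔ F u)
  | _, _, .nil, _, w, hw => by
    simp at hw; rw [hw]
  | u, _, .cons (v := x) h q, hF, w, hw => by
    rw [SimpleGraph.Walk.support_cons, List.mem_cons] at hw
    rcases hw with rfl | hw
    · rfl
    · exact (walk_const F q (fun a b hab => hF a b (by simp [hab])) w hw).trans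
        (hF u x (by simp)).symm

/-- no connected spanning 2-regular edge set -/
def NH (n : ℕ) (I : ℕ → ℕ → Prop) : Prop :=
  ∀ C : Finset (ℕ × ℕ), (∀ x ∈ C, x.1 < n ∧ x.2 < n ∧ I x.1 x.2) →
    (∀ i, i < n → (C.filter (fun x => x.1 = i)).card = 2) →
    (∀ j, j < n → (C.filter (fun x => x.2 = j)).card = 2) →
    (∀ f g : ℕ → Prop, (∀ x ∈ C, f x.1 ↔ g x.2) → ∀ i i', i < n → i' < n → (f i ↔ f i')) → False

theorem build (n : ℕ) (hn : 3 ≤ n) (px : ℕ → E2) (lx : ℕ → AffineSubspace ℝ E2)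
    (I : ℕ → ℕ → Prop) (hI : ∀ i j, i < n → j < n → (px i ∈ lx j ↔ I i j))
    (ip : Set.InjOn px (range n : Finset ℕ)) (il : Set.InjOn lx (range n : Finset ℕ))
    (rk : ∀ j, j < n → Module.finrank ℝ (lx j).direction = 1)
    (d1 : ∀ i, i < n → ((range n).filter (fun j => I i j)).card = 4)
    (d2 : ∀ j, j < n → ((range n).filter (fun i => I i j)).card = 4)
    (A : ℕ → ℕ → Bool)
    (hA : ∀ u v, A u v = true → (u < n ∧ n ≤ v ∧ v < 2 * n ∧ I u (v - n)) ∨
      (v < n ∧ n ≤ u ∧ u < 2 * n ∧ I v (u - n)))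
    (conn : ∀ S : Finset ℕ, S.card < 4 → ∀ u w, u < 2 * n → w < 2 * n → u ∉ S → w ∉ S →
      Rch A S u w)
    (nh : NH n I) :
    ∃ (P : Finset E2) (L : Finset (AffineSubspace ℝ E2)),
      P.Nonempty ∧
      (∀ l ∈ L, Module.finrank ℝ l.direction = 1) ∧
      (∀ p ∈ P, (L.filter (fun l => p ∈ l)).card = 4) ∧
      (∀ l ∈ L, (P.filter (fun p => p ∈ l)).card = 4) ∧
      ∃ G : SimpleGraph ({p // p ∈ P} ⊕ {l // l ∈ L}),
        G = SimpleGraph.fromRel
          (fun a b : {p // p ∈ P} ⊕ {l // l ∈ L} =>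
            ∃ p l, a = Sum.inl p ∧ b = Sum.inr l ∧ (p : E2) ∈ (l : AffineSubspace ℝ E2)) ∧
        4 < Fintype.card ({p // p ∈ P} ⊕ {l // l ∈ L}) ∧
        (∀ S : Finset ({p // p ∈ P} ⊕ {l // l ∈ L}), S.card < 4 →
          (G.induce ((↑S : Set ({p // p ∈ P} ⊕ {l // l ∈ L}))ᶜ)).Connected) ∧
        ¬ G.IsHamiltonian := by
  have hn0 : 0 < n := by omega
  set P := (range n).image px with hP
  set L := (range n).image lx with hL
  have cP : P.card = n := by rw [card_image_of_injOn ip, card_range]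
  have cL : L.card = n := by rw [card_image_of_injOn il, card_range]
  have cV : Fintype.card ({p // p ∈ P} ⊕ {l // l ∈ L}) = 2 * n := by
    simp [cP, cL]; omega
  let ep : ℕ → {p // p ∈ P} := fun i => ⟨px (i % n), mem_image_of_mem _ (mem_range.2 (Nat.mod_lt _ hn0))⟩
  let el : ℕ → {l // l ∈ L} := fun i => ⟨lx (i % n), mem_image_of_mem _ (mem_range.2 (Nat.mod_lt _ hn0))⟩
  have epv : ∀ i, i < n → (ep i).1 = px i := fun i hi => by simp [ep, Nat.mod_eq_of_lt hi]
  have elv : ∀ i, i < n → (el i).1 = lx i := fun i hi => by simp [el, Nat.mod_eq_of_lt hi]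
  have epi : ∀ i j, i < n → j < n → ep i = ep j → i = j := fun i j hi hj e =>
    ip (by simpa using hi) (by simpa using hj) (by rw [← epv i hi, ← epv j hj, e])
  have eli : ∀ i j, i < n → j < n → el i = el j → i = j := fun i j hi hj e =>
    il (by simpa using hi) (by simpa using hj) (by rw [← elv i hi, ← elv j hj, e])
  have eps : ∀ p, ∃ i, i < n ∧ ep i = p := by
    rintro ⟨p, hp⟩
    obtain ⟨i, hi, rfl⟩ := mem_image.1 hp
    exact ⟨i, mem_range.1 hi, Subtype.ext (epv i (mem_range.1 hi))⟩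
  have els : ∀ p, ∃ i, i < n ∧ el i = p := by
    rintro ⟨p, hp⟩
    obtain ⟨i, hi, rfl⟩ := mem_image.1 hp
    exact ⟨i, mem_range.1 hi, Subtype.ext (elv i (mem_range.1 hi))⟩
  refine ⟨P, L, card_pos.1 (by omega), ?_, ?_, ?_, _, rfl, by omega, ?_, ?_⟩
  · intro l hl
    obtain ⟨j, hj, rfl⟩ := mem_image.1 hl
    exact rk j (mem_range.1 hj)
  · intro p hp
    obtain ⟨i, hi, rfl⟩ := mem_image.1 hp
    rw [hL, filter_image, card_image_of_injOn (il.mono (coe_subset.2 (filter_subset _ _))),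
      ← d1 i (mem_range.1 hi)]
    congr 1
    exact filter_congr (fun j hj => hI i j (mem_range.1 hi) (mem_range.1 hj))
  · intro l hl
    obtain ⟨j, hj, rfl⟩ := mem_image.1 hl
    rw [hP, filter_image, card_image_of_injOn (ip.mono (coe_subset.2 (filter_subset _ _))),
      ← d2 j (mem_range.1 hj)]
    congr 1
    exact filter_congr (fun i hi => hI i j (mem_range.1 hi) (mem_range.1 hj))
  · intro S hS
    set G := SimpleGraph.fromRel (fun a b : {p // p ∈ P} ⊕ {l // l ∈ L} =>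
      ∃ p l, a = Sum.inl p ∧ b = Sum.inr l ∧ (p : E2) ∈ (l : AffineSubspace ℝ E2)) with hG
    let e : ℕ → {p // p ∈ P} ⊕ {l // l ∈ L} := fun u =>
      if u < n then Sum.inl (ep u) else Sum.inr (el (u - n))
    have ei : ∀ u w, u < 2 * n → w < 2 * n → e u = e w → u = w := by
      intro u w hu hw h
      simp only [e] at h
      split_ifs at h with h1 h2 h2
      · exact epi _ _ h1 h2 (Sum.inl_injective h)
      · have := eli _ _ (by omega) (by omega) (Sum.inr_injective h); omega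
    have es : ∀ x, ∃ u, u < 2 * n ∧ e u = x := by
      rintro (p | l)
      · obtain ⟨i, hi, rfl⟩ := eps p
        exact ⟨i, by omega, by simp [e, hi]⟩
      · obtain ⟨i, hi, rfl⟩ := els l
        exact ⟨n + i, by omega, by simp [e]⟩
    have adj : ∀ u v, u < n → n ≤ v → v < 2 * n → I u (v - n) → G.Adj (e u) (e v) := by
      intro u v h1 h2 h3 h4
      have h5 : ¬ v < n := by omega
      simp only [e, h1, h5, if_true, if_false, hG, SimpleGraph.fromRel_adj]
      refine ⟨by simp, Or.inl ⟨_, _, rfl, rfl, ?_⟩⟩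
      rw [epv _ h1, elv _ (by omega)]
      exact (hI _ _ h1 (by omega)).2 h4
    set S' := (range (2 * n)).filter (fun u => e u ∈ S) with hS'
    have cS : S'.card ≤ S.card := by
      apply card_le_card_of_injOn e
      · intro u hu
        exact (mem_filter.1 hu).2
      · intro u hu w hw h
        exact ei u w (mem_range.1 (mem_filter.1 hu).1) (mem_range.1 (mem_filter.1 hw).1) h
    have tr : ∀ u w, Rch A S' u w → ∀ (hu : e u ∈ ((↑S : Set _)ᶜ : Set _))
        (hw : e w ∈ ((↑S : Set _)ᶜ : Set _)), (G.induce _).Reachable ⟨e u, hu⟩ ⟨e w, hw⟩ := by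
      intro u w h
      induction h with
      | refl => intro _ _; rfl
      | @tail b c _ h ih =>
        intro hu hw
        have := hA _ _ h.1
        have hb : e b ∈ ((↑S : Set _)ᶜ : Set _) := fun z =>
          h.2.1 (mem_filter.2 ⟨mem_range.2 (by omega), z⟩)
        refine (ih hu hb).trans (SimpleGraph.Adj.reachable ?_)
        show G.Adj (e b) (e c)
        rcases this with ⟨a1, a2, a3, a4⟩ | ⟨a1, a2, a3, a4⟩
        · exact adj _ _ a1 a2 a3 a4
        · exact (adj _ _ a1 a2 a3 a4).symm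
    have ne : ∃ x, x ∉ S := by
      by_contra c
      push Not at c
      have : S = univ := eq_univ_of_forall c
      rw [this, card_univ, cV] at hS
      omega
    obtain ⟨x0, hx0⟩ := ne
    have : Nonempty ((↑S : Set ({p // p ∈ P} ⊕ {l // l ∈ L}))ᶜ : Set _) := ⟨⟨x0, hx0⟩⟩
    refine SimpleGraph.Connected.mk ?_
    rintro ⟨x, hx⟩ ⟨y, hy⟩
    obtain ⟨u, hu, rfl⟩ := es x
    obtain ⟨w, hw, rfl⟩ := es y
    exact tr u w (conn S' (by omega) u w hu hw (fun z => hx (mem_filter.1 z).2)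
      (fun z => hy (mem_filter.1 z).2)) hx hy
  · intro hH
    obtain ⟨a, p, hp⟩ := hH (by omega)
    set C := (range n ×ˢ range n).filter
      (fun x => p.toSubgraph.Adj (Sum.inl (ep x.1)) (Sum.inr (el x.2))) with hC
    have mC : ∀ x, x ∈ C ↔ x.1 < n ∧ x.2 < n ∧
        p.toSubgraph.Adj (Sum.inl (ep x.1)) (Sum.inr (el x.2)) := by
      intro x; simp [hC, and_assoc]
    have shape : ∀ a b, p.toSubgraph.Adj a b →
        ∃ x ∈ C, (a = Sum.inl (ep x.1) ∧ b = Sum.inr (el x.2)) ∨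
          (b = Sum.inl (ep x.1) ∧ a = Sum.inr (el x.2)) := by
      intro a b h
      have := p.toSubgraph.adj_sub h
      rw [SimpleGraph.fromRel_adj] at this
      rcases this.2 with ⟨q, l, rfl, rfl, _⟩ | ⟨q, l, rfl, rfl, _⟩
      · obtain ⟨i, hi, rfl⟩ := eps q
        obtain ⟨j, hj, rfl⟩ := els l
        exact ⟨(i, j), (mC _).2 ⟨hi, hj, h⟩, Or.inl ⟨rfl, rfl⟩⟩
      · obtain ⟨i, hi, rfl⟩ := eps q
        obtain ⟨j, hj, rfl⟩ := els l
        exact ⟨(i, j), (mC _).2 ⟨hi, hj, h.symm⟩, Or.inr ⟨rfl, rfl⟩⟩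
    apply nh C
    · intro x hx
      obtain ⟨h1, h2, h3⟩ := (mC x).1 hx
      refine ⟨h1, h2, ?_⟩
      have := p.toSubgraph.adj_sub h3
      rw [SimpleGraph.fromRel_adj] at this
      rcases this.2 with ⟨q, l, e1, e2, e3⟩ | ⟨q, l, e1, e2, _⟩
      · rw [← Sum.inl_injective e1, ← Sum.inr_injective e2, epv _ h1, elv _ h2] at e3
        exact (hI _ _ h1 h2).1 e3
      · simp at e1
    · intro i hi
      rw [← hp.isCycle.ncard_neighborSet_toSubgraph_eq_two (hp.mem_support (Sum.inl (ep i))),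
        ← Set.ncard_coe_finset]
      apply Set.ncard_congr (fun x _ => Sum.inr (el x.2))
      · intro x hx
        obtain ⟨h1, rfl⟩ := mem_filter.1 hx
        exact ((mC x).1 h1).2.2
      · intro x y hx hy h
        obtain ⟨h1, h2⟩ := mem_filter.1 hx
        obtain ⟨h3, h4⟩ := mem_filter.1 hy
        exact Prod.ext (h2.trans h4.symm)
          (eli _ _ ((mC x).1 h1).2.1 ((mC y).1 h3).2.1 (Sum.inr_injective h))
      · intro b hb
        obtain ⟨x, hx, ⟨e1, e2⟩ | ⟨e1, e2⟩⟩ := shape _ _ hb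
        · exact ⟨x, mem_filter.2 ⟨hx, (epi _ _ hi ((mC x).1 hx).1 (Sum.inl_injective e1)).symm⟩,
            e2.symm⟩
        · simp at e2
    · intro j hj
      rw [← hp.isCycle.ncard_neighborSet_toSubgraph_eq_two (hp.mem_support (Sum.inr (el j))),
        ← Set.ncard_coe_finset]
      apply Set.ncard_congr (fun x _ => Sum.inl (ep x.1))
      · intro x hx
        obtain ⟨h1, rfl⟩ := mem_filter.1 hx
        exact ((mC x).1 h1).2.2.symm
      · intro x y hx hy h
        obtain ⟨h1, h2⟩ := mem_filter.1 hx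
        obtain ⟨h3, h4⟩ := mem_filter.1 hy
        exact Prod.ext (epi _ _ ((mC x).1 h1).1 ((mC y).1 h3).1 (Sum.inl_injective h))
          (h2.trans h4.symm)
      · intro b hb
        obtain ⟨x, hx, ⟨e1, e2⟩ | ⟨e1, e2⟩⟩ := shape _ _ hb
        · simp at e1
        · exact ⟨x, mem_filter.2
            ⟨hx, (eli _ _ hj ((mC x).1 hx).2.1 (Sum.inr_injective e2)).symm⟩, e1.symm⟩
    · intro f g hfg i i' hi hi'
      let F : {p // p ∈ P} ⊕ {l // l ∈ L} → Prop := fun z =>
        (∃ i, i < n ∧ z = Sum.inl (ep i) ∧ f i) ∨ (∃ j, j < n ∧ z = Sum.inr (el j) ∧ g j)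
      have F1 : ∀ i, i < n → (F (Sum.inl (ep i)) ↔ f i) := by
        intro i hi
        constructor
        · rintro (⟨t, ht, e, h⟩ | ⟨t, ht, e, h⟩)
          · rwa [epi _ _ hi ht (Sum.inl_injective e)]
          · simp at e
        · exact fun h => Or.inl ⟨i, hi, rfl, h⟩
      have F2 : ∀ i, i < n → (F (Sum.inr (el i)) ↔ g i) := by
        intro i hi
        constructor
        · rintro (⟨t, ht, e, h⟩ | ⟨t, ht, e, h⟩)
          · simp at e
          · rwa [eli _ _ hi ht (Sum.inr_injective e)]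
        · exact fun h => Or.inr ⟨i, hi, rfl, h⟩
      have := walk_const F p (by
        intro a b hab
        obtain ⟨x, hx, ⟨rfl, rfl⟩ | ⟨rfl, rfl⟩⟩ :=
          shape a b (SimpleGraph.Walk.adj_toSubgraph_iff_mem_edges.2 hab)
        · rw [F1 _ ((mC x).1 hx).1, F2 _ ((mC x).1 hx).2.1]; exact hfg x hx
        · rw [F1 _ ((mC x).1 hx).1, F2 _ ((mC x).1 hx).2.1]; exact (hfg x hx).symm)
      exact (F1 i hi).symm.trans ((this _ (hp.mem_support _)).trans
        ((this _ (hp.mem_support _)).symm.trans (F1 i' hi')))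

end Pool.Agent.H12.CF
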