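import Pool.Agent.H12.CFD

set_option autoImplicit false

namespace Pool.Agent.H12.CF

def nb (i : ℕ) : List ℕ :=
  [(TB >>> (40 * i)) % 1024, (TB >>> (40 * i + 10)) % 1024, (TB >>> (40 * i + 20)) % 1024,
    (TB >>> (40 * i + 30)) % 1024]

def hit (i j : ℕ) : Bool := (nb i).any (fun x => Nat.beq x j)

def AD (u v : ℕ) : Bool :=
  if u < 534 then decide (534 ≤ v) && hit u (v - 534) else decide (v < 534) && hit v (u - 534)

def gp (i : ℕ) : ℕ := if i < 270 then i / 45 else 6 + (i - 270) / 44
def gl (i : ℕ) : ℕ := if i < 264 then i / 44 else 6 + (i - 264) / 45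

def ndB : ℕ → List ℕ → Bool
  | _, [] => true
  | s, x :: xs => !(s.testBit x) && ndB (s ||| 2 ^ x) xs

lemma ndB_ok : ∀ (l : List ℕ) (s : ℕ), ndB s l = true → l.Nodup ∧ ∀ x ∈ l, s.testBit x = false
  | [], _, _ => by simp
  | x :: xs, s, h => by
    simp only [ndB, Bool.and_eq_true, Bool.not_eq_true'] at h
    obtain ⟨h1, h2⟩ := ndB_ok xs _ h.2
    simp only [Nat.testBit_or, Bool.or_eq_false_iff, Nat.testBit_two_pow,
      decide_eq_false_iff_not] at h2
    refine ⟨List.nodup_cons.2 ⟨fun c => (h2 x c).2 rfl, h1⟩, ?_⟩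
    intro y hy
    rcases List.mem_cons.1 hy with rfl | hy
    · exact h.1
    · exact (h2 y hy).1

def code (l : List ℕ) : ℕ := l.headD 0 * 534 + l.tail.headD 0

lemma chk4' : ndB 0 (NBL.map code) = true := by decide +kernel
lemma chk5' : ndB 0 (PLL.map code) = true := by decide +kernel
lemma chk4 : NBL.Nodup := (ndB_ok _ _ chk4').1.of_map _
lemma chk5 : PLL.Nodup := (ndB_ok _ _ chk5').1.of_map _
lemma lenP : PT.length = 534 := by decide +kernel
lemma lenL : LN.length = 534 := by decide +kernel
lemma posP : PT.all (fun p => decide (0 < p.2.2)) = true := by decide +kernel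
lemma posL : LN.all (fun p => decide (0 < p.2.1)) = true := by decide +kernel
lemma chk3 : (List.range 534).map nb = NBL := by decide +kernel
lemma chk6 : PLL.all (fun l => l.length == 4) = true := by decide +kernel
lemma chk7 : PR.all (pairOK AD) = true := by decide +kernel
lemma chk8 : run AD 1068 (2 ^ 0 ||| 2 ^ 534 ||| 2 ^ 1 ||| 2 ^ 554) FAN = true := by decide +kernel
lemma chk9 : (List.range 534).all (fun i => (nb i).all
    (fun j => Nat.beq (gp i) (gl j) || EXT.contains (i, j))) = true := by decide +kernel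

end Pool.Agent.H12.CF
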