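import Pool.Agent.H12.CF3

set_option autoImplicit false

namespace Pool.Agent.H12.CF

open Finset

def mm (g h : ℕ) : ℕ := (EXT.filter (fun x => gp x.1 = g ∧ gl x.2 = h)).length

lemma cnt_eq (n g : ℕ) (f : ℕ → ℕ) : ((range n).filter (fun i => f i = g)).card =
    (List.range n).countP (fun i => Nat.beq (f i) g) := by
  rw [List.countP_eq_length_filter, ← List.toFinset_card_of_nodup (List.nodup_range.filter _)]
  congr 1
  ext x
  simp

lemma cntP : ∀ g ∈ List.range 12, ((range 534).filter (fun i => gp i = g)).card =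
    if g < 6 then 45 else 44 := by
  intro g hg
  have : ∀ g ∈ List.range 12, (List.range 534).countP (fun i => Nat.beq (gp i) g) =
    if g < 6 then 45 else 44 := by decide +kernel
  rw [← this g hg, cnt_eq]

lemma cntL : ∀ g ∈ List.range 12, ((range 534).filter (fun i => gl i = g)).card =
    if g < 6 then 44 else 45 := by
  intro g hg
  have : ∀ g ∈ List.range 12, (List.range 534).countP (fun i => Nat.beq (gl i) g) =
    if g < 6 then 44 else 45 := by decide +kernel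
  rw [← this g hg, cnt_eq]

def BB : List (ℕ × ℕ) := [(0, 10), (0, 11), (1, 8), (1, 9), (1, 11), (2, 7), (2, 9), (2, 10), (3, 7), (3, 8), (4, 6), (4, 8), (4, 10), (5, 6), (5, 7), (5, 11)]

lemma mm0 : ∀ g ∈ List.range 12, ∀ h ∈ List.range 12, (g, h) ∉ BB → mm g h = 0 := by
  decide +kernel

lemma fin_base (y : ℕ → ℕ → ℕ)
    (hb : ∀ g h, g ≠ h → y g h ≤ mm g h)
    (hr : ∀ g, g < 12 → ∑ h ∈ range 12, y g h = 2 * if g < 6 then 45 else 44)
    (hc : ∀ h, h < 12 → ∑ g ∈ range 12, y g h = 2 * if h < 6 then 44 else 45)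
    (cut : ∀ X : List ℕ, (∃ a ∈ X, a < 12) → (∃ b < 12, b ∉ X) →
      ∃ z ∈ BB, ¬ (z.1 ∈ X ↔ z.2 ∈ X) ∧ 0 < y z.1 z.2) : False := by
  have z0_1 : y 0 1 = 0 := Nat.le_zero.1 ((hb 0 1 (by decide)).trans (mm0 0 (by decide) 1 (by decide) (by decide)).le)
  have z0_2 : y 0 2 = 0 := Nat.le_zero.1 ((hb 0 2 (by decide)).trans (mm0 0 (by decide) 2 (by decide) (by decide)).le)
  have z0_3 : y 0 3 = 0 := Nat.le_zero.1 ((hb 0 3 (by decide)).trans (mm0 0 (by decide) 3 (by decide) (by decide)).le)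
  have z0_4 : y 0 4 = 0 := Nat.le_zero.1 ((hb 0 4 (by decide)).trans (mm0 0 (by decide) 4 (by decide) (by decide)).le)
  have z0_5 : y 0 5 = 0 := Nat.le_zero.1 ((hb 0 5 (by decide)).trans (mm0 0 (by decide) 5 (by decide) (by decide)).le)
  have z0_6 : y 0 6 = 0 := Nat.le_zero.1 ((hb 0 6 (by decide)).trans (mm0 0 (by decide) 6 (by decide) (by decide)).le)
  have z0_7 : y 0 7 = 0 := Nat.le_zero.1 ((hb 0 7 (by decide)).trans (mm0 0 (by decide) 7 (by decide) (by decide)).le)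
  have z0_8 : y 0 8 = 0 := Nat.le_zero.1 ((hb 0 8 (by decide)).trans (mm0 0 (by decide) 8 (by decide) (by decide)).le)
  have z0_9 : y 0 9 = 0 := Nat.le_zero.1 ((hb 0 9 (by decide)).trans (mm0 0 (by decide) 9 (by decide) (by decide)).le)
  have b0_10 : y 0 10 ≤ 2 := (hb 0 10 (by decide)).trans (by decide +kernel)
  have b0_11 : y 0 11 ≤ 2 := (hb 0 11 (by decide)).trans (by decide +kernel)
  have z1_0 : y 1 0 = 0 := Nat.le_zero.1 ((hb 1 0 (by decide)).trans (mm0 1 (by decide) 0 (by decide) (by decide)).le)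
  have z1_2 : y 1 2 = 0 := Nat.le_zero.1 ((hb 1 2 (by decide)).trans (mm0 1 (by decide) 2 (by decide) (by decide)).le)
  have z1_3 : y 1 3 = 0 := Nat.le_zero.1 ((hb 1 3 (by decide)).trans (mm0 1 (by decide) 3 (by decide) (by decide)).le)
  have z1_4 : y 1 4 = 0 := Nat.le_zero.1 ((hb 1 4 (by decide)).trans (mm0 1 (by decide) 4 (by decide) (by decide)).le)
  have z1_5 : y 1 5 = 0 := Nat.le_zero.1 ((hb 1 5 (by decide)).trans (mm0 1 (by decide) 5 (by decide) (by decide)).le)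
  have z1_6 : y 1 6 = 0 := Nat.le_zero.1 ((hb 1 6 (by decide)).trans (mm0 1 (by decide) 6 (by decide) (by decide)).le)
  have z1_7 : y 1 7 = 0 := Nat.le_zero.1 ((hb 1 7 (by decide)).trans (mm0 1 (by decide) 7 (by decide) (by decide)).le)
  have b1_8 : y 1 8 ≤ 1 := (hb 1 8 (by decide)).trans (by decide +kernel)
  have b1_9 : y 1 9 ≤ 2 := (hb 1 9 (by decide)).trans (by decide +kernel)
  have z1_10 : y 1 10 = 0 := Nat.le_zero.1 ((hb 1 10 (by decide)).trans (mm0 1 (by decide) 10 (by decide) (by decide)).le)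
  have b1_11 : y 1 11 ≤ 1 := (hb 1 11 (by decide)).trans (by decide +kernel)
  have z2_0 : y 2 0 = 0 := Nat.le_zero.1 ((hb 2 0 (by decide)).trans (mm0 2 (by decide) 0 (by decide) (by decide)).le)
  have z2_1 : y 2 1 = 0 := Nat.le_zero.1 ((hb 2 1 (by decide)).trans (mm0 2 (by decide) 1 (by decide) (by decide)).le)
  have z2_3 : y 2 3 = 0 := Nat.le_zero.1 ((hb 2 3 (by decide)).trans (mm0 2 (by decide) 3 (by decide) (by decide)).le)
  have z2_4 : y 2 4 = 0 := Nat.le_zero.1 ((hb 2 4 (by decide)).trans (mm0 2 (by decide) 4 (by decide) (by decide)).le)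
  have z2_5 : y 2 5 = 0 := Nat.le_zero.1 ((hb 2 5 (by decide)).trans (mm0 2 (by decide) 5 (by decide) (by decide)).le)
  have z2_6 : y 2 6 = 0 := Nat.le_zero.1 ((hb 2 6 (by decide)).trans (mm0 2 (by decide) 6 (by decide) (by decide)).le)
  have b2_7 : y 2 7 ≤ 1 := (hb 2 7 (by decide)).trans (by decide +kernel)
  have z2_8 : y 2 8 = 0 := Nat.le_zero.1 ((hb 2 8 (by decide)).trans (mm0 2 (by decide) 8 (by decide) (by decide)).le)
  have b2_9 : y 2 9 ≤ 2 := (hb 2 9 (by decide)).trans (by decide +kernel)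
  have b2_10 : y 2 10 ≤ 1 := (hb 2 10 (by decide)).trans (by decide +kernel)
  have z2_11 : y 2 11 = 0 := Nat.le_zero.1 ((hb 2 11 (by decide)).trans (mm0 2 (by decide) 11 (by decide) (by decide)).le)
  have z3_0 : y 3 0 = 0 := Nat.le_zero.1 ((hb 3 0 (by decide)).trans (mm0 3 (by decide) 0 (by decide) (by decide)).le)
  have z3_1 : y 3 1 = 0 := Nat.le_zero.1 ((hb 3 1 (by decide)).trans (mm0 3 (by decide) 1 (by decide) (by decide)).le)
  have z3_2 : y 3 2 = 0 := Nat.le_zero.1 ((hb 3 2 (by decide)).trans (mm0 3 (by decide) 2 (by decide) (by decide)).le)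
  have z3_4 : y 3 4 = 0 := Nat.le_zero.1 ((hb 3 4 (by decide)).trans (mm0 3 (by decide) 4 (by decide) (by decide)).le)
  have z3_5 : y 3 5 = 0 := Nat.le_zero.1 ((hb 3 5 (by decide)).trans (mm0 3 (by decide) 5 (by decide) (by decide)).le)
  have z3_6 : y 3 6 = 0 := Nat.le_zero.1 ((hb 3 6 (by decide)).trans (mm0 3 (by decide) 6 (by decide) (by decide)).le)
  have b3_7 : y 3 7 ≤ 2 := (hb 3 7 (by decide)).trans (by decide +kernel)
  have b3_8 : y 3 8 ≤ 2 := (hb 3 8 (by decide)).trans (by decide +kernel)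
  have z3_9 : y 3 9 = 0 := Nat.le_zero.1 ((hb 3 9 (by decide)).trans (mm0 3 (by decide) 9 (by decide) (by decide)).le)
  have z3_10 : y 3 10 = 0 := Nat.le_zero.1 ((hb 3 10 (by decide)).trans (mm0 3 (by decide) 10 (by decide) (by decide)).le)
  have z3_11 : y 3 11 = 0 := Nat.le_zero.1 ((hb 3 11 (by decide)).trans (mm0 3 (by decide) 11 (by decide) (by decide)).le)
  have z4_0 : y 4 0 = 0 := Nat.le_zero.1 ((hb 4 0 (by decide)).trans (mm0 4 (by decide) 0 (by decide) (by decide)).le)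
  have z4_1 : y 4 1 = 0 := Nat.le_zero.1 ((hb 4 1 (by decide)).trans (mm0 4 (by decide) 1 (by decide) (by decide)).le)
  have z4_2 : y 4 2 = 0 := Nat.le_zero.1 ((hb 4 2 (by decide)).trans (mm0 4 (by decide) 2 (by decide) (by decide)).le)
  have z4_3 : y 4 3 = 0 := Nat.le_zero.1 ((hb 4 3 (by decide)).trans (mm0 4 (by decide) 3 (by decide) (by decide)).le)
  have z4_5 : y 4 5 = 0 := Nat.le_zero.1 ((hb 4 5 (by decide)).trans (mm0 4 (by decide) 5 (by decide) (by decide)).le)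
  have b4_6 : y 4 6 ≤ 2 := (hb 4 6 (by decide)).trans (by decide +kernel)
  have z4_7 : y 4 7 = 0 := Nat.le_zero.1 ((hb 4 7 (by decide)).trans (mm0 4 (by decide) 7 (by decide) (by decide)).le)
  have b4_8 : y 4 8 ≤ 1 := (hb 4 8 (by decide)).trans (by decide +kernel)
  have z4_9 : y 4 9 = 0 := Nat.le_zero.1 ((hb 4 9 (by decide)).trans (mm0 4 (by decide) 9 (by decide) (by decide)).le)
  have b4_10 : y 4 10 ≤ 1 := (hb 4 10 (by decide)).trans (by decide +kernel)
  have z4_11 : y 4 11 = 0 := Nat.le_zero.1 ((hb 4 11 (by decide)).trans (mm0 4 (by decide) 11 (by decide) (by decide)).le)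
  have z5_0 : y 5 0 = 0 := Nat.le_zero.1 ((hb 5 0 (by decide)).trans (mm0 5 (by decide) 0 (by decide) (by decide)).le)
  have z5_1 : y 5 1 = 0 := Nat.le_zero.1 ((hb 5 1 (by decide)).trans (mm0 5 (by decide) 1 (by decide) (by decide)).le)
  have z5_2 : y 5 2 = 0 := Nat.le_zero.1 ((hb 5 2 (by decide)).trans (mm0 5 (by decide) 2 (by decide) (by decide)).le)
  have z5_3 : y 5 3 = 0 := Nat.le_zero.1 ((hb 5 3 (by decide)).trans (mm0 5 (by decide) 3 (by decide) (by decide)).le)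
  have z5_4 : y 5 4 = 0 := Nat.le_zero.1 ((hb 5 4 (by decide)).trans (mm0 5 (by decide) 4 (by decide) (by decide)).le)
  have b5_6 : y 5 6 ≤ 2 := (hb 5 6 (by decide)).trans (by decide +kernel)
  have b5_7 : y 5 7 ≤ 1 := (hb 5 7 (by decide)).trans (by decide +kernel)
  have z5_8 : y 5 8 = 0 := Nat.le_zero.1 ((hb 5 8 (by decide)).trans (mm0 5 (by decide) 8 (by decide) (by decide)).le)
  have z5_9 : y 5 9 = 0 := Nat.le_zero.1 ((hb 5 9 (by decide)).trans (mm0 5 (by decide) 9 (by decide) (by decide)).le)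
  have z5_10 : y 5 10 = 0 := Nat.le_zero.1 ((hb 5 10 (by decide)).trans (mm0 5 (by decide) 10 (by decide) (by decide)).le)
  have b5_11 : y 5 11 ≤ 1 := (hb 5 11 (by decide)).trans (by decide +kernel)
  have z6_0 : y 6 0 = 0 := Nat.le_zero.1 ((hb 6 0 (by decide)).trans (mm0 6 (by decide) 0 (by decide) (by decide)).le)
  have z6_1 : y 6 1 = 0 := Nat.le_zero.1 ((hb 6 1 (by decide)).trans (mm0 6 (by decide) 1 (by decide) (by decide)).le)
  have z6_2 : y 6 2 = 0 := Nat.le_zero.1 ((hb 6 2 (by decide)).trans (mm0 6 (by decide) 2 (by decide) (by decide)).le)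
  have z6_3 : y 6 3 = 0 := Nat.le_zero.1 ((hb 6 3 (by decide)).trans (mm0 6 (by decide) 3 (by decide) (by decide)).le)
  have z6_4 : y 6 4 = 0 := Nat.le_zero.1 ((hb 6 4 (by decide)).trans (mm0 6 (by decide) 4 (by decide) (by decide)).le)
  have z6_5 : y 6 5 = 0 := Nat.le_zero.1 ((hb 6 5 (by decide)).trans (mm0 6 (by decide) 5 (by decide) (by decide)).le)
  have z6_7 : y 6 7 = 0 := Nat.le_zero.1 ((hb 6 7 (by decide)).trans (mm0 6 (by decide) 7 (by decide) (by decide)).le)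
  have z6_8 : y 6 8 = 0 := Nat.le_zero.1 ((hb 6 8 (by decide)).trans (mm0 6 (by decide) 8 (by decide) (by decide)).le)
  have z6_9 : y 6 9 = 0 := Nat.le_zero.1 ((hb 6 9 (by decide)).trans (mm0 6 (by decide) 9 (by decide) (by decide)).le)
  have z6_10 : y 6 10 = 0 := Nat.le_zero.1 ((hb 6 10 (by decide)).trans (mm0 6 (by decide) 10 (by decide) (by decide)).le)
  have z6_11 : y 6 11 = 0 := Nat.le_zero.1 ((hb 6 11 (by decide)).trans (mm0 6 (by decide) 11 (by decide) (by decide)).le)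
  have z7_0 : y 7 0 = 0 := Nat.le_zero.1 ((hb 7 0 (by decide)).trans (mm0 7 (by decide) 0 (by decide) (by decide)).le)
  have z7_1 : y 7 1 = 0 := Nat.le_zero.1 ((hb 7 1 (by decide)).trans (mm0 7 (by decide) 1 (by decide) (by decide)).le)
  have z7_2 : y 7 2 = 0 := Nat.le_zero.1 ((hb 7 2 (by decide)).trans (mm0 7 (by decide) 2 (by decide) (by decide)).le)
  have z7_3 : y 7 3 = 0 := Nat.le_zero.1 ((hb 7 3 (by decide)).trans (mm0 7 (by decide) 3 (by decide) (by decide)).le)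
  have z7_4 : y 7 4 = 0 := Nat.le_zero.1 ((hb 7 4 (by decide)).trans (mm0 7 (by decide) 4 (by decide) (by decide)).le)
  have z7_5 : y 7 5 = 0 := Nat.le_zero.1 ((hb 7 5 (by decide)).trans (mm0 7 (by decide) 5 (by decide) (by decide)).le)
  have z7_6 : y 7 6 = 0 := Nat.le_zero.1 ((hb 7 6 (by decide)).trans (mm0 7 (by decide) 6 (by decide) (by decide)).le)
  have z7_8 : y 7 8 = 0 := Nat.le_zero.1 ((hb 7 8 (by decide)).trans (mm0 7 (by decide) 8 (by decide) (by decide)).le)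
  have z7_9 : y 7 9 = 0 := Nat.le_zero.1 ((hb 7 9 (by decide)).trans (mm0 7 (by decide) 9 (by decide) (by decide)).le)
  have z7_10 : y 7 10 = 0 := Nat.le_zero.1 ((hb 7 10 (by decide)).trans (mm0 7 (by decide) 10 (by decide) (by decide)).le)
  have z7_11 : y 7 11 = 0 := Nat.le_zero.1 ((hb 7 11 (by decide)).trans (mm0 7 (by decide) 11 (by decide) (by decide)).le)
  have z8_0 : y 8 0 = 0 := Nat.le_zero.1 ((hb 8 0 (by decide)).trans (mm0 8 (by decide) 0 (by decide) (by decide)).le)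
  have z8_1 : y 8 1 = 0 := Nat.le_zero.1 ((hb 8 1 (by decide)).trans (mm0 8 (by decide) 1 (by decide) (by decide)).le)
  have z8_2 : y 8 2 = 0 := Nat.le_zero.1 ((hb 8 2 (by decide)).trans (mm0 8 (by decide) 2 (by decide) (by decide)).le)
  have z8_3 : y 8 3 = 0 := Nat.le_zero.1 ((hb 8 3 (by decide)).trans (mm0 8 (by decide) 3 (by decide) (by decide)).le)
  have z8_4 : y 8 4 = 0 := Nat.le_zero.1 ((hb 8 4 (by decide)).trans (mm0 8 (by decide) 4 (by decide) (by decide)).le)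
  have z8_5 : y 8 5 = 0 := Nat.le_zero.1 ((hb 8 5 (by decide)).trans (mm0 8 (by decide) 5 (by decide) (by decide)).le)
  have z8_6 : y 8 6 = 0 := Nat.le_zero.1 ((hb 8 6 (by decide)).trans (mm0 8 (by decide) 6 (by decide) (by decide)).le)
  have z8_7 : y 8 7 = 0 := Nat.le_zero.1 ((hb 8 7 (by decide)).trans (mm0 8 (by decide) 7 (by decide) (by decide)).le)
  have z8_9 : y 8 9 = 0 := Nat.le_zero.1 ((hb 8 9 (by decide)).trans (mm0 8 (by decide) 9 (by decide) (by decide)).le)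
  have z8_10 : y 8 10 = 0 := Nat.le_zero.1 ((hb 8 10 (by decide)).trans (mm0 8 (by decide) 10 (by decide) (by decide)).le)
  have z8_11 : y 8 11 = 0 := Nat.le_zero.1 ((hb 8 11 (by decide)).trans (mm0 8 (by decide) 11 (by decide) (by decide)).le)
  have z9_0 : y 9 0 = 0 := Nat.le_zero.1 ((hb 9 0 (by decide)).trans (mm0 9 (by decide) 0 (by decide) (by decide)).le)
  have z9_1 : y 9 1 = 0 := Nat.le_zero.1 ((hb 9 1 (by decide)).trans (mm0 9 (by decide) 1 (by decide) (by decide)).le)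
  have z9_2 : y 9 2 = 0 := Nat.le_zero.1 ((hb 9 2 (by decide)).trans (mm0 9 (by decide) 2 (by decide) (by decide)).le)
  have z9_3 : y 9 3 = 0 := Nat.le_zero.1 ((hb 9 3 (by decide)).trans (mm0 9 (by decide) 3 (by decide) (by decide)).le)
  have z9_4 : y 9 4 = 0 := Nat.le_zero.1 ((hb 9 4 (by decide)).trans (mm0 9 (by decide) 4 (by decide) (by decide)).le)
  have z9_5 : y 9 5 = 0 := Nat.le_zero.1 ((hb 9 5 (by decide)).trans (mm0 9 (by decide) 5 (by decide) (by decide)).le)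
  have z9_6 : y 9 6 = 0 := Nat.le_zero.1 ((hb 9 6 (by decide)).trans (mm0 9 (by decide) 6 (by decide) (by decide)).le)
  have z9_7 : y 9 7 = 0 := Nat.le_zero.1 ((hb 9 7 (by decide)).trans (mm0 9 (by decide) 7 (by decide) (by decide)).le)
  have z9_8 : y 9 8 = 0 := Nat.le_zero.1 ((hb 9 8 (by decide)).trans (mm0 9 (by decide) 8 (by decide) (by decide)).le)
  have z9_10 : y 9 10 = 0 := Nat.le_zero.1 ((hb 9 10 (by decide)).trans (mm0 9 (by decide) 10 (by decide) (by decide)).le)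
  have z9_11 : y 9 11 = 0 := Nat.le_zero.1 ((hb 9 11 (by decide)).trans (mm0 9 (by decide) 11 (by decide) (by decide)).le)
  have z10_0 : y 10 0 = 0 := Nat.le_zero.1 ((hb 10 0 (by decide)).trans (mm0 10 (by decide) 0 (by decide) (by decide)).le)
  have z10_1 : y 10 1 = 0 := Nat.le_zero.1 ((hb 10 1 (by decide)).trans (mm0 10 (by decide) 1 (by decide) (by decide)).le)
  have z10_2 : y 10 2 = 0 := Nat.le_zero.1 ((hb 10 2 (by decide)).trans (mm0 10 (by decide) 2 (by decide) (by decide)).le)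
  have z10_3 : y 10 3 = 0 := Nat.le_zero.1 ((hb 10 3 (by decide)).trans (mm0 10 (by decide) 3 (by decide) (by decide)).le)
  have z10_4 : y 10 4 = 0 := Nat.le_zero.1 ((hb 10 4 (by decide)).trans (mm0 10 (by decide) 4 (by decide) (by decide)).le)
  have z10_5 : y 10 5 = 0 := Nat.le_zero.1 ((hb 10 5 (by decide)).trans (mm0 10 (by decide) 5 (by decide) (by decide)).le)
  have z10_6 : y 10 6 = 0 := Nat.le_zero.1 ((hb 10 6 (by decide)).trans (mm0 10 (by decide) 6 (by decide) (by decide)).le)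
  have z10_7 : y 10 7 = 0 := Nat.le_zero.1 ((hb 10 7 (by decide)).trans (mm0 10 (by decide) 7 (by decide) (by decide)).le)
  have z10_8 : y 10 8 = 0 := Nat.le_zero.1 ((hb 10 8 (by decide)).trans (mm0 10 (by decide) 8 (by decide) (by decide)).le)
  have z10_9 : y 10 9 = 0 := Nat.le_zero.1 ((hb 10 9 (by decide)).trans (mm0 10 (by decide) 9 (by decide) (by decide)).le)
  have z10_11 : y 10 11 = 0 := Nat.le_zero.1 ((hb 10 11 (by decide)).trans (mm0 10 (by decide) 11 (by decide) (by decide)).le)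
  have z11_0 : y 11 0 = 0 := Nat.le_zero.1 ((hb 11 0 (by decide)).trans (mm0 11 (by decide) 0 (by decide) (by decide)).le)
  have z11_1 : y 11 1 = 0 := Nat.le_zero.1 ((hb 11 1 (by decide)).trans (mm0 11 (by decide) 1 (by decide) (by decide)).le)
  have z11_2 : y 11 2 = 0 := Nat.le_zero.1 ((hb 11 2 (by decide)).trans (mm0 11 (by decide) 2 (by decide) (by decide)).le)
  have z11_3 : y 11 3 = 0 := Nat.le_zero.1 ((hb 11 3 (by decide)).trans (mm0 11 (by decide) 3 (by decide) (by decide)).le)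
  have z11_4 : y 11 4 = 0 := Nat.le_zero.1 ((hb 11 4 (by decide)).trans (mm0 11 (by decide) 4 (by decide) (by decide)).le)
  have z11_5 : y 11 5 = 0 := Nat.le_zero.1 ((hb 11 5 (by decide)).trans (mm0 11 (by decide) 5 (by decide) (by decide)).le)
  have z11_6 : y 11 6 = 0 := Nat.le_zero.1 ((hb 11 6 (by decide)).trans (mm0 11 (by decide) 6 (by decide) (by decide)).le)
  have z11_7 : y 11 7 = 0 := Nat.le_zero.1 ((hb 11 7 (by decide)).trans (mm0 11 (by decide) 7 (by decide) (by decide)).le)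
  have z11_8 : y 11 8 = 0 := Nat.le_zero.1 ((hb 11 8 (by decide)).trans (mm0 11 (by decide) 8 (by decide) (by decide)).le)
  have z11_9 : y 11 9 = 0 := Nat.le_zero.1 ((hb 11 9 (by decide)).trans (mm0 11 (by decide) 9 (by decide) (by decide)).le)
  have z11_10 : y 11 10 = 0 := Nat.le_zero.1 ((hb 11 10 (by decide)).trans (mm0 11 (by decide) 10 (by decide) (by decide)).le)
  have r0 := hr 0 (by decide)
  have c0 := hc 0 (by decide)
  have r1 := hr 1 (by decide)
  have c1 := hc 1 (by decide)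
  have r2 := hr 2 (by decide)
  have c2 := hc 2 (by decide)
  have r3 := hr 3 (by decide)
  have c3 := hc 3 (by decide)
  have r4 := hr 4 (by decide)
  have c4 := hc 4 (by decide)
  have r5 := hr 5 (by decide)
  have c5 := hc 5 (by decide)
  have r6 := hr 6 (by decide)
  have c6 := hc 6 (by decide)
  have r7 := hr 7 (by decide)
  have c7 := hc 7 (by decide)
  have r8 := hr 8 (by decide)
  have c8 := hc 8 (by decide)
  have r9 := hr 9 (by decide)
  have c9 := hc 9 (by decide)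
  have r10 := hr 10 (by decide)
  have c10 := hc 10 (by decide)
  have r11 := hr 11 (by decide)
  have c11 := hc 11 (by decide)
  simp only [Finset.sum_range_succ, Finset.sum_range_zero,
    z0_1, z0_2, z0_3, z0_4, z0_5, z0_6, z0_7, z0_8, z0_9, z1_0, z1_2, z1_3, z1_4, z1_5, z1_6, z1_7, z1_10, z2_0, z2_1, z2_3, z2_4, z2_5, z2_6, z2_8, z2_11, z3_0, z3_1, z3_2, z3_4, z3_5, z3_6, z3_9, z3_10, z3_11, z4_0, z4_1, z4_2, z4_3, z4_5, z4_7, z4_9, z4_11, z5_0, z5_1, z5_2, z5_3, z5_4, z5_8, z5_9, z5_10, z6_0, z6_1, z6_2, z6_3, z6_4, z6_5, z6_7, z6_8, z6_9, z6_10, z6_11, z7_0, z7_1, z7_2, z7_3, z7_4, z7_5, z7_6, z7_8, z7_9, z7_10, z7_11, z8_0, z8_1, z8_2, z8_3, z8_4, z8_5, z8_6, z8_7, z8_9, z8_10, z8_11, z9_0, z9_1, z9_2, z9_3, z9_4, z9_5, z9_6, z9_7, z9_8, z9_10, z9_11, z10_0, z10_1, z10_2, z10_3, z10_4, z10_5, z10_6, z10_7, z10_8, z10_9, z10_11, z11_0, z11_1, z11_2, z11_3, z11_4, z11_5, z11_6, z11_7, z11_8, z11_9, z11_10] at r0 c0 r1 c1 r2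 c2 r3 c3 r4 c4 r5 c5 r6 c6 r7 c7 r8 c8 r9 c9 r10 c10 r11 c11
  norm_num at r0 c0 r1 c1 r2 c2 r3 c3 r4 c4 r5 c5 r6 c6 r7 c7 r8 c8 r9 c9 r10 c10 r11 c11
  clear z0_1 z0_2 z0_3 z0_4 z0_5 z0_6 z0_7 z0_8 z0_9 z1_0 z1_2 z1_3 z1_4 z1_5 z1_6 z1_7 z1_10 z2_0 z2_1 z2_3 z2_4 z2_5 z2_6 z2_8 z2_11 z3_0 z3_1 z3_2 z3_4 z3_5 z3_6 z3_9 z3_10 z3_11 z4_0 z4_1 z4_2 z4_3 z4_5 z4_7 z4_9 z4_11 z5_0 z5_1 z5_2 z5_3 z5_4 z5_8 z5_9 z5_10 z6_0 z6_1 z6_2 z6_3 z6_4 z6_5 z6_7 z6_8 z6_9 z6_10 z6_11 z7_0 z7_1 z7_2 z7_3 z7_4 z7_5 z7_6 z7_8 z7_9 z7_10 z7_11 z8_0 z8_1 z8_2 z8_3 z8_4 z8_5 z8_6 z8_7 z8_9 z8_10 z8_11 z9_0 z9_1 z9_2 z9_3 z9_4 z9_5 z9_6 z9_7 z9_8 z9_10 z9_11 z10_0 z10_1 z10_2 z10_3 z10_4 z10_5 z10_6 z10_7 z10_8 z10_9 z10_11 z11_0 z11_1 z11_2 z11_3 z11_4 z11_5 z11_6 z11_7 z11_8 z11_9 z11_10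
  have k0 : 1 ≤ y 0 11 + y 2 10 + y 4 10 := by
    obtain ⟨z, h1, h2, h3⟩ := cut [0, 10] (by decide) (by decide)
    simp only [BB, List.mem_cons, List.not_mem_nil, or_false] at h1
    rcases h1 with rfl | rfl | rfl | rfl | rfl | rfl | rfl | rfl | rfl | rfl | rfl | rfl | rfl | rfl | rfl | rfl
    all_goals first | exact absurd (by decide) h2 | (simp only at h3; clear * - h3; omega)
  have k1 : 1 ≤ y 0 10 + y 1 11 + y 5 11 := by
    obtain ⟨z, h1, h2, h3⟩ := cut [0, 11] (by decide) (by decide)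
    simp only [BB, List.mem_cons, List.not_mem_nil, or_false] at h1
    rcases h1 with rfl | rfl | rfl | rfl | rfl | rfl | rfl | rfl | rfl | rfl | rfl | rfl | rfl | rfl | rfl | rfl
    all_goals first | exact absurd (by decide) h2 | (simp only at h3; clear * - h3; omega)
  have k2 : 1 ≤ y 1 8 + y 1 11 + y 2 9 := by
    obtain ⟨z, h1, h2, h3⟩ := cut [1, 9] (by decide) (by decide)
    simp only [BB, List.mem_cons, List.not_mem_nil, or_false] at h1
    rcases h1 with rfl | rfl | rfl | rfl | rfl | rfl | rfl | rfl | rfl | rfl | rfl | rfl | rfl | rfl | rfl | rfl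
    all_goals first | exact absurd (by decide) h2 | (simp only at h3; clear * - h3; omega)
  have k3 : 1 ≤ y 1 9 + y 2 7 + y 2 10 := by
    obtain ⟨z, h1, h2, h3⟩ := cut [2, 9] (by decide) (by decide)
    simp only [BB, List.mem_cons, List.not_mem_nil, or_false] at h1
    rcases h1 with rfl | rfl | rfl | rfl | rfl | rfl | rfl | rfl | rfl | rfl | rfl | rfl | rfl | rfl | rfl | rfl
    all_goals first | exact absurd (by decide) h2 | (simp only at h3; clear * - h3; omega)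
  have k4 : 1 ≤ y 2 7 + y 3 8 + y 5 7 := by
    obtain ⟨z, h1, h2, h3⟩ := cut [3, 7] (by decide) (by decide)
    simp only [BB, List.mem_cons, List.not_mem_nil, or_false] at h1
    rcases h1 with rfl | rfl | rfl | rfl | rfl | rfl | rfl | rfl | rfl | rfl | rfl | rfl | rfl | rfl | rfl | rfl
    all_goals first | exact absurd (by decide) h2 | (simp only at h3; clear * - h3; omega)
  have k5 : 1 ≤ y 1 8 + y 3 7 + y 4 8 := by
    obtain ⟨z, h1, h2, h3⟩ := cut [3, 8] (by decide) (by decide)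
    simp only [BB, List.mem_cons, List.not_mem_nil, or_false] at h1
    rcases h1 with rfl | rfl | rfl | rfl | rfl | rfl | rfl | rfl | rfl | rfl | rfl | rfl | rfl | rfl | rfl | rfl
    all_goals first | exact absurd (by decide) h2 | (simp only at h3; clear * - h3; omega)
  have k6 : 1 ≤ y 4 8 + y 4 10 + y 5 6 := by
    obtain ⟨z, h1, h2, h3⟩ := cut [4, 6] (by decide) (by decide)
    simp only [BB, List.mem_cons, List.not_mem_nil, or_false] at h1
    rcases h1 with rfl | rfl | rfl | rfl | rfl | rfl | rfl | rfl | rfl | rfl | rfl | rfl | rfl | rfl | rfl | rfl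
    all_goals first | exact absurd (by decide) h2 | (simp only at h3; clear * - h3; omega)
  have k7 : 1 ≤ y 4 6 + y 5 7 + y 5 11 := by
    obtain ⟨z, h1, h2, h3⟩ := cut [5, 6] (by decide) (by decide)
    simp only [BB, List.mem_cons, List.not_mem_nil, or_false] at h1
    rcases h1 with rfl | rfl | rfl | rfl | rfl | rfl | rfl | rfl | rfl | rfl | rfl | rfl | rfl | rfl | rfl | rfl
    all_goals first | exact absurd (by decide) h2 | (simp only at h3; clear * - h3; omega)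
  have k8 : 1 ≤ y 1 11 + y 2 10 + y 4 8 + y 5 7 := by
    obtain ⟨z, h1, h2, h3⟩ := cut [1, 8, 3, 7, 2, 9] (by decide) (by decide)
    simp only [BB, List.mem_cons, List.not_mem_nil, or_false] at h1
    rcases h1 with rfl | rfl | rfl | rfl | rfl | rfl | rfl | rfl | rfl | rfl | rfl | rfl | rfl | rfl | rfl | rfl
    all_goals first | exact absurd (by decide) h2 | (simp only at h3; clear * - h3; omega)
  have k9 : 1 ≤ y 1 8 + y 2 7 + y 4 10 + y 5 11 := by
    obtain ⟨z, h1, h2, h3⟩ := cut [8, 4, 6, 5, 7, 3] (by decide) (by decide)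
    simp only [BB, List.mem_cons, List.not_mem_nil, or_false] at h1
    rcases h1 with rfl | rfl | rfl | rfl | rfl | rfl | rfl | rfl | rfl | rfl | rfl | rfl | rfl | rfl | rfl | rfl
    all_goals first | exact absurd (by decide) h2 | (simp only at h3; clear * - h3; omega)
  have : y 1 8 = 0 ∨ y 1 8 = 1 := by omega
  rcases this with h | h <;> omega

end Pool.Agent.H12.CF
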