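import Pool.Agent.H12.CFD

set_option autoImplicit false

namespace Pool.Agent.H12.CF

lemma chk1_6 : PT6.map (fun p => idxs LN (fun l => inc p l)) = NBL6 := by decide +kernel
lemma chk1_7 : PT7.map (fun p => idxs LN (fun l => inc p l)) = NBL7 := by decide +kernel
lemma chk1_8 : PT8.map (fun p => idxs LN (fun l => inc p l)) = NBL8 := by decide +kernel

end Pool.Agent.H12.CF
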