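import Pool.Agent.H12.CFD

set_option autoImplicit false

namespace Pool.Agent.H12.CF

lemma chk2_0 : LN0.map (fun l => idxs PT (fun p => inc p l)) = PLL0 := by decide +kernel
lemma chk2_1 : LN1.map (fun l => idxs PT (fun p => inc p l)) = PLL1 := by decide +kernel
lemma chk2_2 : LN2.map (fun l => idxs PT (fun p => inc p l)) = PLL2 := by decide +kernel

end Pool.Agent.H12.CF
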