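import Pool.Agent.H12.CFD

set_option autoImplicit false

namespace Pool.Agent.H12.CF

lemma chk2_6 : LN6.map (fun l => idxs PT (fun p => inc p l)) = PLL6 := by decide +kernel
lemma chk2_7 : LN7.map (fun l => idxs PT (fun p => inc p l)) = PLL7 := by decide +kernel
lemma chk2_8 : LN8.map (fun l => idxs PT (fun p => inc p l)) = PLL8 := by decide +kernel

end Pool.Agent.H12.CF
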