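import Pool.Agent.H12.CF2
import Pool.Agent.H12.CF5
import Pool.Agent.H12.CFa0
import Pool.Agent.H12.CFa1
import Pool.Agent.H12.CFa2
import Pool.Agent.H12.CFb0
import Pool.Agent.H12.CFb1
import Pool.Agent.H12.CFb2

set_option autoImplicit false

namespace Pool.Agent.H12.CF

open Finset

lemma chk1 : PT.map (fun p => idxs LN (fun l => inc p l)) = NBL := by
  unfold PT NBL
  simp only [List.map_append, chk1_0, chk1_1, chk1_2, chk1_3, chk1_4, chk1_5, chk1_6, chk1_7, chk1_8]

lemma chk2 : LN.map (fun l => idxs PT (fun p => inc p l)) = PLL := by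
  conv_lhs => arg 2; unfold LN
  unfold PLL
  simp only [List.map_append, chk2_0, chk2_1, chk2_2, chk2_3, chk2_4, chk2_5, chk2_6, chk2_7, chk2_8]

attribute [local irreducible] PT LN NBL PLL FAN PR TB

def pI (i : ℕ) : ℕ × ℕ × ℕ := PT.getD i (0, 0, 0)
def lI (i : ℕ) : ℕ × ℕ × ℕ := LN.getD i (0, 0, 0)
def II (i j : ℕ) : Prop := inc (pI i) (lI j) = true

lemma pI_eq {i : ℕ} (hi : i < 534) : pI i = PT[i]'(lenP ▸ hi) := List.getD_eq_getElem _ _ _
lemma lI_eq {i : ℕ} (hi : i < 534) : lI i = LN[i]'(lenL ▸ hi) := List.getD_eq_getElem _ _ _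

lemma nb_eq {i : ℕ} (hi : i < 534) : nb i = idxs LN (fun l => inc (pI i) l) := by
  have h := congrArg (fun l => l[i]?) (chk3.trans chk1.symm)
  simp only [List.getElem?_map, List.getElem?_range hi,
    List.getElem?_eq_getElem (lenP ▸ hi : i < PT.length), Option.map_some, Option.some.injEq] at h
  rw [h, pI_eq hi]

lemma mem_nb {i j : ℕ} (hi : i < 534) : j ∈ nb i ↔ j < 534 ∧ II i j := by
  rw [nb_eq hi, mem_idxs _ _ (0, 0, 0), lenL]; rfl

lemma hit_iff {i j : ℕ} : hit i j = true ↔ j ∈ nb i := by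
  simp only [hit, List.any_eq_true, Nat.beq_eq, exists_eq_right]

lemma hII (i j : ℕ) (hi : i < 534) (hj : j < 534) : pt (pI i) ∈ ln (lI j) ↔ II i j := by
  apply mem_ln
  · have := List.all_eq_true.1 posP _ (List.getElem_mem (lenP ▸ hi : i < PT.length))
    rw [pI_eq hi]; simpa using this
  · have := List.all_eq_true.1 posL _ (List.getElem_mem (lenL ▸ hj : j < LN.length))
    rw [lI_eq hj]; simpa using this

lemma idxs_ext {α : Type} (l : List α) (Q Q' : α → Bool) (h : ∀ a ∈ l, Q a = Q' a) :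
    idxs l Q = idxs l Q' := by
  unfold idxs
  congr 1
  apply List.filter_congr
  intro z hz
  exact h _ (List.mem_of_getElem? (List.mem_zipIdx_iff_getElem?.1 hz))

lemma injP : Set.InjOn (fun i => pt (pI i)) (range 534 : Finset ℕ) := by
  intro i hi j hj e
  have hi' : i < 534 := by simpa using hi
  have hj' : j < 534 := by simpa using hj
  have n := chk4
  rw [← chk1] at n
  have := (List.Nodup.getElem_inj_iff n (i := i) (j := j) (hi := by simpa [lenP] using hi')
    (hj := by simpa [lenP] using hj')).1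
  apply this
  simp only [List.getElem_map]
  apply idxs_ext
  intro l hl
  obtain ⟨t, ht, rfl⟩ := List.getElem_of_mem hl
  have ht' : t < 534 := lenL ▸ ht
  have a := hII i t hi' ht'
  have b := hII j t hj' ht'
  simp only at e
  rw [e, b, II, II, pI_eq hi', pI_eq hj', lI_eq ht'] at a
  exact Bool.eq_iff_iff.2 a.symm

lemma injL : Set.InjOn (fun i => ln (lI i)) (range 534 : Finset ℕ) := by
  intro i hi j hj e
  have hi' : i < 534 := by simpa using hi
  have hj' : j < 534 := by simpa using hj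
  have n := chk5
  rw [← chk2] at n
  have := (List.Nodup.getElem_inj_iff n (i := i) (j := j) (hi := by simpa [lenL] using hi')
    (hj := by simpa [lenL] using hj')).1
  apply this
  simp only [List.getElem_map]
  apply idxs_ext
  intro l hl
  obtain ⟨t, ht, rfl⟩ := List.getElem_of_mem hl
  have ht' : t < 534 := lenP ▸ ht
  have a := hII t i ht' hi'
  have b := hII t j ht' hj'
  simp only at e
  rw [e, b, II, II, lI_eq hi', lI_eq hj', pI_eq ht'] at a
  exact Bool.eq_iff_iff.2 a.symm

open Classical in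
lemma deg1 (i : ℕ) (hi : i < 534) : ((range 534).filter (fun j => II i j)).card = 4 := by
  have := card_idxs LN (fun l => inc (pI i) l) (0, 0, 0)
  rw [← nb_eq hi, lenL] at this
  exact (congrArg card (by ext x; simp only [mem_filter]; rfl)).trans this

open Classical in
lemma deg2 (j : ℕ) (hj : j < 534) : ((range 534).filter (fun i => II i j)).card = 4 := by
  have := card_idxs PT (fun p => inc p (lI j)) (0, 0, 0)
  have m : idxs PT (fun p => inc p (lI j)) ∈ PLL := by
    rw [← chk2, lI_eq hj]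
    exact List.mem_map_of_mem (f := fun l => idxs PT (fun p => inc p l)) (List.getElem_mem _)
  have c' := List.all_eq_true.1 chk6 _ m
  rw [beq_iff_eq] at c'
  rw [c', lenP] at this
  exact (congrArg card (by ext x; simp only [mem_filter]; rfl)).trans this

lemma AD_symm (a b : ℕ) : AD a b = AD b a := by
  unfold AD
  generalize hit = H
  by_cases h1 : a < 534 <;> by_cases h2 : b < 534
  · have a1 : ¬ 534 ≤ a := by omega
    have a2 : ¬ 534 ≤ b := by omega
    simp [h1, h2, a1, a2]
  · have a2 : 534 ≤ b := by omega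
    simp [h1, h2, a2]
  · have a2 : 534 ≤ a := by omega
    simp [h1, h2, a2]
  · simp [h1, h2]

lemma AD_ok (u v : ℕ) (h : AD u v = true) :
    (u < 534 ∧ 534 ≤ v ∧ v < 2 * 534 ∧ II u (v - 534)) ∨
      (v < 534 ∧ 534 ≤ u ∧ u < 2 * 534 ∧ II v (u - 534)) := by
  unfold AD at h
  split_ifs at h with h1
  · simp only [Bool.and_eq_true, decide_eq_true_eq, hit_iff, mem_nb h1] at h
    exact Or.inl ⟨h1, h.1, by omega, h.2.2⟩
  · simp only [Bool.and_eq_true, decide_eq_true_eq, hit_iff] at h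
    have := (mem_nb h.1).1 h.2
    exact Or.inr ⟨h.1, by omega, by omega, this.2⟩

lemma chk10 : ∀ u ∈ [0, 534, 1, 554], ∀ w ∈ [0, 534, 1, 554], u = w ∨
    ∃ c ∈ PR, (c.1 = u ∧ c.2.1 = w) ∨ (c.1 = w ∧ c.2.1 = u) := by decide +kernel

lemma four_bits (a b c d x : ℕ) (hx : (2 ^ a ||| 2 ^ b ||| 2 ^ c ||| 2 ^ d : ℕ).testBit x = true) :
    x ∈ [a, b, c, d] := by
  simp only [Nat.testBit_or, Nat.testBit_two_pow, Bool.or_eq_true, decide_eq_true_eq] at hx
  simp only [List.mem_cons]
  omega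

lemma conn (S : Finset ℕ) (hS : S.card < 4) (u w : ℕ) (hu : u < 2 * 534) (hw : w < 2 * 534)
    (h1 : u ∉ S) (h2 : w ∉ S) : Rch AD S u w := by
  refine run_ok AD_symm hS FAN _ chk8 ?_ u w hu hw h1 h2
  have m := four_bits 0 534 1 554
  intro x y hx hy x1 y1
  rcases chk10 x (m x hx) y (m y hy) with rfl | ⟨c, hc, ⟨rfl, rfl⟩ | ⟨rfl, rfl⟩⟩
  · exact Relation.ReflTransGen.refl
  · exact pair_rch (List.all_eq_true.1 chk7 c hc) hS x1 y1
  · exact (pair_rch (List.all_eq_true.1 chk7 c hc) hS y1 x1).symm AD_symm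

lemma gp_lt {i : ℕ} (hi : i < 534) : gp i < 12 := by unfold gp; split_ifs <;> omega
lemma gl_lt {i : ℕ} (hi : i < 534) : gl i < 12 := by unfold gl; split_ifs <;> omega
lemma gp_surj (g : ℕ) (hg : g < 12) : ∃ i, i < 534 ∧ gp i = g := by
  have := cntP g (List.mem_range.2 hg)
  obtain ⟨i, hi⟩ : ((range 534).filter (fun i => gp i = g)).Nonempty :=
    card_pos.1 (by rw [this]; split_ifs <;> omega)
  exact ⟨i, mem_range.1 (mem_filter.1 hi).1, (mem_filter.1 hi).2⟩

lemma nonham : NH 534 II := by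
  intro C h0 h1 h2 h3
  have ext : ∀ x ∈ C, gp x.1 = gl x.2 ∨ x ∈ EXT := by
    intro x hx
    obtain ⟨a, b, c⟩ := h0 x hx
    have := List.all_eq_true.1 (List.all_eq_true.1 chk9 _ (List.mem_range.2 a)) _
      ((mem_nb a).2 ⟨b, c⟩)
    simpa using this
  have hb : ∀ g h, g ≠ h → (C.filter (fun x => gp x.1 = g ∧ gl x.2 = h)).card ≤ mm g h := by
    intro g h hgh
    refine le_trans (card_le_card ?_) (List.toFinset_card_le _)
    intro x hx
    obtain ⟨a, b, c⟩ := mem_filter.1 hx
    rw [List.mem_toFinset, List.mem_filter]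
    exact ⟨(ext x a).resolve_left (by omega), by simp [b, c]⟩
  apply fin_base (fun g h => (C.filter (fun x => gp x.1 = g ∧ gl x.2 = h)).card) hb
  · intro g hg
    have a := card_eq_sum_card_fiberwise (s := C.filter (fun x => gp x.1 = g)) (t := range 12)
      (f := fun x => gl x.2) (fun x hx => mem_range.2 (gl_lt (h0 x (mem_filter.1 hx).1).2.1))
    have b := card_eq_sum_card_fiberwise (s := C.filter (fun x => gp x.1 = g))
      (t := (range 534).filter (fun i => gp i = g)) (f := fun x => x.1)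
      (fun x hx => mem_filter.2 ⟨mem_range.2 (h0 x (mem_filter.1 hx).1).1, (mem_filter.1 hx).2⟩)
    simp only [filter_filter] at a
    rw [← a, b, ← cntP g (List.mem_range.2 hg), mul_comm, ← smul_eq_mul, ← sum_const]
    apply sum_congr rfl
    intro i hi
    rw [← h1 i (mem_range.1 (mem_filter.1 hi).1), filter_filter]
    congr 1
    apply filter_congr
    intro x _
    exact ⟨fun z => z.2, fun z => ⟨z ▸ (mem_filter.1 hi).2, z⟩⟩
  · intro g hg
    have a := card_eq_sum_card_fiberwise (s := C.filter (fun x => gl x.2 = g)) (t := range 12)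
      (f := fun x => gp x.1) (fun x hx => mem_range.2 (gp_lt (h0 x (mem_filter.1 hx).1).1))
    have b := card_eq_sum_card_fiberwise (s := C.filter (fun x => gl x.2 = g))
      (t := (range 534).filter (fun i => gl i = g)) (f := fun x => x.2)
      (fun x hx => mem_filter.2 ⟨mem_range.2 (h0 x (mem_filter.1 hx).1).2.1, (mem_filter.1 hx).2⟩)
    simp only [filter_filter, and_comm (a := gl _ = g)] at a
    rw [← a, b, ← cntL g (List.mem_range.2 hg), mul_comm, ← smul_eq_mul, ← sum_const]
    apply sum_congr rfl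
    intro i hi
    rw [← h2 i (mem_range.1 (mem_filter.1 hi).1), filter_filter]
    congr 1
    apply filter_congr
    intro x _
    exact ⟨fun z => z.2, fun z => ⟨z ▸ (mem_filter.1 hi).2, z⟩⟩
  · rintro X ⟨a, ha, ha'⟩ ⟨b, hb', hbX⟩
    by_contra c
    obtain ⟨i, hi, rfl⟩ := gp_surj a ha'
    obtain ⟨i', hi', rfl⟩ := gp_surj b hb'
    apply hbX
    refine (h3 (fun i => gp i ∈ X) (fun j => gl j ∈ X) ?_ i i' hi hi').1 ha
    intro x hx
    by_contra c2
    have ne : gp x.1 ≠ gl x.2 := fun e => c2 (by rw [e])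
    have pos : 0 < (C.filter (fun z => gp z.1 = gp x.1 ∧ gl z.2 = gl x.2)).card :=
      card_pos.2 ⟨x, mem_filter.2 ⟨hx, rfl, rfl⟩⟩
    refine c ⟨(gp x.1, gl x.2), ?_, c2, pos⟩
    by_contra c3
    have := mm0 _ (List.mem_range.2 (gp_lt (h0 x hx).1)) _
      (List.mem_range.2 (gl_lt (h0 x hx).2.1)) c3
    have := hb _ _ ne
    omega

open Classical in
theorem main :
    ∃ (P : Finset E2) (L : Finset (AffineSubspace ℝ E2)),
      P.Nonempty ∧
      (∀ l ∈ L, Module.finrank ℝ l.direction = 1) ∧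
      (∀ p ∈ P, (L.filter (fun l => p ∈ l)).card = 4) ∧
      (∀ l ∈ L, (P.filter (fun p => p ∈ l)).card = 4) ∧
      ∃ G : SimpleGraph ({p // p ∈ P} ⊕ {l // l ∈ L}),
        G = SimpleGraph.fromRel
          (fun a b : {p // p ∈ P} ⊕ {l // l ∈ L} =>
            ∃ p l, a = Sum.inl p ∧ b = Sum.inr l ∧ (p : E2) ∈ (l : AffineSubspace ℝ E2)) ∧
        4 < Fintype.card ({p // p ∈ P} ⊕ {l // l ∈ L}) ∧
        (∀ S : Finset ({p // p ∈ P} ⊕ {l // l ∈ L}), S.card < 4 →
          (G.induce ((↑S : Set ({p // p ∈ P} ⊕ {l // l ∈ L}))ᶜ)).Connected) ∧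
        ¬ G.IsHamiltonian :=
  build 534 (by norm_num) (fun i => pt (pI i)) (fun j => ln (lI j)) II hII injP injL
    (fun j hj => ln_rank _ (by
      have := List.all_eq_true.1 posL _ (List.getElem_mem (lenL ▸ hj : j < LN.length))
      rw [lI_eq hj]; simpa using this))
    deg1 deg2 AD AD_ok conn nonham

end Pool.Agent.H12.CF
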