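import Mathlib

set_option autoImplicit false

namespace Pool.Agent.H12.Finner

open Finset

variable {I : Type*} [Fintype I] [DecidableEq I]

/-- Uniform average over the cube. -/
noncomputable def ev (f : (I → Bool) → ℝ) : ℝ := (∑ x, f x) / Fintype.card (I → Bool)

lemma card_pos : (0 : ℝ) < Fintype.card (I → Bool) := by exact_mod_cast Fintype.card_pos

lemma ev_mono {f g : (I → Bool) → ℝ} (h : ∀ x, f x ≤ g x) : ev f ≤ ev g :=
  div_le_div_of_nonneg_right (sum_le_sum fun x _ => h x) card_pos.le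

lemma ev_const (a : ℝ) : ev (fun _ : I → Bool => a) = a := by
  have := card_pos (I := I)
  simp only [ev, sum_const, card_univ, nsmul_eq_mul]
  field_simp

lemma ev_nonneg {f : (I → Bool) → ℝ} (h : ∀ x, 0 ≤ f x) : 0 ≤ ev f :=
  (ev_const (I := I) 0).symm.le.trans (ev_mono h)

lemma ev_add (f g : (I → Bool) → ℝ) : ev (fun x => f x + g x) = ev f + ev g := by
  simp only [ev, sum_add_distrib, add_div]

lemma ev_mul (a : ℝ) (f : (I → Bool) → ℝ) : ev (fun x => a * f x) = a * ev f := by
  simp only [ev, ← mul_sum, mul_div_assoc]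

lemma ev_sum {κ : Type*} (s : Finset κ) (f : κ → (I → Bool) → ℝ) :
    ev (fun x => ∑ k ∈ s, f k x) = ∑ k ∈ s, ev (f k) := by
  simp only [ev]
  rw [sum_comm, sum_div]

lemma ev_invol (σ : (I → Bool) → (I → Bool)) (h : Function.Involutive σ) (f : (I → Bool) → ℝ) :
    ev (fun x => f (σ x)) = ev f := by
  simp only [ev]
  rw [Fintype.sum_equiv h.toPerm (fun x => f (σ x)) f (fun _ => rfl)]

lemma ev_avg (i : I) (f : (I → Bool) → ℝ) :
    ev (fun x => (f (Function.update x i false) + f (Function.update x i true)) / 2) = ev f := by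
  have h : Function.Involutive (fun x : I → Bool => Function.update x i (!x i)) := by
    intro x; simp
  have e : (fun x => (f (Function.update x i false) + f (Function.update x i true)) / 2) =
      fun x => (1 / 2) * (f x + f (Function.update x i (!x i))) := by
    funext x
    cases hx : x i
    · have : Function.update x i false = x := by rw [← hx]; simp
      rw [this]; simp; ring
    · have : Function.update x i true = x := by rw [← hx]; simp
      rw [this]; simp; ring
  rw [e, ev_mul, ev_add, ev_invol _ h]; ring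

lemma ev_pw (A : Finset I) (f : (I → Bool) → ℝ) :
    ev (fun x => ev (fun y => f (A.piecewise x y))) = ev f := by
  have hc := card_pos (I := I)
  have h : Function.Involutive (fun p : (I → Bool) × (I → Bool) =>
      (A.piecewise p.1 p.2, A.piecewise p.2 p.1)) := by
    rintro ⟨x, y⟩
    ext i <;> by_cases hi : i ∈ A <;> simp [Finset.piecewise, hi]
  have e := Fintype.sum_equiv h.toPerm (fun p => f (A.piecewise p.1 p.2)) (fun p => f p.1)
    (fun _ => rfl)
  simp only [Fintype.sum_prod_type, sum_const, card_univ, nsmul_eq_mul, ← mul_sum] at e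
  simp only [ev, ← sum_div]
  rw [e]; field_simp

lemma amgm {κ : Type*} (T : Finset κ) (r : ℝ) (hr : 0 ≤ r) (h : (T.card : ℝ) * r ≤ 1)
    (z : κ → ℝ) (hz : ∀ j ∈ T, 0 ≤ z j) :
    ∏ j ∈ T, z j ^ r ≤ 1 - T.card * r + r * ∑ j ∈ T, z j := by
  have := Real.geom_mean_le_arith_mean_weighted (insertNone T)
    (fun o => o.elim (1 - T.card * r) fun _ => r) (fun o => o.elim 1 z)
    (by rintro (_ | j) _ <;> simp <;> linarith)
    (by simp [sum_insertNone])
    (by rintro (_ | j) hj
        · simp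
        · simpa using hz j (by simpa using hj))
  simpa [prod_insertNone, sum_insertNone, mul_sum] using this

lemma two_point {κ : Type*} (T : Finset κ) (r : ℝ) (hr : 0 < r) (h : (T.card : ℝ) * r ≤ 1)
    (a b : κ → ℝ) (ha : ∀ j, 0 ≤ a j) (hb : ∀ j, 0 ≤ b j) :
    (∏ j ∈ T, a j ^ r + ∏ j ∈ T, b j ^ r) / 2 ≤ ∏ j ∈ T, ((a j + b j) / 2) ^ r := by
  by_cases h0 : ∃ j ∈ T, a j + b j = 0
  · obtain ⟨j, hj, e⟩ := h0
    have e1 : a j = 0 := by linarith [ha j, hb j]
    have e2 : b j = 0 := by linarith [ha j, hb j]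
    rw [prod_eq_zero hj (by rw [e1, Real.zero_rpow hr.ne']),
      prod_eq_zero (f := fun j => b j ^ r) hj (by rw [e2, Real.zero_rpow hr.ne'])]
    simpa using prod_nonneg fun j _ => Real.rpow_nonneg (by linarith [ha j, hb j]) _
  · push Not at h0
    have hm : ∀ j ∈ T, 0 < (a j + b j) / 2 := fun j hj => by
      have := lt_of_le_of_ne (add_nonneg (ha j) (hb j)) (h0 j hj).symm
      linarith
    have key : ∀ c : κ → ℝ, (∀ j, 0 ≤ c j) → ∏ j ∈ T, c j ^ r =
        (∏ j ∈ T, ((a j + b j) / 2) ^ r) * ∏ j ∈ T, (c j / ((a j + b j) / 2)) ^ r := by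
      intro c hc
      rw [← prod_mul_distrib]
      refine prod_congr rfl fun j hj => ?_
      rw [← Real.mul_rpow (hm j hj).le (div_nonneg (hc j) (hm j hj).le),
        mul_div_cancel₀ _ (hm j hj).ne']
    have h1 := amgm T r hr.le h _ fun j hj => div_nonneg (ha j) (hm j hj).le
    have h2 := amgm T r hr.le h _ fun j hj => div_nonneg (hb j) (hm j hj).le
    have h3 : ∑ j ∈ T, a j / ((a j + b j) / 2) + ∑ j ∈ T, b j / ((a j + b j) / 2) = 2 * T.card := by
      rw [← sum_add_distrib, card_eq_sum_ones, Nat.cast_sum, mul_sum]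
      refine sum_congr rfl fun j hj => ?_
      have := h0 j hj
      push_cast
      field_simp
    have hp : 0 ≤ ∏ j ∈ T, ((a j + b j) / 2) ^ r :=
      prod_nonneg fun j hj => Real.rpow_nonneg (hm j hj).le _
    rw [key a ha, key b hb, ← mul_add, mul_div_assoc]
    refine mul_le_of_le_one_right hp ?_
    have : r * ∑ j ∈ T, a j / ((a j + b j) / 2) + r * ∑ j ∈ T, b j / ((a j + b j) / 2) =
        2 * (T.card * r) := by rw [← mul_add, h3]; ring
    linarith

theorem finner {κ : Type*} (J : Finset κ) (S : κ → Finset I) (r : ℝ) (hr : 0 < r)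
    (hcov : ∀ i, ((J.filter fun j => i ∈ S j).card : ℝ) * r ≤ 1) (D : Finset I) :
    ∀ f : κ → (I → Bool) → ℝ, (∀ j x, 0 ≤ f j x) →
      (∀ j x y, (∀ i ∈ S j, i ∈ D → x i = y i) → f j x = f j y) →
      ev (fun x => ∏ j ∈ J, f j x ^ r) ≤ ∏ j ∈ J, ev (f j) ^ r := by
  induction D using Finset.induction_on with
  | empty =>
    intro f _ hd
    have e : ∀ j, f j = fun _ => f j default := fun j => funext fun x => hd j _ _ (by simp)
    have e2 : ∀ j, ev (f j) = f j default := fun j => by rw [e j, ev_const]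
    have e3 : (fun x => ∏ j ∈ J, f j x ^ r) = fun _ => ∏ j ∈ J, f j default ^ r := by
      funext x; refine prod_congr rfl fun j _ => by rw [hd j x default (by simp)]
    rw [e3, ev_const]; simp only [e2, le_refl]
  | insert i D hi ih =>
    intro f h0 hd
    have h1 := ih (fun j x => (f j (Function.update x i false) + f j (Function.update x i true)) / 2)
      (fun j x => by have := h0 j (Function.update x i false)
                     have := h0 j (Function.update x i true); positivity)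
      (fun j x y hxy => by
        have : ∀ b, f j (Function.update x i b) = f j (Function.update y i b) := fun b =>
          hd j _ _ fun k hk hk' => by
            by_cases e : k = i
            · subst e; simp
            · simp only [Function.update_of_ne e]
              exact hxy k hk (by simpa [e] using hk')
        simp only [this])
    simp only [ev_avg] at h1
    refine le_trans ?_ h1
    rw [← ev_avg i]
    refine ev_mono fun x => ?_
    have hs : ∀ j ∈ J.filter (fun j => ¬ i ∈ S j),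
        f j (Function.update x i true) = f j (Function.update x i false) := fun j hj =>
      hd j _ _ fun k hk _ => by
        have e : k ≠ i := by rintro rfl; exact (mem_filter.1 hj).2 hk
        simp only [Function.update_of_ne e]
    have h2 := two_point _ r hr (hcov i) (fun j => f j (Function.update x i false))
      (fun j => f j (Function.update x i true)) (fun j => h0 _ _) (fun j => h0 _ _)
    simp only [← prod_filter_mul_prod_filter_not J (fun j => i ∈ S j)]
    have e1 : ∏ j ∈ J.filter (fun j => ¬ i ∈ S j), f j (Function.update x i true) ^ r =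
        ∏ j ∈ J.filter (fun j => ¬ i ∈ S j), f j (Function.update x i false) ^ r :=
      prod_congr rfl fun j hj => by rw [hs j hj]
    have e2 : ∏ j ∈ J.filter (fun j => ¬ i ∈ S j),
        ((f j (Function.update x i false) + f j (Function.update x i true)) / 2) ^ r =
        ∏ j ∈ J.filter (fun j => ¬ i ∈ S j), f j (Function.update x i false) ^ r :=
      prod_congr rfl fun j hj => by rw [hs j hj, add_self_div_two]
    rw [e1, e2, ← add_mul, mul_div_right_comm]
    exact mul_le_mul_of_nonneg_right h2 (prod_nonneg fun j _ => Real.rpow_nonneg (h0 _ _) _)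

open Classical in
/-- Uniform measure of an event. -/
noncomputable def mu (P : (I → Bool) → Prop) : ℝ := ev fun x => if P x then 1 else 0

lemma mu_nonneg (P : (I → Bool) → Prop) : 0 ≤ mu P :=
  ev_nonneg fun x => by split_ifs <;> norm_num

lemma mu_le_one (P : (I → Bool) → Prop) : mu P ≤ 1 :=
  (ev_mono fun x => by split_ifs <;> norm_num).trans (ev_const (I := I) 1).le

/-- Cylinder closure. -/
def cl (S : Finset I) (P : (I → Bool) → Prop) (x : I → Bool) : Prop :=
  ∃ y, P y ∧ ∀ i ∈ S, y i = x i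

theorem shearer {κ : Type*} (J : Finset κ) (S : κ → Finset I) (r : ℝ) (hr : 0 < r)
    (hcov : ∀ i, ((J.filter fun j => i ∈ S j).card : ℝ) * r ≤ 1) (P : (I → Bool) → Prop) :
    mu P ≤ ∏ j ∈ J, mu (cl (S j) P) ^ r := by
  classical
  refine le_trans (ev_mono fun x => ?_) (finner J S r hr hcov univ
    (fun j x => if cl (S j) P x then 1 else 0) (fun j x => by split_ifs <;> norm_num)
    (fun j x y h => ?_))
  · split_ifs with h
    · exact (prod_eq_one fun j _ => by rw [if_pos ⟨x, h, fun _ _ => rfl⟩, Real.one_rpow]).ge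
    · exact prod_nonneg fun j _ => Real.rpow_nonneg (by split_ifs <;> norm_num) _
  · have : cl (S j) P x ↔ cl (S j) P y :=
      ⟨fun ⟨z, hz, e⟩ => ⟨z, hz, fun i hi => (e i hi).trans (h i hi (mem_univ _))⟩,
        fun ⟨z, hz, e⟩ => ⟨z, hz, fun i hi => (e i hi).trans (h i hi (mem_univ _)).symm⟩⟩
    simp only [this]

theorem shearer2 {κ : Type*} (J : Finset κ) (S : κ → Finset I) (r : ℝ) (hr : 0 < r)
    (hcov : ∀ i, ((J.filter fun j => i ∈ S j).card : ℝ) * r ≤ 1) (P Q : (I → Bool) → Prop)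
    (b : ℝ) (hb : 0 ≤ b) (h : ∀ j ∈ J, mu (cl (S j) P) * mu (cl (S j) Q) ≤ b) :
    mu P * mu Q ≤ b ^ (r * J.card) := by
  refine (mul_le_mul (shearer J S r hr hcov P) (shearer J S r hr hcov Q) (mu_nonneg _)
    (prod_nonneg fun j _ => Real.rpow_nonneg (mu_nonneg _) _)).trans ?_
  rw [← prod_mul_distrib, Real.rpow_mul hb, Real.rpow_natCast, ← prod_const]
  refine prod_le_prod (fun j _ => mul_nonneg (Real.rpow_nonneg (mu_nonneg _) _)
    (Real.rpow_nonneg (mu_nonneg _) _)) fun j hj => ?_
  rw [← Real.mul_rpow (mu_nonneg _) (mu_nonneg _)]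
  exact Real.rpow_le_rpow (mul_nonneg (mu_nonneg _) (mu_nonneg _)) (h j hj) hr.le

lemma level (φ : (I → Bool) → ℝ) (h1 : ∀ x, φ x ≤ 1) (L : ℕ) :
    ev φ ≤ (1 / 2) ^ L + ∑ i ∈ range L, (1 / 2) ^ i * mu fun x => (1 / 2) ^ (i + 1) < φ x := by
  classical
  have hp : ∀ x, φ x ≤ (1 / 2) ^ L + ∑ i ∈ range L,
      (1 / 2 : ℝ) ^ i * if (1 / 2) ^ (i + 1) < φ x then 1 else 0 := by
    intro x
    induction L with
    | zero => simpa using h1 x
    | succ L ih =>
      rw [sum_range_succ]
      have : 0 ≤ ∑ i ∈ range L, (1 / 2 : ℝ) ^ i * if (1 / 2) ^ (i + 1) < φ x then 1 else 0 :=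
        sum_nonneg fun i _ => by split_ifs <;> positivity
      have h2 : (0 : ℝ) < (1 / 2) ^ (L + 1) := by positivity
      split_ifs with h
      · linarith
      · push Not at h; linarith
  refine (ev_mono hp).trans ?_
  rw [ev_add, ev_const, ev_sum]
  simp only [ev_mul, mu]
  exact le_of_eq (by congr)

lemma level2 (φ ψ : (I → Bool) → ℝ) (h0 : ∀ x, 0 ≤ ψ x) (h1 : ∀ x, φ x ≤ 1) (h2 : ∀ x, ψ x ≤ 1)
    (L : ℕ) (β : ℝ) (hβ : (1 / 2) ^ L ≤ β)
    (h : ∀ i j : ℕ, ((1 / 2) ^ i * mu fun x => (1 / 2) ^ (i + 1) < φ x) *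
      ((1 / 2) ^ j * mu fun x => (1 / 2) ^ (j + 1) < ψ x) ≤ 4 * β) :
    ev φ * ev ψ ≤ 4 * β * (L + 1) ^ 2 := by
  have hA : ∀ (χ : (I → Bool) → ℝ) (i : ℕ),
      0 ≤ ((1 / 2 : ℝ) ^ i * mu fun x => (1 / 2) ^ (i + 1) < χ x) ∧
      ((1 / 2 : ℝ) ^ i * mu fun x => (1 / 2) ^ (i + 1) < χ x) ≤ 1 := fun χ i =>
    ⟨mul_nonneg (by positivity) (mu_nonneg _),
      mul_le_one₀ (pow_le_one₀ (by norm_num) (by norm_num)) (mu_nonneg _) (mu_le_one _)⟩
  have hS : ∀ χ : (I → Bool) → ℝ,
      0 ≤ (∑ i ∈ range L, (1 / 2 : ℝ) ^ i * mu fun x => (1 / 2) ^ (i + 1) < χ x) ∧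
      (∑ i ∈ range L, (1 / 2 : ℝ) ^ i * mu fun x => (1 / 2) ^ (i + 1) < χ x) ≤ L := fun χ =>
    ⟨sum_nonneg fun i _ => (hA χ i).1, by
      simpa using sum_le_card_nsmul (range L) _ 1 fun i _ => (hA χ i).2⟩
  have he0 : (0 : ℝ) < (1 / 2) ^ L := by positivity
  have he1 : (1 / 2 : ℝ) ^ L ≤ 1 := pow_le_one₀ (by norm_num) (by norm_num)
  have hP : (∑ i ∈ range L, (1 / 2 : ℝ) ^ i * mu fun x => (1 / 2) ^ (i + 1) < φ x) *
      (∑ i ∈ range L, (1 / 2 : ℝ) ^ i * mu fun x => (1 / 2) ^ (i + 1) < ψ x) ≤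
      L * (L * (4 * β)) := by
    rw [sum_mul_sum]
    simpa using sum_le_card_nsmul (range L) _ (L * (4 * β)) fun i _ => by
      simpa using sum_le_card_nsmul (range L) _ (4 * β) fun j _ => h i j
  refine (mul_le_mul (level φ h1 L) (level ψ h2 L) (ev_nonneg h0)
    (add_nonneg he0.le (hS φ).1)).trans ?_
  obtain ⟨a0, a1⟩ := hS φ
  obtain ⟨b0, b1⟩ := hS ψ
  generalize (∑ i ∈ range L, (1 / 2 : ℝ) ^ i * mu fun x => (1 / 2) ^ (i + 1) < φ x) = A at *
  generalize (∑ i ∈ range L, (1 / 2 : ℝ) ^ i * mu fun x => (1 / 2) ^ (i + 1) < ψ x) = B at *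
  generalize (1 / 2 : ℝ) ^ L = e at *
  have hL : (0 : ℝ) ≤ L := Nat.cast_nonneg _
  have t1 : e * e ≤ β := by nlinarith
  have t2 : e * B ≤ β * L := mul_le_mul hβ b1 b0 (by linarith)
  have t3 : e * A ≤ β * L := mul_le_mul hβ a1 a0 (by linarith)
  have t4 : 0 ≤ β * L := mul_nonneg (by linarith) hL
  nlinarith

end Pool.Agent.H12.Finner
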