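import Mathlib
import Pool.Agent.H12.Finner

set_option autoImplicit false

namespace Pool.Agent.H12.ChromAgree

open Finset Pool.Agent.H12.Finner

variable {I V : Type*} [Fintype I] [DecidableEq I] [Fintype V] [DecidableEq V]

/-- The agreement graph of `x` and `y`, restricted to `W`, has a proper colouring with `T` colours. -/
def Col (s t : I → V) (W : Finset V) (T : ℕ) (x y : I → Bool) : Prop :=
  ∃ c : V → ℕ, (∀ v ∈ W, c v < T) ∧ ∀ i, s i ∈ W → t i ∈ W → x i = y i → c (s i) ≠ c (t i)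

lemma quarter (P Q : (I → Bool) → Prop) (h : ∀ x, P x → Q (fun i => !x i) → False) :
    mu P * mu Q ≤ 1 / 4 := by
  classical
  have hi : Function.Involutive (fun (x : I → Bool) i => !x i) := by intro x; simp
  have e : mu Q = mu fun x => Q fun i => !x i := by
    simp only [mu]
    exact (ev_invol _ hi _).symm
  have h1 : mu P + mu Q ≤ 1 := by
    rw [e]
    simp only [mu]
    rw [← ev_add]
    refine (ev_mono fun x => ?_).trans (ev_const (I := I) 1).le
    by_cases h1 : P x
    · rw [if_pos h1, if_neg (h x h1)]; norm_num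
    · rw [if_neg h1]; split_ifs <;> norm_num
  nlinarith [mu_nonneg P, mu_nonneg Q, sq_nonneg (mu P - mu Q)]

lemma count_same (u v : V) (huv : u ≠ v) (T : ℕ) :
    (univ.filter fun c : V → Fin T => c u = c v).card * T ≤ Fintype.card (V → Fin T) := by
  have := card_le_card_of_injOn (s := (univ.filter fun c : V → Fin T => c u = c v) ×ˢ
    (univ : Finset (Fin T))) (t := univ) (fun p => Function.update p.1 u p.2) (by simp) (by
      rintro ⟨c, k⟩ hc ⟨c', k'⟩ hc' e
      simp only [coe_product, coe_filter, mem_univ, true_and, coe_univ, Set.mem_prod,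
        Set.mem_ofPred_eq, Set.mem_univ, and_true] at hc hc'
      have e1 : k = k' := by simpa using congrFun e u
      have e2 : ∀ w, w ≠ u → c w = c' w := fun w hw => by simpa [hw] using congrFun e w
      refine Prod.ext (funext fun w => ?_) e1
      by_cases hw : w = u
      · subst hw; exact hc.trans ((e2 v huv.symm).trans hc'.symm)
      · exact e2 w hw)
  simpa using this

lemma linear (s t : I → V) (hst : ∀ i, s i ≠ t i) (W : Finset V) (T : ℕ) (hT : 0 < T)
    (P Q : (I → Bool) → Prop) (h : ∀ x y, P x → Q y → ¬ Col s t W T x y) :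
    mu P * mu Q ≤ (1 / 4) ^ (T : ℝ) := by
  have : Nonempty (Fin T) := ⟨⟨0, hT⟩⟩
  have hc : (0 : ℝ) < Fintype.card (V → Fin T) := by exact_mod_cast Fintype.card_pos
  have hT' : (0 : ℝ) < T := by exact_mod_cast hT
  have := shearer2 (univ : Finset (V → Fin T)) (fun c => univ.filter fun i => c (s i) = c (t i))
    (T / Fintype.card (V → Fin T)) (by positivity) (fun i => by
      have := count_same (s i) (t i) (hst i) T
      rw [← mul_div_assoc, div_le_one hc]
      simp only [mem_filter, mem_univ, true_and]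
      exact_mod_cast this) P Q (1 / 4) (by norm_num) (fun c _ => quarter _ _ (by
        rintro x ⟨y, hy, e1⟩ ⟨z, hz, e2⟩
        refine h y z hy hz ⟨fun v => c v, fun v _ => (c v).2, fun i _ _ e hc => ?_⟩
        have hi : i ∈ univ.filter fun i => c (s i) = c (t i) := by simpa using Fin.ext hc
        have := (e1 i hi).symm.trans (e.trans (e2 i hi))
        simp at this))
  rwa [card_univ, div_mul_cancel₀ _ hc.ne'] at this

lemma poly (T : ℕ) (hT : 128 ≤ T) : (16 * (T ^ 2 + 1) ^ 4) ^ 2 ≤ 2 ^ T := by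
  induction T, hT using Nat.le_induction with
  | base => norm_num
  | succ T hT ih =>
    have h1 : 20 * ((T + 1) ^ 2 + 1) ≤ 21 * (T ^ 2 + 1) := by nlinarith
    have h2 := Nat.pow_le_pow_left h1 8
    rw [mul_pow, mul_pow] at h2
    rw [pow_succ 2 T]
    have e1 : (16 * ((T + 1) ^ 2 + 1) ^ 4) ^ 2 = 256 * ((T + 1) ^ 2 + 1) ^ 8 := by ring
    have e2 : (16 * (T ^ 2 + 1) ^ 4) ^ 2 = 256 * (T ^ 2 + 1) ^ 8 := by ring
    rw [e1]; rw [e2] at ih
    generalize ((T + 1) ^ 2 + 1) ^ 8 = a at *
    generalize (T ^ 2 + 1) ^ 8 = b at *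
    generalize 2 ^ T = d at *
    omega

/-- The exponent. -/
noncomputable def g (T : ℕ) : ℝ := (T : ℝ) ^ 2 / 128 + T

omit [Fintype V] in
lemma step (s t : I → V) (W : Finset V) (c : V → Bool) (T : ℕ) (hT : 128 ≤ T)
    (hne : (W.filter fun v => c v = true).Nonempty)
    (ihA : ∀ (T : ℕ) (P Q : (I → Bool) → Prop),
      (∀ x y, P x → Q y → ¬ Col s t (W.filter fun v => c v = true) T x y) →
      mu P * mu Q ≤ 2 ^ (-g T))
    (ihB : ∀ (T : ℕ) (P Q : (I → Bool) → Prop),
      (∀ x y, P x → Q y → ¬ Col s t (W.filter fun v => c v = false) T x y) →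
      mu P * mu Q ≤ 2 ^ (-g T))
    (P Q : (I → Bool) → Prop) (h : ∀ x y, P x → Q y → ¬ Col s t W T x y) :
    mu (cl (univ.filter fun i => s i ∈ W ∧ t i ∈ W ∧ c (s i) = c (t i)) P) *
      mu (cl (univ.filter fun i => s i ∈ W ∧ t i ∈ W ∧ c (s i) = c (t i)) Q) ≤
      4 * 2 ^ (-(((T : ℝ) - 1) ^ 2 / 256 + (T - 1))) * ((T ^ 2 : ℕ) + 1) ^ 2 := by
  classical
  set S := univ.filter fun i => s i ∈ W ∧ t i ∈ W ∧ c (s i) = c (t i) with hS
  set A := W.filter fun v => c v = true with hA
  set B := W.filter fun v => c v = false with hB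
  set EA := univ.filter fun i => c (s i) = true with hEA
  have glue : ∀ x x' y y' u v, cl S P (EA.piecewise x y) → cl S Q (EA.piecewise x' y') →
      Col s t A u x x' → Col s t B v y y' → u + v ≤ T → False := by
    rintro x x' y y' u v ⟨p, hp, ep⟩ ⟨q, hq, eq⟩ ⟨ca, ha1, ha2⟩ ⟨cb, hb1, hb2⟩ huv
    refine h p q hp hq ⟨fun w => if c w = true then ca w else u + cb w, fun w hw => ?_,
      fun i h1 h2 e => ?_⟩
    · dsimp only
      split_ifs with hc
      · have := ha1 w (mem_filter.2 ⟨hw, hc⟩); omega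
      · have := hb1 w (mem_filter.2 ⟨hw, by simpa using hc⟩); omega
    · dsimp only
      split_ifs with k1 k2 k2
      · have hi : i ∈ S := by simp [hS, h1, h2, k1, k2]
        have hi' : i ∈ EA := by simp [hEA, k1]
        have := (ep i hi).symm.trans (e.trans (eq i hi))
        simp only [Finset.piecewise, hi', if_true] at this
        exact ha2 i (mem_filter.2 ⟨h1, k1⟩) (mem_filter.2 ⟨h2, k2⟩) this
      · have := ha1 _ (mem_filter.2 ⟨h1, k1⟩); omega
      · have := ha1 _ (mem_filter.2 ⟨h2, k2⟩); omega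
      · have hi : i ∈ S := by simp [hS, h1, h2, k1, k2]
        have hi' : i ∉ EA := by simp [hEA, k1]
        have := (ep i hi).symm.trans (e.trans (eq i hi))
        simp only [Finset.piecewise, hi', if_false] at this
        have := hb2 i (mem_filter.2 ⟨h1, by simpa using k1⟩) (mem_filter.2 ⟨h2, by simpa using k2⟩)
          this
        omega
  have hT' : (128 : ℝ) ≤ T := by exact_mod_cast hT
  have e : ∀ R : (I → Bool) → Prop, mu R = ev fun x => mu fun y => R (EA.piecewise x y) :=
    fun R => (ev_pw EA _).symm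
  rw [e (cl S P), e (cl S Q)]
  have half : ∀ n : ℕ, (1 / 2 : ℝ) ^ n = 2 ^ (-(n : ℝ)) := fun n => by
    rw [Real.rpow_neg (by norm_num), Real.rpow_natCast, one_div, inv_pow]
  refine level2 _ _ (fun _ => mu_nonneg _) (fun _ => mu_le_one _) (fun _ => mu_le_one _)
    (T ^ 2) _ ?_ fun i j => ?_
  · rw [half]
    refine Real.rpow_le_rpow_of_exponent_le (by norm_num) ?_
    push_cast; nlinarith
  set P' : (I → Bool) → Prop := fun x => (1 / 2) ^ (i + 1) < mu fun y => cl S P (EA.piecewise x y)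
  set Q' : (I → Bool) → Prop := fun x => (1 / 2) ^ (j + 1) < mu fun y => cl S Q (EA.piecewise x y)
  set u := Nat.findGreatest (fun u => ∀ x x', P' x → Q' x' → ¬ Col s t A u x x') T with hu
  have hu1 : u ≤ T := Nat.findGreatest_le _
  have hu2 : ∀ x x', P' x → Q' x' → ¬ Col s t A u x x' :=
    Nat.findGreatest_spec (P := fun u => ∀ x x', P' x → Q' x' → ¬ Col s t A u x x')
      (Nat.zero_le T) (by
        rintro x x' _ _ ⟨ca, h1, _⟩
        obtain ⟨a, ha⟩ := hne
        exact absurd (h1 a ha) (by omega))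
  have k1 := ihA u _ _ hu2
  have hb : (0 : ℝ) < 2 ^ (-(((T : ℝ) - 1) ^ 2 / 256 + (T - 1))) := by positivity
  rw [mul_mul_mul_comm]
  have hij0 : (0 : ℝ) ≤ (1 / 2) ^ i * (1 / 2) ^ j := by positivity
  rcases hu1.eq_or_lt with hu3 | hu3
  · have hij : (1 / 2 : ℝ) ^ i * (1 / 2) ^ j ≤ 1 :=
      mul_le_one₀ (pow_le_one₀ (by norm_num) (by norm_num)) (by positivity)
        (pow_le_one₀ (by norm_num) (by norm_num))
    have k2 : (2 : ℝ) ^ (-g u) ≤ 2 ^ (-(((T : ℝ) - 1) ^ 2 / 256 + (T - 1))) := by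
      refine Real.rpow_le_rpow_of_exponent_le (by norm_num) ?_
      rw [hu3, g]; nlinarith
    have := mul_le_mul hij (k1.trans k2) (mul_nonneg (mu_nonneg _) (mu_nonneg _)) zero_le_one
    linarith
  · have hu4 := Nat.findGreatest_is_greatest
      (P := fun u => ∀ x x', P' x → Q' x' → ¬ Col s t A u x x') (k := u + 1) (n := T)
      (by omega) hu3
    push Not at hu4
    obtain ⟨x, x', hx, hx', hcol⟩ := hu4
    obtain ⟨v, hv⟩ : ∃ v, T = u + 1 + v := ⟨T - (u + 1), by omega⟩
    have k2 := ihB v (fun y => cl S P (EA.piecewise x y)) (fun y => cl S Q (EA.piecewise x' y))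
      fun y y' h1 h2 h3 => glue x x' y y' _ _ h1 h2 hcol h3 hv.ge
    have k3 : (1 / 2 : ℝ) ^ (i + 1) * (1 / 2) ^ (j + 1) ≤ 2 ^ (-g v) :=
      (mul_le_mul hx.le hx'.le (by positivity) (mu_nonneg _)).trans k2
    have k4 : (1 / 2 : ℝ) ^ i * (1 / 2) ^ j ≤ 4 * 2 ^ (-g v) := by
      rw [pow_succ, pow_succ] at k3; linarith
    refine (mul_le_mul k4 k1 (mul_nonneg (mu_nonneg _) (mu_nonneg _)) (by positivity)).trans ?_
    rw [mul_assoc, ← Real.rpow_add (by norm_num)]
    refine mul_le_mul_of_nonneg_left (Real.rpow_le_rpow_of_exponent_le (by norm_num) ?_)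
      (by norm_num)
    have : (T : ℝ) - 1 = u + v := by rw [hv]; push_cast; ring
    rw [this, g, g]
    nlinarith [sq_nonneg ((u : ℝ) - v)]

theorem main (s t : I → V) (hst : ∀ i, s i ≠ t i) (W : Finset V) :
    ∀ (T : ℕ) (P Q : (I → Bool) → Prop), (∀ x y, P x → Q y → ¬ Col s t W T x y) →
      mu P * mu Q ≤ 2 ^ (-g T) := by
  classical
  induction W using Finset.strongInduction with
  | H W ih =>
  intro T P Q h
  rcases Nat.eq_zero_or_pos T with rfl | hT0
  · simpa [g] using mul_le_one₀ (mu_le_one P) (mu_nonneg Q) (mu_le_one Q)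
  by_cases hT : T < 128
  · refine (linear s t hst W T hT0 P Q h).trans ?_
    have : (1 / 4 : ℝ) = 2 ^ (-2 : ℝ) := by
      rw [Real.rpow_neg (by norm_num)]; norm_num
    rw [this, ← Real.rpow_mul (by norm_num)]
    refine Real.rpow_le_rpow_of_exponent_le (by norm_num) ?_
    have h1 : (T : ℝ) ≤ 128 := by exact_mod_cast hT.le
    have h2 : (0 : ℝ) ≤ T := Nat.cast_nonneg _
    rw [g]; nlinarith
  push Not at hT
  set J := univ.filter fun c : V → Bool => (∃ a ∈ W, c a = true) ∧ ∃ b ∈ W, c b = false with hJ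
  rcases J.eq_empty_or_nonempty with hJ0 | hJ0
  · have hall : ∀ x y, Col s t W T x y := fun x y => ⟨fun _ => 0, fun _ _ => hT0,
      fun i h1 h2 _ _ => by
        have : (fun v => decide (v = s i)) ∈ J := by
          simp only [hJ, mem_filter, mem_univ, true_and]
          exact ⟨⟨_, h1, by simp⟩, ⟨_, h2, by simpa using (hst i).symm⟩⟩
        simp [hJ0] at this⟩
    by_cases hP : ∃ x, P x
    · obtain ⟨x, hx⟩ := hP
      have : mu Q = 0 := by
        have e : ∀ y, ¬ Q y := fun y hy => h x y hx hy (hall x y)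
        simp only [mu, e, if_false, ev_const]
      rw [this, mul_zero]; positivity
    · push Not at hP
      have : mu P = 0 := by simp only [mu, hP, if_false, ev_const]
      rw [this, zero_mul]; positivity
  have hc : (0 : ℝ) < J.card := by exact_mod_cast hJ0.card_pos
  have key := shearer2 J (fun c => univ.filter fun i => s i ∈ W ∧ t i ∈ W ∧ c (s i) = c (t i))
    (2 / J.card) (by positivity) (fun i => by
      rw [← mul_div_assoc, div_le_one hc]
      have h1 := card_filter_add_card_filter_not (s := J)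
        (fun c => i ∈ univ.filter fun i => s i ∈ W ∧ t i ∈ W ∧ c (s i) = c (t i))
      have h2 := card_le_card_of_injOn
        (s := J.filter fun c => i ∈ univ.filter fun i => s i ∈ W ∧ t i ∈ W ∧ c (s i) = c (t i))
        (t := J.filter fun c => ¬ i ∈ univ.filter fun i => s i ∈ W ∧ t i ∈ W ∧ c (s i) = c (t i))
        (fun c => Function.update c (s i) (!c (s i))) (by
          intro c hc
          simp only [coe_filter, mem_filter, mem_univ, true_and, Set.mem_ofPred_eq, hJ] at hc ⊢
          obtain ⟨_, h1, h2, h3⟩ := hc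
          have h4 := (hst i).symm
          refine ⟨?_, by simp [h4, h3]⟩
          cases k : c (t i)
          · exact ⟨⟨_, h1, by simp [h3, k]⟩, ⟨_, h2, by simp [h4, k]⟩⟩
          · exact ⟨⟨_, h2, by simp [h4, k]⟩, ⟨_, h1, by simp [h3, k]⟩⟩) (by
          have hi : Function.Involutive (fun c : V → Bool => Function.update c (s i) (!c (s i))) := by
            intro c; simp
          exact hi.injective.injOn)
      have h3 : (J.filter fun c => i ∈ univ.filter fun i =>
        s i ∈ W ∧ t i ∈ W ∧ c (s i) = c (t i)).card * 2 ≤ J.card := by omega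
      exact_mod_cast h3) P Q
    (4 * 2 ^ (-(((T : ℝ) - 1) ^ 2 / 256 + (T - 1))) * ((T ^ 2 : ℕ) + 1) ^ 2)
    (by positivity) (fun c hc => by
      simp only [hJ, mem_filter, mem_univ, true_and] at hc
      obtain ⟨⟨a, ha, ha'⟩, ⟨b, hb, hb'⟩⟩ := hc
      exact step s t W c T hT ⟨a, mem_filter.2 ⟨ha, ha'⟩⟩
        (ih _ (filter_ssubset.2 ⟨b, hb, by simp [hb']⟩))
        (ih _ (filter_ssubset.2 ⟨a, ha, by simp [ha']⟩)) P Q h)
  rw [div_mul_cancel₀ _ hc.ne', Real.rpow_two] at key
  refine key.trans ?_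
  have hp : (16 * ((T : ℝ) ^ 2 + 1) ^ 4) ≤ 2 ^ ((T : ℝ) / 2) := by
    have h1 : (16 * ((T : ℝ) ^ 2 + 1) ^ 4) ^ 2 ≤ 2 ^ T := by exact_mod_cast poly T hT
    refine (pow_le_pow_iff_left₀ (by positivity) (by positivity) two_ne_zero).1 (h1.trans_eq ?_)
    rw [← Real.rpow_natCast, ← Real.rpow_natCast, ← Real.rpow_mul (by norm_num)]
    congr 1; push_cast; ring
  have hT' : (128 : ℝ) ≤ T := by exact_mod_cast hT
  have e : (4 * (2 : ℝ) ^ (-(((T : ℝ) - 1) ^ 2 / 256 + (T - 1))) * ((T ^ 2 : ℕ) + 1) ^ 2) ^ 2 =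
      (16 * ((T : ℝ) ^ 2 + 1) ^ 4) * (2 ^ (-(((T : ℝ) - 1) ^ 2 / 256 + (T - 1))) *
        2 ^ (-(((T : ℝ) - 1) ^ 2 / 256 + (T - 1)))) := by push_cast; ring
  rw [e]
  refine (mul_le_mul_of_nonneg_right hp (by positivity)).trans ?_
  rw [← Real.rpow_add (by norm_num), ← Real.rpow_add (by norm_num)]
  refine Real.rpow_le_rpow_of_exponent_le (by norm_num) ?_
  rw [g]; nlinarith

/-- Cross version for graphs on `Fin n`: if the agreement graph of any `G ∈ F₁`, `H ∈ F₂` is not
`T`-colourable then the product of the sizes is small. -/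
theorem graphs (n T : ℕ) (F₁ F₂ : Finset (SimpleGraph (Fin n)))
    (h : ∀ G ∈ F₁, ∀ H ∈ F₂, ¬ (symmDiff G H)ᶜ.Colorable T) :
    (F₁.card : ℝ) * F₂.card ≤ 2 ^ (2 * (n.choose 2 : ℝ) - ((T : ℝ) ^ 2 / 128 + T)) := by
  classical
  let I := {p : Fin n × Fin n // p.1 < p.2}
  let enc : SimpleGraph (Fin n) → I → Bool := fun G i => decide (G.Adj i.1.1 i.1.2)
  have hinj : Function.Injective enc := by
    intro G H e
    have k : ∀ a b, a < b → (G.Adj a b ↔ H.Adj a b) := fun a b hab => by
      simpa [enc] using congrFun e ⟨(a, b), hab⟩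
    ext a b
    rcases lt_trichotomy a b with hab | rfl | hab
    · exact k a b hab
    · simp
    · rw [G.adj_comm, H.adj_comm]; exact k b a hab
  have hI : Fintype.card I = n.choose 2 := by
    have := card_product_filter_lt (s := (univ : Finset (Fin n)))
    rw [Fintype.card_subtype]
    simpa using this
  have hmu : ∀ F : Finset (SimpleGraph (Fin n)),
      mu (fun x => x ∈ F.image enc) = F.card / 2 ^ (n.choose 2) := fun F => by
    simp only [mu, ev]
    rw [Fintype.card_fun, hI, Fintype.card_bool, ← card_image_of_injective F hinj]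
    generalize F.image enc = A
    have e : (∑ x, if x ∈ A then (1 : ℝ) else 0) = A.card := by simp
    rw [← e]
    push_cast
    congr 1
    exact sum_congr rfl fun x _ => by split_ifs <;> rfl
  have key := main (fun i : I => i.1.1) (fun i => i.1.2) (fun i => i.2.ne) univ T
    (fun x => x ∈ F₁.image enc) (fun x => x ∈ F₂.image enc) (by
      intro x y hx hy ⟨c, hc1, hc2⟩
      obtain ⟨G, hG, rfl⟩ := mem_image.1 hx
      obtain ⟨H, hH, rfl⟩ := mem_image.1 hy
      have k : ∀ a b, a < b → (symmDiff G H)ᶜ.Adj a b → c a ≠ c b := fun a b hab hadj =>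
        hc2 ⟨(a, b), hab⟩ (mem_univ _) (mem_univ _) (by
          simp only [symmDiff, SimpleGraph.compl_adj, SimpleGraph.sup_adj,
            SimpleGraph.sdiff_adj] at hadj
          simp only [enc, decide_eq_decide]
          tauto)
      refine h G hG H hH ⟨SimpleGraph.Coloring.mk (fun v => ⟨c v, hc1 v (mem_univ _)⟩) ?_⟩
      intro a b hadj e
      have e' : c a = c b := congrArg Fin.val e
      rcases lt_trichotomy a b with hab | rfl | hab
      · exact k a b hab hadj e'
      · exact hadj.ne rfl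
      · exact k b a hab hadj.symm e'.symm)
  rw [hmu, hmu, div_mul_div_comm, div_le_iff₀ (by positivity)] at key
  refine key.trans_eq ?_
  rw [← Real.rpow_natCast, ← Real.rpow_add (by norm_num), ← Real.rpow_add (by norm_num), g]
  congr 1; ring

/-- One family. -/
theorem family (n T : ℕ) (F : Finset (SimpleGraph (Fin n)))
    (h : ∀ G ∈ F, ∀ H ∈ F, ¬ (symmDiff G H)ᶜ.Colorable T) :
    (F.card : ℝ) ≤ 2 ^ ((n.choose 2 : ℝ) - ((T : ℝ) ^ 2 / 256 + T / 2)) := by
  refine (pow_le_pow_iff_left₀ (by positivity) (by positivity) two_ne_zero).1 ?_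
  rw [sq, sq, ← Real.rpow_add (by norm_num)]
  refine (graphs n T F F h).trans_eq ?_
  congr 1; ring

lemma inf_le_agree {n : ℕ} (G H : SimpleGraph (Fin n)) : G ⊓ H ≤ (symmDiff G H)ᶜ := by
  intro a b hab
  simp only [symmDiff, SimpleGraph.compl_adj, SimpleGraph.sup_adj, SimpleGraph.sdiff_adj]
  have := hab.ne
  obtain ⟨h1, h2⟩ := hab
  tauto

theorem family_inf (n t : ℕ) (ht : 1 ≤ t) (F : Finset (SimpleGraph (Fin n)))
    (h : ∀ G ∈ F, ∀ H ∈ F, (t : ℕ∞) ≤ (G ⊓ H).chromaticNumber) :
    (F.card : ℝ) ≤ 2 ^ ((n.choose 2 : ℝ) - (((t : ℝ) - 1) ^ 2 / 256 + (t - 1) / 2)) := by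
  obtain ⟨T, rfl⟩ : ∃ T, t = T + 1 := ⟨t - 1, by omega⟩
  have := family n T F fun G hG H hH hc => by
    have h1 := (h G hG H hH).trans (hc.mono_left (inf_le_agree G H)).chromaticNumber_le
    have : T + 1 ≤ T := by exact_mod_cast h1
    omega
  simpa using this

end Pool.Agent.H12.ChromAgree
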