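import Mathlib

set_option autoImplicit false

namespace Pool.Agent.H12.ColCount

open Finset

def upd (g : ℕ → ℕ) (i c : ℕ) : ℕ → ℕ := fun j => if j = i then c else g j

def okc (A : ℕ → ℕ → Bool) (g : ℕ → ℕ) (i c : ℕ) : Bool :=
  (List.range i).all (fun j => !(A j i) || g j != c)

lemma okc_iff (A : ℕ → ℕ → Bool) (g : ℕ → ℕ) (i c : ℕ) :
    okc A g i c = true ↔ ∀ j < i, A j i = true → g j ≠ c := by
  unfold okc
  rw [List.all_eq_true]
  constructor
  · intro h j hj ha
    have := h j (List.mem_range.mpr hj)
    simpa [ha] using this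
  · intro h j hj
    have := h j (List.mem_range.mp hj)
    cases ha : A j i
    · simp
    · simpa using this ha

/-- number of ways to extend a colouring of the first `i` vertices by `r` more -/
def ext (A : ℕ → ℕ → Bool) (k : ℕ) : ℕ → (ℕ → ℕ) → ℕ → ℕ
  | 0, _, _ => 1
  | r + 1, g, i => ∑ c ∈ range k, if okc A g i c = true then ext A k r (upd g i c) (i + 1) else 0

def good (A : ℕ → ℕ → Bool) (k : ℕ) (r : ℕ) (g : ℕ → ℕ) (i : ℕ) (h : Fin r → Fin k) : Prop :=
  (∀ s : Fin r, ∀ j < i, A j (i + s) = true → g j ≠ h s) ∧
  (∀ s t : Fin r, s < t → A (i + s) (i + t) = true → h s ≠ h t)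

lemma good_cons (A : ℕ → ℕ → Bool) (k r : ℕ) (g : ℕ → ℕ) (i : ℕ) (c : Fin k) (h : Fin r → Fin k) :
    good A k (r + 1) g i (Fin.cons c h) ↔
      okc A g i c = true ∧ good A k r (upd g i c) (i + 1) h := by
  rw [okc_iff]
  unfold good
  have e : ∀ s : Fin r, i + (s.succ : ℕ) = i + 1 + s := by
    intro s; rw [Fin.val_succ]; omega
  constructor
  · rintro ⟨h1, h2⟩
    refine ⟨?_, ?_, ?_⟩
    · intro j hj ha
      simpa using h1 0 j hj (by simpa using ha)
    · intro s j hj ha
      by_cases hji : j = i
      · subst hji
        have := h2 0 s.succ (Fin.succ_pos s) (by rw [e]; simpa using ha)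
        simp only [Fin.cons_zero, Fin.cons_succ] at this
        simp only [upd, if_true]
        exact fun hh => this (Fin.ext hh)
      · have := h1 s.succ j (by omega) (by rw [e]; exact ha)
        simp only [Fin.cons_succ] at this
        simp only [upd, if_neg hji]
        exact this
    · intro s t hst ha
      have := h2 s.succ t.succ (Fin.succ_lt_succ_iff.mpr hst) (by rw [e, e]; exact ha)
      simpa using this
  · rintro ⟨h0, h1, h2⟩
    constructor
    · intro s j hj ha
      refine Fin.cases ?_ (fun s => ?_) s ha
      · intro ha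
        simpa using h0 j hj (by simpa using ha)
      · intro ha
        rw [e] at ha
        have := h1 s j (by omega) ha
        simp only [upd, if_neg (show j ≠ i by omega)] at this
        simpa using this
    · intro s t hst ha
      revert hst ha
      refine Fin.cases ?_ (fun t => ?_) t
      · intro hst; exact absurd hst (Fin.not_lt_zero s)
      · refine Fin.cases ?_ (fun s => ?_) s
        · intro _ ha
          rw [e] at ha
          have := h1 t i (by omega) (by simpa using ha)
          simp only [upd, if_true] at this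
          simp only [Fin.cons_zero, Fin.cons_succ]
          exact fun hh => this (congrArg Fin.val hh)
        · intro hst ha
          rw [e, e] at ha
          simpa using h2 s t (Fin.succ_lt_succ_iff.mp hst) ha

open Classical in
lemma ext_eq (A : ℕ → ℕ → Bool) (k : ℕ) : ∀ (r : ℕ) (g : ℕ → ℕ) (i : ℕ),
    ext A k r g i = ∑ h : Fin r → Fin k, if good A k r g i h then 1 else 0 := by
  intro r
  induction r with
  | zero =>
    intro g i
    have : ∀ h : Fin 0 → Fin k, good A k 0 g i h := fun h => ⟨fun s => s.elim0, fun s => s.elim0⟩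
    simp [ext, this]
  | succ r ih =>
    intro g i
    rw [← (Fin.consEquiv (fun _ : Fin (r + 1) => Fin k)).sum_comp, Fintype.sum_prod_type]
    rw [ext, ← Fin.sum_univ_eq_sum_range
      (fun c => if okc A g i c = true then ext A k r (upd g i c) (i + 1) else 0) k]
    apply Finset.sum_congr rfl
    intro c _
    have e : ∀ h : Fin r → Fin k,
        (Fin.consEquiv (fun _ : Fin (r + 1) => Fin k)) (c, h) = Fin.cons c h := fun h => rfl
    simp only [e, good_cons]
    by_cases h : okc A g i c = true
    · simp only [h, if_true, true_and]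
      exact ih _ _
    · simp [h]

lemma ext_congr (A : ℕ → ℕ → Bool) (k : ℕ) (σ : Equiv.Perm ℕ) (hσ : ∀ x, x < k ↔ σ x < k) :
    ∀ (r : ℕ) (g g' : ℕ → ℕ) (i : ℕ), (∀ j < i, g' j = σ (g j)) →
      ext A k r g i = ext A k r g' i := by
  intro r
  induction r with
  | zero => intro g g' i _; rfl
  | succ r ih =>
    intro g g' i hg
    rw [ext, ext]
    apply Finset.sum_equiv σ
    · intro c; simp only [mem_range]; exact hσ c
    · intro c _
      have e : okc A g i c = true ↔ okc A g' i (σ c) = true := by
        rw [okc_iff, okc_iff]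
        constructor
        · intro h j hj ha
          rw [hg j hj]
          exact fun hh => h j hj ha (σ.injective hh)
        · intro h j hj ha hh
          apply h j hj ha
          rw [hg j hj, hh]
      have e2 : ext A k r (upd g i c) (i + 1) = ext A k r (upd g' i (σ c)) (i + 1) := by
        apply ih
        intro j hj
        unfold upd
        split_ifs with h
        · rfl
        · exact hg j (by omega)
      by_cases h : okc A g i c = true
      · rw [if_pos h, if_pos (e.mp h), e2]
      · rw [if_neg h, if_neg (fun hh => h (e.mpr hh))]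

def ladd : List ℕ → List ℕ → List ℕ
  | [], l => l
  | a :: l, [] => a :: l
  | a :: l, b :: l' => (a + b) :: ladd l l'

def ev : List ℕ → ℕ → ℕ
  | [], _ => 0
  | a :: l, n => a + n * ev l (n - 1)

lemma ev_ladd : ∀ (l l' : List ℕ) (n : ℕ), ev (ladd l l') n = ev l n + ev l' n := by
  intro l
  induction l with
  | nil => intro l' n; simp [ladd, ev]
  | cons a l ih =>
    intro l' n
    cases l' with
    | nil => simp [ladd, ev]
    | cons b l' => simp only [ladd, ev, ih]; ring

def lsum (F : ℕ → List ℕ) : ℕ → List ℕ
  | 0 => []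
  | m + 1 => ladd (F m) (lsum F m)

lemma ev_lsum (F : ℕ → List ℕ) (n : ℕ) : ∀ m, ev (lsum F m) n = ∑ c ∈ range m, ev (F c) n := by
  intro m
  induction m with
  | zero => simp [lsum, ev]
  | succ m ih => rw [lsum, ev_ladd, ih, Finset.sum_range_succ, add_comm]

/-- coefficients in the falling factorial basis -/
def N (A : ℕ → ℕ → Bool) : ℕ → (ℕ → ℕ) → ℕ → ℕ → List ℕ
  | 0, _, _, _ => [1]
  | r + 1, g, i, m =>
    ladd (lsum (fun c => if okc A g i c = true then N A r (upd g i c) (i + 1) m else []) m)
      (0 :: N A r (upd g i m) (i + 1) (m + 1))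

lemma ext_N (A : ℕ → ℕ → Bool) (k : ℕ) : ∀ (r : ℕ) (g : ℕ → ℕ) (i m : ℕ), m ≤ k →
    (∀ j < i, g j < m) → ext A k r g i = ev (N A r g i m) (k - m) := by
  intro r
  induction r with
  | zero => intro g i m _ _; simp [ext, N, ev]
  | succ r ih =>
    intro g i m hm hg
    rw [ext, N, ev_ladd, ev_lsum, ← Finset.sum_range_add_sum_Ico _ hm]
    congr 1
    · apply Finset.sum_congr rfl
      intro c hc
      by_cases h : okc A g i c = true
      · rw [if_pos h, if_pos h]
        apply ih _ _ _ hm
        intro j hj
        unfold upd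
        split_ifs with h'
        · exact mem_range.mp hc
        · exact hg j (by omega)
      · rw [if_neg h, if_neg h]; rfl
    · have e : ∀ c ∈ Ico m k,
          (if okc A g i c = true then ext A k r (upd g i c) (i + 1) else 0)
            = ev (N A r (upd g i m) (i + 1) (m + 1)) (k - m - 1) := by
        intro c hc
        obtain ⟨h1, h2⟩ := mem_Ico.mp hc
        have ho : okc A g i c = true := by
          rw [okc_iff]
          intro j hj _
          have := hg j hj
          omega
        rw [if_pos ho, show k - m - 1 = k - (m + 1) by omega, ← ih _ _ _ (by omega)]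
        · apply ext_congr A k (Equiv.swap c m)
          · intro x
            rw [Equiv.swap_apply_def]
            split_ifs <;> omega
          · intro j hj
            unfold upd
            split_ifs with h'
            · simp
            · have := hg j (by omega)
              rw [Equiv.swap_apply_of_ne_of_ne (by omega) (by omega)]
        · intro j hj
          unfold upd
          split_ifs with h'
          · omega
          · have := hg j (by omega)
            omega
      rw [Finset.sum_congr rfl e]
      simp [ev]

def Pr (A : ℕ → ℕ → Bool) (n k : ℕ) (f : Fin n → Fin k) : Prop :=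
  ∀ s t : Fin n, s < t → A s t = true → f s ≠ f t

theorem card_Pr (A : ℕ → ℕ → Bool) (n k : ℕ) :
    Nat.card {f : Fin n → Fin k // Pr A n k f} = ev (N A n (fun _ => 0) 0 0) k := by
  classical
  have h := ext_N A k n (fun _ => 0) 0 0 (Nat.zero_le k) (fun j hj => absurd hj (Nat.not_lt_zero j))
  rw [Nat.sub_zero] at h
  rw [← h, ext_eq, Nat.card_eq_fintype_card, Fintype.card_subtype, Finset.card_filter]
  apply Finset.sum_congr rfl
  intro f _
  have : Pr A n k f ↔ good A k n (fun _ => 0) 0 f := by
    unfold Pr good
    simp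
  simp only [this]

/-- the graph on `Fin n` given by the upper triangle of `A` -/
def Gr (A : ℕ → ℕ → Bool) (n : ℕ) : SimpleGraph (Fin n) :=
  SimpleGraph.fromRel (fun s t => s < t ∧ A s t = true)

lemma Pr_iff (A : ℕ → ℕ → Bool) (n k : ℕ) (f : Fin n → Fin k) :
    Pr A n k f ↔ ∀ s t, (Gr A n).Adj s t → f s ≠ f t := by
  unfold Pr Gr
  constructor
  · intro h s t hst
    rw [SimpleGraph.fromRel_adj] at hst
    rcases hst.2 with h1 | h1
    · exact h s t h1.1 h1.2
    · exact (h t s h1.1 h1.2).symm
  · intro h s t h1 h2
    apply h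
    rw [SimpleGraph.fromRel_adj]
    exact ⟨ne_of_lt h1, Or.inl ⟨h1, h2⟩⟩

def colEquiv {V : Type} (G : SimpleGraph V) (k : ℕ) :
    G.Coloring (Fin k) ≃ {f : V → Fin k // ∀ s t, G.Adj s t → f s ≠ f t} where
  toFun c := ⟨c, fun _ _ h => c.valid h⟩
  invFun f := SimpleGraph.Coloring.mk f.1 (fun h => f.2 _ _ h)
  left_inv _ := rfl
  right_inv _ := rfl

theorem card_col (A : ℕ → ℕ → Bool) (n k : ℕ) :
    Nat.card ((Gr A n).Coloring (Fin k)) = ev (N A n (fun _ => 0) 0 0) k := by
  rw [← card_Pr, Nat.card_congr (colEquiv (Gr A n) k)]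
  exact Nat.card_congr (Equiv.subtypeEquivRight (fun f => (Pr_iff A n k f).symm))

end Pool.Agent.H12.ColCount
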