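import Pool.Agent.H12.ColCount

set_option autoImplicit false

namespace Pool.Agent.H12.ColCount

open Finset

def Av (A : ℕ → ℕ → Bool) (v : ℕ) (s t : ℕ) : Bool :=
  if s = 0 then (decide (t - 1 = v) || (decide (t - 1 < v) && A (t - 1) v) ||
    (decide (v < t - 1) && A v (t - 1))) else A (s - 1) (t - 1)

lemma Pr_Av (A : ℕ → ℕ → Bool) (n k : ℕ) (v : Fin n) (f : Fin (n + 1) → Fin k) :
    Pr (Av A v) (n + 1) k f ↔ (Pr A n k (fun s => f s.succ) ∧ f 0 ≠ f v.succ ∧
      ∀ u, (Gr A n).Adj u v → f 0 ≠ f u.succ) := by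
  unfold Pr Gr
  constructor
  · intro h
    refine ⟨?_, ?_, ?_⟩
    · intro s t hst ha
      apply h s.succ t.succ (Fin.succ_lt_succ_iff.mpr hst)
      simpa [Av] using ha
    · apply h 0 v.succ (Fin.succ_pos v)
      simp [Av]
    · intro u hu
      rw [SimpleGraph.fromRel_adj] at hu
      apply h 0 u.succ (Fin.succ_pos u)
      rcases hu.2 with h1 | h1
      · have : (u : ℕ) < v := h1.1
        simp [Av, this, h1.2]
      · have : (v : ℕ) < u := h1.1
        simp [Av, this, h1.2]
  · rintro ⟨h1, h2, h3⟩ s t hst ha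
    revert hst ha
    refine Fin.cases ?_ (fun t => ?_) t
    · intro hst; exact absurd hst (Fin.not_lt_zero s)
    · refine Fin.cases ?_ (fun s => ?_) s
      · intro _ ha
        simp only [Av, Fin.val_zero, if_true, Fin.val_succ, Nat.add_sub_cancel, Bool.or_eq_true,
          decide_eq_true_eq, Bool.and_eq_true] at ha
        rcases ha with (ha | ha) | ha
        · rw [Fin.ext ha]; exact h2
        · apply h3
          rw [SimpleGraph.fromRel_adj]
          exact ⟨ne_of_lt ha.1, Or.inl ⟨ha.1, ha.2⟩⟩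
        · apply h3
          rw [SimpleGraph.fromRel_adj]
          exact ⟨(ne_of_lt (show v < t from ha.1)).symm, Or.inr ⟨ha.1, ha.2⟩⟩
      · intro hst ha
        apply h1 s t (Fin.succ_lt_succ_iff.mp hst)
        simpa [Av] using ha

def Φ (A : ℕ → ℕ → Bool) (n k : ℕ)
    (x : Σ v : Fin n, {f : Fin (n + 1) → Fin k // Pr (Av A v) (n + 1) k f}) :
    {p : (Gr A n).Coloring (Fin k) × (Gr A n).Coloring (Fin k) //
      Nat.card {v : Fin n // p.1 v ≠ p.2 v} = 1} :=
  ⟨(SimpleGraph.Coloring.mk (fun s => x.2.1 s.succ)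
      (fun h => (Pr_iff A n k _).mp ((Pr_Av A n k x.1 x.2.1).mp x.2.2).1 _ _ h),
    SimpleGraph.Coloring.mk (fun s => if s = x.1 then x.2.1 0 else x.2.1 s.succ) (by
      intro s t h
      obtain ⟨h1, _, h3⟩ := (Pr_Av A n k x.1 x.2.1).mp x.2.2
      by_cases hs : s = x.1
      · have ht : t ≠ x.1 := fun ht => h.ne (hs.trans ht.symm)
        rw [if_pos hs, if_neg ht]
        exact h3 t (hs ▸ h.symm)
      · by_cases ht : t = x.1
        · rw [if_neg hs, if_pos ht]
          exact (h3 s (ht ▸ h)).symm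
        · rw [if_neg hs, if_neg ht]
          exact (Pr_iff A n k _).mp h1 _ _ h)), by
    obtain ⟨_, h2, _⟩ := (Pr_Av A n k x.1 x.2.1).mp x.2.2
    rw [Nat.card_eq_one_iff_exists]
    refine ⟨⟨x.1, ?_⟩, ?_⟩
    · show x.2.1 x.1.succ ≠ if x.1 = x.1 then x.2.1 0 else x.2.1 x.1.succ
      rw [if_pos rfl]
      exact h2.symm
    · rintro ⟨u, hu⟩
      apply Subtype.ext
      by_contra hc
      apply hu
      show x.2.1 u.succ = if u = x.1 then x.2.1 0 else x.2.1 u.succ
      rw [if_neg hc]⟩

lemma Φ_bij (A : ℕ → ℕ → Bool) (n k : ℕ) : Function.Bijective (Φ A n k) := by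
  constructor
  · rintro ⟨v, f, hf⟩ ⟨w, g, hg⟩ h
    have e1 : ∀ s : Fin n, f s.succ = g s.succ := fun s =>
      congrArg (fun p => p.1.1 s) h
    have e2 : ∀ s : Fin n, (if s = v then f 0 else f s.succ) = (if s = w then g 0 else g s.succ) :=
      fun s => congrArg (fun p => p.1.2 s) h
    obtain ⟨_, h2, _⟩ := (Pr_Av A n k v f).mp hf
    have hvw : v = w := by
      by_contra hc
      have := e2 v
      rw [if_pos rfl, if_neg hc, ← e1] at this
      exact h2 this
    subst hvw
    have e0 : f 0 = g 0 := by simpa using e2 v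
    have : f = g := by
      funext s
      exact Fin.cases e0 e1 s
    subst this
    rfl
  · rintro ⟨⟨c₁, c₂⟩, hp⟩
    have hp' := hp
    rw [Nat.card_eq_one_iff_exists] at hp'
    obtain ⟨⟨v, hv⟩, huniq⟩ := hp'
    have hoth : ∀ u, u ≠ v → c₁ u = c₂ u := by
      intro u hu
      by_contra hc
      exact hu (congrArg Subtype.val (huniq ⟨u, hc⟩))
    refine ⟨⟨v, Fin.cons (c₂ v) c₁, ?_⟩, ?_⟩
    · rw [Pr_Av]
      refine ⟨?_, ?_, ?_⟩
      · rw [Pr_iff]
        intro s t h
        simpa using c₁.valid h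
      · simpa using (Ne.symm hv)
      · intro u hu
        have := c₂.valid hu
        rw [← hoth u hu.ne] at this
        simpa using this.symm
    · apply Subtype.ext
      apply Prod.ext
      · apply DFunLike.ext
        intro s
        rfl
      · apply DFunLike.ext
        intro s
        show (if s = v then c₂ v else c₁ s) = c₂ s
        split_ifs with h
        · rw [h]
        · exact hoth s h

theorem card_pairs (A : ℕ → ℕ → Bool) (n k : ℕ) :
    Nat.card {p : (Gr A n).Coloring (Fin k) × (Gr A n).Coloring (Fin k) //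
      Nat.card {v : Fin n // p.1 v ≠ p.2 v} = 1}
      = ev (lsum (fun v => N (Av A v) (n + 1) (fun _ => 0) 0 0) n) k := by
  rw [← Nat.card_congr (Equiv.ofBijective _ (Φ_bij A n k)), Nat.card_sigma, ev_lsum,
    ← Fin.sum_univ_eq_sum_range (fun v => ev (N (Av A v) (n + 1) (fun _ => 0) 0 0) k) n]
  apply Finset.sum_congr rfl
  intro v _
  exact card_Pr _ _ _

end Pool.Agent.H12.ColCount
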