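import Mathlib

set_option autoImplicit false

namespace Pool.Agent.H12.Cut52

open Set

abbrev L : Type := WithTop (Fin 3 × Fin 2 × Fin 2) × Fin 2 × Fin 2

def enc (i : Fin 52) : L :=
  (if i.val < 48 then ((Fin.ofNat 3 (i.val / 16), Fin.ofNat 2 (i.val / 8), Fin.ofNat 2 (i.val / 4)) :
    Fin 3 × Fin 2 × Fin 2) else ⊤, Fin.ofNat 2 (i.val / 2), Fin.ofNat 2 i.val)

def leB (i j : ℕ) : Bool := (4831458791905442985252941643526574001574027769743261881827550412734498363378807499377606203578106864040211911713775269077285645841284658817937826807583569920402443205071461089351073053359849469285938286638930080216386788239810620408477839286188891981717818707038578918703681778126430318584998881237425212781435092518628827240134936172781632844733749091963651867077572491463147256854923234216594787111908563012314394626290567892872591778900975892950011056126964245314221639240910555574383701425272514102306522500283157097352584416463088396173254262374554331372824019054079483856960024318313944788175923591595242574480363998980025914168160839240930056376585059419616554818243688054487973659144992852796901107205356287047287276071214166286354967689854441734885253298561996728358023403423197239654989909352732411559935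 >>> (52 * i + j)) % 2 == 1

def cmp (i : ℕ) : ℕ := (9662917583810882394508021086343453750546959881524927387771748498035564988031250045187277305736500279626746626740622696192746000936867848460594463002270150297972462743732550997992540869844493902513880689430052067975255433438888327549777399435257382969753430181195944368682283003490406134572768849615130021564870092647547083214378669230558106684850029309371777674067157155698064483941123015258269768803780675047353856401223394502578455629505948574987596238923899962193842579037165239314577038013718793553216866603493758103061923401320588774616124208043975112482212655256181634592628937454790083092480715385890501114552076798357695870193643797940220194001349825851376686121368183998989089179052541738848291498547135993064154375956098925487422418256678875716176579757350059876196051015346214370672340826394314516987903 >>> (52 * i)) % 2 ^ 52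

def inK (i : ℕ) : Bool := (132492904366080 >>> i) % 2 == 1

def inR (i : ℕ) : Bool := (8242436472831 >>> i) % 2 == 1

def inC (c i : ℕ) : Bool := (526952305832637036165837192095664445506751498063046817762284843260895054944377087065341498227533942082795939874971593508074064966680058003595 >>> (52 * c + i)) % 2 == 1

theorem enc_surj : ∀ z : L, ∃ i, enc i = z := by decide +kernel

theorem enc_le : ∀ i j : Fin 52, enc i ≤ enc j ↔ leB i j = true := by decide +kernel

theorem leB_anti : ∀ i j : Fin 52, leB i j = true → leB j i = true → i = j := by decide +kernel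

theorem cmp_iff : ∀ i j : Fin 52, (cmp i).testBit j = true ↔ (leB i j = true ∨ leB j i = true) := by
  decide +kernel

theorem K_inc : ∀ i : Fin 52, inK i = true → leB i 15 = false ∧ leB 15 i = false := by decide +kernel

theorem K_card : (Finset.univ.filter (fun i : Fin 52 => inK i = true)).card = 9 := by decide +kernel

theorem R_step : ∀ y : Fin 52, inR y = true → y ≠ 51 ∧ ∀ z : Fin 52, leB y z = true → y ≠ z →
    inR z = true ∨ inK z = true ∨ z = 15 ∨
      ∃ w : Fin 52, leB y w = true ∧ leB w z = true ∧ w ≠ y ∧ w ≠ z := by decide +kernel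

theorem C_chain : ∀ c : Fin 9, inC c 15 = false ∧ ∀ i j : Fin 52, inC c i = true → inC c j = true →
    (leB i j = true ∨ leB j i = true) := by decide +kernel

theorem C_max : ∀ c : Fin 9, ∀ z : Fin 52, inC c z = true ∨
    ∃ i : Fin 52, inC c i = true ∧ leB i z = false ∧ leB z i = false := by decide +kernel

theorem C_disj : ∀ c c' : Fin 9, ∀ i : Fin 52, inC c i = true → inC c' i = true →
    c = c' ∨ leB i 15 = true ∨ leB 15 i = true := by decide +kernel

theorem bot_top : ∀ i : Fin 52, leB 0 i = true ∧ leB i 51 = true := by decide +kernel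

def chk : ℕ → List ℕ → ℕ → ℕ → Bool
  | _, _, 0, forb => !(Nat.beq forb (2 ^ 52 - 1))
  | 0, _, _ + 1, _ => false
  | _ + 1, [], _ + 1, _ => true
  | f + 1, i :: l, n + 1, forb => Nat.ble l.length.succ n ||
      (chk f (l.filter fun j => !((cmp i).testBit j)) n (forb ||| cmp i) && chk f l (n + 1) forb)

def inc : List ℕ := [16, 17, 18, 19, 20, 21, 22, 23, 24, 25, 26, 27, 28, 29, 30, 32, 33, 34, 35, 36, 37, 38, 39, 40, 41, 42, 43, 44, 45, 46, 48, 49, 50]

theorem chk_run : chk 40 inc 9 (cmp 15) = true := by decide +kernel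

theorem inc_mem : ∀ i : Fin 52, (cmp 15).testBit i = false → i.val ∈ inc := by decide +kernel

theorem cmp_lt (i : ℕ) : cmp i < 2 ^ 52 := Nat.mod_lt _ (by norm_num)

theorem chk_sound : ∀ (f : ℕ) (l : List ℕ) (n forb : ℕ), chk f l n forb = true → forb < 2 ^ 52 →
    ∀ A : Finset ℕ, (∀ a ∈ A, a ∈ l) → A.card = n →
      (∀ a ∈ A, ∀ b ∈ A, a ≠ b → (cmp a).testBit b = false) →
      ∃ z < 52, forb.testBit z = false ∧ ∀ a ∈ A, (cmp a).testBit z = false := by
  have h0 : ∀ forb, (!(Nat.beq forb (2 ^ 52 - 1))) = true → forb < 2 ^ 52 → ∀ A : Finset ℕ,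
      A.card = 0 → ∃ z < 52, forb.testBit z = false ∧ ∀ a ∈ A, (cmp a).testBit z = false := by
    intro forb h hf A hA
    rw [Finset.card_eq_zero] at hA
    subst hA
    by_contra hn
    push Not at hn
    simp only [Bool.not_eq_true', ← Bool.not_eq_true, Nat.beq_eq] at h
    apply h
    apply Nat.eq_of_testBit_eq
    intro i
    rw [Nat.testBit_two_pow_sub_one]
    by_cases hi : i < 52
    · have := hn i hi
      simp only [Finset.notMem_empty, false_and, exists_false, imp_false, Bool.not_eq_false] at this
      simp [hi, this]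
    · rw [Nat.testBit_lt_two_pow (hf.trans_le (Nat.pow_le_pow_right (by norm_num) (by omega)))]
      simp [hi]
  intro f
  induction f with
  | zero =>
    intro l n forb h hf A _ hA _
    cases n with
    | zero => exact h0 forb (by simpa only [chk] using h) hf A hA
    | succ n => simp [chk] at h
  | succ f ih =>
    intro l n forb h hf A hl hA hc
    cases n with
    | zero => exact h0 forb (by simpa only [chk] using h) hf A hA
    | succ n =>
      have hlen : n + 1 ≤ l.length := by
        rw [← hA]
        exact (Finset.card_le_card (fun a ha => List.mem_toFinset.2 (hl a ha))).trans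
          (List.toFinset_card_le l)
      cases l with
      | nil => simp at hlen
      | cons i l =>
        simp only [chk, Bool.or_eq_true, Nat.ble_eq, Bool.and_eq_true] at h
        rcases h with h | h
        · simp only [List.length_cons] at hlen
          omega
        by_cases hi : i ∈ A
        · obtain ⟨z, h1, h2, h3⟩ := ih _ n _ h.1 (Nat.or_lt_two_pow hf (cmp_lt i)) (A.erase i)
            (fun a ha => by
              rw [Finset.mem_erase] at ha
              rw [List.mem_filter, hc i hi a ha.2 ha.1.symm]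
              exact ⟨(List.mem_cons.1 (hl a ha.2)).resolve_left ha.1, rfl⟩)
            (by rw [Finset.card_erase_of_mem hi, hA]; rfl)
            (fun a ha b hb => hc a (Finset.mem_of_mem_erase ha) b (Finset.mem_of_mem_erase hb))
          rw [Nat.testBit_or, Bool.or_eq_false_iff] at h2
          refine ⟨z, h1, h2.1, fun a ha => ?_⟩
          by_cases hai : a = i
          · rw [hai]
            exact h2.2
          · exact h3 a (Finset.mem_erase.2 ⟨hai, ha⟩)
        · exact ih l (n + 1) forb h.2 hf A
            (fun a ha => (List.mem_cons.1 (hl a ha)).resolve_left (fun h => hi (h ▸ ha))) hA hc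

theorem enc_inj : Function.Injective enc := fun i j h =>
  leB_anti i j ((enc_le i j).1 h.le) ((enc_le j i).1 h.ge)

theorem meets (C : Set L) (hC : IsMaxChain (· ≤ ·) C) :
    ∃ i : Fin 52, enc i ∈ C ∧ (inK i = true ∨ i = 15) := by
  classical
  by_contra hn
  push Not at hn
  have hins : ∀ w : L, (∀ c ∈ C, c ≤ w ∨ w ≤ c) → w ∈ C := by
    intro w hw
    have := hC.2 (hC.1.insert (a := w) (fun b hb _ => (hw b hb).symm)) (subset_insert _ _)
    rw [this]
    exact mem_insert _ _
  have hb : enc 0 ∈ C := hins _ fun c _ => by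
    obtain ⟨i, rfl⟩ := enc_surj c
    exact Or.inr ((enc_le _ _).2 (bot_top i).1)
  have ht : enc 51 ∈ C := hins _ fun c _ => by
    obtain ⟨i, rfl⟩ := enc_surj c
    exact Or.inl ((enc_le _ _).2 (bot_top i).2)
  obtain ⟨y, hy⟩ := Finite.exists_maximal (s := {z : L | z ∈ C ∧ ∃ i : Fin 52, enc i = z ∧ inR i = true})
    (toFinite _) ⟨enc 0, hb, 0, rfl, by decide +kernel⟩
  obtain ⟨hyC, y, rfl, hyR⟩ := hy.prop
  obtain ⟨h1, h2⟩ := R_step y hyR
  obtain ⟨z, hz⟩ := Finite.exists_minimal (s := {z : L | z ∈ C ∧ enc y < z}) (toFinite _)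
    ⟨enc 51, ht, lt_of_le_of_ne ((enc_le _ _).2 (bot_top y).2) (fun h => h1 (enc_inj h))⟩
  obtain ⟨z, rfl⟩ := enc_surj z
  obtain ⟨hzC, hyz⟩ := hz.prop
  rcases h2 z ((enc_le _ _).1 hyz.le) (fun h => hyz.ne (by rw [h])) with h | h | h | ⟨w, h3, h4, h5, h6⟩
  · exact absurd (hy.le_of_ge ⟨hzC, z, rfl, h⟩ hyz.le) hyz.not_ge
  · exact (hn z hzC).1 h
  · exact (hn z hzC).2 h
  · rw [← enc_le] at h3 h4
    have hw : enc w ∈ C := hins _ fun c hc => by
      rcases hC.1.total hc hyC with h | h
      · exact Or.inl (h.trans h3)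
      · by_cases hcy : c = enc y
        · exact Or.inl (hcy ▸ h3)
        · rcases hC.1.total hc hzC with h' | h'
          · exact Or.inr (h4.trans (hz.le_of_le ⟨hc, lt_of_le_of_ne h (Ne.symm hcy)⟩ h'))
          · exact Or.inr (h4.trans h')
    exact h6 (enc_inj (le_antisymm h4 (hz.le_of_le
      ⟨hw, lt_of_le_of_ne h3 (fun h => h5 (enc_inj h).symm)⟩ h4)))

theorem maxChain (c : Fin 9) : IsMaxChain (· ≤ ·) (enc '' {i | inC c i = true}) := by
  refine ⟨?_, fun T hT hsub => Subset.antisymm hsub fun z hz => ?_⟩
  · rintro _ ⟨i, hi, rfl⟩ _ ⟨j, hj, rfl⟩ _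
    simp only [enc_le]
    exact (C_chain c).2 i j hi hj
  · obtain ⟨z, rfl⟩ := enc_surj z
    rcases C_max c z with h | ⟨i, h1, h2, h3⟩
    · exact ⟨z, h, rfl⟩
    · have := hT.total (hsub ⟨i, h1, rfl⟩) hz
      simp only [enc_le, h2, h3] at this
      simp at this

theorem lower (K : Set L) (h1 : ∀ k ∈ K, ¬ k ≤ enc 15 ∧ ¬ enc 15 ≤ k)
    (h2 : ∀ C : Set L, IsMaxChain (· ≤ ·) C → (C ∩ insert (enc 15) K).Nonempty) : 9 ≤ K.ncard := by
  have h3 : ∀ c : Fin 9, ∃ i : Fin 52, inC c i = true ∧ enc i ∈ K := by
    intro c
    obtain ⟨_, ⟨i, hi, rfl⟩, h | h⟩ := h2 _ (maxChain c)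
    · rw [enc_inj h] at hi
      exact absurd hi (by simpa using (C_chain c).1)
    · exact ⟨i, hi, h⟩
  choose g hg using h3
  have h4 : Function.Injective (fun c => enc (g c)) := by
    intro c c' h
    have h5 := enc_inj h
    rcases C_disj c c' (g c) (hg c).1 (h5 ▸ (hg c').1) with h | h | h
    · exact h
    · exact absurd ((enc_le _ 15).2 h) (h1 _ (hg c).2).1
    · exact absurd ((enc_le 15 _).2 h) (h1 _ (hg c).2).2
  have h5 := ncard_le_ncard (s := range fun c => enc (g c)) (t := K)
    (by rintro _ ⟨c, rfl⟩; exact (hg c).2)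
  rwa [ncard_range_of_injective h4, Nat.card_eq_fintype_card, Fintype.card_fin] at h5

theorem upper : ∃ K : Set L, ((∀ k ∈ K, ¬ k ≤ enc 15 ∧ ¬ enc 15 ≤ k) ∧
    ∀ C : Set L, IsMaxChain (· ≤ ·) C → (C ∩ insert (enc 15) K).Nonempty) ∧ K.ncard = 9 := by
  refine ⟨enc '' (Finset.univ.filter (fun i : Fin 52 => inK i = true) : Finset (Fin 52)), ⟨?_, ?_⟩, ?_⟩
  · rintro _ ⟨i, hi, rfl⟩
    have := K_inc i (by simpa using hi)
    simp only [enc_le]
    simpa using this
  · intro C hC
    obtain ⟨i, h1, h2 | rfl⟩ := meets C hC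
    · exact ⟨_, h1, Or.inr ⟨i, by simpa using h2, rfl⟩⟩
    · exact ⟨_, h1, Or.inl rfl⟩
  · rw [ncard_image_of_injective _ enc_inj, ncard_coe_finset, K_card]

theorem no_anti (A : Set L) (hA : Maximal (IsAntichain (· ≤ ·)) A) (hx : enc 15 ∈ A) :
    A.ncard ≠ 10 := by
  classical
  intro hc
  have hinc : ∀ i j : Fin 52, enc i ∈ A → enc j ∈ A → i ≠ j → (cmp i).testBit j = false := by
    intro i j hi hj hij
    rw [← Bool.not_eq_true, cmp_iff, ← enc_le, ← enc_le]
    rintro (h | h)
    · exact hA.prop hi hj (fun h => hij (enc_inj h)) h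
    · exact hA.prop hj hi (fun h => hij (enc_inj h).symm) h
  let B : Finset (Fin 52) := Finset.univ.filter (fun i => enc i ∈ A ∧ i ≠ 15)
  have hB : B.card = 9 := by
    have h1 : A = insert (enc 15) (enc '' B) := by
      ext z
      obtain ⟨z, rfl⟩ := enc_surj z
      by_cases h : z = 15
      · simp [h, hx]
      · simp [B, enc_inj.eq_iff, h]
    rw [h1, ncard_insert_of_notMem (by simp [B, enc_inj.eq_iff]), ncard_image_of_injective _ enc_inj,
      ncard_coe_finset] at hc
    omega
  obtain ⟨z, h1, h2, h3⟩ := chk_sound _ _ _ _ chk_run (cmp_lt 15) (B.map Fin.valEmbedding)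
    (by
      simp only [Finset.mem_map, B, Finset.mem_filter, Finset.mem_univ, true_and]
      rintro _ ⟨i, hi, rfl⟩
      exact inc_mem i (hinc 15 i hx hi.1 hi.2.symm))
    (by simpa using hB)
    (by
      simp only [Finset.mem_map, B, Finset.mem_filter, Finset.mem_univ, true_and]
      rintro _ ⟨i, hi, rfl⟩ _ ⟨j, hj, rfl⟩ hij
      exact hinc i j hi.1 hj.1 (fun h => hij (by rw [h])))
  have h4 : ∀ i : Fin 52, enc i ∈ A → (cmp i).testBit (⟨z, h1⟩ : Fin 52) = false := by
    intro i hi
    by_cases h : i = 15
    · rw [h]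
      exact h2
    · exact h3 _ (Finset.mem_map.2 ⟨i, by simp [B, hi, h], rfl⟩)
  have h5 : ∀ b ∈ A, ¬ b ≤ enc ⟨z, h1⟩ ∧ ¬ enc ⟨z, h1⟩ ≤ b := by
    intro b hb
    obtain ⟨i, rfl⟩ := enc_surj b
    have := h4 i hb
    rw [← Bool.not_eq_true, cmp_iff, ← enc_le, ← enc_le] at this
    exact not_or.1 this
  have h6 := hA.le_of_ge (hA.prop.insert (a := enc ⟨z, h1⟩) (fun b hb _ => (h5 b hb).1)
    (fun b hb _ => (h5 b hb).2)) (subset_insert _ _) (mem_insert _ _)
  exact (h5 _ h6).1 le_rfl

end Pool.Agent.H12.Cut52
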