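import Mathlib

set_option autoImplicit false

namespace Pool.Agent.H12.DB

abbrev B : Type := ZMod 4 × ZMod 4
abbrev A : Type := B × B

def cS (x : B) : Bool := x ∈ [((1, 0) : B), (3, 0), (0, 1), (0, 3), (1, 1), (3, 3)]

def conn (p : A) : Bool := (cS p.1 && decide (p.2 = 0)) || (decide (p.1 = 0) && cS p.2)

def L0 : List A :=
  [((1, 0), 0), ((3, 0), 0), ((0, 1), 0), ((0, 3), 0), ((1, 1), 0), ((3, 3), 0),
   (0, (1, 0)), (0, (3, 0)), (0, (0, 1)), (0, (0, 3)), (0, (1, 1)), (0, (3, 3))]

lemma conn_iff : ∀ p : A, conn p = true ↔ p ∈ L0 := by decide +kernel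

lemma conn_neg : ∀ p : A, conn p = true → conn (-p) = true := by decide +kernel

/-- the Doob graph: Cartesian square of the Shrikhande graph -/
def G : SimpleGraph A where
  Adj u v := conn (v - u) = true
  symm := ⟨fun u v h => by
    have := conn_neg _ h
    rwa [neg_sub] at this⟩
  loopless := ⟨fun u h => by
    rw [sub_self] at h
    exact absurd h (by decide)⟩

lemma adj_iff (u v : A) : G.Adj u v ↔ conn (v - u) = true := Iff.rfl

def dS (x : B) : ℕ := if x = 0 then 0 else if cS x then 1 else 2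

def d (p : A) : ℕ := dS p.1 + dS p.2

lemma d_zero : ∀ p : A, d p = 0 → p = 0 := by decide +kernel

lemma d_step : ∀ p : A, ∀ s ∈ L0, d (p + s) ≤ d p + 1 := by decide +kernel

lemma d_down : ∀ p : A, d p ≠ 0 → ∃ s ∈ L0, d (p - s) + 1 = d p := by decide +kernel

def bb (i : ℕ) : ℕ := 3 * (4 - i)

lemma count_c : ∀ p : A, (L0.toFinset.filter (fun s => d (p + s) + 1 = d p)).card = d p := by
  decide +kernel

lemma count_b : ∀ p : A,
    (L0.toFinset.filter (fun s => d (p + s) = d p + 1)).card = bb (d p) := by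
  decide +kernel

lemma walk_ge {u v : A} (p : G.Walk u v) : d (u - v) ≤ p.length := by
  induction p with
  | nil =>
    rw [sub_self]
    have : d 0 = 0 := by decide
    omega
  | @cons a b c h p ih =>
    have h1 := (conn_iff _).1 ((adj_iff _ _).1 h.symm)
    have h2 := d_step (b - c) _ h1
    have e : b - c + (a - b) = a - c := by abel
    rw [e] at h2
    simp only [SimpleGraph.Walk.length_cons]
    omega

lemma walk_ex (u : A) : ∀ (n : ℕ) (v : A), d (v - u) = n → ∃ p : G.Walk v u, p.length = n := by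
  intro n
  induction n with
  | zero =>
    intro v h
    have := d_zero _ h
    rw [sub_eq_zero] at this
    subst this
    exact ⟨.nil, rfl⟩
  | succ n ih =>
    intro v h
    obtain ⟨s, hs, e⟩ := d_down (v - u) (by omega)
    have e2 : v - u - s = (v - s) - u := by abel
    rw [e2] at e
    obtain ⟨p, hp⟩ := ih (v - s) (by omega)
    have a : G.Adj (v - s) v := by
      rw [adj_iff, sub_sub_cancel]
      exact (conn_iff _).2 hs
    exact ⟨.cons a.symm p, by simp [hp]⟩

lemma dist_eq (u v : A) : G.dist u v = d (v - u) := by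
  rw [SimpleGraph.dist_comm]
  obtain ⟨p, hp⟩ := walk_ex u _ v rfl
  apply le_antisymm
  · rw [← hp]; exact SimpleGraph.dist_le p
  · obtain ⟨q, hq⟩ := (p.reachable).exists_walk_length_eq_dist
    rw [← hq]; exact walk_ge q

lemma ncard_eq (v : A) (P : A → Prop) [DecidablePred P] :
    Set.ncard {w | G.Adj v w ∧ P w} = (L0.toFinset.filter (fun s => P (v + s))).card := by
  have : {w | G.Adj v w ∧ P w} =
      (fun s => v + s) '' (L0.toFinset.filter (fun s => P (v + s)) : Finset A) := by
    ext w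
    simp only [Set.mem_ofPred_eq, Set.mem_image, Finset.coe_filter, List.mem_toFinset, adj_iff,
      conn_iff]
    constructor
    · rintro ⟨h1, h2⟩
      exact ⟨w - v, ⟨h1, by simpa using h2⟩, by simp⟩
    · rintro ⟨s, ⟨h1, h2⟩, rfl⟩
      exact ⟨by simpa using h1, h2⟩
  rw [this, Set.ncard_image_of_injective _ (add_right_injective v), Set.ncard_coe_finset]

lemma fold_conn : ∀ p ∈ L0, conn (p.1 + p.2, 0) = true := by decide +kernel

/-- the folding endomorphism -/
def fold : G →g G where
  toFun p := (p.1 + p.2, 0)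
  map_rel' := by
    intro u v h
    have := fold_conn _ ((conn_iff _).1 ((adj_iff _ _).1 h))
    rw [adj_iff]
    have e : ((v.1 + v.2, 0) : A) - (u.1 + u.2, 0) = ((v - u).1 + (v - u).2, 0) := by
      ext <;> simp <;> abel
    rw [e]; exact this

lemma k4 : ∀ p ∈ L0, ∀ q ∈ L0, ∀ r ∈ L0, conn (q - p) = true → conn (r - p) = true →
    conn (r - q) = true → False := by decide +kernel

lemma no_k4 {w x y z : A} (h1 : G.Adj w x) (h2 : G.Adj w y) (h3 : G.Adj w z) (h4 : G.Adj x y)
    (h5 : G.Adj x z) (h6 : G.Adj y z) : False := by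
  rw [adj_iff] at *
  refine k4 (x - w) ((conn_iff _).1 h1) (y - w) ((conn_iff _).1 h2) (z - w) ((conn_iff _).1 h3)
    ?_ ?_ ?_
  · rwa [sub_sub_sub_cancel_right]
  · rwa [sub_sub_sub_cancel_right]
  · rwa [sub_sub_sub_cancel_right]

lemma not_top (S : Set A) (f : G →g G.induce S) : G.induce S ≠ ⊤ := by
  intro ht
  have key : ∀ x y : S, x ≠ y → G.Adj x y := by
    intro x y h
    have : (G.induce S).Adj x y := by rw [ht]; exact h
    exact this
  have step : ∀ w x y z : A, G.Adj w x → G.Adj w y → G.Adj x y → G.Adj x z → G.Adj y z →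
      f w = f z := by
    intro w x y z h1 h2 h3 h4 h5
    by_contra hn
    exact no_k4 (key _ _ (f.map_adj h1).ne) (key _ _ (f.map_adj h2).ne) (key _ _ hn)
      (key _ _ (f.map_adj h3).ne) (key _ _ (f.map_adj h4).ne) (key _ _ (f.map_adj h5).ne)
  have s1 := step ((0, 0), 0) ((1, 0), 0) ((1, 1), 0) ((2, 1), 0) (by rw [adj_iff]; decide)
    (by rw [adj_iff]; decide) (by rw [adj_iff]; decide) (by rw [adj_iff]; decide)
    (by rw [adj_iff]; decide)
  have s2 := step ((2, 1), 0) ((2, 2), 0) ((3, 2), 0) ((3, 3), 0) (by rw [adj_iff]; decide)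
    (by rw [adj_iff]; decide) (by rw [adj_iff]; decide) (by rw [adj_iff]; decide)
    (by rw [adj_iff]; decide)
  have a : G.Adj ((0, 0), 0) ((3, 3), 0) := by rw [adj_iff]; decide
  exact (f.map_adj a).ne (s1.trans s2)

end Pool.Agent.H12.DB
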