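import Mathlib

set_option autoImplicit false

namespace Pool.Agent.H12.DB

lemma iso_of_bij {V : Type} [Finite V] (G : SimpleGraph V) (f : G →g G)
    (hf : Function.Bijective f) : ∃ e : G ≃g G, ∀ v, e v = f v := by
  classical
  let σ : Equiv.Perm V := Equiv.ofBijective f hf
  have hp : ∀ (k : ℕ) (a b : V), G.Adj a b → G.Adj ((σ ^ k) a) ((σ ^ k) b) := by
    intro k
    induction k with
    | zero => intro a b h; simpa using h
    | succ k ih =>
      intro a b h
      rw [pow_succ', Equiv.Perm.mul_apply, Equiv.Perm.mul_apply]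
      exact f.map_adj (ih a b h)
  have ho : 0 < orderOf σ := orderOf_pos σ
  refine ⟨⟨σ, ?_⟩, fun v => rfl⟩
  intro a b
  constructor
  · intro h
    have := hp (orderOf σ - 1) _ _ h
    rw [← Equiv.Perm.mul_apply, ← Equiv.Perm.mul_apply, ← pow_succ,
      Nat.sub_add_cancel ho, pow_orderOf_eq_one] at this
    exact this
  · intro h
    exact f.map_adj h

lemma core_ex {V : Type} [Finite V] (G : SimpleGraph V) :
    ∃ S : Set V, (∀ f : G.induce S →g G.induce S, ∃ e : G.induce S ≃g G.induce S,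
      ∀ v, e v = f v) ∧ Nonempty (G →g G.induce S) := by
  classical
  have hex : ∃ n, ∃ S : Set V, S.ncard = n ∧ Nonempty (G →g G.induce S) :=
    ⟨_, Set.univ, rfl, ⟨⟨fun v => ⟨v, trivial⟩, fun h => h⟩⟩⟩
  obtain ⟨S, hS, ⟨φ⟩⟩ := Nat.find_spec hex
  refine ⟨S, ?_, ⟨φ⟩⟩
  intro f
  apply iso_of_bij
  rw [← Finite.surjective_iff_bijective]
  by_contra hn
  let T : Set V := Set.range (fun x : S => (f x : V))
  have hT : T ⊂ S := by
    refine ⟨?_, ?_⟩
    · rintro _ ⟨x, rfl⟩
      exact (f x).2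
    · intro h
      apply hn
      intro y
      obtain ⟨x, hx⟩ := h y.2
      exact ⟨x, Subtype.ext hx⟩
  have hlt : T.ncard < Nat.find hex := by
    rw [← hS]
    exact Set.ncard_lt_ncard hT (Set.toFinite S)
  refine Nat.find_min hex hlt ⟨T, rfl, ⟨⟨fun v => ⟨f (φ v), ⟨φ v, rfl⟩⟩, ?_⟩⟩⟩
  intro a b h
  exact f.map_adj (φ.map_adj h)

end Pool.Agent.H12.DB
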