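import Mathlib

set_option autoImplicit false

namespace Pool.Agent.H12.DW

open SimpleGraph

/-- position function: values `0,1` are hubs, the other vertices lie on a line -/
def Good {n : ℕ} (G : SimpleGraph (Fin n)) (c : Fin n → ℕ) : Prop :=
  Function.Injective c ∧ ∀ u v w, G.Adj u v → 2 ≤ c u → c u < c w → c w < c v → False

def Cls (n : ℕ) (G : SimpleGraph (Fin n)) : Prop := ∃ c, Good G c

noncomputable def Pt (x : ℕ) : ℝ × ℝ :=
  if x = 0 then (0, 1) else if x = 1 then (0, -1) else ((x : ℝ), 0)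

theorem Pt0 : Pt 0 = (0, 1) := by simp [Pt]
theorem Pt1 : Pt 1 = (0, -1) := by simp [Pt]
theorem Pt2 (x : ℕ) (h : 2 ≤ x) : Pt x = ((x : ℝ), 0) := by
  have h0 : x ≠ 0 := by omega
  have h1 : x ≠ 1 := by omega
  simp [Pt, h0, h1]

theorem tri (x : ℕ) : x = 0 ∨ x = 1 ∨ 2 ≤ x := by omega

theorem Pt_inj : Function.Injective Pt := by
  intro x y h
  rcases tri x with rfl | rfl | hx <;> rcases tri y with rfl | rfl | hy
  · rfl
  · rw [Pt0, Pt1] at h; have := congrArg Prod.snd h; norm_num at this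
  · rw [Pt0, Pt2 y hy] at h; have := congrArg Prod.snd h; norm_num at this
  · rw [Pt0, Pt1] at h; have := congrArg Prod.snd h; norm_num at this
  · rfl
  · rw [Pt1, Pt2 y hy] at h; have := congrArg Prod.snd h; norm_num at this
  · rw [Pt0, Pt2 x hx] at h; have := congrArg Prod.snd h; norm_num at this
  · rw [Pt1, Pt2 x hx] at h; have := congrArg Prod.snd h; norm_num at this
  · rw [Pt2 x hx, Pt2 y hy] at h
    have : (x : ℝ) = y := congrArg Prod.fst h
    exact_mod_cast this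

def On (x y : ℕ) (z : ℝ × ℝ) : Prop :=
  (x = 0 ∧ y = 1 ∧ z.1 = 0 ∧ -1 < z.2 ∧ z.2 < 1) ∨
  (x = 0 ∧ 2 ≤ y ∧ 0 < z.2 ∧ z.2 < 1 ∧ z.1 = (1 - z.2) * y) ∨
  (x = 1 ∧ 2 ≤ y ∧ -1 < z.2 ∧ z.2 < 0 ∧ z.1 = (1 + z.2) * y) ∨
  (2 ≤ x ∧ z.2 = 0 ∧ (x : ℝ) < z.1 ∧ z.1 < y)

theorem on_comb (x y : ℕ) (hxy : x < y) (t : ℝ) (h0 : 0 < t) (h1 : t < 1) :
    On x y ((1 - t) • Pt x + t • Pt y) := by
  rcases tri x with rfl | rfl | hx
  · rcases tri y with rfl | rfl | hy
    · omega
    · left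
      rw [Pt0, Pt1]
      refine ⟨rfl, rfl, by simp, ?_, ?_⟩ <;> simp <;> linarith
    · right; left
      rw [Pt0, Pt2 y hy]
      refine ⟨rfl, hy, ?_, ?_, ?_⟩ <;> simp <;> linarith
  · have hy : 2 ≤ y := by omega
    right; right; left
    rw [Pt1, Pt2 y hy]
    refine ⟨rfl, hy, ?_, ?_, ?_⟩ <;> simp <;> linarith
  · have hy : 2 ≤ y := by omega
    right; right; right
    rw [Pt2 x hx, Pt2 y hy]
    have hlt : (x : ℝ) < y := by exact_mod_cast hxy
    refine ⟨hx, by simp, ?_, ?_⟩ <;> simp <;> nlinarith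

theorem on_seg (x y : ℕ) (hxy : x ≠ y) (t : unitInterval) (ht : (t : ℝ) ∈ Set.Ioo (0 : ℝ) 1) :
    On (min x y) (max x y) (Path.segment (Pt x) (Pt y) t) := by
  rw [Path.segment_apply, AffineMap.lineMap_apply_module]
  rcases lt_or_gt_of_ne hxy with h | h
  · rw [min_eq_left h.le, max_eq_right h.le]
    exact on_comb x y h t ht.1 ht.2
  · rw [min_eq_right h.le, max_eq_left h.le]
    have := on_comb y x h (1 - t) (by linarith [ht.2]) (by linarith [ht.1])
    rw [add_comm]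
    simpa using this

theorem on_vertex (x y w : ℕ) (h : On x y (Pt w)) : 2 ≤ x ∧ x < w ∧ w < y := by
  rcases tri w with rfl | rfl | hw
  · rw [Pt0] at h
    rcases h with ⟨-, -, -, -, h⟩ | ⟨-, -, -, h, -⟩ | ⟨-, -, -, h, -⟩ | ⟨-, h, -⟩ <;>
      norm_num at h
  · rw [Pt1] at h
    rcases h with ⟨-, -, -, h, -⟩ | ⟨-, -, h, -⟩ | ⟨-, -, h, -⟩ | ⟨-, h, -⟩ <;>
      norm_num at h
  · rw [Pt2 w hw] at h
    rcases h with ⟨-, -, h, -⟩ | ⟨-, -, h, -⟩ | ⟨-, -, -, h, -⟩ | ⟨h1, -, h2, h3⟩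
    · have h' : (w : ℝ) = 0 := h
      have : w = 0 := by exact_mod_cast h'
      omega
    · norm_num at h
    · norm_num at h
    · have h2' : (x : ℝ) < w := h2
      have h3' : (w : ℝ) < y := h3
      exact ⟨h1, by exact_mod_cast h2', by exact_mod_cast h3'⟩

theorem on_on (x y u v : ℕ) (z : ℝ × ℝ) (h : On x y z) (h' : On u v z) :
    (x = u ∧ y = v) ∨ (2 ≤ x ∧ 2 ≤ u ∧ x < v ∧ u < y) := by
  have pos : ∀ k : ℕ, 2 ≤ k → (0 : ℝ) < k := fun k hk => by
    have : 0 < k := by omega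
    exact_mod_cast this
  rcases h with ⟨a1, a2, a3, a4, a5⟩ | ⟨a1, a2, a3, a4, a5⟩ | ⟨a1, a2, a3, a4, a5⟩ |
    ⟨a1, a2, a3, a4⟩ <;>
  rcases h' with ⟨b1, b2, b3, b4, b5⟩ | ⟨b1, b2, b3, b4, b5⟩ | ⟨b1, b2, b3, b4, b5⟩ |
    ⟨b1, b2, b3, b4⟩
  · left; omega
  · exfalso; have := pos v b2; nlinarith
  · exfalso; have := pos v b2; nlinarith
  · exfalso; have := pos u b1; linarith
  · exfalso; have := pos y a2; nlinarith
  · left
    refine ⟨by omega, ?_⟩
    have : (y : ℝ) = v := mul_left_cancel₀ (show (1 - z.2) ≠ 0 by linarith) (a5.symm.trans b5)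
    exact_mod_cast this
  · exfalso; linarith
  · exfalso; linarith
  · exfalso; have := pos y a2; nlinarith
  · exfalso; linarith
  · left
    refine ⟨by omega, ?_⟩
    have : (y : ℝ) = v := mul_left_cancel₀ (show (1 + z.2) ≠ 0 by linarith) (a5.symm.trans b5)
    exact_mod_cast this
  · exfalso; linarith
  · exfalso; have := pos x a1; linarith
  · exfalso; linarith
  · exfalso; linarith
  · right
    refine ⟨a1, b1, ?_, ?_⟩
    · have : (x : ℝ) < v := by linarith
      exact_mod_cast this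
    · have : (u : ℝ) < y := by linarith
      exact_mod_cast this

theorem nobetween {n : ℕ} {G : SimpleGraph (Fin n)} {c : Fin n → ℕ} (hc : Good G c)
    {i j : Fin n} (h : G.Adj i j) (w : Fin n) (h2 : 2 ≤ min (c i) (c j))
    (h3 : min (c i) (c j) < c w) (h4 : c w < max (c i) (c j)) : False := by
  rcases le_total (c i) (c j) with hle | hle
  · rw [min_eq_left hle] at h2 h3
    rw [max_eq_right hle] at h4
    exact hc.2 i j w h h2 h3 h4
  · rw [min_eq_right hle] at h2 h3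
    rw [max_eq_left hle] at h4
    exact hc.2 j i w h.symm h2 h3 h4

theorem planar (n : ℕ) (G : SimpleGraph (Fin n)) (hG : Cls n G) :
      ∃ f : Fin n → ℝ × ℝ, Function.Injective f ∧
      ∃ γ : (i j : Fin n) → Path (f i) (f j),
        (∀ i j, G.Adj i j → i < j → Function.Injective ⇑(γ i j)) ∧
        (∀ i j, G.Adj i j → i < j → ∀ t : unitInterval, (t : ℝ) ∈ Set.Ioo (0 : ℝ) 1 →
            ∀ v, γ i j t ≠ f v) ∧
        (∀ i j k l, G.Adj i j → i < j → G.Adj k l → k < l → (i ≠ k ∨ j ≠ l) →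
          ∀ s t : unitInterval, (s : ℝ) ∈ Set.Ioo (0 : ℝ) 1 → (t : ℝ) ∈ Set.Ioo (0 : ℝ) 1 →
            γ i j s ≠ γ k l t) := by
  obtain ⟨c, hc⟩ := hG
  refine ⟨fun i => Pt (c i), Pt_inj.comp hc.1, fun i j => Path.segment (Pt (c i)) (Pt (c j)),
    ?_, ?_, ?_⟩
  · intro i j h _ s t hst
    have hne : Pt (c i) ≠ Pt (c j) := fun e => h.ne (hc.1 (Pt_inj e))
    simp only [Path.segment_apply] at hst
    exact Subtype.ext (AffineMap.lineMap_injective ℝ hne hst)
  · intro i j h _ t ht v e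
    have hne : c i ≠ c j := fun e => h.ne (hc.1 e)
    have h1 := on_seg (c i) (c j) hne t ht
    simp only at e
    rw [e] at h1
    obtain ⟨a, b, d⟩ := on_vertex _ _ _ h1
    exact nobetween hc h v a b d
  · intro i j k l h hij h' hkl hd s t hs ht e
    have hne : c i ≠ c j := fun e => h.ne (hc.1 e)
    have hne' : c k ≠ c l := fun e => h'.ne (hc.1 e)
    have h1 := on_seg (c i) (c j) hne s hs
    have h2 := on_seg (c k) (c l) hne' t ht
    simp only at e
    rw [e] at h1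
    have key : min (c i) (c j) = min (c k) (c l) ∧ max (c i) (c j) = max (c k) (c l) := by
      rcases on_on _ _ _ _ _ h1 h2 with h3 | ⟨a1, a2, a3, a4⟩
      · exact h3
      · have b1 := fun z : _ ∧ _ => nobetween hc h k a1 z.1 z.2
        have b2 := fun z : _ ∧ _ => nobetween hc h l a1 z.1 z.2
        have b3 := fun z : _ ∧ _ => nobetween hc h' i a2 z.1 z.2
        have b4 := fun z : _ ∧ _ => nobetween hc h' j a2 z.1 z.2
        change ¬ _ at b1 b2 b3 b4
        omega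
    have : (c i = c k ∧ c j = c l) ∨ (c i = c l ∧ c j = c k) := by omega
    rcases this with ⟨e1, e2⟩ | ⟨e1, e2⟩
    · rcases hd with hd | hd
      · exact hd (hc.1 e1)
      · exact hd (hc.1 e2)
    · have e3 := hc.1 e1
      have e4 := hc.1 e2
      subst e3 e4
      exact absurd hij (not_lt.mpr hkl.le)

theorem spread {V : Type} (G : SimpleGraph V) (S : Set V) (hS : (G.induce S).Connected)
    (Q : V → Prop) (hQ : ∀ u ∈ S, ∀ v ∈ S, G.Adj u v → Q u → Q v) :
    ∀ u ∈ S, ∀ v ∈ S, Q u → Q v := by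
  intro u hu v hv
  obtain ⟨p⟩ := hS.preconnected ⟨u, hu⟩ ⟨v, hv⟩
  have : ∀ (a b : S) (_ : (G.induce S).Walk a b), Q a.1 → Q b.1 := by
    intro a b q
    induction q with
    | nil => exact id
    | cons h _ ih => exact fun ha => ih (hQ _ (Subtype.property _) _ (Subtype.property _) h ha)
  exact this _ _ p

theorem closure {n m : ℕ} (G : SimpleGraph (Fin n)) (H : SimpleGraph (Fin m)) (c : Fin n → ℕ)
    (hc : Good G c) (B : Fin m → Set (Fin n)) (h1 : ∀ i, (G.induce (B i)).Connected)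
    (h2 : ∀ i j, i ≠ j → Disjoint (B i) (B j))
    (h3 : ∀ i j, i ≠ j → (H.Adj i j ↔ ∃ u ∈ B i, ∃ v ∈ B j, G.Adj u v)) :
    ∃ r : Fin m → Fin n, (∀ i, r i ∈ B i) ∧ Good H (fun i => c (r i)) := by
  have hex : ∀ i, ∃ u ∈ B i, ∀ v ∈ B i, c u ≤ c v := by
    intro i
    obtain ⟨⟨u, hu⟩⟩ := (h1 i).nonempty
    exact Set.exists_min_image (B i) c (Set.toFinite _) ⟨u, hu⟩
  choose r hr hmin using hex
  refine ⟨r, hr, ?_, ?_⟩
  · intro i j e
    by_contra hne
    have := hc.1 e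
    exact Set.disjoint_left.mp (h2 i j hne) (hr i) (this ▸ hr j)
  · intro i j l hij a1 a2 a3
    simp only at a1 a2 a3
    have hli : l ≠ i := fun e => by rw [e] at a2; omega
    have hlj : l ≠ j := fun e => by rw [e] at a3; omega
    have step : ∀ u v, (u ∈ B i ∨ u ∈ B j) → (v ∈ B i ∨ v ∈ B j) → G.Adj u v →
        c u < c (r l) → c v < c (r l) := by
      intro u v hu hv huv hlt
      have hu2 : 2 ≤ c u := by
        rcases hu with hu | hu
        · have := hmin i u hu; omega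
        · have := hmin j u hu; omega
      have hvne : c v ≠ c (r l) := by
        intro e
        have e' := hc.1 e
        rcases hv with hv | hv
        · exact Set.disjoint_left.mp (h2 l i hli) (hr l) (e' ▸ hv)
        · exact Set.disjoint_left.mp (h2 l j hlj) (hr l) (e' ▸ hv)
      by_contra hge
      exact hc.2 u v (r l) huv hu2 hlt (by omega)
    obtain ⟨u, hu, v, hv, huv⟩ := (h3 i j hij.ne).mp hij
    have s1 := spread G (B i) (h1 i) (fun x => c x < c (r l))
      (fun x hx y hy h => step x y (Or.inl hx) (Or.inl hy) h) (r i) (hr i) u hu a2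
    have s2 := step u v (Or.inl hu) (Or.inr hv) huv s1
    have s3 := spread G (B j) (h1 j) (fun x => c x < c (r l))
      (fun x hx y hy h => step x y (Or.inr hx) (Or.inr hy) h) v hv (r j) (hr j) s2
    omega

theorem deg {n : ℕ} {G : SimpleGraph (Fin n)} {c : Fin n → ℕ} (hc : Good G c) (u : Fin n)
    (e : Fin 5 → Fin n) (he : Function.Injective e) (hadj : ∀ i, G.Adj u (e i)) : c u < 2 := by
  by_contra hu
  let κ : Fin 5 → Fin 4 := fun i =>
    if c (e i) = 0 then 0 else if c (e i) = 1 then 1 else if c (e i) < c u then 2 else 3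
  have hκ : Function.Injective κ := by
    intro i j h
    apply he
    apply hc.1
    have n1 : c (e i) ≠ c u := fun x => (hadj i).ne (hc.1 x).symm
    have n2 : c (e j) ≠ c u := fun x => (hadj j).ne (hc.1 x).symm
    have b1 := fun z : _ ∧ _ ∧ _ => hc.2 u (e i) (e j) (hadj i) z.1 z.2.1 z.2.2
    have b2 := fun z : _ ∧ _ ∧ _ => hc.2 u (e j) (e i) (hadj j) z.1 z.2.1 z.2.2
    have b3 := fun z : _ ∧ _ ∧ _ => hc.2 (e i) u (e j) (hadj i).symm z.1 z.2.1 z.2.2
    have b4 := fun z : _ ∧ _ ∧ _ => hc.2 (e j) u (e i) (hadj j).symm z.1 z.2.1 z.2.2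
    change ¬ _ at b1 b2 b3 b4
    simp only [κ] at h
    split_ifs at h <;> omega
  have := Fintype.card_le_of_injective κ hκ
  simp at this

end Pool.Agent.H12.DW
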