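import Pool.Agent.H12.DW1

set_option autoImplicit false

namespace Pool.Agent.H12.DW

open SimpleGraph

def W (k : ℕ) : SimpleGraph (Fin (2 * k + 2)) :=
  SimpleGraph.fromRel (fun a b : Fin (2 * k + 2) =>
          (a.val < 2 * k ∧ b.val < 2 * k ∧ b.val = (a.val + 1) % (2 * k)) ∨
          (a.val = 2 * k ∧ b.val < 2 * k ∧ b.val % 2 = 0) ∨
          (a.val = 2 * k + 1 ∧ b.val < 2 * k ∧ b.val % 2 = 1))

theorem wheel (k : ℕ) (h : Cls (2 * k + 2) (W k)) : k ≤ 4 := by
  classical
  by_contra hk
  obtain ⟨c, hc⟩ := h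
  let a : Fin (2 * k + 2) := ⟨2 * k, by omega⟩
  let b : Fin (2 * k + 2) := ⟨2 * k + 1, by omega⟩
  have ha : c a < 2 := by
    refine deg hc a (fun i => ⟨2 * i.val, by have := i.isLt; omega⟩) ?_ ?_
    · intro i j e
      have := congrArg Fin.val e
      simp only at this
      apply Fin.ext; omega
    · intro i
      have := i.isLt
      rw [W, fromRel_adj]
      refine ⟨fun e => ?_, Or.inl (Or.inr (Or.inl ⟨rfl, ?_, ?_⟩))⟩
      · have := congrArg Fin.val e
        simp only [a] at this
        omega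
      · show 2 * i.val < 2 * k
        omega
      · show 2 * i.val % 2 = 0
        omega
  have hb : c b < 2 := by
    refine deg hc b (fun i => ⟨2 * i.val + 1, by have := i.isLt; omega⟩) ?_ ?_
    · intro i j e
      have := congrArg Fin.val e
      simp only at this
      apply Fin.ext; omega
    · intro i
      have := i.isLt
      rw [W, fromRel_adj]
      refine ⟨fun e => ?_, Or.inl (Or.inr (Or.inr ⟨rfl, ?_, ?_⟩))⟩
      · have := congrArg Fin.val e
        simp only [b] at this
        omega
      · show 2 * i.val + 1 < 2 * k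
        omega
      · show (2 * i.val + 1) % 2 = 1
        omega
  have hab : c a ≠ c b := fun e => by
    have := congrArg Fin.val (hc.1 e)
    simp only [a, b] at this
    omega
  have h2 : ∀ u : Fin (2 * k + 2), u.val < 2 * k → 2 ≤ c u := by
    intro u hu
    have n1 : c u ≠ c a := fun e => by
      have := congrArg Fin.val (hc.1 e)
      simp only [a] at this
      omega
    have n2 : c u ≠ c b := fun e => by
      have := congrArg Fin.val (hc.1 e)
      simp only [b] at this
      omega
    omega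
  obtain ⟨u, hu, hmax⟩ := Set.exists_max_image {u : Fin (2 * k + 2) | u.val < 2 * k} c
    (Set.toFinite _) ⟨⟨0, by omega⟩, by show 0 < 2 * k; omega⟩
  have hu' : u.val < 2 * k := hu
  let v : Fin (2 * k + 2) := ⟨if u.val + 1 < 2 * k then u.val + 1 else 0, by split_ifs <;> omega⟩
  let w : Fin (2 * k + 2) := ⟨if u.val = 0 then 2 * k - 1 else u.val - 1, by split_ifs <;> omega⟩
  have vv : v.val = if u.val + 1 < 2 * k then u.val + 1 else 0 := rfl
  have wv : w.val = if u.val = 0 then 2 * k - 1 else u.val - 1 := rfl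
  have hv : v.val < 2 * k := by rw [vv]; split_ifs <;> omega
  have hw : w.val < 2 * k := by rw [wv]; split_ifs <;> omega
  have uv : u.val ≠ v.val := by rw [vv]; split_ifs <;> omega
  have uw : u.val ≠ w.val := by rw [wv]; split_ifs <;> omega
  have vw : v.val ≠ w.val := by rw [vv, wv]; split_ifs <;> omega
  have a1 : (W k).Adj v u := by
    rw [W, fromRel_adj]
    refine ⟨fun e => uv (by rw [e]), Or.inr (Or.inl ⟨hu', hv, ?_⟩)⟩
    rw [vv]
    split_ifs with h
    · exact (Nat.mod_eq_of_lt h).symm
    · have : u.val + 1 = 2 * k := by omega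
      rw [this, Nat.mod_self]
  have a2 : (W k).Adj w u := by
    rw [W, fromRel_adj]
    refine ⟨fun e => uw (by rw [e]), Or.inl (Or.inl ⟨hw, hu', ?_⟩)⟩
    rw [wv]
    split_ifs with h
    · have : 2 * k - 1 + 1 = 2 * k := by omega
      rw [this, Nat.mod_self, h]
    · have : u.val - 1 + 1 = u.val := by omega
      rw [this, Nat.mod_eq_of_lt hu']
  have m1 := hmax v hv
  have m2 := hmax w hw
  have d1 : c v ≠ c u := fun e => uv (by rw [hc.1 e])
  have d2 : c w ≠ c u := fun e => uw (by rw [hc.1 e])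
  have d3 : c v ≠ c w := fun e => vw (by rw [hc.1 e])
  rcases lt_or_gt_of_ne d3 with h | h
  · exact hc.2 v u w a1 (h2 v hv) h (by omega)
  · exact hc.2 w u v a2 (h2 w hw) h (by omega)

/-- alternating double fan on `N` vertices -/
def F (N : ℕ) : SimpleGraph (Fin N) where
  Adj u v := (2 ≤ u.val ∧ v.val = u.val + 1) ∨ (2 ≤ v.val ∧ u.val = v.val + 1) ∨
    (u.val < 2 ∧ 3 ≤ v.val ∧ v.val + 2 ≤ N ∧ v.val % 2 = u.val) ∨
    (v.val < 2 ∧ 3 ≤ u.val ∧ u.val + 2 ≤ N ∧ u.val % 2 = v.val)
  symm := ⟨fun u v h => by omega⟩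
  loopless := ⟨fun u h => by omega⟩

theorem F_adj (N : ℕ) (u v : Fin N) : (F N).Adj u v ↔
    (2 ≤ u.val ∧ v.val = u.val + 1) ∨ (2 ≤ v.val ∧ u.val = v.val + 1) ∨
    (u.val < 2 ∧ 3 ≤ v.val ∧ v.val + 2 ≤ N ∧ v.val % 2 = u.val) ∨
    (v.val < 2 ∧ 3 ≤ u.val ∧ u.val + 2 ≤ N ∧ u.val % 2 = v.val) := Iff.rfl

theorem F_good (N : ℕ) : Good (F N) (fun u => u.val) := by
  refine ⟨Fin.val_injective, ?_⟩
  intro u v w h a1 a2 a3
  rw [F_adj] at h
  simp only at a1 a2 a3
  omega

theorem fan (N M : ℕ) (hN : 16 ≤ N) (B : Fin N → Set (Fin M))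
    (h1 : ∀ i, ((F M).induce (B i)).Connected)
    (h2 : ∀ i j, i ≠ j → Disjoint (B i) (B j))
    (h3 : ∀ i j, i ≠ j → ((F N).Adj i j ↔ ∃ u ∈ B i, ∃ v ∈ B j, (F M).Adj u v)) : M ≤ N := by
  obtain ⟨r, hr, hg⟩ := closure (F M) (F N) _ (F_good M) B h1 h2 h3
  have hNM : N ≤ M := by
    have hinj : Function.Injective r := fun i j e => hg.1 (by simp only [e])
    simpa using Fintype.card_le_of_injective r hinj
  have uniq : ∀ i j u, u ∈ B i → u ∈ B j → i = j := by
    intro i j u hi hj
    by_contra hne
    exact Set.disjoint_left.mp (h2 i j hne) hi hj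
  have hub : ∀ x : Fin N, x.val < 2 → (r x).val < 2 := by
    intro x hx
    refine deg hg x (fun i => ⟨2 * i.val + 4 + x.val, by have := i.isLt; omega⟩) ?_ ?_
    · intro i j e
      have := congrArg Fin.val e
      simp only at this
      apply Fin.ext; omega
    · intro i
      have := i.isLt
      rw [F_adj]
      simp only
      omega
  let x0 : Fin N := ⟨0, by omega⟩
  let x1 : Fin N := ⟨1, by omega⟩
  have r0 := hub x0 (by show 0 < 2; omega)
  have r1 := hub x1 (by show 1 < 2; omega)
  have r01 : (r x0).val ≠ (r x1).val := fun e => by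
    have := congrArg Fin.val (hg.1 e)
    simp [x0, x1] at this
  have hubs : ∀ u : Fin M, u.val < 2 → u = r x0 ∨ u = r x1 := by
    intro u hu
    rcases (show u.val = (r x0).val ∨ u.val = (r x1).val by omega) with h | h
    · exact Or.inl (Fin.ext h)
    · exact Or.inr (Fin.ext h)
  have big : ∀ x : Fin N, 2 ≤ x.val → ∀ u ∈ B x, 2 ≤ u.val := by
    intro x hx u hu
    by_contra hlt
    rcases hubs u (by omega) with rfl | rfl
    · have := congrArg Fin.val (uniq _ _ _ hu (hr x0))
      simp only [x0] at this; omega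
    · have := congrArg Fin.val (uniq _ _ _ hu (hr x1))
      simp only [x1] at this; omega
  -- a middle vertex of the big fan is adjacent to the hub of its parity
  have mid : ∀ x : Fin N, 2 ≤ x.val → ∀ u ∈ B x, 3 ≤ u.val → u.val + 2 ≤ M →
      ∃ y : Fin N, y.val < 2 ∧ (r y).val = u.val % 2 ∧ (F N).Adj x y := by
    intro x hx u hu a1 a2
    let z : Fin M := ⟨u.val % 2, by omega⟩
    have zv : z.val = u.val % 2 := rfl
    have hz : (F M).Adj u z := by
      rw [F_adj]; omega
    rcases hubs z (by omega) with e | e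
    · refine ⟨x0, by show 0 < 2; omega, by rw [← e], ?_⟩
      refine (h3 x x0 (fun e' => ?_)).mpr ⟨u, hu, z, e ▸ hr x0, hz⟩
      have := congrArg Fin.val e'
      simp only [x0] at this; omega
    · refine ⟨x1, by show 1 < 2; omega, by rw [← e], ?_⟩
      refine (h3 x x1 (fun e' => ?_)).mpr ⟨u, hu, z, e ▸ hr x1, hz⟩
      have := congrArg Fin.val e'
      simp only [x1] at this; omega
  have ends : ∀ x : Fin N, (x.val = 2 ∨ x.val + 1 = N) → ∀ u ∈ B x,
      u.val = 2 ∨ u.val + 1 = M := by
    intro x hx u hu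
    by_contra hc
    have := big x (by omega) u hu
    have := u.isLt
    obtain ⟨y, hy, -, hadj⟩ := mid x (by omega) u hu (by omega) (by omega)
    rw [F_adj] at hadj
    omega
  let p : Fin N := ⟨2, by omega⟩
  let q : Fin N := ⟨N - 1, by omega⟩
  have pv : p.val = 2 := rfl
  have qv : q.val = N - 1 := rfl
  have ep := ends p (Or.inl rfl) _ (hr p)
  have eq := ends q (Or.inr (by omega)) _ (hr q)
  have epq : (r p).val ≠ (r q).val := fun e => by
    have := congrArg Fin.val (hg.1 e)
    omega
  have single : ∀ x : Fin N, 2 ≤ x.val → ∀ u ∈ B x, u = r x := by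
    intro x hx
    refine fun u hu => spread (F M) (B x) (h1 x) (fun z => z = r x) ?_ (r x) (hr x) u hu rfl
    intro u hu v hv huv _
    exfalso
    have bu := big x hx u hu
    have bv := big x hx v hv
    have lu := u.isLt
    have lv := v.isLt
    have key : ∀ z ∈ B x, (z.val = 2 ∨ z.val + 1 = M) → (x.val = 2 ∨ x.val + 1 = N) := by
      intro z hz h
      rcases (show z.val = (r p).val ∨ z.val = (r q).val by omega) with e | e
      · have := congrArg Fin.val (uniq _ _ _ hz (Fin.ext e ▸ hr p))
        omega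
      · have := congrArg Fin.val (uniq _ _ _ hz (Fin.ext e ▸ hr q))
        omega
    rw [F_adj] at huv
    by_cases hx' : x.val = 2 ∨ x.val + 1 = N
    · have e1 := ends x hx' u hu
      have e2 := ends x hx' v hv
      omega
    · have k1 : ¬ (u.val = 2 ∨ u.val + 1 = M) := fun h => hx' (key u hu h)
      have k2 : ¬ (v.val = 2 ∨ v.val + 1 = M) := fun h => hx' (key v hv h)
      obtain ⟨y, hy, ry, ay⟩ := mid x hx u hu (by omega) (by omega)
      obtain ⟨y', hy', ry', ay'⟩ := mid x hx v hv (by omega) (by omega)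
      rw [F_adj] at ay ay'
      have : y = y' := Fin.ext (by omega)
      subst this
      omega
  have consec : ∀ x y : Fin N, 2 ≤ x.val → y.val = x.val + 1 →
      (r y).val = (r x).val + 1 ∨ (r x).val = (r y).val + 1 := by
    intro x y hx hy
    have hadj : (F N).Adj x y := Or.inl ⟨hx, hy⟩
    obtain ⟨u, hu, v, hv, huv⟩ := (h3 x y hadj.ne).mp hadj
    have bu := big x hx u hu
    have bv := big y (by omega) v hv
    rw [← single x hx u hu, ← single y (by omega) v hv]
    rw [F_adj] at huv
    omega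
  have lip : ∀ t : ℕ, ∀ x : Fin N, x.val = 2 + t →
      (r x).val ≤ (r p).val + t ∧ (r p).val ≤ (r x).val + t := by
    intro t
    induction t with
    | zero =>
      intro x hx
      have : x = p := Fin.ext hx
      rw [this]; omega
    | succ t ih =>
      intro x hx
      have lx := x.isLt
      have := ih ⟨2 + t, by omega⟩ rfl
      have := consec ⟨2 + t, by omega⟩ x (by show 2 ≤ 2 + t; omega) (by show x.val = 2 + t + 1; omega)
      omega
  have := lip (N - 3) q (by omega)
  omega

end Pool.Agent.H12.DW
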