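import Mathlib

set_option autoImplicit false

namespace Pool.Agent.H12.Des5

def force (n : ℕ) (k : ℕ → Bool) : Bool := Nat.casesOn n (k 0) (fun m => k (Nat.succ m))

theorem force_eq (n : ℕ) (k : ℕ → Bool) : force n k = k n := by cases n <;> rfl

def allB (r : ℕ) (P : ℕ → ℕ → Bool) : Bool :=
  (List.range (r + 1)).all fun x => force (Nat.sub r x) (P x)

theorem allB_sound {r : ℕ} {P : ℕ → ℕ → Bool} (h : allB r P = true) (x : ℕ) (hx : x ≤ r) :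
    P x (r - x) = true := by
  simp only [allB, List.all_eq_true, List.mem_range, force_eq] at h
  exact h x (by omega)

def fin (p1 p2 p3 p4 : ℤ) : Prop :=
  0 < p1 ^ 4 - 6 * p1 ^ 2 * p2 + 3 * p2 ^ 2 + 8 * p1 * p3 - 6 * p4 ∧
  p1 ^ 4 - 6 * p1 ^ 2 * p2 + 3 * p2 ^ 2 + 8 * p1 * p3 - 6 * p4 ≤ 2880 ∧
  77 * (p1 ^ 4 - 6 * p1 ^ 2 * p2 + 3 * p2 ^ 2 + 8 * p1 * p3 - 6 * p4) ≤
    240 * (p1 ^ 3 - 3 * p1 * p2 + 2 * p3) ∧
  (p1 ≤ 8 ∨ p1 ^ 2 - p2 - 12 * p1 + 48 ≤ 0 ∨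
    p1 ^ 3 - 3 * p1 * p2 + 2 * p3 - 12 * (p1 ^ 2 - p2) + 72 * p1 - 192 ≤ 0 ∨
    p1 ^ 4 - 6 * p1 ^ 2 * p2 + 3 * p2 ^ 2 + 8 * p1 * p3 - 6 * p4 -
      8 * (p1 ^ 3 - 3 * p1 * p2 + 2 * p3) + 48 * (p1 ^ 2 - p2) - 192 * p1 + 384 ≤ 0)

def finB (p1 p2 a3 b3 a4 b4 : ℕ) : Bool :=
  force (p1 * p1) fun s =>
  force (s * s + 3 * (p2 * p2) + 8 * (p1 * a3) + 6 * b4) fun u4 =>
  force (6 * (s * p2) + 8 * (p1 * b3) + 6 * a4) fun w4 =>
  force (s * p1 + 2 * a3) fun u3 =>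
  force (3 * (p1 * p2) + 2 * b3) fun w3 =>
  Nat.blt w4 u4 && Nat.ble u4 (w4 + 2880) && Nat.ble (77 * u4 + 240 * w3) (77 * w4 + 240 * u3) &&
    (Nat.ble p1 8 || Nat.ble (s + 48) (p2 + 12 * p1) ||
      Nat.ble (u3 + 12 * p2 + 72 * p1) (w3 + 12 * s + 192) ||
      Nat.ble (u4 + 8 * w3 + 48 * s + 384) (w4 + 8 * u3 + 48 * p2 + 192 * p1))

theorem finB_sound {p1 p2 a3 b3 a4 b4 : ℕ} (h : finB p1 p2 a3 b3 a4 b4 = true) :
    fin p1 p2 (a3 - b3) (a4 - b4) := by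
  simp only [finB, force_eq, Bool.and_eq_true, Bool.or_eq_true, Nat.blt_eq, Nat.ble_eq] at h
  obtain ⟨⟨⟨h1, h2⟩, h3⟩, h4⟩ := h
  zify at h1 h2 h3 h4
  refine ⟨by linarith, by linarith, by linarith, ?_⟩
  rcases h4 with ((h | h) | h) | h
  · exact Or.inl h
  · exact Or.inr (Or.inl (by linarith))
  · exact Or.inr (Or.inr (Or.inl (by linarith)))
  · exact Or.inr (Or.inr (Or.inr (by linarith)))

def cut (x01 x02 x03 x04 x12 x13 x14 x23 x24 x34 : ℕ) : Bool :=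
  Nat.beq (Nat.add (Nat.add (Nat.add x01 x12) x13) x14) 0 ||
    Nat.beq (Nat.add (Nat.add (Nat.add x02 x12) x23) x24) 0 ||
    Nat.beq (Nat.add (Nat.add (Nat.add (Nat.add (Nat.add x01 x02) x13) x23) x14) x24) 0 ||
    Nat.beq (Nat.add (Nat.add (Nat.add x03 x13) x23) x34) 0 ||
    Nat.beq (Nat.add (Nat.add (Nat.add (Nat.add (Nat.add x01 x03) x12) x23) x14) x34) 0 ||
    Nat.beq (Nat.add (Nat.add (Nat.add (Nat.add (Nat.add x02 x03) x12) x13) x24) x34) 0 ||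
    Nat.beq (Nat.add (Nat.add (Nat.add (Nat.add (Nat.add x01 x02) x03) x14) x24) x34) 0 ||
    Nat.beq (Nat.add (Nat.add (Nat.add x04 x14) x24) x34) 0 ||
    Nat.beq (Nat.add (Nat.add (Nat.add (Nat.add (Nat.add x01 x04) x12) x24) x13) x34) 0 ||
    Nat.beq (Nat.add (Nat.add (Nat.add (Nat.add (Nat.add x02 x04) x12) x14) x23) x34) 0 ||
    Nat.beq (Nat.add (Nat.add (Nat.add (Nat.add (Nat.add x01 x02) x04) x13) x23) x34) 0 ||
    Nat.beq (Nat.add (Nat.add (Nat.add (Nat.add (Nat.add x03 x04) x13) x14) x23) x24) 0 ||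
    Nat.beq (Nat.add (Nat.add (Nat.add (Nat.add (Nat.add x01 x03) x04) x12) x23) x24) 0 ||
    Nat.beq (Nat.add (Nat.add (Nat.add (Nat.add (Nat.add x02 x03) x04) x12) x13) x14) 0 ||
    Nat.beq (Nat.add (Nat.add (Nat.add x01 x02) x03) x04) 0

def good (x01 x02 x03 x04 x12 x13 x14 x23 x24 x34 : ℕ) : Bool :=
  cut x01 x02 x03 x04 x12 x13 x14 x23 x24 x34 ||
  force (Nat.add (Nat.add (Nat.add x01 x02) x03) x04) fun d0 =>
  force (Nat.add (Nat.add (Nat.add x01 x12) x13) x14) fun d1 =>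
  force (Nat.add (Nat.add (Nat.add x02 x12) x23) x24) fun d2 =>
  force (Nat.add (Nat.add (Nat.add x03 x13) x23) x34) fun d3 =>
  force (Nat.add (Nat.add (Nat.add x04 x14) x24) x34) fun d4 =>
  force (Nat.add (Nat.add (Nat.add (Nat.add (Nat.mul d0 d0) (Nat.mul x01 x01)) (Nat.mul x02 x02)) (Nat.mul x03 x03)) (Nat.mul x04 x04)) fun q0 =>
  force (Nat.add (Nat.add (Nat.add (Nat.add (Nat.mul d1 d1) (Nat.mul x01 x01)) (Nat.mul x12 x12)) (Nat.mul x13 x13)) (Nat.mul x14 x14)) fun q1 =>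
  force (Nat.add (Nat.add (Nat.add (Nat.add (Nat.mul d2 d2) (Nat.mul x02 x02)) (Nat.mul x12 x12)) (Nat.mul x23 x23)) (Nat.mul x24 x24)) fun q2 =>
  force (Nat.add (Nat.add (Nat.add (Nat.add (Nat.mul d3 d3) (Nat.mul x03 x03)) (Nat.mul x13 x13)) (Nat.mul x23 x23)) (Nat.mul x34 x34)) fun q3 =>
  force (Nat.add (Nat.add (Nat.add (Nat.add (Nat.mul d4 d4) (Nat.mul x04 x04)) (Nat.mul x14 x14)) (Nat.mul x24 x24)) (Nat.mul x34 x34)) fun q4 =>
  force (Nat.add (Nat.add (Nat.mul x02 x12) (Nat.mul x03 x13)) (Nat.mul x04 x14)) fun a01 =>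
  force (Nat.mul x01 (Nat.add d0 d1)) fun b01 =>
  force (Nat.add (Nat.add (Nat.mul x01 x12) (Nat.mul x03 x23)) (Nat.mul x04 x24)) fun a02 =>
  force (Nat.mul x02 (Nat.add d0 d2)) fun b02 =>
  force (Nat.add (Nat.add (Nat.mul x01 x13) (Nat.mul x02 x23)) (Nat.mul x04 x34)) fun a03 =>
  force (Nat.mul x03 (Nat.add d0 d3)) fun b03 =>
  force (Nat.add (Nat.add (Nat.mul x01 x14) (Nat.mul x02 x24)) (Nat.mul x03 x34)) fun a04 =>
  force (Nat.mul x04 (Nat.add d0 d4)) fun b04 =>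
  force (Nat.add (Nat.add (Nat.mul x01 x02) (Nat.mul x13 x23)) (Nat.mul x14 x24)) fun a12 =>
  force (Nat.mul x12 (Nat.add d1 d2)) fun b12 =>
  force (Nat.add (Nat.add (Nat.mul x01 x03) (Nat.mul x12 x23)) (Nat.mul x14 x34)) fun a13 =>
  force (Nat.mul x13 (Nat.add d1 d3)) fun b13 =>
  force (Nat.add (Nat.add (Nat.mul x01 x04) (Nat.mul x12 x24)) (Nat.mul x13 x34)) fun a14 =>
  force (Nat.mul x14 (Nat.add d1 d4)) fun b14 =>
  force (Nat.add (Nat.add (Nat.mul x02 x03) (Nat.mul x12 x13)) (Nat.mul x24 x34)) fun a23 =>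
  force (Nat.mul x23 (Nat.add d2 d3)) fun b23 =>
  force (Nat.add (Nat.add (Nat.mul x02 x04) (Nat.mul x12 x14)) (Nat.mul x23 x34)) fun a24 =>
  force (Nat.mul x24 (Nat.add d2 d4)) fun b24 =>
  force (Nat.add (Nat.add (Nat.mul x03 x04) (Nat.mul x13 x14)) (Nat.mul x23 x24)) fun a34 =>
  force (Nat.mul x34 (Nat.add d3 d4)) fun b34 =>
  force (Nat.add (Nat.add (Nat.add (Nat.add d0 d1) d2) d3) d4) fun p1 =>
  force (Nat.add (Nat.add (Nat.add (Nat.add q0 q1) q2) q3) q4) fun p2 =>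
  force (Nat.add (Nat.add (Nat.add (Nat.add (Nat.add (Nat.mul d0 q0) (Nat.mul d1 q1)) (Nat.mul d2 q2)) (Nat.mul d3 q3)) (Nat.mul d4 q4)) (Nat.mul 2 (Nat.add (Nat.add (Nat.add (Nat.add (Nat.add (Nat.add (Nat.add (Nat.add (Nat.add (Nat.mul x01 b01) (Nat.mul x02 b02)) (Nat.mul x03 b03)) (Nat.mul x04 b04)) (Nat.mul x12 b12)) (Nat.mul x13 b13)) (Nat.mul x14 b14)) (Nat.mul x23 b23)) (Nat.mul x24 b24)) (Nat.mul x34 b34)))) fun p3a =>
  force (Nat.mul 2 (Nat.add (Nat.add (Nat.add (Nat.add (Nat.add (Nat.add (Nat.add (Nat.add (Nat.add (Nat.mul x01 a01) (Nat.mul x02 a02)) (Nat.mul x03 a03)) (Nat.mul x04 a04)) (Nat.mul x12 a12)) (Nat.mul x13 a13)) (Nat.mul x14 a14)) (Nat.mul x23 a23)) (Nat.mul x24 a24)) (Nat.mul x34 a34))) fun p3b =>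
  force (Nat.add (Nat.add (Nat.add (Nat.add (Nat.add (Nat.mul q0 q0) (Nat.mul q1 q1)) (Nat.mul q2 q2)) (Nat.mul q3 q3)) (Nat.mul q4 q4)) (Nat.mul 2 (Nat.add (Nat.add (Nat.add (Nat.add (Nat.add (Nat.add (Nat.add (Nat.add (Nat.add (Nat.add (Nat.mul a01 a01) (Nat.mul b01 b01)) (Nat.add (Nat.mul a02 a02) (Nat.mul b02 b02))) (Nat.add (Nat.mul a03 a03) (Nat.mul b03 b03))) (Nat.add (Nat.mul a04 a04) (Nat.mul b04 b04))) (Nat.add (Nat.mul a12 a12) (Nat.mul b12 b12))) (Nat.add (Nat.mul a13 a13) (Nat.mul b13 b13))) (Nat.add (Nat.mul a14 a14) (Nat.mul b14 b14))) (Nat.add (Nat.mul a23 a23) (Nat.mul b23 b23))) (Nat.add (Nat.mul a24 a24) (Nat.mul b24 b24))) (Nat.add (Nat.mul a34 a34) (Nat.mul b34 b34))))) fun p4a =>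
  force (Nat.mul 4 (Nat.add (Nat.add (Nat.add (Nat.add (Nat.add (Nat.add (Nat.add (Nat.add (Nat.add (Nat.mul a01 b01) (Nat.mul a02 b02)) (Nat.mul a03 b03)) (Nat.mul a04 b04)) (Nat.mul a12 b12)) (Nat.mul a13 b13)) (Nat.mul a14 b14)) (Nat.mul a23 b23)) (Nat.mul a24 b24)) (Nat.mul a34 b34))) fun p4b =>
  finB p1 p2 p3a p3b p4a p4b

def chunk (x01 x02 r0 : ℕ) : Bool :=
  allB r0 fun x03 r1 =>
  allB r1 fun x04 r2 =>
  allB r2 fun x12 r3 =>
  allB r3 fun x13 r4 =>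
  allB r4 fun x14 r5 =>
  allB r5 fun x23 r6 =>
  allB r6 fun x24 r7 =>
  allB r7 fun x34 _ =>
  good x01 x02 x03 x04 x12 x13 x14 x23 x24 x34

theorem c00 : chunk 0 0 7 = true := by decide +kernel

theorem c01 : chunk 0 1 6 = true := by decide +kernel

theorem c10 : chunk 1 0 6 = true := by decide +kernel

theorem c2 : ∀ a < 3, chunk a (2 - a) 5 = true := by decide +kernel

theorem c3 : ∀ t < 5, ∀ a < t + 4, chunk a (t + 3 - a) (4 - t) = true := by decide +kernel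

theorem chunk_all (a b : ℕ) (h : a + b ≤ 7) : chunk a b (7 - a - b) = true := by
  rcases (by omega : a + b = 0 ∨ a + b = 1 ∨ a + b = 2 ∨ 3 ≤ a + b) with h1 | h1 | h1 | h1
  · obtain ⟨rfl, rfl⟩ : a = 0 ∧ b = 0 := by omega
    exact c00
  · rcases (by omega : (a = 0 ∧ b = 1) ∨ (a = 1 ∧ b = 0)) with ⟨rfl, rfl⟩ | ⟨rfl, rfl⟩
    exacts [c01, c10]
  · have := c2 a (by omega)
    rwa [show 2 - a = b by omega, show 5 = 7 - a - b by omega] at this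
  · have := c3 (a + b - 3) (by omega) a (by omega)
    rwa [show a + b - 3 + 3 - a = b by omega, show 4 - (a + b - 3) = 7 - a - b by omega] at this

theorem good_all (x01 x02 x03 x04 x12 x13 x14 x23 x24 x34 : ℕ) (h : x01 + x02 + x03 + x04 + x12 + x13 + x14 + x23 + x24 + x34 ≤ 7) :
    good x01 x02 x03 x04 x12 x13 x14 x23 x24 x34 = true := by
  have h0 := chunk_all x01 x02 (by omega)
  have h1 := allB_sound h0 x03 (by omega)
  have h2 := allB_sound h1 x04 (by omega)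
  have h3 := allB_sound h2 x12 (by omega)
  have h4 := allB_sound h3 x13 (by omega)
  have h5 := allB_sound h4 x14 (by omega)
  have h6 := allB_sound h5 x23 (by omega)
  have h7 := allB_sound h6 x24 (by omega)
  have h8 := allB_sound h7 x34 (by omega)
  exact h8

def L (x01 x02 x03 x04 x12 x13 x14 x23 x24 x34 : ℕ) : Matrix (Fin 5) (Fin 5) ℤ :=
  !![x01 + x02 + x03 + x04, -x01, -x02, -x03, -x04;
     -x01, x01 + x12 + x13 + x14, -x12, -x13, -x14;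
     -x02, -x12, x02 + x12 + x23 + x24, -x23, -x24;
     -x03, -x13, -x23, x03 + x13 + x23 + x34, -x34;
     -x04, -x14, -x24, -x34, x04 + x14 + x24 + x34]

theorem good_sound (x01 x02 x03 x04 x12 x13 x14 x23 x24 x34 : ℕ) (h : good x01 x02 x03 x04 x12 x13 x14 x23 x24 x34 = true) (hc : cut x01 x02 x03 x04 x12 x13 x14 x23 x24 x34 = false) :
    fin (L x01 x02 x03 x04 x12 x13 x14 x23 x24 x34).trace (L x01 x02 x03 x04 x12 x13 x14 x23 x24 x34 ^ 2).trace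
      (L x01 x02 x03 x04 x12 x13 x14 x23 x24 x34 ^ 3).trace (L x01 x02 x03 x04 x12 x13 x14 x23 x24 x34 ^ 4).trace := by
  simp only [good, hc, Bool.false_or, force_eq] at h
  have h1 := finB_sound h
  simp only [Nat.add_eq, Nat.mul_eq] at h1
  push_cast at h1
  convert h1 using 1
  · simp [L, Matrix.trace, Fin.sum_univ_five]
  · simp only [pow_succ, pow_zero, one_mul, L, Matrix.trace, Fin.sum_univ_five, Matrix.diag_apply,
      Matrix.mul_apply]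
    simp
    ring
  · simp only [pow_succ, pow_zero, one_mul, L, Matrix.trace, Fin.sum_univ_five, Matrix.diag_apply,
      Matrix.mul_apply]
    simp
    ring
  · rw [show (4 : ℕ) = 2 + 2 from rfl, pow_add]
    simp only [pow_succ, pow_zero, one_mul, L, Matrix.trace, Fin.sum_univ_five, Matrix.diag_apply,
      Matrix.mul_apply]
    simp
    ring

end Pool.Agent.H12.Des5
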