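import Mathlib

set_option autoImplicit false

namespace Pool.Agent.H12.Des

open Matrix

variable {v b : ℕ}

/-- N i B is the multiplicity of treatment i in block B; every block has size k. -/
def IsDesign (k : ℕ) (N : Matrix (Fin v) (Fin b) ℕ) : Prop := ∀ B, ∑ i, N i B = k

/-- Concurrence of treatments i and j. -/
def conc (N : Matrix (Fin v) (Fin b) ℕ) (i j : Fin v) : ℕ := ∑ B, N i B * N j B

/-- The concurrence graph is connected. -/
def Conn (N : Matrix (Fin v) (Fin b) ℕ) : Prop :=
  (SimpleGraph.fromRel fun i j => 0 < conc N i j).Connected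

/-- Information matrix R - N N^T / k. -/
noncomputable def info (k : ℕ) (N : Matrix (Fin v) (Fin b) ℕ) : Matrix (Fin v) (Fin v) ℝ :=
  diagonal (fun i => ((∑ B, N i B : ℕ) : ℝ)) -
    (k : ℝ)⁻¹ • (N.map (Nat.cast : ℕ → ℝ) * (N.map (Nat.cast : ℕ → ℝ))ᵀ)

/-- The non-trivial eigenvalues of the information matrix, with multiplicity. -/
noncomputable def theta (k : ℕ) (N : Matrix (Fin v) (Fin b) ℕ) : Multiset ℝ :=
  (info k N).charpoly.roots.erase 0

/-- A-optimal among all connected designs with the same v, b, k. -/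
def AOpt (k : ℕ) (N : Matrix (Fin v) (Fin b) ℕ) : Prop :=
  IsDesign k N ∧ Conn N ∧ ∀ N' : Matrix (Fin v) (Fin b) ℕ, IsDesign k N' → Conn N' →
    ((theta k N).map fun x => 1 / x).sum ≤ ((theta k N').map fun x => 1 / x).sum

/-- D-optimal among all connected designs with the same v, b, k. -/
def DOpt (k : ℕ) (N : Matrix (Fin v) (Fin b) ℕ) : Prop :=
  IsDesign k N ∧ Conn N ∧ ∀ N' : Matrix (Fin v) (Fin b) ℕ, IsDesign k N' → Conn N' →
    (theta k N').prod ≤ (theta k N).prod

/-- E-optimal among all connected designs with the same v, b, k. -/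
def EOpt (k : ℕ) (N : Matrix (Fin v) (Fin b) ℕ) : Prop :=
  IsDesign k N ∧ Conn N ∧ ∀ N' : Matrix (Fin v) (Fin b) ℕ, IsDesign k N' → Conn N' →
    sInf {x | x ∈ theta k N'} ≤ sInf {x | x ∈ theta k N}

/-- Pairwise variance computed from a generalised inverse G of the information matrix. -/
noncomputable def pairVar (G : Matrix (Fin v) (Fin v) ℝ) (i j : Fin v) : ℝ :=
  (Pi.single i 1 - Pi.single j 1 : Fin v → ℝ) ⬝ᵥ G *ᵥ (Pi.single i 1 - Pi.single j 1)

end Pool.Agent.H12.Des
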