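import Mathlib
import Pool.Agent.H12.Des5a
import Pool.Agent.H12.DesDefs

set_option autoImplicit false

namespace Pool.Agent.H12.Des5

open Matrix Pool.Agent.H12.Des

theorem trace_pow {V : Type} [Fintype V] [DecidableEq V] {A : Matrix V V ℝ} (hA : A.IsHermitian)
    (m : ℕ) : (A ^ m).trace = ∑ i, hA.eigenvalues i ^ m := by
  let U : Matrix V V ℝ := hA.eigenvectorUnitary
  have hV : star U * U = 1 := (hA.eigenvectorUnitary).2.1
  have hV' : U * star U = 1 := (hA.eigenvectorUnitary).2.2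
  have hS : A = U * diagonal hA.eigenvalues * star U := by
    have := hA.spectral_theorem
    simpa [Unitary.conjStarAlgAut_apply] using this
  have : A ^ m = U * diagonal hA.eigenvalues ^ m * star U := by
    induction m with
    | zero => simp [hV']
    | succ m ih =>
      rw [pow_succ, ih, pow_succ]
      conv_lhs => enter [2]; rw [hS]
      simp only [Matrix.mul_assoc]
      rw [← Matrix.mul_assoc (star U) U, hV, Matrix.one_mul]
  rw [this, trace_mul_cycle, hV, Matrix.one_mul, diagonal_pow, trace_diagonal]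
  simp

def LN (N : Matrix (Fin 5) (Fin 7) ℕ) : Matrix (Fin 5) (Fin 5) ℤ :=
  L (conc N 0 1) (conc N 0 2) (conc N 0 3) (conc N 0 4) (conc N 1 2) (conc N 1 3) (conc N 1 4)
    (conc N 2 3) (conc N 2 4) (conc N 3 4)

theorem conc_comm {v b : ℕ} (N : Matrix (Fin v) (Fin b) ℕ) (i j : Fin v) : conc N i j = conc N j i :=
  Finset.sum_congr rfl fun _ _ => mul_comm _ _

theorem info_eq {N : Matrix (Fin 5) (Fin 7) ℕ} (h : IsDesign 2 N) :
    info 2 N = (2 : ℝ)⁻¹ • (LN N).map (Int.cast : ℤ → ℝ) := by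
  have h1 : ∀ i j, (N.map (Nat.cast : ℕ → ℝ) * (N.map (Nat.cast : ℕ → ℝ))ᵀ) i j = conc N i j := by
    intro i j
    simp [Matrix.mul_apply, conc]
  have h2 : ∀ i, ((∑ B, N i B : ℕ) : ℝ) =
      (conc N i 0 + conc N i 1 + conc N i 2 + conc N i 3 + conc N i 4) / 2 := by
    intro i
    have : ∑ j, conc N i j = 2 * ∑ B, N i B := by
      simp only [conc]
      rw [Finset.sum_comm, Finset.mul_sum]
      exact Finset.sum_congr rfl fun B _ => by rw [← Finset.mul_sum, h B, mul_comm]
    rw [Fin.sum_univ_five] at this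
    have h3 := congrArg (Nat.cast : ℕ → ℝ) this
    push_cast at h3 ⊢
    linarith
  have c10 := conc_comm N 1 0
  have c20 := conc_comm N 2 0
  have c30 := conc_comm N 3 0
  have c40 := conc_comm N 4 0
  have c21 := conc_comm N 2 1
  have c31 := conc_comm N 3 1
  have c41 := conc_comm N 4 1
  have c32 := conc_comm N 3 2
  have c42 := conc_comm N 4 2
  have c43 := conc_comm N 4 3
  ext i j
  simp only [info, Matrix.sub_apply, Matrix.smul_apply, h1, diagonal_apply, h2]
  fin_cases i <;> fin_cases j <;>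
    simp [LN, L, c10, c20, c30, c40, c21, c31, c41, c32, c42, c43] <;> ring

theorem budget {N : Matrix (Fin 5) (Fin 7) ℕ} (h : IsDesign 2 N) :
    conc N 0 1 + conc N 0 2 + conc N 0 3 + conc N 0 4 + conc N 1 2 + conc N 1 3 + conc N 1 4 +
      conc N 2 3 + conc N 2 4 + conc N 3 4 ≤ 7 := by
  simp only [conc, ← Finset.sum_add_distrib]
  refine (Finset.sum_le_card_nsmul _ _ 1 fun B _ => ?_).trans (by simp)
  have h1 := h B
  rw [Fin.sum_univ_five] at h1
  have h2 := congrArg (fun x => x * x) h1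
  beta_reduce at h2
  nlinarith [Nat.le_mul_self (N 0 B), Nat.le_mul_self (N 1 B), Nat.le_mul_self (N 2 B),
    Nat.le_mul_self (N 3 B), Nat.le_mul_self (N 4 B)]

theorem conn_cut {v b : ℕ} {N : Matrix (Fin v) (Fin b) ℕ} (h : Conn N) (S : Fin v → Prop) {x y : Fin v}
    (hx : S x) (hy : ¬ S y) : ∃ i j, S i ∧ ¬ S j ∧ 0 < conc N i j := by
  obtain ⟨w⟩ := h.preconnected x y
  induction w with
  | nil => exact absurd hx hy
  | @cons a c _ hac w ih =>
    by_cases hc : S c
    · exact ih hc hy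
    · rw [SimpleGraph.fromRel_adj] at hac
      exact ⟨a, c, hx, hc, hac.2.elim id (fun h => conc_comm N c a ▸ h)⟩

theorem no_cut {N : Matrix (Fin 5) (Fin 7) ℕ} (h : Conn N) :
    cut (conc N 0 1) (conc N 0 2) (conc N 0 3) (conc N 0 4) (conc N 1 2) (conc N 1 3) (conc N 1 4)
      (conc N 2 3) (conc N 2 4) (conc N 3 4) = false := by
  have c10 := conc_comm N 1 0
  have c20 := conc_comm N 2 0
  have c30 := conc_comm N 3 0
  have c40 := conc_comm N 4 0
  have c21 := conc_comm N 2 1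
  have c31 := conc_comm N 3 1
  have c41 := conc_comm N 4 1
  have c32 := conc_comm N 3 2
  have c42 := conc_comm N 4 2
  have c43 := conc_comm N 4 3
  have key : ∀ S : Finset (Fin 5), 0 ∈ S → ∀ y, y ∉ S → 0 < ∑ i ∈ S, ∑ j ∈ Sᶜ, conc N i j := by
    intro S h0 y hy
    obtain ⟨i, j, h1, h2, h3⟩ := conn_cut h (· ∈ S) h0 hy
    refine h3.trans_le (le_trans ?_ (Finset.single_le_sum (f := fun i => ∑ j ∈ Sᶜ, conc N i j)
      (fun _ _ => Nat.zero_le _) h1))
    exact Finset.single_le_sum (f := fun j => conc N i j) (fun _ _ => Nat.zero_le _)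
      (Finset.mem_compl.2 h2)
  rw [← Bool.not_eq_true]
  simp only [cut, Bool.or_eq_true, Nat.add_eq, Nat.beq_eq]
  have k1 := key {0, 2, 3, 4} (by decide) 1 (by decide)
  rw [show ({0, 2, 3, 4} : Finset (Fin 5))ᶜ = {1} by decide] at k1
  simp only [Finset.sum_singleton, Finset.mem_insert, Finset.mem_singleton, Fin.reduceEq, or_self,
    not_false_eq_true, Finset.sum_insert] at k1
  have k2 := key {0, 1, 3, 4} (by decide) 2 (by decide)
  rw [show ({0, 1, 3, 4} : Finset (Fin 5))ᶜ = {2} by decide] at k2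
  simp only [Finset.sum_singleton, Finset.mem_insert, Finset.mem_singleton, Fin.reduceEq, or_self,
    not_false_eq_true, Finset.sum_insert] at k2
  have k3 := key {0, 3, 4} (by decide) 1 (by decide)
  rw [show ({0, 3, 4} : Finset (Fin 5))ᶜ = {1, 2} by decide] at k3
  simp only [Finset.sum_singleton, Finset.mem_insert, Finset.mem_singleton, Fin.reduceEq, or_self,
    not_false_eq_true, Finset.sum_insert] at k3
  have k4 := key {0, 1, 2, 4} (by decide) 3 (by decide)
  rw [show ({0, 1, 2, 4} : Finset (Fin 5))ᶜ = {3} by decide] at k4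
  simp only [Finset.sum_singleton, Finset.mem_insert, Finset.mem_singleton, Fin.reduceEq, or_self,
    not_false_eq_true, Finset.sum_insert] at k4
  have k5 := key {0, 2, 4} (by decide) 1 (by decide)
  rw [show ({0, 2, 4} : Finset (Fin 5))ᶜ = {1, 3} by decide] at k5
  simp only [Finset.sum_singleton, Finset.mem_insert, Finset.mem_singleton, Fin.reduceEq, or_self,
    not_false_eq_true, Finset.sum_insert] at k5
  have k6 := key {0, 1, 4} (by decide) 2 (by decide)
  rw [show ({0, 1, 4} : Finset (Fin 5))ᶜ = {2, 3} by decide] at k6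
  simp only [Finset.sum_singleton, Finset.mem_insert, Finset.mem_singleton, Fin.reduceEq, or_self,
    not_false_eq_true, Finset.sum_insert] at k6
  have k7 := key {0, 4} (by decide) 1 (by decide)
  rw [show ({0, 4} : Finset (Fin 5))ᶜ = {1, 2, 3} by decide] at k7
  simp only [Finset.sum_singleton, Finset.mem_insert, Finset.mem_singleton, Fin.reduceEq, or_self,
    not_false_eq_true, Finset.sum_insert] at k7
  have k8 := key {0, 1, 2, 3} (by decide) 4 (by decide)
  rw [show ({0, 1, 2, 3} : Finset (Fin 5))ᶜ = {4} by decide] at k8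
  simp only [Finset.sum_singleton, Finset.mem_insert, Finset.mem_singleton, Fin.reduceEq, or_self,
    not_false_eq_true, Finset.sum_insert] at k8
  have k9 := key {0, 2, 3} (by decide) 1 (by decide)
  rw [show ({0, 2, 3} : Finset (Fin 5))ᶜ = {1, 4} by decide] at k9
  simp only [Finset.sum_singleton, Finset.mem_insert, Finset.mem_singleton, Fin.reduceEq, or_self,
    not_false_eq_true, Finset.sum_insert] at k9
  have k10 := key {0, 1, 3} (by decide) 2 (by decide)
  rw [show ({0, 1, 3} : Finset (Fin 5))ᶜ = {2, 4} by decide] at k10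
  simp only [Finset.sum_singleton, Finset.mem_insert, Finset.mem_singleton, Fin.reduceEq, or_self,
    not_false_eq_true, Finset.sum_insert] at k10
  have k11 := key {0, 3} (by decide) 1 (by decide)
  rw [show ({0, 3} : Finset (Fin 5))ᶜ = {1, 2, 4} by decide] at k11
  simp only [Finset.sum_singleton, Finset.mem_insert, Finset.mem_singleton, Fin.reduceEq, or_self,
    not_false_eq_true, Finset.sum_insert] at k11
  have k12 := key {0, 1, 2} (by decide) 3 (by decide)
  rw [show ({0, 1, 2} : Finset (Fin 5))ᶜ = {3, 4} by decide] at k12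
  simp only [Finset.sum_singleton, Finset.mem_insert, Finset.mem_singleton, Fin.reduceEq, or_self,
    not_false_eq_true, Finset.sum_insert] at k12
  have k13 := key {0, 2} (by decide) 1 (by decide)
  rw [show ({0, 2} : Finset (Fin 5))ᶜ = {1, 3, 4} by decide] at k13
  simp only [Finset.sum_singleton, Finset.mem_insert, Finset.mem_singleton, Fin.reduceEq, or_self,
    not_false_eq_true, Finset.sum_insert] at k13
  have k14 := key {0, 1} (by decide) 2 (by decide)
  rw [show ({0, 1} : Finset (Fin 5))ᶜ = {2, 3, 4} by decide] at k14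
  simp only [Finset.sum_singleton, Finset.mem_insert, Finset.mem_singleton, Fin.reduceEq, or_self,
    not_false_eq_true, Finset.sum_insert] at k14
  have k15 := key {0} (by decide) 1 (by decide)
  rw [show ({0} : Finset (Fin 5))ᶜ = {1, 2, 3, 4} by decide] at k15
  simp only [Finset.sum_singleton, Finset.mem_insert, Finset.mem_singleton, Fin.reduceEq, or_self,
    not_false_eq_true, Finset.sum_insert] at k15
  omega

theorem four {N : Matrix (Fin 5) (Fin 7) ℕ} (h : IsDesign 2 N) : ∃ a b c d : ℝ,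
    theta 2 N = {a, b, c, d} ∧ ∀ m, 1 ≤ m →
      ((LN N ^ m).trace : ℝ) = (2 * a) ^ m + (2 * b) ^ m + (2 * c) ^ m + (2 * d) ^ m := by
  have hH : (info 2 N).IsHermitian := by
    rw [info_eq h]
    ext i j
    fin_cases i <;> fin_cases j <;> simp [LN, L]
  have h0 : (info 2 N).det = 0 := by
    rw [← Matrix.exists_mulVec_eq_zero_iff]
    refine ⟨fun _ => 1, fun h => one_ne_zero (congrFun h 0), ?_⟩
    rw [info_eq h]
    ext i
    fin_cases i <;> simp [LN, L, mulVec, dotProduct, Fin.sum_univ_five] <;> ring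
  have hr := hH.roots_charpoly_eq_eigenvalues
  have hm : (0 : ℝ) ∈ (info 2 N).charpoly.roots := by
    rw [hH.det_eq_prod_eigenvalues, Finset.prod_eq_zero_iff] at h0
    obtain ⟨i, -, hi⟩ := h0
    rw [hr]
    exact Multiset.mem_map.2 ⟨i, Finset.mem_univ i, hi⟩
  have h1 : (info 2 N).charpoly.roots = 0 ::ₘ theta 2 N := (Multiset.cons_erase hm).symm
  have h2 : (theta 2 N).card = 4 := by
    have := congrArg Multiset.card h1
    rw [hr] at this
    simp at this
    omega
  obtain ⟨a, b, c, d, h3⟩ := Multiset.card_eq_four.1 h2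
  refine ⟨a, b, c, d, h3, fun m hm => ?_⟩
  have h5 := congrArg (fun s : Multiset ℝ => (s.map (· ^ m)).sum) h1
  simp only [hr, h3] at h5
  simp only [Multiset.map_map, Multiset.map_cons, Multiset.sum_cons, Multiset.insert_eq_cons,
    Multiset.map_singleton, Multiset.sum_singleton, zero_pow (by omega : m ≠ 0), zero_add] at h5
  have h6 : ((info 2 N) ^ m).trace = a ^ m + (b ^ m + (c ^ m + d ^ m)) := by
    rw [trace_pow hH, ← h5]
    rfl
  have h8 : ((LN N).map (Int.cast : ℤ → ℝ) ^ m).trace = ((LN N ^ m).trace : ℤ) := by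
    have := map_pow (Int.castRingHom ℝ).mapMatrix (LN N) m
    simp only [RingHom.mapMatrix_apply, Int.coe_castRingHom] at this
    rw [← this]
    simp [Matrix.trace]
  rw [info_eq h, smul_pow, trace_smul, h8, smul_eq_mul] at h6
  simp only [mul_pow]
  have h7 : (2 : ℝ) ^ m * (2 : ℝ)⁻¹ ^ m = 1 := by rw [← mul_pow]; simp
  linear_combination (2 : ℝ) ^ m * h6 - ((LN N ^ m).trace : ℝ) * h7

theorem sym {a b c d p1 p2 p3 p4 : ℝ} (h1 : p1 = (2 * a) ^ 1 + (2 * b) ^ 1 + (2 * c) ^ 1 + (2 * d) ^ 1)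
    (h2 : p2 = (2 * a) ^ 2 + (2 * b) ^ 2 + (2 * c) ^ 2 + (2 * d) ^ 2)
    (h3 : p3 = (2 * a) ^ 3 + (2 * b) ^ 3 + (2 * c) ^ 3 + (2 * d) ^ 3)
    (h4 : p4 = (2 * a) ^ 4 + (2 * b) ^ 4 + (2 * c) ^ 4 + (2 * d) ^ 4) :
    p1 = 2 * (a + b + c + d) ∧ p1 ^ 2 - p2 = 8 * (a * b + a * c + a * d + b * c + b * d + c * d) ∧
    p1 ^ 3 - 3 * p1 * p2 + 2 * p3 = 48 * (a * b * c + a * b * d + a * c * d + b * c * d) ∧
    p1 ^ 4 - 6 * p1 ^ 2 * p2 + 3 * p2 ^ 2 + 8 * p1 * p3 - 6 * p4 = 384 * (a * b * c * d) := by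
  subst h1 h2 h3 h4
  refine ⟨by ring, by ring, by ring, by ring⟩

theorem inv_sum {a b c d : ℝ} (h : a * b * c * d ≠ 0) :
    (({a, b, c, d} : Multiset ℝ).map fun x => 1 / x).sum =
      (a * b * c + a * b * d + a * c * d + b * c * d) / (a * b * c * d) := by
  simp only [ne_eq, mul_eq_zero, not_or] at h
  obtain ⟨⟨⟨ha, hb⟩, hc⟩, hd⟩ := h
  simp
  field_simp
  ring

theorem bounds {N : Matrix (Fin 5) (Fin 7) ℕ} (h : IsDesign 2 N) (hc : Conn N) :
    77 / 30 ≤ ((theta 2 N).map fun x => 1 / x).sum ∧ (theta 2 N).prod ≤ 15 / 2 ∧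
      sInf {x | x ∈ theta 2 N} ≤ 1 := by
  obtain ⟨a, b, c, d, h1, h2⟩ := four h
  obtain ⟨s1, s2, s3, s4⟩ := sym (h2 1 le_rfl) (h2 2 (by norm_num)) (h2 3 (by norm_num))
    (h2 4 (by norm_num))
  rw [pow_one] at s1 s2 s3 s4
  obtain ⟨g1, g2, g3, g4⟩ := good_sound _ _ _ _ _ _ _ _ _ _ (good_all _ _ _ _ _ _ _ _ _ _ (budget h))
    (no_cut hc)
  change (0 : ℤ) < (LN N).trace ^ 4 - 6 * (LN N).trace ^ 2 * (LN N ^ 2).trace +
    3 * (LN N ^ 2).trace ^ 2 + 8 * (LN N).trace * (LN N ^ 3).trace - 6 * (LN N ^ 4).trace at g1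
  rw [← LN] at g2 g3 g4
  rify at g1 g2 g3 g4
  rw [s4] at g1 g2 g3 g4
  rw [s3] at g3 g4
  rw [h1]
  refine ⟨?_, ?_, ?_⟩
  · rw [inv_sum (by linarith), le_div_iff₀ (by linarith)]
    linarith
  · simp
    linarith
  · by_contra hn
    rw [not_le] at hn
    have hb : BddBelow {x | x ∈ ({a, b, c, d} : Multiset ℝ)} := (Multiset.finite_toSet _).bddBelow
    have ha : 0 < a - 1 := by linarith [csInf_le hb (show a ∈ _ by simp)]
    have hb' : 0 < b - 1 := by linarith [csInf_le hb (show b ∈ _ by simp)]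
    have hc' : 0 < c - 1 := by linarith [csInf_le hb (show c ∈ _ by simp)]
    have hd : 0 < d - 1 := by linarith [csInf_le hb (show d ∈ _ by simp)]
    have e2 : 0 < (a - 1) * (b - 1) + (a - 1) * (c - 1) + (a - 1) * (d - 1) + (b - 1) * (c - 1) +
      (b - 1) * (d - 1) + (c - 1) * (d - 1) := by positivity
    have e3 : 0 < (a - 1) * (b - 1) * (c - 1) + (a - 1) * (b - 1) * (d - 1) +
      (a - 1) * (c - 1) * (d - 1) + (b - 1) * (c - 1) * (d - 1) := by positivity
    have e4 : 0 < (a - 1) * (b - 1) * (c - 1) * (d - 1) := by positivity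
    rcases g4 with g | g | g | g <;> nlinarith

def mk (e : Fin 7 → Fin 5 × Fin 5) : Matrix (Fin 5) (Fin 7) ℕ :=
  fun i B => if i = (e B).1 ∨ i = (e B).2 then 1 else 0

def N0 : Matrix (Fin 5) (Fin 7) ℕ := mk ![(0, 2), (0, 3), (0, 4), (1, 2), (1, 3), (1, 4), (2, 3)]

def N1 : Matrix (Fin 5) (Fin 7) ℕ := mk ![(0, 2), (0, 2), (0, 3), (0, 4), (1, 2), (1, 3), (1, 4)]

theorem des0 : IsDesign 2 N0 := by
  unfold IsDesign
  decide

theorem des1 : IsDesign 2 N1 := by
  unfold IsDesign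
  decide

theorem conn0 : Conn N0 := by
  unfold Conn
  decide +kernel

theorem conn1 : Conn N1 := by
  unfold Conn
  decide +kernel

theorem val0 : ((theta 2 N0).map fun x => 1 / x).sum = 77 / 30 ∧ (theta 2 N0).prod = 15 / 2 := by
  obtain ⟨a, b, c, d, h1, h2⟩ := four des0
  obtain ⟨-, -, s3, s4⟩ := sym (h2 1 le_rfl) (h2 2 (by norm_num)) (h2 3 (by norm_num))
    (h2 4 (by norm_num))
  rw [show (LN N0 ^ 1).trace = 14 by decide +kernel, show (LN N0 ^ 2).trace = 54 by decide +kernel,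
    show (LN N0 ^ 3).trace = 224 by decide +kernel] at s3 s4
  rw [show (LN N0 ^ 4).trace = 978 by decide +kernel] at s4
  norm_num at s3 s4
  rw [h1]
  refine ⟨?_, ?_⟩
  · rw [inv_sum (by linarith), div_eq_iff (by linarith)]
    linarith
  · simp
    linarith

theorem val1 : 1 ≤ sInf {x | x ∈ theta 2 N1} := by
  obtain ⟨a, b, c, d, h1, h2⟩ := four des1
  obtain ⟨s1, s2, s3, s4⟩ := sym (h2 1 le_rfl) (h2 2 (by norm_num)) (h2 3 (by norm_num))
    (h2 4 (by norm_num))
  rw [show (LN N1 ^ 1).trace = 14 by decide +kernel] at s1 s2 s3 s4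
  rw [show (LN N1 ^ 2).trace = 60 by decide +kernel] at s2 s3 s4
  rw [show (LN N1 ^ 3).trace = 302 by decide +kernel] at s3 s4
  rw [show (LN N1 ^ 4).trace = 1680 by decide +kernel] at s4
  norm_num at s1 s2 s3 s4
  rw [h1]
  apply le_csInf ⟨a, by simp⟩
  intro x hx
  have h3 : (x - a) * (x - b) * (x - c) * (x - d) = 0 := by
    simp only [Multiset.insert_eq_cons, Multiset.mem_cons, Multiset.mem_singleton,
      Set.mem_ofPred_eq] at hx
    rcases hx with rfl | rfl | rfl | rfl <;> simp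
  by_contra hn
  have hs : 0 < 1 - x := by linarith
  have h4 : (x - a) * (x - b) * (x - c) * (x - d) = (1 - x) ^ 4 + 3 * (1 - x) ^ 3 + 2 * (1 - x) ^ 2 + 1/4 * (1 - x) := by
    linear_combination (-x ^ 3 / 2) * s1 * (-1) + (x ^ 2 / 8) * s2 * (-1) + (x / 48) * s3 - s4 / 384
  rw [h4] at h3
  have : 0 < (1 - x) ^ 4 + 3 * (1 - x) ^ 3 + 2 * (1 - x) ^ 2 + 1/4 * (1 - x) := by positivity
  linarith

end Pool.Agent.H12.Des5
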