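import Mathlib

set_option autoImplicit false

namespace Pool.Agent.H12.FirstFit

open Finset

variable (s m k : ℕ)

/-- colour of a node of the binomial tree: least element, or s for the root -/
def col (x : Finset (Fin s)) : ℕ := if h : x.Nonempty then (x.min' h).val else s

def par (x : Finset (Fin s)) : Finset (Fin s) := if h : x.Nonempty then x.erase (x.min' h) else x

variable {s}

theorem col_le (x : Finset (Fin s)) : col s x ≤ s := by
  unfold col
  split_ifs with h
  exacts [(x.min' h).2.le, le_rfl]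

theorem col_lt_par {x : Finset (Fin s)} (h : par s x ≠ x) : col s x < col s (par s x) := by
  have hx : x.Nonempty := by
    by_contra hx
    exact h (by simp [par, hx])
  simp only [col, par, dif_pos hx]
  split_ifs with h'
  · have h1 := min'_mem _ h'
    rw [mem_erase] at h1
    exact lt_of_le_of_ne (min'_le _ _ h1.2) (fun h => h1.1 (Fin.ext h.symm))
  · exact (x.min' hx).2

theorem child (x : Finset (Fin s)) (i : ℕ) (hi : i < col s x) :
    ∃ y, par s y = x ∧ col s y = i := by
  have hs : i < s := hi.trans_le (col_le x)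
  have h1 : ∀ j ∈ x, (⟨i, hs⟩ : Fin s) < j := by
    intro j hj
    have hx : x.Nonempty := ⟨j, hj⟩
    simp only [col, dif_pos hx] at hi
    exact lt_of_lt_of_le (show (⟨i, hs⟩ : Fin s) < x.min' hx from hi) (min'_le _ _ hj)
  have h2 : (insert ⟨i, hs⟩ x).min' (insert_nonempty _ _) = ⟨i, hs⟩ := by
    apply le_antisymm (min'_le _ _ (mem_insert_self _ _))
    apply le_min'
    intro j hj
    rcases mem_insert.1 hj with rfl | hj
    exacts [le_rfl, (h1 j hj).le]
  refine ⟨insert ⟨i, hs⟩ x, ?_, ?_⟩
  · simp only [par, dif_pos (insert_nonempty _ _), h2]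
    exact erase_insert (fun h => lt_irrefl _ (h1 _ h))
  · simp only [col, dif_pos (insert_nonempty _ _), h2]

variable (s)

abbrev V : Type := Finset (Fin s) × Fin m ⊕ Fin k

def rel : V s m k → V s m k → Prop
  | .inl u, .inl v => u.1 = v.1 ∨ par s u.1 = v.1 ∨ par s v.1 = u.1
  | .inr _, .inr _ => True
  | _, _ => False

def G : SimpleGraph (V s m k) where
  Adj u v := u ≠ v ∧ rel s m k u v
  symm := ⟨by
    rintro (u | u) (v | v) h <;> refine ⟨h.1.symm, ?_⟩ <;> have := h.2 <;> simp only [rel] at this ⊢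
    tauto⟩
  loopless := ⟨fun _ h => h.1 rfl⟩

def lev : V s m k → ℕ
  | .inl u => col s u.1
  | .inr _ => 0

def f : V s m k → ℕ
  | .inl u => col s u.1 * m + u.2.val
  | .inr j => j.val

variable {s m k}

theorem up {u : Finset (Fin s) × Fin m} {w : V s m k} (h : rel s m k (.inl u) w)
    (hl : col s u.1 ≤ lev s m k w) : ∃ v, w = .inl v ∧ (v.1 = u.1 ∨ v.1 = par s u.1) := by
  rcases w with v | v
  · refine ⟨v, rfl, ?_⟩
    rcases h with h | h | h
    · exact Or.inl h.symm
    · exact Or.inr h.symm
    · by_cases h' : par s v.1 = v.1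
      · exact Or.inl (h'.symm.trans h)
      · have := col_lt_par h'
        rw [h] at this
        exact absurd hl (not_le.2 this)
  · exact h.elim

theorem simplicial {u v w : V s m k} (h1 : (G s m k).Adj u v) (h2 : (G s m k).Adj u w)
    (hv : lev s m k u ≤ lev s m k v) (hw : lev s m k u ≤ lev s m k w) (hne : v ≠ w) :
    (G s m k).Adj v w := by
  refine ⟨hne, ?_⟩
  rcases u with u | u
  · obtain ⟨v, rfl, h3⟩ := up h1.2 hv
    obtain ⟨w, rfl, h4⟩ := up h2.2 hw
    simp only [rel]
    rcases h3 with h3 | h3 <;> rcases h4 with h4 | h4 <;> simp [h3, h4]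
  · rcases v with v | v
    · exact h1.2.elim
    · rcases w with w | w
      · exact h2.2.elim
      · trivial

theorem chordal (n : ℕ) (hn : 4 ≤ n) : IsEmpty (SimpleGraph.cycleGraph n ↪g G s m k) := by
  refine ⟨fun e => ?_⟩
  obtain ⟨n, rfl⟩ : ∃ n', n = n' + 4 := ⟨n - 4, by omega⟩
  obtain ⟨i, -, hi⟩ := exists_min_image univ (fun i => lev s m k (e i)) univ_nonempty
  have h1 : (SimpleGraph.cycleGraph (n + 4)).Adj i (i + 1) := by
    rw [SimpleGraph.cycleGraph_adj]
    simp
  have h2 : (SimpleGraph.cycleGraph (n + 4)).Adj i (i - 1) := by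
    rw [SimpleGraph.cycleGraph_adj]
    simp
  have h3 : i + 1 - (i - 1) = 2 := by
    abel_nf
    rfl
  have h4 : i + 1 ≠ i - 1 := by
    intro h
    rw [h, sub_self] at h3
    exact absurd (congrArg Fin.val h3) (by rw [Fin.val_two]; simp)
  have h5 := e.map_adj_iff.1 (simplicial (e.map_adj_iff.2 h1) (e.map_adj_iff.2 h2)
    (hi _ (mem_univ _)) (hi _ (mem_univ _)) (fun h => h4 (e.injective h)))
  rw [SimpleGraph.cycleGraph_adj, h3] at h5
  rcases h5 with h5 | h5
  · exact absurd (congrArg Fin.val h5) (by rw [Fin.val_two]; simp)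
  · have h6 : (2 : Fin (n + 4)) + 1 = 0 := by
      have h7 : (i + 1 - (i - 1)) + (i - 1 - (i + 1)) = 0 := by rw [sub_add_sub_cancel, sub_self]
      rwa [h3, h5] at h7
    have h7 := congrArg Fin.val h6
    rw [Fin.val_add, Fin.val_two, Fin.val_one, Nat.mod_eq_of_lt (by omega)] at h7
    simp at h7

theorem cliqueNum (h : 2 * m ≤ k) : (G s m k).cliqueNum = k := by
  apply le_antisymm
  · obtain ⟨T, hT⟩ := (G s m k).exists_isNClique_cliqueNum
    rw [← hT.card_eq]
    rcases T.eq_empty_or_nonempty with rfl | hne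
    · simp
    obtain ⟨u, hu, hmin⟩ := exists_min_image T (lev s m k) hne
    rcases u with u | u
    · have : T ⊆ (({u.1, par s u.1} : Finset _) ×ˢ (univ : Finset (Fin m))).map
          ⟨Sum.inl, Sum.inl_injective⟩ := by
        intro w hw
        have h1 : rel s m k (.inl u) w := by
          by_cases h' : .inl u = w
          · rw [← h']
            exact Or.inl rfl
          · exact (hT.isClique hu hw h').2
        obtain ⟨v, rfl, h2⟩ := up h1 (hmin w hw)
        exact mem_map.2 ⟨v, by simpa using h2, rfl⟩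
      refine (card_le_card this).trans ?_
      rw [card_map, card_product, card_univ, Fintype.card_fin]
      exact (Nat.mul_le_mul_right _ card_le_two).trans h
    · have : T ⊆ (univ : Finset (Fin k)).map ⟨Sum.inr, Sum.inr_injective⟩ := by
        rintro (w | w) hw
        · exact (hT.isClique hu hw (by simp)).2.elim
        · exact mem_map.2 ⟨w, mem_univ _, rfl⟩
      simpa using card_le_card this
  · have h1 : (G s m k).IsClique ((univ : Finset (Fin k)).map ⟨Sum.inr, Sum.inr_injective⟩ :
        Finset (V s m k)) := by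
      intro a ha b hb hab
      simp only [coe_map, Set.mem_image] at ha hb
      obtain ⟨a, -, rfl⟩ := ha
      obtain ⟨b, -, rfl⟩ := hb
      exact ⟨hab, trivial⟩
    simpa using h1.card_le_cliqueNum

theorem f_lt (hk : k ≤ (s + 1) * m) (v : V s m k) : f s m k v < (s + 1) * m := by
  rcases v with v | v
  · have h1 := Nat.mul_le_mul_right m (col_le v.1)
    have h2 := v.2.2
    simp only [f]
    nlinarith
  · exact v.2.trans_le hk

theorem f_proper {u v : V s m k} (h : (G s m k).Adj u v) : f s m k u ≠ f s m k v := by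
  have key : ∀ u v : Finset (Fin s) × Fin m, col s u.1 < col s v.1 →
      f s m k (.inl u) < f s m k (.inl v) := by
    intro u v h
    have h1 := Nat.mul_le_mul_right m (Nat.succ_le_of_lt h)
    have h2 := u.2.2
    simp only [f]
    nlinarith
  rcases u with u | u <;> rcases v with v | v
  · by_cases h0 : u.1 = v.1
    · intro h1
      simp only [f, h0, Nat.add_right_inj] at h1
      exact h.1 (congrArg _ (Prod.ext h0 (Fin.ext h1)))
    · rcases h.2 with h1 | h1 | h1
      · exact absurd h1 h0
      · exact (key u v (h1 ▸ col_lt_par (by rw [h1]; exact Ne.symm h0))).ne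
      · exact (key v u (h1 ▸ col_lt_par (by rw [h1]; exact h0))).ne'
  · exact h.2.elim
  · exact h.2.elim
  · exact fun h1 => h.1 (congrArg _ (Fin.ext h1))

theorem f_down (v : V s m k) (i : ℕ) (hi : i < f s m k v) :
    ∃ w, (G s m k).Adj v w ∧ f s m k w = i := by
  rcases v with v | v
  · have hm : 0 < m := v.2.pos
    have h1 : i / m ≤ col s v.1 := by
      rw [← Nat.lt_succ_iff, Nat.div_lt_iff_lt_mul hm]
      have := v.2.2
      simp only [f] at hi
      nlinarith
    have h2 : ∃ y, col s y = i / m ∧ (v.1 = y ∨ par s y = v.1) := by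
      rcases h1.eq_or_lt with h | h
      · exact ⟨v.1, h.symm, Or.inl rfl⟩
      · obtain ⟨y, h2, h3⟩ := child v.1 _ h
        exact ⟨y, h3, Or.inr h2⟩
    obtain ⟨y, h3, h4⟩ := h2
    have h5 : f s m k (.inl (y, ⟨i % m, Nat.mod_lt _ hm⟩)) = i := by
      simp only [f, h3]
      exact Nat.div_add_mod' i m
    refine ⟨_, ⟨fun h => ?_, ?_⟩, h5⟩
    · rw [h, h5] at hi
      exact lt_irrefl _ hi
    · simp only [rel]
      tauto
  · exact ⟨.inr ⟨i, hi.trans v.2⟩, ⟨fun h => hi.ne' (congrArg (f s m k) h), trivial⟩, rfl⟩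

theorem f_surj (i : ℕ) (hi : i < (s + 1) * m) : ∃ v, f s m k v = i := by
  have hm : 0 < m := by
    rcases m with _ | m
    · simp at hi
    · omega
  have h1 : f s m k (.inl (∅, ⟨m - 1, by omega⟩)) = (s + 1) * m - 1 := by
    simp only [f, col, Finset.not_nonempty_empty, dif_neg, not_false_eq_true]
    rw [add_mul]
    omega
  rcases (show i ≤ (s + 1) * m - 1 by omega).eq_or_lt with h | h
  · exact ⟨_, h1.trans h.symm⟩
  · obtain ⟨w, -, hw⟩ := f_down _ i (h1 ▸ h)
    exact ⟨w, hw⟩

theorem card_V : Fintype.card (V s m k) = 2 ^ s * m + k := by simp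

end Pool.Agent.H12.FirstFit
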