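import Mathlib

set_option autoImplicit false

namespace Pool.Agent.H12.Ftd

open Finset

variable {V : Type} [Fintype V] [DecidableEq V]

/-- Reachability along the arcs `a → b`, `b ∈ E a`. -/
def Rch (E : V → Finset V) (a b : V) : Prop := Relation.ReflTransGen (fun x y => y ∈ E x) a b

theorem rch_back (E : V → Finset V) (k : ℕ) (hout : ∀ a, (E a).card = k)
    (hin : ∀ b, (univ.filter (fun a => b ∈ E a)).card = k) (a b : V) (hab : b ∈ E a) :
    Rch E b a := by
  classical
  set R : Finset V := univ.filter (fun y => Rch E b y) with hR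
  have hcl : ∀ x ∈ R, E x ⊆ R := by
    intro x hx y hy
    simp only [hR, mem_filter, mem_univ, true_and] at hx ⊢
    exact Relation.ReflTransGen.tail hx hy
  have h1 : ∑ y ∈ R, (univ.filter (fun x => y ∈ E x)).card = ∑ x, (R.filter (fun y => y ∈ E x)).card := by
    simp only [card_filter]
    exact Finset.sum_comm
  have h2 : ∑ y ∈ R, (univ.filter (fun x => y ∈ E x)).card = k * R.card := by
    simp [hin, mul_comm]
  have h3 : ∑ x ∈ R, (R.filter (fun y => y ∈ E x)).card = k * R.card := by
    have : ∀ x ∈ R, (R.filter (fun y => y ∈ E x)).card = k := by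
      intro x hx
      rw [← hout x]
      congr 1
      ext y
      simp only [mem_filter]
      exact ⟨fun h => h.2, fun h => ⟨hcl x hx h, h⟩⟩
    rw [Finset.sum_congr rfl this]
    simp [mul_comm]
  have h4 : ∑ x ∈ R, (R.filter (fun y => y ∈ E x)).card
      + ∑ x ∈ Rᶜ, (R.filter (fun y => y ∈ E x)).card = ∑ x, (R.filter (fun y => y ∈ E x)).card :=
    Finset.sum_add_sum_compl R _
  have h5 : ∑ x ∈ Rᶜ, (R.filter (fun y => y ∈ E x)).card = 0 := by omega
  by_contra hne
  have ha : a ∈ Rᶜ := by
    simp only [hR, mem_compl, mem_filter, mem_univ, true_and]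
    exact hne
  have h6 := (Finset.sum_eq_zero_iff.1 h5) a ha
  have hb : b ∈ R.filter (fun y => y ∈ E a) := by
    simp only [hR, mem_filter, mem_univ, true_and]
    exact ⟨Relation.ReflTransGen.refl, hab⟩
  rw [Finset.card_eq_zero] at h6
  rw [h6] at hb
  simp at hb

theorem rch_symm (E : V → Finset V) (k : ℕ) (hout : ∀ a, (E a).card = k)
    (hin : ∀ b, (univ.filter (fun a => b ∈ E a)).card = k) (a b : V) (h : Rch E a b) :
    Rch E b a := by
  induction h with
  | refl => exact Relation.ReflTransGen.refl
  | tail _ hyz ih => exact Relation.ReflTransGen.trans (rch_back E k hout hin _ _ hyz) ih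

/-- `St E v n y`: there is a walk of `n` arcs from `y` to `v`. -/
def St (E : V → Finset V) (v : V) : ℕ → V → Prop
  | 0, y => y = v
  | n + 1, y => ∃ b ∈ E y, St E v n b

theorem st_of_rch (E : V → Finset V) (v y : V) (h : Rch E y v) : ∃ n, St E v n y := by
  induction h using Relation.ReflTransGen.head_induction_on with
  | refl => exact ⟨0, rfl⟩
  | head hab _ ih =>
    obtain ⟨n, hn⟩ := ih
    exact ⟨n + 1, _, hab, hn⟩

theorem exists_col (E : V → Finset V) (v : V) :
    ∃ c : V → Bool, ∀ x, Rch E x v → x ≠ v → ∃ b ∈ E x, c b ≠ c x := by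
  classical
  let d : V → ℕ := fun y => if h : ∃ n, St E v n y then Nat.find h else 0
  refine ⟨fun y => decide (Even (d y)), ?_⟩
  intro x hx hxv
  have h := st_of_rch E v x hx
  have hd : d x = Nat.find h := by simp only [d, dif_pos h]
  have hs := Nat.find_spec h
  obtain ⟨n, hn⟩ : ∃ n, Nat.find h = n + 1 := by
    cases hq : Nat.find h with
    | zero => rw [hq] at hs; exact absurd hs hxv
    | succ n => exact ⟨n, rfl⟩
  rw [hn] at hs
  obtain ⟨b, hb, hsb⟩ := hs
  have h' : ∃ m, St E v m b := ⟨n, hsb⟩
  have hdb : d b = Nat.find h' := by simp only [d, dif_pos h']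
  have hle : Nat.find h' ≤ n := Nat.find_min' h' hsb
  have hge : n + 1 ≤ Nat.find h' + 1 := by
    rw [← hn]
    exact Nat.find_min' h ⟨b, hb, Nat.find_spec h'⟩
  have hbn : d b = n := by omega
  have hxn : d x = n + 1 := by omega
  refine ⟨b, hb, ?_⟩
  simp only [hbn, hxn, Nat.even_add_one, ne_eq, decide_eq_decide]
  tauto

theorem key (E : V → Finset V) (hself : ∀ a, a ∈ E a) (hout : ∀ a, (E a).card = 3)
    (hin : ∀ b, (univ.filter (fun a => b ∈ E a)).card = 3) (v : V) :
    ∃ u : V, ∃ T1 T2 : Finset V, Rch E v u ∧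
      (∀ x, Rch E v x → (∃ y ∈ E x, y ∈ T1) ∧ (∃ y ∈ E x, y ∈ T2)) ∧
      ∀ y, (if y ∈ T1 then (1 : ℝ) else 0) + (if y ∈ T2 then 1 else 0) + (if y = u then 1 else 0)
        ≤ 1 + (if y = v then 1 else 0) := by
  classical
  obtain ⟨c, hc⟩ := exists_col E v
  have hbi : ∀ x, Rch E v x → x ≠ v → ∀ t : Bool, ∃ y ∈ E x, c y = t := by
    intro x hx hxv t
    obtain ⟨b, hb, hcb⟩ := hc x (rch_symm E 3 hout hin _ _ hx) hxv
    by_cases h : c x = t
    · exact ⟨x, hself x, h⟩
    · refine ⟨b, hb, ?_⟩
      revert h hcb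
      cases c b <;> cases c x <;> cases t <;> simp
  by_cases h1 : ∃ y ∈ E v, c y ≠ c v
  · refine ⟨v, univ.filter (fun y => c y = c v), univ.filter (fun y => c y ≠ c v),
      Relation.ReflTransGen.refl, ?_, ?_⟩
    · intro x hx
      by_cases hxv : x = v
      · subst hxv
        obtain ⟨y, hy, hcy⟩ := h1
        exact ⟨⟨x, hself x, by simp⟩, ⟨y, hy, by simpa using hcy⟩⟩
      · obtain ⟨y, hy, hcy⟩ := hbi x hx hxv (c v)
        obtain ⟨z, hz, hcz⟩ := hbi x hx hxv (!c v)
        refine ⟨⟨y, hy, by simpa using hcy⟩, ⟨z, hz, ?_⟩⟩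
        simp [hcz]
    · intro y
      by_cases hy : c y = c v <;> simp [hy]
  · push Not at h1
    by_cases h2 : ∃ u, Rch E v u ∧ ∀ x, Rch E v x → ∃ y ∈ E x, (c y = c u ∨ y = v) ∧ y ≠ u
    · obtain ⟨u, hu, hrem⟩ := h2
      refine ⟨u, univ.filter (fun y => (c y = c u ∨ y = v) ∧ y ≠ u),
        univ.filter (fun y => c y ≠ c u ∨ y = v), hu, ?_, ?_⟩
      · intro x hx
        refine ⟨?_, ?_⟩
        · obtain ⟨y, hy, hp⟩ := hrem x hx
          exact ⟨y, hy, by simpa using hp⟩
        · by_cases hxv : x = v
          · subst hxv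
            exact ⟨x, hself x, by simp⟩
          · obtain ⟨z, hz, hcz⟩ := hbi x hx hxv (!c u)
            exact ⟨z, hz, by simp [hcz]⟩
      · intro y
        by_cases hyu : y = u
        · subst hyu
          by_cases hyv : y = v <;> simp [hyv]
        · by_cases hyv : y = v
          · subst hyv
            simp [hyu]
          · by_cases hy : c y = c u <;> simp [hy, hyu, hyv]
    · exfalso
      push Not at h2
      choose! f hf1 hf2 using h2
      set C : Finset V := univ.filter (fun y => Rch E v y) with hC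
      have hvC : v ∈ C := by
        simp only [hC, mem_filter, mem_univ, true_and]
        exact Relation.ReflTransGen.refl
      have hne : ∀ u, Rch E v u → f u ≠ v := by
        intro u hu hfu
        have h3 := hf2 u hu
        rw [hfu] at h3
        have huv : v = u := h3 v (hself v) (Or.inr rfl)
        have hsub : E v ⊆ {u} := by
          intro y hy
          rw [mem_singleton]
          exact h3 y hy (Or.inl (by rw [h1 y hy, huv]))
        have := card_le_card hsub
        rw [hout, card_singleton] at this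
        omega
      have hmaps : ∀ u ∈ C, f u ∈ C.erase v := by
        intro u hu
        simp only [hC, mem_filter, mem_univ, true_and] at hu
        simp only [hC, mem_erase, mem_filter, mem_univ, true_and]
        exact ⟨hne u hu, hf1 u hu⟩
      have hinj : Set.InjOn f C := by
        intro u hu u' hu' huu
        simp only [hC, coe_filter, mem_univ, true_and, Set.mem_ofPred_eq] at hu hu'
        have h3 := hf2 u hu
        have h4 := hf2 u' hu'
        rw [← huu] at h4
        by_cases hcc : c u = c u'
        · obtain ⟨y, hy, hcy⟩ := hbi (f u) (hf1 u hu) (hne u hu) (c u)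
          rw [← h3 y hy (Or.inl hcy)]
          exact h4 y hy (Or.inl (hcy.trans hcc))
        · exfalso
          have hsub : E (f u) ⊆ {u, u'} := by
            intro y hy
            rw [mem_insert, mem_singleton]
            by_cases hcy : c y = c u
            · exact Or.inl (h3 y hy (Or.inl hcy))
            · refine Or.inr (h4 y hy (Or.inl ?_))
              revert hcy hcc
              cases c y <;> cases c u <;> cases c u' <;> simp
          have h5 := card_le_card hsub
          have h6 : ({u, u'} : Finset V).card ≤ 2 := card_le_two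
          rw [hout] at h5
          omega
      have h7 := Finset.card_le_card_of_injOn f hmaps hinj
      rw [card_erase_of_mem hvC] at h7
      have h8 : 0 < C.card := card_pos.2 ⟨v, hvC⟩
      omega

theorem family (E : V → Finset V) (hself : ∀ a, a ∈ E a) (hout : ∀ a, (E a).card = 3)
    (hin : ∀ b, (univ.filter (fun a => b ∈ E a)).card = 3) :
    ∃ k : ℕ, 0 < k ∧ ∃ T1 T2 : ℕ → Finset V,
      (∀ i x, (∃ y ∈ E x, y ∈ T1 i) ∧ (∃ y ∈ E x, y ∈ T2 i)) ∧
      ∀ y, ∑ i ∈ range k, ((if y ∈ T1 i then (1 : ℝ) else 0) + (if y ∈ T2 i then 1 else 0)) ≤ k := by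
  classical
  choose u T1 T2 hu hT hcnt using key E hself hout hin
  have hsy := rch_symm E 3 hout hin
  obtain ⟨s, hs1, hs2⟩ : ∃ s : V → V, (∀ x, Rch E x (s x)) ∧ ∀ x y, y ∈ E x → s y = s x := by
    let ch : (p : V → Prop) → V → V := fun p x => if h : ∃ y, p y then Classical.choose h else x
    refine ⟨fun x => ch (fun y => Rch E x y) x, ?_, ?_⟩
    · intro x
      have h : ∃ y, Rch E x y := ⟨x, Relation.ReflTransGen.refl⟩
      simp only [ch, dif_pos h]
      exact Classical.choose_spec h
    · intro x y hy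
      have : (fun z => Rch E y z) = (fun z => Rch E x z) := by
        funext z
        apply propext
        exact ⟨fun h => Relation.ReflTransGen.head hy h,
          fun h => Relation.ReflTransGen.trans (rch_back E 3 hout hin _ _ hy) h⟩
      have h : ∃ y, Rch E x y := ⟨x, Relation.ReflTransGen.refl⟩
      show ch (fun z => Rch E y z) y = ch (fun z => Rch E x z) x
      rw [this]
      simp only [ch, dif_pos h]
  have hit : ∀ n x, Rch E x (u^[n] x) := by
    intro n x
    induction n with
    | zero => exact Relation.ReflTransGen.refl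
    | succ n ih =>
      rw [Function.iterate_succ_apply']
      exact Relation.ReflTransGen.trans ih (hu _)
  obtain ⟨m, k, hk, hmk⟩ : ∃ m k : ℕ, 0 < k ∧ u^[m + k] = u^[m] := by
    obtain ⟨i, j, hij, h⟩ := Finite.exists_ne_map_eq_of_infinite (fun n : ℕ => u^[n])
    rcases lt_or_gt_of_ne hij with hlt | hlt
    · exact ⟨i, j - i, by omega, by rw [show i + (j - i) = j by omega]; exact h.symm⟩
    · exact ⟨j, i - j, by omega, by rw [show j + (i - j) = i by omega]; exact h⟩
  refine ⟨k, hk, fun i => univ.filter (fun y => y ∈ T1 (u^[m + i] (s y))),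
    fun i => univ.filter (fun y => y ∈ T2 (u^[m + i] (s y))), ?_, ?_⟩
  · intro i x
    have hx : Rch E (u^[m + i] (s x)) x :=
      hsy _ _ (Relation.ReflTransGen.trans (hs1 x) (hit _ _))
    obtain ⟨⟨y, hy, hy1⟩, ⟨z, hz, hz1⟩⟩ := hT _ x hx
    refine ⟨⟨y, hy, ?_⟩, ⟨z, hz, ?_⟩⟩
    · simp only [mem_filter, mem_univ, true_and]
      rw [hs2 x y hy]
      exact hy1
    · simp only [mem_filter, mem_univ, true_and]
      rw [hs2 x z hz]
      exact hz1
  · intro y
    let g : ℕ → ℝ := fun i => if y = u^[m + i] (s y) then 1 else 0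
    have h1 : ∀ i ∈ range k, ((if y ∈ univ.filter (fun y => y ∈ T1 (u^[m + i] (s y))) then (1 : ℝ) else 0)
        + (if y ∈ univ.filter (fun y => y ∈ T2 (u^[m + i] (s y))) then 1 else 0))
        ≤ 1 + (g i - g (i + 1)) := by
      intro i _
      have := hcnt (u^[m + i] (s y)) y
      simp only [mem_filter, mem_univ, true_and, g]
      rw [← add_assoc m i 1, Function.iterate_succ_apply']
      linarith
    refine (Finset.sum_le_sum h1).trans ?_
    rw [Finset.sum_add_distrib, Finset.sum_range_sub']
    simp only [g, hmk, add_zero, sub_self]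
    simp

theorem main (G : SimpleGraph V) [DecidableRel G.Adj] (hG : G.IsRegularOfDegree 3) :
    ∃ w : Finset V → ℝ,
      (∀ S, 0 ≤ w S) ∧
      (∀ S, w S ≠ 0 → ∀ v : V, ∃ u ∈ S, G.Adj v u) ∧
      (∀ v : V, ∑ S ∈ Finset.univ.filter (fun S : Finset V => v ∈ S), w S ≤ 1) ∧
      2 ≤ ∑ S, w S := by
  classical
  have hdeg : ∀ x, (G.neighborFinset x).card = 3 := fun x => hG x
  have hall : ∀ s : Finset V, s.card ≤ (s.biUnion (fun x => G.neighborFinset x)).card := by
    intro s
    have h := Finset.card_mul_le_card_mul (s := s) (t := s.biUnion (fun x => G.neighborFinset x))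
      (m := 3) (n := 3) (fun a b => G.Adj a b) ?_ ?_
    · omega
    · intro a ha
      rw [← hdeg a]
      apply card_le_card
      intro b hb
      simp only [Finset.mem_bipartiteAbove, mem_biUnion, SimpleGraph.mem_neighborFinset] at hb ⊢
      exact ⟨⟨a, ha, hb⟩, hb⟩
    · intro b _
      rw [← hdeg b]
      apply card_le_card
      intro a ha
      simp only [Finset.mem_bipartiteBelow, SimpleGraph.mem_neighborFinset] at ha ⊢
      exact ha.2.symm
  obtain ⟨f, hfi, hf⟩ := (Finset.all_card_le_biUnion_card_iff_exists_injective _).1 hall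
  have hfb : Function.Bijective f := Finite.injective_iff_bijective.1 hfi
  let σ : V ≃ V := Equiv.ofBijective f hfb
  let E : V → Finset V := fun a => G.neighborFinset (σ.symm a)
  have hself : ∀ a, a ∈ E a := by
    intro a
    have := hf (σ.symm a)
    have h2 : f (σ.symm a) = a := σ.apply_symm_apply a
    rw [h2] at this
    exact this
  have hout : ∀ a, (E a).card = 3 := fun a => hdeg _
  have hin : ∀ b, (univ.filter (fun a => b ∈ E a)).card = 3 := by
    intro b
    rw [← hdeg b]
    apply Finset.card_bij (fun a _ => σ.symm a)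
    · intro a ha
      simp only [E, mem_filter, mem_univ, true_and, SimpleGraph.mem_neighborFinset] at ha ⊢
      exact ha.symm
    · intro a _ a' _ h
      exact σ.symm.injective h
    · intro x hx
      refine ⟨σ x, ?_, by simp⟩
      simp only [E, mem_filter, mem_univ, true_and, SimpleGraph.mem_neighborFinset,
        Equiv.symm_apply_apply] at hx ⊢
      exact hx.symm
  obtain ⟨k, hk, T1, T2, hT, hcnt⟩ := family E hself hout hin
  have hkR : (0 : ℝ) < k := by exact_mod_cast hk
  refine ⟨fun S => (∑ i ∈ range k, ((if T1 i = S then (1 : ℝ) else 0) + (if T2 i = S then 1 else 0))) / k,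
    ?_, ?_, ?_, ?_⟩
  · intro S
    apply div_nonneg _ hkR.le
    apply Finset.sum_nonneg
    intro i _
    apply add_nonneg <;> split_ifs <;> norm_num
  · intro S hS v
    have h1 : ∃ i, T1 i = S ∨ T2 i = S := by
      by_contra hcon
      push Not at hcon
      apply hS
      simp [fun i => (hcon i).1, fun i => (hcon i).2]
    obtain ⟨i, hi⟩ := h1
    obtain ⟨⟨y, hy, hy1⟩, ⟨z, hz, hz1⟩⟩ := hT i (σ v)
    simp only [E, Equiv.symm_apply_apply, SimpleGraph.mem_neighborFinset] at hy hz
    rcases hi with hi | hi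
    · exact ⟨y, hi ▸ hy1, hy⟩
    · exact ⟨z, hi ▸ hz1, hz⟩
  · intro v
    rw [← Finset.sum_div, div_le_one hkR, Finset.sum_comm]
    refine le_trans (le_of_eq ?_) (hcnt v)
    apply Finset.sum_congr rfl
    intro i _
    rw [Finset.sum_add_distrib, Finset.sum_ite_eq, Finset.sum_ite_eq]
    simp
  · rw [← Finset.sum_div, le_div_iff₀ hkR, Finset.sum_comm]
    apply le_of_eq
    have : ∀ i ∈ range k, ∑ S : Finset V, ((if T1 i = S then (1 : ℝ) else 0) + (if T2 i = S then 1 else 0)) = 2 := by
      intro i _
      rw [Finset.sum_add_distrib, Finset.sum_ite_eq, Finset.sum_ite_eq]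
      simp
      norm_num
    rw [Finset.sum_congr rfl this]
    simp [mul_comm]

end Pool.Agent.H12.Ftd
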