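import Mathlib

set_option autoImplicit false

namespace Pool.Agent.H12.Gammoid

open Finset

/-- A path: a nonempty list of distinct vertices, consecutive ones joined by arcs of `A`. -/
def IsPath (A : Finset (ℕ × ℕ)) (p : List ℕ) : Prop :=
  p ≠ [] ∧ p.Nodup ∧ p.IsChain fun a b => (a, b) ∈ A

/-- A routing from `X` to `T`: pairwise vertex-disjoint paths ending in `T`, every `x ∈ X` being
the first vertex of one of them. -/
def Routing (A : Finset (ℕ × ℕ)) (X T : Finset ℕ) : Prop :=
  ∃ R : Set (List ℕ), (∀ p ∈ R, IsPath A p ∧ ∃ t ∈ T, p.getLast? = some t) ∧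
    R.Pairwise List.Disjoint ∧ ∀ x ∈ X, ∃ p ∈ R, p.head? = some x

/-- The independent sets of the gammoid `Γ(D, T, E)`, where `D` has arc set `A`. -/
def Gam (A : Finset (ℕ × ℕ)) (T E : Finset ℕ) : Set (Finset ℕ) := {X | X ⊆ E ∧ Routing A X T}

/-- A standard representation of the matroid on `E` with independent sets `I`. -/
def Std (A : Finset (ℕ × ℕ)) (T E : Finset ℕ) (I : Set (Finset ℕ)) : Prop :=
  Gam A T E = I ∧ T ⊆ E ∧ (∀ a ∈ A, a.1 ∉ T) ∧ ∀ a ∈ A, a.2 ∉ E \ T

/-- Arc-complexity: the least number of arcs of a standard representation. -/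
noncomputable def arcC (E : Finset ℕ) (I : Set (Finset ℕ)) : ℕ :=
  sInf {m | ∃ A T, Std A T E I ∧ #A = m}

theorem Routing.card_le {A : Finset (ℕ × ℕ)} {X T : Finset ℕ} (h : Routing A X T) : #X ≤ #T := by
  obtain ⟨R, h1, h2, h3⟩ := h
  choose! p hp hx using h3
  choose! t ht hl using fun q hq => (h1 q hq).2
  refine card_le_card_of_injOn (fun x => t (p x)) (fun x h => ht _ (hp x h)) fun x a y b e => ?_
  by_contra hne
  have h4 : p x ≠ p y := fun h => hne (Option.some.inj (by rw [← hx x a, h, hx y b]))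
  have e' : t (p x) = t (p y) := e
  exact h2 (hp x a) (hp y b) h4 (List.mem_of_getLast? (hl _ (hp x a)))
    (List.mem_of_getLast? (e' ▸ hl _ (hp y b)))

end Pool.Agent.H12.Gammoid
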