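import Pool.Agent.H12.IndCount

set_option autoImplicit false
open Finset

namespace Pool.Agent.H12.HL

open Pool.Agent.H12.IndCount

theorem leaf {V : Type} [Finite V] (T : SimpleGraph V) (h : T.IsAcyclic) (W : Finset V)
    (hW : W.Nonempty) : ∃ v ∈ W, ∀ x ∈ W, ∀ y ∈ W, T.Adj v x → T.Adj v y → x = y := by
  classical
  have hA := h.induce (W : Set V)
  have : Nonempty (W : Set V) := ⟨⟨hW.choose, hW.choose_spec⟩⟩
  obtain ⟨u, v, p, hp, hmax⟩ :=
    SimpleGraph.Walk.exists_isPath_forall_isPath_length_le_length (T.induce (W : Set V))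
  have key : ∀ w : (W : Set V), (T.induce (W : Set V)).Adj u w → w = p.snd := by
    intro w hadj
    apply hA.eq_snd_of_adj_start hp hadj
    by_contra hw
    have := hmax _ _ (p.cons hadj.symm) (hp.cons hw)
    simp at this
  refine ⟨u.1, u.2, fun x hx y hy h1 h2 => ?_⟩
  have a := key ⟨x, hx⟩ h1
  have b := key ⟨y, hy⟩ h2
  exact congrArg Subtype.val (a.trans b.symm)

variable {V : Type} [DecidableEq V]

def PathOn (r : V → V → Prop) (W : Finset V) : Prop :=
  ∃ e : ℕ → V, (∀ i < W.card, e i ∈ W) ∧ (∀ i < W.card, ∀ j < W.card, e i = e j → i = j) ∧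
    ∀ i < W.card, ∀ j < W.card, (r (e i) (e j) ↔ i + 1 = j ∨ j + 1 = i)

theorem onto {W : Finset V} {e : ℕ → V} (h1 : ∀ i < W.card, e i ∈ W)
    (h2 : ∀ i < W.card, ∀ j < W.card, e i = e j → i = j) : ∀ x ∈ W, ∃ i < W.card, e i = x := by
  have hsub : (range W.card).image e ⊆ W := by
    intro x hx
    obtain ⟨i, hi, rfl⟩ := mem_image.1 hx
    exact h1 i (mem_range.1 hi)
  have := eq_of_subset_of_card_le hsub (by
    rw [card_image_of_injOn (fun i hi j hj => h2 i (mem_range.1 hi) j (mem_range.1 hj)), card_range])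
  intro x hx
  rw [← this] at hx
  obtain ⟨i, hi, rfl⟩ := mem_image.1 hx
  exact ⟨i, mem_range.1 hi, rfl⟩

theorem extend {r : V → V → Prop} (hs : ∀ a b, r a b → r b a) (hi : ∀ a, ¬ r a a)
    {W : Finset V} {v : V} (hv : v ∉ W) {e : ℕ → V} (h1 : ∀ i < W.card, e i ∈ W)
    (h2 : ∀ i < W.card, ∀ j < W.card, e i = e j → i = j)
    (h3 : ∀ i < W.card, ∀ j < W.card, (r (e i) (e j) ↔ i + 1 = j ∨ j + 1 = i))
    (h4 : ∀ x ∈ W, r v x ↔ x = e 0) : PathOn r (insert v W) := by
  refine ⟨fun i => Nat.casesOn i v e, ?_, ?_, ?_⟩ <;> rw [card_insert_of_notMem hv]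
  · rintro (_ | i) hi
    · exact mem_insert_self _ _
    · exact mem_insert_of_mem (h1 i (by omega))
  · rintro (_ | i) hi (_ | j) hj h
    · rfl
    · exact absurd (by rw [show v = e j from h]; exact h1 j (by omega)) hv
    · exact absurd (by rw [show v = e i from h.symm]; exact h1 i (by omega)) hv
    · rw [h2 i (by omega) j (by omega) h]
  · have h5 : ∀ j < W.card, r v (e j) ↔ j = 0 := by
      intro j hj
      rw [h4 _ (h1 j hj)]
      exact ⟨h2 j hj 0 (by omega), fun h => by rw [h]⟩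
    rintro (_ | i) hi' (_ | j) hj
    · simpa using hi v
    · have := h5 j (by omega)
      change r v (e j) ↔ _
      rw [this]; omega
    · have := h5 i (by omega)
      change r (e i) v ↔ _
      rw [show r (e i) v ↔ r v (e i) from ⟨hs _ _, hs _ _⟩, this]; omega
    · change r (e i) (e j) ↔ _
      rw [h3 i (by omega) j (by omega)]; omega

theorem endpoint {r : V → V → Prop} {W : Finset V} {e : ℕ → V} (h1 : ∀ i < W.card, e i ∈ W)
    (h2 : ∀ i < W.card, ∀ j < W.card, e i = e j → i = j)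
    (h3 : ∀ i < W.card, ∀ j < W.card, (r (e i) (e j) ↔ i + 1 = j ∨ j + 1 = i))
    {k : ℕ} (hk : k < W.card) (hP : PathOn r (W.erase (e k))) : k = 0 ∨ k + 1 = W.card := by
  by_contra hcon
  rw [not_or] at hcon
  obtain ⟨e', g1, g2, g3⟩ := hP
  have hσ : ∀ i, i < (W.erase (e k)).card → ∃ j < W.card, e j = e' i :=
    fun i hi => onto h1 h2 _ (mem_erase.1 (g1 i hi)).2
  choose! σ hσ1 hσ2 using hσ
  have hne : ∀ i < (W.erase (e k)).card, σ i ≠ k := by
    intro i hi h
    exact (mem_erase.1 (g1 i hi)).1 (by rw [← hσ2 i hi, h])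
  have hside : ∀ i < (W.erase (e k)).card, (σ i < k ↔ σ 0 < k) := by
    intro i
    induction i with
    | zero => simp
    | succ i ih =>
      intro hi
      rw [← ih (by omega)]
      have := (g3 i (by omega) (i + 1) hi).2 (Or.inl rfl)
      rw [← hσ2 i (by omega), ← hσ2 (i + 1) hi, h3 _ (hσ1 i (by omega)) _ (hσ1 _ hi)] at this
      have a := hne i (by omega)
      have b := hne (i + 1) hi
      omega
  have hget : ∀ j < W.card, j ≠ k → ∃ i < (W.erase (e k)).card, σ i = j := by
    intro j hj hjk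
    obtain ⟨i, hi, h⟩ := onto g1 g2 (e j) (mem_erase.2 ⟨fun h => hjk (h2 j hj k hk h), h1 j hj⟩)
    exact ⟨i, hi, h2 _ (hσ1 i hi) j hj (by rw [hσ2 i hi, h])⟩
  obtain ⟨a, ha, ha'⟩ := hget 0 (by omega) (Ne.symm hcon.1)
  obtain ⟨b, hb, hb'⟩ := hget (W.card - 1) (by omega) (by omega)
  have c := hside a ha
  have d := hside b hb
  omega

theorem pt [Nonempty V] {r : V → V → Prop} (hs : ∀ a b, r a b → r b a) (hi : ∀ a, ¬ r a a)
    (hl : ∀ W : Finset V, W.Nonempty → ∃ v ∈ W, ∀ x ∈ W, ∀ y ∈ W, r v x → r v y → x = y) :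
    ∀ n, ∀ W : Finset V, W.card = n →
      Nat.fib (n + 2) ≤ I r W ∧ (I r W = Nat.fib (n + 2) → PathOn r W) := by
  intro n
  induction n using Nat.strong_induction_on with
  | _ n ih =>
  intro W hW
  rcases W.eq_empty_or_nonempty with rfl | hne
  · subst hW
    refine ⟨?_, fun _ => ⟨fun _ => Classical.arbitrary V, by simp, by simp, by simp⟩⟩
    rw [I_free (by simp)]
    simp
  obtain ⟨v, hv, hleaf⟩ := hl W hne
  obtain ⟨U, hvU, rfl⟩ : ∃ U, v ∉ U ∧ W = insert v U :=
    ⟨W.erase v, notMem_erase _ _, (insert_erase hv).symm⟩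
  rw [card_insert_of_notMem hvU] at hW
  subst hW
  rw [I_insert hs hi hvU]
  obtain ⟨a1, a2⟩ := ih U.card (by omega) U rfl
  have hf : Nat.fib (U.card + 1 + 2) = Nat.fib (U.card + 1) + Nat.fib (U.card + 2) :=
    Nat.fib_add_two
  by_cases hn : ∃ u ∈ U, r v u
  · obtain ⟨u, hu, hvu⟩ := hn
    have h4 : ∀ x ∈ U, r v x ↔ x = u := fun x hx =>
      ⟨fun h => hleaf x (mem_insert_of_mem hx) u (mem_insert_of_mem hu) h hvu, fun h => h ▸ hvu⟩
    have hF : F r v U = U.erase u := by
      ext x
      rw [mem_F, mem_erase]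
      constructor
      · rintro ⟨a, b⟩
        exact ⟨fun h => b ((h4 x a).2 h), a⟩
      · rintro ⟨a, b⟩
        exact ⟨b, fun h => a ((h4 x b).1 h)⟩
    have hc : (U.erase u).card + 1 = U.card := card_erase_add_one hu
    obtain ⟨b1, b2⟩ := ih (U.erase u).card (by omega) (U.erase u) rfl
    rw [show (U.erase u).card + 2 = U.card + 1 by omega] at b1 b2
    rw [hF]
    refine ⟨by omega, fun heq => ?_⟩
    obtain ⟨e, h1, h2, h3⟩ := a2 (by omega)
    obtain ⟨k, hk, rfl⟩ := onto h1 h2 u hu
    rcases endpoint h1 h2 h3 hk (b2 (by omega)) with rfl | hk'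
    · exact extend hs hi hvU h1 h2 h3 h4
    · refine extend hs hi hvU (e := fun i => e (U.card - 1 - i)) (fun i hi => h1 _ (by omega))
        (fun i hi j hj h => ?_) (fun i hi j hj => ?_) ?_
      · have := h2 _ (by omega) _ (by omega) h
        omega
      · rw [h3 _ (by omega) _ (by omega)]
        omega
      · rw [show U.card - 1 - 0 = k by omega]
        exact h4
  · have hF : F r v U = U := by
      ext x
      rw [mem_F]
      exact ⟨fun h => h.1, fun h => ⟨h, fun h' => hn ⟨x, h, h'⟩⟩⟩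
    rw [hF]
    have hm : Nat.fib (U.card + 1) ≤ Nat.fib (U.card + 2) := Nat.fib_le_fib_succ
    refine ⟨by omega, fun heq => ?_⟩
    have h0 : U.card = 0 := by
      by_contra h0
      have : Nat.fib (U.card + 1) < Nat.fib (U.card + 1 + 1) := Nat.fib_lt_fib_succ (by omega)
      have e : U.card + 1 + 1 = U.card + 2 := rfl
      rw [e] at this
      omega
    refine extend hs hi hvU (e := fun _ => v) (by omega) (by omega) (by omega) ?_
    intro x hx
    rw [card_eq_zero] at h0
    simp [h0] at hx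

theorem I_path (n : ℕ) : I (SimpleGraph.pathGraph n).Adj univ = Nat.fib (n + 2) := by
  set r := (SimpleGraph.pathGraph n).Adj with hr
  have hs : ∀ a b, r a b → r b a := fun _ _ h => h.symm
  have hi : ∀ a, ¬ r a a := fun a => (SimpleGraph.pathGraph n).irrefl
  have key : ∀ k, k ≤ n → I r (univ.filter (fun i : Fin n => i.1 < k)) = Nat.fib (k + 2) := by
    intro k
    induction k using Nat.strong_induction_on with
    | _ k ih =>
    intro hk
    rcases k with _ | k
    · rw [I_free (by simp)]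
      simp
    have e1 : univ.filter (fun i : Fin n => i.1 < k + 1)
        = insert (⟨k, hk⟩ : Fin n) (univ.filter (fun i : Fin n => i.1 < k)) := by
      ext i
      simp only [mem_filter, mem_univ, true_and, mem_insert, Fin.ext_iff]
      omega
    have e2 : F r (⟨k, hk⟩ : Fin n) (univ.filter (fun i : Fin n => i.1 < k))
        = univ.filter (fun i : Fin n => i.1 < k - 1) := by
      ext i
      simp only [mem_F, mem_filter, mem_univ, true_and, hr, SimpleGraph.pathGraph_adj]
      omega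
    rw [e1, I_insert hs hi (by simp), e2, ih k (by omega) (by omega), ih (k - 1) (by omega) (by omega)]
    rcases k with _ | k
    · rfl
    · rw [Nat.add_sub_cancel, add_comm]
      exact Nat.fib_add_two.symm
  have := key n le_rfl
  rwa [filter_true_of_mem (fun i _ => i.2)] at this

theorem tree_cases {n : ℕ} (T : SimpleGraph (Fin n)) (hT : T.IsTree) :
    I (SimpleGraph.pathGraph n).Adj univ < I T.Adj univ ∨
      Nonempty (SimpleGraph.pathGraph n ≃g T) := by
  have : Nonempty (Fin n) := hT.connected.nonempty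
  obtain ⟨h1, h2⟩ := pt (r := T.Adj) (fun _ _ h => h.symm) (fun _ => T.irrefl)
    (leaf T hT.isAcyclic) n univ (by simp)
  rw [I_path]
  rcases h1.lt_or_eq with h | h
  · exact Or.inl h
  right
  obtain ⟨e, _, g2, g3⟩ := h2 h.symm
  simp only [card_univ, Fintype.card_fin] at g2 g3
  have hinj : Function.Injective (fun i : Fin n => e i.1) :=
    fun i j h => Fin.ext (g2 _ i.2 _ j.2 h)
  refine ⟨⟨Equiv.ofBijective _ (Finite.injective_iff_bijective.1 hinj), ?_⟩⟩
  intro a b
  rw [SimpleGraph.pathGraph_adj]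
  exact g3 _ a.2 _ b.2

end Pool.Agent.H12.HL
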