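import Pool.Agent.H12.HL1

set_option autoImplicit false
open Finset

namespace Pool.Agent.H12.HL

open Pool.Agent.H12.IndCount

noncomputable def hom {A V : Type} (G : SimpleGraph A) (R : V → V → Prop) : ℕ :=
  Nat.card {f : A → V // ∀ u v, G.Adj u v → R (f u) (f v)}

theorem hom_iso {A B V : Type} {G : SimpleGraph A} {H : SimpleGraph B} (e : G ≃g H)
    (R : V → V → Prop) : hom G R = hom H R := by
  refine Nat.card_congr
    { toFun := fun f => ⟨f.1 ∘ e.symm, fun u v h => f.2 _ _ (e.symm.map_rel_iff.2 h)⟩
      invFun := fun f => ⟨f.1 ∘ e, fun u v h => f.2 _ _ (e.map_rel_iff.2 h)⟩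
      left_inv := fun f => Subtype.ext (by funext x; simp)
      right_inv := fun f => Subtype.ext (by funext x; simp) }

theorem hom_prod {A V W : Type} (G : SimpleGraph A) (R : V → V → Prop) (S : W → W → Prop) :
    hom G (fun a b : V × W => R a.1 b.1 ∧ S a.2 b.2) = hom G R * hom G S := by
  unfold hom
  rw [← Nat.card_prod]
  refine Nat.card_congr
    { toFun := fun f => (⟨fun x => (f.1 x).1, fun u v h => (f.2 u v h).1⟩,
        ⟨fun x => (f.1 x).2, fun u v h => (f.2 u v h).2⟩)
      invFun := fun f => ⟨fun x => (f.1.1 x, f.2.1 x), fun u v h => ⟨f.1.2 u v h, f.2.2 u v h⟩⟩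
      left_inv := fun f => rfl
      right_inv := fun f => rfl }

theorem hom_true {n N : ℕ} (G : SimpleGraph (Fin n)) :
    hom G (fun _ _ : Fin N => True) = N ^ n := by
  unfold hom
  rw [Nat.card_congr (Equiv.subtypeUnivEquiv (fun _ _ _ _ => trivial))]
  simp

theorem const_of {A C : Type} {G : SimpleGraph A} (hG : G.Connected) (c : A → C)
    (h : ∀ u v, G.Adj u v → c u = c v) (u v : A) : c u = c v := by
  obtain ⟨w⟩ := hG.preconnected u v
  induction w with
  | nil => rfl
  | cons a _ ih => exact (h _ _ a).trans ih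

theorem hom_eq {A : Type} {m : ℕ} {G : SimpleGraph A} (hG : G.Connected) :
    hom G (fun a b : Fin m => a = b) = m := by
  obtain ⟨x⟩ := hG.nonempty
  unfold hom
  rw [Nat.card_congr
    { toFun := fun f => f.1 x
      invFun := fun a => ⟨fun _ => a, fun _ _ _ => rfl⟩
      left_inv := fun f => Subtype.ext (funext fun y => const_of hG f.1 f.2 x y)
      right_inv := fun _ => rfl }]
  simp

theorem hom_sum {A V W : Type} [Finite A] [Finite V] [Finite W] {G : SimpleGraph A}
    (hG : G.Connected) (R : V → V → Prop) (S : W → W → Prop) :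
    hom G (Sum.LiftRel R S) = hom G R + hom G S := by
  obtain ⟨x⟩ := hG.nonempty
  unfold hom
  rw [← Nat.card_sum]
  symm
  refine Nat.card_eq_of_bijective (Sum.elim
    (fun f => ⟨Sum.inl ∘ f.1, fun u v h => .inl (f.2 u v h)⟩)
    (fun f => ⟨Sum.inr ∘ f.1, fun u v h => .inr (f.2 u v h)⟩)) ⟨?_, ?_⟩
  · rintro (f | f) (g | g) h
    · have := congrArg Subtype.val h
      exact congrArg _ (Subtype.ext (funext fun y => Sum.inl_injective (congrFun this y)))
    · have := congrFun (congrArg Subtype.val h) x
      simp at this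
    · have := congrFun (congrArg Subtype.val h) x
      simp at this
    · have := congrArg Subtype.val h
      exact congrArg _ (Subtype.ext (funext fun y => Sum.inr_injective (congrFun this y)))
  · rintro ⟨f, hf⟩
    have hc := const_of hG (fun u => (f u).isLeft) (fun u v h => by
      have := hf u v h
      generalize f u = a at *
      generalize f v = b at *
      cases this <;> rfl) x
    rcases hx : f x with a | a
    · have h1 : ∀ y, ∃ b, f y = .inl b := fun y => by
        have := hc y
        simp only [hx, Sum.isLeft_inl] at this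
        exact Sum.isLeft_iff.1 this.symm
      choose g hg using h1
      refine ⟨.inl ⟨g, fun u v h => ?_⟩, Subtype.ext (funext fun y => (hg y).symm)⟩
      have := hf u v h
      rw [hg, hg] at this
      exact Sum.liftRel_inl_inl.1 this
    · have h1 : ∀ y, ∃ b, f y = .inr b := fun y => by
        have := hc y
        simp only [hx, Sum.isLeft_inr] at this
        rcases hy : f y with b | b
        · simp [hy] at this
        · exact ⟨b, rfl⟩
      choose g hg using h1
      refine ⟨.inr ⟨g, fun u v h => ?_⟩, Subtype.ext (funext fun y => (hg y).symm)⟩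
      have := hf u v h
      rw [hg, hg] at this
      exact Sum.liftRel_inr_inr.1 this

def hc (a b : Bool) : Prop := ¬ (a = true ∧ b = true)

theorem hom_hc {n : ℕ} (G : SimpleGraph (Fin n)) : hom G hc = I G.Adj univ := by
  classical
  unfold hom I
  rw [← Nat.card_eq_finsetCard]
  refine Nat.card_congr
    { toFun := fun f => ⟨univ.filter (fun x => f.1 x = true), by
        simp only [mem_filter, mem_powerset, subset_univ, true_and, Ind, mem_univ]
        exact fun a ha b hb h => f.2 a b h ⟨ha, hb⟩⟩
      invFun := fun s => ⟨fun x => decide (x ∈ s.1), fun u v h h' => by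
        have := (mem_filter.1 s.2).2
        simp only [decide_eq_true_eq] at h'
        exact this u h'.1 v h'.2 h⟩
      left_inv := fun f => Subtype.ext (by funext x; simp)
      right_inv := fun s => Subtype.ext (by ext x; simp) }

theorem hom_le {n k : ℕ} (G : SimpleGraph (Fin n)) (R : Fin k → Fin k → Prop) :
    hom G R ≤ k ^ n := by
  unfold hom
  refine (Nat.card_le_card_of_injective Subtype.val Subtype.val_injective).trans ?_
  simp

theorem hom_sum_ind {n : ℕ} {V : Type} [Fintype V] (G : SimpleGraph (Fin n)) (R : V → V → Prop)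
    (g : (Fin n → V) → ℕ) (h1 : ∀ f, (∀ u v, G.Adj u v → R (f u) (f v)) → g f = 1)
    (h0 : ∀ f, ¬ (∀ u v, G.Adj u v → R (f u) (f v)) → g f = 0) : hom G R = ∑ f, g f := by
  classical
  unfold hom
  rw [Nat.card_eq_fintype_card, Fintype.card_subtype, card_filter]
  refine sum_congr rfl (fun f _ => ?_)
  split_ifs with h
  · exact (h1 f h).symm
  · exact (h0 f h).symm

theorem sum_cons {n : ℕ} {V : Type} [Fintype V] (g : (Fin (n + 1) → V) → ℕ) :
    ∑ f, g f = ∑ a, ∑ f : Fin n → V, g (Fin.cons a f) := by
  rw [← Fintype.sum_prod_type', ← (Fin.consEquiv (fun _ => V)).sum_comp]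
  rfl

theorem sum7 {V : Type} [Fintype V] (g : V → V → V → V → V → V → V → ℕ) :
    ∑ f : Fin 7 → V, g (f 0) (f 1) (f 2) (f 3) (f 4) (f 5) (f 6)
      = ∑ a, ∑ b, ∑ c, ∑ d, ∑ e, ∑ x, ∑ y, g a b c d e x y := by
  simp only [sum_cons, Fintype.sum_unique]
  rfl

end Pool.Agent.H12.HL
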