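import Pool.Agent.H12.HL2

set_option autoImplicit false
open Finset

namespace Pool.Agent.H12.HL

def r0 (x y : ℕ) : Bool :=
  (x < 2 && 5 ≤ y && y ≤ 27) || (x < 2 && y == x + 2) || (2 ≤ x && x ≤ 3 && y == 4) ||
    (x == 4 && 28 ≤ y)

def R2 (a b : Fin 55) : Prop := (r0 a.1 b.1 || r0 b.1 a.1) = true

theorem R2_symm (a b : Fin 55) (h : R2 a b) : R2 b a := by
  unfold R2 at h ⊢
  rwa [Bool.or_comm]

def A (a b : Fin 55) : ℕ := if (r0 a.1 b.1 || r0 b.1 a.1) = true then 1 else 0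

theorem A1 {a b : Fin 55} (h : R2 a b) : A a b = 1 := if_pos h
theorem A0 {a b : Fin 55} (h : ¬ R2 a b) : A a b = 0 := if_neg h

def tb (p q r s t : ℕ) (a : Fin 55) : ℕ :=
  if a.1 < 2 then p else if a.1 < 4 then q else if a.1 < 5 then r else if a.1 < 28 then s else t

def w1 : Fin 55 → ℕ := tb 24 2 29 2 1
def w2 : Fin 55 → ℕ := tb 48 53 31 48 29
def w3 : Fin 55 → ℕ := tb 1157 79 889 96 31
def w4 : Fin 55 → ℕ := tb 2287 2046 995 2314 889
def w5 : Fin 55 → ℕ := tb 55268 3282 28095 4574 995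
def w6 : Fin 55 → ℕ := tb 108484 83363 33429 110536 28095

theorem s1 : ∀ a, ∑ b, A a b = w1 a := by decide +kernel
theorem s2 : ∀ a, ∑ b, A a b * w1 b = w2 a := by decide +kernel
theorem s3 : ∀ a, ∑ b, A a b * w2 b = w3 a := by decide +kernel
theorem s4 : ∀ a, ∑ b, A a b * w3 b = w4 a := by decide +kernel
theorem s5 : ∀ a, ∑ b, A a b * w4 b = w5 a := by decide +kernel
theorem s6 : ∀ a, ∑ b, A a b * w5 b = w6 a := by decide +kernel
theorem s7 : ∑ a, w6 a = 3718016 := by decide +kernel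
theorem s8 : ∑ a, w3 a * w2 a * w1 a = 3717928 := by decide +kernel

theorem hom_path : hom (SimpleGraph.pathGraph 7) R2 = 3718016 := by
  rw [hom_sum_ind _ _ (fun f => A (f 0) (f 1) * (A (f 1) (f 2) * (A (f 2) (f 3) * (A (f 3) (f 4) *
    (A (f 4) (f 5) * A (f 5) (f 6))))))]
  · rw [sum7 (fun a b c d e x y => A a b * (A b c * (A c d * (A d e * (A e x * A x y)))))]
    simp only [← mul_sum, s1, s2, s3, s4, s5, s6, s7]
  · intro f h
    rw [A1 (h 0 1 (by simp [SimpleGraph.pathGraph_adj])),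
      A1 (h 1 2 (by simp [SimpleGraph.pathGraph_adj])),
      A1 (h 2 3 (by simp [SimpleGraph.pathGraph_adj])),
      A1 (h 3 4 (by simp [SimpleGraph.pathGraph_adj])),
      A1 (h 4 5 (by simp [SimpleGraph.pathGraph_adj])),
      A1 (h 5 6 (by simp [SimpleGraph.pathGraph_adj]))]
  · intro f h
    by_contra hne
    simp only [mul_eq_zero, not_or] at hne
    obtain ⟨a, b, c, d, e, g⟩ := hne
    have a' : R2 (f 0) (f 1) := by by_contra h'; exact a (A0 h')
    have b' : R2 (f 1) (f 2) := by by_contra h'; exact b (A0 h')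
    have c' : R2 (f 2) (f 3) := by by_contra h'; exact c (A0 h')
    have d' : R2 (f 3) (f 4) := by by_contra h'; exact d (A0 h')
    have e' : R2 (f 4) (f 5) := by by_contra h'; exact e (A0 h')
    have g' : R2 (f 5) (f 6) := by by_contra h'; exact g (A0 h')
    apply h
    intro u v huv
    rw [SimpleGraph.pathGraph_adj] at huv
    fin_cases u <;> fin_cases v <;> simp at huv <;> first | assumption | (apply R2_symm; assumption)

def sp (x y : Fin 7) : Prop :=
  (x = 0 ∧ y = 1) ∨ (x = 0 ∧ y = 2) ∨ (x = 2 ∧ y = 3) ∨ (x = 0 ∧ y = 4) ∨ (x = 4 ∧ y = 5) ∨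
    (x = 5 ∧ y = 6)

instance : DecidableRel sp := fun _ _ => by unfold sp; infer_instance

def E7 : SimpleGraph (Fin 7) where
  Adj x y := sp x y ∨ sp y x
  symm := ⟨fun _ _ h => h.symm⟩
  loopless := ⟨by decide⟩

instance : DecidableRel E7.Adj := fun x y => inferInstanceAs (Decidable (sp x y ∨ sp y x))

theorem E7_tree : E7.IsTree := by
  rw [SimpleGraph.isTree_iff_connected_and_card]
  refine ⟨by decide +kernel, ?_⟩
  rw [Nat.card_eq_fintype_card, Nat.card_eq_fintype_card]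
  decide +kernel

theorem hom_E7 : hom E7 R2 = 3717928 := by
  rw [hom_sum_ind _ _ (fun f => A (f 0) (f 1) * (A (f 0) (f 2) * (A (f 2) (f 3) * (A (f 0) (f 4) *
    (A (f 4) (f 5) * A (f 5) (f 6))))))]
  · rw [sum7 (fun a b c d e x y => A a b * (A a c * (A c d * (A a e * (A e x * A x y)))))]
    simp only [← mul_sum, s1, s2, s3]
    simp only [← sum_mul, s1]
    have : ∀ a c, A a c * (w1 c * w3 a) = w3 a * (A a c * w1 c) := fun a c => by ring
    simp only [this, ← mul_sum, s2]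
    rw [← s8]
    exact sum_congr rfl (fun a _ => by ring)
  · intro f h
    rw [A1 (h 0 1 (by decide)), A1 (h 0 2 (by decide)), A1 (h 2 3 (by decide)),
      A1 (h 0 4 (by decide)), A1 (h 4 5 (by decide)), A1 (h 5 6 (by decide))]
  · intro f h
    by_contra hne
    simp only [mul_eq_zero, not_or] at hne
    obtain ⟨a, b, c, d, e, g⟩ := hne
    have a' : R2 (f 0) (f 1) := by by_contra h'; exact a (A0 h')
    have b' : R2 (f 0) (f 2) := by by_contra h'; exact b (A0 h')
    have c' : R2 (f 2) (f 3) := by by_contra h'; exact c (A0 h')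
    have d' : R2 (f 0) (f 4) := by by_contra h'; exact d (A0 h')
    have e' : R2 (f 4) (f 5) := by by_contra h'; exact e (A0 h')
    have g' : R2 (f 5) (f 6) := by by_contra h'; exact g (A0 h')
    apply h
    have key : ∀ u v, sp u v → R2 (f u) (f v) := by
      rintro u v (⟨rfl, rfl⟩ | ⟨rfl, rfl⟩ | ⟨rfl, rfl⟩ | ⟨rfl, rfl⟩ | ⟨rfl, rfl⟩ | ⟨rfl, rfl⟩) <;>
        assumption
    rintro u v (huv | huv)
    · exact key u v huv
    · exact R2_symm _ _ (key v u huv)

def RR (N m : ℕ) : (Bool × Fin N) ⊕ (Fin m × Fin 55) → (Bool × Fin N) ⊕ (Fin m × Fin 55) → Prop :=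
  Sum.LiftRel (fun a b => hc a.1 b.1 ∧ True) (fun a b => a.1 = b.1 ∧ R2 a.2 b.2)

theorem RR_symm (N m : ℕ) : ∀ a b, RR N m a b → RR N m b a := by
  rintro a b (h | h)
  · exact .inl ⟨fun h' => h.1 h'.symm, trivial⟩
  · exact .inr ⟨h.1.symm, R2_symm _ _ h.2⟩

theorem hom_RR {n : ℕ} (N m : ℕ) {G : SimpleGraph (Fin n)} (hG : G.Connected) :
    hom G (RR N m) = IndCount.I G.Adj univ * N ^ n + m * hom G R2 := by
  unfold RR
  rw [hom_sum hG, hom_prod G hc (fun _ _ : Fin N => True),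
    hom_prod G (fun a b : Fin m => a = b) R2, hom_true, hom_eq hG, hom_hc]

theorem small (N m : ℕ) (hm : m = 128 * N ^ 7 + 1) :
    hom E7 (RR N m) < hom (SimpleGraph.pathGraph 7) (RR N m) := by
  rw [hom_RR N m E7_tree.connected, hom_RR N m (SimpleGraph.pathGraph_connected 6), hom_path,
    hom_E7]
  have h1 : IndCount.I E7.Adj univ ≤ 128 := by
    simpa using IndCount.I_le (r := E7.Adj) univ
  have h2 := Nat.mul_le_mul_right (N ^ 7) h1
  omega

theorem large (m n : ℕ) (hn : m ≤ n) (T : SimpleGraph (Fin n)) (hT : T.IsTree) :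
    hom (SimpleGraph.pathGraph n) (RR 110 m) ≤ hom T (RR 110 m) := by
  rcases tree_cases T hT with h | ⟨⟨e⟩⟩
  · have hP : (SimpleGraph.pathGraph n).Connected :=
      haveI := hT.connected.nonempty
      ⟨SimpleGraph.pathGraph_preconnected n⟩
    rw [hom_RR _ m hT.connected, hom_RR _ m hP]
    have h1 := hom_le (SimpleGraph.pathGraph n) R2
    have h2 : m ≤ 2 ^ n := hn.trans Nat.lt_two_pow_self.le
    have h3 : m * hom (SimpleGraph.pathGraph n) R2 ≤ 110 ^ n := by
      rw [show 110 = 2 * 55 from rfl, mul_pow]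
      exact Nat.mul_le_mul h2 h1
    have h4 := Nat.mul_le_mul_right (110 ^ n) (Nat.succ_le_of_lt h)
    rw [Nat.succ_mul] at h4
    omega
  · exact (hom_iso e _).le

end Pool.Agent.H12.HL
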