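import Mathlib

set_option autoImplicit false

namespace Pool.Agent.H12.Hughes9

def tab : List (List (List Nat)) := [
  [[0,1,2,3,4,5,6,7,8], [2,7,4,1,5,6,8,3,0], [3,6,8,5,0,4,7,2,1], [7,4,5,2,3,8,1,0,6], [6,3,0,7,8,2,5,1,4], [5,0,6,8,7,1,3,4,2], [4,8,1,6,2,7,0,5,3], [1,5,3,4,6,0,2,8,7], [8,2,7,0,1,3,4,6,5]],
  [[0,1,2,3,4,5,6,7,8], [4,3,5,7,6,8,0,1,2], [8,4,1,2,7,3,5,0,6], [6,2,3,5,0,7,4,8,1], [2,7,4,1,5,6,8,3,0], [1,5,7,4,8,0,2,6,3], [7,6,8,0,1,2,3,4,5], [5,0,6,8,3,1,7,2,4], [3,8,0,6,2,4,1,5,7]],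
  [[0,1,2,3,4,5,6,7,8], [1,4,8,6,3,2,7,0,5], [6,8,4,1,2,0,3,5,7], [5,6,7,0,8,1,2,4,3], [7,5,3,2,6,4,0,8,1], [8,7,0,5,1,3,4,2,6], [3,0,5,4,7,8,1,6,2], [4,2,1,7,5,6,8,3,0], [2,3,6,8,0,7,5,1,4]],
  [[0,1,2,3,4,5,6,7,8], [5,2,6,0,8,3,1,4,7], [1,0,3,6,5,7,4,8,2], [3,8,0,1,2,4,7,6,5], [4,6,1,8,7,0,2,5,3], [7,3,8,2,0,6,5,1,4], [2,5,4,7,6,1,8,3,0], [8,4,7,5,1,2,3,0,6], [6,7,5,4,3,8,0,2,1]],
  [[0,1,2,3,4,5,6,7,8], [8,5,0,4,1,7,3,2,6], [5,2,6,7,3,1,8,4,0], [2,3,8,6,7,0,5,1,4], [1,8,7,0,2,3,4,6,5], [3,4,5,1,6,2,0,8,7], [6,7,3,8,5,4,2,0,1], [7,6,4,2,0,8,1,5,3], [4,0,1,5,8,6,7,3,2]],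
  [[0,1,2,3,4,5,6,7,8], [3,6,1,5,7,0,2,8,4], [4,7,5,8,1,2,0,6,3], [1,0,4,7,5,6,8,3,2], [5,2,6,4,3,8,1,0,7], [6,8,3,0,2,4,7,5,1], [8,4,7,1,0,3,5,2,6], [2,3,0,6,8,7,4,1,5], [7,5,8,2,6,1,3,4,0]],
  [[0,1,2,3,4,5,6,7,8], [7,0,3,8,2,4,5,6,1], [2,5,7,0,6,8,1,3,4], [8,7,6,4,1,2,3,5,0], [3,4,8,5,0,1,7,2,6], [4,2,1,6,3,7,8,0,5], [5,3,0,2,8,6,4,1,7], [6,8,5,1,7,3,0,4,2], [1,6,4,7,5,0,2,8,3]],
  [[0,1,2,3,4,5,6,7,8], [6,8,7,2,0,1,4,5,3], [7,3,0,4,8,6,2,1,5], [4,5,1,8,6,3,0,2,7], [8,0,5,6,1,7,3,4,2], [2,6,4,7,5,8,1,3,0], [1,2,6,5,3,0,7,8,4], [3,7,8,0,2,4,5,6,1], [5,4,3,1,7,2,8,0,6]]]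

def wit : List (List Nat) := [[0,1,1,5,0,8,1,3], [0,1,1,3,0,6,1,7], [0,1,1,8,0,7,1,0], [0,1,1,7,0,3,1,6], [0,1,1,3,0,2,1,4], [0,1,1,6,0,5,1,2], [0,1,1,3,0,1,2,4], [0,1,1,3,0,4,1,5]]

def L (i : Fin 8) (x y : Fin 9) : Fin 9 := Fin.ofNat 9 (((tab.getD i.val []).getD x.val []).getD y.val 0)

def W (i : Fin 8) (k : Nat) : Fin 9 := Fin.ofNat 9 ((wit.getD i.val []).getD k 0)

theorem rows : ∀ i a y y', L i a y = L i a y' → y = y' := by decide +kernel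

theorem cols : ∀ i a x x', L i x a = L i x' a → x = x' := by decide +kernel

theorem orth : ∀ i j, i ≠ j → ∀ x x', x ≠ x' → ∀ y y', L i x y = L i x' y' → L j x y ≠ L j x' y' := by
  decide +kernel

theorem quad : ∀ i, L i (W i 0) (W i 4) = L i (W i 1) (W i 5) ∧
    L i (W i 0) (W i 6) = L i (W i 1) (W i 7) ∧ L i (W i 2) (W i 4) = L i (W i 3) (W i 5) ∧
    L i (W i 2) (W i 6) ≠ L i (W i 3) (W i 7) := by decide +kernel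

theorem not_group (i : Fin 8) (G : Type) [Group G] (α β γ : Fin 9 ≃ G) :
    ¬ ∀ x y, γ (L i x y) = α x * β y := by
  intro h
  obtain ⟨h1, h2, h3, h4⟩ := quad i
  have e1 := congrArg γ h1
  have e2 := congrArg γ h2
  have e3 := congrArg γ h3
  rw [h, h] at e1 e2 e3
  apply h4
  apply γ.injective
  rw [h, h]
  calc α (W i 2) * β (W i 6)
      = (α (W i 2) * β (W i 4)) * (α (W i 0) * β (W i 4))⁻¹ * (α (W i 0) * β (W i 6)) := by group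
    _ = (α (W i 3) * β (W i 5)) * (α (W i 1) * β (W i 5))⁻¹ * (α (W i 1) * β (W i 7)) := by
      rw [e1, e2, e3]
    _ = α (W i 3) * β (W i 7) := by group

end Pool.Agent.H12.Hughes9
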