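import Mathlib

set_option autoImplicit false

namespace Pool.Agent.H12.HypBox

theorem avoid_int (b x0 x1 x2 x3 : ℤ) (hb : 3 ≤ b) (h3 : b % 3 ≠ 2)
    (h0 : |x0| ≤ b - 1) (h1 : |x1| ≤ b - 1) (h2 : |x2| ≤ b - 1) (h4 : |x3| ≤ b - 1)
    (e : (2 * b - 1) * x0 + b * (2 * b - 1) * x1 + b * (b ^ 2 - b + 1) * x2
      + b * (b ^ 2 - 1) * x3 = 0) : x0 = 0 ∧ x1 = 0 ∧ x2 = 0 ∧ x3 = 0 := by
  obtain ⟨a0, a0'⟩ := abs_le.mp h0
  obtain ⟨a1, a1'⟩ := abs_le.mp h1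
  obtain ⟨a2, a2'⟩ := abs_le.mp h2
  obtain ⟨a3, a3'⟩ := abs_le.mp h4
  have hb0 : b ≠ 0 := by omega
  have hx0 : x0 = 0 := by
    have : x0 = b * (2 * x0 + (2 * b - 1) * x1 + (b ^ 2 - b + 1) * x2 + (b ^ 2 - 1) * x3) := by
      linear_combination (-1 : ℤ) * e
    generalize (2 * x0 + (2 * b - 1) * x1 + (b ^ 2 - b + 1) * x2 + (b ^ 2 - 1) * x3) = q at this
    have q1 : q < 1 := by by_contra hq; nlinarith
    have q2 : -1 < q := by by_contra hq; nlinarith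
    have : q = 0 := by omega
    subst this; simpa using this
  subst hx0
  have e2 : (2 * b - 1) * x1 + (b ^ 2 - b + 1) * x2 + (b ^ 2 - 1) * x3 = 0 := by
    apply mul_left_cancel₀ hb0
    linear_combination e
  obtain ⟨m, hm⟩ : ∃ m : ℤ, m = -(2 * x1 + (b - 1) * x2 + b * x3) := ⟨_, rfl⟩
  have e3 : x2 - x1 - x3 = b * m := by rw [hm]; linear_combination e2
  obtain ⟨w, hw⟩ : ∃ w : ℤ, w = x2 + x3 := ⟨_, rfl⟩
  have e4 : 2 * x1 - x2 + m = -(b * w) := by rw [hm, hw]; ring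
  have m1 : m < 3 := by by_contra hq; nlinarith
  have m2 : -3 < m := by by_contra hq; nlinarith
  have w1 : w < 3 := by by_contra hq; nlinarith
  have w2 : -3 < w := by by_contra hq; nlinarith
  clear hm e e2 h0 h1 h2 h4
  interval_cases m <;> interval_cases w <;> omega

def pts (b : ℤ) : List (Fin 4 → ℤ) :=
  [![0, 0, 0, 0],
   ![0, b, -1, -1], ![0, -b, 1, 1], ![0, -1, b, 1 - b], ![0, 1, -b, b - 1],
   ![0, b - 1, b - 1, -b], ![0, 1 - b, 1 - b, b],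
   ![-b, 1, 0, 0], ![-b, 0, b, 1 - b], ![-b, 2, -b, b - 1], ![-b, b, b - 1, -b],
   ![-b, 1 - b, 1, 1], ![-b, 2 - b, 1 - b, b],
   ![b, -1, 0, 0], ![b, 0, -b, b - 1], ![b, -2, b, 1 - b], ![b, -b, 1 - b, b],
   ![b, b - 1, -1, -1], ![b, b - 2, b - 1, -b]]

theorem pts_nodup (b : ℤ) (hb : 3 ≤ b) : (pts b).Nodup := by
  have key : ∀ x y : Fin 4 → ℤ, x = y ↔ x 0 = y 0 ∧ x 1 = y 1 ∧ x 2 = y 2 ∧ x 3 = y 3 := by
    intro x y
    constructor
    · rintro rfl; simp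
    · rintro ⟨p0, p1, p2, p3⟩
      funext i; fin_cases i <;> assumption
  simp only [pts, List.nodup_cons, List.mem_cons, List.not_mem_nil, key, List.nodup_nil,
    Matrix.cons_val_zero, Matrix.cons_val_one, Matrix.cons_val]
  refine ⟨?_, ?_, ?_, ?_, ?_, ?_, ?_, ?_, ?_, ?_, ?_, ?_, ?_, ?_, ?_, ?_, ?_, ?_, ?_, trivial⟩ <;>
    simp only [or_false, not_or, not_false_eq_true] <;> omega

theorem main (k : ℕ) (hk : 2 ≤ k) (h3 : k % 3 ≠ 1) :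
    ∃ a : Fin 4 → ℝ, a ≠ 0 ∧
      (∀ x : Fin 4 → ℤ, (∀ i, |x i| ≤ (k : ℤ)) → ∑ i, a i * (x i : ℝ) = 0 → x = 0) ∧
      19 ≤ ((Fintype.piFinset fun _ : Fin 4 => Finset.Icc (-((k : ℤ) + 1)) ((k : ℤ) + 1)).filter
              (fun x => ∑ i, a i * (x i : ℝ) = 0)).card := by
  obtain ⟨b, hb⟩ : ∃ b : ℤ, b = (k : ℤ) + 1 := ⟨_, rfl⟩
  have hb3 : 3 ≤ b := by omega
  let c : Fin 4 → ℤ := ![2 * b - 1, b * (2 * b - 1), b * (b ^ 2 - b + 1), b * (b ^ 2 - 1)]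
  have hs : ∀ x : Fin 4 → ℤ, (∑ i, ((c i : ℤ) : ℝ) * (x i : ℝ) = 0) ↔
      (2 * b - 1) * x 0 + b * (2 * b - 1) * x 1 + b * (b ^ 2 - b + 1) * x 2
      + b * (b ^ 2 - 1) * x 3 = 0 := by
    intro x
    have e : (∑ i, ((c i : ℤ) : ℝ) * (x i : ℝ)) = (((2 * b - 1) * x 0 + b * (2 * b - 1) * x 1
        + b * (b ^ 2 - b + 1) * x 2 + b * (b ^ 2 - 1) * x 3 : ℤ) : ℝ) := by
      rw [Fin.sum_univ_four]; simp [c]
    rw [e]; exact Int.cast_eq_zero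
  refine ⟨fun i => ((c i : ℤ) : ℝ), ?_, ?_, ?_⟩
  · intro h0
    have h1 : ((c 0 : ℤ) : ℝ) = 0 := congrFun h0 0
    have h2 : c 0 = 0 := by exact_mod_cast h1
    simp [c] at h2; omega
  · intro x hx he
    have := avoid_int b (x 0) (x 1) (x 2) (x 3) hb3 (by omega) (by have := hx 0; omega)
      (by have := hx 1; omega) (by have := hx 2; omega) (by have := hx 3; omega) ((hs x).mp he)
    obtain ⟨p0, p1, p2, p3⟩ := this
    funext i; fin_cases i <;> assumption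
  · have hcard : (pts b).toFinset.card = 19 := by
      rw [List.toFinset_card_of_nodup (pts_nodup b hb3)]; rfl
    rw [← hcard]
    apply Finset.card_le_card
    intro x hx
    rw [List.mem_toFinset] at hx
    rw [Finset.mem_filter, hs, Fintype.mem_piFinset, ← hb]
    simp only [pts, List.mem_cons, List.not_mem_nil, or_false] at hx
    rcases hx with rfl | rfl | rfl | rfl | rfl | rfl | rfl | rfl | rfl | rfl | rfl | rfl | rfl |
      rfl | rfl | rfl | rfl | rfl | rfl <;>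
    (refine ⟨fun i => ?_, by simp; try ring⟩; fin_cases i <;> simp <;> omega)

theorem p4 : ((1 + Real.sqrt 2) ^ 4 + (1 - Real.sqrt 2) ^ 4) / 2 = 17 := by
  have s2 : Real.sqrt 2 ^ 2 = 2 := Real.sq_sqrt (by norm_num)
  have : ((1 + Real.sqrt 2) ^ 4 + (1 - Real.sqrt 2) ^ 4) / 2
      = 1 + 6 * Real.sqrt 2 ^ 2 + (Real.sqrt 2 ^ 2) ^ 2 := by ring
  rw [this, s2]; norm_num

end Pool.Agent.H12.HypBox
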