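import Mathlib

set_option autoImplicit false
open Finset

namespace Pool.Agent.H12.IndCount

variable {V : Type} [DecidableEq V]

def Ind (r : V → V → Prop) (s : Finset V) : Prop := ∀ a ∈ s, ∀ b ∈ s, ¬ r a b

open Classical in
noncomputable def I (r : V → V → Prop) (W : Finset V) : ℕ :=
  (W.powerset.filter (Ind r)).card

open Classical in
noncomputable def F (r : V → V → Prop) (v : V) (W : Finset V) : Finset V :=
  W.filter (fun x => ¬ r v x)

open Classical in
noncomputable def N (r : V → V → Prop) (v : V) (W : Finset V) : Finset V :=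
  W.filter (fun x => r v x)

variable {r : V → V → Prop}

omit [DecidableEq V] in
theorem mem_F {v x : V} {W : Finset V} : x ∈ F r v W ↔ x ∈ W ∧ ¬ r v x := by
  classical
  unfold F; rw [Finset.mem_filter]

omit [DecidableEq V] in
theorem mem_N {v x : V} {W : Finset V} : x ∈ N r v W ↔ x ∈ W ∧ r v x := by
  classical
  unfold N; rw [Finset.mem_filter]

omit [DecidableEq V] in
theorem F_sub (v : V) (W : Finset V) : F r v W ⊆ W := fun _ h => (mem_F.mp h).1

theorem I_insert (hs : ∀ a b, r a b → r b a) (hi : ∀ a, ¬ r a a) {v : V} {W : Finset V}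
    (hv : v ∉ W) : I r (insert v W) = I r W + I r (F r v W) := by
  classical
  unfold I
  rw [Finset.powerset_insert, Finset.filter_union, Finset.card_union_of_disjoint]
  · congr 1
    rw [Finset.filter_image, Finset.card_image_of_injOn]
    · congr 1
      ext s
      simp only [Finset.mem_filter, Finset.mem_powerset, Ind, Finset.mem_insert]
      constructor
      · rintro ⟨h1, h2⟩
        refine ⟨fun x hx => mem_F.mpr ⟨h1 hx, h2 v (Or.inl rfl) x (Or.inr hx)⟩, ?_⟩
        intro a ha b hb
        exact h2 a (Or.inr ha) b (Or.inr hb)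
      · rintro ⟨h1, h2⟩
        refine ⟨fun x hx => (mem_F.mp (h1 hx)).1, ?_⟩
        rintro a (rfl | ha) b (rfl | hb)
        · exact hi _
        · exact (mem_F.mp (h1 hb)).2
        · exact fun h => (mem_F.mp (h1 ha)).2 (hs _ _ h)
        · exact h2 a ha b hb
    · intro s hs1 t ht1 hst
      have h1 : v ∉ s := fun h => hv (Finset.mem_powerset.mp (Finset.mem_filter.mp hs1).1 h)
      have h2 : v ∉ t := fun h => hv (Finset.mem_powerset.mp (Finset.mem_filter.mp ht1).1 h)
      have : (insert v s).erase v = (insert v t).erase v := by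
        rw [show insert v s = insert v t from hst]
      rwa [Finset.erase_insert h1, Finset.erase_insert h2] at this
  · rw [Finset.disjoint_left]
    intro s h1 h2
    obtain ⟨t, _, rfl⟩ := Finset.mem_image.mp (Finset.mem_filter.mp h2).1
    exact hv (Finset.mem_powerset.mp (Finset.mem_filter.mp h1).1 (Finset.mem_insert_self _ _))

omit [DecidableEq V] in
theorem I_le (W : Finset V) : I r W ≤ 2 ^ W.card := by
  classical
  unfold I
  exact (Finset.card_filter_le _ _).trans (by rw [Finset.card_powerset])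

omit [DecidableEq V] in
theorem I_mono {W U : Finset V} (h : U ⊆ W) : I r U ≤ I r W := by
  classical
  unfold I
  exact Finset.card_le_card (Finset.filter_subset_filter _ (Finset.powerset_mono.mpr h))

omit [DecidableEq V] in
theorem I_free {W : Finset V} (h : ∀ a ∈ W, ∀ b ∈ W, ¬ r a b) : I r W = 2 ^ W.card := by
  classical
  unfold I
  rw [Finset.filter_true_of_mem, Finset.card_powerset]
  intro s hs a ha b hb
  exact h a (Finset.mem_powerset.mp hs ha) b (Finset.mem_powerset.mp hs hb)

theorem I_union (hs : ∀ a b, r a b → r b a) (hi : ∀ a, ¬ r a a) (U D : Finset V)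
    (hd : Disjoint D U) (h : ∀ a ∈ D, ∀ b ∈ D ∪ U, ¬ r a b) :
    I r (D ∪ U) = I r U * 2 ^ D.card := by
  induction D using Finset.induction_on with
  | empty => simp
  | insert v D hv ih =>
    have hvU : v ∉ U := Finset.disjoint_left.mp hd (Finset.mem_insert_self _ _)
    have h1 : v ∉ D ∪ U := by simp [hv, hvU]
    have h2 : F r v (D ∪ U) = D ∪ U := by
      ext x
      rw [mem_F]
      refine ⟨fun h => h.1, fun hx => ⟨hx, h v (Finset.mem_insert_self _ _) x ?_⟩⟩
      rw [Finset.insert_union]; exact Finset.mem_insert_of_mem hx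
    rw [Finset.insert_union, I_insert hs hi h1, h2, ih, Finset.card_insert_of_notMem hv]
    · ring
    · exact Finset.disjoint_of_subset_left (Finset.subset_insert _ _) hd
    · intro a ha b hb
      refine h a (Finset.mem_insert_of_mem ha) b ?_
      rw [Finset.insert_union]; exact Finset.mem_insert_of_mem hb

theorem I_form (hs : ∀ a b, r a b → r b a) (hi : ∀ a, ¬ r a a) (W Z : Finset V) (L : ℕ)
    (hZ : Z.card ≤ L) (h : ∀ a ∈ W, ∀ b ∈ W, r a b → a ∈ Z) :
    ∃ A f : ℕ, A ≤ 2 ^ L ∧ I r W = A * 2 ^ f ∧ W.card ≤ f + L := by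
  have e : W = (W \ Z) ∪ (W ∩ Z) := by rw [Finset.sdiff_union_inter]
  have hc : (W ∩ Z).card ≤ L := (Finset.card_le_card Finset.inter_subset_right).trans hZ
  refine ⟨I r (W ∩ Z), (W \ Z).card, (I_le _).trans (Nat.pow_le_pow_right (by norm_num) hc), ?_, ?_⟩
  · conv_lhs => rw [e]
    apply I_union hs hi
    · exact Finset.disjoint_sdiff_inter _ _
    · intro a ha b hb hr
      rw [← e] at hb
      exact (Finset.mem_sdiff.mp ha).2 (h a (Finset.mem_sdiff.mp ha).1 b hb hr)
  · have := Finset.card_sdiff_add_card_inter W Z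
    omega

theorem I_edge (hs : ∀ a b, r a b → r b a) (hi : ∀ a, ¬ r a a) {W : Finset V} {a b : V}
    (ha : a ∈ W) (hb : b ∈ W) (hab : r a b) :
    ∃ U : Finset V, U.card + 2 = W.card ∧ I r W ≤ 3 * I r U ∧ W = insert a (insert b U) := by
  have hne : b ≠ a := fun h => hi a (by rw [h] at hab; exact hab)
  have hb' : b ∈ W.erase a := Finset.mem_erase.mpr ⟨hne, hb⟩
  have e1 : W = insert a (W.erase a) := (Finset.insert_erase ha).symm
  have e2 : W.erase a = insert b ((W.erase a).erase b) := (Finset.insert_erase hb').symm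
  refine ⟨(W.erase a).erase b, ?_, ?_, by rw [← e2, ← e1]⟩
  · have := Finset.card_erase_add_one ha
    have := Finset.card_erase_add_one hb'
    omega
  · have h1 := I_insert hs hi (Finset.notMem_erase a W)
    have h2 := I_insert hs hi (Finset.notMem_erase b (W.erase a))
    rw [← e1] at h1
    rw [← e2] at h2
    have h3 : I r (F r b ((W.erase a).erase b)) ≤ I r ((W.erase a).erase b) := I_mono (F_sub _ _)
    have h4 : I r (F r a (W.erase a)) ≤ I r ((W.erase a).erase b) := by
      apply I_mono
      intro x hx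
      refine Finset.mem_erase.mpr ⟨?_, (mem_F.mp hx).1⟩
      rintro rfl
      exact (mem_F.mp hx).2 hab
    omega

theorem cover (hs : ∀ a b, r a b → r b a) (hi : ∀ a, ¬ r a a) (m : ℕ) :
    ∀ W : Finset V, 3 ^ m * 2 ^ W.card < 4 ^ m * I r W →
      ∃ C : Finset V, C ⊆ W ∧ C.card + 2 ≤ 2 * m ∧ ∀ a ∈ W, ∀ b ∈ W, r a b → a ∈ C ∨ b ∈ C := by
  induction m with
  | zero =>
    intro W h
    have := I_le (r := r) W
    simp at h; omega
  | succ m ih =>
    intro W h
    by_cases he : ∃ a ∈ W, ∃ b ∈ W, r a b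
    · obtain ⟨a, ha, b, hb, hab⟩ := he
      obtain ⟨U, hU, hI, hW⟩ := I_edge hs hi ha hb hab
      have h1 : 3 ^ m * 2 ^ U.card < 4 ^ m * I r U := by
        rw [← hU] at h
        have e1 : 3 ^ (m + 1) * 2 ^ (U.card + 2) = 12 * (3 ^ m * 2 ^ U.card) := by ring
        have e2 : 4 ^ (m + 1) * I r W ≤ 12 * (4 ^ m * I r U) := by
          calc 4 ^ (m + 1) * I r W ≤ 4 ^ (m + 1) * (3 * I r U) := Nat.mul_le_mul_left _ hI
            _ = 12 * (4 ^ m * I r U) := by ring
        omega
      obtain ⟨C, hC, hc, hcov⟩ := ih U h1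
      refine ⟨insert a (insert b C), ?_, ?_, ?_⟩
      · rw [hW]; exact Finset.insert_subset_insert _ (Finset.insert_subset_insert _ hC)
      · have := Finset.card_insert_le a (insert b C)
        have := Finset.card_insert_le b C
        omega
      · intro x hx y hy hxy
        rw [hW] at hx hy
        simp only [Finset.mem_insert] at hx hy ⊢
        rcases hx with rfl | rfl | hx
        · tauto
        · tauto
        · rcases hy with rfl | rfl | hy
          · tauto
          · tauto
          · have := hcov x hx y hy hxy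
            tauto
    · refine ⟨∅, Finset.empty_subset _, by simp, ?_⟩
      intro a ha b hb hab
      exact absurd ⟨a, ha, b, hb, hab⟩ he

theorem small (hs : ∀ a b, r a b → r b a) (hi : ∀ a, ¬ r a a) (W : Finset V) (T : ℕ)
    (h : 2 ^ W.card < 8 * I r W) (hT : ∀ v ∈ W, (N r v W).card < T) :
    ∃ Z : Finset V, Z.card ≤ 14 * T ∧ ∀ a ∈ W, ∀ b ∈ W, r a b → a ∈ Z := by
  obtain ⟨C, hC, hc, hcov⟩ := cover hs hi 8 W (by norm_num; omega)
  refine ⟨C.biUnion (fun v => insert v (N r v W)), ?_, ?_⟩
  · refine Finset.card_biUnion_le.trans ?_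
    have : ∑ v ∈ C, (insert v (N r v W)).card ≤ C.card • T := by
      apply Finset.sum_le_card_nsmul
      intro v hv
      have := Finset.card_insert_le v (N r v W)
      have := hT v (hC hv)
      omega
    rw [smul_eq_mul] at this
    exact this.trans (Nat.mul_le_mul_right _ (by omega))
  · intro a ha b hb hab
    rw [Finset.mem_biUnion]
    rcases hcov a ha b hb hab with h1 | h1
    · exact ⟨a, h1, Finset.mem_insert_self _ _⟩
    · exact ⟨b, h1, Finset.mem_insert_of_mem (mem_N.mpr ⟨ha, hs _ _ hab⟩)⟩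

theorem peel (hi : ∀ a, ¬ r a a) (W : Finset V) (T : ℕ)
    (hT : ¬ ∀ v ∈ W, (N r v W).card < T) :
    ∃ v : V, ∃ U : Finset V, v ∉ U ∧ W = insert v U ∧ U.card + 1 = W.card ∧
      (F r v U).card + T ≤ U.card := by
  push Not at hT
  obtain ⟨v, hv, h⟩ := hT
  refine ⟨v, W.erase v, Finset.notMem_erase _ _, (Finset.insert_erase hv).symm,
    Finset.card_erase_add_one hv, ?_⟩
  have hd : Disjoint (F r v (W.erase v)) (N r v W) := by
    rw [Finset.disjoint_left]
    intro x h1 h2
    exact (mem_F.mp h1).2 (mem_N.mp h2).2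
  have hsub : F r v (W.erase v) ∪ N r v W ⊆ W.erase v := by
    intro x hx
    rcases Finset.mem_union.mp hx with h1 | h1
    · exact (mem_F.mp h1).1
    · refine Finset.mem_erase.mpr ⟨?_, (mem_N.mp h1).1⟩
      rintro rfl
      exact hi _ (mem_N.mp h1).2
  have := Finset.card_le_card hsub
  rw [Finset.card_union_of_disjoint hd] at this
  omega

theorem cluster {ι : Type} [Nonempty ι] (s : Finset ι) (A f : ι → ℕ) (hs : s.card ≤ 7)
    (hA : ∀ i ∈ s, A i ≤ 2 ^ 56) (h : ℕ) (hh : 472 ≤ h) :
    ∃ c, h ≤ c + 413 ∧ c ≤ h ∧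
      ∑ i ∈ s.filter (fun i => f i < c), A i * 2 ^ f i = (∑ i ∈ s, A i * 2 ^ f i) % 2 ^ c := by
  classical
  have ex : ∃ j < 8, ∀ i ∈ s, ¬ (h ≤ f i + 59 * (j + 1) ∧ f i + 59 * j < h) := by
    by_contra hc
    push Not at hc
    choose! g hg using hc
    have : (Finset.range 8).card ≤ s.card := by
      apply Finset.card_le_card_of_injOn g
      · intro j hj
        exact (hg j (by simpa using hj)).1
      · intro j hj k hk hjk
        have h1 := (hg j (by simpa using hj)).2
        have h2 := (hg k (by simpa using hk)).2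
        rw [hjk] at h1
        omega
    simp at this; omega
  obtain ⟨j, hj, hw⟩ := ex
  obtain ⟨c, hc⟩ : ∃ c, h = c + 4 + 59 * j := ⟨h - 4 - 59 * j, by omega⟩
  refine ⟨c + 4, by omega, by omega, ?_⟩
  rw [← Finset.sum_filter_add_sum_filter_not s (fun i => f i < c + 4)]
  have h1 : ∑ i ∈ s.filter (fun i => f i < c + 4), A i * 2 ^ f i < 2 ^ (c + 4) := by
    have : ∑ i ∈ s.filter (fun i => f i < c + 4), A i * 2 ^ f i
        ≤ (s.filter (fun i => f i < c + 4)).card • 2 ^ c := by
      apply Finset.sum_le_card_nsmul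
      intro i hi
      obtain ⟨hi1, hi2⟩ := Finset.mem_filter.mp hi
      have := hw i hi1
      calc A i * 2 ^ f i ≤ 2 ^ 56 * 2 ^ f i := Nat.mul_le_mul_right _ (hA i hi1)
        _ = 2 ^ (56 + f i) := by rw [pow_add]
        _ ≤ 2 ^ c := Nat.pow_le_pow_right (by norm_num) (by omega)
    have h2 := Finset.card_filter_le s (fun i => f i < c + 4)
    rw [smul_eq_mul] at this
    have h3 : (s.filter (fun i => f i < c + 4)).card * 2 ^ c ≤ 7 * 2 ^ c :=
      Nat.mul_le_mul_right _ (by omega)
    have h4 : 0 < 2 ^ c := by positivity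
    rw [pow_add]; omega
  have h2 : 2 ^ (c + 4) ∣ ∑ i ∈ s.filter (fun i => ¬ f i < c + 4), A i * 2 ^ f i := by
    apply Finset.dvd_sum
    intro i hi
    have := (Finset.mem_filter.mp hi).2
    exact Dvd.dvd.mul_left (Nat.pow_dvd_pow _ (by omega)) _
  obtain ⟨q, hq⟩ := h2
  rw [hq, Nat.add_mul_mod_self_left, Nat.mod_eq_of_lt h1]

end Pool.Agent.H12.IndCount
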