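import Pool.Agent.H12.IndCount

set_option autoImplicit false
open Finset

namespace Pool.Agent.H12.IndCount

theorem mod_cut (H low hi lo c : ℕ) (h1 : 2 ^ hi ∣ H) (h2 : low < 2 ^ lo) (h3 : lo ≤ c)
    (h4 : c ≤ hi) : (H + low) % 2 ^ c = low := by
  obtain ⟨q, hq⟩ := (Nat.pow_dvd_pow 2 h4).trans h1
  rw [hq, Nat.mul_add_mod, Nat.mod_eq_of_lt (h2.trans_le (Nat.pow_le_pow_right (by norm_num) h3))]

def K1 : ℕ := 1
def K2 : ℕ := 2 ^ 4200 + 1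
def K3 : ℕ := 2 ^ 4800 + 2 ^ 4200 + 1
def K4 : ℕ := 2 ^ 5400 + 2 ^ 4800 + 2 ^ 4200 + 1
def K : ℕ := 2 ^ 6000 + 2 ^ 5400 + 2 ^ 4800 + 2 ^ 4200 + 1
def M : ℕ := 2 ^ 12000

theorem cut_gen (low hi lo c : ℕ) (h0 : low ≤ K) (h1 : (K - low) % 2 ^ hi = 0) (h2 : low < 2 ^ lo)
    (h3 : lo ≤ c) (h4 : c ≤ hi) : K % 2 ^ c = low := by
  have := mod_cut (K - low) low hi lo c (Nat.dvd_of_mod_eq_zero h1) h2 h3 h4
  rwa [Nat.sub_add_cancel h0] at this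

theorem cut1 (c : ℕ) (h3 : 1 ≤ c) (h4 : c ≤ 4200) : K % 2 ^ c = 1 :=
  cut_gen 1 4200 1 c (by decide +kernel) (by decide +kernel) (by decide +kernel) h3 h4
theorem cut2 (c : ℕ) (h3 : 4201 ≤ c) (h4 : c ≤ 4800) : K % 2 ^ c = K2 :=
  cut_gen K2 4800 4201 c (by decide +kernel) (by decide +kernel) (by decide +kernel) h3 h4
theorem cut3 (c : ℕ) (h3 : 4801 ≤ c) (h4 : c ≤ 5400) : K % 2 ^ c = K3 :=
  cut_gen K3 5400 4801 c (by decide +kernel) (by decide +kernel) (by decide +kernel) h3 h4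
theorem cut4 (c : ℕ) (h3 : 5401 ≤ c) (h4 : c ≤ 6000) : K % 2 ^ c = K4 :=
  cut_gen K4 6000 5401 c (by decide +kernel) (by decide +kernel) (by decide +kernel) h3 h4

theorem five {ι : Type} [Nonempty ι] (s : Finset ι) (A f : ι → ℕ) (hs : s.card ≤ 4)
    (hA : ∀ i ∈ s, A i ≤ 2 ^ 56) (h : ∑ i ∈ s, A i * 2 ^ f i = K) : False := by
  classical
  obtain ⟨c1, a1, b1, e1⟩ := cluster s A f (by omega) hA 4200 (by norm_num)
  obtain ⟨c2, a2, b2, e2⟩ := cluster s A f (by omega) hA 4800 (by norm_num)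
  obtain ⟨c3, a3, b3, e3⟩ := cluster s A f (by omega) hA 5400 (by norm_num)
  obtain ⟨c4, a4, b4, e4⟩ := cluster s A f (by omega) hA 6000 (by norm_num)
  rw [h] at e1 e2 e3 e4
  rw [cut1 c1 (by omega) (by omega)] at e1
  rw [cut2 c2 (by omega) (by omega)] at e2
  rw [cut3 c3 (by omega) (by omega)] at e3
  rw [cut4 c4 (by omega) (by omega)] at e4
  have step : ∀ (u v : Finset ι) (x y : ℕ), u ⊆ v → ∑ i ∈ u, A i * 2 ^ f i = x →
      ∑ i ∈ v, A i * 2 ^ f i = y → x ≠ y → u.card < v.card := by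
    intro u v x y huv hx hy hxy
    apply Finset.card_lt_card
    refine Finset.ssubset_iff_subset_ne.mpr ⟨huv, ?_⟩
    rintro rfl
    exact hxy (hx.symm.trans hy)
  have mono : ∀ c d : ℕ, c ≤ d → s.filter (fun i => f i < c) ⊆ s.filter (fun i => f i < d) := by
    intro c d hcd i hi
    rw [Finset.mem_filter] at hi ⊢
    exact ⟨hi.1, by omega⟩
  have s0 := step ∅ _ 0 1 (Finset.empty_subset _) (by simp) e1 (by norm_num)
  have s1 := step _ _ 1 K2 (mono c1 c2 (by omega)) e1 e2 (by decide +kernel)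
  have s2 := step _ _ K2 K3 (mono c2 c3 (by omega)) e2 e3 (by decide +kernel)
  have s3 := step _ _ K3 K4 (mono c3 c4 (by omega)) e3 e4 (by decide +kernel)
  have s4 := step _ _ K4 K (Finset.filter_subset _ _) e4 h (by decide +kernel)
  rw [Finset.card_empty] at s0
  omega

theorem four (A1 A2 A3 A4 f1 f2 f3 f4 : ℕ) (h1 : A1 ≤ 2 ^ 56) (h2 : A2 ≤ 2 ^ 56) (h3 : A3 ≤ 2 ^ 56)
    (h4 : A4 ≤ 2 ^ 56) (h : A1 * 2 ^ f1 + A2 * 2 ^ f2 + A3 * 2 ^ f3 + A4 * 2 ^ f4 = K) : False := by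
  apply five (Finset.univ : Finset (Fin 4)) ![A1, A2, A3, A4] ![f1, f2, f3, f4] (by simp)
  · intro i _; fin_cases i <;> assumption
  · rw [Fin.sum_univ_four]; exact h

theorem low {ι : Type} [Nonempty ι] (s : Finset ι) (f : ι → ℕ) (hs : s.card ≤ 7)
    (h : ∑ i ∈ s, 2 ^ f i = K) :
    (∀ i ∈ s, f i ≤ 6000) ∧ ∃ j ∈ s, f j = 0 ∧ ∀ i ∈ s, i ≠ j → 3787 ≤ f i := by
  classical
  constructor
  · intro i hi
    have h1 : 2 ^ f i ≤ K := h ▸ Finset.single_le_sum (f := fun i => 2 ^ f i) (fun _ _ => Nat.zero_le _) hi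
    have h2 : K < 2 ^ 6001 := by decide +kernel
    have := (Nat.pow_lt_pow_iff_right (by norm_num : 1 < 2)).mp (h1.trans_lt h2)
    omega
  obtain ⟨c, a1, b1, e1⟩ := cluster s (fun _ => 1) f hs (fun _ _ => by norm_num) 4200 (by norm_num)
  simp only [one_mul] at e1
  rw [h, cut1 c (by omega) (by omega)] at e1
  have hne : (s.filter (fun i => f i < c)).Nonempty := by
    rw [Finset.nonempty_iff_ne_empty]
    intro h0
    rw [h0] at e1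
    simp at e1
  obtain ⟨j, hj⟩ := hne
  rw [← Finset.add_sum_erase _ _ hj] at e1
  have p1 : 0 < 2 ^ f j := by positivity
  refine ⟨j, (Finset.mem_filter.mp hj).1, ?_, ?_⟩
  · have : 2 ^ f j = 1 := by omega
    simpa using this
  · intro i hi hij
    by_contra hlt
    have hm : i ∈ (s.filter (fun i => f i < c)).erase j :=
      Finset.mem_erase.mpr ⟨hij, Finset.mem_filter.mpr ⟨hi, by omega⟩⟩
    have h1 : 2 ^ f i ≤ _ :=
      Finset.single_le_sum (f := fun i => 2 ^ f i) (fun _ _ => Nat.zero_le _) hm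
    have p2 : 0 < 2 ^ f i := by positivity
    omega

theorem low5 (t1 t2 t3 t4 t5 : ℕ) (h : 2 ^ t1 + 2 ^ t2 + 2 ^ t3 + 2 ^ t4 + 2 ^ t5 = K)
    (h14 : t4 ≤ t1) (h34 : t4 ≤ t3) (h25 : t5 ≤ t2) :
    t1 ≤ 6000 ∧ t2 ≤ 6000 ∧ t1 + t3 < 12000 ∧ t2 + t3 < 12000 ∧ 3787 ≤ t1 ∧ 3787 ≤ t2 ∧
      ((t4 = 0 ∧ 3787 ≤ t5) ∨ (t5 = 0 ∧ 3787 ≤ t4)) := by
  obtain ⟨hu, j, _, hj, ho⟩ := low (Finset.univ : Finset (Fin 5)) ![t1, t2, t3, t4, t5] (by simp)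
    (by rw [Fin.sum_univ_five]; exact h)
  have u1 : t1 ≤ 6000 := hu 0 (by simp)
  have u2 : t2 ≤ 6000 := hu 1 (by simp)
  have u3 : t3 ≤ 6000 := hu 2 (by simp)
  have hK : K < 2 ^ 6000 + 2 ^ 6000 := by decide +kernel
  have v1 : ¬ (t1 = 6000 ∧ t3 = 6000) := by
    rintro ⟨rfl, rfl⟩
    generalize 2 ^ 6000 = X at *
    generalize 2 ^ t2 = X2 at *
    generalize 2 ^ t4 = X4 at *
    generalize 2 ^ t5 = X5 at *
    omega
  have v2 : ¬ (t2 = 6000 ∧ t3 = 6000) := by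
    rintro ⟨rfl, rfl⟩
    generalize 2 ^ 6000 = X at *
    generalize 2 ^ t1 = X2 at *
    generalize 2 ^ t4 = X4 at *
    generalize 2 ^ t5 = X5 at *
    omega
  have o0 : (0 : Fin 5) ≠ j → 3787 ≤ t1 := ho 0 (by simp)
  have o1 : (1 : Fin 5) ≠ j → 3787 ≤ t2 := ho 1 (by simp)
  have o2 : (2 : Fin 5) ≠ j → 3787 ≤ t3 := ho 2 (by simp)
  have o3 : (3 : Fin 5) ≠ j → 3787 ≤ t4 := ho 3 (by simp)
  have o4 : (4 : Fin 5) ≠ j → 3787 ≤ t5 := ho 4 (by simp)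
  clear h hK hu ho
  fin_cases j <;> simp at hj o0 o1 o2 o3 o4 <;> omega

theorem low7 (t1 t2 t3 t4 t5 t6 t7 : ℕ)
    (h : 2 ^ t1 + 2 ^ t2 + 2 ^ t3 + 2 ^ t4 + 2 ^ t5 + 2 ^ t6 + 2 ^ t7 = K)
    (a1 : t7 ≤ t1) (a2 : t7 ≤ t2) (a3 : t7 ≤ t3) (a4 : t7 ≤ t4) (a5 : t7 ≤ t5) (a6 : t7 ≤ t6)
    (hs : t4 + t5 ≤ t1 + t7) : False := by
  obtain ⟨hu, j, _, hj, ho⟩ := low (Finset.univ : Finset (Fin 7)) ![t1, t2, t3, t4, t5, t6, t7]
    (by simp) (by rw [Fin.sum_univ_seven]; exact h)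
  have u1 : t1 ≤ 6000 := hu 0 (by simp)
  have o3 : (3 : Fin 7) ≠ j → 3787 ≤ t4 := ho 3 (by simp)
  have o4 : (4 : Fin 7) ≠ j → 3787 ≤ t5 := ho 4 (by simp)
  have o6 : (6 : Fin 7) ≠ j → 3787 ≤ t7 := ho 6 (by simp)
  clear h hu ho
  fin_cases j <;> simp at hj o3 o4 o6 <;> omega

theorem pin (x A f f0 : ℕ) (hx : x = A * 2 ^ f) (hf : f0 ≤ f) (h0 : f0 ≤ 12000)
    (h1 : M < x + 2 ^ f0) (h2 : x < M + 2 ^ f0) : x = M := by
  obtain ⟨p, hp⟩ : 2 ^ f0 ∣ x := hx ▸ Dvd.dvd.mul_left (Nat.pow_dvd_pow 2 hf) A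
  obtain ⟨q, hq⟩ : 2 ^ f0 ∣ M := Nat.pow_dvd_pow 2 h0
  rw [hp, hq] at h1 h2 ⊢
  have d0 : 0 < 2 ^ f0 := by positivity
  generalize 2 ^ f0 = d at *
  have : q < p + 1 := by
    by_contra hc
    have : d * (p + 1) ≤ d * q := Nat.mul_le_mul_left _ (by omega)
    nlinarith
  have : p < q + 1 := by
    by_contra hc
    have : d * (q + 1) ≤ d * p := Nat.mul_le_mul_left _ (by omega)
    nlinarith
  have : p = q := by omega
  rw [this]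

end Pool.Agent.H12.IndCount
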