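import Pool.Agent.H12.IndCount2

set_option autoImplicit false
open Finset

namespace Pool.Agent.H12.IndCount

variable {V : Type} [DecidableEq V] {r : V → V → Prop}

theorem F_insert_pos {v u : V} {W : Finset V} (h : r v u) : F r v (insert u W) = F r v W := by
  ext x
  simp only [mem_F, Finset.mem_insert]
  constructor
  · rintro ⟨rfl | h1, h2⟩
    · exact absurd h h2
    · exact ⟨h1, h2⟩
  · rintro ⟨h1, h2⟩; exact ⟨Or.inr h1, h2⟩

theorem F_insert_neg {v u : V} {W : Finset V} (h : ¬ r v u) :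
    F r v (insert u W) = insert u (F r v W) := by
  ext x
  simp only [mem_F, Finset.mem_insert]
  constructor
  · rintro ⟨rfl | h1, h2⟩
    · exact Or.inl rfl
    · exact Or.inr ⟨h1, h2⟩
  · rintro (rfl | ⟨h1, h2⟩)
    · exact ⟨Or.inl rfl, h⟩
    · exact ⟨Or.inr h1, h2⟩

omit [DecidableEq V] in
theorem nF {v u : V} {W : Finset V} (h : u ∉ W) : u ∉ F r v W := fun h1 => h (F_sub _ _ h1)

omit [DecidableEq V] in
theorem F_comm (u v : V) (W : Finset V) : F r u (F r v W) = F r v (F r u W) := by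
  ext x; simp only [mem_F]; tauto

theorem I_one (hs : ∀ a b, r a b → r b a) (hi : ∀ a, ¬ r a a) {w : V} {W : Finset V}
    (hw : w ∉ W) (hf : ∀ a ∈ W, ∀ b ∈ W, ¬ r a b) :
    I r (insert w W) = 2 ^ W.card + 2 ^ (F r w W).card := by
  rw [I_insert hs hi hw, I_free hf, I_free (fun a ha b hb => hf a (F_sub _ _ ha) b (F_sub _ _ hb))]

omit [DecidableEq V] in
theorem free_F {W : Finset V} (hf : ∀ a ∈ W, ∀ b ∈ W, ¬ r a b) (v : V) :
    ∀ a ∈ F r v W, ∀ b ∈ F r v W, ¬ r a b :=
  fun a ha b hb => hf a (F_sub _ _ ha) b (F_sub _ _ hb)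

theorem I_two_pos (hs : ∀ a b, r a b → r b a) (hi : ∀ a, ¬ r a a) {v w : V} {W : Finset V}
    (hv : v ∉ insert w W) (hw : w ∉ W) (hf : ∀ a ∈ W, ∀ b ∈ W, ¬ r a b) (h : r v w) :
    I r (insert v (insert w W)) = 2 ^ W.card + 2 ^ (F r w W).card + 2 ^ (F r v W).card := by
  rw [I_insert hs hi hv, I_one hs hi hw hf, F_insert_pos h, I_free (free_F hf v)]

theorem I_two_neg (hs : ∀ a b, r a b → r b a) (hi : ∀ a, ¬ r a a) {v w : V} {W : Finset V}
    (hv : v ∉ insert w W) (hw : w ∉ W) (hf : ∀ a ∈ W, ∀ b ∈ W, ¬ r a b) (h : ¬ r v w) :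
    I r (insert v (insert w W)) = 2 ^ W.card + 2 ^ (F r w W).card + 2 ^ (F r v W).card
      + 2 ^ (F r w (F r v W)).card := by
  rw [I_insert hs hi hv, I_one hs hi hw hf, F_insert_neg h, I_one hs hi (nF hw) (free_F hf v)]
  ring

theorem I_edge3 (hs : ∀ a b, r a b → r b a) (hi : ∀ a, ¬ r a a) {u v w : V} {W : Finset V}
    (hu : u ∉ insert v (insert w W)) (hv : v ∉ insert w W) (hw : w ∉ W)
    (hf : ∀ a ∈ W, ∀ b ∈ W, ¬ r a b) (h1 : r u v) (h2 : ¬ r u w) (h3 : ¬ r v w) :
    I r (insert u (insert v (insert w W))) = 2 ^ W.card + (2 ^ (F r u W).card + 2 ^ (F r v W).card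
      + 2 ^ (F r w W).card + 2 ^ (F r w (F r u W)).card + 2 ^ (F r w (F r v W)).card) := by
  rw [I_insert hs hi hu, I_two_neg hs hi hv hw hf h3, F_insert_pos h1, F_insert_neg h2,
    I_one hs hi (nF hw) (free_F hf u)]
  ring

def Bad (r : V → V → Prop) : Prop :=
  ∃ u v w a b c : V, r u v ∧ ¬ r u w ∧ ¬ r v w ∧ r u a ∧ ¬ r v a ∧ r v b ∧ r w b ∧ ¬ r u b ∧
    r u c ∧ r w c ∧ ¬ r a c ∧ ¬ r b c

theorem edge_aux {u v w : V} {W : Finset V} (hW : W.card = 12000)
    (hf : ∀ a ∈ W, ∀ b ∈ W, ¬ r a b) (h1 : r u v) (h2 : ¬ r u w) (h3 : ¬ r v w)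
    (p1 : (F r u W).card + (F r w W).card < 12000) (p2 : (F r v W).card ≤ 6000)
    (p3 : 3787 ≤ (F r u W).card) (p4 : (F r w (F r u W)).card = 0)
    (p5 : 3787 ≤ (F r w (F r v W)).card) : Bad r := by
  rw [Finset.card_eq_zero] at p4
  have q : ∀ x ∈ W, ¬ r u x → r w x := by
    intro x hx h
    by_contra h'
    have : x ∈ F r w (F r u W) := mem_F.mpr ⟨mem_F.mpr ⟨hx, h⟩, h'⟩
    rw [p4] at this
    simp at this
  obtain ⟨a, ha⟩ : (F r w (F r v W)).Nonempty := Finset.card_pos.mp (by omega)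
  obtain ⟨ha1, ha2⟩ := mem_F.mp ha
  obtain ⟨ha3, ha4⟩ := mem_F.mp ha1
  have ha5 : r u a := by by_contra h; exact ha2 (q a ha3 h)
  obtain ⟨c, hc1, hc2⟩ : ∃ c ∈ W, c ∉ F r u W ∪ F r w W := by
    apply Finset.exists_mem_notMem_of_card_lt_card
    have := Finset.card_union_le (F r u W) (F r w W)
    omega
  rw [Finset.mem_union, mem_F, mem_F] at hc2
  obtain ⟨b, hb1, hb2⟩ : ∃ b ∈ F r u W, b ∉ F r v W \ F r w (F r v W) := by
    apply Finset.exists_mem_notMem_of_card_lt_card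
    have := Finset.card_sdiff_add_card_eq_card (F_sub (r := r) w (F r v W))
    omega
  obtain ⟨hb3, hb4⟩ := mem_F.mp hb1
  have hb5 := q b hb3 hb4
  simp only [Finset.mem_sdiff, mem_F] at hb2
  exact ⟨u, v, w, a, b, c, h1, h2, h3, ha5, ha4, by tauto, hb5, hb4, by tauto, by tauto,
    hf a ha3 c hc1, hf b hb3 c hc1⟩

theorem edge_case (hs : ∀ a b, r a b → r b a) (hi : ∀ a, ¬ r a a) {u v w : V} {W : Finset V}
    (hu : u ∉ insert v (insert w W)) (hv : v ∉ insert w W) (hw : w ∉ W) (hW : W.card = 12000)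
    (hf : ∀ a ∈ W, ∀ b ∈ W, ¬ r a b) (h1 : r u v) (h2 : ¬ r u w) (h3 : ¬ r v w)
    (hI : I r (insert u (insert v (insert w W))) = M + K) : Bad r := by
  rw [I_edge3 hs hi hu hv hw hf h1 h2 h3, hW] at hI
  have hK := Nat.add_left_cancel (n := M) hI
  obtain ⟨a1, a2, a3, a4, a5, a6, a7⟩ := low5 _ _ _ _ _ hK (Finset.card_le_card (F_sub _ _))
    (by rw [F_comm]; exact Finset.card_le_card (F_sub _ _)) (Finset.card_le_card (F_sub _ _))
  rcases a7 with ⟨b1, b2⟩ | ⟨b1, b2⟩
  · exact edge_aux hW hf h1 h2 h3 a3 a2 a5 b1 b2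
  · exact edge_aux hW hf (hs _ _ h1) h3 h2 a4 a1 a6 b1 b2

theorem three (hs : ∀ a b, r a b → r b a) (hi : ∀ a, ¬ r a a) {u v w : V} {W : Finset V}
    (hu : u ∉ insert v (insert w W)) (hv : v ∉ insert w W) (hw : w ∉ W) (hW : W.card = 12000)
    (hf : ∀ a ∈ W, ∀ b ∈ W, ¬ r a b)
    (hI : I r (insert u (insert v (insert w W))) = M + K) : Bad r := by
  have o : (1 : ℕ) ≤ 2 ^ 56 := by norm_num
  have z : (0 : ℕ) ≤ 2 ^ 56 := by norm_num
  have hM : 2 ^ W.card = M := by rw [hW]; rfl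
  simp only [Finset.mem_insert, not_or] at hu hv
  obtain ⟨huv, huw, huW⟩ := hu
  obtain ⟨hvw, hvW⟩ := hv
  have hu : u ∉ insert v (insert w W) := by simp [huv, huw, huW]
  have hv : v ∉ insert w W := by simp [hvw, hvW]
  by_cases h1 : r u v <;> by_cases h2 : r u w <;> by_cases h3 : r v w
  · exfalso
    rw [I_insert hs hi hu, I_two_pos hs hi hv hw hf h3, F_insert_pos h1, F_insert_pos h2,
      I_free (free_F hf u), hM] at hI
    exact four 1 1 1 0 (F r w W).card (F r v W).card (F r u W).card 0 o o o z (by omega)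
  · exfalso
    rw [I_insert hs hi hu, I_two_neg hs hi hv hw hf h3, F_insert_pos h1, F_insert_pos h2,
      I_free (free_F hf u), hM] at hI
    exact four 1 1 1 1 (F r w W).card (F r v W).card (F r u W).card (F r w (F r v W)).card
      o o o o (by omega)
  · exfalso
    rw [I_insert hs hi hu, I_two_pos hs hi hv hw hf h3, F_insert_pos h1, F_insert_neg h2,
      I_one hs hi (nF hw) (free_F hf u), hM] at hI
    exact four 1 1 1 1 (F r w W).card (F r v W).card (F r u W).card (F r w (F r u W)).card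
      o o o o (by omega)
  · exact edge_case hs hi hu hv hw hW hf h1 h2 h3 hI
  · exfalso
    have hv' : v ∉ F r u W := nF hvW
    rw [I_insert hs hi hu, I_two_pos hs hi hv hw hf h3, F_insert_neg h1, F_insert_pos h2,
      I_one hs hi hv' (free_F hf u), hM] at hI
    exact four 1 1 1 1 (F r w W).card (F r v W).card (F r u W).card (F r v (F r u W)).card
      o o o o (by omega)
  · refine edge_case hs hi (u := u) (v := w) (w := v) (by simp [huv, huw, huW])
      (by simp [Ne.symm hvw, hw]) hvW hW hf h2 h1 (fun h => h3 (hs _ _ h)) ?_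
    rw [Finset.insert_comm w v]; exact hI
  · refine edge_case hs hi (u := v) (v := w) (w := u) (by simp [Ne.symm huv, hvw, hvW])
      (by simp [Ne.symm huw, hw]) huW hW hf h3 (fun h => h1 (hs _ _ h))
      (fun h => h2 (hs _ _ h)) ?_
    rw [Finset.insert_comm w u, Finset.insert_comm v u]; exact hI
  · exfalso
    have hv' : v ∉ insert w (F r u W) := by simp [hvw, nF hvW]
    rw [I_insert hs hi hu, I_two_neg hs hi hv hw hf h3, F_insert_neg h1, F_insert_neg h2,
      I_two_neg hs hi hv' (nF hw) (free_F hf u) h3, hM] at hI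
    have sub : ∀ S : Finset V, (∀ x, x ∈ W → ¬ r u x → ¬ r v x → ¬ r w x → x ∈ S) →
        (F r w (F r v (F r u W))).card ≤ S.card := by
      intro S hS
      apply Finset.card_le_card
      intro x hx
      simp only [mem_F] at hx
      exact hS x hx.1.1.1 hx.1.1.2 hx.1.2 hx.2
    refine low7 (F r u W).card (F r v W).card (F r w W).card (F r w (F r u W)).card
      (F r v (F r u W)).card (F r w (F r v W)).card (F r w (F r v (F r u W))).card (by omega)
      (sub _ ?_) (sub _ ?_) (sub _ ?_) (sub _ ?_) (sub _ ?_) (sub _ ?_) ?_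
    iterate 6 (intro x a b c d; simp only [mem_F]; tauto)
    have e1 := Finset.card_union_add_card_inter (F r w (F r u W)) (F r v (F r u W))
    have e2 : F r w (F r u W) ∩ F r v (F r u W) = F r w (F r v (F r u W)) := by
      ext x; simp only [Finset.mem_inter, mem_F]; tauto
    have e3 : (F r w (F r u W) ∪ F r v (F r u W)).card ≤ (F r u W).card :=
      Finset.card_le_card (Finset.union_subset (F_sub _ _) (F_sub _ _))
    rw [e2] at e1
    omega

theorem pw {a b : ℕ} (h : a ≤ b) : 2 ^ a ≤ 2 ^ b := Nat.pow_le_pow_right (by norm_num) h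

def P1 : ℕ := 2 ^ 11152
def P2 : ℕ := 2 ^ 11941
def P3 : ℕ := 2 ^ 11996

theorem main (hs : ∀ a b, r a b → r b a) (hi : ∀ a, ¬ r a a) (W0 : Finset V)
    (hc : W0.card = 12003) (hI : I r W0 = M + K) : Bad r := by
  have n0 : (M + K) % 2 = 1 := by decide +kernel
  have n1 : K % 2 = 1 := by decide +kernel
  have n2 : 8 * P1 + 8 * P2 + 8 * P3 < M := by decide +kernel
  have kpos : 0 < K := by omega
  have d1 : ¬ ∀ v ∈ W0, (N r v W0).card < 850 := by
    intro hT
    have e : 2 ^ W0.card = 8 * M := by rw [hc]; decide +kernel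
    obtain ⟨Z, hZ, hZ2⟩ := small hs hi W0 850 (by omega) hT
    obtain ⟨A, f, _, h2, h3⟩ := I_form hs hi W0 Z _ hZ hZ2
    obtain ⟨g, rfl⟩ : ∃ g, f = g + 1 := ⟨f - 1, by omega⟩
    rw [pow_succ, ← mul_assoc] at h2
    omega
  obtain ⟨u, W1, hu, rfl, c1, f1⟩ := peel hi W0 850 d1
  have i1 := I_insert hs hi hu
  have b1 : I r (F r u W1) ≤ P1 := (I_le _).trans (pw (by omega))
  have d2 : ¬ ∀ v ∈ W1, (N r v W1).card < 60 := by
    intro hT
    have e : 2 ^ W1.card = 4 * M := by rw [show W1.card = 12002 by omega]; decide +kernel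
    obtain ⟨Z, hZ, hZ2⟩ := small hs hi W1 60 (by omega) hT
    obtain ⟨A, f, _, h2, h3⟩ := I_form hs hi W1 Z _ hZ hZ2
    have m1 : P1 < 2 ^ 11162 := by decide +kernel
    have m2 : K < 2 ^ 11162 := by decide +kernel
    have hp := pin _ A f 11162 h2 (by omega) (by norm_num)
      (by generalize 2 ^ 11162 = X at *; omega) (by generalize 2 ^ 11162 = X at *; omega)
    obtain ⟨A', f', g1, g2, _⟩ := I_form hs hi (F r u W1) Z _ hZ
      (fun a ha b hb => hZ2 a (F_sub _ _ ha) b (F_sub _ _ hb))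
    have m3 : 2 ^ (14 * 60) < K := by decide +kernel
    generalize 2 ^ (14 * 60) = X at *
    rcases f' with _ | g
    · omega
    · rw [pow_succ, ← mul_assoc] at g2
      omega
  obtain ⟨v, W2, hv, rfl, c2, f2⟩ := peel hi W1 60 d2
  have i2 := I_insert hs hi hv
  have b2 : I r (F r v W2) ≤ P2 := (I_le _).trans (pw (by omega))
  have d3 : ¬ ∀ v ∈ W2, (N r v W2).card < 4 := by
    intro hT
    have e : 2 ^ W2.card = 2 * M := by rw [show W2.card = 12001 by omega]; decide +kernel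
    obtain ⟨Z, hZ, hZ2⟩ := small hs hi W2 4 (by omega) hT
    obtain ⟨A, f, _, h2, h3⟩ := I_form hs hi W2 Z _ hZ hZ2
    have m1 : P1 + P2 < 2 ^ 11945 := by decide +kernel
    have m2 : K < 2 ^ 11945 := by decide +kernel
    have hp := pin _ A f 11945 h2 (by omega) (by norm_num)
      (by generalize 2 ^ 11945 = X at *; omega) (by generalize 2 ^ 11945 = X at *; omega)
    have gen : ∀ S : Finset V, S ⊆ W2 → ∃ A f : ℕ, A ≤ 2 ^ 56 ∧ I r S = A * 2 ^ f := by
      intro S hS
      obtain ⟨A', f', g1, g2, _⟩ := I_form hs hi S Z 56 hZ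
        (fun a ha b hb => hZ2 a (hS ha) b (hS hb))
      exact ⟨A', f', g1, g2⟩
    obtain ⟨A1, e1, x1, y1⟩ := gen (F r v W2) (F_sub _ _)
    obtain ⟨A2, e2, x2, y2⟩ := gen (F r u W2) (F_sub _ _)
    obtain ⟨A3, e3, x3, y3⟩ := gen (F r v (F r u W2)) ((F_sub _ _).trans (F_sub _ _))
    have z : (0 : ℕ) ≤ 2 ^ 56 := by norm_num
    by_cases h1 : r u v
    · rw [F_insert_pos h1] at i1
      exact four A1 A2 0 0 e1 e2 0 0 x1 x2 z z (by rw [← y1, ← y2]; omega)
    · rw [F_insert_neg h1, I_insert hs hi (nF hv)] at i1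
      exact four A1 A2 A3 0 e1 e2 e3 0 x1 x2 x3 z (by rw [← y1, ← y2, ← y3]; omega)
  obtain ⟨w, W3, hw, rfl, c3, f3⟩ := peel hi W2 4 d3
  have i3 := I_insert hs hi hw
  have b3 : I r (F r w W3) ≤ P3 := (I_le _).trans (pw (by omega))
  have hW : W3.card = 12000 := by omega
  refine three hs hi hu hv hw hW ?_ hI
  intro a ha b hb hab
  obtain ⟨U, hU, hle, _⟩ := I_edge hs hi ha hb hab
  have h4 : 4 * 2 ^ U.card = M := by rw [show U.card = 11998 by omega]; decide +kernel
  have := I_le (r := r) U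
  omega

theorem not_bad {P : Type} [PartialOrder P] : ¬ Bad (fun a b : P => a < b ∨ b < a) := by
  rintro ⟨u, v, w, a, b, c, h1, h2, h3, h4, h5, h6, h7, h8, h9, h10, h11, h12⟩
  simp only [not_or] at h2 h3 h5 h8 h11 h12
  rcases h1 with h1 | h1
  · have k1 : b < v := h6.resolve_left (fun h => h8.1 (h1.trans h))
    have k2 : b < w := h7.resolve_left (fun h => h3.2 (h.trans k1))
    have k3 : c < w := h10.resolve_left (fun h => h12.1 (k2.trans h))
    have k4 : c < u := h9.resolve_left (fun h => h2.1 (h.trans k3))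
    have k5 : u < a := h4.resolve_right (fun h => h5.2 (h.trans h1))
    exact h11.2 (k4.trans k5)
  · have k1 : v < b := h6.resolve_right (fun h => h8.2 (h.trans h1))
    have k2 : w < b := h7.resolve_right (fun h => h3.1 (k1.trans h))
    have k3 : w < c := h10.resolve_right (fun h => h12.2 (h.trans k2))
    have k4 : u < c := h9.resolve_right (fun h => h2.2 (k3.trans h))
    have k5 : a < u := h4.resolve_left (fun h => h5.1 (h1.trans h))
    exact h11.1 (k5.trans k4)

end Pool.Agent.H12.IndCount
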