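import Pool.Agent.H12.IndCount3

set_option autoImplicit false
open Finset

namespace Pool.Agent.H12.IndCount

def q (a b : ℕ) : Prop :=
  (a = 0 ∧ (b = 1 ∨ 6003 ≤ b)) ∨ (a = 1 ∧ 3 ≤ b ∧ (b < 4803 ∨ 10203 ≤ b)) ∨
    (a = 2 ∧ 3 ≤ b ∧ (b < 6003 ∨ 10803 ≤ b))

def rel (a b : Fin 12003) : Prop := q a.val b.val ∨ q b.val a.val

theorem rel_symm (a b : Fin 12003) (h : rel a b) : rel b a := h.symm

theorem rel_irr (a : Fin 12003) : ¬ rel a a := by
  unfold rel q; omega

theorem card_int {n : ℕ} (S : Finset (Fin n)) (lo hi : ℕ) (h0 : hi ≤ n)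
    (h : ∀ x : Fin n, x ∈ S ↔ lo ≤ x.val ∧ x.val < hi) : S.card = hi - lo := by
  rw [← Nat.card_Ico, ← Finset.card_map Fin.valEmbedding]
  congr 1
  ext y
  simp only [Finset.mem_map, Fin.valEmbedding_apply, Finset.mem_Ico]
  constructor
  · rintro ⟨x, hx, rfl⟩; exact (h x).mp hx
  · intro hy
    exact ⟨⟨y, by omega⟩, (h _).mpr hy, rfl⟩

theorem ex_count : I rel (Finset.univ : Finset (Fin 12003)) = M + K := by
  let W : Finset (Fin 12003) := Finset.univ.filter (fun x => 3 ≤ x.val)
  have hW : ∀ x, x ∈ W ↔ 3 ≤ x.val := by intro x; simp [W]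
  obtain ⟨u, hu⟩ : ∃ u : Fin 12003, u.val = 0 := ⟨⟨0, by norm_num⟩, rfl⟩
  obtain ⟨v, hv⟩ : ∃ u : Fin 12003, u.val = 1 := ⟨⟨1, by norm_num⟩, rfl⟩
  obtain ⟨w, hw⟩ : ∃ u : Fin 12003, u.val = 2 := ⟨⟨2, by norm_num⟩, rfl⟩
  have e : (Finset.univ : Finset (Fin 12003)) = insert u (insert v (insert w W)) := by
    ext x
    simp only [Finset.mem_univ, Finset.mem_insert, hW, Fin.ext_iff, true_iff]
    omega
  rw [e, I_edge3 rel_symm rel_irr]
  · have c0 : W.card = 12003 - 3 := card_int _ _ _ (by norm_num) (fun x => by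
      have := x.isLt; rw [hW]; omega)
    have c1 : (F rel u W).card = 6003 - 3 := card_int _ _ _ (by norm_num) (fun x => by
      simp only [mem_F, hW, rel, q]; omega)
    have c2 : (F rel v W).card = 10203 - 4803 := card_int _ _ _ (by norm_num) (fun x => by
      simp only [mem_F, hW, rel, q]; omega)
    have c3 : (F rel w W).card = 10803 - 6003 := card_int _ _ _ (by norm_num) (fun x => by
      simp only [mem_F, hW, rel, q]; omega)
    have c4 : (F rel w (F rel u W)).card = 0 - 0 := card_int _ _ _ (by norm_num) (fun x => by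
      simp only [mem_F, hW, rel, q]; omega)
    have c5 : (F rel w (F rel v W)).card = 10203 - 6003 := card_int _ _ _ (by norm_num) (fun x => by
      simp only [mem_F, hW, rel, q]; omega)
    rw [c0, c1, c2, c3, c4, c5]
    decide +kernel
  · simp only [Finset.mem_insert, hW, Fin.ext_iff]; omega
  · simp only [Finset.mem_insert, hW, Fin.ext_iff]; omega
  · simp only [hW]; omega
  · intro a ha b hb
    rw [hW] at ha hb
    unfold rel q; omega
  · simp only [rel, q]; omega
  · simp only [rel, q]; omega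
  · simp only [rel, q]; omega

theorem ncard_eq {V : Type} [Fintype V] (r : V → V → Prop) (S : Set (Finset V))
    (h : ∀ s, s ∈ S ↔ Ind r s) : S.ncard = I r (Finset.univ : Finset V) := by
  classical
  unfold I
  rw [← Set.ncard_coe_finset]
  congr 1
  ext s
  simp [h]

def G : SimpleGraph (Fin 12003) where
  Adj a b := a ≠ b ∧ ¬ rel a b
  symm := ⟨fun a b h => ⟨h.1.symm, fun h' => h.2 (rel_symm _ _ h')⟩⟩
  loopless := ⟨fun a h => h.1 rfl⟩

theorem G_count : {s : Finset (Fin 12003) | G.IsClique (s : Set (Fin 12003))}.ncard = M + K := by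
  rw [← ex_count]
  apply ncard_eq
  intro s
  constructor
  · intro h a ha b hb hr
    by_cases hab : a = b
    · subst hab; exact rel_irr _ hr
    · exact (h (Finset.mem_coe.mpr ha) (Finset.mem_coe.mpr hb) hab).2 hr
  · intro h a ha b hb hab
    exact ⟨hab, h a (Finset.mem_coe.mp ha) b (Finset.mem_coe.mp hb)⟩

theorem no_poset (P : Type) [Fintype P] [PartialOrder P] (hc : Fintype.card P = 12003) :
    {s : Finset P | IsAntichain (· ≤ ·) (s : Set P)}.ncard ≠ M + K := by
  classical
  intro h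
  rw [ncard_eq (fun a b : P => a < b ∨ b < a)] at h
  · exact not_bad (main (fun a b h => h.symm) (fun a h => by simp at h) _ (by simpa using hc) h)
  · intro s
    constructor
    · intro h a ha b hb hr
      rcases hr with hr | hr
      · exact h (Finset.mem_coe.mpr ha) (Finset.mem_coe.mpr hb) hr.ne hr.le
      · exact h (Finset.mem_coe.mpr hb) (Finset.mem_coe.mpr ha) hr.ne hr.le
    · intro h a ha b hb hab hle
      exact h a (Finset.mem_coe.mp ha) b (Finset.mem_coe.mp hb) (Or.inl (lt_of_le_of_ne hle hab))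

end Pool.Agent.H12.IndCount
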