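import Mathlib

set_option autoImplicit false
set_option linter.unusedSectionVars false

namespace Pool.Agent.H12.Inv

open Finset

abbrev F := ZMod 2

theorem f_cases (a : F) : a = 0 ∨ a = 1 := by
  revert a; decide

theorem f_add_self (a : F) : a + a = 0 := by
  revert a; decide

variable {V : Type} [Fintype V] [DecidableEq V]

/-- Every row of `M` is a combination of the rows indexed by `I`. -/
def Sp (I : Finset V) (M : Matrix V V F) : Prop :=
  ∀ j, ∃ c : V → F, (∀ i, i ∉ I → c i = 0) ∧ ∀ l, M j l = ∑ i, c i * M i l

theorem sp_mono {I J : Finset V} (h : I ⊆ J) {M : Matrix V V F} (hM : Sp I M) : Sp J M := by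
  intro j
  obtain ⟨c, hc, hl⟩ := hM j
  exact ⟨c, fun i hi => hc i (fun h' => hi (h h')), hl⟩

theorem exists_sp (M : Matrix V V F) : ∃ I : Finset V, I.card ≤ M.rank ∧ Sp I M := by
  classical
  obtain ⟨g, hg, hspan, -⟩ := Submodule.exists_fun_fin_finrank_span_eq F (Set.range M.row)
  choose idx hidx using hg
  refine ⟨univ.image idx, ?_, ?_⟩
  · refine card_image_le.trans ?_
    rw [Matrix.rank_eq_finrank_span_row]
    simp
  · intro j
    have hj : M.row j ∈ Submodule.span F (Set.range g) := by
      rw [hspan]
      exact Submodule.subset_span ⟨j, rfl⟩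
    obtain ⟨c, hc⟩ := (Submodule.mem_span_range_iff_exists_fun F).1 hj
    refine ⟨fun i => ∑ t ∈ univ.filter (fun t => idx t = i), c t, ?_, ?_⟩
    · intro i hi
      apply Finset.sum_eq_zero
      intro t ht
      exfalso
      apply hi
      simp only [mem_filter, mem_univ, true_and] at ht
      exact mem_image.2 ⟨t, mem_univ _, ht⟩
    · intro l
      have h1 : ∑ t, c t * M (idx t) l = M j l := by
        have h2 := congrFun hc l
        rw [Finset.sum_apply] at h2
        refine Eq.trans ?_ h2
        apply Finset.sum_congr rfl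
        intro t _
        rw [← hidx t]
        rfl
      have h3 := Finset.sum_fiberwise (s := univ) (g := idx) (f := fun t => c t * M (idx t) l)
      rw [← h1, ← h3]
      apply Finset.sum_congr rfl
      intro i _
      show _ = (∑ t ∈ univ.filter (fun t => idx t = i), c t) * M i l
      rw [Finset.sum_mul]
      apply Finset.sum_congr rfl
      intro t ht
      simp only [mem_filter, mem_univ, true_and] at ht
      rw [ht]

theorem sp_expand {I : Finset V} {M : Matrix V V F} (hs : M.IsSymm) (hM : Sp I M) :
    ∃ c : V → V → F, (∀ j i, i ∉ I → c j i = 0) ∧ (∀ j l, M j l = ∑ i, c j i * M i l) ∧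
      ∀ j l, M j l = ∑ i, ∑ i', c j i * c l i' * M i i' := by
  choose c hc hl using hM
  refine ⟨c, hc, hl, ?_⟩
  intro j l
  rw [hl j l]
  apply Finset.sum_congr rfl
  intro i _
  rw [hs.apply l i, hl l i, Finset.mul_sum]
  apply Finset.sum_congr rfl
  intro i' _
  rw [hs.apply i i']
  ring

theorem sp_det {I : Finset V} {M N : Matrix V V F} (hs : M.IsSymm) (hs' : N.IsSymm)
    (hM : Sp I M) (hN : Sp I N) (h : ∀ i ∈ I, ∀ l, M i l = N i l) : M = N := by
  ext j l
  obtain ⟨m, hm0, hm⟩ := hM l
  obtain ⟨c, hc0, hc⟩ := hN j
  have e1 : ∀ (d : V → F), (∀ i, i ∉ I → d i = 0) → ∀ t, ∑ i, d i * M i t = ∑ i, d i * N i t := by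
    intro d hd t
    apply Finset.sum_congr rfl
    intro i _
    by_cases hi : i ∈ I
    · rw [h i hi]
    · simp [hd i hi]
  calc M j l = M l j := hs.apply l j
    _ = ∑ i, m i * M i j := hm j
    _ = ∑ i, m i * N i j := e1 m hm0 j
    _ = ∑ i, m i * ∑ i', c i' * M i' i := by
        apply Finset.sum_congr rfl
        intro i _
        rw [hs'.apply j i, hc i, e1 c hc0 i]
    _ = ∑ i', c i' * ∑ i, m i * M i i' := by
        simp only [Finset.mul_sum]
        rw [Finset.sum_comm]
        apply Finset.sum_congr rfl
        intro i' _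
        apply Finset.sum_congr rfl
        intro i _
        rw [hs.apply i i']
        ring
    _ = ∑ i', c i' * M i' l := by
        apply Finset.sum_congr rfl
        intro i' _
        rw [← hm i', hs.apply i' l]
    _ = ∑ i', c i' * N i' l := e1 c hc0 l
    _ = N j l := (hc l).symm

open Classical in
noncomputable def MS (I1 I2 : Finset V) : Finset (Matrix V V F) :=
  univ.filter (fun M => M.IsSymm ∧ Sp (I1 ∪ I2) M)

theorem card_MS (I1 I2 : Finset V) :
    (MS I1 I2).card ≤ 2 ^ (Fintype.card V * I1.card) * 2 ^ ((Fintype.card V - I1.card) * I2.card) := by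
  classical
  let φ : Matrix V V F → (I1 → V → F) × (I2 → (I1ᶜ : Finset V) → F) :=
    fun M => (fun i j => M i j, fun i j => M i j)
  have h1 : (MS I1 I2).card ≤ (univ : Finset ((I1 → V → F) × (I2 → (I1ᶜ : Finset V) → F))).card := by
    apply Finset.card_le_card_of_injOn φ (fun _ _ => by simp)
    intro M hM N hN hMN
    simp only [MS, coe_filter, mem_univ, true_and, Set.mem_ofPred_eq] at hM hN
    have a1 : ∀ i ∈ I1, ∀ l, M i l = N i l := fun i hi l =>
      congrFun (congrFun (congrArg Prod.fst hMN) ⟨i, hi⟩) l
    apply sp_det hM.1 hN.1 hM.2 hN.2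
    intro i hi l
    rcases mem_union.1 hi with hi | hi
    · exact a1 i hi l
    · by_cases hl : l ∈ I1
      · rw [hM.1.apply l i, hN.1.apply l i]
        exact a1 l hl i
      · exact congrFun (congrFun (congrArg Prod.snd hMN) ⟨i, hi⟩) ⟨l, mem_compl.2 hl⟩
  refine h1.trans (le_of_eq ?_)
  simp only [card_univ, Fintype.card_prod, Fintype.card_fun, ZMod.card, Fintype.card_coe,
    card_compl, pow_mul]

/-- An alternating matrix supported on `I`, plus one square, is a sum of `|I| + 1` squares. -/
theorem alt_squares (k : ℕ) : ∀ (I : Finset V) (S : V → V → F) (x : V → F), I.card ≤ k →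
    (∀ a b, S a b = S b a) → (∀ a, S a a = 0) → (∀ a b, a ∉ I → S a b = 0) →
    ∃ X : Fin (k + 1) → V → F, ∀ a b, x a * x b + S a b = ∑ t, X t a * X t b := by
  induction k using Nat.strong_induction_on with
  | _ k ih =>
  intro I S x hI hs hd hz
  by_cases h0 : ∀ a b, S a b = 0
  · refine ⟨Fin.cons x 0, fun a b => ?_⟩
    simp [Fin.sum_univ_succ, h0]
  · push Not at h0
    obtain ⟨p, q, hpq⟩ := h0
    have h1 : S p q = 1 := (f_cases _).resolve_left hpq
    have hne : p ≠ q := by
      rintro rfl
      exact hpq (hd p)
    have hp : p ∈ I := by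
      by_contra hp
      exact hpq (hz p q hp)
    have hq : q ∈ I := by
      by_contra hq
      exact hpq (by rw [hs]; exact hz q p hq)
    have hc : ((I.erase p).erase q).card + 2 = I.card := by
      rw [card_erase_of_mem (mem_erase.2 ⟨hne.symm, hq⟩), card_erase_of_mem hp]
      have : 2 ≤ I.card := by
        have : ({p, q} : Finset V) ⊆ I := by
          intro y hy
          rcases mem_insert.1 hy with rfl | hy
          · exact hp
          · rw [mem_singleton.1 hy]; exact hq
        have h3 := card_le_card this
        rwa [card_pair hne] at h3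
      omega
    obtain ⟨k', rfl⟩ : ∃ k', k = k' + 2 := ⟨k - 2, by omega⟩
    obtain ⟨X, hX⟩ := ih k' (by omega) ((I.erase p).erase q)
      (fun a b => S a b + S p a * S q b + S q a * S p b) (fun a => x a + S p a + S q a) (by omega)
      (by intro a b; rw [hs a b]; ring)
      (by
        intro a
        rw [hd a, zero_add, mul_comm (S q a)]
        exact f_add_self _)
      (by
        intro a b ha
        by_cases hap : a = p
        · subst hap
          rw [hd a, hs q a, h1]
          simp [f_add_self]
        · by_cases haq : a = q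
          · subst haq
            rw [hd a, h1]
            simp [f_add_self]
          · have haI : a ∉ I := fun h => ha (mem_erase.2 ⟨haq, mem_erase.2 ⟨hap, h⟩⟩)
            rw [hs p a, hs q a, hz a b haI, hz a p haI, hz a q haI]
            simp)
    refine ⟨Fin.cons (fun a => x a + S p a) (Fin.cons (fun a => x a + S q a) X), fun a b => ?_⟩
    rw [Fin.sum_univ_succ, Fin.sum_univ_succ]
    simp only [Fin.cons_zero, Fin.cons_succ]
    rw [← hX a b]
    generalize x a = x1
    generalize x b = x2
    generalize S p a = y1
    generalize S p b = y2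
    generalize S q a = z1
    generalize S q b = z2
    generalize S a b = s
    revert x1 x2 y1 y2 z1 z2 s
    decide

theorem sup_squares (k : ℕ) : ∀ (I : Finset V) (S : V → V → F), I.card ≤ k →
    (∀ a b, S a b = S b a) → (∃ u, S u u = 1) → (∀ a b, a ∉ I → S a b = 0) →
    ∃ X : Fin k → V → F, ∀ a b, S a b = ∑ t, X t a * X t b := by
  induction k with
  | zero =>
    intro I S hI _ hu hz
    obtain ⟨u, hu⟩ := hu
    have : u ∉ I := by
      rw [Nat.le_zero, card_eq_zero] at hI
      simp [hI]
    rw [hz u u this] at hu
    exact absurd hu (by decide)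
  | succ k ih =>
    intro I S hI hs hu hz
    obtain ⟨u, hu⟩ := hu
    have huI : u ∈ I := by
      by_contra h
      rw [hz u u h] at hu
      exact absurd hu (by decide)
    have hc : (I.erase u).card ≤ k := by
      rw [card_erase_of_mem huI]
      omega
    have hs' : ∀ a b, S a b + S u a * S u b = S b a + S u b * S u a := by
      intro a b
      rw [hs a b]
      ring
    have hz' : ∀ a b, a ∉ I.erase u → S a b + S u a * S u b = 0 := by
      intro a b ha
      by_cases hau : a = u
      · subst hau
        rw [hu, one_mul]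
        exact f_add_self _
      · have haI : a ∉ I := fun h => ha (mem_erase.2 ⟨hau, h⟩)
        rw [hs u a, hz a b haI, hz a u haI]
        simp
    by_cases h1 : ∃ w, S w w + S u w * S u w = 1
    · obtain ⟨X, hX⟩ := ih (I.erase u) (fun a b => S a b + S u a * S u b) hc hs' h1 hz'
      refine ⟨Fin.cons (fun a => S u a) X, fun a b => ?_⟩
      rw [Fin.sum_univ_succ]
      simp only [Fin.cons_zero, Fin.cons_succ]
      rw [← hX a b, add_comm (S a b), ← add_assoc, f_add_self, zero_add]
    · push Not at h1
      obtain ⟨X, hX⟩ := alt_squares k (I.erase u) (fun a b => S a b + S u a * S u b)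
        (fun a => S u a) hc hs' (fun a => (f_cases _).resolve_right (h1 a)) hz'
      refine ⟨X, fun a b => ?_⟩
      rw [← hX a b, add_comm (S a b), ← add_assoc, f_add_self, zero_add]

/-- A symmetric matrix over `F` with a nonzero diagonal entry is a sum of `rank` squares. -/
theorem rank_squares (M : Matrix V V F) (hs : M.IsSymm) (hu : ∃ u, M u u = 1) :
    ∃ X : Fin M.rank → V → F, ∀ a b, M a b = ∑ t, X t a * X t b := by
  obtain ⟨I, hI, hM⟩ := exists_sp M
  obtain ⟨c, hc0, -, hc⟩ := sp_expand hs hM
  let S : V → V → F := fun a b => if a ∈ I ∧ b ∈ I then M a b else 0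
  have hS : ∀ j l, M j l = ∑ i, ∑ i', c j i * c l i' * S i i' := by
    intro j l
    rw [hc j l]
    apply Finset.sum_congr rfl
    intro i _
    apply Finset.sum_congr rfl
    intro i' _
    by_cases hi : i ∈ I
    · by_cases hi' : i' ∈ I
      · simp [S, hi, hi']
      · simp [hc0 l i' hi']
    · simp [hc0 j i hi]
  have hSs : ∀ a b, S a b = S b a := by
    intro a b
    simp only [S, and_comm (a := a ∈ I), hs.apply a b]
  have hSu : ∃ u, S u u = 1 := by
    by_contra hcon
    push Not at hcon
    obtain ⟨u, hu⟩ := hu
    have hd : ∀ a, S a a = 0 := fun a => (f_cases _).resolve_right (hcon a)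
    have : M u u = 0 := by
      rw [hS u u, ← Finset.sum_product']
      apply Finset.sum_involution (fun p _ => (p.2, p.1))
      · intro p _
        rw [hSs p.2 p.1, mul_comm (c u p.2)]
        exact f_add_self _
      · intro p _ hp hpp
        apply hp
        have : p.2 = p.1 := congrArg Prod.fst hpp
        rw [this, hd]
        simp
      · intro p _
        simp
      · intro p _
        rfl
    rw [this] at hu
    exact absurd hu (by decide)
  obtain ⟨X, hX⟩ := sup_squares M.rank I S hI hSs hSu (by
    intro a b ha
    simp [S, ha])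
  refine ⟨fun t a => ∑ i, c a i * X t i, fun a b => ?_⟩
  rw [hS a b]
  simp only [hX, Finset.mul_sum, Finset.sum_mul]
  rw [Finset.sum_comm]
  conv_rhs => rw [Finset.sum_comm]
  apply Finset.sum_congr rfl
  intro i' _
  conv_rhs => rw [Finset.sum_comm]
  apply Finset.sum_congr rfl
  intro i _
  apply Finset.sum_congr rfl
  intro t _
  ring

end Pool.Agent.H12.Inv
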