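import Pool.Agent.H12.Inv1

set_option autoImplicit false
set_option linter.unusedSectionVars false

namespace Pool.Agent.H12.Inv

open Finset

section basic
variable {V : Type} [Fintype V] [DecidableEq V]

/-- `τ u v = 0` means that the arc between `u` and `v` goes from `u` to `v`. -/
def Tour (τ : V → V → F) : Prop := ∀ u v, u ≠ v → τ u v + τ v u = 1

/-- Reversing the arcs marked by `M` gives an acyclic tournament. -/
def Dec (τ M : V → V → F) : Prop := ∃ f : V → ℕ, ∀ u v, u ≠ v → τ u v + M u v = 0 → f u < f v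

def InvS (τ : V → V → F) : Set ℕ :=
  {m | ∃ X : Fin m → V → F, Dec τ (fun u v => ∑ t, X t u * X t v)}

def TmrS (τ : V → V → F) : Set ℕ :=
  {r | ∃ M : Matrix V V F, M.IsSymm ∧ M.rank = r ∧ Dec τ M}

def flp (τ : V → V → F) (x : V → F) : V → V → F := fun u v => τ u v + x u * x v

theorem tour_flp {τ : V → V → F} (h : Tour τ) (x : V → F) : Tour (flp τ x) := by
  intro u v huv
  have := h u v huv
  have h2 := f_add_self (x u * x v)
  simp only [flp]
  linear_combination this + h2

theorem flp_zero (τ : V → V → F) : flp τ 0 = τ := by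
  funext u v
  simp [flp]

theorem flp_flp (τ : V → V → F) (x : V → F) : flp (flp τ x) x = τ := by
  funext u v
  simp only [flp]
  rw [add_assoc, f_add_self, add_zero]

theorem dec_flp {τ M : V → V → F} (x : V → F) (h : Dec τ M) :
    Dec (flp τ x) (fun u v => M u v + x u * x v) := by
  obtain ⟨f, hf⟩ := h
  refine ⟨f, fun u v huv h0 => hf u v huv ?_⟩
  have h2 := f_add_self (x u * x v)
  simp only [flp] at h0
  linear_combination h0 - h2

theorem invS_flp {τ : V → V → F} {m : ℕ} (x : V → F) (h : m ∈ InvS τ) : m + 1 ∈ InvS (flp τ x) := by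
  obtain ⟨X, hX⟩ := h
  refine ⟨Fin.cons x X, ?_⟩
  have := dec_flp x hX
  simpa [Fin.sum_univ_succ, add_comm] using this

theorem invS_tail {τ : V → V → F} {m : ℕ} (h : m + 1 ∈ InvS τ) : ∃ x, m ∈ InvS (flp τ x) := by
  obtain ⟨X, f, hf⟩ := h
  refine ⟨X 0, fun t => X t.succ, f, fun u v huv h0 => hf u v huv ?_⟩
  simp only [flp] at h0
  simp only [Fin.sum_univ_succ]
  linear_combination h0

theorem tmr_of_inv {τ : V → V → F} {m : ℕ} (h : m ∈ InvS τ) : ∃ r ∈ TmrS τ, r ≤ m := by
  obtain ⟨X, hX⟩ := h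
  let Y : Matrix (Fin m) V F := Matrix.of X
  refine ⟨(Y.transpose * Y).rank, ⟨Y.transpose * Y, ?_, rfl, ?_⟩, ?_⟩
  · ext u v
    simp only [Matrix.transpose_apply, Matrix.mul_apply]
    exact Finset.sum_congr rfl (fun t _ => mul_comm _ _)
  · obtain ⟨f, hf⟩ := hX
    refine ⟨f, fun u v huv h0 => hf u v huv ?_⟩
    simpa only [Matrix.mul_apply, Matrix.transpose_apply, Y, Matrix.of_apply] using h0
  · have h1 : (Y.transpose * Y).rank ≤ Y.rank := Matrix.rank_mul_le_right Y.transpose Y
    have h2 : Y.rank ≤ Fintype.card (Fin m) := Matrix.rank_le_card_height Y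
    rw [Fintype.card_fin] at h2
    exact h1.trans h2

theorem rank_add_le (A B : Matrix V V F) : (A + B).rank ≤ A.rank + B.rank := by
  unfold Matrix.rank
  refine le_trans (Submodule.finrank_mono ?_) (Submodule.finrank_add_le_finrank_add_finrank _ _)
  rintro y ⟨z, rfl⟩
  rw [Matrix.mulVecLin_add]
  exact Submodule.add_mem_sup ⟨z, rfl⟩ ⟨z, rfl⟩

theorem symm_add_sq {M : Matrix V V F} (h : M.IsSymm) (x : V → F) :
    (M + Matrix.vecMulVec x x).IsSymm := by
  ext u v
  simp only [Matrix.transpose_apply, Matrix.add_apply, Matrix.vecMulVec_apply]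
  rw [h.apply u v, mul_comm]

theorem inv_of_diag {τ : V → V → F} {M : Matrix V V F} (hs : M.IsSymm) (hd : Dec τ M)
    (hu : (∃ u, M u u = 1) ∨ M = 0) : M.rank ∈ InvS τ := by
  rcases hu with hu | hu
  · obtain ⟨X, hX⟩ := rank_squares M hs hu
    refine ⟨X, ?_⟩
    convert hd using 1
    funext u v
    exact (hX u v).symm
  · subst hu
    refine ⟨0, ?_⟩
    convert hd using 1
    funext u v
    simp

theorem inv_eq_tmr {τ : V → V → F} {M : Matrix V V F} (hs : M.IsSymm) (hd : Dec τ M)
    (hu : (∃ u, M u u = 1) ∨ M = 0) (hr : M.rank = sInf (TmrS τ)) :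
    sInf (InvS τ) = sInf (TmrS τ) := by
  have h1 := inv_of_diag hs hd hu
  apply le_antisymm
  · rw [← hr]
    exact Nat.sInf_le h1
  · obtain ⟨r, hr1, hr2⟩ := tmr_of_inv (Nat.sInf_mem ⟨_, h1⟩)
    exact (Nat.sInf_le hr1).trans hr2

theorem fix_parity {τ : V → V → F} (hne : (InvS τ).Nonempty) :
    ∃ x, Even (sInf (InvS (flp τ x))) ∧ sInf (InvS τ) ≤ sInf (InvS (flp τ x)) + 1 := by
  by_cases he : Even (sInf (InvS τ))
  · exact ⟨0, by rw [flp_zero]; exact he, by rw [flp_zero]; omega⟩
  · obtain ⟨m, hm⟩ : ∃ m, sInf (InvS τ) = m + 1 := by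
      rcases Nat.eq_zero_or_pos (sInf (InvS τ)) with h | h
      · rw [h] at he
        exact absurd Even.zero he
      · exact ⟨sInf (InvS τ) - 1, by omega⟩
    have h1 := Nat.sInf_mem hne
    rw [hm] at h1
    obtain ⟨x, hx⟩ := invS_tail h1
    have h2 := invS_flp x (Nat.sInf_mem ⟨_, hx⟩)
    rw [flp_flp] at h2
    have h3 := Nat.sInf_le h2
    have h4 := Nat.sInf_le hx
    have h5 : sInf (InvS (flp τ x)) = m := by omega
    refine ⟨x, ?_, h3⟩
    rw [h5]
    rw [hm, Nat.even_add_one] at he
    simpa using he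

theorem fix_tmr {τ : V → V → F} (hne : (TmrS τ).Nonempty) :
    ∃ x, sInf (InvS (flp τ x)) = sInf (TmrS (flp τ x)) ∧
      sInf (TmrS τ) ≤ sInf (TmrS (flp τ x)) + 1 := by
  by_cases hA : ∃ M : Matrix V V F, M.IsSymm ∧ M.rank = sInf (TmrS τ) ∧ Dec τ M ∧
      ((∃ u, M u u = 1) ∨ M = 0)
  · obtain ⟨M, hs, hr, hd, hu⟩ := hA
    refine ⟨0, ?_, ?_⟩
    · rw [flp_zero]
      exact inv_eq_tmr hs hd hu hr
    · rw [flp_zero]
      omega
  · push Not at hA
    obtain ⟨M, hs, hr, hd⟩ := Nat.sInf_mem hne
    obtain ⟨hM1, hM2⟩ := hA M hs hr hd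
    obtain ⟨u, v, huv⟩ : ∃ u v, M u v = 1 := by
      by_contra hcon
      push Not at hcon
      apply hM2
      ext u v
      exact (f_cases _).resolve_right (hcon u v)
    let x : V → F := fun a => M a v
    have hxu : x u = 1 := huv
    let M' : Matrix V V F := M + Matrix.vecMulVec x x
    have hs' : M'.IsSymm := symm_add_sq hs x
    have hd' : Dec (flp τ x) M' := dec_flp x hd
    have hr' : M'.rank ≤ M.rank := by
      have : M' = M * (1 + Matrix.vecMulVec (Pi.single v 1) x) := by
        rw [Matrix.mul_add, Matrix.mul_one]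
        show M + Matrix.vecMulVec x x = _
        congr 1
        ext a b
        simp only [Matrix.mul_apply, Matrix.vecMulVec_apply, Pi.single_apply]
        rw [Finset.sum_eq_single v]
        · simp [x]
        · intro c _ hc
          simp [hc]
        · simp
      rw [this]
      exact Matrix.rank_mul_le_left _ _
    obtain ⟨N, hsN, hrN, hdN⟩ := Nat.sInf_mem (s := TmrS (flp τ x)) ⟨_, M', hs', rfl, hd'⟩
    let N' : Matrix V V F := N + Matrix.vecMulVec x x
    have hsN' : N'.IsSymm := symm_add_sq hsN x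
    have hdN' : Dec τ N' := by
      have := dec_flp x hdN
      rw [flp_flp] at this
      exact this
    have hrN' : N'.rank ≤ N.rank + 1 :=
      (rank_add_le _ _).trans (Nat.add_le_add_left (Matrix.rank_vecMulVec_le x x) _)
    have hle : sInf (TmrS τ) ≤ N'.rank := Nat.sInf_le ⟨N', hsN', rfl, hdN'⟩
    refine ⟨x, ?_, by omega⟩
    by_cases hq : M'.rank = sInf (TmrS (flp τ x))
    · refine inv_eq_tmr hs' hd' (Or.inl ⟨u, ?_⟩) hq
      have h0 : M u u = 0 := (f_cases _).resolve_right (hM1 u)
      simp [M', Matrix.vecMulVec_apply, hxu, h0]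
    · have hlt : sInf (TmrS (flp τ x)) ≤ M'.rank := Nat.sInf_le ⟨M', hs', rfl, hd'⟩
      have h5 := (hA N' hsN' (by omega) hdN').1 u
      refine inv_eq_tmr hsN hdN (Or.inl ⟨u, ?_⟩) hrN
      simp only [N', Matrix.add_apply, Matrix.vecMulVec_apply, hxu] at h5
      revert h5
      generalize N u u = a
      revert a
      decide

variable {W : Type} [Fintype W] [DecidableEq W]

def jn (τ : V → V → F) (σ : W → W → F) : V ⊕ W → V ⊕ W → F
  | Sum.inl a, Sum.inl b => τ a b
  | Sum.inr a, Sum.inr b => σ a b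
  | Sum.inl _, Sum.inr _ => 0
  | Sum.inr _, Sum.inl _ => 1

theorem jn_flp (τ : V → V → F) (σ : W → W → F) (x : V → F) (y : W → F) :
    jn (flp τ x) (flp σ y) = flp (flp (jn τ σ) (Sum.elim x 0)) (Sum.elim 0 y) := by
  funext u v
  rcases u with a | a <;> rcases v with b | b <;> simp [jn, flp]

theorem invS_jn_flp {τ : V → V → F} {σ : W → W → F} {m : ℕ} (x : V → F) (y : W → F)
    (h : m ∈ InvS (jn τ σ)) : m + 2 ∈ InvS (jn (flp τ x) (flp σ y)) := by
  rw [jn_flp]
  exact invS_flp _ (invS_flp _ h)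

theorem invS_left {τ : V → V → F} {σ : W → W → F} {m : ℕ} (h : m ∈ InvS (jn τ σ)) : m ∈ InvS τ := by
  obtain ⟨X, f, hf⟩ := h
  exact ⟨fun t a => X t (Sum.inl a), fun a => f (Sum.inl a),
    fun u v huv h0 => hf _ _ (fun h => huv (Sum.inl_injective h)) h0⟩

theorem invS_right {τ : V → V → F} {σ : W → W → F} {m : ℕ} (h : m ∈ InvS (jn τ σ)) : m ∈ InvS σ := by
  obtain ⟨X, f, hf⟩ := h
  exact ⟨fun t a => X t (Sum.inr a), fun a => f (Sum.inr a),
    fun u v huv h0 => hf _ _ (fun h => huv (Sum.inr_injective h)) h0⟩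

theorem tour_jn {τ : V → V → F} {σ : W → W → F} (h1 : Tour τ) (h2 : Tour σ) : Tour (jn τ σ) := by
  intro u v huv
  rcases u with a | a <;> rcases v with b | b
  · exact h1 a b (fun h => huv (by rw [h]))
  · simp [jn]
  · simp [jn]
  · exact h2 a b (fun h => huv (by rw [h]))

open Classical in
noncomputable def Bad (V : Type) [Fintype V] [DecidableEq V] (k : ℕ) : Finset (V → V → F) :=
  univ.filter (fun τ => Tour τ ∧ (∀ u, τ u u = 0) ∧ ∃ r ∈ TmrS τ, r ≤ k)

theorem card_bad (k1 k2 : ℕ) (hk : k1 + k2 ≤ Fintype.card V) :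
    (Bad V (k1 + k2)).card ≤
      (Fintype.card V ^ Fintype.card V * (2 ^ Fintype.card V * 2 ^ Fintype.card V)) *
        (2 ^ (Fintype.card V * k1) * 2 ^ ((Fintype.card V - k1) * k2)) := by
  classical
  let mk : (V → Fin (Fintype.card V)) → Matrix V V F → V → V → F :=
    fun g M u v => if u = v then 0 else M u v + (if g u < g v then 0 else 1)
  let T : Finset ((V → Fin (Fintype.card V)) × Finset V × Finset V) :=
    univ.filter (fun t => t.2.1.card = k1 ∧ t.2.2.card = k2)
  have hsub : Bad V (k1 + k2) ⊆ T.biUnion (fun t => (MS t.2.1 t.2.2).image (mk t.1)) := by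
    intro τ hτ
    simp only [Bad, mem_filter, mem_univ, true_and] at hτ
    obtain ⟨hT, hdg, r, ⟨M, hs, hr, f, hf⟩, hrk⟩ := hτ
    obtain ⟨I0, hI0, hsp⟩ := exists_sp M
    obtain ⟨I, hI1, hI2⟩ := Finset.exists_superset_card_eq (s := I0) (n := k1 + k2) (by omega) hk
    obtain ⟨I1, hI3, hI4⟩ := Finset.exists_subset_card_eq (s := I) (n := k1) (by omega)
    have hlt : ∀ u, (univ.filter (fun w => f w < f u)).card < Fintype.card V := by
      intro u
      rw [← card_univ]
      apply card_lt_card
      refine ⟨subset_univ _, fun h => ?_⟩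
      have := h (mem_univ u)
      simp at this
    let g : V → Fin (Fintype.card V) := fun u => ⟨_, hlt u⟩
    have hg : ∀ u v, f u < f v → g u < g v := by
      intro u v huv
      show (univ.filter (fun w => f w < f u)).card < (univ.filter (fun w => f w < f v)).card
      apply card_lt_card
      refine ⟨fun w hw => ?_, fun h => ?_⟩
      · simp only [mem_filter, mem_univ, true_and] at hw ⊢
        omega
      · have := h (mem_filter.2 ⟨mem_univ u, huv⟩)
        simp at this
    refine mem_biUnion.2 ⟨(g, I1, I \ I1), ?_, mem_image.2 ⟨M, ?_, ?_⟩⟩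
    · simp only [T, mem_filter, mem_univ, true_and]
      refine ⟨hI4, ?_⟩
      rw [card_sdiff_of_subset hI3]
      omega
    · simp only [MS, mem_filter, mem_univ, true_and]
      refine ⟨hs, sp_mono ?_ hsp⟩
      rw [union_sdiff_of_subset hI3]
      exact hI1
    · funext u v
      by_cases huv : u = v
      · subst huv
        simp [mk, hdg]
      · simp only [mk, if_neg huv]
        rcases f_cases (τ u v + M u v) with h0 | h1
        · rw [if_pos (hg u v (hf u v huv h0))]
          have h2 := f_add_self (M u v)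
          linear_combination h2 - h0
        · have h3 : τ v u + M v u = 0 := by
            have h4 := hT u v huv
            have h2 := f_add_self (M u v)
            have h5 := f_add_self (1 : F)
            rw [hs.apply u v]
            linear_combination h4 - h1 + h2
          have h6 := hg v u (hf v u (Ne.symm huv) h3)
          rw [if_neg (not_lt.2 h6.le)]
          have h2 := f_add_self (M u v)
          linear_combination h2 - h1
  refine (card_le_card hsub).trans ?_
  refine (card_biUnion_le_card_mul _ _ (2 ^ (Fintype.card V * k1) * 2 ^ ((Fintype.card V - k1) * k2)) ?_).trans ?_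
  · intro t ht
    simp only [T, mem_filter, mem_univ, true_and] at ht
    refine card_image_le.trans ((card_MS _ _).trans ?_)
    rw [ht.1, ht.2]
  · apply Nat.mul_le_mul_right
    refine (card_filter_le _ _).trans (le_of_eq ?_)
    simp

end basic

end Pool.Agent.H12.Inv
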