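import Pool.Agent.H12.Inv2

set_option autoImplicit false
set_option linter.unusedSectionVars false

namespace Pool.Agent.H12.Inv

open Finset

theorem gram_inj {V : Type} [Fintype V] [LinearOrder V] (X Y : V → V → F)
    (hX0 : ∀ u k, u < k → X u k = 0) (hX1 : ∀ u, X u u = 1)
    (hY0 : ∀ u k, u < k → Y u k = 0) (hY1 : ∀ u, Y u u = 1)
    (h : ∀ u v, u ≠ v → ∑ k, X u k * X v k = ∑ k, Y u k * Y v k) : X = Y := by
  classical
  have key : ∀ j i, X i j = Y i j := by
    intro j
    induction j using WellFoundedLT.induction with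
    | ind j ih =>
    intro i
    rcases lt_trichotomy i j with hij | hij | hij
    · rw [hX0 i j hij, hY0 i j hij]
    · rw [hij, hX1, hY1]
    · have h1 := h i j hij.ne'
      rw [← Finset.add_sum_erase _ _ (mem_univ j), ← Finset.add_sum_erase _ _ (mem_univ j),
        hX1, hY1, mul_one, mul_one] at h1
      have h2 : ∑ k ∈ univ.erase j, X i k * X j k = ∑ k ∈ univ.erase j, Y i k * Y j k := by
        apply Finset.sum_congr rfl
        intro k hk
        rcases lt_or_gt_of_ne (mem_erase.1 hk).1 with hkj | hkj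
        · rw [ih k hkj i, ih k hkj j]
        · rw [hX0 j k hkj, hY0 j k hkj, mul_zero, mul_zero]
      rw [h2] at h1
      exact add_right_cancel h1
  funext i j
  exact key j i

def Tri {n : ℕ} (L : Matrix (Fin n) (Fin n) F) : Prop := (∀ u k, u < k → L u k = 0) ∧ ∀ u, L u u = 1

theorem tri_unit {n : ℕ} {L : Matrix (Fin n) (Fin n) F} (h : Tri L) : IsUnit L := by
  rw [Matrix.isUnit_iff_isUnit_det, Matrix.det_of_isLowerTriangular L (fun i j hij => h.1 i j hij)]
  simp [h.2]

theorem tri_mul {n : ℕ} {L N : Matrix (Fin n) (Fin n) F} (h : Tri L) (h' : Tri N) : Tri (L * N) := by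
  constructor
  · intro u k huk
    rw [Matrix.mul_apply]
    apply Finset.sum_eq_zero
    intro t _
    rcases lt_or_ge u t with ht | ht
    · rw [h.1 u t ht, zero_mul]
    · rw [h'.1 t k (lt_of_le_of_lt ht huk), mul_zero]
  · intro u
    rw [Matrix.mul_apply, Finset.sum_eq_single u]
    · rw [h.2, h'.2, one_mul]
    · intro t _ htu
      rcases lt_or_gt_of_ne htu with ht | ht
      · rw [h'.1 t u ht, mul_zero]
      · rw [h.1 u t ht, zero_mul]
    · simp

open Classical in
noncomputable def GT (n : ℕ) : Finset (Matrix (Fin n) (Fin n) F) := univ.filter Tri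

theorem mem_GT {n : ℕ} {L : Matrix (Fin n) (Fin n) F} : L ∈ GT n ↔ Tri L := by
  simp [GT]

theorem card_GT (n : ℕ) : 2 ^ (∑ i ∈ range n, i) ≤ (GT n).card := by
  classical
  let φ : ((i : Fin n) → Fin i.val → F) → Matrix (Fin n) (Fin n) F :=
    fun p => Matrix.of (fun i j => if h : j.val < i.val then p i ⟨j.val, h⟩ else if j = i then 1 else 0)
  have h1 : (univ : Finset ((i : Fin n) → Fin i.val → F)).card ≤ (GT n).card := by
    apply Finset.card_le_card_of_injOn φ
    · intro p _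
      rw [mem_coe, mem_GT]
      constructor
      · intro u k huk
        have h2 : ¬ k.val < u.val := not_lt.2 (le_of_lt huk)
        simp only [φ, Matrix.of_apply, dif_neg h2, if_neg huk.ne']
      · intro u
        simp [φ]
    · intro p _ q _ hpq
      funext i j
      have h2 := congrFun (congrFun hpq i) ⟨j.val, lt_trans j.2 i.2⟩
      simp only [φ, Matrix.of_apply, dif_pos j.2] at h2
      exact h2
  refine le_trans (le_of_eq ?_) h1
  simp only [card_univ, Fintype.card_pi, ZMod.card, prod_const, Fintype.card_fin]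
  rw [Finset.prod_pow_eq_pow_sum, Fin.sum_univ_eq_sum_range (fun i => i)]

def JM (n : ℕ) : Matrix (Fin n) (Fin n) F := Matrix.of (fun u v => if v ≤ u then 1 else 0)

theorem tri_JM (n : ℕ) : Tri (JM n) := by
  constructor
  · intro u k huk
    simp [JM, not_le.2 huk]
  · intro u
    simp [JM]

theorem exists_partner {n : ℕ} {L : Matrix (Fin n) (Fin n) F} (h : Tri L) :
    ∃ N, Tri N ∧ L * N = JM n := by
  classical
  have hs := Finset.surjOn_of_injOn_of_card_le (s := GT n) (t := GT n) (fun N => L * N)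
    (fun N hN => by
      rw [mem_coe, mem_GT] at hN ⊢
      exact tri_mul h hN)
    (fun N _ N' _ hNN => (tri_unit h).mul_left_cancel hNN) le_rfl
  obtain ⟨N, hN, hLN⟩ := hs (mem_coe.2 (mem_GT.2 (tri_JM n)))
  exact ⟨N, mem_GT.1 (mem_coe.1 hN), hLN⟩

def tr {n : ℕ} (X : Fin n → Fin n → F) : Fin n → Fin n → F :=
  fun u v => if u = v then 0 else (if u < v then 0 else 1) + ∑ k, X u k * X v k

theorem tour_tr {n : ℕ} (X : Fin n → Fin n → F) : Tour (tr X) := by
  intro u v huv
  have h1 : ∑ k, X v k * X u k = ∑ k, X u k * X v k :=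
    Finset.sum_congr rfl (fun k _ => mul_comm _ _)
  have h2 := f_add_self (∑ k, X u k * X v k)
  simp only [tr, if_neg huv, if_neg (Ne.symm huv), h1]
  rcases lt_or_gt_of_ne huv with h | h
  · rw [if_pos h, if_neg (not_lt.2 h.le)]
    linear_combination h2
  · rw [if_pos h, if_neg (not_lt.2 h.le)]
    linear_combination h2

theorem tr_eq {n : ℕ} {X Y : Fin n → Fin n → F} (h : tr X = tr Y) (u v : Fin n) (huv : u ≠ v) :
    ∑ k, X u k * X v k = ∑ k, Y u k * Y v k := by
  have := congrFun (congrFun h u) v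
  simp only [tr, if_neg huv] at this
  exact add_left_cancel this

theorem tr_lt {n : ℕ} (X : Fin n → Fin n → F) (u v : Fin n) (huv : u ≠ v)
    (h : tr X u v + ∑ k, X u k * X v k = 0) : u < v := by
  simp only [tr, if_neg huv] at h
  by_contra hlt
  rw [if_neg hlt, add_assoc, f_add_self] at h
  exact absurd h (by decide)

theorem inv_join {n : ℕ} {L N : Matrix (Fin n) (Fin n) F} (h : L * N = JM n) :
    n ∈ InvS (jn (tr (fun u k => L u k)) (tr (fun v k => N k v))) := by
  refine ⟨fun t => Sum.elim (fun u => L u t) (fun v => N t v),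
    Sum.elim (fun u => 2 * u.val + 1) (fun v => 2 * v.val), ?_⟩
  have hJ : ∀ a b, ∑ t, L a t * N t b = if b ≤ a then 1 else 0 := by
    intro a b
    have := congrFun (congrFun h a) b
    rw [Matrix.mul_apply] at this
    exact this
  intro u v huv h0
  rcases u with a | a <;> rcases v with b | b
  · have := tr_lt (fun u k => L u k) a b (fun h => huv (by rw [h])) h0
    simp only [Sum.elim_inl]
    have : a.val < b.val := this
    omega
  · simp only [jn, Sum.elim_inl, Sum.elim_inr, zero_add, hJ] at h0 ⊢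
    by_cases hab : b ≤ a
    · rw [if_pos hab] at h0
      exact absurd h0 (by decide)
    · have : a.val < b.val := not_le.1 hab
      omega
  · simp only [jn, Sum.elim_inl, Sum.elim_inr, mul_comm (N _ a), hJ] at h0 ⊢
    by_cases hab : a ≤ b
    · have : a.val ≤ b.val := hab
      omega
    · rw [if_neg hab] at h0
      exact absurd h0 (by decide)
  · have := tr_lt (fun v k => N k v) a b (fun h => huv (by rw [h])) h0
    simp only [Sum.elim_inr]
    have : a.val < b.val := this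
    omega

theorem core_gen (n k : ℕ) (hb : 2 * (Bad (Fin n) k).card < (GT n).card) :
    ∃ τ σ : Fin n → Fin n → F, Tour τ ∧ Tour σ ∧ (∀ r ∈ TmrS τ, k < r) ∧ (∀ r ∈ TmrS σ, k < r) ∧
      n ∈ InvS (jn τ σ) := by
  classical
  choose! P hP1 hP2 using fun (L : Matrix (Fin n) (Fin n) F) (h : Tri L) => exists_partner h
  let B1 := (GT n).filter (fun L => tr (fun u k => L u k) ∈ Bad (Fin n) k)
  let B2 := (GT n).filter (fun L => tr (fun v k => P L k v) ∈ Bad (Fin n) k)
  have h1 : B1.card ≤ (Bad (Fin n) k).card := by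
    apply Finset.card_le_card_of_injOn (fun L => tr (fun u k => L u k))
    · intro L hL
      exact (mem_filter.1 (mem_coe.1 hL)).2
    · intro L hL L' hL' h
      have a := mem_GT.1 (mem_filter.1 (mem_coe.1 hL)).1
      have b := mem_GT.1 (mem_filter.1 (mem_coe.1 hL')).1
      exact gram_inj (fun u k => L u k) (fun u k => L' u k) a.1 a.2 b.1 b.2 (tr_eq h)
  have h2 : B2.card ≤ (Bad (Fin n) k).card := by
    apply Finset.card_le_card_of_injOn (fun L => tr (fun v k => P L k v))
    · intro L hL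
      exact (mem_filter.1 (mem_coe.1 hL)).2
    · intro L hL L' hL' h
      have a := mem_GT.1 (mem_filter.1 (mem_coe.1 hL)).1
      have b := mem_GT.1 (mem_filter.1 (mem_coe.1 hL')).1
      have a' := hP1 L a
      have b' := hP1 L' b
      have h3 := gram_inj (V := (Fin n)ᵒᵈ) (fun v k => P L k v) (fun v k => P L' k v)
        (fun u k huk => a'.1 k u huk) a'.2 (fun u k huk => b'.1 k u huk) b'.2 (tr_eq h)
      have h4 : P L = P L' := by
        ext k v
        exact congrFun (congrFun h3 v) k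
      have h5 : L * P L = L' * P L := by rw [hP2 L a, h4, hP2 L' b]
      exact (tri_unit a').mul_right_cancel h5
  obtain ⟨L, hL, hLn⟩ := Finset.exists_mem_notMem_of_card_lt_card (s := B1 ∪ B2) (t := GT n)
    (lt_of_le_of_lt (card_union_le _ _) (by omega))
  have a := mem_GT.1 hL
  have good : ∀ X : Fin n → Fin n → F, tr X ∉ Bad (Fin n) k → ∀ r ∈ TmrS (tr X), k < r := by
    intro X hX r hr
    by_contra hcon
    apply hX
    simp only [Bad, mem_filter, mem_univ, true_and]
    exact ⟨tour_tr X, fun u => by simp [tr], r, hr, not_lt.1 hcon⟩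
  refine ⟨tr (fun u k => L u k), tr (fun v k => P L k v), tour_tr _, tour_tr _, good _ ?_, good _ ?_,
    inv_join (hP2 L a)⟩
  · intro h
    exact hLn (mem_union_left _ (mem_filter.2 ⟨hL, h⟩))
  · intro h
    exact hLn (mem_union_right _ (mem_filter.2 ⟨hL, h⟩))

theorem core : ∃ τ σ : Fin 256 → Fin 256 → F, Tour τ ∧ Tour σ ∧ (∀ r ∈ TmrS τ, 132 < r) ∧
    (∀ r ∈ TmrS σ, 132 < r) ∧ 256 ∈ InvS (jn τ σ) := by
  apply core_gen
  have h1 := card_bad (V := Fin 256) 66 66 (by simp)
  have h2 := card_GT 256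
  rw [Fintype.card_fin] at h1
  have h3 : 2 * ((256 ^ 256 * (2 ^ 256 * 2 ^ 256)) * (2 ^ (256 * 66) * 2 ^ ((256 - 66) * 66)))
      < 2 ^ (∑ i ∈ range 256, i) := by
    decide +kernel
  exact lt_of_le_of_lt (Nat.mul_le_mul_left 2 h1) (lt_of_lt_of_le h3 h2)

theorem core_inv : ∃ τ σ : Fin 256 → Fin 256 → F, Tour τ ∧ Tour σ ∧ (∀ r ∈ InvS τ, 132 < r) ∧
    (∀ r ∈ InvS σ, 132 < r) ∧ 256 ∈ InvS (jn τ σ) := by
  obtain ⟨τ, σ, h1, h2, h3, h4, h5⟩ := core
  refine ⟨τ, σ, h1, h2, fun m hm => ?_, fun m hm => ?_, h5⟩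
  · obtain ⟨r, hr, hle⟩ := tmr_of_inv hm
    exact lt_of_lt_of_le (h3 r hr) hle
  · obtain ⟨r, hr, hle⟩ := tmr_of_inv hm
    exact lt_of_lt_of_le (h4 r hr) hle

theorem core_even : ∃ τ σ : Fin 256 → Fin 256 → F, Tour τ ∧ Tour σ ∧
    Even (sInf (InvS τ)) ∧ Even (sInf (InvS σ)) ∧ 132 ≤ sInf (InvS τ) ∧ 132 ≤ sInf (InvS σ) ∧
    258 ∈ InvS (jn τ σ) := by
  obtain ⟨τ, σ, h1, h2, h3, h4, h5⟩ := core_inv
  have n1 : (InvS τ).Nonempty := ⟨_, invS_left h5⟩
  have n2 : (InvS σ).Nonempty := ⟨_, invS_right h5⟩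
  obtain ⟨x, hx1, hx2⟩ := fix_parity n1
  obtain ⟨y, hy1, hy2⟩ := fix_parity n2
  have a := h3 _ (Nat.sInf_mem n1)
  have b := h4 _ (Nat.sInf_mem n2)
  exact ⟨flp τ x, flp σ y, tour_flp h1 x, tour_flp h2 y, hx1, hy1, by omega, by omega,
    invS_jn_flp x y h5⟩

theorem core_eq : ∃ τ σ : Fin 256 → Fin 256 → F, Tour τ ∧ Tour σ ∧
    sInf (InvS τ) = sInf (TmrS τ) ∧ sInf (InvS σ) = sInf (TmrS σ) ∧
    132 ≤ sInf (InvS τ) ∧ 132 ≤ sInf (InvS σ) ∧ 258 ∈ InvS (jn τ σ) := by
  obtain ⟨τ, σ, h1, h2, h3, h4, h5⟩ := core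
  have n1 : (TmrS τ).Nonempty := by
    obtain ⟨r, hr, -⟩ := tmr_of_inv (invS_left h5)
    exact ⟨r, hr⟩
  have n2 : (TmrS σ).Nonempty := by
    obtain ⟨r, hr, -⟩ := tmr_of_inv (invS_right h5)
    exact ⟨r, hr⟩
  obtain ⟨x, hx1, hx2⟩ := fix_tmr n1
  obtain ⟨y, hy1, hy2⟩ := fix_tmr n2
  have a := h3 _ (Nat.sInf_mem n1)
  have b := h4 _ (Nat.sInf_mem n2)
  exact ⟨flp τ x, flp σ y, tour_flp h1 x, tour_flp h2 y, hx1, hy1, by omega, by omega,
    invS_jn_flp x y h5⟩

end Pool.Agent.H12.Inv
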