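import Pool.Agent.H12.Inv3

set_option autoImplicit false
set_option linter.unusedSectionVars false

namespace Pool.Agent.H12.Inv

open Finset

variable {V : Type} [Fintype V] [DecidableEq V]

def Arc (τ : V → V → F) (u v : V) : Prop := u ≠ v ∧ τ u v = 0

theorem arc_irrefl (τ : V → V → F) (u : V) : ¬ Arc τ u u := fun h => h.1 rfl

theorem arc_tour {τ : V → V → F} (h : Tour τ) (u v : V) (huv : u ≠ v) :
    Arc τ u v ↔ ¬ Arc τ v u := by
  have h1 := h u v huv
  simp only [Arc, huv, Ne.symm huv, ne_eq, not_false_eq_true, true_and]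
  revert h1
  generalize τ u v = a
  generalize τ v u = b
  revert a b
  decide

theorem step_iff {τ : V → V → F} (h : Tour τ) (g : V → V → F) (u v : V) :
    ((Arc τ u v ∧ g u v = 0) ∨ (Arc τ v u ∧ g u v = 1)) ↔ (u ≠ v ∧ τ u v + g u v = 0) := by
  by_cases huv : u = v
  · simp [Arc, huv]
  · have h1 := h u v huv
    simp only [Arc, huv, Ne.symm huv, ne_eq, not_false_eq_true, true_and]
    revert h1
    generalize τ u v = a
    generalize τ v u = b
    generalize g u v = c
    revert a b c
    decide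

theorem dec_iff {τ : V → V → F} (h : Tour τ) (g : V → V → F) :
    Dec τ g ↔ ∃ f : V → ℕ, ∀ u v,
      ((Arc τ u v ∧ g u v = 0) ∨ (Arc τ v u ∧ g u v = 1)) → f u < f v := by
  simp only [step_iff h, Dec, and_imp]

theorem acyc_iff (R : V → V → Prop) :
    (∀ x, ¬ Relation.TransGen R x x) ↔ ∃ f : V → ℕ, ∀ u v, R u v → f u < f v := by
  classical
  constructor
  · intro h
    refine ⟨fun u => (univ.filter (fun w => Relation.TransGen R w u)).card, fun u v huv => ?_⟩
    apply card_lt_card
    refine ⟨fun w hw => ?_, fun hsub => ?_⟩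
    · simp only [mem_filter, mem_univ, true_and] at hw ⊢
      exact hw.tail huv
    · have := hsub (mem_filter.2 ⟨mem_univ u, Relation.TransGen.single huv⟩)
      exact h u (mem_filter.1 this).2
  · rintro ⟨f, hf⟩ x hx
    have : ∀ a b, Relation.TransGen R a b → f a < f b := by
      intro a b hab
      induction hab with
      | single h => exact hf _ _ h
      | tail _ h ih => exact ih.trans (hf _ _ h)
    exact lt_irrefl _ (this x x hx)

theorem cast_card {m : ℕ} (p q : Fin m → Prop) [DecidablePred p] [DecidablePred q] :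
    (((univ.filter (fun i => p i ∧ q i)).card : ℕ) : F)
      = ∑ i, (if p i then (1 : F) else 0) * (if q i then 1 else 0) := by
  rw [Finset.card_filter]
  push_cast
  apply Finset.sum_congr rfl
  intro i _
  by_cases hp : p i <;> by_cases hq : q i <;> simp [hp, hq]

theorem even_iff (a : ℕ) : Even a ↔ (a : F) = 0 := ZMod.natCast_eq_zero_iff_even.symm

theorem odd_iff (a : ℕ) : Odd a ↔ (a : F) = 1 := ZMod.natCast_eq_one_iff_odd.symm

theorem ite_one (a : F) [Decidable (a = 1)] : (if a = 1 then (1 : F) else 0) = a := by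
  rcases f_cases a with h | h
  · rw [if_neg (by rw [h]; decide), h]
  · rw [if_pos h, h]

theorem invS_finset {τ : V → V → F} (h : Tour τ) :
    {k : ℕ | ∃ X : Fin k → Finset V, ∃ f : V → ℕ, ∀ u v,
      ((Arc τ u v ∧ Even (Finset.univ.filter (fun i => u ∈ X i ∧ v ∈ X i)).card) ∨
        (Arc τ v u ∧ Odd (Finset.univ.filter (fun i => u ∈ X i ∧ v ∈ X i)).card)) → f u < f v}
      = InvS τ := by
  ext k
  simp only [Set.mem_ofPred_eq, InvS, dec_iff h, even_iff, odd_iff, cast_card]
  constructor
  · rintro ⟨X, hX⟩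
    exact ⟨fun i u => if u ∈ X i then 1 else 0, hX⟩
  · rintro ⟨X, hX⟩
    refine ⟨fun i => univ.filter (fun u => X i u = 1), ?_⟩
    simpa only [mem_filter, mem_univ, true_and, ite_one] using hX

theorem invS_set {τ : V → V → F} (h : Tour τ) :
    {k : ℕ | ∃ X : Fin k → Set V, ∃ f : V → ℕ, ∀ u v,
      ((Arc τ u v ∧ Even (Nat.card {j : Fin k // u ∈ X j ∧ v ∈ X j})) ∨
        (Arc τ v u ∧ Odd (Nat.card {j : Fin k // u ∈ X j ∧ v ∈ X j}))) → f u < f v}
      = InvS τ := by
  classical
  ext k
  simp only [Set.mem_ofPred_eq, InvS, dec_iff h, even_iff, odd_iff, Nat.card_eq_fintype_card,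
    Fintype.card_subtype, cast_card]
  constructor
  · rintro ⟨X, hX⟩
    exact ⟨fun i u => if u ∈ X i then 1 else 0, hX⟩
  · rintro ⟨X, hX⟩
    refine ⟨fun i => {u | X i u = 1}, ?_⟩
    simpa only [Set.mem_ofPred_eq, ite_one] using hX

theorem invS_acyc {τ : V → V → F} (h : Tour τ) :
    {m : ℕ | ∃ X : Fin m → V → ZMod 2, ∀ x, ¬ Relation.TransGen
      (fun u v => (Arc τ u v ∧ ∑ i, X i u * X i v = 0) ∨ (Arc τ v u ∧ ∑ i, X i u * X i v = 1)) x x}
      = InvS τ := by
  ext k
  simp only [Set.mem_ofPred_eq, InvS, dec_iff h, acyc_iff]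

theorem tmrS_inj {τ : V → V → F} (h : Tour τ) :
    {r : ℕ | ∃ f : V → ℕ, Function.Injective f ∧ ∃ M : Matrix V V (ZMod 2), M.IsSymm ∧
      (∀ u v, u ≠ v → (M u v = 1 ↔ ((Arc τ u v ∧ f v < f u) ∨ (Arc τ v u ∧ f u < f v)))) ∧
      M.rank = r} = TmrS τ := by
  ext r
  simp only [Set.mem_ofPred_eq, TmrS]
  constructor
  · rintro ⟨f, hf, M, hs, hM, hr⟩
    refine ⟨M, hs, hr, f, fun u v huv h0 => ?_⟩
    have h1 := hM u v huv
    have h2 := arc_tour h u v huv
    have h3 : f u ≠ f v := fun e => huv (hf e)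
    rcases f_cases (τ u v) with ha | ha
    · have hA : Arc τ u v := ⟨huv, ha⟩
      rw [ha, zero_add] at h0
      rw [h0] at h1
      have h4 : ¬ f v < f u := fun hlt => absurd (h1.2 (Or.inl ⟨hA, hlt⟩)) (by decide)
      omega
    · have hA : ¬ Arc τ u v := fun hA => by
        rw [hA.2] at ha
        exact absurd ha (by decide)
      have h4 : M u v = 1 := by
        rw [ha] at h0
        revert h0
        generalize M u v = a
        revert a
        decide
      rcases h1.1 h4 with h5 | h5
      · exact absurd h5.1 hA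
      · exact h5.2
  · rintro ⟨M, hs, hr, f, hf⟩
    have key : ∀ u v, u ≠ v → (τ u v + M u v = 0 ∧ f u < f v) ∨ (τ u v + M u v = 1 ∧ f v < f u) := by
      intro u v huv
      rcases f_cases (τ u v + M u v) with h0 | h1
      · exact Or.inl ⟨h0, hf u v huv h0⟩
      · refine Or.inr ⟨h1, hf v u (Ne.symm huv) ?_⟩
        have h4 := h u v huv
        have h2 := f_add_self (M u v)
        rw [hs.apply u v]
        linear_combination h4 - h1 + h2
    refine ⟨f, ?_, M, hs, ?_, hr⟩
    · intro u v huv
      by_contra hne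
      rcases key u v hne with h1 | h1 <;> omega
    · intro u v huv
      have h4 := h u v huv
      simp only [Arc, huv, Ne.symm huv, ne_eq, not_false_eq_true, true_and]
      rcases key u v huv with ⟨h1, h2⟩ | ⟨h1, h2⟩
      · simp only [h2, not_lt.2 h2.le, and_true, and_false, false_or]
        revert h1 h4
        generalize τ u v = a
        generalize τ v u = b
        generalize M u v = c
        revert a b c
        decide
      · simp only [h2, not_lt.2 h2.le, and_true, and_false, or_false]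
        revert h1 h4
        generalize τ u v = a
        generalize τ v u = b
        generalize M u v = c
        revert a b c
        decide

theorem tmrS_iff (τ : V → V → F) :
    {r : ℕ | ∃ M : Matrix V V (ZMod 2), M.IsSymm ∧ M.rank = r ∧
      ∃ f : V → ℕ, ∀ u v, u ≠ v → (Arc τ u v ↔ M u v = 0) → f u < f v} = TmrS τ := by
  have e : ∀ (M : Matrix V V F) u v, u ≠ v → ((Arc τ u v ↔ M u v = 0) ↔ τ u v + M u v = 0) := by
    intro M u v huv
    simp only [Arc, huv, ne_eq, not_false_eq_true, true_and]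
    generalize τ u v = a
    generalize M u v = c
    revert a c
    decide
  ext r
  simp only [Set.mem_ofPred_eq, TmrS, Dec]
  constructor
  · rintro ⟨M, hs, hr, f, hf⟩
    exact ⟨M, hs, hr, f, fun u v huv h0 => hf u v huv ((e M u v huv).2 h0)⟩
  · rintro ⟨M, hs, hr, f, hf⟩
    exact ⟨M, hs, hr, f, fun u v huv h0 => hf u v huv ((e M u v huv).1 h0)⟩

variable {W : Type} [Fintype W] [DecidableEq W]

theorem arc_jn_lex (τ : V → V → F) (σ : W → W → F) : Sum.Lex (Arc τ) (Arc σ) = Arc (jn τ σ) := by
  funext u v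
  rcases u with a | a <;> rcases v with b | b <;> simp [Arc, jn]

theorem arc_jn_lift (τ : V → V → F) (σ : W → W → F) (u v : V ⊕ W) :
    (Sum.LiftRel (Arc τ) (Arc σ) u v ∨ (u.isLeft = true ∧ v.isRight = true)) ↔ Arc (jn τ σ) u v := by
  rcases u with a | a <;> rcases v with b | b <;> simp [Arc, jn]

theorem arc_jn_ex (τ : V → V → F) (σ : W → W → F) (x y : V ⊕ W) : Arc (jn τ σ) x y ↔
    ((∃ a b, x = Sum.inl a ∧ y = Sum.inl b ∧ Arc τ a b) ∨
      (∃ a b, x = Sum.inr a ∧ y = Sum.inr b ∧ Arc σ a b) ∨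
      (∃ a b, x = Sum.inl a ∧ y = Sum.inr b)) := by
  rcases x with a | a <;> rcases y with b | b <;> simp [Arc, jn]

end Pool.Agent.H12.Inv
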