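import Mathlib

set_option autoImplicit false

open Finset

namespace Pool.Agent.H12.Irr

open Classical in
/-- injective homomorphisms from F to G -/
noncomputable def Emb {n : ℕ} {W : Type} [Fintype W] (F : SimpleGraph (Fin n)) (G : SimpleGraph W) :
    Finset (Fin n → W) :=
  univ.filter (fun φ => Function.Injective φ ∧ ∀ x y, F.Adj x y → G.Adj (φ x) (φ y))

theorem mem_Emb {n : ℕ} {W : Type} [Fintype W] {F : SimpleGraph (Fin n)} {G : SimpleGraph W}
    {φ : Fin n → W} :
    φ ∈ Emb F G ↔ Function.Injective φ ∧ ∀ x y, F.Adj x y → G.Adj (φ x) (φ y) := by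
  classical
  simp [Emb]

open Classical in
noncomputable def D {n : ℕ} {W : Type} [Fintype W] (F : SimpleGraph (Fin n)) (G : SimpleGraph W)
    (v : W) : ℕ :=
  ((Emb F G).filter (fun φ => ∃ x, φ x = v)).card

/-- image subgraph -/
def img {n : ℕ} {W : Type} (F : SimpleGraph (Fin n)) (G : SimpleGraph W) (φ : Fin n → W) :
    G.Subgraph where
  verts := Set.range φ
  Adj u v := G.Adj u v ∧ ∃ x y, F.Adj x y ∧ φ x = u ∧ φ y = v
  adj_sub h := h.1
  edge_vert := by
    rintro u v ⟨_, x, y, _, rfl, _⟩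
    exact ⟨x, rfl⟩
  symm := ⟨by
    rintro u v ⟨h, x, y, hxy, rfl, rfl⟩
    exact ⟨h.symm, y, x, hxy.symm, rfl, rfl⟩⟩

open Classical in
noncomputable def Aut {n : ℕ} (F : SimpleGraph (Fin n)) : Finset (Fin n → Fin n) :=
  univ.filter (fun α => Function.Injective α ∧ ∀ x y, F.Adj (α x) (α y) ↔ F.Adj x y)

theorem Aut_pos {n : ℕ} (F : SimpleGraph (Fin n)) : 0 < (Aut F).card := by
  classical
  refine card_pos.2 ⟨id, ?_⟩
  simp [Aut, Function.injective_id]

theorem img_iso {n : ℕ} {W : Type} [Fintype W] {F : SimpleGraph (Fin n)} {G : SimpleGraph W}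
    {φ : Fin n → W} (h : φ ∈ Emb F G) : Nonempty ((img F G φ).coe ≃g F) := by
  obtain ⟨hi, ha⟩ := mem_Emb.1 h
  refine ⟨(SimpleGraph.Iso.symm ⟨Equiv.ofInjective φ hi, ?_⟩)⟩
  intro a b
  constructor
  · rintro ⟨_, x, y, hxy, hx, hy⟩
    have h1 : x = a := hi hx
    have h2 : y = b := hi hy
    subst h1 h2
    exact hxy
  · intro hab
    exact ⟨ha a b hab, a, b, hab, rfl, rfl⟩

theorem exists_of_iso {n : ℕ} {W : Type} [Fintype W] {F : SimpleGraph (Fin n)} {G : SimpleGraph W}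
    (H : G.Subgraph) (e : H.coe ≃g F) : ∃ φ ∈ Emb F G, img F G φ = H := by
  refine ⟨fun x => (e.symm x : W), mem_Emb.2 ⟨?_, ?_⟩, ?_⟩
  · intro x y hxy
    exact e.symm.injective (Subtype.ext hxy)
  · intro x y hxy
    have : H.coe.Adj (e.symm x) (e.symm y) := e.symm.map_rel_iff.2 hxy
    exact H.adj_sub this
  · apply SimpleGraph.Subgraph.ext
    · ext u
      constructor
      · rintro ⟨x, rfl⟩
        exact (e.symm x).2
      · intro hu
        exact ⟨e ⟨u, hu⟩, by simp⟩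
    · ext u v
      constructor
      · rintro ⟨_, x, y, hxy, rfl, rfl⟩
        have : H.coe.Adj (e.symm x) (e.symm y) := e.symm.map_rel_iff.2 hxy
        exact this
      · intro huv
        have hu := H.edge_vert huv
        have hv := H.edge_vert huv.symm
        refine ⟨H.adj_sub huv, e ⟨u, hu⟩, e ⟨v, hv⟩, ?_, by simp, by simp⟩
        exact e.map_rel_iff.2 huv

open Classical in
theorem fiber_card {n : ℕ} {W : Type} [Fintype W] {F : SimpleGraph (Fin n)} {G : SimpleGraph W}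
    {φ0 : Fin n → W} (h0 : φ0 ∈ Emb F G) :
    ((Emb F G).filter (fun φ => img F G φ = img F G φ0)).card = (Aut F).card := by
  obtain ⟨hi, ha⟩ := mem_Emb.1 h0
  symm
  refine card_bij (fun α _ => φ0 ∘ α) ?_ ?_ ?_
  · intro α hα
    simp only [Aut, mem_filter, mem_univ, true_and] at hα
    obtain ⟨hαi, hαa⟩ := hα
    have hs : Function.Surjective α := Finite.surjective_of_injective hαi
    refine mem_filter.2 ⟨mem_Emb.2 ⟨hi.comp hαi, fun x y hxy => ha _ _ ((hαa x y).2 hxy)⟩, ?_⟩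
    apply SimpleGraph.Subgraph.ext
    · exact hs.range_comp φ0
    · ext u v
      constructor
      · rintro ⟨h, x, y, hxy, rfl, rfl⟩
        exact ⟨h, α x, α y, (hαa x y).2 hxy, rfl, rfl⟩
      · rintro ⟨h, x, y, hxy, rfl, rfl⟩
        obtain ⟨x', rfl⟩ := hs x
        obtain ⟨y', rfl⟩ := hs y
        exact ⟨h, x', y', (hαa _ _).1 hxy, rfl, rfl⟩
  · intro α _ β _ h
    funext x
    exact hi (congrFun h x)
  · intro φ hφ
    obtain ⟨hφe, hφi⟩ := mem_filter.1 hφ
    obtain ⟨hj, hb⟩ := mem_Emb.1 hφe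
    have hr : ∀ x, ∃ y, φ0 y = φ x := by
      intro x
      have : φ x ∈ (img F G φ).verts := ⟨x, rfl⟩
      rw [hφi] at this
      exact this
    choose α hα using hr
    refine ⟨α, ?_, funext hα⟩
    simp only [Aut, mem_filter, mem_univ, true_and]
    refine ⟨fun x y hxy => hj (by rw [← hα, ← hα, hxy]), fun x y => ⟨fun hxy => ?_, fun hxy => ?_⟩⟩
    · have : (img F G φ0).Adj (φ x) (φ y) := by
        refine ⟨?_, α x, α y, hxy, hα x, hα y⟩
        rw [← hα, ← hα]; exact ha _ _ hxy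
      rw [← hφi] at this
      obtain ⟨_, x', y', h', hx, hy⟩ := this
      rw [← hj hx, ← hj hy]; exact h'
    · have : (img F G φ).Adj (φ x) (φ y) := ⟨hb _ _ hxy, x, y, hxy, rfl, rfl⟩
      rw [hφi] at this
      obtain ⟨_, x', y', h', hx, hy⟩ := this
      rw [← hα] at hx hy
      rw [← hi hx, ← hi hy]; exact h'

theorem ncard_mul {n : ℕ} {W : Type} [Fintype W] (F : SimpleGraph (Fin n)) (G : SimpleGraph W)
    (v : W) :
    {H : G.Subgraph | Nonempty (H.coe ≃g F) ∧ v ∈ H.verts}.ncard * (Aut F).card = D F G v := by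
  classical
  set E := (Emb F G).filter (fun φ => ∃ x, φ x = v) with hE
  have hset : {H : G.Subgraph | Nonempty (H.coe ≃g F) ∧ v ∈ H.verts}
      = ((E.image (img F G) : Finset G.Subgraph) : Set G.Subgraph) := by
    ext H
    simp only [Set.mem_ofPred_eq, coe_image, Set.mem_image, mem_coe]
    constructor
    · rintro ⟨⟨e⟩, hv⟩
      obtain ⟨φ, hφ, rfl⟩ := exists_of_iso H e
      exact ⟨φ, mem_filter.2 ⟨hφ, hv⟩, rfl⟩
    · rintro ⟨φ, hφ, rfl⟩
      obtain ⟨h1, h2⟩ := mem_filter.1 hφ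
      exact ⟨img_iso h1, h2⟩
  rw [hset, Set.ncard_coe_finset]
  have hD : D F G v = E.card := by
    unfold D; congr
  rw [hD, card_eq_sum_card_image (img F G) E, ← smul_eq_mul, ← sum_const]
  refine sum_congr rfl ?_
  intro H hH
  obtain ⟨φ0, hφ0, rfl⟩ := mem_image.1 hH
  obtain ⟨h1, h2⟩ := mem_filter.1 hφ0
  rw [← fiber_card h1]
  congr 1
  ext φ
  simp only [hE, mem_filter]
  constructor
  · rintro ⟨a, b⟩
    refine ⟨⟨a, ?_⟩, b⟩
    have : v ∈ (img F G φ0).verts := h2
    rw [← b] at this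
    exact this
  · rintro ⟨⟨a, _⟩, b⟩
    exact ⟨a, b⟩

theorem D_comap {n : ℕ} {W W' : Type} [Fintype W] [Fintype W'] (F : SimpleGraph (Fin n))
    (G : SimpleGraph W) (e : W' ≃ W) (v : W') : D F (G.comap e) v = D F G (e v) := by
  classical
  unfold D
  refine card_bij (fun φ _ => e ∘ φ) ?_ ?_ ?_
  · intro φ hφ
    simp only [mem_filter, mem_Emb] at hφ ⊢
    obtain ⟨⟨h1, h2⟩, x, hx⟩ := hφ
    exact ⟨⟨e.injective.comp h1, h2⟩, x, by simp [hx]⟩
  · intro φ _ ψ _ h
    funext x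
    exact e.injective (congrFun h x)
  · intro φ hφ
    simp only [mem_filter, mem_Emb] at hφ
    obtain ⟨⟨h1, h2⟩, x, hx⟩ := hφ
    refine ⟨e.symm ∘ φ, ?_, by funext x; simp⟩
    simp only [mem_filter, mem_Emb]
    refine ⟨⟨e.symm.injective.comp h1, fun x y hxy => ?_⟩, x, by simp [hx]⟩
    simpa using h2 x y hxy

theorem reduce {n : ℕ} {W : Type} [Fintype W] (F : SimpleGraph (Fin n)) (G : SimpleGraph W)
    (hW : 2 ≤ Fintype.card W) (hD : Function.Injective (D F G)) :
    ∃ (m : ℕ) (G : SimpleGraph (Fin m)), 2 ≤ m ∧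
        Function.Injective
          (fun v : Fin m =>
            {H : G.Subgraph | Nonempty (H.coe ≃g F) ∧ v ∈ H.verts}.ncard) := by
  refine ⟨Fintype.card W, G.comap (Fintype.equivFin W).symm, hW, ?_⟩
  intro u v huv
  have h1 := ncard_mul F (G.comap (Fintype.equivFin W).symm) u
  have h2 := ncard_mul F (G.comap (Fintype.equivFin W).symm) v
  simp only at huv
  rw [huv, h2, D_comap, D_comap] at h1
  exact (Fintype.equivFin W).symm.injective (hD h1.symm)

end Pool.Agent.H12.Irr
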