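import Pool.Agent.H12.Irr1

set_option autoImplicit false

open Finset

namespace Pool.Agent.H12.Irr

/-- upper bound: functions whose range contains a given set -/
theorem upper {n : ℕ} {W : Type} [Fintype W] (hW : 1 ≤ Fintype.card W) (E : Finset (Fin n → W))
    (X : Finset W) (k : ℕ) (hk : k ≤ X.card) (hE : ∀ φ ∈ E, ∀ v ∈ X, ∃ x, φ x = v) :
    E.card * Fintype.card W ^ k ≤ n ^ n * Fintype.card W ^ n := by
  classical
  refine le_trans (Nat.mul_le_mul_left _ (Nat.pow_le_pow_right hW hk)) ?_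
  rcases E.eq_empty_or_nonempty with rfl | ⟨φ1, hφ1⟩
  · simp
  have hXn : X.card ≤ n := by
    have : X ⊆ univ.image φ1 := by
      intro v hv
      obtain ⟨x, hx⟩ := hE φ1 hφ1 v hv
      exact mem_image.2 ⟨x, mem_univ _, hx⟩
    refine (card_le_card this).trans (card_image_le.trans (by simp))
  -- injection E × (X → W) into (X → Fin n) × (Fin n → W)
  have hs : ∀ φ : E, ∀ v : X, ∃ x, φ.1 x = v.1 := fun φ v => hE φ.1 φ.2 v.1 v.2
  choose s hs using hs
  let f : E × (X → W) → (X → Fin n) × (Fin n → W) := fun p =>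
    (s p.1, fun x => if h : ∃ v : X, s p.1 v = x then p.2 h.choose else p.1.1 x)
  have hf : Function.Injective f := by
    rintro ⟨φ, a⟩ ⟨ψ, b⟩ h
    simp only [f, Prod.mk.injEq] at h
    obtain ⟨h1, h2⟩ := h
    have hφψ : φ = ψ := by
      apply Subtype.ext
      funext x
      by_cases hx : ∃ v : X, s φ v = x
      · obtain ⟨v, rfl⟩ := hx
        rw [hs φ v, h1, hs ψ v]
      · have := congrFun h2 x
        rw [dif_neg hx, dif_neg (h1 ▸ hx)] at this
        exact this
    subst hφψ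
    refine Prod.ext rfl ?_
    funext v
    have := congrFun h2 (s φ v)
    have hx : ∃ v' : X, s φ v' = s φ v := ⟨v, rfl⟩
    rw [dif_pos hx, dif_pos hx] at this
    have hc : hx.choose = v := by
      apply Subtype.ext
      rw [← hs φ hx.choose, hx.choose_spec, hs φ v]
    rw [hc] at this
    exact this
  have := Fintype.card_le_of_injective f hf
  simp only [Fintype.card_prod, Fintype.card_coe, Fintype.card_fun, Fintype.card_fin] at this
  refine this.trans (Nat.mul_le_mul_right _ ?_)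
  rcases Nat.eq_zero_or_pos n with rfl | hn
  · have : X.card = 0 := by omega
    simp [this]
  · exact Nat.pow_le_pow_right hn hXn

/-- lower bound: prescribed values on P, the rest inside a clique -/
theorem lower {n : ℕ} {W : Type} [Fintype W] (F : SimpleGraph (Fin n)) (G : SimpleGraph W)
    (K : Finset W) (m : ℕ) (hK : m ≤ K.card) (hc : ∀ u ∈ K, ∀ v ∈ K, u ≠ v → G.Adj u v)
    (P : Finset (Fin n)) (φ0 : Fin n → W) (hi : Set.InjOn φ0 P)
    (h1 : ∀ x ∈ P, ∀ y ∈ P, F.Adj x y → G.Adj (φ0 x) (φ0 y))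
    (h2 : ∀ x ∈ P, ∀ y, y ∉ P → F.Adj x y → φ0 x ∈ K)
    (E : Finset (Fin n → W))
    (hE : ∀ φ ∈ Emb F G, (∀ x ∈ P, φ x = φ0 x) → (∀ x, x ∉ P → φ x ∈ K) → φ ∈ E) :
    (m - n) ^ (n - P.card) ≤ E.card := by
  classical
  set K' := K \ P.image φ0 with hK'
  have hcard : m - P.card ≤ K'.card := by
    have := le_card_sdiff (P.image φ0) K
    have h3 : (P.image φ0).card ≤ P.card := card_image_le
    rw [hK']
    omega
  have hPn : P.card ≤ n := by simpa using card_le_univ P
  let f : ({x // x ∉ P} ↪ K') → E := fun ψ =>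
    ⟨fun x => if h : x ∈ P then φ0 x else (ψ ⟨x, h⟩).1, by
      have hmem : ∀ x (h : x ∉ P), (ψ ⟨x, h⟩).1 ∈ K ∧ ∀ y ∈ P, φ0 y ≠ (ψ ⟨x, h⟩).1 := by
        intro x h
        have := mem_sdiff.1 (ψ ⟨x, h⟩).2
        exact ⟨this.1, fun y hy he => this.2 (mem_image.2 ⟨y, hy, he⟩)⟩
      have hinj : Function.Injective (fun x => if h : x ∈ P then φ0 x else (ψ ⟨x, h⟩).1) := by
        intro x y hxy
        by_cases hx : x ∈ P <;> by_cases hy : y ∈ P <;> simp only [hx, hy, dif_pos, dif_neg,
          not_false_eq_true] at hxy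
        · exact hi hx hy hxy
        · exact absurd hxy ((hmem y hy).2 x hx)
        · exact absurd hxy.symm ((hmem x hx).2 y hy)
        · have := ψ.injective (Subtype.ext hxy)
          exact congrArg Subtype.val this
      apply hE
      · refine mem_Emb.2 ⟨hinj, fun x y hxy => ?_⟩
        have hne := hinj.ne hxy.ne
        by_cases hx : x ∈ P <;> by_cases hy : y ∈ P <;> simp only [hx, hy, dif_pos, dif_neg,
          not_false_eq_true] at hne ⊢
        · exact h1 x hx y hy hxy
        · exact hc _ (h2 x hx y hy hxy) _ (hmem y hy).1 hne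
        · exact hc _ (hmem x hx).1 _ (h2 y hy x hx hxy.symm) hne
        · exact hc _ (hmem x hx).1 _ (hmem y hy).1 hne
      · intro x hx
        simp [hx]
      · intro x hx
        simp only [hx, dif_neg, not_false_eq_true]
        exact (hmem x hx).1⟩
  have hf : Function.Injective f := by
    intro ψ χ h
    ext ⟨x, hx⟩
    have := congrFun (congrArg Subtype.val h) x
    simpa [f, hx] using this
  have := Fintype.card_le_of_injective f hf
  rw [Fintype.card_embedding_eq, Fintype.card_coe, Fintype.card_coe] at this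
  have hq : Fintype.card {x // x ∉ P} = n - P.card := by
    rw [Fintype.card_subtype_compl, Fintype.card_coe]; simp
  rw [hq] at this
  refine le_trans ?_ this
  refine le_trans ?_ (Nat.pow_sub_le_descFactorial _ _)
  exact Nat.pow_le_pow_left (by omega) _

theorem compare {n N m k a b c : ℕ} (hk : k ≤ n) (ha : a * N ^ (k + 1) ≤ c * N ^ n)
    (hb : (m - n) ^ (n - k) ≤ b) (hN : N ≤ 6 * (m - n)) (hc : c * 6 ^ n < N) : a < b := by
  have hN0 : 0 < N := by omega
  have h1 : N ^ n ≤ N ^ k * (6 ^ n * b) := by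
    have : N ^ n = N ^ k * N ^ (n - k) := by rw [← pow_add]; congr 1; omega
    rw [this]
    refine Nat.mul_le_mul_left _ ?_
    refine (Nat.pow_le_pow_left hN _).trans ?_
    rw [mul_pow]
    exact Nat.mul_le_mul (Nat.pow_le_pow_right (by norm_num) (by omega)) hb
  have hb0 : 0 < b := lt_of_lt_of_le (Nat.pow_pos (by omega)) hb
  have h2 : N ^ k * (a * N) ≤ N ^ k * (c * 6 ^ n * b) := by
    calc N ^ k * (a * N) = a * N ^ (k + 1) := by ring
      _ ≤ c * N ^ n := ha
      _ ≤ c * (N ^ k * (6 ^ n * b)) := Nat.mul_le_mul_left _ h1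
      _ = _ := by ring
  have h3 := Nat.le_of_mul_le_mul_left h2 (Nat.pow_pos hN0)
  have h4 : c * 6 ^ n * b < N * b := Nat.mul_lt_mul_of_pos_right hc hb0
  have h5 : N * a < N * b := by rw [mul_comm N a]; omega
  exact Nat.lt_of_mul_lt_mul_left h5

open Classical in
/-- injective maps into T -/
noncomputable def Inj (n : ℕ) {W : Type} [Fintype W] (T : Finset W) : Finset (Fin n → W) :=
  univ.filter (fun φ => Function.Injective φ ∧ ∀ x, φ x ∈ T)

theorem mem_Inj {n : ℕ} {W : Type} [Fintype W] {T : Finset W} {φ : Fin n → W} :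
    φ ∈ Inj n T ↔ Function.Injective φ ∧ ∀ x, φ x ∈ T := by
  classical
  simp [Inj]

theorem card_Inj (n : ℕ) {W : Type} [Fintype W] (T : Finset W) :
    (Inj n T).card = T.card.descFactorial n := by
  classical
  have : Fintype.card (Fin n ↪ T) = T.card.descFactorial n := by
    rw [Fintype.card_embedding_eq]; simp
  rw [← this, ← card_univ]
  symm
  refine card_bij (fun ψ _ => fun x => (ψ x).1) ?_ ?_ ?_
  · intro ψ _
    exact mem_Inj.2 ⟨fun x y h => ψ.injective (Subtype.ext h), fun x => (ψ x).2⟩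
  · intro ψ _ χ _ h
    ext x
    exact congrFun h x
  · intro φ hφ
    obtain ⟨h1, h2⟩ := mem_Inj.1 hφ
    exact ⟨⟨fun x => ⟨φ x, h2 x⟩, fun x y h => h1 (congrArg Subtype.val h)⟩, mem_univ _, rfl⟩

theorem desc_succ (x k : ℕ) :
    (x + 1).descFactorial (k + 1) = x.descFactorial (k + 1) + (k + 1) * x.descFactorial k := by
  rw [Nat.succ_descFactorial_succ, Nat.descFactorial_succ]
  by_cases h : k ≤ x
  · rw [← add_mul]; congr 1; omega
  · rw [Nat.descFactorial_eq_zero_iff_lt.2 (by omega)]; simp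

open Classical in
theorem card_Inj1 (n : ℕ) {W : Type} [Fintype W] (T : Finset W) (v : W) (hv : v ∈ T) :
    ((Inj (n + 1) T).filter (fun φ => ∃ x, φ x = v)).card
      = (n + 1) * (T.card - 1).descFactorial n := by
  have h1 := card_filter_add_card_filter_not (s := Inj (n + 1) T) (fun φ => ∃ x, φ x = v)
  have h2 : (Inj (n + 1) T).filter (fun φ => ¬ ∃ x, φ x = v) = Inj (n + 1) (T.erase v) := by
    ext φ
    simp only [mem_filter, mem_Inj, mem_erase, not_exists]
    constructor
    · rintro ⟨⟨a, b⟩, c⟩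
      exact ⟨a, fun x => ⟨c x, b x⟩⟩
    · rintro ⟨a, b⟩
      exact ⟨⟨a, fun x => (b x).2⟩, fun x => (b x).1⟩
  rw [h2, card_Inj, card_Inj, card_erase_of_mem hv] at h1
  have h3 : T.card = (T.card - 1) + 1 := by
    have := card_pos.2 ⟨v, hv⟩
    omega
  have h4 := desc_succ (T.card - 1) n
  rw [← h3] at h4
  omega

open Classical in
theorem card_Inj2 (n : ℕ) {W : Type} [Fintype W] (T : Finset W) (u v : W) (hu : u ∈ T)
    (hv : v ∈ T) (huv : u ≠ v) :
    ((Inj (n + 2) T).filter (fun φ => (∃ x, φ x = u) ∧ ∃ x, φ x = v)).card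
      = (n + 2) * ((n + 1) * (T.card - 2).descFactorial n) := by
  have h1 := card_filter_add_card_filter_not
    (s := (Inj (n + 2) T).filter (fun φ => ∃ x, φ x = u)) (fun φ => ∃ x, φ x = v)
  have h2 : ((Inj (n + 2) T).filter (fun φ => ∃ x, φ x = u)).filter (fun φ => ¬ ∃ x, φ x = v)
      = (Inj (n + 2) (T.erase v)).filter (fun φ => ∃ x, φ x = u) := by
    ext φ
    simp only [mem_filter, mem_Inj, mem_erase, not_exists]
    constructor
    · rintro ⟨⟨⟨a, b⟩, d⟩, c⟩
      exact ⟨⟨a, fun x => ⟨c x, b x⟩⟩, d⟩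
    · rintro ⟨⟨a, b⟩, d⟩
      exact ⟨⟨⟨a, fun x => (b x).2⟩, d⟩, fun x => (b x).1⟩
  rw [h2, card_Inj1 (n + 1) T u hu, card_Inj1 (n + 1) _ u (mem_erase.2 ⟨huv, hu⟩),
    card_erase_of_mem hv, filter_filter] at h1
  have h3 : T.card - 1 = (T.card - 2) + 1 := by
    have : 1 < T.card := one_lt_card.2 ⟨u, hu, v, hv, huv⟩
    omega
  have h4 := desc_succ (T.card - 2) n
  rw [← h3] at h4
  rw [h4, show T.card - 1 - 1 = T.card - 2 by omega, mul_add, add_comm] at h1
  exact Nat.add_left_cancel h1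

theorem desc_lt {x y k : ℕ} (hk : 1 ≤ k) (hxy : x < y) (hy : k ≤ y) :
    x.descFactorial k < y.descFactorial k := by
  obtain ⟨k, rfl⟩ : ∃ j, k = j + 1 := ⟨k - 1, by omega⟩
  obtain ⟨y, rfl⟩ : ∃ j, y = j + 1 := ⟨y - 1, by omega⟩
  rw [desc_succ]
  have h1 : x.descFactorial (k + 1) ≤ y.descFactorial (k + 1) :=
    Nat.descFactorial_le _ (by omega)
  have h2 : 0 < y.descFactorial k := Nat.descFactorial_pos.2 (by omega)
  have : 0 < (k + 1) * y.descFactorial k := Nat.mul_pos (by omega) h2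
  omega

end Pool.Agent.H12.Irr
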