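import Pool.Agent.H12.Irr2

set_option autoImplicit false

open Finset

namespace Pool.Agent.H12.Irr

theorem D_eq {n : ℕ} {W : Type} [Fintype W] (F : SimpleGraph (Fin n)) (G : SimpleGraph W) (v : W)
    (E : Finset (Fin n → W)) (h : ∀ φ, φ ∈ E ↔ φ ∈ Emb F G ∧ ∃ x, φ x = v) :
    D F G v = E.card := by
  classical
  unfold D
  congr 1
  ext φ
  rw [h, mem_filter]

abbrev W (ι : Type) (m : ℕ) := ι ⊕ (Bool × Fin m)

def adj {ι : Type} {m : ℕ} (S : ι → Fin m → Prop) : W ι m → W ι m → Prop
  | .inl _, .inl _ => False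
  | .inl t, .inr p => p.1 = true ∧ S t p.2
  | .inr p, .inl t => p.1 = true ∧ S t p.2
  | .inr p, .inr q => p ≠ q ∧ (p.1 = q.1 ∨ m ≤ p.2.1 + q.2.1)

def GG {ι : Type} {m : ℕ} (S : ι → Fin m → Prop) : SimpleGraph (W ι m) where
  Adj := adj S
  symm := ⟨by
    rintro (t | p) (t' | q) h
    · exact h
    · exact h
    · exact h
    · exact ⟨h.1.symm, h.2.imp Eq.symm (fun h => by omega)⟩⟩
  loopless := ⟨by
    rintro (t | p) h
    · exact h
    · exact h.1 rfl⟩

section
variable {ι : Type} {m : ℕ} (S : ι → Fin m → Prop)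

theorem adj_ll (t t' : ι) : ¬ (GG S).Adj (.inl t) (.inl t') := fun h => h
theorem adj_lr (t : ι) (p : Bool × Fin m) :
    (GG S).Adj (.inl t) (.inr p) ↔ p.1 = true ∧ S t p.2 := Iff.rfl
theorem adj_rl (t : ι) (p : Bool × Fin m) :
    (GG S).Adj (.inr p) (.inl t) ↔ p.1 = true ∧ S t p.2 := Iff.rfl
theorem adj_rr (p q : Bool × Fin m) :
    (GG S).Adj (.inr p) (.inr q) ↔ p ≠ q ∧ (p.1 = q.1 ∨ m ≤ p.2.1 + q.2.1) := Iff.rfl
end

/-- side swap -/
def sw {ι : Type} {m : ℕ} : W ι m → W ι m
  | .inl t => .inl t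
  | .inr p => .inr (!p.1, p.2)

theorem sw_sw {ι : Type} {m : ℕ} (v : W ι m) : sw (sw v) = v := by
  rcases v with t | p <;> simp [sw]

theorem sw_inj {ι : Type} {m : ℕ} : Function.Injective (sw : W ι m → W ι m) :=
  Function.LeftInverse.injective sw_sw

section
variable {n m : ℕ} {ι : Type} [Fintype ι] (F : SimpleGraph (Fin n)) (S : ι → Fin m → Prop)

open Classical in
noncomputable def E0 : Finset (Fin n → W ι m) :=
  (Emb F (GG S)).filter (fun φ => ∀ x t, φ x ≠ .inl t)

open Classical in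
noncomputable def D0 (v : W ι m) : ℕ := ((E0 F S).filter (fun φ => ∃ x, φ x = v)).card

open Classical in
noncomputable def Eg (v : W ι m) : Finset (Fin n → W ι m) :=
  (Emb F (GG S)).filter (fun φ => (∃ x, φ x = v) ∧ ∃ x t, φ x = .inl t)

open Classical in
noncomputable def Gam (i j : Fin m) : Finset (Fin n → W ι m) :=
  (E0 F S).filter (fun φ => (∃ x y, F.Adj x y ∧ φ x = .inr (true, j) ∧
    ∃ l : Fin m, φ y = .inr (false, l) ∧ l.1 + i.1 < m) ∧ ∀ x, φ x ≠ .inr (true, i))

theorem mem_E0 {φ : Fin n → W ι m} :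
    φ ∈ E0 F S ↔ φ ∈ Emb F (GG S) ∧ ∀ x t, φ x ≠ .inl t := by
  classical
  simp [E0]

theorem mem_Eg {v : W ι m} {φ : Fin n → W ι m} :
    φ ∈ Eg F S v ↔ φ ∈ Emb F (GG S) ∧ (∃ x, φ x = v) ∧ ∃ x t, φ x = .inl t := by
  classical
  simp [Eg]

theorem mem_Gam {i j : Fin m} {φ : Fin n → W ι m} :
    φ ∈ Gam F S i j ↔ φ ∈ E0 F S ∧ (∃ x y, F.Adj x y ∧ φ x = .inr (true, j) ∧
    ∃ l : Fin m, φ y = .inr (false, l) ∧ l.1 + i.1 < m) ∧ ∀ x, φ x ≠ .inr (true, i) := by
  classical
  simp only [Gam, mem_filter]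

theorem D_split (v : W ι m) : D F (GG S) v = D0 F S v + (Eg F S v).card := by
  classical
  unfold D0
  rw [D_eq F (GG S) v ((Emb F (GG S)).filter (fun φ => ∃ x, φ x = v)) (fun φ => mem_filter),
    ← card_filter_add_card_filter_not
    (s := (Emb F (GG S)).filter (fun φ => ∃ x, φ x = v)) (fun φ => ∀ x t, φ x ≠ .inl t)]
  congr 2
  · ext φ
    simp only [mem_filter, mem_E0]
    tauto
  · ext φ
    simp only [mem_filter, mem_Eg, not_forall, ne_eq, not_not]
    tauto

theorem sw_E0 {φ : Fin n → W ι m} (h : φ ∈ E0 F S) : sw ∘ φ ∈ E0 F S := by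
  obtain ⟨h1, h2⟩ := (mem_E0 F S).1 h
  obtain ⟨hi, ha⟩ := mem_Emb.1 h1
  refine (mem_E0 F S).2 ⟨mem_Emb.2 ⟨sw_inj.comp hi, fun x y hxy => ?_⟩, fun x t => ?_⟩
  · have := ha x y hxy
    simp only [Function.comp]
    rcases hx : φ x with t | p
    · exact absurd hx (h2 x t)
    rcases hy : φ y with t | q
    · exact absurd hy (h2 y t)
    rw [hx, hy, adj_rr] at this
    simp only [sw, adj_rr]
    refine ⟨fun he => this.1 ?_, this.2.imp (fun h => by rw [h]) id⟩
    simp only [Prod.mk.injEq, Bool.not_inj_iff] at he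
    exact Prod.ext he.1 he.2
  · simp only [Function.comp]
    rcases hx : φ x with t' | p
    · exact absurd hx (h2 x t')
    · simp [sw]

theorem D0_sw (v : W ι m) : D0 F S (sw v) = D0 F S v := by
  classical
  unfold D0
  refine card_bij (fun φ _ => sw ∘ φ) ?_ ?_ ?_
  · intro φ hφ
    obtain ⟨h1, x, hx⟩ := mem_filter.1 hφ
    exact mem_filter.2 ⟨sw_E0 F S h1, x, by simp [hx, sw_sw]⟩
  · intro φ _ ψ _ h
    funext x
    exact sw_inj (congrFun h x)
  · intro φ hφ
    obtain ⟨h1, x, hx⟩ := mem_filter.1 hφ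
    exact ⟨sw ∘ φ, mem_filter.2 ⟨sw_E0 F S h1, x, by simp [hx]⟩, by funext x; simp [sw_sw]⟩

theorem D0_side (s : Bool) (i : Fin m) : D0 F S (.inr (s, i)) = D0 F S (.inr (true, i)) := by
  cases s
  · exact D0_sw F S (.inr (true, i))
  · rfl

omit [Fintype ι] in
theorem nested {i j : Fin m} (hij : i < j) (q : Bool × Fin m) (hq : q ≠ (true, j))
    (h : (GG S).Adj (.inr (true, i)) (.inr q)) : (GG S).Adj (.inr (true, j)) (.inr q) := by
  rw [adj_rr] at h ⊢
  have : i.1 < j.1 := hij
  exact ⟨hq.symm, h.2.imp id (fun h => by simp only at h ⊢; omega)⟩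

theorem gap {i j : Fin m} (hij : i < j) :
    D0 F S (.inr (true, i)) + (Gam F S i j).card ≤ D0 F S (.inr (true, j)) := by
  classical
  unfold D0
  set a : W ι m := .inr (true, i) with ha
  set b : W ι m := .inr (true, j) with hb
  have hab : a ≠ b := by
    intro h
    simp only [ha, hb, Sum.inr.injEq, Prod.mk.injEq, true_and] at h
    exact absurd h hij.ne
  rw [← card_filter_add_card_filter_not
    (s := (E0 F S).filter (fun φ => ∃ x, φ x = a)) (fun φ => ∃ x, φ x = b),
    ← card_filter_add_card_filter_not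
    (s := (E0 F S).filter (fun φ => ∃ x, φ x = b)) (fun φ => ∃ x, φ x = a)]
  have e1 : ((E0 F S).filter (fun φ => ∃ x, φ x = a)).filter (fun φ => ∃ x, φ x = b)
      = ((E0 F S).filter (fun φ => ∃ x, φ x = b)).filter (fun φ => ∃ x, φ x = a) := by
    ext φ; simp only [mem_filter]; tauto
  rw [e1, add_assoc]
  refine Nat.add_le_add_left ?_ _
  set X := ((E0 F S).filter (fun φ => ∃ x, φ x = a)).filter (fun φ => ¬ ∃ x, φ x = b) with hX
  set Y := ((E0 F S).filter (fun φ => ∃ x, φ x = b)).filter (fun φ => ¬ ∃ x, φ x = a) with hY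
  have hinj : Function.Injective (fun φ : Fin n → W ι m => Equiv.swap a b ∘ φ) := by
    intro φ ψ h
    funext x
    exact (Equiv.swap a b).injective (congrFun h x)
  rw [← card_image_of_injective X hinj, ← card_union_of_disjoint]
  · refine card_le_card (union_subset ?_ ?_)
    · intro ψ hψ
      obtain ⟨φ, hφ, rfl⟩ := mem_image.1 hψ
      simp only [hX, mem_filter, not_exists] at hφ
      obtain ⟨⟨h0, x0, hx0⟩, hnb⟩ := hφ
      obtain ⟨h1, h2⟩ := (mem_E0 F S).1 h0
      obtain ⟨hi, had⟩ := mem_Emb.1 h1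
      have hval : ∀ x, Equiv.swap a b (φ x) = if φ x = a then b else φ x := by
        intro x
        by_cases hx : φ x = a
        · simp [hx]
        · rw [if_neg hx, Equiv.swap_apply_of_ne_of_ne hx (hnb x)]
      have hkey : ∀ x y, F.Adj x y → φ x = a → (GG S).Adj b (φ y) := by
        intro x y hxy hx
        have := had x y hxy
        rcases hy : φ y with t | q
        · exact absurd hy (h2 y t)
        rw [hx, hy] at this
        refine nested S hij q (fun h => hnb y (by rw [hy, h])) this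
      simp only [hY, mem_filter, not_exists]
      refine ⟨⟨(mem_E0 F S).2 ⟨mem_Emb.2 ⟨(Equiv.swap a b).injective.comp hi, fun x y hxy => ?_⟩,
        fun x t => ?_⟩, x0, by simp [hx0]⟩, fun x => ?_⟩
      · simp only [Function.comp, hval]
        by_cases hx : φ x = a
        · have hy : φ y ≠ a := fun hy => hxy.ne (hi (hx.trans hy.symm))
          rw [if_pos hx, if_neg hy]
          exact hkey x y hxy hx
        · by_cases hy : φ y = a
          · rw [if_neg hx, if_pos hy]
            exact (hkey y x hxy.symm hy).symm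
          · rw [if_neg hx, if_neg hy]
            exact had x y hxy
      · simp only [Function.comp, hval]
        split_ifs
        · simp [hb]
        · exact h2 x t
      · simp only [Function.comp, hval]
        split_ifs with h
        · exact hab.symm
        · exact h
    · intro ψ hψ
      obtain ⟨h0, ⟨x, y, _, hx, _⟩, h3⟩ := (mem_Gam F S).1 hψ
      simp only [hY, mem_filter, not_exists]
      exact ⟨⟨h0, x, hx⟩, h3⟩
  · rw [disjoint_left]
    intro ψ hψ hG
    obtain ⟨φ, hφ, rfl⟩ := mem_image.1 hψ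
    simp only [hX, mem_filter, not_exists] at hφ
    obtain ⟨⟨h0, _⟩, hnb⟩ := hφ
    obtain ⟨h1, h2⟩ := (mem_E0 F S).1 h0
    obtain ⟨hi, had⟩ := mem_Emb.1 h1
    obtain ⟨_, ⟨x, y, hxy, hx, l, hy, hl⟩, _⟩ := (mem_Gam F S).1 hG
    simp only [Function.comp] at hx hy
    have hx' : φ x = a := by
      have := congrArg (Equiv.swap a b) hx
      rw [Equiv.swap_apply_self] at this
      rw [this]
      exact Equiv.swap_apply_right a b
    have hy' : φ y = .inr (false, l) := by
      have := congrArg (Equiv.swap a b) hy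
      rw [Equiv.swap_apply_self, Equiv.swap_apply_of_ne_of_ne (by simp [ha]) (by simp [hb])] at this
      exact this
    have := had x y hxy
    rw [hx', hy', ha, adj_rr] at this
    rcases this.2 with h | h
    · simp at h
    · simp only at h
      omega

theorem main_inj
    (h1 : ∀ t p, D F (GG S) (.inl t) < D F (GG S) (.inr p))
    (h1' : ∀ t t', D F (GG S) (.inl t) = D F (GG S) (.inl t') → t = t')
    (h2 : ∀ s (i j : Fin m), i < j → (Eg F S (.inr (s, i))).card < (Gam F S i j).card)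
    (h3 : ∀ i : Fin m, (Eg F S (.inr (false, i))).card < (Eg F S (.inr (true, i))).card) :
    Function.Injective (D F (GG S)) := by
  have hlt : ∀ s t (i j : Fin m), i < j → D F (GG S) (.inr (s, i)) < D F (GG S) (.inr (t, j)) := by
    intro s t i j hij
    rw [D_split, D_split, D0_side F S s, D0_side F S t]
    have := gap F S hij
    have := h2 s i j hij
    omega
  have hs : ∀ i : Fin m, D F (GG S) (.inr (false, i)) < D F (GG S) (.inr (true, i)) := by
    intro i
    rw [D_split, D_split, D0_side F S false]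
    have := h3 i
    omega
  rintro (t | ⟨s, i⟩) (t' | ⟨s', j⟩) h
  · rw [h1' t t' h]
  · exact absurd h (h1 _ _).ne
  · exact absurd h.symm (h1 _ _).ne
  · rcases lt_trichotomy i j with hij | rfl | hij
    · exact absurd h (hlt _ _ _ _ hij).ne
    · cases s <;> cases s'
      · rfl
      · exact absurd h (hs i).ne
      · exact absurd h.symm (hs i).ne
      · rfl
    · exact absurd h.symm (hlt _ _ _ _ hij).ne

end

/-- the sliding clique -/
def kap {ι : Type} {m : ℕ} (j : Fin m) (l : Fin m) : W ι m :=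
  if j ≤ l then .inr (true, l) else .inr (false, l.rev)

theorem kap_inj {ι : Type} {m : ℕ} (j : Fin m) : Function.Injective (kap (ι := ι) j) := by
  intro a b h
  unfold kap at h
  split_ifs at h <;> simp at h <;> exact h

open Classical in
noncomputable def KK (ι : Type) {m : ℕ} (j : Fin m) : Finset (W ι m) := univ.image (kap j)

theorem card_KK (ι : Type) {m : ℕ} (j : Fin m) : (KK ι j).card = m := by
  classical
  unfold KK
  rw [card_image_of_injective _ (kap_inj j)]
  simp

theorem mem_KK {ι : Type} {m : ℕ} {j : Fin m} {v : W ι m} :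
    v ∈ KK ι j ↔ (∃ l, j ≤ l ∧ v = .inr (true, l)) ∨ ∃ l : Fin m, m ≤ l.1 + j.1 ∧ v = .inr (false, l) := by
  classical
  simp only [KK, mem_image, mem_univ, true_and]
  constructor
  · rintro ⟨l, rfl⟩
    unfold kap
    split_ifs with h
    · exact Or.inl ⟨l, h, rfl⟩
    · refine Or.inr ⟨l.rev, ?_, rfl⟩
      have : l.1 < j.1 := lt_of_not_ge h
      rw [Fin.val_rev]
      omega
  · rintro (⟨l, h, rfl⟩ | ⟨l, h, rfl⟩)
    · exact ⟨l, by simp [kap, h]⟩
    · refine ⟨l.rev, ?_⟩
      have : ¬ j ≤ l.rev := by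
        intro h'
        have h'' : j.1 ≤ l.rev.1 := h'
        rw [Fin.val_rev] at h''
        have := l.2
        omega
      simp [kap, this]

theorem KK_clique {ι : Type} {m : ℕ} (S : ι → Fin m → Prop) (j : Fin m) :
    ∀ u ∈ KK ι j, ∀ v ∈ KK ι j, u ≠ v → (GG S).Adj u v := by
  intro u hu v hv huv
  rcases mem_KK.1 hu with ⟨a, ha, rfl⟩ | ⟨a, ha, rfl⟩ <;>
    rcases mem_KK.1 hv with ⟨b, hb, rfl⟩ | ⟨b, hb, rfl⟩ <;>
    rw [adj_rr] <;> refine ⟨fun h => huv (by rw [h]), ?_⟩
  · exact Or.inl rfl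
  · have : j.1 ≤ a.1 := ha
    exact Or.inr (by simp only; omega)
  · have : j.1 ≤ b.1 := hb
    exact Or.inr (by simp only; omega)
  · exact Or.inl rfl

open Classical in
noncomputable def Side (ι : Type) (m : ℕ) (s : Bool) : Finset (W ι m) :=
  univ.image (fun l : Fin m => (.inr (s, l) : W ι m))

theorem card_Side (ι : Type) (m : ℕ) (s : Bool) : (Side ι m s).card = m := by
  classical
  unfold Side
  rw [card_image_of_injective _ (fun a b h => by simpa using h)]
  simp

theorem mem_Side {ι : Type} {m : ℕ} {s : Bool} {v : W ι m} :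
    v ∈ Side ι m s ↔ ∃ l, v = .inr (s, l) := by
  classical
  simp [Side, eq_comm]

theorem Side_clique {ι : Type} {m : ℕ} (S : ι → Fin m → Prop) (s : Bool) :
    ∀ u ∈ Side ι m s, ∀ v ∈ Side ι m s, u ≠ v → (GG S).Adj u v := by
  intro u hu v hv huv
  obtain ⟨a, rfl⟩ := mem_Side.1 hu
  obtain ⟨b, rfl⟩ := mem_Side.1 hv
  rw [adj_rr]
  exact ⟨fun h => huv (by rw [h]), Or.inl rfl⟩

end Pool.Agent.H12.Irr
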