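import Pool.Agent.H12.Irr3

set_option autoImplicit false

open Finset

namespace Pool.Agent.H12.Irr

theorem Inj_sub {n : ℕ} {W : Type} [Fintype W] (F : SimpleGraph (Fin n)) (G : SimpleGraph W)
    (K : Finset W) (hc : ∀ u ∈ K, ∀ v ∈ K, u ≠ v → G.Adj u v) {φ : Fin n → W}
    (h : φ ∈ Inj n K) : φ ∈ Emb F G := by
  obtain ⟨h1, h2⟩ := mem_Inj.1 h
  exact mem_Emb.2 ⟨h1, fun x y hxy => hc _ (h2 x) _ (h2 y) (h1.ne hxy.ne)⟩

def SC (n m : ℕ) (t : Bool) (l : Fin m) : Prop := if t then n ≤ l.1 else l.1 < n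

open Classical in
noncomputable def TT (n m : ℕ) (t : Bool) : Finset (W Bool m) :=
  insert (.inl t) ((univ.filter (SC n m t)).image (fun l : Fin m => (.inr (true, l) : W Bool m)))

theorem mem_TT {n m : ℕ} {t : Bool} {v : W Bool m} :
    v ∈ TT n m t ↔ v = .inl t ∨ ∃ l, SC n m t l ∧ v = .inr (true, l) := by
  classical
  simp [TT, eq_comm]

theorem card_TT (n : ℕ) (t : Bool) : (TT n (3 * n) t).card = (if t then 2 * n else n) + 1 := by
  classical
  unfold TT
  rw [card_insert_of_notMem (by simp), card_image_of_injective _ (fun a b h => by simpa using h)]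
  have h1 : (univ.filter (fun l : Fin (3 * n) => l.1 < n)).card = n := by
    rw [Fin.card_filter_val_lt]; omega
  have h2 := card_filter_add_card_filter_not (s := (univ : Finset (Fin (3 * n))))
    (fun l : Fin (3 * n) => l.1 < n)
  rw [h1, card_univ, Fintype.card_fin] at h2
  cases t
  · simp only [Bool.false_eq_true, if_false]
    have : (univ.filter (SC n (3 * n) false)) = univ.filter (fun l : Fin (3 * n) => l.1 < n) := by
      ext l
      simp [SC]
    rw [this, h1]
  · simp only [if_true]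
    have : (univ.filter (SC n (3 * n) true)) = univ.filter (fun l : Fin (3 * n) => ¬ l.1 < n) := by
      ext l
      simp [SC]
    rw [this]
    omega

theorem TT_clique (n m : ℕ) (t : Bool) :
    ∀ u ∈ TT n m t, ∀ v ∈ TT n m t, u ≠ v → (GG (SC n m)).Adj u v := by
  intro u hu v hv huv
  rcases mem_TT.1 hu with rfl | ⟨a, ha, rfl⟩ <;> rcases mem_TT.1 hv with rfl | ⟨b, hb, rfl⟩
  · exact absurd rfl huv
  · exact (adj_lr _ _ _).2 ⟨rfl, hb⟩
  · exact (adj_rl _ _ _).2 ⟨rfl, ha⟩
  · rw [adj_rr]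
    exact ⟨fun h => huv (by rw [h]), Or.inl rfl⟩

theorem into_TT {n m : ℕ} {t : Bool} {φ : Fin n → W Bool m}
    (h : φ ∈ Emb (⊤ : SimpleGraph (Fin n)) (GG (SC n m))) {x : Fin n} (hx : φ x = .inl t) :
    φ ∈ Inj n (TT n m t) := by
  obtain ⟨h1, h2⟩ := mem_Emb.1 h
  refine mem_Inj.2 ⟨h1, fun y => ?_⟩
  by_cases hy : x = y
  · subst hy
    exact mem_TT.2 (Or.inl hx)
  · have := h2 x y hy
    rw [hx] at this
    rcases hv : φ y with t' | ⟨s, l⟩
    · rw [hv] at this
      exact absurd this (adj_ll _ _ _)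
    · rw [hv, adj_lr] at this
      obtain ⟨h3, h4⟩ := this
      simp only at h3 h4
      subst h3
      exact mem_TT.2 (Or.inr ⟨l, h4, rfl⟩)

theorem complete_case (k : ℕ) :
    Function.Injective
      (D (⊤ : SimpleGraph (Fin (k + 1 + 2))) (GG (SC (k + 1 + 2) (3 * (k + 1 + 2))))) := by
  classical
  set n := k + 1 + 2 with hn
  set F : SimpleGraph (Fin n) := ⊤ with hF
  set S := SC n (3 * n) with hS
  have hz : ∀ t, D F (GG S) (.inl t)
      = n * (if t then 2 * n else n).descFactorial (k + 2) := by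
    intro t
    rw [D_eq F (GG S) _ ((Inj n (TT n (3 * n) t)).filter (fun φ => ∃ x, φ x = .inl t))]
    · have := card_Inj1 (k + 2) (TT n (3 * n) t) (.inl t) (mem_TT.2 (Or.inl rfl))
      rw [card_TT, Nat.add_sub_cancel] at this
      convert this
    · intro φ
      rw [mem_filter]
      constructor
      · rintro ⟨a, b⟩
        exact ⟨Inj_sub _ _ _ (TT_clique _ _ _) a, b⟩
      · rintro ⟨a, x, hx⟩
        exact ⟨into_TT a hx, x, hx⟩
  have hv : ∀ p : Bool × Fin (3 * n), n * (3 * n - 1).descFactorial (k + 2)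
      ≤ D F (GG S) (.inr p) := by
    rintro ⟨s, l⟩
    have := card_Inj1 (k + 2) (Side Bool (3 * n) s) (.inr (s, l)) (mem_Side.2 ⟨l, rfl⟩)
    rw [card_Side] at this
    rw [D_eq F (GG S) _ ((Emb F (GG S)).filter (fun φ => ∃ x, φ x = .inr (s, l)))
      (fun φ => mem_filter)]
    refine le_trans (le_of_eq this.symm) (card_le_card ?_)
    intro φ hφ
    simp only [mem_filter] at hφ ⊢
    exact ⟨Inj_sub _ _ _ (Side_clique _ _) hφ.1, hφ.2⟩
  have hB : ∀ i, Eg F S (.inr (false, i)) = ∅ := by
    intro i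
    refine eq_empty_of_forall_notMem (fun φ hφ => ?_)
    obtain ⟨a, ⟨y, hy⟩, x, t, hx⟩ := (mem_Eg F S).1 hφ
    have := (mem_Inj.1 (into_TT a hx)).2 y
    rw [hy, mem_TT] at this
    simp at this
  have hA : ∀ i : Fin (3 * n), (Eg F S (.inr (true, i))).card
      = n * ((k + 2) * ((if n ≤ i.1 then 2 * n else n) - 1).descFactorial (k + 1)) := by
    intro i
    have hm : S (decide (n ≤ i.1)) i := by
      simp only [hS, SC]
      by_cases h : n ≤ i.1 <;> simp [h]
      omega
    have := card_Inj2 (k + 1) (TT n (3 * n) (decide (n ≤ i.1))) (.inl (decide (n ≤ i.1)))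
      (.inr (true, i)) (mem_TT.2 (Or.inl rfl)) (mem_TT.2 (Or.inr ⟨i, hm, rfl⟩)) (by simp)
    rw [card_TT] at this
    simp only [decide_eq_true_eq] at this
    rw [show (if n ≤ i.1 then 2 * n else n) + 1 - 2 = (if n ≤ i.1 then 2 * n else n) - 1 by omega]
      at this
    refine Eq.trans ?_ this
    congr 1
    ext φ
    simp only [mem_Eg, mem_filter]
    constructor
    · rintro ⟨a, ⟨y, hy⟩, x, t, hx⟩
      have h5 := (mem_Inj.1 (into_TT a hx)).2 y
      rw [hy, mem_TT] at h5
      have ht : t = decide (n ≤ i.1) := by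
        simp only [reduceCtorEq, Sum.inr.injEq, Prod.mk.injEq, true_and, exists_eq_right',
          false_or, SC] at h5
        cases t
        · simp at h5 ⊢; omega
        · simp at h5 ⊢; omega
      subst ht
      exact ⟨into_TT a hx, ⟨x, hx⟩, y, hy⟩
    · rintro ⟨a, ⟨x, hx⟩, b⟩
      exact ⟨Inj_sub _ _ _ (TT_clique _ _ _) a, b, x, _, hx⟩
  have hG : ∀ i j : Fin (3 * n), i < j →
      n * ((k + 2) * (3 * n - 2).descFactorial (k + 1)) ≤ (Gam F S i j).card := by
    intro i j hij
    have hij' : i.1 < j.1 := hij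
    have hj := j.2
    let l : Fin (3 * n) := ⟨3 * n - j.1, by omega⟩
    have := card_Inj2 (k + 1) (KK Bool j) (.inr (true, j)) (.inr (false, l))
      (mem_KK.2 (Or.inl ⟨j, le_rfl, rfl⟩)) (mem_KK.2 (Or.inr ⟨l, by simp only [l]; omega, rfl⟩))
      (by simp)
    rw [card_KK] at this
    refine le_trans (le_of_eq this.symm) (card_le_card ?_)
    intro φ hφ
    simp only [mem_filter] at hφ
    obtain ⟨a, ⟨x, hx⟩, y, hy⟩ := hφ
    have hK := (mem_Inj.1 a).2
    refine (mem_Gam F S).2 ⟨(mem_E0 F S).2 ⟨Inj_sub _ _ _ (KK_clique _ _) a, fun u t hu => ?_⟩,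
      ⟨x, y, ?_, hx, l, hy, by simp only [l]; omega⟩, fun u hu => ?_⟩
    · have := hK u
      rw [hu, mem_KK] at this
      simp at this
    · intro hxy
      rw [hxy, hy] at hx
      simp at hx
    · have := hK u
      rw [hu, mem_KK] at this
      simp only [Sum.inr.injEq, Prod.mk.injEq, true_and, exists_eq_right', reduceCtorEq,
        false_and, and_false, exists_false, or_false] at this
      exact absurd this (not_le.2 hij)
  have hn0 : 0 < n := by omega
  refine main_inj F S ?_ ?_ ?_ ?_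
  · intro t p
    refine lt_of_lt_of_le ?_ (hv p)
    rw [hz]
    refine Nat.mul_lt_mul_of_pos_left (desc_lt (by omega) ?_ (by omega)) hn0
    split_ifs <;> omega
  · intro t t' h
    rw [hz, hz] at h
    have h' := Nat.eq_of_mul_eq_mul_left hn0 h
    have : n.descFactorial (k + 2) < (2 * n).descFactorial (k + 2) :=
      desc_lt (by omega) (by omega) (by omega)
    cases t <;> cases t'
    · rfl
    · exact absurd h' this.ne
    · exact absurd h'.symm this.ne
    · rfl
  · intro s i j hij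
    refine lt_of_lt_of_le ?_ (hG i j hij)
    have hpos : 0 < (3 * n - 2).descFactorial (k + 1) := Nat.descFactorial_pos.2 (by omega)
    cases s
    · rw [hB, card_empty]
      exact Nat.mul_pos hn0 (Nat.mul_pos (by omega) hpos)
    · rw [hA]
      refine Nat.mul_lt_mul_of_pos_left (Nat.mul_lt_mul_of_pos_left
        (desc_lt (by omega) ?_ (by omega)) (by omega)) hn0
      split_ifs <;> omega
  · intro i
    rw [hB, hA, card_empty]
    refine Nat.mul_pos hn0 (Nat.mul_pos (by omega) (Nat.descFactorial_pos.2 ?_))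
    split_ifs <;> omega

end Pool.Agent.H12.Irr
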