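import Pool.Agent.H12.Irr4

set_option autoImplicit false

open Finset

namespace Pool.Agent.H12.Irr

def SZ (d m : ℕ) (_ : Unit) (l : Fin m) : Prop := l.1 < d

open Classical in
noncomputable def ZZ (d m : ℕ) : Finset (W Unit m) :=
  (univ.filter (fun l : Fin m => l.1 < d)).image (fun l : Fin m => (.inr (true, l) : W Unit m))

theorem mem_ZZ {d m : ℕ} {v : W Unit m} : v ∈ ZZ d m ↔ ∃ l : Fin m, l.1 < d ∧ v = .inr (true, l) := by
  classical
  simp [ZZ, eq_comm]

theorem card_ZZ {d m : ℕ} (h : d ≤ m) : (ZZ d m).card = d := by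
  classical
  unfold ZZ
  rw [card_image_of_injective _ (fun a b h => by simpa using h), Fin.card_filter_val_lt]
  omega

theorem adj_z {d m : ℕ} {v : W Unit m} : (GG (SZ d m)).Adj (.inl ()) v ↔ v ∈ ZZ d m := by
  rcases v with t | ⟨s, l⟩
  · simp [mem_ZZ]
  · rw [adj_lr, mem_ZZ]
    simp only [SZ, Sum.inr.injEq, Prod.mk.injEq]
    constructor
    · rintro ⟨a, b⟩
      exact ⟨l, b, a, rfl⟩
    · rintro ⟨l', a, b, rfl⟩
      exact ⟨b, a⟩

theorem covers_Z {n d m : ℕ} (F : SimpleGraph (Fin n)) [DecidableRel F.Adj] (hdm : d ≤ m)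
    (hd : ∀ u, d ≤ F.degree u) {φ : Fin n → W Unit m} (h : φ ∈ Emb F (GG (SZ d m))) {x : Fin n}
    (hx : φ x = .inl ()) : ∀ v ∈ ZZ d m, ∃ y, φ y = v := by
  classical
  obtain ⟨h1, h2⟩ := mem_Emb.1 h
  have hsub : (F.neighborFinset x).image φ ⊆ ZZ d m := by
    intro v hv
    obtain ⟨y, hy, rfl⟩ := mem_image.1 hv
    rw [← adj_z, ← hx]
    exact h2 x y ((F.mem_neighborFinset x y).1 hy)
  have := eq_of_subset_of_card_le hsub (by
    rw [card_ZZ hdm, card_image_of_injective _ h1]
    exact hd x)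
  intro v hv
  rw [← this] at hv
  obtain ⟨y, _, hy⟩ := mem_image.1 hv
  exact ⟨y, hy⟩

theorem lower_T {n m : ℕ} (F : SimpleGraph (Fin n)) [DecidableRel F.Adj] (p q w : Fin n)
    (hpq : F.Adj p q) (hwp : w ≠ p) (hpw : ¬ F.Adj p w) (i o : Fin m) (ho : o.1 = 0)
    (hi : F.degree p ≤ i.1) (E : Finset (Fin n → W Unit m))
    (hE : ∀ φ ∈ Emb F (GG (SZ (F.degree p) m)), φ p = .inl () → φ q = .inr (true, o) →
      φ w = .inr (true, i) → (∀ x, x ≠ p → φ x ∈ Side Unit m true) → φ ∈ E) :
    (m - n) ^ (n - (F.degree p + 2)) ≤ E.card := by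
  classical
  set d := F.degree p with hd
  set N := F.neighborFinset p with hN
  have hNc : N.card = d := rfl
  have hq : q ∈ N := (F.mem_neighborFinset p q).2 hpq
  have hd0 : 0 < d := hNc ▸ card_pos.2 ⟨q, hq⟩
  have hdm : d ≤ m := by have := i.2; omega
  let e0 : N ≃ Fin d := N.equivFinOfCardEq hNc
  let e : N ≃ Fin d := e0.trans (Equiv.swap (e0 ⟨q, hq⟩) ⟨0, hd0⟩)
  let c : Fin n → Fin m := fun x => if h : x ∈ N then Fin.castLE hdm (e ⟨x, h⟩) else o
  have hc1 : ∀ x ∈ N, (c x).1 < d := by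
    intro x hx
    simp only [c, dif_pos hx, Fin.val_castLE]
    exact (e ⟨x, hx⟩).2
  have hc2 : ∀ x ∈ N, ∀ y ∈ N, c x = c y → x = y := by
    intro x hx y hy h
    simp only [c, dif_pos hx, dif_pos hy] at h
    have := e.injective (Fin.castLE_injective hdm h)
    exact congrArg Subtype.val this
  have hc3 : c q = o := by
    apply Fin.ext
    simp [c, dif_pos hq, e, ho]
  have hpN : p ∉ N := by simp [hN]
  have hwN : w ∉ N := fun h => hpw ((F.mem_neighborFinset p w).1 h)
  let φ0 : Fin n → W Unit m := fun x =>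
    if x = p then .inl () else if x = w then .inr (true, i) else .inr (true, c x)
  have hp0 : φ0 p = .inl () := by simp [φ0]
  have hw0 : φ0 w = .inr (true, i) := by simp [φ0, hwp]
  have hN0 : ∀ x ∈ N, φ0 x = .inr (true, c x) := by
    intro x hx
    have h1 : x ≠ p := fun h => hpN (h ▸ hx)
    have h2 : x ≠ w := fun h => hwN (h ▸ hx)
    simp [φ0, h1, h2]
  have hside : ∀ x, x ≠ p → φ0 x ∈ Side Unit m true := by
    intro x hx
    simp only [φ0, if_neg hx]
    split_ifs
    · exact mem_Side.2 ⟨_, rfl⟩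
    · exact mem_Side.2 ⟨_, rfl⟩
  set P := insert p (insert w N) with hP
  have hPc : P.card = d + 2 := by
    rw [hP, card_insert_of_notMem (by simp [hpN, hwp.symm]), card_insert_of_notMem hwN, hNc]
  have hinj : Set.InjOn φ0 P := by
    intro x hx y hy h
    simp only [hP, coe_insert, Set.mem_insert_iff, mem_coe] at hx hy
    rcases hx with rfl | rfl | hx <;> rcases hy with rfl | rfl | hy
    · rfl
    · rw [hp0, hw0] at h; simp at h
    · rw [hp0, hN0 y hy] at h; simp at h
    · rw [hp0, hw0] at h; simp at h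
    · rfl
    · rw [hw0, hN0 y hy] at h
      simp only [Sum.inr.injEq, Prod.mk.injEq, true_and] at h
      have := hc1 y hy
      rw [← h] at this
      omega
    · rw [hp0, hN0 x hx] at h; simp at h
    · rw [hw0, hN0 x hx] at h
      simp only [Sum.inr.injEq, Prod.mk.injEq, true_and] at h
      have := hc1 x hx
      rw [h] at this
      omega
    · rw [hN0 x hx, hN0 y hy] at h
      simp only [Sum.inr.injEq, Prod.mk.injEq, true_and] at h
      exact hc2 x hx y hy h
  have hpadj : ∀ y, F.Adj p y → (GG (SZ d m)).Adj (φ0 p) (φ0 y) := by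
    intro y hy
    have hy' : y ∈ N := (F.mem_neighborFinset p y).2 hy
    rw [hp0, hN0 y hy', adj_z, mem_ZZ]
    exact ⟨c y, hc1 y hy', rfl⟩
  rw [← hPc]
  refine lower F (GG (SZ d m)) (Side Unit m true) m (card_Side _ _ _).ge (Side_clique _ _) P φ0 hinj
    ?_ ?_ E ?_
  · intro x hx y hy hxy
    by_cases h1 : x = p
    · subst h1; exact hpadj y hxy
    by_cases h2 : y = p
    · subst h2; exact (hpadj x hxy.symm).symm
    exact Side_clique _ _ _ (hside x h1) _ (hside y h2) (fun h => hxy.ne (hinj hx hy h))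
  · intro x _ y hy hxy
    refine hside x (fun h => hy ?_)
    subst h
    exact mem_insert_of_mem (mem_insert_of_mem ((F.mem_neighborFinset x y).2 hxy))
  · intro φ hφ h1 h2
    refine hE φ hφ ?_ ?_ ?_ ?_
    · rw [h1 p (mem_insert_self _ _), hp0]
    · rw [h1 q (mem_insert_of_mem (mem_insert_of_mem hq)), hN0 q hq, hc3]
    · rw [h1 w (mem_insert_of_mem (mem_insert_self _ _)), hw0]
    · intro x hx
      by_cases hxP : x ∈ P
      · rw [h1 x hxP]; exact hside x hx
      · exact h2 x hxP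

/-! the cluster flip -/

def lev {ι : Type} {m : ℕ} : W ι m → Option (Fin m)
  | .inl _ => none
  | .inr p => some p.2

theorem lev_sw {ι : Type} {m : ℕ} (v : W ι m) : lev (sw v) = lev v := by
  rcases v with t | p <;> rfl

def Low {n m : ℕ} (F : SimpleGraph (Fin n)) (L : Fin n → Option (Fin m)) (u v : Fin n) : Prop :=
  F.Adj u v ∧ ∃ a b : Fin m, L u = some a ∧ L v = some b ∧ a.1 + b.1 < m

def Clus {n m : ℕ} (F : SimpleGraph (Fin n)) (i : Fin m) (L : Fin n → Option (Fin m))
    (u : Fin n) : Prop :=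
  ∃ r, L r = some i ∧ Relation.ReflTransGen (Low F L) r u

open Classical in
noncomputable def flip {ι : Type} {n m : ℕ} (F : SimpleGraph (Fin n)) (i : Fin m)
    (φ : Fin n → W ι m) : Fin n → W ι m :=
  fun u => if Clus F i (lev ∘ φ) u then sw (φ u) else φ u

theorem lev_flip {ι : Type} {n m : ℕ} (F : SimpleGraph (Fin n)) (i : Fin m)
    (φ : Fin n → W ι m) : lev ∘ flip F i φ = lev ∘ φ := by
  funext u
  simp only [Function.comp, flip]
  split_ifs
  · exact lev_sw _
  · rfl

theorem flip_flip {ι : Type} {n m : ℕ} (F : SimpleGraph (Fin n)) (i : Fin m)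
    (φ : Fin n → W ι m) : flip F i (flip F i φ) = φ := by
  funext u
  rw [flip, lev_flip]
  simp only [flip]
  split_ifs
  · exact sw_sw _
  · rfl

theorem flip_good {ι : Type} [Fintype ι] {n m : ℕ} (F : SimpleGraph (Fin n))
    (S : ι → Fin m → Prop) (i : Fin m) {φ : Fin n → W ι m} (h : φ ∈ Eg F S (.inr (false, i)))
    (hg : ∀ l : Fin m, ∀ x y, φ x = .inr (true, l) → φ y ≠ .inr (false, l)) :
    flip F i φ ∈ Eg F S (.inr (true, i)) ∧
      ∀ p q w t (o : Fin m), F.Adj p q → F.Adj q w → o.1 = 0 → flip F i φ p = .inl t →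
        flip F i φ q = .inr (true, o) → flip F i φ w ≠ .inr (true, i) := by
  classical
  obtain ⟨he, ⟨r, hr⟩, x0, t0, hx0⟩ := (mem_Eg F S).1 h
  obtain ⟨hi, ha⟩ := mem_Emb.1 he
  have hB : ∀ u, Clus F i (lev ∘ φ) u → ∃ a, φ u = .inr (false, a) := by
    rintro u ⟨r', hr', hu⟩
    induction hu with
    | refl =>
      rcases hv : φ r' with t | ⟨s, a⟩
      · simp [hv, lev] at hr'
      · simp only [Function.comp, hv, lev, Option.some.injEq] at hr'
        subst hr'
        cases s
        · exact ⟨_, rfl⟩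
        · exact absurd hr (hg _ _ _ hv)
    | @tail b c _ hbc ih =>
      obtain ⟨a, hb⟩ := ih
      obtain ⟨hadj, a', b', h1, h2, h3⟩ := hbc
      have := ha _ _ hadj
      rcases hv : φ c with t | ⟨s, l⟩
      · simp [hv, lev] at h2
      · simp only [Function.comp, hv, hb, lev, Option.some.injEq] at h1 h2
        subst h1 h2
        rw [hb, hv, adj_rr] at this
        rcases this.2 with h4 | h4
        · simp only at h4
          exact ⟨_, by rw [← h4]⟩
        · simp only at h4
          omega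
  have hin : ∀ u, Clus F i (lev ∘ φ) u → flip F i φ u = sw (φ u) := fun u hu => if_pos hu
  have hout : ∀ u, ¬ Clus F i (lev ∘ φ) u → flip F i φ u = φ u := fun u hu => if_neg hu
  have hinj : Function.Injective (flip F i φ) := by
    intro u v huv
    by_cases hu : Clus F i (lev ∘ φ) u <;> by_cases hv : Clus F i (lev ∘ φ) v
    · rw [hin u hu, hin v hv] at huv
      exact hi (sw_inj huv)
    · obtain ⟨a, h1⟩ := hB u hu
      rw [hin u hu, hout v hv, h1] at huv
      exact absurd h1 (hg a v u huv.symm)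
    · obtain ⟨a, h1⟩ := hB v hv
      rw [hin v hv, hout u hu, h1] at huv
      exact absurd h1 (hg a u v huv)
    · rw [hout u hu, hout v hv] at huv
      exact hi huv
  have hmix : ∀ u v, F.Adj u v → Clus F i (lev ∘ φ) u → ¬ Clus F i (lev ∘ φ) v →
      (GG S).Adj (flip F i φ u) (flip F i φ v) := by
    intro u v huv hu hv
    have hne := hinj.ne huv.ne
    obtain ⟨a, h1⟩ := hB u hu
    have h2 := ha u v huv
    rw [hin u hu, hout v hv, h1] at hne ⊢
    rw [h1] at h2
    rcases h3 : φ v with t | ⟨s, b⟩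
    · rw [h3, adj_rl] at h2
      simp at h2
    · rw [h3] at hne
      simp only [sw, adj_rr]
      refine ⟨fun h => hne (by simp only [sw]; rw [h]), Or.inr ?_⟩
      by_contra hlt
      obtain ⟨r', hr', hu'⟩ := hu
      exact hv ⟨r', hr', hu'.tail ⟨huv, a, b, by simp [h1, lev], by simp [h3, lev], by omega⟩⟩
  have hz : ∀ u t, flip F i φ u = .inl t ↔ φ u = .inl t := by
    intro u t
    by_cases hu : Clus F i (lev ∘ φ) u
    · obtain ⟨a, h1⟩ := hB u hu
      rw [hin u hu, h1]
      simp [sw]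
    · rw [hout u hu]
  refine ⟨(mem_Eg F S).2 ⟨mem_Emb.2 ⟨hinj, fun u v huv => ?_⟩, ⟨r, ?_⟩, x0, t0, (hz _ _).2 hx0⟩, ?_⟩
  · by_cases hu : Clus F i (lev ∘ φ) u <;> by_cases hv : Clus F i (lev ∘ φ) v
    · have hne := hinj.ne huv.ne
      obtain ⟨a, h1⟩ := hB u hu
      obtain ⟨b, h2⟩ := hB v hv
      rw [hin u hu, hin v hv, h1, h2] at hne ⊢
      simp only [sw, adj_rr]
      exact ⟨fun h => hne (by simp only [sw]; rw [h]), Or.inl trivial⟩
    · exact hmix u v huv hu hv
    · exact (hmix v u huv.symm hv hu).symm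
    · rw [hout u hu, hout v hv]
      exact ha u v huv
  · rw [hin r ⟨r, by simp [hr, lev], .refl⟩, hr]
    rfl
  · intro p q w t o hpq hqw ho hp hq hw
    have h1 : (lev ∘ φ) w = some i := by
      rw [← lev_flip F i φ]; simp [hw, lev]
    have h2 : (lev ∘ φ) q = some o := by
      rw [← lev_flip F i φ]; simp [hq, lev]
    have hcq : Clus F i (lev ∘ φ) q :=
      ⟨w, h1, .single ⟨hqw.symm, i, o, h1, h2, by have := i.2; omega⟩⟩
    obtain ⟨a, h3⟩ := hB q hcq
    have h4 := ha p q hpq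
    rw [(hz _ _).1 hp, h3, adj_lr] at h4
    simp at h4

end Pool.Agent.H12.Irr
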