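import Pool.Agent.H12.Irr5

set_option autoImplicit false

open Finset

namespace Pool.Agent.H12.Irr

theorem card_W (m : ℕ) : Fintype.card (W Unit m) = 2 * m + 1 := by
  simp [W]; ring

theorem card3 {α : Type} [DecidableEq α] {a b c : α} (h1 : a ≠ b) (h2 : a ≠ c) (h3 : b ≠ c) :
    3 ≤ ({a, b, c} : Finset α).card := by
  rw [card_insert_of_notMem (by simp [h1, h2]), card_insert_of_notMem (by simp [h3])]
  simp

theorem upper3 {n m : ℕ} (E : Finset (Fin n → W Unit m)) (a b c : W Unit m) (h1 : a ≠ b)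
    (h2 : a ≠ c) (h3 : b ≠ c)
    (hE : ∀ φ ∈ E, (∃ x, φ x = a) ∧ (∃ x, φ x = b) ∧ ∃ x, φ x = c) :
    E.card * (2 * m + 1) ^ (2 + 1) ≤ n ^ n * (2 * m + 1) ^ n := by
  classical
  rw [← card_W]
  refine upper (by rw [card_W]; omega) E {a, b, c} 3 (card3 h1 h2 h3) ?_
  intro φ hφ v hv
  simp only [mem_insert, mem_singleton] at hv
  rcases hv with rfl | rfl | rfl
  · exact (hE φ hφ).1
  · exact (hE φ hφ).2.1
  · exact (hE φ hφ).2.2

section
variable {n m : ℕ} (F : SimpleGraph (Fin n)) [DecidableRel F.Adj] (p q w : Fin n)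
  (hpq : F.Adj p q) (hqw : F.Adj q w) (hwp : w ≠ p) (hpw : ¬ F.Adj p w)
  (hd : ∀ u, F.degree p ≤ F.degree u) (hm1 : 2 * m + 1 ≤ 6 * (m - n))
  (hm2 : (n + 2) * n ^ n * 6 ^ n < 2 * m + 1)

include hpq hwp hpw in
theorem deg_le : 1 ≤ F.degree p ∧ F.degree p + 2 ≤ n := by
  classical
  refine ⟨card_pos.2 ⟨q, (F.mem_neighborFinset p q).2 hpq⟩, ?_⟩
  have : (insert p (insert w (F.neighborFinset p))).card ≤ n := by
    simpa using card_le_univ (insert p (insert w (F.neighborFinset p)))
  rw [card_insert_of_notMem (by simp [hwp.symm]), card_insert_of_notMem (by simpa using hpw)]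
    at this
  exact this

include hm1 hm2 in
theorem cmp {k a b c : ℕ} (hk : k ≤ n) (hc : c ≤ n + 2)
    (ha : a * (2 * m + 1) ^ (k + 1) ≤ c * n ^ n * (2 * m + 1) ^ n)
    (hb : (m - n) ^ (n - k) ≤ b) : a < b :=
  compare hk ha hb hm1 (lt_of_le_of_lt
    (Nat.mul_le_mul_right _ (Nat.mul_le_mul_right _ hc)) hm2)

include hpq hwp hpw hd hm1 hm2 in
theorem part1 (t : Unit) (v : Bool × Fin m) :
    D F (GG (SZ (F.degree p) m)) (.inl t) < D F (GG (SZ (F.degree p) m)) (.inr v) := by
  classical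
  obtain ⟨hd1, hd2⟩ := deg_le F p q w hpq hwp hpw
  obtain ⟨s, l⟩ := v
  have hl := l.2
  rw [D_eq F _ (.inl t) ((Emb F (GG (SZ (F.degree p) m))).filter (fun φ => ∃ x, φ x = .inl t))
    (fun φ => mem_filter),
    D_eq F _ (.inr (s, l)) ((Emb F (GG (SZ (F.degree p) m))).filter
      (fun φ => ∃ x, φ x = .inr (s, l))) (fun φ => mem_filter)]
  refine cmp hm1 hm2 (k := 1) (c := 1) (by omega) (by omega) ?_ ?_
  · rw [one_mul, ← card_W]
    refine upper (by rw [card_W]; omega) _ {.inl (), .inr (true, ⟨0, by omega⟩)} 2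
      (by rw [card_insert_of_notMem (by simp)]; simp) ?_
    intro φ hφ v hv
    obtain ⟨h1, x, hx⟩ := mem_filter.1 hφ
    simp only [mem_insert, mem_singleton] at hv
    rcases hv with rfl | rfl
    · exact ⟨x, hx⟩
    · exact covers_Z F (by omega) hd h1 hx _ (mem_ZZ.2 ⟨⟨0, by omega⟩, hd1, rfl⟩)
  · have := lower F (GG (SZ (F.degree p) m)) (Side Unit m s) m (card_Side _ _ _).ge
      (Side_clique _ _) {p} (fun _ => .inr (s, l)) (by simp) (by simp)
      (fun _ _ _ _ _ => mem_Side.2 ⟨l, rfl⟩)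
      ((Emb F (GG (SZ (F.degree p) m))).filter (fun φ => ∃ x, φ x = .inr (s, l)))
      (fun φ h1 h2 _ => mem_filter.2 ⟨h1, p, h2 p (mem_singleton_self _)⟩)
    simpa using this

omit [DecidableRel F.Adj] in
include hpq in
theorem gam_lower (S : Unit → Fin m → Prop) (i j l : Fin m) (hij : i < j) (hl : l.1 + j.1 = m)
    (E : Finset (Fin n → W Unit m))
    (hE : ∀ φ ∈ Gam F S i j, φ q = .inr (false, l) → φ ∈ E) :
    (m - n) ^ (n - 2) ≤ E.card := by
  classical
  have hij' : i.1 < j.1 := hij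
  have hc : ({p, q} : Finset (Fin n)).card = 2 := card_pair hpq.ne
  rw [← hc]
  have ha : (.inr (true, j) : W Unit m) ∈ KK Unit j := mem_KK.2 (Or.inl ⟨j, le_rfl, rfl⟩)
  have hb : (.inr (false, l) : W Unit m) ∈ KK Unit j := mem_KK.2 (Or.inr ⟨l, by omega, rfl⟩)
  have hK0 : ∀ x : Fin n, (if x = p then .inr (true, j) else .inr (false, l) : W Unit m)
      ∈ KK Unit j := by
    intro x
    split_ifs
    · exact ha
    · exact hb
  have hinj : Set.InjOn (fun x : Fin n =>
      (if x = p then .inr (true, j) else .inr (false, l) : W Unit m)) ({p, q} : Finset (Fin n)) := by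
    intro x hx y hy h
    simp only [coe_insert, coe_singleton, Set.mem_insert_iff, Set.mem_singleton_iff] at hx hy
    rcases hx with rfl | rfl <;> rcases hy with rfl | rfl
    · rfl
    · simp [hpq.ne.symm] at h
    · simp [hpq.ne.symm] at h
    · rfl
  refine lower F (GG S) (KK Unit j) m (card_KK _ _).ge (KK_clique S j) {p, q}
    (fun x => if x = p then .inr (true, j) else .inr (false, l)) hinj ?_ ?_ E ?_
  · intro x hx y hy hxy
    exact KK_clique S j _ (hK0 x) _ (hK0 y) (fun h => hxy.ne (hinj hx hy h))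
  · intro x _ _ _ _
    exact hK0 x
  · intro φ h1 h2 h3
    have hK : ∀ x, φ x ∈ KK Unit j := by
      intro x
      by_cases hx : x ∈ ({p, q} : Finset (Fin n))
      · rw [h2 x hx]; exact hK0 x
      · exact h3 x hx
    have hp : φ p = .inr (true, j) := by rw [h2 p (by simp)]; simp
    have hq : φ q = .inr (false, l) := by rw [h2 q (by simp)]; simp [hpq.ne.symm]
    refine hE φ ((mem_Gam F S).2 ⟨(mem_E0 F S).2 ⟨h1, fun u t hu => ?_⟩,
      ⟨p, q, hpq, hp, l, hq, by omega⟩, fun u hu => ?_⟩) hq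
    · have := hK u
      rw [hu, mem_KK] at this
      simp at this
    · have := hK u
      rw [hu, mem_KK] at this
      simp only [Sum.inr.injEq, Prod.mk.injEq, true_and, exists_eq_right', reduceCtorEq,
        false_and, and_false, exists_false, or_false] at this
      exact absurd this (not_le.2 hij)

include hpq hqw hwp hpw hd hm1 hm2 in
theorem part2_special (h1 : F.degree p = 1) (i j : Fin m) (hi : i.1 = 0) (hij : i < j) :
    (Eg F (SZ (F.degree p) m) (.inr (true, i))).card < (Gam F (SZ (F.degree p) m) i j).card := by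
  classical
  obtain ⟨hd1, hd2⟩ := deg_le F p q w hpq hwp hpw
  have hij' : i.1 < j.1 := hij
  have hj := j.2
  set S := SZ (F.degree p) m with hS
  let l : Fin m := ⟨m - j.1, by omega⟩
  set a : W Unit m := .inr (true, i) with ha
  set b : W Unit m := .inr (true, j) with hb
  set c : W Unit m := .inr (false, l) with hc
  set z : W Unit m := .inl () with hz
  have hab : a ≠ b := by
    intro h
    simp only [ha, hb, Sum.inr.injEq, Prod.mk.injEq, true_and] at h
    exact hij.ne h
  have hac : a ≠ c := by simp [ha, hc]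
  have hbc : b ≠ c := by simp [hb, hc]
  have hza : z ≠ a := by simp [ha, hz]
  have hzb : z ≠ b := by simp [hb, hz]
  have hzc : z ≠ c := by simp [hc, hz]
  have hadjz : ∀ v, (GG S).Adj z v → v = a := by
    intro v hv
    obtain ⟨l', h2, rfl⟩ := mem_ZZ.1 (adj_z.1 hv)
    have : l' = i := Fin.ext (by omega)
    rw [this]
  have hbc' : (GG S).Adj b c := by
    rw [hb, hc, adj_rr]
    exact ⟨by simp, Or.inr (by simp only [l]; omega)⟩
  set Y := Eg F S a with hY
  set Y1 := Y.filter (fun φ => (∀ x, φ x ≠ b) ∧ ∀ x, φ x ≠ c) with hY1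
  set Y2 := Y.filter (fun φ => ∃ x, φ x = b) with hY2
  set Y3 := Y.filter (fun φ => ∃ x, φ x = c) with hY3
  have hsplit : Y.card ≤ Y1.card + (Y2.card + Y3.card) := by
    refine le_trans (card_le_card (t := Y1 ∪ (Y2 ∪ Y3)) ?_)
      ((card_union_le _ _).trans (Nat.add_le_add_left (card_union_le _ _) _))
    intro φ hφ
    simp only [hY1, hY2, hY3, mem_union, mem_filter]
    by_cases h2 : ∃ x, φ x = b
    · exact Or.inr (Or.inl ⟨hφ, h2⟩)
    by_cases h3 : ∃ x, φ x = c
    · exact Or.inr (Or.inr ⟨hφ, h3⟩)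
    exact Or.inl ⟨hφ, fun x hx => h2 ⟨x, hx⟩, fun x hx => h3 ⟨x, hx⟩⟩
  have hY2c := upper3 Y2 z a b hza hzb hab (fun φ hφ => by
    obtain ⟨h2, h3⟩ := mem_filter.1 hφ
    obtain ⟨_, h4, x, t, hx⟩ := (mem_Eg F S).1 h2
    exact ⟨⟨x, hx⟩, h4, h3⟩)
  have hY3c := upper3 Y3 z a c hza hzc hac (fun φ hφ => by
    obtain ⟨h2, h3⟩ := mem_filter.1 hφ
    obtain ⟨_, h4, x, t, hx⟩ := (mem_Eg F S).1 h2
    exact ⟨⟨x, hx⟩, h4, h3⟩)
  have hG := gam_lower F p q hpq S i j l hij (by simp only [l]; omega)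
    ((Gam F S i j).filter (fun φ => φ q = c)) (fun φ h2 h3 => mem_filter.2 ⟨h2, h3⟩)
  have hlt : Y2.card + Y3.card < ((Gam F S i j).filter (fun φ => φ q = c)).card :=
    cmp hm1 hm2 (k := 2) (c := 2) (by omega) (by omega) (by rw [add_mul]; linarith) hG
  have hGs := card_filter_add_card_filter_not (s := Gam F S i j) (fun φ => φ q = c)
  let ρ : W Unit m → W Unit m := fun v => if v = a then b else if v = z then c else v
  have hρa : ρ a = b := by simp [ρ]
  have hρz : ρ z = c := by simp [ρ, hza]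
  have hρo : ∀ v, v ≠ a → v ≠ z → ρ v = v := fun v h2 h3 => by simp [ρ, h2, h3]
  have hρi : ∀ u v, u ≠ b → u ≠ c → v ≠ b → v ≠ c → ρ u = ρ v → u = v := by
    intro u v h2 h3 h4 h5 h6
    have hcase : ∀ x, (x = a ∧ ρ x = b) ∨ (x = z ∧ ρ x = c) ∨ ρ x = x := by
      intro x
      by_cases hxa : x = a
      · exact Or.inl ⟨hxa, by rw [hxa, hρa]⟩
      by_cases hxz : x = z
      · exact Or.inr (Or.inl ⟨hxz, by rw [hxz, hρz]⟩)
      exact Or.inr (Or.inr (hρo x hxa hxz))
    rcases hcase u with ⟨e1, e2⟩ | ⟨e1, e2⟩ | e2 <;>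
      rcases hcase v with ⟨e3, e4⟩ | ⟨e3, e4⟩ | e4 <;> rw [e2, e4] at h6
    · rw [e1, e3]
    · exact absurd h6 hbc
    · exact absurd h6.symm h4
    · exact absurd h6.symm hbc
    · rw [e1, e3]
    · exact absurd h6.symm h5
    · exact absurd h6 h2
    · exact absurd h6 h3
    · exact h6
  have hY1c : Y1.card ≤ ((Gam F S i j).filter (fun φ => ¬ φ q = c)).card := by
    refine card_le_card_of_injOn (fun φ => ρ ∘ φ) ?_ ?_
    · intro φ hφ
      obtain ⟨h2, h3, h4⟩ := mem_filter.1 (mem_coe.1 hφ)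
      obtain ⟨he, ⟨y0, hy0⟩, x0, t, hx0⟩ := (mem_Eg F S).1 h2
      obtain ⟨hi', had⟩ := mem_Emb.1 he
      have hx0' : φ x0 = z := hx0
      have hkey : ∀ x y, F.Adj x y → φ x = a → (GG S).Adj (ρ (φ x)) (ρ (φ y)) := by
        intro x y hxy hx
        rw [hx, hρa]
        by_cases hy : φ y = z
        · rw [hy, hρz]; exact hbc'
        have hya : φ y ≠ a := fun h => hxy.ne (hi' (hx.trans h.symm))
        rw [hρo _ hya hy]
        have := had x y hxy
        rcases hv : φ y with t | v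
        · exact absurd hv hy
        rw [hx, hv] at this
        exact nested S hij v (fun h => h3 y (by rw [hv, h])) this
      refine mem_coe.2 (mem_filter.2 ⟨(mem_Gam F S).2 ⟨(mem_E0 F S).2 ⟨mem_Emb.2
        ⟨fun x y h => hi' (hρi _ _ (h3 x) (h4 x) (h3 y) (h4 y) h), fun x y hxy => ?_⟩,
        fun x t hx => ?_⟩, ?_, fun x hx => ?_⟩, fun hq => ?_⟩)
      · simp only [Function.comp]
        by_cases hx : φ x = a
        · exact hkey x y hxy hx
        by_cases hy : φ y = a
        · exact (hkey y x hxy.symm hy).symm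
        have hx' : φ x ≠ z := fun h => hy (hadjz _ (h ▸ had x y hxy))
        have hy' : φ y ≠ z := fun h => hx (hadjz _ (h ▸ had y x hxy.symm))
        rw [hρo _ hx hx', hρo _ hy hy']
        exact had x y hxy
      · have hx' : ρ (φ x) = z := hx
        by_cases h5 : φ x = a
        · rw [h5, hρa] at hx'; exact hzb hx'.symm
        by_cases h6 : φ x = z
        · rw [h6, hρz] at hx'; exact hzc hx'.symm
        rw [hρo _ h5 h6] at hx'
        exact h6 hx'
      · have : 0 < F.degree x0 := by have := hd x0; omega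
        obtain ⟨y, hy⟩ := (F.degree_pos_iff_exists_adj x0).1 this
        have h5 : φ y = a := hadjz _ (hx0' ▸ had x0 y hy)
        refine ⟨y, x0, hy.symm, ?_, l, ?_, by have := l.2; omega⟩
        · simp only [Function.comp]; rw [h5, hρa]
        · simp only [Function.comp]; rw [hx0', hρz]
      · have hx' : ρ (φ x) = a := hx
        by_cases h5 : φ x = a
        · rw [h5, hρa] at hx'; exact hab hx'.symm
        by_cases h6 : φ x = z
        · rw [h6, hρz] at hx'; exact hac hx'.symm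
        rw [hρo _ h5 h6] at hx'
        exact h5 hx'
      · have hq' : ρ (φ q) = ρ z := by rw [hρz]; exact hq
        have h5 : φ q = z := hρi _ _ (h3 q) (h4 q) hzb hzc hq'
        have h6 : φ p = a := hadjz _ (h5 ▸ had q p hpq.symm)
        have h7 : φ w = a := hadjz _ (h5 ▸ had q w hqw)
        exact hwp (hi' (h7.trans h6.symm))
    · intro φ hφ ψ hψ h
      obtain ⟨_, h3, h4⟩ := mem_filter.1 (mem_coe.1 hφ)
      obtain ⟨_, h5, h6⟩ := mem_filter.1 (mem_coe.1 hψ)
      funext x
      exact hρi _ _ (h3 x) (h4 x) (h5 x) (h6 x) (congrFun h x)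
  omega

include hpq hqw hwp hpw hd hm1 hm2 in
theorem part2 (s : Bool) (i j : Fin m) (hij : i < j) :
    (Eg F (SZ (F.degree p) m) (.inr (s, i))).card < (Gam F (SZ (F.degree p) m) i j).card := by
  classical
  obtain ⟨hd1, hd2⟩ := deg_le F p q w hpq hwp hpw
  have hij' : i.1 < j.1 := hij
  have hj := j.2
  by_cases hsp : F.degree p = 1 ∧ s = true ∧ i.1 = 0
  · obtain ⟨h1, rfl, h3⟩ := hsp
    exact part2_special F p q w hpq hqw hwp hpw hd hm1 hm2 h1 i j h3 hij
  have : ∃ y ∈ ZZ (F.degree p) m, y ≠ .inr (s, i) := by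
    by_cases h : s = true ∧ i.1 = 0
    · refine ⟨.inr (true, ⟨1, by omega⟩), mem_ZZ.2 ⟨_, ?_, rfl⟩, ?_⟩
      · have : F.degree p ≠ 1 := fun h' => hsp ⟨h', h⟩
        simp only; omega
      · intro h'
        simp only [Sum.inr.injEq, Prod.mk.injEq] at h'
        have := congrArg Fin.val h'.2
        simp only at this
        omega
    · refine ⟨.inr (true, ⟨0, by omega⟩), mem_ZZ.2 ⟨⟨0, by omega⟩, hd1, rfl⟩, ?_⟩
      intro h'
      simp only [Sum.inr.injEq, Prod.mk.injEq] at h'
      exact h ⟨h'.1.symm, by rw [← h'.2]⟩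
  obtain ⟨y, hy, hne⟩ := this
  have hG := gam_lower F p q hpq (SZ (F.degree p) m) i j ⟨m - j.1, by omega⟩ hij
    (by simp only; omega) _ (fun φ h2 _ => h2)
  refine cmp hm1 hm2 (k := 2) (c := 1) (by omega) (by omega) ?_ hG
  rw [one_mul]
  refine upper3 _ (.inl ()) (.inr (s, i)) y (by simp) ?_ hne.symm ?_
  · obtain ⟨l, _, rfl⟩ := mem_ZZ.1 hy
    simp
  · intro φ hφ
    obtain ⟨h2, h4, x, t, hx⟩ := (mem_Eg F _).1 hφ
    exact ⟨⟨x, hx⟩, h4, covers_Z F (by omega) hd h2 hx y hy⟩

include hpq hqw hwp hpw hd hm1 hm2 in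
theorem part3 (i : Fin m) :
    (Eg F (SZ (F.degree p) m) (.inr (false, i))).card
      < (Eg F (SZ (F.degree p) m) (.inr (true, i))).card := by
  classical
  obtain ⟨hd1, hd2⟩ := deg_le F p q w hpq hwp hpw
  have hi := i.2
  have hdm : F.degree p < m := by omega
  set S := SZ (F.degree p) m with hS
  let o : Fin m := ⟨0, by omega⟩
  by_cases hid : i.1 < F.degree p
  · refine card_lt_card ⟨fun φ hφ => ?_, fun hsub => ?_⟩
    · obtain ⟨h2, _, x, t, hx⟩ := (mem_Eg F S).1 hφ
      exact (mem_Eg F S).2 ⟨h2, covers_Z F hdm.le hd h2 hx _ (mem_ZZ.2 ⟨i, hid, rfl⟩), x, t, hx⟩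
    · have := lower_T F p q w hpq hwp hpw ⟨F.degree p, hdm⟩ o rfl le_rfl ∅ (by
        intro φ h2 hp _ _ h5
        exfalso
        have h6 : φ ∈ Eg F S (.inr (true, i)) := (mem_Eg F S).2
          ⟨h2, covers_Z F hdm.le hd h2 hp _ (mem_ZZ.2 ⟨i, hid, rfl⟩), p, (), hp⟩
        obtain ⟨_, ⟨x, hx⟩, _⟩ := (mem_Eg F S).1 (hsub h6)
        by_cases hxp : x = p
        · rw [hxp, hp] at hx; simp at hx
        · have := h5 x hxp
          rw [hx, mem_Side] at this
          simp at this)
      rw [card_empty] at this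
      exact absurd this (not_le.2 (Nat.pow_pos (by omega)))
  set EB := Eg F S (.inr (false, i)) with hEB
  set EA := Eg F S (.inr (true, i)) with hEA
  set T := EA.filter (fun φ => φ p = .inl () ∧ φ q = .inr (true, o) ∧ φ w = .inr (true, i)) with hT
  have hTl := lower_T F p q w hpq hwp hpw i o rfl (not_lt.1 hid) T (by
    intro φ h2 hp hq hw _
    exact mem_filter.2 ⟨(mem_Eg F S).2 ⟨h2, ⟨w, hw⟩, p, (), hp⟩, hp, hq, hw⟩)
  have hAs : T.card + _ = _ := card_filter_add_card_filter_not (s := EA)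
    (fun φ => φ p = .inl () ∧ φ q = .inr (true, o) ∧ φ w = .inr (true, i))
  let bad : Fin m → Finset (Fin n → W Unit m) := fun l =>
    EB.filter (fun φ => (∃ x, φ x = .inr (true, l)) ∧ ∃ y, φ y = .inr (false, l))
  set good := EB.filter (fun φ => ∀ l : Fin m, ∀ x y, φ x = .inr (true, l) → φ y ≠ .inr (false, l))
    with hgood
  have hsplit : EB.card ≤ good.card + ∑ l, (bad l).card := by
    refine le_trans (card_le_card (t := good ∪ univ.biUnion bad) ?_)
      ((card_union_le _ _).trans (Nat.add_le_add_left card_biUnion_le _))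
    intro φ hφ
    by_cases h : ∀ l : Fin m, ∀ x y, φ x = .inr (true, l) → φ y ≠ .inr (false, l)
    · exact mem_union_left _ (mem_filter.2 ⟨hφ, h⟩)
    · simp only [not_forall, ne_eq, not_not] at h
      obtain ⟨l, x, y, hx, hy⟩ := h
      exact mem_union_right _ (mem_biUnion.2 ⟨l, mem_univ _, mem_filter.2 ⟨hφ, ⟨x, hx⟩, y, hy⟩⟩)
  have hgc : good.card ≤ (EA.filter (fun φ =>
      ¬ (φ p = .inl () ∧ φ q = .inr (true, o) ∧ φ w = .inr (true, i)))).card := by
    refine card_le_card_of_injOn (flip F i) ?_ ?_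
    · intro φ hφ
      obtain ⟨h2, h3⟩ := mem_filter.1 (mem_coe.1 hφ)
      obtain ⟨h4, h5⟩ := flip_good F S i h2 h3
      exact mem_coe.2 (mem_filter.2 ⟨h4, fun h => h5 p q w () o hpq hqw rfl h.1 h.2.1 h.2.2⟩)
    · intro φ _ ψ _ h
      rw [← flip_flip F i φ, h, flip_flip]
  set N := 2 * m + 1 with hN
  set d := F.degree p with hdd
  have hcov : ∀ l, ∀ φ ∈ bad l, ∀ v ∈ insert (.inl ()) (insert (.inr (false, i))
      (insert (.inr (true, l)) (insert (.inr (false, l)) (ZZ d m)))), ∃ x, φ x = v := by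
    intro l φ hφ v hv
    obtain ⟨h2, h3, h4⟩ := mem_filter.1 hφ
    obtain ⟨h5, h6, x, t, hx⟩ := (mem_Eg F S).1 h2
    simp only [mem_insert] at hv
    rcases hv with rfl | rfl | rfl | rfl | hv
    · exact ⟨x, hx⟩
    · exact h6
    · exact h3
    · exact h4
    · exact covers_Z F hdm.le hd h5 hx v hv
  have hzZ : (.inl () : W Unit m) ∉ ZZ d m := by simp [mem_ZZ]
  have hBZ : ∀ l, (.inr (false, l) : W Unit m) ∉ ZZ d m := by simp [mem_ZZ]
  have hAZ : ∀ l : Fin m, d ≤ l.1 → (.inr (true, l) : W Unit m) ∉ ZZ d m := by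
    intro l hl h
    obtain ⟨l', h1, h2⟩ := mem_ZZ.1 h
    simp only [Sum.inr.injEq, Prod.mk.injEq, true_and] at h2
    subst h2
    omega
  have hb1 : ∀ l, (bad l).card * N ^ (d + 3) ≤ n ^ n * N ^ n := by
    intro l
    rw [hN, ← card_W]
    refine upper (by rw [card_W]; omega) _ _ _ ?_ (hcov l)
    rw [card_insert_of_notMem (by simp [hzZ])]
    by_cases hl : l = i
    · subst hl
      refine Nat.succ_le_succ (le_trans ?_ (card_le_card (subset_insert _ _)))
      rw [card_insert_of_notMem (by simp [hAZ l (not_lt.1 hid)]), card_insert_of_notMem (hBZ l),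
        card_ZZ hdm.le]
    · rw [card_insert_of_notMem (by simp [hBZ, Ne.symm hl])]
      refine Nat.succ_le_succ (Nat.succ_le_succ (le_trans ?_ (card_le_card (subset_insert _ _))))
      rw [card_insert_of_notMem (hBZ l), card_ZZ hdm.le]
  have hb2 : ∀ l : Fin m, d ≤ l.1 → l ≠ i → (bad l).card * N ^ (d + 4) ≤ n ^ n * N ^ n := by
    intro l h1 hl
    rw [hN, ← card_W]
    refine upper (by rw [card_W]; omega) _ _ _ ?_ (hcov l)
    rw [card_insert_of_notMem (by simp [hzZ]), card_insert_of_notMem (by simp [hBZ, Ne.symm hl]),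
      card_insert_of_notMem (by simp [hAZ l h1]), card_insert_of_notMem (hBZ l), card_ZZ hdm.le]
  have hsum : (∑ l, (bad l).card) * N ^ (d + 2 + 1) ≤ (d + 2) * n ^ n * N ^ n := by
    set A := insert i (univ.filter (fun l : Fin m => l.1 < d)) with hA
    have hAc : A.card ≤ d + 1 := by
      refine (card_insert_le _ _).trans ?_
      rw [Fin.card_filter_val_lt]
      omega
    rw [← sum_add_sum_compl A, add_mul]
    have e1 : (∑ l ∈ A, (bad l).card) * N ^ (d + 2 + 1) ≤ (d + 1) * (n ^ n * N ^ n) := by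
      rw [sum_mul]
      refine (sum_le_card_nsmul _ _ _ (fun l _ => hb1 l)).trans ?_
      exact Nat.mul_le_mul_right _ hAc
    have e2 : (∑ l ∈ Aᶜ, (bad l).card) * N ^ (d + 2 + 1) ≤ n ^ n * N ^ n := by
      have e3 : (∑ l ∈ Aᶜ, (bad l).card) * N ^ (d + 4) ≤ N * (n ^ n * N ^ n) := by
        rw [sum_mul]
        refine (sum_le_card_nsmul _ _ (n ^ n * N ^ n) (fun l hl => ?_)).trans ?_
        · simp only [hA, mem_compl, mem_insert, mem_filter, mem_univ, true_and, not_or,
            not_lt] at hl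
          exact hb2 l hl.2 hl.1
        · refine Nat.mul_le_mul_right _ ((card_le_univ _).trans ?_)
          rw [Fintype.card_fin]; omega
      refine Nat.le_of_mul_le_mul_left (c := N) ?_ (by omega)
      calc N * ((∑ l ∈ Aᶜ, (bad l).card) * N ^ (d + 2 + 1))
          = (∑ l ∈ Aᶜ, (bad l).card) * N ^ (d + 4) := by ring
        _ ≤ _ := e3
    calc _ ≤ (d + 1) * (n ^ n * N ^ n) + n ^ n * N ^ n := Nat.add_le_add e1 e2
      _ = _ := by ring
  have hlt : ∑ l, (bad l).card < T.card :=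
    cmp hm1 hm2 (k := d + 2) (c := d + 2) hd2 (by omega) hsum hTl
  omega

end

theorem noncomplete_case {n : ℕ} (F : SimpleGraph (Fin n)) (hF : F.Connected) (hne : F ≠ ⊤) :
    ∃ d m : ℕ, 1 ≤ m ∧ Function.Injective (D F (GG (SZ d m))) := by
  classical
  have : Nonempty (Fin n) := hF.nonempty
  obtain ⟨p, hp⟩ := F.exists_minimal_degree_vertex
  have hd : ∀ u, F.degree p ≤ F.degree u := fun u => hp ▸ F.minDegree_le_degree u
  have hex : ∃ q w, F.Adj p q ∧ F.Adj q w ∧ w ≠ p ∧ ¬ F.Adj p w := by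
    by_contra hcon
    have hcl : ∀ u v, F.Reachable u v → (u = p ∨ F.Adj p u) → (v = p ∨ F.Adj p v) := by
      intro u v ⟨wk⟩
      induction wk with
      | nil => exact id
      | @cons a b c hab _ ih =>
        intro ha
        apply ih
        rcases ha with rfl | ha
        · exact Or.inr hab
        · by_contra hb
          rw [not_or] at hb
          exact hcon ⟨a, b, ha, hab, hb.1, hb.2⟩
    apply hne
    have hdeg : F.degree p = n - 1 := by
      have : F.neighborFinset p = univ.erase p := by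
        ext v
        simp only [SimpleGraph.mem_neighborFinset, mem_erase, mem_univ, and_true]
        constructor
        · exact fun h => h.ne.symm
        · intro h
          exact (hcl p v (hF.preconnected p v) (Or.inl rfl)).resolve_left h
      rw [SimpleGraph.degree, this, card_erase_of_mem (mem_univ _)]
      simp
    ext u v
    simp only [SimpleGraph.top_adj]
    refine ⟨fun h => h.ne, fun h => ?_⟩
    have hsub : F.neighborFinset u ⊆ univ.erase u := by
      intro x hx
      exact mem_erase.2 ⟨((F.mem_neighborFinset u x).1 hx).ne.symm, mem_univ _⟩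
    have := eq_of_subset_of_card_le hsub (by
      rw [card_erase_of_mem (mem_univ _), card_univ, Fintype.card_fin, ← hdeg]
      exact hd u)
    rw [← SimpleGraph.mem_neighborFinset, this]
    exact mem_erase.2 ⟨Ne.symm h, mem_univ _⟩
  obtain ⟨q, w, hpq, hqw, hwp, hpw⟩ := hex
  set m := (n + 2) * n ^ n * 6 ^ n + 2 * n + 1 with hm
  have hm1 : 2 * m + 1 ≤ 6 * (m - n) := by omega
  have hm2 : (n + 2) * n ^ n * 6 ^ n < 2 * m + 1 := by omega
  refine ⟨F.degree p, m, by omega, main_inj F _ ?_ (fun _ _ _ => rfl) ?_ ?_⟩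
  · exact part1 F p q w hpq hwp hpw hd hm1 hm2
  · exact part2 F p q w hpq hqw hwp hpw hd hm1 hm2
  · exact part3 F p q w hpq hqw hwp hpw hd hm1 hm2

end Pool.Agent.H12.Irr
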