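import Mathlib

set_option autoImplicit false

namespace Pool.Agent.H12.Judic

open SimpleGraph Finset

def split (s t : ℕ) : SimpleGraph (Fin (s + t)) where
  Adj u v := u ≠ v ∧ (u.val < s ∨ v.val < s)
  symm := ⟨fun _ _ h => ⟨h.1.symm, h.2.symm⟩⟩
  loopless := ⟨fun _ h => h.1 rfl⟩

instance (s t : ℕ) : DecidableRel (split s t).Adj := fun u v =>
  inferInstanceAs (Decidable (u ≠ v ∧ (u.val < s ∨ v.val < s)))

theorem card_lt (s t : ℕ) : (univ.filter (fun v : Fin (s + t) => v.val < s)).card = s := by
  rw [Fin.card_filter_val_lt]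
  omega

theorem deg_center (s t : ℕ) (v : Fin (s + t)) (hv : v.val < s) :
    (split s t).degree v = s + t - 1 := by
  rw [← card_neighborFinset_eq_degree]
  have : (split s t).neighborFinset v = univ.erase v := by
    ext w
    simp only [mem_neighborFinset, split, mem_erase, mem_univ, and_true]
    exact ⟨fun h => h.1.symm, fun h => ⟨h.symm, Or.inl hv⟩⟩
  rw [this, card_erase_of_mem (mem_univ _)]
  simp

theorem deg_leaf (s t : ℕ) (v : Fin (s + t)) (hv : ¬ v.val < s) : (split s t).degree v = s := by
  rw [← card_neighborFinset_eq_degree]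
  have : (split s t).neighborFinset v = univ.filter (fun w : Fin (s + t) => w.val < s) := by
    ext w
    simp only [mem_neighborFinset, split, mem_filter, mem_univ, true_and]
    refine ⟨fun h => h.2.resolve_left hv, fun h => ⟨?_, Or.inr h⟩⟩
    rintro rfl
    exact hv h
  rw [this, card_lt]

theorem edges (s t : ℕ) : 2 * (split s t).edgeFinset.card = s * (s + t - 1) + t * s := by
  rw [← sum_degrees_eq_twice_card_edges,
    ← Finset.sum_filter_add_sum_filter_not univ (fun v : Fin (s + t) => v.val < s)]
  rw [Finset.sum_congr rfl (g := fun _ => s + t - 1) (fun v hv => deg_center s t v (mem_filter.1 hv).2),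
    Finset.sum_congr rfl (s₁ := univ.filter (fun v : Fin (s + t) => ¬ v.val < s)) (g := fun _ => s)
      (fun v hv => deg_leaf s t v (mem_filter.1 hv).2)]
  have h := Finset.card_filter_add_card_filter_not (s := (univ : Finset (Fin (s + t))))
    (fun v => v.val < s)
  rw [card_lt, card_univ, Fintype.card_fin] at h
  have h2 : (univ.filter (fun v : Fin (s + t) => ¬ v.val < s)).card = t := by omega
  simp only [sum_const, smul_eq_mul, card_lt, h2]

theorem small_class (s t k : ℕ) (h : 2 * s + t < 2 * k) (c : Fin (s + t) → Fin k) :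
    ∃ i : Fin k, ∃ v0 : Option (Fin (s + t)), (∀ v, v0 = some v → ¬ v.val < s) ∧
      ∀ v, c v = i → v0 = some v := by
  classical
  let w : Fin (s + t) → ℕ := fun v => if v.val < s then 2 else 1
  have hw : ∑ v, w v = 2 * s + t := by
    rw [← Finset.sum_filter_add_sum_filter_not univ (fun v : Fin (s + t) => v.val < s)]
    rw [Finset.sum_congr rfl (g := fun _ => 2) (fun v hv => if_pos (mem_filter.1 hv).2),
      Finset.sum_congr rfl (s₁ := univ.filter (fun v : Fin (s + t) => ¬ v.val < s)) (g := fun _ => 1)
        (fun v hv => if_neg (mem_filter.1 hv).2)]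
    have h := Finset.card_filter_add_card_filter_not (s := (univ : Finset (Fin (s + t))))
      (fun v => v.val < s)
    rw [card_lt, card_univ, Fintype.card_fin] at h
    simp only [sum_const, smul_eq_mul, card_lt]
    omega
  have h1 : ∑ i : Fin k, ∑ v ∈ univ.filter (fun v => c v = i), w v < ∑ _i : Fin k, 2 := by
    rw [Finset.sum_fiberwise_of_maps_to (fun _ _ => mem_univ _), hw]
    simp
    omega
  obtain ⟨i, _, hi⟩ := Finset.exists_lt_of_sum_lt h1
  refine ⟨i, ?_⟩
  by_cases hex : ∃ v, c v = i
  · obtain ⟨v, hv⟩ := hex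
    have hv' : v ∈ univ.filter (fun v => c v = i) := by simp [hv]
    refine ⟨some v, ?_, ?_⟩
    · intro u hu
      cases hu
      intro hlt
      have := Finset.single_le_sum (f := w) (fun _ _ => Nat.zero_le _) hv'
      simp only [w, if_pos hlt] at this hi
      omega
    · intro u hu
      by_contra hne
      have hne' : v ≠ u := fun h => hne (by rw [h])
      have hu' : u ∈ univ.filter (fun v => c v = i) := by simp [hu]
      have := Finset.sum_le_sum_of_subset (f := w) (s := {v, u})
        (t := univ.filter (fun v => c v = i)) (by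
          intro x hx
          rcases Finset.mem_insert.1 hx with rfl | hx
          · exact hv'
          · rw [Finset.mem_singleton.1 hx]; exact hu')
      rw [Finset.sum_pair hne'] at this
      have h3 : ∀ x, 1 ≤ w x := fun x => by simp only [w]; split_ifs <;> omega
      have := h3 v
      have := h3 u
      omega
  · exact ⟨none, by simp, fun v hv => absurd ⟨v, hv⟩ hex⟩

theorem meets_le (s t k : ℕ) (h : 2 * s + t < 2 * k) (c : Fin (s + t) → Fin k) :
    ∃ i : Fin k, {e ∈ (split s t).edgeSet | ∃ v ∈ e, c v = i}.ncard ≤ s := by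
  classical
  obtain ⟨i, v0, h1, h2⟩ := small_class s t k h c
  refine ⟨i, ?_⟩
  cases v0 with
  | none =>
    have : {e ∈ (split s t).edgeSet | ∃ v ∈ e, c v = i} = ∅ := by
      ext e
      simp only [Set.mem_ofPred_eq, Set.mem_empty_iff_false, iff_false]
      rintro ⟨_, v, _, hv⟩
      cases h2 v hv
    rw [this]
    simp
  | some v =>
    have hsub : {e ∈ (split s t).edgeSet | ∃ v ∈ e, c v = i} ⊆ ↑((split s t).incidenceFinset v) := by
      rintro e ⟨he, u, hu, hc⟩
      have := h2 u hc
      cases this
      simp only [Finset.mem_coe, mem_incidenceFinset]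
      exact ⟨he, hu⟩
    calc _ ≤ _ := Set.ncard_le_ncard hsub (Finset.finite_toSet _)
      _ = (split s t).degree v := by rw [Set.ncard_coe_finset, card_incidenceFinset_eq_degree]
      _ = s := deg_leaf s t v (h1 v rfl)

end Pool.Agent.H12.Judic
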