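import Mathlib

set_option autoImplicit false

namespace Pool.Agent.H12.Lacun

open Finset

section Avoid

variable {E : Type} (t : E → ℕ) (kill : E → ℕ → Prop)

open Classical in
noncomputable def cnt (e : E) (g a : ℕ) : ℕ :=
  ((Finset.Ico (a * 16 ^ g) ((a + 1) * 16 ^ g)).filter (kill e)).card

theorem cnt_succ (e : E) (g a : ℕ) :
    cnt kill e (g + 1) a = ∑ d ∈ range 16, cnt kill e g (16 * a + d) := by
  classical
  have key : ∀ n : ℕ, ((Finset.Ico (16 * a * 16 ^ g) ((16 * a + n) * 16 ^ g)).filter (kill e)).card =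
      ∑ d ∈ range n, cnt kill e g (16 * a + d) := by
    intro n
    induction n with
    | zero => simp
    | succ n ih =>
      rw [Finset.sum_range_succ, ← ih, cnt]
      have h1 : 16 * a * 16 ^ g ≤ (16 * a + n) * 16 ^ g := Nat.mul_le_mul_right _ (by omega)
      have h2 : (16 * a + n) * 16 ^ g ≤ (16 * a + n + 1) * 16 ^ g :=
        Nat.mul_le_mul_right _ (by omega)
      rw [← add_assoc, ← Finset.Ico_union_Ico_eq_Ico h1 h2, Finset.filter_union,
        Finset.card_union_of_disjoint]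
      exact Finset.disjoint_filter_filter (Finset.Ico_disjoint_Ico_consecutive _ _ _)
  rw [← key 16, cnt]
  congr 3 <;> ring

noncomputable def val (e : E) (j a : ℕ) : ℝ :=
  if j ≤ t e then (cnt kill e (t e - j) a : ℝ) / 8 ^ (t e - j) else 0

theorem val_nonneg (e : E) (j a : ℕ) : 0 ≤ val t kill e j a := by
  unfold val
  split_ifs <;> positivity

theorem val_step (e : E) (j a : ℕ) :
    ∑ d ∈ range 16, val t kill e (j + 1) (16 * a + d) ≤ 8 * val t kill e j a := by
  by_cases h : j + 1 ≤ t e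
  · simp only [val, if_pos h, if_pos (show j ≤ t e by omega)]
    have e1 : t e - j = (t e - (j + 1)) + 1 := by omega
    rw [e1, cnt_succ, ← Finset.sum_div]
    push_cast
    rw [pow_succ]
    apply le_of_eq
    field_simp
  · simp only [val, if_neg h, Finset.sum_const_zero]
    split_ifs <;> positivity

theorem avoid (Ev : ℕ → Finset E) (ht : ∀ s, ∀ e ∈ Ev s, s ≤ t e)
    (hsum : ∀ s a, ∑ e ∈ Ev s, val t kill e s a ≤ 1 / 2) :
    ∃ a : ℕ → ℕ, (∀ j, 16 * a j ≤ a (j + 1) ∧ a (j + 1) < 16 * (a j + 1)) ∧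
      ∀ s, ∀ e ∈ Ev s, ¬ kill e (a (t e)) := by
  classical
  let Φ : ℕ → ℕ → ℝ := fun j a => ∑ s ∈ range (j + 1), ∑ e ∈ Ev s, val t kill e j a
  have hstep : ∀ j a, ∃ a', Φ j a < 1 → (16 * a ≤ a' ∧ a' < 16 * (a + 1)) ∧ Φ (j + 1) a' < 1 := by
    intro j a
    by_cases hΦ : Φ j a < 1
    · have h1 : ∑ d ∈ range 16, (∑ s ∈ range (j + 1), ∑ e ∈ Ev s, val t kill e (j + 1) (16 * a + d))
          < ∑ _d ∈ range 16, (1 / 2 : ℝ) := by
        calc _ = ∑ s ∈ range (j + 1), ∑ e ∈ Ev s, ∑ d ∈ range 16, val t kill e (j + 1) (16 * a + d) := by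
              rw [Finset.sum_comm]
              exact Finset.sum_congr rfl (fun s _ => Finset.sum_comm)
          _ ≤ ∑ s ∈ range (j + 1), ∑ e ∈ Ev s, 8 * val t kill e j a :=
              Finset.sum_le_sum (fun s _ => Finset.sum_le_sum (fun e _ => val_step t kill e j a))
          _ = 8 * Φ j a := by simp only [Φ, Finset.mul_sum]
          _ < _ := by simp; linarith
      obtain ⟨d, hd, hd'⟩ := Finset.exists_lt_of_sum_lt h1
      refine ⟨16 * a + d, fun _ => ⟨⟨by omega, by have := Finset.mem_range.1 hd; omega⟩, ?_⟩⟩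
      simp only [Φ]
      rw [Finset.sum_range_succ]
      have := hsum (j + 1) (16 * a + d)
      linarith
    · exact ⟨0, fun h => absurd h hΦ⟩
  choose nxt hnxt using hstep
  let a : ℕ → ℕ := fun j => Nat.rec 0 (fun j a => nxt j a) j
  have ha : ∀ j, Φ j (a j) < 1 := by
    intro j
    induction j with
    | zero =>
      have := hsum 0 0
      simp only [Φ, zero_add, Finset.sum_range_one]
      show ∑ e ∈ Ev 0, val t kill e 0 0 < 1
      linarith
    | succ j ih => exact (hnxt j (a j) ih).2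
  refine ⟨a, fun j => (hnxt j (a j) (ha j)).1, ?_⟩
  intro s e he hk
  have h1 := ha (t e)
  have h2 : val t kill e (t e) (a (t e)) ≤ Φ (t e) (a (t e)) := by
    calc _ ≤ ∑ e' ∈ Ev s, val t kill e' (t e) (a (t e)) :=
          Finset.single_le_sum (f := fun e' => val t kill e' (t e) (a (t e)))
            (fun e' _ => val_nonneg t kill e' _ _) he
      _ ≤ _ := Finset.single_le_sum
          (f := fun s => ∑ e' ∈ Ev s, val t kill e' (t e) (a (t e)))
          (fun s _ => Finset.sum_nonneg (fun e' _ => val_nonneg t kill e' _ _))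
          (Finset.mem_range.2 (Nat.lt_succ_of_le (ht s e he)))
  have h3 : val t kill e (t e) (a (t e)) = 1 := by
    simp [val, cnt, Finset.filter_singleton, hk]
  linarith

end Avoid

theorem exists_limit (a : ℕ → ℕ) (h : ∀ j, 16 * a j ≤ a (j + 1) ∧ a (j + 1) < 16 * (a j + 1)) :
    ∃ θ : ℝ, ∀ j, (a j : ℝ) ≤ 16 ^ j * θ ∧ 16 ^ j * θ ≤ a j + 1 := by
  have hne : (⋂ j, Set.Icc ((a j : ℝ) / 16 ^ j) ((a j + 1) / 16 ^ j)).Nonempty := by
    apply IsCompact.nonempty_iInter_of_sequence_nonempty_isCompact_isClosed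
    · intro j
      have h1 : (16 * a j : ℝ) ≤ a (j + 1) := by exact_mod_cast (h j).1
      have h2 : (a (j + 1) + 1 : ℝ) ≤ 16 * (a j + 1) := by exact_mod_cast (h j).2
      apply Set.Icc_subset_Icc
      · rw [div_le_div_iff₀ (by positivity) (by positivity), pow_succ]
        have : (0 : ℝ) < 16 ^ j := by positivity
        nlinarith
      · rw [div_le_div_iff₀ (by positivity) (by positivity), pow_succ]
        have : (0 : ℝ) < 16 ^ j := by positivity
        nlinarith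
    · intro j
      apply Set.nonempty_Icc.2
      gcongr
      linarith
    · exact isCompact_Icc
    · intro j
      exact isClosed_Icc
  obtain ⟨θ, hθ⟩ := hne
  refine ⟨θ, fun j => ?_⟩
  have := Set.mem_iInter.1 hθ j
  have hp : (0 : ℝ) < 16 ^ j := by positivity
  rw [Set.mem_Icc, div_le_iff₀ hp, le_div_iff₀ hp] at this
  constructor <;> linarith [this.1, this.2]

theorem window (K : Set ℕ) (δ : ℝ) (hδ : 0 < δ)
    (hK : ∀ a ∈ K, ∀ b ∈ K, a < b → (1 + δ) * (a : ℝ) < (b : ℝ)) (x : ℝ) (n : ℕ) :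
    ∀ F : Finset ℕ, (∀ k ∈ F, k ∈ K ∧ x ≤ k ∧ (k : ℝ) < x * (1 + δ) ^ n) → F.card ≤ n := by
  classical
  induction n with
  | zero =>
    intro F hF
    rw [Nat.le_zero, Finset.card_eq_zero, Finset.eq_empty_iff_forall_notMem]
    intro k hk
    have := hF k hk
    simp only [pow_zero, mul_one] at this
    linarith [this.2.1, this.2.2]
  | succ n ih =>
    intro F hF
    have h1 := ih (F.filter (fun k : ℕ => (k : ℝ) < x * (1 + δ) ^ n)) (by
      intro k hk
      rw [Finset.mem_filter] at hk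
      exact ⟨(hF k hk.1).1, (hF k hk.1).2.1, hk.2⟩)
    have h2 : (F.filter (fun k : ℕ => ¬ (k : ℝ) < x * (1 + δ) ^ n)).card ≤ 1 := by
      rw [Finset.card_le_one]
      have key : ∀ a ∈ F.filter (fun k : ℕ => ¬ (k : ℝ) < x * (1 + δ) ^ n),
          ∀ b ∈ F.filter (fun k : ℕ => ¬ (k : ℝ) < x * (1 + δ) ^ n), ¬ a < b := by
        intro a ha b hb hab
        rw [Finset.mem_filter] at ha hb
        have h3 := hK a (hF a ha.1).1 b (hF b hb.1).1 hab
        have h4 := (hF b hb.1).2.2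
        have h5 := not_lt.1 ha.2
        rw [pow_succ] at h4
        nlinarith
      intro a ha b hb
      have := key a ha b hb
      have := key b hb a ha
      omega
    have := Finset.card_filter_add_card_filter_not (s := F) (fun k : ℕ => (k : ℝ) < x * (1 + δ) ^ n)
    omega

theorem sum_log (R : ℕ) : ∑ l ∈ range (4 ^ R), (1 : ℝ) / 8 ^ (Nat.log 4 l) ≤ 7 - 6 / 2 ^ R := by
  induction R with
  | zero => simp; norm_num
  | succ R ih =>
    have h1 : 4 ^ R ≤ 4 ^ (R + 1) := Nat.pow_le_pow_right (by norm_num) (by omega)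
    rw [← Finset.sum_range_add_sum_Ico _ h1]
    have h2 : ∑ l ∈ Ico (4 ^ R) (4 ^ (R + 1)), (1 : ℝ) / 8 ^ (Nat.log 4 l) = 3 / 2 ^ R := by
      rw [Finset.sum_congr rfl (g := fun _ => (1 : ℝ) / 8 ^ R)]
      · rw [Finset.sum_const, Nat.card_Ico, nsmul_eq_mul]
        have : 4 ^ (R + 1) - 4 ^ R = 3 * 4 ^ R := by rw [pow_succ]; omega
        rw [this]
        push_cast
        have : (8 : ℝ) ^ R = 4 ^ R * 2 ^ R := by rw [← mul_pow]; norm_num
        rw [this]
        field_simp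
      · intro l hl
        rw [Finset.mem_Ico] at hl
        rw [Nat.log_eq_of_pow_le_of_lt_pow hl.1 hl.2]
    rw [h2, pow_succ]
    have : (6 : ℝ) / (2 ^ R * 2) = 3 / 2 ^ R := by field_simp; norm_num
    rw [this]
    have : (6 : ℝ) / 2 ^ R = 3 / 2 ^ R + 3 / 2 ^ R := by ring
    linarith

def killN (N t b : ℕ) : Prop := ∃ p : ℤ, ((b : ℝ) - 1) * N < p * 16 ^ t ∧ (p : ℝ) * 16 ^ t < (b + 2) * N

theorem cnt_le {E : Type} (kill : E → ℕ → Prop) (e : E) (N s g a : ℕ) (hg : 1 ≤ g)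
    (hN0 : 0 < N) (hN : N < 16 ^ (s + 1))
    (hk : ∀ b, kill e b → killN N (s + g) b) : cnt kill e g a ≤ 54 := by
  classical
  have hNr : (0 : ℝ) < N := by exact_mod_cast hN0
  have hNr' : (N : ℝ) < 16 ^ s * 16 := by rw [← pow_succ]; exact_mod_cast hN
  have hs : (0 : ℝ) < 16 ^ s := by positivity
  have hg' : (16 : ℝ) ≤ 16 ^ g := by
    calc (16 : ℝ) = 16 ^ 1 := by norm_num
      _ ≤ 16 ^ g := pow_le_pow_right₀ (by norm_num) hg
  obtain ⟨y, hy⟩ : ∃ y : ℝ, y = a * N / 16 ^ s := ⟨_, rfl⟩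
  have hy' : y * 16 ^ s = a * N := by rw [hy]; field_simp
  let f : ℕ × ℕ → ℕ := fun z => (⌊((⌊y⌋ + z.1 : ℤ) : ℝ) * 16 ^ (s + g) / N⌋ + z.2 - 1).toNat
  calc cnt kill e g a ≤ ((range 18 ×ˢ range 3).image f).card := by
        apply Finset.card_le_card
        intro b hb
        rw [Finset.mem_filter, Finset.mem_Ico] at hb
        obtain ⟨⟨hb1, hb2⟩, hb3⟩ := hb
        obtain ⟨p, hp1, hp2⟩ := hk b hb3
        have hb1' : (a : ℝ) * 16 ^ g ≤ b := by exact_mod_cast hb1
        have hb2' : (b : ℝ) + 1 ≤ (a + 1) * 16 ^ g := by exact_mod_cast hb2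
        rw [pow_add] at hp1 hp2
        have hG : (0 : ℝ) < 16 ^ g := by positivity
        have h1 : y - 1 < p := by
          by_contra hc
          push Not at hc
          have : (p : ℝ) * (16 ^ s * 16 ^ g) ≤ (y - 1) * (16 ^ s * 16 ^ g) := by gcongr
          have e : (y - 1) * (16 ^ s * 16 ^ g) = a * 16 ^ g * N - 16 ^ s * 16 ^ g := by
            linear_combination (16 : ℝ) ^ g * hy'
          have : (a : ℝ) * 16 ^ g * N ≤ b * N := by gcongr
          have : (16 : ℝ) ^ s * 16 ≤ 16 ^ s * 16 ^ g := by gcongr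
          nlinarith
        have h2 : (p : ℝ) < y + 17 := by
          by_contra hc
          push Not at hc
          have : (y + 17) * (16 ^ s * 16 ^ g) ≤ (p : ℝ) * (16 ^ s * 16 ^ g) := by gcongr
          have e : (y + 17) * (16 ^ s * 16 ^ g) = a * 16 ^ g * N + 17 * (16 ^ s * 16 ^ g) := by
            linear_combination (16 : ℝ) ^ g * hy'
          have : ((b : ℝ) + 1) * N ≤ (a + 1) * 16 ^ g * N := by gcongr
          have : (16 : ℝ) ^ s * 16 ≤ 16 ^ s * 16 ^ g := by gcongr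
          have : (16 : ℝ) ^ g * N ≤ 16 ^ g * (16 ^ s * 16) := by gcongr
          nlinarith
        have h3 : ⌊y⌋ ≤ p := by
          have := Int.floor_le y
          have : ((⌊y⌋ : ℝ) - 1) < p := by linarith
          have : ⌊y⌋ - 1 < p := by exact_mod_cast this
          omega
        have h4 : p < ⌊y⌋ + 18 := by
          have := Int.lt_floor_add_one y
          have : (p : ℝ) < ⌊y⌋ + 18 := by linarith
          exact_mod_cast this
        obtain ⟨x, hx⟩ : ∃ x : ℤ, x = ⌊(p : ℝ) * 16 ^ (s + g) / N⌋ := ⟨_, rfl⟩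
        have h5 : (b : ℤ) - 1 ≤ x := by
          rw [hx, Int.le_floor, le_div_iff₀ hNr, pow_add]
          push_cast
          linarith
        have h6 : x < (b : ℤ) + 2 := by
          rw [hx, Int.floor_lt, div_lt_iff₀ hNr, pow_add]
          push_cast
          linarith
        refine Finset.mem_image.2 ⟨((p - ⌊y⌋).toNat, (b + 1 - x).toNat), ?_, ?_⟩
        · simp only [Finset.mem_product, Finset.mem_range]
          omega
        · simp only [f]
          have e1 : ⌊y⌋ + ((p - ⌊y⌋).toNat : ℤ) = p := by omega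
          rw [e1, ← hx]
          omega
    _ ≤ (range 18 ×ˢ range 3).card := Finset.card_image_le
    _ = 54 := by simp

theorem exists_theta (K : Set ℕ) (hpos : ∀ k ∈ K, 0 < k) (δ : ℝ) (hδ : 0 < δ)
    (hK : ∀ a ∈ K, ∀ b ∈ K, a < b → (1 + δ) * (a : ℝ) < (b : ℝ)) :
    ∃ θ η : ℝ, 0 < η ∧ ∀ k ∈ K, ∀ l : ℕ, 0 < l → ∀ p : ℤ, η / (l : ℝ) ^ 2 ≤ |(k : ℝ) * l * θ - p| := by
  classical
  obtain ⟨C, hC⟩ := pow_unbounded_of_one_lt (16 : ℝ) (show 1 < 1 + δ by linarith)
  obtain ⟨u0, hu0⟩ := pow_unbounded_of_one_lt (756 * (C : ℝ)) (show (1 : ℝ) < 8 by norm_num)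
  obtain ⟨u, hu1, hu⟩ : ∃ u : ℕ, 1 ≤ u ∧ 756 * (C : ℝ) < 8 ^ u :=
    ⟨u0 + 1, by omega, hu0.trans_le (pow_le_pow_right₀ (by norm_num) (by omega))⟩
  let t : ℕ × ℕ → ℕ := fun e => Nat.log 16 (e.1 * e.2) + (u + Nat.log 4 e.2)
  let kill : ℕ × ℕ → ℕ → Prop := fun e b => killN (e.1 * e.2) (t e) b
  let Ev : ℕ → Finset (ℕ × ℕ) := fun s =>
    (range (16 ^ (s + 1)) ×ˢ range (4 ^ (2 * s + 2))).filter
      (fun e => e.1 ∈ K ∧ 16 ^ s ≤ e.1 * e.2 ∧ e.1 * e.2 < 16 ^ (s + 1))
  have hlog : ∀ s, ∀ e ∈ Ev s, Nat.log 16 (e.1 * e.2) = s := by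
    intro s e he
    simp only [Ev, Finset.mem_filter] at he
    exact Nat.log_eq_of_pow_le_of_lt_pow he.2.2.1 he.2.2.2
  obtain ⟨a, ha1, ha2⟩ := avoid t kill Ev (by
    intro s e he
    simp only [t, hlog s e he]
    omega) (by
    intro s a
    have h1 : ∀ e ∈ Ev s, val t kill e s a ≤ 54 / 8 ^ u * (1 / 8 ^ (Nat.log 4 e.2)) := by
      intro e he
      have ht : t e = s + (u + Nat.log 4 e.2) := by simp only [t, hlog s e he]
      have he' := he
      simp only [Ev, Finset.mem_filter] at he'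
      have hc := cnt_le kill e (e.1 * e.2) s (u + Nat.log 4 e.2) a (by omega)
        (lt_of_lt_of_le (by positivity) he'.2.2.1) he'.2.2.2 (by
          intro b hb
          rw [← ht]
          exact hb)
      have hc' : (cnt kill e (u + Nat.log 4 e.2) a : ℝ) ≤ 54 := by exact_mod_cast hc
      unfold val
      rw [if_pos (by omega), ht, Nat.add_sub_cancel_left, pow_add]
      calc _ ≤ (54 : ℝ) / (8 ^ u * 8 ^ (Nat.log 4 e.2)) := by gcongr
        _ = _ := by field_simp
    calc _ ≤ ∑ e ∈ Ev s, (54 : ℝ) / 8 ^ u * (1 / 8 ^ (Nat.log 4 e.2)) := Finset.sum_le_sum h1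
      _ = ∑ l ∈ range (4 ^ (2 * s + 2)), ∑ e ∈ (Ev s).filter (fun e => e.2 = l),
            (54 : ℝ) / 8 ^ u * (1 / 8 ^ (Nat.log 4 e.2)) := by
          symm
          apply Finset.sum_fiberwise_of_maps_to
          intro e he
          simp only [Ev, Finset.mem_filter, Finset.mem_product] at he
          exact he.1.2
      _ ≤ ∑ l ∈ range (4 ^ (2 * s + 2)), C * ((54 : ℝ) / 8 ^ u * (1 / 8 ^ (Nat.log 4 l))) := by
          apply Finset.sum_le_sum
          intro l _
          rw [Finset.sum_congr rfl (g := fun _ => (54 : ℝ) / 8 ^ u * (1 / 8 ^ (Nat.log 4 l)))]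
          · rw [Finset.sum_const, nsmul_eq_mul]
            gcongr
            rw [← Finset.card_image_of_injOn (f := Prod.fst)]
            · apply window K δ hδ hK ((16 : ℝ) ^ s / l) C
              intro k hk
              obtain ⟨e, he, rfl⟩ := Finset.mem_image.1 hk
              simp only [Ev, Finset.mem_filter] at he
              obtain ⟨⟨_, h2, h3, h4⟩, rfl⟩ := he
              have hl : 0 < e.2 := by
                rcases Nat.eq_zero_or_pos e.2 with h | h
                · rw [h] at h3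
                  have : 0 < 16 ^ s := by positivity
                  omega
                · exact h
              have hl' : (0 : ℝ) < e.2 := by exact_mod_cast hl
              have h3' : (16 : ℝ) ^ s ≤ e.1 * e.2 := by exact_mod_cast h3
              have h4' : (e.1 : ℝ) * e.2 < 16 ^ (s + 1) := by exact_mod_cast h4
              refine ⟨h2, by rwa [div_le_iff₀ hl'], ?_⟩
              rw [div_mul_eq_mul_div, lt_div_iff₀ hl']
              rw [pow_succ] at h4'
              have : (16 : ℝ) ^ s * 16 ≤ 16 ^ s * (1 + δ) ^ C := by gcongr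
              linarith
            · intro e he e' he' h
              simp only [Finset.coe_filter, Set.mem_ofPred_eq] at he he'
              exact Prod.ext h (he.2.trans he'.2.symm)
          · intro e he
            rw [(Finset.mem_filter.1 he).2]
      _ = C * (54 / 8 ^ u) * ∑ l ∈ range (4 ^ (2 * s + 2)), (1 : ℝ) / 8 ^ (Nat.log 4 l) := by
          rw [Finset.mul_sum]
          exact Finset.sum_congr rfl (fun l _ => by ring)
      _ ≤ C * (54 / 8 ^ u) * 7 := by
          gcongr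
          have := sum_log (2 * s + 2)
          have : (0 : ℝ) ≤ 6 / 2 ^ (2 * s + 2) := by positivity
          linarith
      _ = (C * 378) / 8 ^ u := by ring
      _ ≤ 1 / 2 := by
          rw [div_le_div_iff₀ (by positivity) (by norm_num)]
          linarith)
  obtain ⟨θ, hθ⟩ := exists_limit a ha1
  refine ⟨θ, 1 / 16 ^ u, by positivity, ?_⟩
  intro k hk l hl p
  have hk0 := hpos k hk
  obtain ⟨s, hs⟩ : ∃ s, s = Nat.log 16 (k * l) := ⟨_, rfl⟩
  have hs1 : 16 ^ s ≤ k * l := by rw [hs]; exact Nat.pow_log_le_self _ (by positivity)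
  have hs2 : k * l < 16 ^ (s + 1) := by rw [hs]; exact Nat.lt_pow_succ_log_self (by norm_num) _
  have he : (k, l) ∈ Ev s := by
    simp only [Ev, Finset.mem_filter, Finset.mem_product, Finset.mem_range]
    refine ⟨⟨?_, ?_⟩, hk, hs1, hs2⟩
    · exact lt_of_le_of_lt (Nat.le_mul_of_pos_right _ hl) hs2
    · have : 4 ^ (2 * s + 2) = 16 ^ (s + 1) := by
        rw [show 2 * s + 2 = 2 * (s + 1) by ring, pow_mul]; norm_num
      rw [this]
      exact lt_of_le_of_lt (Nat.le_mul_of_pos_left _ hk0) hs2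
  have h1 := ha2 s _ he
  have ht : t (k, l) = s + (u + Nat.log 4 l) := by simp only [t, ← hs]
  simp only [kill, killN, ht] at h1
  obtain ⟨h2, h3⟩ := hθ (s + (u + Nat.log 4 l))
  obtain ⟨T, hT⟩ : ∃ T : ℝ, T = 16 ^ (s + (u + Nat.log 4 l)) := ⟨_, rfl⟩
  rw [← hT] at h1 h2 h3
  have hTpos : 0 < T := by rw [hT]; positivity
  have hN : (0 : ℝ) < ((k * l : ℕ) : ℝ) := by positivity
  have hl' : (0 : ℝ) < l := by exact_mod_cast hl
  have h4 : (1 / 16 ^ u / (l : ℝ) ^ 2) * T ≤ ((k * l : ℕ) : ℝ) := by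
    have h5 : (16 : ℝ) ^ (Nat.log 4 l) ≤ (l : ℝ) ^ 2 := by
      have h6 : ((4 ^ Nat.log 4 l : ℕ) : ℝ) ≤ l := by
        exact_mod_cast Nat.pow_log_le_self 4 hl.ne'
      push_cast at h6
      calc (16 : ℝ) ^ (Nat.log 4 l) = (4 ^ Nat.log 4 l) ^ 2 := by
            rw [← pow_mul, mul_comm, pow_mul]; norm_num
        _ ≤ _ := by gcongr
    have h6 : (16 : ℝ) ^ s ≤ ((k * l : ℕ) : ℝ) := by exact_mod_cast hs1
    rw [hT, pow_add, pow_add]
    calc _ = (16 : ℝ) ^ s * (16 ^ (Nat.log 4 l) / (l : ℝ) ^ 2) := by field_simp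
      _ ≤ 16 ^ s * 1 := by
          gcongr
          rw [div_le_one (by positivity)]
          exact h5
      _ ≤ _ := by linarith
  by_contra hc
  push Not at hc
  apply h1
  rw [abs_lt] at hc
  have hc1 : (p : ℝ) * T < (k * l * θ + 1 / 16 ^ u / (l : ℝ) ^ 2) * T := by
    gcongr
    linarith [hc.1]
  have hc2 : (k * l * θ - 1 / 16 ^ u / (l : ℝ) ^ 2) * T < (p : ℝ) * T := by
    gcongr
    linarith [hc.2]
  push_cast at h4 hN ⊢
  have h7 : (k : ℝ) * l * (a (s + (u + Nat.log 4 l))) ≤ k * l * (T * θ) := by gcongr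
  have h8 : (k : ℝ) * l * (T * θ) ≤ k * l * (a (s + (u + Nat.log 4 l)) + 1) := by gcongr
  refine ⟨p, ?_, ?_⟩ <;> nlinarith

theorem nowrap (x η : ℝ) (hη : η ≤ 1 / 3) (h : ℕ) (hx : |x| < η)
    (H : ∀ r : ℕ, r ≤ h → ∃ p : ℤ, |r * x - p| < η) : |h * x| < η := by
  induction h with
  | zero => simpa using lt_of_le_of_lt (abs_nonneg _) hx
  | succ h ih =>
    have h1 := ih (fun r hr => H r (by omega))
    obtain ⟨p, hp⟩ := H (h + 1) le_rfl
    push_cast at hp ⊢
    rw [abs_lt] at h1 hp hx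
    have h2 : (p : ℝ) < 1 := by nlinarith
    have h3 : (-1 : ℝ) < p := by nlinarith
    have h4 : p < 1 := by exact_mod_cast h2
    have h5 : -1 < p := by exact_mod_cast h3
    have : p = 0 := by omega
    subst this
    rw [abs_lt]
    simpa using hp

theorem exists_col (M : ℕ) (hM : 0 < M) :
    ∃ col : ℝ → Fin M, ∀ u v, col u = col v → ∃ p : ℤ, |u - v - p| < 1 / M := by
  have hM' : (0 : ℝ) < M := by exact_mod_cast hM
  refine ⟨fun u => ⟨⌊M * Int.fract u⌋₊, ?_⟩, ?_⟩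
  · rw [Nat.floor_lt (by have := Int.fract_nonneg u; positivity)]
    have := Int.fract_lt_one u
    nlinarith
  · intro u v h
    simp only [Fin.mk.injEq] at h
    refine ⟨⌊u⌋ - ⌊v⌋, ?_⟩
    have h1 := Nat.floor_le (a := M * Int.fract u) (by have := Int.fract_nonneg u; positivity)
    have h2 := Nat.floor_le (a := M * Int.fract v) (by have := Int.fract_nonneg v; positivity)
    have h3 := Nat.lt_floor_add_one (M * Int.fract u)
    have h4 := Nat.lt_floor_add_one (M * Int.fract v)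
    rw [h] at h1 h3
    have e : u - v - ((⌊u⌋ - ⌊v⌋ : ℤ) : ℝ) = Int.fract u - Int.fract v := by
      push_cast
      rw [← Int.self_sub_floor, ← Int.self_sub_floor]
      ring
    rw [e, lt_div_iff₀ hM', ← abs_of_pos hM', ← abs_mul, abs_lt]
    constructor <;> nlinarith

theorem main (K : Set ℕ) (hpos : ∀ k ∈ K, 0 < k) (δ : ℝ) (hδ : 0 < δ)
    (hK : ∀ a ∈ K, ∀ b ∈ K, a < b → (1 + δ) * (a : ℝ) < (b : ℝ)) :
    ∃ N : ℕ, ∃ c : ℤ → Fin N, ∀ k ∈ K, ∀ a : ℤ, ∀ n : ℕ, 0 < n →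
      ∃ i : ℕ, i < n ∧ c (a + (i : ℤ) * (k : ℤ)) ≠ c (a + ((n : ℤ) + (i : ℤ)) * (k : ℤ)) := by
  obtain ⟨θ1, η1, hη1, H1⟩ := exists_theta K hpos δ hδ hK
  obtain ⟨θ3, η3, hη3, H3⟩ := exists_theta ((fun k => k ^ 3) '' K) (by
    rintro _ ⟨k, hk, rfl⟩
    exact pow_pos (hpos k hk) _) δ hδ (by
    rintro _ ⟨a, ha, rfl⟩ _ ⟨b, hb, rfl⟩ hab
    have hab' : a < b := lt_of_pow_lt_pow_left₀ 3 (Nat.zero_le _) hab
    have h1 := hK a ha b hb hab'
    have h2 : (0 : ℝ) < a := by exact_mod_cast hpos a ha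
    have h3 : (a : ℝ) < b := by exact_mod_cast hab'
    push_cast
    calc (1 + δ) * (a : ℝ) ^ 3 = ((1 + δ) * (a : ℝ)) * (a : ℝ) ^ 2 := by ring
      _ < (b : ℝ) * (a : ℝ) ^ 2 := by gcongr
      _ ≤ (b : ℝ) * (b : ℝ) ^ 2 := by gcongr
      _ = (b : ℝ) ^ 3 := by ring)
  obtain ⟨M, hM⟩ := exists_nat_gt (max 12 (max (4 / η1) (64 / η3)))
  have hM1 : (12 : ℝ) < M := lt_of_le_of_lt (le_max_left _ _) hM
  have hM2 : 4 / η1 < M := lt_of_le_of_lt ((le_max_left _ _).trans (le_max_right _ _)) hM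
  have hM3 : 64 / η3 < M := lt_of_le_of_lt ((le_max_right _ _).trans (le_max_right _ _)) hM
  have hMpos : (0 : ℝ) < M := by linarith
  obtain ⟨col, hcol⟩ := exists_col M (by exact_mod_cast hMpos)
  refine ⟨M * M, fun z => finProdFinEquiv (col ((z : ℝ) ^ 3 * (θ3 / 6)), col ((z : ℝ) * θ1)), ?_⟩
  intro k hk a n hn
  by_contra hc
  push Not at hc
  simp only [EmbeddingLike.apply_eq_iff_eq, Prod.mk.injEq] at hc
  by_cases hn3 : n < 3
  · obtain ⟨p, hp⟩ := hcol _ _ (hc 0 hn).2.symm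
    have h1 := H1 k hk n hn p
    have e : ((a + ((n : ℤ) + ((0 : ℕ) : ℤ)) * (k : ℤ) : ℤ) : ℝ) * θ1 -
        ((a + ((0 : ℕ) : ℤ) * (k : ℤ) : ℤ) : ℝ) * θ1 - p = k * n * θ1 - p := by
      push_cast; ring
    rw [e] at hp
    have h2 : (n : ℝ) ≤ 2 := by exact_mod_cast (show n ≤ 2 by omega)
    have h3 : (0 : ℝ) < n := by exact_mod_cast hn
    have h4 : η1 / 4 ≤ η1 / (n : ℝ) ^ 2 := by
      gcongr
      nlinarith
    rw [div_lt_iff₀ hη1] at hM2
    have h5 : 1 / (M : ℝ) < η1 / 4 := by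
      rw [div_lt_div_iff₀ hMpos (by norm_num)]
      linarith
    linarith
  · choose! p hp using fun i (hi : i < n) => hcol _ _ (hc i hi).1.symm
    obtain ⟨γ, hγ⟩ : ∃ γ : ℝ, γ = ((k ^ 3 : ℕ) : ℝ) * n * θ3 := ⟨_, rfl⟩
    have key : ∀ r s : ℕ, r + s < n → ∃ q : ℤ, |r * s * γ - q| < 4 / M := by
      intro r s hrs
      refine ⟨p (r + s) - p r - p s + p 0, ?_⟩
      have h1 := hp (r + s) hrs
      have h2 := hp r (by omega)
      have h3 := hp s (by omega)
      have h4 := hp 0 (by omega)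
      rw [abs_lt] at h1 h2 h3 h4 ⊢
      push_cast at h1 h2 h3 h4 hγ ⊢
      have e : (r : ℝ) * s * γ =
          (((a : ℝ) + (n + (r + s)) * k) ^ 3 * (θ3 / 6) - (a + (r + s) * k) ^ 3 * (θ3 / 6))
          - (((a : ℝ) + (n + r) * k) ^ 3 * (θ3 / 6) - (a + r * k) ^ 3 * (θ3 / 6))
          - (((a : ℝ) + (n + s) * k) ^ 3 * (θ3 / 6) - (a + s * k) ^ 3 * (θ3 / 6))
          + (((a : ℝ) + (n + 0) * k) ^ 3 * (θ3 / 6) - (a + 0 * k) ^ 3 * (θ3 / 6)) := by
        rw [hγ]; ring
      have e4 : (4 : ℝ) / M = 1 / M + 1 / M + 1 / M + 1 / M := by ring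
      rw [e, e4]
      constructor <;> linarith [h1.1, h1.2, h2.1, h2.2, h3.1, h3.2, h4.1, h4.2]
    have hη : (4 : ℝ) / M ≤ 1 / 3 := by
      rw [div_le_div_iff₀ hMpos (by norm_num)]
      linarith
    obtain ⟨q0, hq0⟩ := key 1 1 (by omega)
    simp only [Nat.cast_one, one_mul] at hq0
    obtain ⟨h, hh⟩ : ∃ h : ℕ, h = (n - 1) / 2 := ⟨_, rfl⟩
    have h1 := nowrap (γ - q0) (4 / M) hη h hq0 (by
      intro r hr
      obtain ⟨q, hq⟩ := key r 1 (by omega)
      refine ⟨q - r * q0, ?_⟩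
      push_cast at hq ⊢
      convert hq using 2
      ring)
    have h2 := nowrap (h * (γ - q0)) (4 / M) hη h h1 (by
      intro r hr
      obtain ⟨q, hq⟩ := key r h (by omega)
      refine ⟨q - r * h * q0, ?_⟩
      push_cast at hq ⊢
      convert hq using 2
      ring)
    have h3 := H3 (k ^ 3) ⟨k, hk, rfl⟩ n hn q0
    rw [← hγ] at h3
    have h4 : (n : ℝ) ≤ 4 * h := by exact_mod_cast (show n ≤ 4 * h by omega)
    have h5 : (0 : ℝ) < n := by exact_mod_cast hn
    rw [← mul_assoc, abs_mul, abs_of_nonneg (by positivity : (0 : ℝ) ≤ h * h), lt_div_iff₀ hMpos] at h2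
    rw [div_le_iff₀ (by positivity)] at h3
    rw [div_lt_iff₀ hη3] at hM3
    have h6 : (n : ℝ) ^ 2 ≤ 16 * (h * h) := by nlinarith
    have h7 := abs_nonneg (γ - q0)
    have h8 : η3 ≤ |γ - q0| * (16 * (h * h)) := h3.trans (by gcongr)
    have h9 : M * η3 ≤ M * (|γ - q0| * (16 * (h * h))) := by gcongr
    nlinarith

end Pool.Agent.H12.Lacun
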