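import Mathlib

set_option autoImplicit false

namespace Pool.Agent.H12.MC

open Classical

/-- list form of the nonrepetitive property -/
def NRL {V C : Type} (G : SimpleGraph V) (c : V → C) : Prop :=
  ∀ A B : List V, A ≠ [] → (A ++ B).Nodup → List.IsChain G.Adj (A ++ B) → A.map c ≠ B.map c

lemma nrl_of_walk {V C : Type} (G : SimpleGraph V) (c : V → C)
    (h : ∀ (u v : V) (p : G.Walk u v), p.IsPath → Even p.support.length →
      (p.support.map c).take (p.support.length / 2) ≠
        (p.support.map c).drop (p.support.length / 2)) : NRL G c := by
  intro A B hA hn hc he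
  have hne : A ++ B ≠ [] := by simp [hA]
  have hlen : A.length = B.length := by
    have := congrArg List.length he
    simpa using this
  have hs := SimpleGraph.Walk.support_ofSupport (G := G) hne hc
  refine h _ _ (SimpleGraph.Walk.ofSupport (A ++ B) hne hc) ?_ ?_ ?_
  · rw [SimpleGraph.Walk.isPath_def, hs]; exact hn
  · rw [hs, List.length_append, ← hlen]; exact ⟨_, rfl⟩
  · rw [hs]
    have e : (A ++ B).length / 2 = (A.map c).length := by
      rw [List.length_append, ← hlen, List.length_map]; omega
    rw [e, List.map_append, List.take_left, List.drop_left, he]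

/-- function form of the nonrepetitive property -/
def NRF {V C : Type} (G : SimpleGraph V) (c : V → C) : Prop :=
  ∀ (t : ℕ) (z : ℕ → V), 1 ≤ t → (∀ i < 2 * t, ∀ j < 2 * t, z i = z j → i = j) →
    (∀ i, i + 1 < 2 * t → G.Adj (z i) (z (i + 1))) → (∀ i < t, c (z i) = c (z (t + i))) → False

lemma walk_of_nrf {V C : Type} (G : SimpleGraph V) (c : V → C) (h : NRF G c)
    (u v : V) (p : G.Walk u v) (hp : p.IsPath) (he : Even p.support.length) :
    (p.support.map c).take (p.support.length / 2) ≠
      (p.support.map c).drop (p.support.length / 2) := by
  intro e
  obtain ⟨t, ht⟩ := he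
  have hl : p.support.length = p.length + 1 := p.length_support
  have h2 : p.support.length / 2 = t := by omega
  rw [h2] at e
  refine h t (fun i => p.getVert i) (by omega) ?_ ?_ ?_
  · intro i hi j hj hij
    exact hp.getVert_injOn (by simp; omega) (by simp; omega) hij
  · intro i hi
    exact p.adj_getVert_succ (by omega)
  · intro i hi
    have e1 := congrArg (fun l => l[i]?) e
    simp only [List.getElem?_take, hi, if_true, List.getElem?_drop, List.getElem?_map] at e1
    have a1 : p.support[i]? = some (p.getVert i) := by
      rw [SimpleGraph.Walk.getVert_eq_support_getElem? p (by omega)]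
    have a2 : p.support[t + i]? = some (p.getVert (t + i)) := by
      rw [SimpleGraph.Walk.getVert_eq_support_getElem? p (by omega)]
    rw [a1, a2] at e1
    simpa using e1

/-- the piece of a lifted path inside one class -/
noncomputable def piece {V : Type} (a b : V) : List V := if a = b then [a] else [a, b]

lemma piece_ne {V : Type} (a b : V) : piece a b ≠ [] := by
  unfold piece; split_ifs <;> simp

lemma piece_head {V : Type} (a b : V) : (piece a b).head? = some a := by
  unfold piece; split_ifs <;> simp

lemma piece_last {V : Type} (a b : V) : (piece a b).getLast? = some b := by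
  unfold piece; split_ifs with h <;> simp [h]

lemma piece_mem {V : Type} (a b x : V) (h : x ∈ piece a b) : x = a ∨ x = b := by
  unfold piece at h; split_ifs at h <;> simp at h <;> tauto

lemma piece_nodup {V : Type} (a b : V) : (piece a b).Nodup := by
  unfold piece; split_ifs with h <;> simp [h]

section Lift

variable {V W C : Type} (G : SimpleGraph V) (H : SimpleGraph W) (c : V → C)
  (s : W → Bool → V) (l : W → W → Bool)

/-- first colour: the colours of both sides and whether they coincide -/
noncomputable def col0 (x : W) : C × C × Bool :=
  (c (s x false), c (s x true), decide (s x false = s x true))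

/-- label of an ordered edge -/
def lab (x y : W) : Bool × Bool := (l x y, l y x)

variable {G H c s l}

lemma col0_side {x y : W} (h : col0 c s x = col0 c s y) (b : Bool) : c (s x b) = c (s y b) := by
  unfold col0 at h
  simp only [Prod.mk.injEq] at h
  cases b
  · exact h.1
  · exact h.2.1

lemma col0_eq {x y : W} (h : col0 c s x = col0 c s y) (a b : Bool) :
    s x a = s x b ↔ s y a = s y b := by
  unfold col0 at h
  simp only [Prod.mk.injEq, decide_eq_decide] at h
  have h3 := h.2.2
  cases a <;> cases b
  · simp
  · exact h3
  · rw [eq_comm, h3, eq_comm]
  · simp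

lemma col0_piece {x y : W} (h : col0 c s x = col0 c s y) (a b : Bool) :
    (piece (s x a) (s x b)).map c = (piece (s y a) (s y b)).map c := by
  unfold piece
  by_cases e : s x a = s x b
  · have e' := (col0_eq h a b).1 e
    rw [if_pos e, if_pos e']
    simp [col0_side h a]
  · have e' : ¬ s y a = s y b := fun q => e ((col0_eq h a b).2 q)
    rw [if_neg e, if_neg e']
    simp [col0_side h a, col0_side h b]

lemma lift (hc : NRL G c) (hinj : ∀ x y a b, s x a = s y b → x = y)
    (hadj : ∀ x, s x false ≠ s x true → G.Adj (s x false) (s x true))
    (hl : ∀ x y, H.Adj x y → G.Adj (s x (l x y)) (s y (l y x)))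
    (t : ℕ) (z : ℕ → W) (ht : 1 ≤ t) (hz : ∀ i < 2 * t, ∀ j < 2 * t, z i = z j → i = j)
    (ha : ∀ i, i + 1 < 2 * t → H.Adj (z i) (z (i + 1)))
    (h0 : ∀ i < t, col0 c s (z i) = col0 c s (z (t + i)))
    (h1 : ∀ i, i + 1 < t → lab l (z i) (z (i + 1)) = lab l (z (t + i)) (z (t + i + 1))) :
    False := by
  let e : ℕ → Bool := fun i => if i = 0 then l (z t) (z (t - 1)) else l (z i) (z (i - 1))
  let o : ℕ → Bool := fun i => if i + 1 = 2 * t then l (z (t - 1)) (z t) else l (z i) (z (i + 1))
  let P : ℕ → List V := fun i => piece (s (z i) (e i)) (s (z i) (o i))
  have he : ∀ i < t, e i = e (t + i) := by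
    intro i hi
    by_cases h : i = 0
    · subst h
      simp only [e, if_true, Nat.add_zero]
      rw [if_neg (by omega)]
    · simp only [e]
      rw [if_neg h, if_neg (by omega)]
      have := h1 (i - 1) (by omega)
      unfold lab at this
      simp only [Prod.mk.injEq] at this
      have q1 : i - 1 + 1 = i := by omega
      have q2 : t + (i - 1) + 1 = t + i := by omega
      have q3 : t + (i - 1) = t + i - 1 := by omega
      rw [q1, q2, q3] at this
      exact this.2
  have ho : ∀ i < t, o i = o (t + i) := by
    intro i hi
    by_cases h : i + 1 = t
    · simp only [o]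
      rw [if_neg (by omega), if_pos (by omega)]
      have q1 : t - 1 = i := by omega
      rw [q1, h]
    · simp only [o]
      rw [if_neg (by omega), if_neg (by omega)]
      have := h1 i (by omega)
      unfold lab at this
      simp only [Prod.mk.injEq] at this
      exact this.1
  have hsplit : (List.range (t + t)).flatMap P =
      (List.range t).flatMap P ++ (List.range t).flatMap (fun i => P (t + i)) := by
    rw [List.range_add, List.flatMap_append, List.flatMap_map]
  refine hc ((List.range t).flatMap P) ((List.range t).flatMap (fun i => P (t + i))) ?_ ?_ ?_ ?_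
  · intro q
    rw [List.flatMap_eq_nil_iff] at q
    exact piece_ne _ _ (q 0 (by simp; omega))
  · rw [← hsplit, List.nodup_flatMap]
    refine ⟨fun i _ => piece_nodup _ _, ?_⟩
    refine List.Pairwise.imp_of_mem ?_ (List.nodup_range (n := t + t))
    intro i j hi hj hij
    simp only [List.mem_range] at hi hj
    intro x hx hx'
    apply hij
    apply hz i (by omega) j (by omega)
    rcases piece_mem _ _ _ hx with q | q <;> rcases piece_mem _ _ _ hx' with q' | q' <;>
      exact hinj _ _ _ _ (q.symm.trans q')
  · rw [← hsplit, List.flatMap_def, List.isChain_flatten]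
    · constructor
      · intro L hL
        obtain ⟨i, _, rfl⟩ := List.mem_map.1 hL
        simp only [P]
        unfold piece
        split_ifs with q
        · simp
        · simp only [List.isChain_cons_cons, List.IsChain.singleton, and_true]
          generalize e i = a at q ⊢
          generalize o i = b at q ⊢
          cases a <;> cases b
          · exact absurd rfl q
          · exact hadj _ q
          · exact (hadj _ (Ne.symm q)).symm
          · exact absurd rfl q
      · rw [List.isChain_map, List.isChain_range]
        intro m hm x hx y hy
        simp only [P, piece_last, piece_head, Option.mem_def, Option.some.injEq] at hx hy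
        subst hx hy
        simp only [e, o, Nat.succ_eq_add_one]
        rw [if_neg (by omega), if_neg (by omega), Nat.add_sub_cancel]
        exact hl _ _ (ha m (by omega))
    · intro q
      obtain ⟨i, _, hi⟩ := List.mem_map.1 q
      exact piece_ne _ _ hi
  · rw [List.map_flatMap, List.map_flatMap]
    refine List.flatMap_congr ?_
    intro i hi
    have hi' : i < t := List.mem_range.1 hi
    simp only [P]
    rw [← he i hi', ← ho i hi']
    exact col0_piece (h0 i hi') _ _

end Lift

end Pool.Agent.H12.MC
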