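import Pool.Agent.H12.MC1

set_option autoImplicit false

namespace Pool.Agent.H12.MC

open Classical

section Refine

variable {V W C : Type} (G : SimpleGraph V) (H : SimpleGraph W) (c : V → C)
  (s : W → Bool → V) (l : W → W → Bool)

/-- second colour: record the first colours of the neighbours with the edge labels -/
noncomputable def col1 (x : W) : (C × C × Bool) × Set ((C × C × Bool) × (Bool × Bool)) :=
  (col0 c s x, {q | ∃ y, H.Adj x y ∧ q = (col0 c s y, lab l x y)})

/-- third colour: record the second colours of the neighbours with the edge labels -/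
noncomputable def col2 (x : W) :
    ((C × C × Bool) × Set ((C × C × Bool) × (Bool × Bool))) ×
      Set (((C × C × Bool) × Set ((C × C × Bool) × (Bool × Bool))) × (Bool × Bool)) :=
  (col1 H c s l x, {q | ∃ u, H.Adj u x ∧ q = (col1 H c s l u, lab l u x)})

variable {G H c s l}

lemma col0_proper (hc : NRL G c) (hinj : ∀ x y a b, s x a = s y b → x = y)
    (hadj : ∀ x, s x false ≠ s x true → G.Adj (s x false) (s x true))
    (hl : ∀ x y, H.Adj x y → G.Adj (s x (l x y)) (s y (l y x)))
    {x y : W} (h : H.Adj x y) : col0 c s x ≠ col0 c s y := by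
  intro e
  refine lift hc hinj hadj hl 1 (fun i => if i = 0 then x else y) le_rfl ?_ ?_ ?_ ?_
  · intro i hi j hj q
    have := h.ne
    have hi' : i = 0 ∨ i = 1 := by omega
    have hj' : j = 0 ∨ j = 1 := by omega
    rcases hi' with rfl | rfl <;> rcases hj' with rfl | rfl <;> simp_all
  · intro i hi
    have : i = 0 := by omega
    subst this
    simpa using h
  · intro i hi
    have : i = 0 := by omega
    subst this
    simpa using e
  · intro i hi
    omega

lemma claimA (hc : NRL G c) (hinj : ∀ x y a b, s x a = s y b → x = y)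
    (hadj : ∀ x, s x false ≠ s x true → G.Adj (s x false) (s x true))
    (hl : ∀ x y, H.Adj x y → G.Adj (s x (l x y)) (s y (l y x)))
    {w u y : W} (hw : H.Adj w y) (hu : H.Adj u y) (e : col1 H c s l w = col1 H c s l u) :
    lab l w y = lab l u y := by
  by_cases hwu : w = u
  · rw [hwu]
  have e0 : col0 c s w = col0 c s u := congrArg Prod.fst e
  have e1 : {q | ∃ y, H.Adj w y ∧ q = (col0 c s y, lab l w y)} =
      {q | ∃ y, H.Adj u y ∧ q = (col0 c s y, lab l u y)} := congrArg Prod.snd e
  have m : (col0 c s y, lab l w y) ∈ {q | ∃ y, H.Adj w y ∧ q = (col0 c s y, lab l w y)} :=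
    ⟨y, hw, rfl⟩
  rw [e1] at m
  obtain ⟨y', hy', q⟩ := m
  simp only [Prod.mk.injEq] at q
  by_cases hyy : y = y'
  · subst hyy; exact q.2
  exfalso
  have hwy' : w ≠ y' := by
    intro r
    subst r
    exact col0_proper hc hinj hadj hl hw q.1.symm
  have n1 := hw.ne
  have n2 := hu.ne
  have n3 := hy'.ne
  refine lift hc hinj hadj hl 2
    (fun i => if i = 0 then w else if i = 1 then y else if i = 2 then u else y') (by omega)
    ?_ ?_ ?_ ?_
  · intro i hi j hj r
    have hi' : i = 0 ∨ i = 1 ∨ i = 2 ∨ i = 3 := by omega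
    have hj' : j = 0 ∨ j = 1 ∨ j = 2 ∨ j = 3 := by omega
    rcases hi' with rfl | rfl | rfl | rfl <;> rcases hj' with rfl | rfl | rfl | rfl <;>
      simp at r ⊢ <;> first | exact absurd r ‹_› | exact absurd r.symm ‹_›
  · intro i hi
    have hi' : i = 0 ∨ i = 1 ∨ i = 2 := by omega
    rcases hi' with rfl | rfl | rfl
    · simpa using hw
    · simpa using hu.symm
    · simpa using hy'
  · intro i hi
    have hi' : i = 0 ∨ i = 1 := by omega
    rcases hi' with rfl | rfl
    · simpa using e0
    · simpa using q.1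
  · intro i hi
    have hi' : i = 0 := by omega
    subst hi'
    simpa using q.2

lemma claimB (hc : NRL G c) (hinj : ∀ x y a b, s x a = s y b → x = y)
    (hadj : ∀ x, s x false ≠ s x true → G.Adj (s x false) (s x true))
    (hl : ∀ x y, H.Adj x y → G.Adj (s x (l x y)) (s y (l y x)))
    {x x' y y' : W} (hx : H.Adj x x') (hy : H.Adj y y')
    (e : col2 H c s l x = col2 H c s l y) (e' : col2 H c s l x' = col2 H c s l y') :
    lab l x x' = lab l y y' := by
  have e0 : col1 H c s l x = col1 H c s l y := congrArg Prod.fst e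
  have e1 : {q | ∃ u, H.Adj u x' ∧ q = (col1 H c s l u, lab l u x')} =
      {q | ∃ u, H.Adj u y' ∧ q = (col1 H c s l u, lab l u y')} := congrArg Prod.snd e'
  have m : (col1 H c s l x, lab l x x') ∈
      {q | ∃ u, H.Adj u x' ∧ q = (col1 H c s l u, lab l u x')} := ⟨x, hx, rfl⟩
  rw [e1] at m
  obtain ⟨u, hu, q⟩ := m
  simp only [Prod.mk.injEq] at q
  rw [q.2]
  exact claimA hc hinj hadj hl hu hy (q.1.symm.trans e0)

lemma nrf_col2 (hc : NRL G c) (hinj : ∀ x y a b, s x a = s y b → x = y)
    (hadj : ∀ x, s x false ≠ s x true → G.Adj (s x false) (s x true))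
    (hl : ∀ x y, H.Adj x y → G.Adj (s x (l x y)) (s y (l y x))) :
    NRF H (col2 H c s l) := by
  intro t z ht hz ha he
  refine lift hc hinj hadj hl t z ht hz ha ?_ ?_
  · intro i hi
    exact congrArg (fun q => q.1.1) (he i hi)
  · intro i hi
    exact claimB hc hinj hadj hl (ha i (by omega)) (ha (t + i) (by omega)) (he i (by omega))
      (he (i + 1) hi)

end Refine

lemma exists_label {V W : Type} (G : SimpleGraph V) (H : SimpleGraph W) (s : W → Bool → V)
    (h : ∀ x y, H.Adj x y → ∃ a b, G.Adj (s x a) (s y b)) :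
    ∃ l : W → W → Bool, ∀ x y, H.Adj x y → G.Adj (s x (l x y)) (s y (l y x)) := by
  have h' : ∀ x y, ∃ p : Bool × Bool, H.Adj x y → G.Adj (s x p.1) (s y p.2) := by
    intro x y
    by_cases q : H.Adj x y
    · obtain ⟨a, b, r⟩ := h x y q
      exact ⟨(a, b), fun _ => r⟩
    · exact ⟨(false, false), fun r => absurd r q⟩
  choose p hp using h'
  obtain ⟨r, hr⟩ := exists_wellFoundedLT W
  refine ⟨fun x y => if x < y then (p x y).1 else (p y x).2, ?_⟩
  intro x y q
  rcases lt_trichotomy x y with a | a | a
  · simp only [if_pos a, if_neg (not_lt.2 a.le)]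
    exact hp x y q
  · exact absurd a q.ne
  · simp only [if_pos a, if_neg (not_lt.2 a.le)]
    exact (hp y x q.symm).symm

lemma exists_sides {V : Type} {G : SimpleGraph V} (M : G.Subgraph) (hM : M.IsMatching) :
    ∃ s : Quot M.Adj → Bool → V, (∀ x b, Quot.mk M.Adj (s x b) = x) ∧
      (∀ v, ∃ b, s (Quot.mk M.Adj v) b = v) ∧
      (∀ x, s x false ≠ s x true → G.Adj (s x false) (s x true)) := by
  let m : V → V := fun v => if h : ∃ w, M.Adj v w then h.choose else v
  have m1 : ∀ v w, M.Adj v w → m v = w := by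
    intro v w h
    have hex : ∃ w, M.Adj v w := ⟨w, h⟩
    simp only [m, dif_pos hex]
    obtain ⟨w', _, hu⟩ := hM (M.edge_vert h)
    rw [hu _ hex.choose_spec, hu _ h]
  have m2 : ∀ v, m v = v ∨ M.Adj v (m v) := by
    intro v
    by_cases hex : ∃ w, M.Adj v w
    · right
      obtain ⟨w, h⟩ := hex
      rw [m1 v w h]; exact h
    · left
      simp only [m, dif_neg hex]
  have m3 : ∀ u v, Quot.mk M.Adj u = Quot.mk M.Adj v → v = u ∨ v = m u := by
    intro u v h
    let g : V → Set V := fun a => {a, m a}
    have hg : ∀ a b, M.Adj a b → g a = g b := by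
      intro a b r
      simp only [g]
      rw [m1 a b r, m1 b a r.symm, Set.pair_comm]
    have q : g u = g v := congrArg (Quot.lift g hg) h
    have : v ∈ g u := by rw [q]; simp [g]
    simpa [g] using this
  refine ⟨fun x b => if b then m x.out else x.out, ?_, ?_, ?_⟩
  · intro x b
    cases b
    · simp
    · simp only [if_true]
      rcases m2 x.out with h | h
      · rw [h]; simp
      · rw [← Quot.sound h]; simp
  · intro v
    rcases m3 (Quot.mk M.Adj v).out v (by simp) with h | h
    · exact ⟨false, by simpa using h.symm⟩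
    · exact ⟨true, by simpa using h.symm⟩
  · intro x h
    simp only [if_true, Bool.false_eq_true, if_false] at h ⊢
    rcases m2 x.out with q | q
    · exact absurd q.symm h
    · exact M.adj_sub q

/-- the colour type -/
abbrev Col (k : ℕ) : Type :=
  ((Fin k × Fin k × Bool) × Set ((Fin k × Fin k × Bool) × (Bool × Bool))) ×
    Set (((Fin k × Fin k × Bool) × Set ((Fin k × Fin k × Bool) × (Bool × Bool))) × (Bool × Bool))

theorem main :
    ∃ f : ℕ → ℕ, ∀ (V : Type) [Fintype V] (G : SimpleGraph V) (M : G.Subgraph),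
      M.IsMatching → ∀ k : ℕ,
        (∃ c : V → Fin k, ∀ (u v : V) (p : G.Walk u v), p.IsPath →
          Even p.support.length →
          (p.support.map c).take (p.support.length / 2) ≠
            (p.support.map c).drop (p.support.length / 2)) →
        ∃ c : Quot M.Adj → Fin (f k),
          ∀ (a b : Quot M.Adj)
            (p : (SimpleGraph.fromRel (fun x y : Quot M.Adj =>
                ∃ u v : V, Quot.mk M.Adj u = x ∧ Quot.mk M.Adj v = y ∧ G.Adj u v)).Walk a b),
            p.IsPath → Even p.support.length →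
            (p.support.map c).take (p.support.length / 2) ≠
              (p.support.map c).drop (p.support.length / 2) := by
  refine ⟨fun k => Nat.card (Col k), ?_⟩
  intro V _ G M hM k hk
  obtain ⟨c, hc⟩ := hk
  have hc' := nrl_of_walk G c hc
  obtain ⟨s, s1, s2, s3⟩ := exists_sides M hM
  set H := SimpleGraph.fromRel (fun x y : Quot M.Adj =>
    ∃ u v : V, Quot.mk M.Adj u = x ∧ Quot.mk M.Adj v = y ∧ G.Adj u v) with hH
  have hinj : ∀ x y a b, s x a = s y b → x = y := by
    intro x y a b h
    rw [← s1 x a, h, s1]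
  have hex : ∀ x y, H.Adj x y → ∃ a b, G.Adj (s x a) (s y b) := by
    intro x y h
    rw [hH, SimpleGraph.fromRel_adj] at h
    rcases h.2 with ⟨u, v, rfl, rfl, r⟩ | ⟨u, v, rfl, rfl, r⟩
    · obtain ⟨a, ha⟩ := s2 u
      obtain ⟨b, hb⟩ := s2 v
      exact ⟨a, b, by rw [ha, hb]; exact r⟩
    · obtain ⟨a, ha⟩ := s2 u
      obtain ⟨b, hb⟩ := s2 v
      exact ⟨b, a, by rw [ha, hb]; exact r.symm⟩
  obtain ⟨l, hl⟩ := exists_label G H s hex
  have key := nrf_col2 hc' hinj s3 hl
  let E : Col k ≃ Fin (Nat.card (Col k)) := Finite.equivFin (Col k)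
  refine ⟨fun x => E (col2 H c s l x), ?_⟩
  intro a b p hp he
  refine walk_of_nrf H _ ?_ a b p hp he
  intro t z ht hz ha hq
  exact key t z ht hz ha (fun i hi => E.injective (hq i hi))

end Pool.Agent.H12.MC
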