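import Mathlib

set_option autoImplicit false

namespace Pool.Agent.H12.MG

open SimpleGraph

def nb : List ℕ := [9842, 4128769, 29868032, 29818880, 33, 17, 129, 320, 640, 257, 2049, 5120,
  10240, 4097, 32772, 16388, 14, 14, 14, 4194306, 8388610, 16777218, 524300, 1048588, 2097164]

def adjB (i j : Fin 25) : Bool := (nb.getD i.val 0).testBit j.val

theorem adjB_symm : ∀ i j : Fin 25, adjB i j = adjB j i := by decide +kernel
theorem adjB_irr : ∀ i : Fin 25, adjB i i = false := by decide +kernel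

def H : SimpleGraph (Fin 25) where
  Adj i j := adjB i j = true
  symm := ⟨fun i j h => by rw [adjB_symm]; exact h⟩
  loopless := ⟨fun i h => by rw [adjB_irr] at h; exact Bool.noConfusion h⟩

theorem H_adj (i j : Fin 25) : H.Adj i j ↔ adjB i j = true := Iff.rfl

def cycL : List (List ℕ) := [[0, 4, 5, 4, 5], [0, 6, 7, 8, 9], [0, 10, 11, 12, 13],
  [2, 14, 15, 14, 15], [1, 16, 2, 22, 19], [1, 17, 2, 23, 20], [1, 18, 2, 24, 21],
  [1, 16, 3, 22, 19], [1, 17, 3, 23, 20], [1, 18, 3, 24, 21]]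

def cyc (k : Fin 10) (i : Fin 5) : Fin 25 := Fin.ofNat 25 ((cycL.getD k.val []).getD i.val 0)

theorem cyc_adj : ∀ (k : Fin 10) (i : Fin 5), adjB (cyc k i) (cyc k (i + 1)) = true := by
  decide +kernel

def av (k : Fin 10) (u v : Fin 25) : Prop := ∀ i : Fin 5, cyc k i ≠ u ∧ cyc k i ≠ v

instance (k : Fin 10) (u v : Fin 25) : Decidable (av k u v) := by unfold av; infer_instance

def dj (k l : Fin 10) : Prop := ∀ i j : Fin 5,
  ¬ ((cyc k i = cyc l j ∧ cyc k (i + 1) = cyc l (j + 1)) ∨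
     (cyc k i = cyc l (j + 1) ∧ cyc k (i + 1) = cyc l j))

instance (k l : Fin 10) : Decidable (dj k l) := by unfold dj; infer_instance

def djB (k l : Fin 10) : Bool := k.val != l.val && k.val + 3 != l.val && l.val + 3 != k.val ||
  (k.val != l.val && (k.val < 4 || l.val < 4))

theorem djB_ok : ∀ k l : Fin 10, djB k l = true → dj k l := by decide +kernel

theorem one_cyc : ∀ u v : Fin 25, ∃ k : Fin 10, av k u v := by decide +kernel

theorem three_cyc : ∀ u v : Fin 25, adjB u v = false → ∃ k1 : Fin 10, av k1 u v ∧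
    ∃ k2 : Fin 10, av k2 u v ∧ djB k1 k2 = true ∧
    ∃ k3 : Fin 10, av k3 u v ∧ djB k1 k3 = true ∧ djB k2 k3 = true := by decide +kernel

theorem odd_cyc (col : Fin 25 → Bool) (k : Fin 10) :
    ∃ i : Fin 5, col (cyc k i) = col (cyc k (i + 1)) := by
  have key : ∀ c : Fin 5 → Bool, ∃ i : Fin 5, c i = c (i + 1) := by decide +kernel
  exact key (fun i => col (cyc k i))

theorem two_pts (U : Finset (Fin 25)) (hU : U.card ≤ 2) :
    ∃ u v : Fin 25, (∀ i ∈ U, i = u ∨ i = v) ∧ (u = v ∨ (u ∈ U ∧ v ∈ U)) := by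
  rcases Nat.lt_or_ge U.card 1 with h | h
  · have : U = ∅ := Finset.card_eq_zero.mp (by omega)
    exact ⟨0, 0, by simp [this], Or.inl rfl⟩
  rcases Nat.lt_or_ge U.card 2 with h2 | h2
  · obtain ⟨a, ha⟩ := Finset.card_eq_one.mp (show U.card = 1 by omega)
    exact ⟨a, a, by simp [ha], Or.inl rfl⟩
  · obtain ⟨a, b, -, hab⟩ := Finset.card_eq_two.mp (show U.card = 2 by omega)
    exact ⟨a, b, by simp [hab], Or.inr (by simp [hab])⟩

/-- three-colouring with the class `{0,2,3}` -/
def c3 (i : Fin 25) : Fin 3 :=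
  Fin.ofNat 3 ([2,1,2,2,0,1,0,1,0,1,0,1,0,1,0,1,0,0,0,0,0,0,1,1,1].getD i.val 0)

theorem c3_ok : ∀ i j : Fin 25, adjB i j = true → c3 i ≠ c3 j := by decide +kernel

theorem chrom : H.chromaticNumber = ((2 + 1 : ℕ) : ℕ∞) := by
  apply le_antisymm
  · have : H.Colorable 3 := ⟨Coloring.mk c3 (fun {i j} h => c3_ok i j h)⟩
    exact this.chromaticNumber_le
  · by_contra hlt
    push Not at hlt
    have h2 : H.chromaticNumber ≤ (2 : ℕ) := by
      have : H.chromaticNumber < ((2 : ℕ) : ℕ∞) + 1 := by exact_mod_cast hlt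
      exact Order.le_of_lt_add_one this
    have hc : H.Colorable 2 := chromaticNumber_le_iff_colorable.mp h2
    obtain ⟨C⟩ := hc
    obtain ⟨i, hi⟩ := odd_cyc (fun x => decide (C x = 0)) 0
    have hne := C.valid (show H.Adj (cyc 0 i) (cyc 0 (i + 1)) from cyc_adj 0 i)
    simp only [decide_eq_decide] at hi
    revert hi hne
    generalize C (cyc 0 i) = x
    generalize C (cyc 0 (i + 1)) = y
    revert x y
    decide

/-- The host graph of the decomposition family. -/
def DG {m : ℕ} (M : SimpleGraph (Fin m)) (t : ℕ) : SimpleGraph (Fin m ⊕ (Fin 2 × Fin t)) :=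
  SimpleGraph.fromRel (fun x y : Fin m ⊕ (Fin 2 × Fin t) =>
        Sum.elim (fun a => Sum.elim (fun b => M.Adj a b) (fun q => q.1.val ≠ 0) y)
          (fun q => Sum.elim (fun _ => q.1.val ≠ 0) (fun q' => q.1 ≠ q'.1) y) x)

theorem DG_ll {m t : ℕ} (M : SimpleGraph (Fin m)) (a b : Fin m) :
    (DG M t).Adj (Sum.inl a) (Sum.inl b) ↔ M.Adj a b := by
  simp only [DG, fromRel_adj, Sum.elim_inl, ne_eq, Sum.inl.injEq]
  constructor
  · rintro ⟨-, h | h⟩
    · exact h
    · exact h.symm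
  · intro h
    exact ⟨h.ne, Or.inl h⟩

theorem DG_lr {m t : ℕ} (M : SimpleGraph (Fin m)) (a : Fin m) (q : Fin 2 × Fin t) :
    (DG M t).Adj (Sum.inl a) (Sum.inr q) ↔ q.1.val ≠ 0 := by
  simp [DG, fromRel_adj]

theorem DG_rl {m t : ℕ} (M : SimpleGraph (Fin m)) (a : Fin m) (q : Fin 2 × Fin t) :
    (DG M t).Adj (Sum.inr q) (Sum.inl a) ↔ q.1.val ≠ 0 := by
  simp [DG, fromRel_adj]

theorem DG_rr {m t : ℕ} (M : SimpleGraph (Fin m)) (q q' : Fin 2 × Fin t) :
    (DG M t).Adj (Sum.inr q) (Sum.inr q') ↔ q.1 ≠ q'.1 := by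
  simp only [DG, fromRel_adj, Sum.elim_inr, ne_eq, Sum.inr.injEq]
  constructor
  · rintro ⟨-, h | h⟩
    · exact h
    · exact fun e => h e.symm
  · intro h
    exact ⟨fun e => h (by rw [e]), Or.inl h⟩

def Dec (m : ℕ) (M : SimpleGraph (Fin m)) : Prop := ∃ t : ℕ, H.IsContained (DG M t)

def Mem (m : ℕ) (M : SimpleGraph (Fin m)) : Prop := Dec m M ∧
  ∀ (m' : ℕ) (M' : SimpleGraph (Fin m')), M'.IsContained M → Dec m' M' → M.IsContained M'

/-- restriction of `H` to a set whose complement is independent -/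
def HP (P : Fin 25 → Bool) : SimpleGraph (Fin 25) where
  Adj i j := H.Adj i j ∧ P i = true ∧ P j = true
  symm := ⟨fun _ _ h => ⟨h.1.symm, h.2.2, h.2.1⟩⟩
  loopless := ⟨fun _ h => h.1.ne rfl⟩

theorem dec_HP (P : Fin 25 → Bool) (hP : ∀ i j, adjB i j = true → P i = true ∨ P j = true) :
    Dec 25 (HP P) := by
  refine ⟨25, ⟨⟨⟨fun i => if P i = true then Sum.inl i else Sum.inr (1, i), ?_⟩, ?_⟩⟩⟩
  · intro i j h
    by_cases hi : P i = true <;> by_cases hj : P j = true
    · simp only [hi, hj, if_true]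
      exact (DG_ll _ _ _).mpr ⟨h, hi, hj⟩
    · simp only [hi, hj, if_true]
      exact (DG_lr _ _ _).mpr (by simp)
    · simp only [hi, hj, if_true]
      exact (DG_rl _ _ _).mpr (by simp)
    · rcases hP i j h with h' | h'
      · exact absurd h' hi
      · exact absurd h' hj
  · intro i j h
    by_cases hi : P i = true <;> by_cases hj : P j = true <;>
      simp_all

theorem cover_ge (m : ℕ) (M : SimpleGraph (Fin m)) (S : Finset (Fin m)) (hD : Dec m M)
    (hS : ∀ a b, M.Adj a b → a ∈ S ∨ b ∈ S) : 3 ≤ S.card := by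
  classical
  by_contra hlt
  obtain ⟨t, ⟨φ⟩⟩ := hD
  set U : Finset (Fin 25) := Finset.univ.filter (fun i => ∃ s ∈ S, φ i = Sum.inl s) with hU
  have hUc : U.card ≤ 2 := by
    have h1 : U.card ≤ (S.image (fun s => (Sum.inl s : Fin m ⊕ (Fin 2 × Fin t)))).card := by
      apply Finset.card_le_card_of_injOn (fun i => φ i)
      · intro i hi
        simp only [hU, Finset.coe_filter, Finset.mem_univ, true_and, Set.mem_ofPred_eq] at hi
        obtain ⟨s, hs, he⟩ := hi
        simp only [Finset.coe_image, Set.mem_image, Finset.mem_coe]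
        exact ⟨s, hs, he.symm⟩
      · intro i _ j _ h
        exact φ.injective h
    have h2 := Finset.card_image_le (s := S) (f := fun s => (Sum.inl s : Fin m ⊕ (Fin 2 × Fin t)))
    omega
  obtain ⟨u, v, huv, -⟩ := two_pts U hUc
  obtain ⟨k, hk⟩ := one_cyc u v
  obtain ⟨i, hi⟩ := odd_cyc
    (fun x => Sum.elim (fun _ => false) (fun q : Fin 2 × Fin t => decide (q.1.val ≠ 0)) (φ x)) k
  have hadj : (DG M t).Adj (φ (cyc k i)) (φ (cyc k (i + 1))) :=
    φ.toHom.map_rel' (show H.Adj _ _ from cyc_adj k i)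
  have n1 : cyc k i ∉ U := fun h => by
    rcases huv _ h with h | h
    · exact (hk i).1 h
    · exact (hk i).2 h
  have n2 : cyc k (i + 1) ∉ U := fun h => by
    rcases huv _ h with h | h
    · exact (hk _).1 h
    · exact (hk _).2 h
  simp only [hU, Finset.mem_filter, Finset.mem_univ, true_and, not_exists, not_and] at n1 n2
  revert hi hadj n1 n2
  generalize φ (cyc k i) = x
  generalize φ (cyc k (i + 1)) = y
  intro hi hadj n1 n2
  rcases x with a | q <;> rcases y with b | q'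
  · rcases hS a b ((DG_ll _ _ _).mp hadj) with h | h
    · exact n1 a h rfl
    · exact n2 b h rfl
  · have := (DG_lr _ _ _).mp hadj
    simp_all
  · have := (DG_rl _ _ _).mp hadj
    simp_all
  · have := (DG_rr _ _ _).mp hadj
    simp only [Sum.elim_inr, decide_eq_decide] at hi
    apply this
    apply Fin.ext
    have h1 := q.1.isLt
    have h2 := q'.1.isLt
    omega

end Pool.Agent.H12.MG
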