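import Pool.Agent.H12.MG1

set_option autoImplicit false

namespace Pool.Agent.H12.MG

open SimpleGraph

theorem copy_edges {m m' : ℕ} {A : SimpleGraph (Fin m')} {B : SimpleGraph (Fin m)}
    (φ : A.Copy B) : (Sym2.map φ '' A.edgeSet) ⊆ B.edgeSet := by
  rintro e ⟨e', he', rfl⟩
  induction e' using Sym2.ind with
  | _ a b =>
    simp only [Sym2.map_mk, mem_edgeSet] at he' ⊢
    exact φ.toHom.map_rel' he'

theorem copy_ncard {m m' : ℕ} {A : SimpleGraph (Fin m')} {B : SimpleGraph (Fin m)}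
    (φ : A.Copy B) : (Sym2.map φ '' A.edgeSet).ncard = A.edgeSet.ncard :=
  Set.ncard_image_of_injective _ (Sym2.map.injective φ.injective)

theorem copy_le {m m' : ℕ} {A : SimpleGraph (Fin m')} {B : SimpleGraph (Fin m)}
    (φ : A.Copy B) : m' ≤ m ∧ A.edgeSet.ncard ≤ B.edgeSet.ncard := by
  constructor
  · have := Fintype.card_le_of_injective _ φ.injective
    simpa using this
  · rw [← copy_ncard φ]
    exact Set.ncard_le_ncard (copy_edges φ) (Set.toFinite _)

theorem copy_rev {m m' : ℕ} {A : SimpleGraph (Fin m')} {B : SimpleGraph (Fin m)}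
    (φ : A.Copy B) (h1 : m ≤ m') (h2 : B.edgeSet.ncard ≤ A.edgeSet.ncard) :
    B.IsContained A := by
  have hm : m' = m := le_antisymm (copy_le φ).1 h1
  have hbij : Function.Bijective φ := by
    rw [Fintype.bijective_iff_injective_and_card]
    exact ⟨φ.injective, by simp [hm]⟩
  have heq : (Sym2.map φ '' A.edgeSet) = B.edgeSet :=
    Set.eq_of_subset_of_ncard_le (copy_edges φ) (by rw [copy_ncard φ]; exact h2) (Set.toFinite _)
  let e := Equiv.ofBijective φ hbij
  refine ⟨⟨⟨e.symm, ?_⟩, e.symm.injective⟩⟩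
  intro x y hxy
  have hmem : s(x, y) ∈ Sym2.map φ '' A.edgeSet := by rw [heq]; exact hxy
  obtain ⟨e', he', hmap⟩ := hmem
  induction e' using Sym2.ind with
  | _ a b =>
    simp only [Sym2.map_mk, Sym2.eq_iff] at hmap
    have ha : ∀ z, e.symm (φ z) = z := fun z => e.symm_apply_apply z
    rcases hmap with ⟨rfl, rfl⟩ | ⟨rfl, rfl⟩
    · rw [ha, ha]; exact he'
    · rw [ha, ha]; exact (show A.Adj a b from he').symm

theorem exists_mem (m : ℕ) (M : SimpleGraph (Fin m)) (hD : Dec m M) :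
    ∃ (m' : ℕ) (M' : SimpleGraph (Fin m')), M'.IsContained M ∧ Mem m' M' := by
  classical
  have hex : ∃ k : ℕ, ∃ (m' : ℕ) (M' : SimpleGraph (Fin m')), M'.IsContained M ∧ Dec m' M' ∧
      m' + M'.edgeSet.ncard = k := ⟨_, m, M, IsContained.rfl, hD, rfl⟩
  obtain ⟨m', M', h1, h2, h3⟩ := Nat.find_spec hex
  refine ⟨m', M', h1, h2, ?_⟩
  intro m'' M'' hc hd
  have hmin := Nat.find_min' hex ⟨m'', M'', hc.trans h1, hd, rfl⟩
  obtain ⟨φ⟩ := hc
  have := copy_le φ
  exact copy_rev φ (by omega) (by omega)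

theorem dec_remove (m : ℕ) (M : SimpleGraph (Fin (m + 1))) (v : Fin (m + 1))
    (hv : ∀ w, ¬ M.Adj v w) (hD : Dec (m + 1) M) : Dec m (M.comap v.succAbove) := by
  obtain ⟨t, hc⟩ := hD
  refine ⟨t + 1, hc.trans ?_⟩
  let f : Fin (m + 1) ⊕ (Fin 2 × Fin t) → Fin m ⊕ (Fin 2 × Fin (t + 1)) :=
    Sum.elim (fun i => Option.elim (finSuccEquiv' v i) (Sum.inr (0, Fin.last t)) Sum.inl)
      (fun q => Sum.inr (q.1, q.2.castSucc))
  have f0 : f (Sum.inl v) = Sum.inr (0, Fin.last t) := by simp [f]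
  have f1 : ∀ k, f (Sum.inl (v.succAbove k)) = Sum.inl k := by
    intro k; simp [f]
  have f2 : ∀ q, f (Sum.inr q) = Sum.inr (q.1, q.2.castSucc) := fun q => rfl
  have hcase : ∀ i : Fin (m + 1), i = v ∨ ∃ k, i = v.succAbove k := by
    intro i
    by_cases h : i = v
    · exact Or.inl h
    · obtain ⟨k, hk⟩ := Fin.exists_succAbove_eq h
      exact Or.inr ⟨k, hk.symm⟩
  refine ⟨⟨⟨f, ?_⟩, ?_⟩⟩
  · intro x y h
    rcases x with a | q <;> rcases y with b | q'
    · have hab := (DG_ll _ _ _).mp h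
      rcases hcase a with rfl | ⟨k, rfl⟩
      · exact absurd hab (hv _)
      rcases hcase b with rfl | ⟨l, rfl⟩
      · exact absurd hab.symm (hv _)
      rw [f1, f1, DG_ll]
      exact hab
    · have hq := (DG_lr _ _ _).mp h
      rcases hcase a with rfl | ⟨k, rfl⟩
      · rw [f0, f2, DG_rr]
        intro e
        apply hq
        simp only at e
        rw [← e]; rfl
      · rw [f1, f2, DG_lr]; exact hq
    · have hq := (DG_rl _ _ _).mp h
      rcases hcase b with rfl | ⟨k, rfl⟩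
      · rw [f0, f2, DG_rr]
        intro e
        apply hq
        simp only at e
        rw [e]; rfl
      · rw [f1, f2, DG_rl]; exact hq
    · rw [f2, f2, DG_rr]
      exact (DG_rr M q q').mp h
  · intro x y h
    change f x = f y at h
    rcases x with a | q <;> rcases y with b | q'
    · rcases hcase a with rfl | ⟨k, rfl⟩ <;> rcases hcase b with hb | ⟨l, rfl⟩
      · rw [hb]
      · rw [f0, f1] at h; cases h
      · rw [hb, f0, f1] at h; cases h
      · rw [f1, f1] at h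
        rw [Sum.inl.inj h]
    · rcases hcase a with rfl | ⟨k, rfl⟩
      · rw [f0, f2] at h
        have := congrArg Prod.snd (Sum.inr.inj h)
        exact absurd this (Fin.castSucc_lt_last _).ne'
      · rw [f1, f2] at h; cases h
    · rcases hcase b with rfl | ⟨k, rfl⟩
      · rw [f0, f2] at h
        have := congrArg Prod.snd (Sum.inr.inj h)
        exact absurd this (Fin.castSucc_lt_last _).ne
      · rw [f1, f2] at h; cases h
    · rw [f2, f2] at h
      have h' := Sum.inr.inj h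
      have h1 := congrArg Prod.fst h'
      have h2 := congrArg Prod.snd h'
      simp only at h1 h2
      rw [Prod.ext h1 (Fin.castSucc_injective _ h2)]

theorem mem_noiso (m : ℕ) (M : SimpleGraph (Fin m)) (hM : Mem m M) (v : Fin m) :
    ∃ w, M.Adj v w := by
  by_contra hno
  push Not at hno
  cases m with
  | zero => exact v.elim0
  | succ m =>
    have h1 := dec_remove m M v hno hM.1
    have h2 : (M.comap v.succAbove).IsContained M :=
      ⟨⟨⟨v.succAbove, fun h => h⟩, Fin.succAbove_right_injective⟩⟩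
    obtain ⟨φ⟩ := hM.2 m _ h2 h1
    have := (copy_le φ).1
    omega

def PJ (i : Fin 25) : Bool := !([1, 2, 3, 5, 6, 9, 10, 13].contains i.val)

theorem PJ_cov : ∀ i j, adjB i j = true → PJ i = true ∨ PJ j = true := by decide +kernel

theorem PJ_match : ∀ i j k : Fin 25, adjB i j = true → PJ i = true → PJ j = true →
    adjB i k = true → PJ k = true → j = k := by decide +kernel

theorem has_matching : ∃ (m : ℕ) (M : SimpleGraph (Fin m)), Mem m M ∧ ∀ v, ∃! w, M.Adj v w := by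
  obtain ⟨m, M, ⟨φ⟩, hM⟩ := exists_mem 25 (HP PJ) (dec_HP PJ PJ_cov)
  refine ⟨m, M, hM, fun v => ?_⟩
  obtain ⟨w, hw⟩ := mem_noiso m M hM v
  refine ⟨w, hw, fun w' hw' => ?_⟩
  have h1 : (HP PJ).Adj (φ v) (φ w) := φ.toHom.map_rel' hw
  have h2 : (HP PJ).Adj (φ v) (φ w') := φ.toHom.map_rel' hw'
  exact φ.injective (PJ_match _ _ _ h2.1 h2.2.1 h2.2.2 h1.1 h1.2.2)

def P3 (i : Fin 25) : Bool := c3 i != 1

theorem P3_cov : ∀ i j, adjB i j = true → P3 i = true ∨ P3 j = true := by decide +kernel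

theorem P3_S : ∀ i j, adjB i j = true → P3 i = true → P3 j = true →
    (i ∈ ({0, 2, 3} : Finset (Fin 25)) ∨ j ∈ ({0, 2, 3} : Finset (Fin 25))) ∧
    ¬ (i ∈ ({0, 2, 3} : Finset (Fin 25)) ∧ j ∈ ({0, 2, 3} : Finset (Fin 25))) := by
  decide +kernel

theorem has_three : ∃ (m : ℕ) (M : SimpleGraph (Fin m)) (S : Finset (Fin m)), Mem m M ∧
      (∀ a b, M.Adj a b → a ∈ S ∨ b ∈ S) ∧ (∀ a ∈ S, ∀ b ∈ S, ¬ M.Adj a b) ∧ S.card = 3 := by
  classical
  obtain ⟨m, M, ⟨φ⟩, hM⟩ := exists_mem 25 (HP P3) (dec_HP P3 P3_cov)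
  set S : Finset (Fin m) := Finset.univ.filter (fun i => φ i ∈ ({0, 2, 3} : Finset (Fin 25)))
    with hS
  have hmem : ∀ i, i ∈ S ↔ φ i ∈ ({0, 2, 3} : Finset (Fin 25)) := by
    intro i; rw [hS, Finset.mem_filter]; exact ⟨fun h => h.2, fun h => ⟨Finset.mem_univ _, h⟩⟩
  have hcov : ∀ a b, M.Adj a b → a ∈ S ∨ b ∈ S := by
    intro a b h
    have h1 : (HP P3).Adj (φ a) (φ b) := φ.toHom.map_rel' h
    rw [hmem, hmem]
    exact (P3_S _ _ h1.1 h1.2.1 h1.2.2).1
  refine ⟨m, M, S, hM, hcov, ?_, ?_⟩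
  · intro a ha b hb h
    have h1 : (HP P3).Adj (φ a) (φ b) := φ.toHom.map_rel' h
    exact (P3_S _ _ h1.1 h1.2.1 h1.2.2).2 ⟨(hmem a).mp ha, (hmem b).mp hb⟩
  · apply le_antisymm
    · have h1 : S.card ≤ ({0, 2, 3} : Finset (Fin 25)).card := by
        apply Finset.card_le_card_of_injOn (fun i => φ i)
        · intro i hi
          exact (hmem i).mp hi
        · intro i _ j _ h
          exact φ.injective h
      exact h1.trans (by decide)
    · exact cover_ge m M S hM.1 hcov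

theorem gamma_three : IsLeast {k : ℕ | ∃ (m : ℕ) (M : SimpleGraph (Fin m)) (S : Finset (Fin m)),
    Mem m M ∧ (∀ a b, M.Adj a b → a ∈ S ∨ b ∈ S) ∧ (∀ a ∈ S, ∀ b ∈ S, ¬ M.Adj a b) ∧
      S.card = k} 3 := by
  refine ⟨has_three, ?_⟩
  rintro k ⟨m, M, S, hM, hc, -, rfl⟩
  exact cover_ge m M S hM.1 hc

theorem beta_three : IsLeast {k : ℕ | ∃ (m : ℕ) (M : SimpleGraph (Fin m)) (S : Finset (Fin m)),
    Mem m M ∧ (∀ a b, M.Adj a b → a ∈ S ∨ b ∈ S) ∧ S.card = k} 3 := by
  constructor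
  · obtain ⟨m, M, S, h1, h2, -, h4⟩ := has_three
    exact ⟨m, M, S, h1, h2, h4⟩
  · rintro k ⟨m, M, S, hM, hc, rfl⟩
    exact cover_ge m M S hM.1 hc

end Pool.Agent.H12.MG
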