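import Pool.Agent.H12.MG2

set_option autoImplicit false

namespace Pool.Agent.H12.MG

open SimpleGraph

/-- join of two graphs -/
def JG {m : ℕ} (H1 : SimpleGraph (Fin 2)) (H2 : SimpleGraph (Fin m)) :
    SimpleGraph (Fin 2 ⊕ Fin m) :=
  SimpleGraph.fromRel (fun x y : Fin 2 ⊕ Fin m =>
        Sum.elim (fun a => Sum.elim (fun b => H1.Adj a b) (fun _ => True) y)
          (fun a => Sum.elim (fun _ => True) (fun b => H2.Adj a b) y) x)

variable {m : ℕ}

theorem JG_ll (H1 : SimpleGraph (Fin 2)) (H2 : SimpleGraph (Fin m)) (a b : Fin 2) :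
    (JG H1 H2).Adj (Sum.inl a) (Sum.inl b) ↔ H1.Adj a b := by
  simp only [JG, fromRel_adj, Sum.elim_inl, ne_eq, Sum.inl.injEq]
  constructor
  · rintro ⟨-, h | h⟩
    · exact h
    · exact h.symm
  · intro h
    exact ⟨h.ne, Or.inl h⟩

theorem JG_rr (H1 : SimpleGraph (Fin 2)) (H2 : SimpleGraph (Fin m)) (a b : Fin m) :
    (JG H1 H2).Adj (Sum.inr a) (Sum.inr b) ↔ H2.Adj a b := by
  simp only [JG, fromRel_adj, Sum.elim_inr, ne_eq, Sum.inr.injEq]
  constructor
  · rintro ⟨-, h | h⟩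
    · exact h
    · exact h.symm
  · intro h
    exact ⟨h.ne, Or.inl h⟩

theorem JG_lr (H1 : SimpleGraph (Fin 2)) (H2 : SimpleGraph (Fin m)) (a : Fin 2) (b : Fin m) :
    (JG H1 H2).Adj (Sum.inl a) (Sum.inr b) := by
  simp [JG, fromRel_adj]

theorem JG_rl (H1 : SimpleGraph (Fin 2)) (H2 : SimpleGraph (Fin m)) (a : Fin 2) (b : Fin m) :
    (JG H1 H2).Adj (Sum.inr b) (Sum.inl a) := (JG_lr H1 H2 a b).symm

/-- Turan graph plus two edges -/
def T2 (m : ℕ) : SimpleGraph (Fin m) where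
  Adj x y := x.val % 2 ≠ y.val % 2 ∨ (x.val = 0 ∧ y.val = 2) ∨ (x.val = 2 ∧ y.val = 0) ∨
    (x.val = 0 ∧ y.val = 4) ∨ (x.val = 4 ∧ y.val = 0)
  symm := ⟨fun x y h => by omega⟩
  loopless := ⟨fun x h => by omega⟩

theorem free_T2 : ¬ H.IsContained (JG ⊥ (T2 m)) := by
  classical
  rintro ⟨φ⟩
  set U : Finset (Fin 25) := Finset.univ.filter (fun i => ∃ s, φ i = Sum.inl s) with hU
  have hUc : U.card ≤ 2 := by
    have h1 : U.card ≤ (Finset.univ.image (fun s => (Sum.inl s : Fin 2 ⊕ Fin m))).card := by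
      apply Finset.card_le_card_of_injOn (fun i => φ i)
      · intro i hi
        simp only [hU, Finset.coe_filter, Finset.mem_univ, true_and, Set.mem_ofPred_eq] at hi
        obtain ⟨s, he⟩ := hi
        simp only [Finset.coe_image, Set.mem_image, Finset.mem_coe]
        exact ⟨s, Finset.mem_univ _, he.symm⟩
      · intro i _ j _ h
        exact φ.injective h
    have h2 := Finset.card_image_le (s := (Finset.univ : Finset (Fin 2)))
      (f := fun s => (Sum.inl s : Fin 2 ⊕ Fin m))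
    simp only [Finset.card_univ, Fintype.card_fin] at h2
    omega
  have hmemU : ∀ i, i ∈ U ↔ ∃ s, φ i = Sum.inl s := by
    intro i; rw [hU, Finset.mem_filter]; exact ⟨fun h => h.2, fun h => ⟨Finset.mem_univ _, h⟩⟩
  obtain ⟨u, v, huv, hind⟩ := two_pts U hUc
  have hna : adjB u v = false := by
    rcases hind with rfl | ⟨hu, hv⟩
    · exact adjB_irr u
    · by_contra hc
      have hadj : H.Adj u v := by
        rw [H_adj]; simpa using hc
      have h1 : (JG ⊥ (T2 m)).Adj (φ u) (φ v) := φ.toHom.map_rel' hadj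
      obtain ⟨s, hs⟩ := (hmemU u).mp hu
      obtain ⟨s', hs'⟩ := (hmemU v).mp hv
      rw [hs, hs', JG_ll] at h1
      exact h1
  let w : Fin 25 → ℕ := fun i => Sum.elim (fun _ => 0) (fun x : Fin m => x.val) (φ i)
  have key : ∀ k, av k u v → ∃ i : Fin 5, ∃ x y : Fin m, φ (cyc k i) = Sum.inr x ∧
      φ (cyc k (i + 1)) = Sum.inr y ∧ ((x.val = 0 ∧ y.val = 2) ∨ (x.val = 2 ∧ y.val = 0) ∨
    (x.val = 0 ∧ y.val = 4) ∨ (x.val = 4 ∧ y.val = 0)) := by
    intro k hk
    obtain ⟨i, hi⟩ := odd_cyc (fun x => decide (w x % 2 = 0)) k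
    have hadj : (JG ⊥ (T2 m)).Adj (φ (cyc k i)) (φ (cyc k (i + 1))) :=
      φ.toHom.map_rel' (show H.Adj _ _ from cyc_adj k i)
    have n1 : cyc k i ∉ U := fun h => by
      rcases huv _ h with h | h
      · exact (hk i).1 h
      · exact (hk i).2 h
    have n2 : cyc k (i + 1) ∉ U := fun h => by
      rcases huv _ h with h | h
      · exact (hk _).1 h
      · exact (hk _).2 h
    rw [hmemU] at n1 n2
    simp only [decide_eq_decide, w] at hi
    refine ⟨i, ?_⟩
    generalize φ (cyc k i) = x at hi hadj n1 ⊢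
    generalize φ (cyc k (i + 1)) = y at hi hadj n2 ⊢
    rcases x with a | x
    · exact absurd ⟨a, rfl⟩ n1
    rcases y with b | y
    · exact absurd ⟨b, rfl⟩ n2
    refine ⟨x, y, rfl, rfl, ?_⟩
    rw [JG_rr] at hadj
    simp only [Sum.elim_inr] at hi
    change _ ∨ _ at hadj
    omega
  have same : ∀ (k l : Fin 10) (i j : Fin 5) (x y x' y' : Fin m), dj k l →
      φ (cyc k i) = Sum.inr x → φ (cyc k (i + 1)) = Sum.inr y →
      φ (cyc l j) = Sum.inr x' → φ (cyc l (j + 1)) = Sum.inr y' →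
      ¬ ((x.val = x'.val ∧ y.val = y'.val) ∨ (x.val = y'.val ∧ y.val = x'.val)) := by
    intro k l i j x y x' y' hd h1 h2 h3 h4 h
    apply hd i j
    have inj : ∀ a b, φ a = φ b → a = b := fun a b h => φ.injective h
    rcases h with ⟨e1, e2⟩ | ⟨e1, e2⟩
    · left
      exact ⟨inj _ _ (by rw [h1, h3, Fin.ext e1]), inj _ _ (by rw [h2, h4, Fin.ext e2])⟩
    · right
      exact ⟨inj _ _ (by rw [h1, h4, Fin.ext e1]), inj _ _ (by rw [h2, h3, Fin.ext e2])⟩
  obtain ⟨k1, a1, k2, a2, d12, k3, a3, d13, d23⟩ := three_cyc u v hna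
  obtain ⟨i1, x1, y1, p1, q1, r1⟩ := key k1 a1
  obtain ⟨i2, x2, y2, p2, q2, r2⟩ := key k2 a2
  obtain ⟨i3, x3, y3, p3, q3, r3⟩ := key k3 a3
  have s12 := same _ _ _ _ _ _ _ _ (djB_ok _ _ d12) p1 q1 p2 q2
  have s13 := same _ _ _ _ _ _ _ _ (djB_ok _ _ d13) p1 q1 p3 q3
  have s23 := same _ _ _ _ _ _ _ _ (djB_ok _ _ d23) p2 q2 p3 q3
  omega

def side (i : Fin 25) : ℕ :=
  [0,0,1,1,0,1,0,1,0,1,0,1,0,1,0,0,0,0,0,1,1,1,0,0,0].getD i.val 0

theorem side_le : ∀ i, side i ≤ 1 := by decide +kernel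

theorem side_ok : ∀ i j : Fin 25, adjB i j = true → i.val ≤ 1 ∨ j.val ≤ 1 ∨
    (i.val = 14 ∧ j.val = 15) ∨ (i.val = 15 ∧ j.val = 14) ∨
    (side i ≠ side j ∧ ((i.val = 14 ∨ i.val = 15) → side i = 0 ∧ j.val ≠ 14 ∧ j.val ≠ 15) ∧
      ((j.val = 14 ∨ j.val = 15) → side j = 0 ∧ i.val ≠ 14 ∧ i.val ≠ 15)) := by decide +kernel

theorem good_block (C : ℕ) (D : Set (Sym2 (Fin m))) (hD : D.ncard ≤ C) :
    ∃ j ≤ 2 * C, ∀ x y : Fin m, s(x, y) ∈ D → x.val / 52 ≠ j := by
  classical
  by_contra hno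
  push Not at hno
  let A : Set ℕ := (fun e : Sym2 (Fin m) => e.out.1.val / 52) '' D
  let B : Set ℕ := (fun e : Sym2 (Fin m) => e.out.2.val / 52) '' D
  have hA : A.ncard ≤ C := (Set.ncard_image_le (Set.toFinite _)).trans hD
  have hB : B.ncard ≤ C := (Set.ncard_image_le (Set.toFinite _)).trans hD
  have hsub : (↑(Finset.range (2 * C + 1)) : Set ℕ) ⊆ A ∪ B := by
    intro j hj
    simp only [Finset.coe_range, Set.mem_Iio] at hj
    obtain ⟨x, y, hxy, hx⟩ := hno j (by omega)
    have e : s(s(x, y).out.1, s(x, y).out.2) = s(x, y) := Quot.out_eq _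
    rcases Sym2.eq_iff.mp e with ⟨h1, -⟩ | ⟨-, h2⟩
    · left; exact ⟨s(x, y), hxy, by simp only [h1, hx]⟩
    · right; exact ⟨s(x, y), hxy, by simp only [h2, hx]⟩
  have h1 := Set.ncard_le_ncard hsub ((Set.toFinite A).union (Set.toFinite B))
  rw [Set.ncard_coe_finset, Finset.card_range] at h1
  have h2 := Set.ncard_union_le A B
  omega

theorem embed (C : ℕ) (hm : 52 * (2 * C + 1) ≤ m) (H1 : SimpleGraph (Fin 2))
    (h01 : H1.Adj 0 1) (H2 : SimpleGraph (Fin m))
    (hD : (symmDiff H2.edgeSet (turanGraph m 2).edgeSet).ncard ≤ C)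
    (x y : Fin m) (hxy : H2.Adj x y) (hpar : x.val % 2 = y.val % 2) :
    H.IsContained (JG H1 H2) := by
  obtain ⟨j, hj, hgood⟩ := good_block C _ hD
  have hbad : s(x, y) ∈ symmDiff H2.edgeSet (turanGraph m 2).edgeSet := by
    rw [Set.mem_symmDiff]
    left
    refine ⟨hxy, ?_⟩
    simp only [mem_edgeSet, turanGraph_adj, ne_eq, not_not]
    exact hpar
  have hx : x.val / 52 ≠ j := hgood x y hbad
  have hy : y.val / 52 ≠ j := hgood y x (by rw [Sym2.eq_swap]; exact hbad)
  have hadj : ∀ a b : Fin m, a.val / 52 = j → a.val % 2 ≠ b.val % 2 → H2.Adj a b := by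
    intro a b ha hab
    by_contra hn
    apply hgood a b _ ha
    rw [Set.mem_symmDiff]
    right
    exact ⟨by simpa only [mem_edgeSet, turanGraph_adj] using hab, hn⟩
  let g : Fin 25 → Fin m := fun i => ⟨52 * j + 2 * i.val + (x.val + side i) % 2, by
    have := i.isLt
    have : 52 * j ≤ 52 * (2 * C) := by omega
    omega⟩
  have gv : ∀ i, (g i).val = 52 * j + 2 * i.val + (x.val + side i) % 2 := fun i => rfl
  have gj : ∀ i, (g i).val / 52 = j := by
    intro i; rw [gv]; have := i.isLt; omega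
  let g' : Fin 25 → Fin m := fun i => if i.val = 14 then x else if i.val = 15 then y else g i
  let f : Fin 25 → Fin 2 ⊕ Fin m := fun i =>
    if i.val = 0 then Sum.inl 0 else if i.val = 1 then Sum.inl 1 else Sum.inr (g' i)
  have f0 : ∀ i : Fin 25, i.val = 0 → f i = Sum.inl 0 := fun i h => if_pos h
  have f1 : ∀ i : Fin 25, i.val = 1 → f i = Sum.inl 1 := fun i h =>
    (if_neg (by omega)).trans (if_pos h)
  have f2 : ∀ i : Fin 25, 2 ≤ i.val → f i = Sum.inr (g' i) := fun i h => by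
    have h0 : i.val ≠ 0 := by omega
    have h1 : i.val ≠ 1 := by omega
    exact (if_neg h0).trans (if_neg h1)
  have g14 : ∀ i : Fin 25, i.val = 14 → g' i = x := fun i h => by simp [g', h]
  have g15 : ∀ i : Fin 25, i.val = 15 → g' i = y := fun i h => by simp [g', h]
  have go : ∀ i : Fin 25, i.val ≠ 14 → i.val ≠ 15 → g' i = g i := fun i h h' => by
    simp [g', h, h']
  refine ⟨⟨⟨f, ?_⟩, ?_⟩⟩
  · intro a b hab
    have hne : a.val ≠ b.val := fun e => hab.ne (Fin.ext e)
    by_cases ha0 : a.val = 0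
    · by_cases hb1 : b.val = 1
      · rw [f0 a ha0, f1 b hb1, JG_ll]; exact h01
      · rw [f0 a ha0, f2 b (by omega)]; exact JG_lr _ _ _ _
    by_cases ha1 : a.val = 1
    · by_cases hb0 : b.val = 0
      · rw [f1 a ha1, f0 b hb0, JG_ll]; exact h01.symm
      · rw [f1 a ha1, f2 b (by omega)]; exact JG_lr _ _ _ _
    by_cases hb0 : b.val = 0
    · rw [f2 a (by omega), f0 b hb0]; exact JG_rl _ _ _ _
    by_cases hb1 : b.val = 1
    · rw [f2 a (by omega), f1 b hb1]; exact JG_rl _ _ _ _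
    rw [f2 a (by omega), f2 b (by omega), JG_rr]
    have sa := side_le a
    have sb := side_le b
    rcases side_ok a b hab with h | h | ⟨h, h'⟩ | ⟨h, h'⟩ | ⟨hs, ha, hb⟩
    · omega
    · omega
    · rw [g14 a h, g15 b h']; exact hxy
    · rw [g15 a h, g14 b h']; exact hxy.symm
    · by_cases a14 : a.val = 14
      · obtain ⟨s0, b14, b15⟩ := ha (Or.inl a14)
        rw [g14 a a14, go b b14 b15]
        exact (hadj _ _ (gj b) (by rw [gv]; omega)).symm
      by_cases a15 : a.val = 15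
      · obtain ⟨s0, b14, b15⟩ := ha (Or.inr a15)
        rw [g15 a a15, go b b14 b15]
        exact (hadj _ _ (gj b) (by rw [gv]; omega)).symm
      rw [go a a14 a15]
      apply hadj _ _ (gj a)
      by_cases b14 : b.val = 14
      · obtain ⟨s0, -⟩ := hb (Or.inl b14)
        rw [g14 b b14, gv]; omega
      by_cases b15 : b.val = 15
      · obtain ⟨s0, -⟩ := hb (Or.inr b15)
        rw [g15 b b15, gv]; omega
      rw [go b b14 b15, gv, gv]; omega
  · intro a b h
    change f a = f b at h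
    have hxy' : x.val ≠ y.val := fun e => hxy.ne (Fin.ext e)
    have ginj : g' a = g' b → a = b := by
      intro e
      have e' := congrArg Fin.val e
      have ja := gj a
      have jb := gj b
      apply Fin.ext
      by_cases a14 : a.val = 14 <;> by_cases a15 : a.val = 15 <;>
        by_cases b14 : b.val = 14 <;> by_cases b15 : b.val = 15 <;>
        first
        | omega
        | (rw [g14 a a14, g15 b b15] at e'; omega)
        | (rw [g15 a a15, g14 b b14] at e'; omega)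
        | (rw [g14 a a14, go b b14 b15] at e'; omega)
        | (rw [g15 a a15, go b b14 b15] at e'; omega)
        | (rw [go a a14 a15, g14 b b14] at e'; omega)
        | (rw [go a a14 a15, g15 b b15] at e'; omega)
        | (rw [go a a14 a15, go b b14 b15, gv, gv] at e'; omega)
    apply Fin.ext
    by_cases ha0 : a.val = 0 <;> by_cases ha1 : a.val = 1 <;>
      by_cases hb0 : b.val = 0 <;> by_cases hb1 : b.val = 1 <;>
      first
      | omega
      | (rw [f0 a ha0, f1 b hb1] at h; exact absurd (Sum.inl.inj h) (by decide))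
      | (rw [f1 a ha1, f0 b hb0] at h; exact absurd (Sum.inl.inj h) (by decide))
      | (rw [f0 a ha0, f2 b (by omega)] at h; cases h)
      | (rw [f1 a ha1, f2 b (by omega)] at h; cases h)
      | (rw [f2 a (by omega), f0 b hb0] at h; cases h)
      | (rw [f2 a (by omega), f1 b hb1] at h; cases h)
      | (rw [f2 a (by omega), f2 b (by omega)] at h; rw [ginj (Sum.inr.inj h)])

theorem count (hm : 5 ≤ m) (H1 : SimpleGraph (Fin 2)) (H2 : SimpleGraph (Fin m))
    (hle : ∀ x y, H2.Adj x y → x.val % 2 ≠ y.val % 2) :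
    (JG H1 H2).edgeSet.ncard < (JG ⊥ (T2 m)).edgeSet.ncard := by
  classical
  set X := (JG ⊥ (turanGraph m 2)).edgeSet with hX
  have h1 : (JG H1 H2).edgeSet ⊆ insert s(Sum.inl 0, Sum.inl 1) X := by
    intro e he
    induction e using Sym2.ind with
    | _ a b =>
      rw [mem_edgeSet] at he
      rcases a with a | a <;> rcases b with b | b
      · left
        have hne := ((JG_ll _ _ _ _).mp he).ne
        revert hne
        fin_cases a <;> fin_cases b <;> simp
      · right; exact JG_lr _ _ _ _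
      · right; exact JG_rl _ _ _ _
      · right
        rw [hX, mem_edgeSet, JG_rr, turanGraph_adj]
        exact hle a b ((JG_rr _ _ _ _).mp he)
  let z0 : Fin m := ⟨0, by omega⟩
  let z2 : Fin m := ⟨2, by omega⟩
  let z4 : Fin m := ⟨4, by omega⟩
  have h2 : insert s(Sum.inr z0, Sum.inr z2) (insert s(Sum.inr z0, Sum.inr z4) X) ⊆
      (JG ⊥ (T2 m)).edgeSet := by
    intro e he
    rcases he with rfl | rfl | he
    · rw [mem_edgeSet, JG_rr]
      exact Or.inr (Or.inl ⟨rfl, rfl⟩)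
    · rw [mem_edgeSet, JG_rr]
      exact Or.inr (Or.inr (Or.inr (Or.inl ⟨rfl, rfl⟩)))
    · induction e using Sym2.ind with
      | _ a b =>
        rw [hX, mem_edgeSet] at he
        rw [mem_edgeSet]
        rcases a with a | a <;> rcases b with b | b
        · rw [JG_ll] at he ⊢; exact he
        · exact JG_lr _ _ _ _
        · exact JG_rl _ _ _ _
        · rw [JG_rr] at he ⊢
          exact Or.inl (turanGraph_adj.mp he)
  have n4 : s(Sum.inr z0, Sum.inr z4) ∉ X := by
    rw [hX, mem_edgeSet, JG_rr, turanGraph_adj]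
    simp [z0, z4]
  have n2 : s(Sum.inr z0, Sum.inr z2) ∉ insert s(Sum.inr z0, Sum.inr z4) X := by
    rintro (h | h)
    · simp [z0, z2, z4, Fin.ext_iff] at h
    · rw [hX, mem_edgeSet, JG_rr, turanGraph_adj] at h
      simp [z0, z2] at h
  have c1 := Set.ncard_le_ncard h1 (Set.toFinite _)
  have c2 := Set.ncard_le_ncard h2 (Set.toFinite _)
  have c3 := Set.ncard_insert_le s(Sum.inl 0, Sum.inl 1) X
  rw [Set.ncard_insert_of_notMem n2 (Set.toFinite _),
    Set.ncard_insert_of_notMem n4 (Set.toFinite _)] at c2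
  omega

theorem transport (n : ℕ) (hn : 2 + m = n) : ∃ G : SimpleGraph (Fin n), ¬ H.IsContained G ∧
    G.edgeSet.ncard = (JG ⊥ (T2 m)).edgeSet.ncard := by
  let e : Fin 2 ⊕ Fin m ≃ Fin n := finSumFinEquiv.trans (finCongr hn)
  let I : (JG ⊥ (T2 m)).comap e.symm ≃g JG ⊥ (T2 m) := Iso.comap e.symm _
  refine ⟨(JG ⊥ (T2 m)).comap e.symm, fun h => free_T2 (h.trans ⟨I.toCopy⟩), ?_⟩
  exact Set.ncard_congr' I.mapEdgeSet

theorem main (C n : ℕ) (hn : 52 * (2 * C + 1) + 3 ≤ n) (H1 : SimpleGraph (Fin 2))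
    (H2 : SimpleGraph (Fin (n - 3 + 1))) (h1 : 1 ≤ H1.edgeSet.ncard)
    (hD : (symmDiff H2.edgeSet (turanGraph (n - 3 + 1) 2).edgeSet).ncard ≤ C)
    (hfree : ¬ H.IsContained (JG H1 H2))
    (hmax : ∀ G : SimpleGraph (Fin n), ¬ H.IsContained G →
      G.edgeSet.ncard ≤ (JG H1 H2).edgeSet.ncard) : False := by
  have h01 : H1.Adj 0 1 := by
    have hne : H1.edgeSet.Nonempty := Set.nonempty_of_ncard_ne_zero (by omega)
    obtain ⟨e, he⟩ := hne
    induction e using Sym2.ind with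
    | _ a b =>
      rw [mem_edgeSet] at he
      have hne := he.ne
      fin_cases a <;> fin_cases b
      · exact absurd rfl hne
      · exact he
      · exact he.symm
      · exact absurd rfl hne
  have hle : ∀ x y, H2.Adj x y → x.val % 2 ≠ y.val % 2 := fun x y hxy hpar =>
    hfree (embed C (by omega) H1 h01 H2 hD x y hxy hpar)
  obtain ⟨G, hG, hc⟩ := transport (m := n - 3 + 1) n (by omega)
  have := hmax G hG
  have := count (by omega) H1 H2 hle
  omega

end Pool.Agent.H12.MG
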