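import Mathlib
import Pool.Agent.H12.Dist

set_option autoImplicit false

namespace Pool.Agent.H12.Median

/-- `x` lies on a shortest `u`-`v` path. -/
def OnGeo {V : Type} (G : SimpleGraph V) (u x v : V) : Prop := G.dist u x + G.dist x v = G.dist u v

/-- A median graph: connected, and any three vertices have exactly one vertex in all three
intervals. -/
def IsMedian {V : Type} (G : SimpleGraph V) : Prop :=
  G.Connected ∧ ∀ u v w, ∃! x, OnGeo G u x v ∧ OnGeo G u x w ∧ OnGeo G v x w

noncomputable def tri {V : Type} (G : SimpleGraph V) (a b c : V) : ℕ := G.dist a b + G.dist b c + G.dist a c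

/-- The triple attains the triameter. -/
def Triametral {V : Type} (G : SimpleGraph V) (a b c : V) : Prop :=
  ∀ x y z, tri G x y z ≤ tri G a b c

/-- The pair attains the diameter. -/
def Diametral {V : Type} (G : SimpleGraph V) (u v : V) : Prop := ∀ x y, G.dist x y ≤ G.dist u v

/-- The eccentricity of `v` equals the diameter. -/
def Peripheral {V : Type} (G : SimpleGraph V) (v : V) : Prop := ∃ u, Diametral G u v

/-- The graph whose edges are the pairs at `d`-value one. -/
def ofTable {n : ℕ} (d : Fin n → Fin n → ℕ) : SimpleGraph (Fin n) where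
  Adj u v := u ≠ v ∧ d u v = 1 ∧ d v u = 1
  symm := ⟨fun _ _ h => ⟨h.1.symm, h.2.symm⟩⟩
  loopless := ⟨fun _ h => h.1 rfl⟩

instance {n : ℕ} (d : Fin n → Fin n → ℕ) : DecidableRel (ofTable d).Adj := fun u v =>
  inferInstanceAs (Decidable (u ≠ v ∧ d u v = 1 ∧ d v u = 1))

end Pool.Agent.H12.Median
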