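import Mathlib

set_option autoImplicit false

namespace Pool.Agent.H12.Multifuncoid

/-- A completary multifuncoid of the form `(𝒫 U) ^ n`. -/
def IsCM {U n : Type} (f : Set (n → Set U)) : Prop :=
  (∀ L₀ L₁ : n → Set U, (fun i => L₀ i ∪ L₁ i) ∈ f ↔
    ∃ c : n → Bool, (fun i => if c i then L₁ i else L₀ i) ∈ f) ∧
  ∀ L : n → Set U, (∃ i, L i = ∅) → L ∉ f

/-- The completary multifuncoids of the form `(𝒫 U) ^ n`, ordered by inclusion. -/
abbrev CM (U n : Type) : Type := {f : Set (n → Set U) // IsCM f}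

/-- An atom: a minimal element among the nonempty (non-least) completary multifuncoids. -/
def IsAtomCM {U n : Type} (a : CM U n) : Prop := Minimal (fun g : CM U n => g.1.Nonempty) a

open Classical in
noncomputable def w (i : ℕ) (A : Set ℕ) : ℕ := ((Finset.range (i + 1)).filter (· ∈ A)).card

theorem w_mono (i : ℕ) {A B : Set ℕ} (h : A ⊆ B) : w i A ≤ w i B := by
  classical
  unfold w
  apply Finset.card_le_card
  intro x
  simp only [Finset.mem_filter]
  exact fun hx => ⟨hx.1, h hx.2⟩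

theorem w_union (i : ℕ) (A B : Set ℕ) : w i (A ∪ B) ≤ w i A + w i B := by
  classical
  unfold w
  refine le_trans (Finset.card_le_card ?_) (Finset.card_union_le _ _)
  intro x
  simp only [Finset.mem_filter, Finset.mem_union, Set.mem_union]
  tauto

def F : Set (ℕ → Set ℕ) := {L | (∀ i, 1 ≤ w i (L i)) ∧ ∀ K, ∃ i, K ≤ w i (L i)}

theorem F_cm : IsCM F := by
  refine ⟨fun L₀ L₁ => ⟨fun h => ?_, ?_⟩, ?_⟩
  · have key : ∀ i, w i (L₀ i ∪ L₁ i) ≤
        2 * w i (if decide (w i (L₀ i) ≤ w i (L₁ i)) then L₁ i else L₀ i) := fun i => by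
      have := w_union i (L₀ i) (L₁ i)
      by_cases h : w i (L₀ i) ≤ w i (L₁ i) <;> simp [h] <;> omega
    refine ⟨fun i => decide (w i (L₀ i) ≤ w i (L₁ i)), fun i => ?_, fun K => ?_⟩
    · have h1 : 1 ≤ w i (L₀ i ∪ L₁ i) := h.1 i
      have := key i
      beta_reduce
      omega
    · obtain ⟨i, (hi : 2 * K ≤ w i (L₀ i ∪ L₁ i))⟩ := h.2 (2 * K)
      have := key i
      exact ⟨i, by beta_reduce; omega⟩
  · rintro ⟨c, h⟩
    have key : ∀ i, w i (if c i then L₁ i else L₀ i) ≤ w i (L₀ i ∪ L₁ i) := fun i =>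
      w_mono i (by split_ifs <;> simp)
    refine ⟨fun i => (h.1 i).trans (key i), fun K => ?_⟩
    obtain ⟨i, hi⟩ := h.2 K
    exact ⟨i, hi.trans (key i)⟩
  · rintro L ⟨i, hi⟩ h
    have := h.1 i
    simp [hi, w] at this

theorem F_ne : F.Nonempty := ⟨fun _ => Set.univ, fun i => by simp [w], fun K => ⟨K, by simp [w]⟩⟩

theorem up {g : Set (ℕ → Set ℕ)} (hg : IsCM g) {L M : ℕ → Set ℕ} (h : ∀ i, L i ⊆ M i)
    (hL : L ∈ g) : M ∈ g := by
  have := (hg.1 L M).2 ⟨fun _ => false, by simpa using hL⟩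
  rwa [show (fun i => L i ∪ M i) = M from funext fun i => Set.union_eq_right.2 (h i)] at this

/-- Cut the `i`-th coordinate down to `A`. -/
def cut (i : ℕ) (A : Set ℕ) (L : ℕ → Set ℕ) (j : ℕ) : Set ℕ := if j = i then L j ∩ A else L j

def res (g : CM ℕ ℕ) (i : ℕ) (A : Set ℕ) : CM ℕ ℕ :=
  ⟨{L | cut i A L ∈ g.1}, fun L₀ L₁ => by
    have e1 : cut i A (fun j => L₀ j ∪ L₁ j) = fun j => cut i A L₀ j ∪ cut i A L₁ j := by
      funext j; unfold cut; split_ifs <;> simp [Set.union_inter_distrib_right]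
    have e2 : ∀ c : ℕ → Bool, cut i A (fun j => if c j then L₁ j else L₀ j) =
        fun j => if c j then cut i A L₁ j else cut i A L₀ j := fun c => by
      funext j; unfold cut; beta_reduce; split_ifs <;> rfl
    simp only [Set.mem_ofPred_eq, e1, e2]
    exact g.2.1 _ _, fun L ⟨j, hj⟩ => g.2.2 _ ⟨j, by unfold cut; split_ifs <;> simp [hj]⟩⟩

theorem res_le (g : CM ℕ ℕ) (i : ℕ) (A : Set ℕ) : res g i A ≤ g := fun L hL =>
  up g.2 (fun j => by unfold cut; split_ifs <;> simp) hL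

theorem split (g : CM ℕ ℕ) (i : ℕ) (A B : Set ℕ) (L : ℕ → Set ℕ) (h : cut i (A ∪ B) L ∈ g.1) :
    cut i A L ∈ g.1 ∨ cut i B L ∈ g.1 := by
  have e1 : cut i (A ∪ B) L = fun j => cut i A L j ∪ cut i B L j := by
    funext j; unfold cut; split_ifs <;> simp [Set.inter_union_distrib_left]
  rw [e1] at h
  obtain ⟨c, hc⟩ := (g.2.1 _ _).1 h
  cases hi : c i
  · refine Or.inl (up g.2 (fun j => ?_) hc)
    by_cases hj : j = i
    · simp [hj, hi]
    · simp [cut, hj]
  · refine Or.inr (up g.2 (fun j => ?_) hc)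
    by_cases hj : j = i
    · simp [hj, hi]
    · simp [cut, hj]

theorem point (g : CM ℕ ℕ) (i : ℕ) (L : ℕ → Set ℕ) :
    ∀ m : ℕ, cut i {x | x < m} L ∈ g.1 → ∃ x, cut i {x} L ∈ g.1
  | 0, h => absurd h (g.2.2 _ ⟨i, by simp [cut]⟩)
  | m + 1, h => by
    rw [show {x | x < m + 1} = {x | x < m} ∪ {m} by ext x; simp; omega] at h
    rcases split g i _ _ L h with h | h
    · exact point g i L m h
    · exact ⟨m, h⟩

theorem no_atom (a : CM ℕ ℕ) (ha : IsAtomCM a) (hF : a.1 ⊆ F) : False := by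
  obtain ⟨L, hL⟩ := ha.1
  have hx : ∀ i, ∃ x, a ≤ res a i {x} := fun i => by
    have h1 : cut i ({x | x < i + 1} ∪ {x | x < i + 1}ᶜ) L ∈ a.1 := by
      rwa [show cut i _ L = L by funext j; simp [cut]]
    rcases split a i _ _ L h1 with h | h
    · obtain ⟨x, hx⟩ := point a i L _ h
      exact ⟨x, ha.2 ⟨L, hx⟩ (res_le a i {x})⟩
    · have := (hF h).1 i
      simp only [cut, if_true, w, Finset.one_le_card] at this
      obtain ⟨y, hy⟩ := this
      simp only [Finset.mem_filter, Finset.mem_range] at hy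
      exact absurd hy.1 hy.2.2
  choose x hx using hx
  have ht : (fun i => ({x i} : Set ℕ) ∪ {x i}ᶜ) ∈ a.1 := up a.2 (fun i => by simp) hL
  obtain ⟨c, hc⟩ := (a.2.1 _ _).1 ht
  have hc0 : ∀ i, c i = false := fun i => by
    by_contra h
    exact a.2.2 _ ⟨i, by simp [cut, h]⟩ (hx i hc)
  obtain ⟨i, hi⟩ := (hF hc).2 2
  simp only [w] at hi
  have := hi.trans (Finset.card_le_card (t := {x i}) fun y hy => by
    simp only [Finset.mem_filter] at hy
    simpa [hc0] using hy.2)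
  simp at this

end Pool.Agent.H12.Multifuncoid
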