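import Mathlib

set_option autoImplicit false

namespace Pool.Agent.H12.NR

open Finset

/-- a finite set of pairs that is strictly increasing in both coordinates -/
def Chain (M : Finset (ℕ × ℕ)) : Prop :=
  ∀ p ∈ M, ∀ r ∈ M, p = r ∨ (p.1 < r.1 ∧ p.2 < r.2) ∨ (r.1 < p.1 ∧ r.2 < p.2)

lemma Chain.inj1 {M : Finset (ℕ × ℕ)} (h : Chain M) : Set.InjOn Prod.fst (M : Set (ℕ × ℕ)) := by
  intro p hp r hr e
  rcases h p hp r hr with h | h | h
  · exact h
  · omega
  · omega

lemma Chain.inj2 {M : Finset (ℕ × ℕ)} (h : Chain M) : Set.InjOn Prod.snd (M : Set (ℕ × ℕ)) := by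
  intro p hp r hr e
  rcases h p hp r hr with h | h | h
  · exact h
  · omega
  · omega

lemma Chain.sub {M M' : Finset (ℕ × ℕ)} (h : Chain M) (hs : M' ⊆ M) : Chain M' :=
  fun p hp r hr => h p (hs hp) r (hs hr)

lemma Chain.rank {M : Finset (ℕ × ℕ)} (h : Chain M) {p : ℕ × ℕ} (hp : p ∈ M) :
    ((M.image Prod.fst).filter (· < p.1)).card = ((M.image Prod.snd).filter (· < p.2)).card := by
  rw [Finset.filter_image, Finset.filter_image,
    Finset.card_image_of_injOn (h.sub (filter_subset _ _)).inj1,
    Finset.card_image_of_injOn (h.sub (filter_subset _ _)).inj2]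
  congr 1
  apply Finset.filter_congr
  intro r hr
  rcases h p hp r hr with h | h | h
  · subst h; simp
  · omega
  · omega

lemma rank_lt {B : Finset ℕ} {x y : ℕ} (hx : x ∈ B) (hxy : x < y) :
    (B.filter (· < x)).card < (B.filter (· < y)).card := by
  apply Finset.card_lt_card
  rw [Finset.ssubset_iff_of_subset]
  · exact ⟨x, by simp [hx, hxy], by simp⟩
  · intro z hz
    simp only [mem_filter] at hz ⊢
    exact ⟨hz.1, by omega⟩

lemma Chain.sub_of {M M' : Finset (ℕ × ℕ)} (h : Chain M) (h' : Chain M')
    (e1 : M.image Prod.fst = M'.image Prod.fst) (e2 : M.image Prod.snd = M'.image Prod.snd) :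
    M ⊆ M' := by
  intro p hp
  have : p.1 ∈ M'.image Prod.fst := e1 ▸ mem_image_of_mem _ hp
  obtain ⟨r, hr, e⟩ := mem_image.1 this
  have a := h.rank hp
  have b := h'.rank hr
  rw [e1, e2, ← e, b] at a
  have hp2 : p.2 ∈ M'.image Prod.snd := e2 ▸ mem_image_of_mem _ hp
  have hr2 : r.2 ∈ M'.image Prod.snd := mem_image_of_mem _ hr
  have : r.2 = p.2 := by
    rcases lt_trichotomy r.2 p.2 with c | c | c
    · have := rank_lt hr2 c; omega
    · exact c
    · have := rank_lt hp2 c; omega
  have : r = p := Prod.ext e this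
  exact this ▸ hr

open Classical in
/-- the chains inside a window -/
noncomputable def chains (lo l : ℕ) : Finset (Finset (ℕ × ℕ)) :=
  ((Ico lo (lo + l) ×ˢ Ico lo (lo + l)).powerset).filter Chain

lemma card_chains (lo l : ℕ) : (chains lo l).card ≤ 4 ^ l := by
  classical
  have : (chains lo l).card ≤ ((Ico lo (lo + l)).powerset ×ˢ (Ico lo (lo + l)).powerset).card := by
    apply Finset.card_le_card_of_injOn (fun M => (M.image Prod.fst, M.image Prod.snd))
    · intro M hM
      simp only [chains, coe_filter, mem_powerset, Set.mem_ofPred_eq] at hM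
      simp only [coe_product, Set.mem_prod, mem_coe, mem_powerset]
      constructor
      · intro x hx
        obtain ⟨p, hp, rfl⟩ := mem_image.1 hx
        exact (mem_product.1 (hM.1 hp)).1
      · intro x hx
        obtain ⟨p, hp, rfl⟩ := mem_image.1 hx
        exact (mem_product.1 (hM.1 hp)).2
    · intro M hM M' hM' e
      simp only [chains, coe_filter, mem_powerset, Set.mem_ofPred_eq] at hM hM'
      simp only [Prod.mk.injEq] at e
      exact Finset.Subset.antisymm (hM.2.sub_of hM'.2 e.1 e.2) (hM'.2.sub_of hM.2 e.1.symm e.2.symm)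
  rw [card_product, card_powerset, Nat.card_Ico, Nat.add_sub_cancel_left, ← mul_pow] at this
  exact this

variable {Q : Type} [Fintype Q]

/-- no window among the first n letters has a large increasing self-matching -/
def Good (n : ℕ) (u : ℕ → Q) : Prop :=
  ∀ lo l : ℕ, ∀ M : Finset (ℕ × ℕ), lo + l ≤ n → Chain M →
    (∀ p ∈ M, lo ≤ p.1 ∧ p.1 < p.2 ∧ p.2 < lo + l ∧ u p.1 = u p.2) → 6 * M.card ≤ l

lemma omega_fin (d : Q) (N : ℕ) : {u : ℕ → Q | ∀ i, N ≤ i → u i = d}.Finite := by
  apply Set.Finite.of_finite_image (f := fun u (i : Fin N) => u i) (Set.toFinite _)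
  intro u hu u' hu' e
  funext i
  by_cases h : i < N
  · exact congrFun e ⟨i, h⟩
  · rw [hu i (by omega), hu' i (by omega)]

open Classical in
noncomputable def G (d : Q) (N n : ℕ) : Finset (ℕ → Q) := (omega_fin d N).toFinset.filter (Good n)

lemma mem_G {d : Q} {N n : ℕ} {u : ℕ → Q} : u ∈ G d N n ↔ (∀ i, N ≤ i → u i = d) ∧ Good n u := by
  simp [G]

omit [Fintype Q] in
lemma Good.mono {n m : ℕ} {u : ℕ → Q} (h : Good n u) (hm : m ≤ n) : Good m u :=
  fun lo l M a b c => h lo l M (a.trans hm) b c

open Classical in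
lemma sat_card (d : Q) (N m : ℕ) (M : Finset (ℕ × ℕ)) (hM : Chain M)
    (h : ∀ p ∈ M, p.1 < p.2 ∧ m ≤ p.2 ∧ p.2 < N) :
    ((G d N m).filter (fun u => ∀ p ∈ M, u p.1 = u p.2)).card * Fintype.card Q ^ M.card
      ≤ (G d N m).card := by
  set B := M.image Prod.snd with hB
  have hc : B.card = M.card := Finset.card_image_of_injOn hM.inj2
  have e : Fintype.card Q ^ M.card = (univ : Finset (B → Q)).card := by
    simp [hc]
  rw [e, ← card_product]
  have hB' : ∀ i ∈ B, m ≤ i ∧ i < N := by
    intro i hi
    obtain ⟨p, hp, rfl⟩ := mem_image.1 hi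
    exact (h p hp).2
  apply Finset.card_le_card_of_injOn (fun z i => if hi : i ∈ B then z.2 ⟨i, hi⟩ else z.1 i)
  · rintro ⟨u, y⟩ hz
    simp only [coe_product, Set.mem_prod, mem_coe, mem_filter, mem_G] at hz ⊢
    obtain ⟨⟨⟨h1, h2⟩, _⟩, _⟩ := hz
    constructor
    · intro i hi
      rw [dif_neg (fun c => by have := hB' i c; omega)]
      exact h1 i hi
    · intro lo l M' a b c
      apply h2 lo l M' a b
      intro p hp
      obtain ⟨c1, c2, c3, c4⟩ := c p hp
      refine ⟨c1, c2, c3, ?_⟩
      simp only at c4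
      rw [dif_neg (fun c => by have := hB' _ c; omega),
        dif_neg (fun c => by have := hB' _ c; omega)] at c4
      exact c4
  · rintro ⟨u, y⟩ hz ⟨u', y'⟩ hz' e
    simp only [coe_product, Set.mem_prod, mem_coe, mem_filter] at hz hz'
    have e1 : u = u' := by
      funext i
      induction i using Nat.strong_induction_on with
      | _ i ih =>
        by_cases hi : i ∈ B
        · obtain ⟨p, hp, rfl⟩ := mem_image.1 hi
          rw [← hz.1.2 p hp, ← hz'.1.2 p hp]
          exact ih _ (h p hp).1
        · have := congrFun e i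
          simpa [hi] using this
    have e2 : y = y' := by
      funext ⟨i, hi⟩
      have := congrFun e i
      simpa [hi] using this
    rw [e1, e2]

lemma G_step (d : Q) (N : ℕ) (hq : 16 ^ 6 ≤ Fintype.card Q) :
    ∀ n, n < N → (G d N n).card ≤ 2 * (G d N (n + 1)).card := by
  classical
  intro n
  induction n using Nat.strong_induction_on with
  | _ n ih =>
    intro hn
    have back : ∀ j, j ≤ n → (G d N (n - j)).card ≤ 2 ^ j * (G d N n).card := by
      intro j
      induction j with
      | zero => simp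
      | succ j ihj =>
        intro hj
        have a := ih (n - (j + 1)) (by omega) (by omega)
        have e : n - (j + 1) + 1 = n - j := by omega
        rw [e] at a
        have b := ihj (by omega)
        rw [pow_succ]
        nlinarith
    set S : ℕ → Finset (ℕ → Q) := fun j =>
      ((chains (n - j) (j + 1)).filter
        (fun M => j + 1 < 6 * M.card ∧ ∀ p ∈ M, p.1 < p.2)).biUnion
        (fun M => (G d N (n - j)).filter (fun u => ∀ p ∈ M, u p.1 = u p.2)) with hS
    have cover : G d N n ⊆ G d N (n + 1) ∪ (range (n + 1)).biUnion S := by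
      intro u hu
      by_cases hg : Good (n + 1) u
      · exact mem_union_left _ (mem_G.2 ⟨(mem_G.1 hu).1, hg⟩)
      apply mem_union_right
      unfold Good at hg
      push Not at hg
      obtain ⟨lo, l, M, a, b, c, e⟩ := hg
      have hl : ¬ (lo + l ≤ n) := fun z => by
        have := (mem_G.1 hu).2 lo l M z b c; omega
      have hne : M.Nonempty := card_pos.1 (by omega)
      obtain ⟨p0, hp0⟩ := hne
      have := c p0 hp0
      rw [mem_biUnion]
      refine ⟨l - 1, mem_range.2 (by omega), ?_⟩
      have e1 : n - (l - 1) = lo := by omega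
      have e2 : l - 1 + 1 = l := by omega
      simp only [hS, e1, e2, mem_biUnion, mem_filter, chains, mem_powerset]
      refine ⟨M, ⟨⟨?_, b⟩, e, fun p hp => (c p hp).2.1⟩,
        mem_G.2 ⟨(mem_G.1 hu).1, (mem_G.1 hu).2.mono (by omega)⟩, fun p hp => (c p hp).2.2.2⟩
      intro p hp
      have := c p hp
      simp only [mem_product, mem_Ico]
      omega
    have bS : ∀ j ∈ range (n + 1),
        ((S j).card : ℝ) ≤ (1 / 4) * (1 / 2) ^ j * (G d N n).card := by
      intro j hj
      have hj' : j ≤ n := by have := mem_range.1 hj; omega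
      have h1 : (S j).card * 16 ^ (j + 1) ≤ 4 ^ (j + 1) * (2 ^ j * (G d N n).card) := by
        refine (Nat.mul_le_mul_right _ card_biUnion_le).trans ?_
        rw [Finset.sum_mul]
        refine (Finset.sum_le_card_nsmul _ _ (2 ^ j * (G d N n).card) ?_).trans ?_
        · intro M hM
          simp only [mem_filter, chains, mem_powerset] at hM
          obtain ⟨⟨m1, m2⟩, m3, m4⟩ := hM
          have := sat_card d N (n - j) M m2 (by
            intro p hp
            have := m1 hp
            simp only [mem_product, mem_Ico] at this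
            have := m4 p hp
            omega)
          refine le_trans ?_ (this.trans (back j hj'))
          apply Nat.mul_le_mul_left
          calc 16 ^ (j + 1) ≤ 16 ^ (6 * M.card) := Nat.pow_le_pow_right (by norm_num) m3.le
            _ = (16 ^ 6) ^ M.card := by rw [pow_mul]
            _ ≤ _ := Nat.pow_le_pow_left hq _
        · rw [smul_eq_mul]
          exact Nat.mul_le_mul_right _ ((card_filter_le _ _).trans (card_chains _ _))
      have h2 : ((S j).card : ℝ) * 16 ^ (j + 1) ≤ 4 ^ (j + 1) * (2 ^ j * (G d N n).card) := by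
        exact_mod_cast h1
      have h3 : (4 : ℝ) ^ (j + 1) * 2 ^ j = (1 / 4) * (1 / 2) ^ j * 16 ^ (j + 1) := by
        have : (16 : ℝ) ^ j = 4 ^ j * 2 ^ j * 2 ^ j := by
          rw [← mul_pow, ← mul_pow]; norm_num
        have t : (1 / 2 : ℝ) ^ j * 2 ^ j = 1 := by rw [← mul_pow]; norm_num
        rw [pow_succ, pow_succ, this]
        calc (4 : ℝ) ^ j * 4 * 2 ^ j = 4 ^ j * 4 * 2 ^ j * ((1 / 2 : ℝ) ^ j * 2 ^ j) := by rw [t, mul_one]
          _ = _ := by ring
      rw [← mul_assoc, h3] at h2
      have : (0 : ℝ) < 16 ^ (j + 1) := by positivity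
      nlinarith
    have geo : ∀ m : ℕ, ∑ j ∈ range m, (1 / 2 : ℝ) ^ j ≤ 2 := fun m => sum_geometric_two_le m
    have tot : (((range (n + 1)).biUnion S).card : ℝ) ≤ (1 / 2) * (G d N n).card := by
      have a : (((range (n + 1)).biUnion S).card : ℝ) ≤ ∑ j ∈ range (n + 1), ((S j).card : ℝ) := by
        exact_mod_cast card_biUnion_le
      refine a.trans ((sum_le_sum bS).trans ?_)
      rw [← Finset.sum_mul, ← Finset.mul_sum]
      have := geo (n + 1)
      have z : (0 : ℝ) ≤ (G d N n).card := by positivity
      nlinarith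
    have c1 : ((G d N n).card : ℝ) ≤ (G d N (n + 1)).card + ((range (n + 1)).biUnion S).card := by
      exact_mod_cast (card_le_card cover).trans (card_union_le _ _)
    have : ((G d N n).card : ℝ) ≤ 2 * (G d N (n + 1)).card := by linarith
    exact_mod_cast this

theorem exists_good (d : Q) (N : ℕ) (hq : 16 ^ 6 ≤ Fintype.card Q) : ∃ u : ℕ → Q, Good N u := by
  have : ∀ n, n ≤ N → 0 < (G d N n).card := by
    intro n
    induction n with
    | zero =>
      intro _
      apply card_pos.2
      refine ⟨fun _ => d, mem_G.2 ⟨fun _ _ => rfl, ?_⟩⟩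
      intro lo l M a b c
      have : M = ∅ := by
        apply eq_empty_of_forall_notMem
        intro p hp
        have := c p hp
        omega
      simp [this]
    | succ n ih =>
      intro hn
      have := G_step d N hq n (by omega)
      have := ih (by omega)
      omega
  obtain ⟨u, hu⟩ := card_pos.1 (this N le_rfl)
  exact ⟨u, (mem_G.1 hu).2⟩

end Pool.Agent.H12.NR
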