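import Mathlib

set_option autoImplicit false

namespace Pool.Agent.H12.NR

open Finset

variable {Q : Type} [Fintype Q] [DecidableEq Q]

lemma half_pow (q : ℕ) (hq : 0 < q) : (1 - 1 / (2 * (q : ℝ))) ^ (2 * q) ≤ 1 / 2 := by
  have hq' : (1 : ℝ) ≤ q := by exact_mod_cast hq
  have a : 1 - 1 / (2 * (q : ℝ)) ≤ Real.exp (-(1 / (2 * (q : ℝ)))) := by
    have := Real.add_one_le_exp (-(1 / (2 * (q : ℝ)))); linarith
  have b : 0 ≤ 1 - 1 / (2 * (q : ℝ)) := by
    rw [sub_nonneg, div_le_one (by linarith)]; linarith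
  calc _ ≤ Real.exp (-(1 / (2 * (q : ℝ)))) ^ (2 * q) := pow_le_pow_left₀ b a _
    _ = Real.exp (-1) := by
      rw [← Real.exp_nat_mul]; congr 1; push_cast; field_simp
    _ ≤ 1 / 2 := by
      rw [Real.exp_neg, one_div]
      apply inv_anti₀ (by norm_num)
      have := Real.add_one_le_exp (1 : ℝ); linarith

/-- few class maps leave a large set with few elements in a prescribed class -/
lemma few_bad {C : Type} [Fintype C] [DecidableEq C] (T : Finset C) (z : Q) (b r : ℕ)
    (hT : 2 * Fintype.card Q * (b + r) ≤ T.card) :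
    (univ.filter (fun π : C → Q => (T.filter (fun c => π c = z)).card < b)).card * 2 ^ r
      ≤ Fintype.card Q ^ Fintype.card C := by
  set q := Fintype.card Q with hq
  have hq0 : 0 < q := Fintype.card_pos_iff.2 ⟨z⟩
  have hq' : (1 : ℝ) ≤ q := by exact_mod_cast hq0
  set w : C → Q → ℝ := fun c y => if c ∈ T ∧ y = z then 1 / 2 else 1 with hw
  have s1 : ∑ π : C → Q, ∏ c, w c (π c) = ∏ c, ∑ y, w c y := by
    rw [Finset.prod_univ_sum]; simp
  have s2 : ∀ c, ∑ y, w c y = (if c ∈ T then (1 - 1 / (2 * (q : ℝ))) else 1) * q := by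
    intro c
    by_cases hc : c ∈ T
    · have : ∀ y, w c y = 1 - (if y = z then 1 / 2 else 0) := by
        intro y; by_cases h : y = z <;> simp [hw, hc, h]; norm_num
      simp only [this, sum_sub_distrib, sum_ite_eq', mem_univ, if_true, sum_const, card_univ,
        nsmul_eq_mul, mul_one, hc, ← hq]
      field_simp
    · simp [hw, hc, hq]
  have s3 : ∏ c, ∑ y, w c y = (1 - 1 / (2 * (q : ℝ))) ^ T.card * q ^ Fintype.card C := by
    simp only [s2, prod_mul_distrib, prod_const, card_univ]
    rw [Finset.prod_ite_mem univ T, univ_inter, prod_const]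
  have s4 : ∀ π : C → Q, ∏ c, w c (π c) = (1 / 2) ^ (T.filter (fun c => π c = z)).card := by
    intro π
    rw [← prod_const, Finset.prod_filter, ← univ_inter T, ← Finset.prod_ite_mem univ T]
    apply prod_congr rfl
    intro c _
    by_cases h1 : c ∈ T <;> by_cases h2 : π c = z <;> simp [hw, h1, h2]
  set Bd := univ.filter (fun π : C → Q => (T.filter (fun c => π c = z)).card < b) with hBd
  have s5 : (Bd.card : ℝ) * (1 / 2) ^ b ≤ ∑ π : C → Q, ∏ c, w c (π c) := by
    simp only [s4]
    calc (Bd.card : ℝ) * (1 / 2) ^ b = ∑ π ∈ Bd, (1 / 2 : ℝ) ^ b := by simp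
      _ ≤ ∑ π ∈ Bd, (1 / 2 : ℝ) ^ (T.filter (fun c => π c = z)).card := by
        apply sum_le_sum
        intro π hπ
        exact pow_le_pow_of_le_one (by norm_num) (by norm_num) (mem_filter.1 hπ).2.le
      _ ≤ _ := sum_le_sum_of_subset_of_nonneg (subset_univ _) (fun _ _ _ => by positivity)
  have b0 : 0 ≤ 1 - 1 / (2 * (q : ℝ)) := by
    rw [sub_nonneg, div_le_one (by linarith)]; linarith
  have b1 : 1 - 1 / (2 * (q : ℝ)) ≤ 1 := by
    have : 0 ≤ 1 / (2 * (q : ℝ)) := by positivity
    linarith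
  have s6 : (1 - 1 / (2 * (q : ℝ))) ^ T.card ≤ (1 / 2) ^ b * (1 / 2) ^ r := by
    calc _ ≤ (1 - 1 / (2 * (q : ℝ))) ^ (2 * q * (b + r)) := pow_le_pow_of_le_one b0 b1 hT
      _ = ((1 - 1 / (2 * (q : ℝ))) ^ (2 * q)) ^ (b + r) := by rw [pow_mul]
      _ ≤ (1 / 2) ^ (b + r) := pow_le_pow_left₀ (by positivity) (half_pow q hq0) _
      _ = _ := pow_add _ _ _
  rw [s1, s3] at s5
  have s7 : (Bd.card : ℝ) * (1 / 2) ^ b ≤ ((1 / 2) ^ r * q ^ Fintype.card C) * (1 / 2) ^ b := by
    refine s5.trans ?_
    have : (0 : ℝ) ≤ q ^ Fintype.card C := by positivity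
    nlinarith
  have s8 := le_of_mul_le_mul_right s7 (by positivity)
  have t : (1 / 2 : ℝ) ^ r * 2 ^ r = 1 := by rw [← mul_pow]; norm_num
  have : (Bd.card : ℝ) * 2 ^ r ≤ q ^ Fintype.card C := by
    calc (Bd.card : ℝ) * 2 ^ r ≤ ((1 / 2) ^ r * q ^ Fintype.card C) * 2 ^ r :=
          mul_le_mul_of_nonneg_right s8 (by positivity)
      _ = ((1 / 2 : ℝ) ^ r * 2 ^ r) * q ^ Fintype.card C := by ring
      _ = _ := by rw [t, one_mul]
  exact_mod_cast this

/-- one class map that is good for most members of a finite family -/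
lemma refresh {ι : Type} [DecidableEq ι] (d : Q) (I : Finset ι) (T : ι → Finset ℕ) (z : ι → Q)
    (b : ι → ℕ) (r : ℕ) (hT : ∀ x ∈ I, 2 * Fintype.card Q * (b x + r) ≤ (T x).card) :
    ∃ π : ℕ → Q, (I.filter (fun x => ((T x).filter (fun c => π c = z x)).card < b x)).card * 2 ^ r
      ≤ I.card := by
  classical
  set C := I.biUnion T with hC
  set T' : ι → Finset C := fun x => univ.filter (fun c : C => c.1 ∈ T x) with hT'
  set ext : (C → Q) → ℕ → Q := fun π c => if h : c ∈ C then π ⟨c, h⟩ else d with hext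
  have key : ∀ x ∈ I, ∀ p : C → Prop, ∀ p' : ℕ → Prop, (∀ c : C, p c ↔ p' c.1) →
      ((T' x).filter p).card = ((T x).filter p').card := by
    intro x hx p p' hp
    apply Finset.card_bij (fun c _ => c.1)
    · intro c hc
      simp only [hT', mem_filter, mem_univ, true_and] at hc ⊢
      exact ⟨hc.1, (hp c).1 hc.2⟩
    · intro a _ a' _ e
      exact Subtype.ext e
    · intro c hc
      have hc' := mem_filter.1 hc
      have : c ∈ C := mem_biUnion.2 ⟨x, hx, hc'.1⟩
      refine ⟨⟨c, this⟩, ?_, rfl⟩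
      simp only [hT', mem_filter, mem_univ, true_and]
      exact ⟨hc'.1, (hp ⟨c, this⟩).2 hc'.2⟩
  have h1 : ∀ x ∈ I, (univ.filter (fun π : C → Q =>
      ((T x).filter (fun c => ext π c = z x)).card < b x)).card * 2 ^ r
      ≤ Fintype.card Q ^ Fintype.card C := by
    intro x hx
    have e : (T' x).card = (T x).card := by
      simpa using key x hx (fun _ => True) (fun _ => True) (fun _ => Iff.rfl)
    have := few_bad (T' x) (z x) (b x) r (e ▸ hT x hx)
    convert this using 4 with π
    have := key x hx (fun c => π c = z x) (fun c => ext π c = z x) (by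
      intro c; simp [hext, c.2])
    convert Iff.rfl using 2
    convert this
  by_contra hcon
  push Not at hcon
  have h2 : ∑ π : C → Q, (I.filter (fun x =>
      ((T x).filter (fun c => ext π c = z x)).card < b x)).card * 2 ^ r
      ≤ I.card * Fintype.card Q ^ Fintype.card C := by
    rw [← Finset.sum_mul]
    simp only [card_filter]
    rw [Finset.sum_comm, Finset.sum_mul]
    refine (Finset.sum_le_card_nsmul _ _ (Fintype.card Q ^ Fintype.card C) ?_).trans (by simp)
    intro x hx
    have := h1 x hx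
    rw [card_filter] at this
    simpa only [card_filter] using this
  have h3 : ∑ π : C → Q, I.card < ∑ π : C → Q, (I.filter (fun x =>
      ((T x).filter (fun c => ext π c = z x)).card < b x)).card * 2 ^ r := by
    apply Finset.sum_lt_sum_of_nonempty ⟨fun _ => d, mem_univ _⟩
    intro π _
    exact hcon (ext π)
  simp only [sum_const, card_univ, Fintype.card_fun, smul_eq_mul] at h3
  rw [mul_comm] at h2
  omega

end Pool.Agent.H12.NR
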