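import Pool.Agent.H12.NR2

set_option autoImplicit false
set_option linter.unusedSectionVars false

namespace Pool.Agent.H12.NR

open Finset Classical

variable {Q : Type} [Fintype Q] [DecidableEq Q] {k : ℕ}

def cell (s m : ℕ) : Finset ℕ := Ico (m * 2 ^ s) ((m + 1) * 2 ^ s)

lemma card_cell (s m : ℕ) : (cell s m).card = 2 ^ s := by
  simp [cell, add_mul]

lemma mem_cell {s m i : ℕ} : i ∈ cell s m ↔ i / 2 ^ s = m := by
  rw [cell, mem_Ico, Nat.div_eq_iff (by positivity)]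
  have : 0 < 2 ^ s := by positivity
  rw [add_mul]
  omega

lemma div_succ (i s : ℕ) : i / 2 ^ (s + 1) = i / 2 ^ s / 2 := by
  rw [Nat.div_div_eq_div_mul, pow_succ]

def G1 (L : ℕ × Fin k → Finset ℕ) (f : ℕ → Q) (a : ℕ) (π : ℕ → Q) (i : ℕ) : Prop :=
  ∀ j, a ≤ ((L (i, j)).filter (fun c => π c = f i)).card

noncomputable def base (L : ℕ × Fin k → Finset ℕ) (f : ℕ → Q) (a : ℕ) (σ : ℕ → Q) (i : ℕ)
    (j : Fin k) : Finset ℕ :=
  if G1 L f a σ i then (L (i, j)).filter (fun c => σ c = f i) else L (i, j)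

def Gd (L : ℕ × Fin k → Finset ℕ) (f : ℕ → Q) (a b : ℕ) (σ π : ℕ → Q) (i : ℕ) : Prop :=
  G1 L f a π i ∧ ∀ j, b ≤ ((base L f a σ i j).filter (fun c => π c = f i)).card

noncomputable def bad (L : ℕ × Fin k → Finset ℕ) (f : ℕ → Q) (a b : ℕ) (σ π : ℕ → Q) (s m : ℕ) :
    Finset ℕ := (cell s m).filter (fun i => ¬ Gd L f a b σ π i)

def Conf (L' : ℕ × Fin k → Finset ℕ) (f : ℕ → Q) (π : ℕ → Q) (i : ℕ) : Prop :=
  ∀ j, ∀ c ∈ L' (i, j), π c = f i

def FinP (L' : ℕ × Fin k → Finset ℕ) (f : ℕ → Q) (g s m : ℕ) : Prop :=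
  ∃ π : ℕ → Q, ∃ X : Finset ℕ, g * X.card ≤ 2 * 2 ^ s ∧ ∀ i ∈ cell s m, i ∉ X → Conf L' f π i

def Concl (L : ℕ × Fin k → Finset ℕ) (f : ℕ → Q) (a b g s m : ℕ) (σ π : ℕ → Q) : Prop :=
  ∃ L' : ℕ × Fin k → Finset ℕ, ∃ D1 D2 : Finset ℕ,
    (∀ v, L' v ⊆ L v) ∧ (∀ i ∈ cell s m, ∀ j, b ≤ (L' (i, j)).card) ∧
    D1.card ≤ g * (bad L f a b σ π s m).card ∧ g * D2.card ≤ 2 ^ s ∧
    (∀ i ∈ cell s m, i ∉ D1 → G1 L f a σ i → Conf L' f σ i) ∧
    (∀ i ∈ cell s m, i ∉ D2 → G1 L f a π i → Conf L' f π i) ∧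
    (∀ s' t m', s' + t = s → m' / 2 ^ t = m → FinP L' f g s' m')

lemma refresh' {ι : Type} [DecidableEq ι] (d : Q) (I : Finset ι) (T : ι → Finset ℕ) (z : ι → Q)
    (b : ι → ℕ) (r : ℕ) (hT : ∀ x ∈ I, 2 * Fintype.card Q * (b x + r) ≤ (T x).card) :
    ∃ π : ℕ → Q, ∃ Z : Finset ι, Z.card * 2 ^ r ≤ I.card ∧
      ∀ x ∈ I, ((T x).filter (fun c => π c = z x)).card < b x → x ∈ Z := by
  obtain ⟨π, hπ⟩ := refresh d I T z b r hT
  exact ⟨π, _, hπ, fun x hx h => mem_filter.2 ⟨hx, h⟩⟩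

lemma refresh_cell (L : ℕ × Fin k → Finset ℕ) (f : ℕ → Q) (b r g : ℕ) (hk : 0 < k)
    (hL : ∀ v, 2 * Fintype.card Q * (2 * Fintype.card Q * (b + r) + r) ≤ (L v).card)
    (hg : 2 * k * g ^ 2 ≤ 2 ^ r) (σ : ℕ → Q) (s m : ℕ) :
    ∃ π, g ^ 2 * (bad L f (2 * Fintype.card Q * (b + r)) b σ π s m).card ≤ 2 ^ s := by
  set a := 2 * Fintype.card Q * (b + r) with ha
  have hq0 : 0 < Fintype.card Q := Fintype.card_pos_iff.2 ⟨f 0⟩
  obtain ⟨π, Z, hπ, hZ⟩ := refresh' (f 0) (cell s m ×ˢ (univ : Finset (Fin k × Bool)))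
    (fun x => if x.2.2 = true then base L f a σ x.1 x.2.1 else L (x.1, x.2.1))
    (fun x => f x.1) (fun x => if x.2.2 = true then b else a) r (by
      rintro ⟨i, j, t⟩ _
      cases t
      · simpa using hL (i, j)
      · simp only [if_true, base]
        split_ifs with h
        · exact h j
        · refine le_trans ?_ (hL (i, j))
          nlinarith)
  refine ⟨π, ?_⟩
  rw [card_product, card_cell] at hπ
  simp only [card_univ, Fintype.card_prod, Fintype.card_fin, Fintype.card_bool] at hπ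
  have h1 : (bad L f a b σ π s m).card ≤ Z.card := by
    refine le_trans (card_le_card ?_) (card_image_le (f := Prod.fst))
    intro i hi
    simp only [bad, mem_filter, Gd, G1, not_and_or, not_forall, not_le] at hi
    rw [mem_image]
    rcases hi.2 with ⟨j, hj⟩ | ⟨j, hj⟩
    · exact ⟨(i, j, false), hZ _ (by simp [hi.1]) (by simpa using hj), rfl⟩
    · exact ⟨(i, j, true), hZ _ (by simp [hi.1]) (by simpa using hj), rfl⟩
  have h2 : (2 * k) * (g ^ 2 * (bad L f a b σ π s m).card) ≤ (2 * k) * 2 ^ s := by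
    calc _ = (bad L f a b σ π s m).card * (2 * k * g ^ 2) := by ring
      _ ≤ Z.card * 2 ^ r := Nat.mul_le_mul h1 hg
      _ ≤ 2 ^ s * (k * 2) := hπ
      _ = _ := by ring
  exact Nat.le_of_mul_le_mul_left h2 (by omega)

lemma finP_of {L L' : ℕ × Fin k → Finset ℕ} {f : ℕ → Q} {a b g s m : ℕ} {σ π : ℕ → Q}
    {D2 : Finset ℕ} (h0 : g * (bad L f a b σ π s m).card ≤ 2 ^ s) (h1 : g * D2.card ≤ 2 ^ s)
    (h2 : ∀ i ∈ cell s m, i ∉ D2 → G1 L f a π i → Conf L' f π i) : FinP L' f g s m := by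
  refine ⟨π, D2 ∪ bad L f a b σ π s m, ?_, ?_⟩
  · have := Nat.mul_le_mul_left g (card_union_le D2 (bad L f a b σ π s m))
    rw [mul_add] at this
    omega
  · intro i hi hx
    simp only [mem_union, not_or, bad, mem_filter, not_and, not_not] at hx
    exact h2 i hi hx.1 (hx.2 hi).1

lemma concl_zero (L : ℕ × Fin k → Finset ℕ) (f : ℕ → Q) (a b g m : ℕ) (hg : 2 ≤ g) (σ π : ℕ → Q)
    (h : g * (bad L f a b σ π 0 m).card ≤ 2 ^ 0) : Concl L f a b g 0 m σ π := by
  have hb : bad L f a b σ π 0 m = ∅ := by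
    rw [← card_eq_zero]
    by_contra c
    have : 1 ≤ (bad L f a b σ π 0 m).card := by omega
    nlinarith
  have hG : ∀ i ∈ cell 0 m, Gd L f a b σ π i := by
    intro i hi
    by_contra c
    have : i ∈ bad L f a b σ π 0 m := mem_filter.2 ⟨hi, c⟩
    simp [hb] at this
  have c2 : ∀ i ∈ cell 0 m, i ∉ (∅ : Finset ℕ) → G1 L f a π i →
      Conf (fun v => (base L f a σ v.1 v.2).filter (fun c => π c = f v.1)) f π i := by
    intro i _ _ _ j c hc
    exact (mem_filter.1 hc).2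
  refine ⟨fun v => (base L f a σ v.1 v.2).filter (fun c => π c = f v.1), ∅, ∅, ?_, ?_, by simp,
    by simp, ?_, c2, ?_⟩
  · intro v
    refine (filter_subset _ _).trans ?_
    unfold base
    split_ifs
    · exact filter_subset _ _
    · exact Subset.refl _
  · intro i hi j
    exact (hG i hi).2 j
  · intro i _ _ h1 j c hc
    have := (mem_filter.1 hc).1
    simp only [base, if_pos h1] at this
    exact (mem_filter.1 this).2
  · intro s' t m' e1 e2
    obtain ⟨rfl, rfl⟩ : s' = 0 ∧ t = 0 := by omega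
    simp only [pow_zero, Nat.div_one] at e2
    subst e2
    exact finP_of h (by simp) c2

lemma concl_succ (L : ℕ × Fin k → Finset ℕ) (f : ℕ → Q) (a b g s m : ℕ) (σ π : ℕ → Q)
    (h : g * (bad L f a b σ π (s + 1) m).card ≤ 2 ^ (s + 1))
    (h1 : Concl L f a b g s (2 * m) σ π) (h2 : Concl L f a b g s (2 * m + 1) σ π) :
    Concl L f a b g (s + 1) m σ π := by
  obtain ⟨L1, A1, A2, a1, a2, a3, a4, a5, a6, a7⟩ := h1
  obtain ⟨L2, B1, B2, b1, b2, b3, b4, b5, b6, b7⟩ := h2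
  set L' : ℕ × Fin k → Finset ℕ := fun v => if v.1 / 2 ^ s = 2 * m then L1 v else L2 v with hL'
  have cA : ∀ i ∈ cell s (2 * m), ∀ j, L' (i, j) = L1 (i, j) := by
    intro i hi j; simp [hL', mem_cell.1 hi]
  have cB : ∀ i ∈ cell s (2 * m + 1), ∀ j, L' (i, j) = L2 (i, j) := by
    intro i hi j; simp [hL', mem_cell.1 hi]
  have fA : ∀ i ∈ cell s (2 * m), ∀ ρ, Conf L1 f ρ i → Conf L' f ρ i := by
    intro i hi ρ hc j; rw [cA i hi]; exact hc j
  have fB : ∀ i ∈ cell s (2 * m + 1), ∀ ρ, Conf L2 f ρ i → Conf L' f ρ i := by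
    intro i hi ρ hc j; rw [cB i hi]; exact hc j
  have split : ∀ i, i ∈ cell (s + 1) m ↔ i ∈ cell s (2 * m) ∨ i ∈ cell s (2 * m + 1) := by
    intro i
    simp only [mem_cell, div_succ]
    omega
  have hb : (bad L f a b σ π s (2 * m)).card + (bad L f a b σ π s (2 * m + 1)).card
      ≤ (bad L f a b σ π (s + 1) m).card := by
    rw [← card_union_of_disjoint]
    · apply card_le_card
      intro i hi
      simp only [bad, mem_union, mem_filter, split] at hi ⊢
      tauto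
    · rw [disjoint_left]
      intro i h1 h2
      have := mem_cell.1 (mem_filter.1 h1).1
      have := mem_cell.1 (mem_filter.1 h2).1
      omega
  have d2 : g * (A2 ∪ B2).card ≤ 2 ^ (s + 1) := by
    have := Nat.mul_le_mul_left g (card_union_le A2 B2)
    rw [mul_add] at this
    rw [pow_succ]
    omega
  have c2 : ∀ i ∈ cell (s + 1) m, i ∉ A2 ∪ B2 → G1 L f a π i → Conf L' f π i := by
    intro i hi hx hG
    rw [mem_union, not_or] at hx
    rcases (split i).1 hi with c | c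
    · exact fA i c _ (a6 i c hx.1 hG)
    · exact fB i c _ (b6 i c hx.2 hG)
  refine ⟨L', A1 ∪ B1, A2 ∪ B2, ?_, ?_, ?_, d2, ?_, c2, ?_⟩
  · intro v
    simp only [hL']
    split_ifs
    · exact a1 v
    · exact b1 v
  · intro i hi j
    rcases (split i).1 hi with c | c
    · rw [cA i c]; exact a2 i c j
    · rw [cB i c]; exact b2 i c j
  · have := Nat.mul_le_mul_left g hb
    rw [mul_add] at this
    have := card_union_le A1 B1
    omega
  · intro i hi hx hG
    rw [mem_union, not_or] at hx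
    rcases (split i).1 hi with c | c
    · exact fA i c _ (a5 i c hx.1 hG)
    · exact fB i c _ (b5 i c hx.2 hG)
  · intro s' t m' e1 e2
    cases t with
    | zero =>
      simp only [pow_zero, Nat.div_one, add_zero] at e1 e2
      subst e1 e2
      exact finP_of h d2 c2
    | succ t =>
      have e3 : s' + t = s := by omega
      rw [div_succ] at e2
      have sub : ∀ i ∈ cell s' m', i / 2 ^ s = m' / 2 ^ t := by
        intro i hi
        rw [← mem_cell.1 hi, Nat.div_div_eq_div_mul, ← pow_add, e3]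
      rcases (by omega : m' / 2 ^ t = 2 * m ∨ m' / 2 ^ t = 2 * m + 1) with c | c
      · obtain ⟨ρ, X, x1, x2⟩ := a7 s' t m' e3 c
        exact ⟨ρ, X, x1, fun i hi hx => fA i (mem_cell.2 ((sub i hi).trans c)) _ (x2 i hi hx)⟩
      · obtain ⟨ρ, X, x1, x2⟩ := b7 s' t m' e3 c
        exact ⟨ρ, X, x1, fun i hi hx => fB i (mem_cell.2 ((sub i hi).trans c)) _ (x2 i hi hx)⟩

lemma concl_all (L : ℕ × Fin k → Finset ℕ) (f : ℕ → Q) (b r g : ℕ) (hk : 0 < k) (hg2 : 2 ≤ g)
    (hL : ∀ v, 2 * Fintype.card Q * (2 * Fintype.card Q * (b + r) + r) ≤ (L v).card)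
    (hg : 2 * k * g ^ 2 ≤ 2 ^ r) :
    ∀ s m σ π, Concl L f (2 * Fintype.card Q * (b + r)) b g s m σ π := by
  set a := 2 * Fintype.card Q * (b + r) with ha
  have up : ∀ s, (∀ m σ π, g * (bad L f a b σ π s m).card ≤ 2 ^ s → Concl L f a b g s m σ π) →
      ∀ m σ π, Concl L f a b g s m σ π := by
    intro s H m σ π
    by_cases h : g * (bad L f a b σ π s m).card ≤ 2 ^ s
    · exact H m σ π h
    obtain ⟨π', hπ'⟩ := refresh_cell L f b r g hk hL hg π s m
    rw [← ha] at hπ'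
    obtain ⟨L1, A1, A2, a1, a2, a3, a4, a5, a6, a7⟩ := H m π π' (by
      refine le_trans (Nat.mul_le_mul_right _ ?_) hπ'
      nlinarith)
    refine ⟨L1, cell s m, A1, a1, a2, ?_, ?_, fun i hi hx => absurd hi hx, a5, a7⟩
    · rw [card_cell]; omega
    · refine le_trans (Nat.mul_le_mul_left g a3) ?_
      rw [← mul_assoc, ← pow_two]
      exact hπ'
  intro s
  induction s with
  | zero => exact up 0 (fun m σ π h => concl_zero L f a b g m hg2 σ π h)
  | succ s ih => exact up (s + 1) (fun m σ π h => concl_succ L f a b g s m σ π h (ih _ _ _) (ih _ _ _))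

/-- sublists such that in every dyadic cell most layers agree with one class map -/
theorem sublists (L : ℕ × Fin k → Finset ℕ) (f : ℕ → Q) (b r g n : ℕ) (hk : 0 < k) (hg2 : 2 ≤ g)
    (hL : ∀ v, 2 * Fintype.card Q * (2 * Fintype.card Q * (b + r) + r) ≤ (L v).card)
    (hg : 2 * k * g ^ 2 ≤ 2 ^ r) :
    ∃ L' : ℕ × Fin k → Finset ℕ, (∀ v, L' v ⊆ L v) ∧ (∀ v, b ≤ (L' v).card) ∧
      ∀ s m, s ≤ n → (m + 1) * 2 ^ s ≤ 2 ^ n → FinP L' f g s m := by
  obtain ⟨L1, A1, A2, a1, a2, a3, a4, a5, a6, a7⟩ := concl_all L f b r g hk hg2 hL hg n 0 f f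
  have hq0 : 0 < Fintype.card Q := Fintype.card_pos_iff.2 ⟨f 0⟩
  refine ⟨fun v => if v.1 < 2 ^ n then L1 v else L v, ?_, ?_, ?_⟩
  · intro v
    dsimp only
    split_ifs
    · exact a1 v
    · exact Subset.refl _
  · intro v
    dsimp only
    split_ifs with h
    · exact a2 v.1 (mem_cell.2 (Nat.div_eq_of_lt h)) v.2
    · refine le_trans ?_ (hL v)
      have : b ≤ 2 * Fintype.card Q * (b + r) + r := by nlinarith
      nlinarith
  · intro s m hs hm
    obtain ⟨t, rfl⟩ := Nat.exists_eq_add_of_le hs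
    have : m + 1 ≤ 2 ^ t := by
      rw [pow_add, mul_comm (2 ^ s)] at hm
      exact Nat.le_of_mul_le_mul_right hm (by positivity)
    obtain ⟨ρ, X, x1, x2⟩ := a7 s t m rfl (Nat.div_eq_of_lt this)
    refine ⟨ρ, X, x1, fun i hi hx j => ?_⟩
    have : i < 2 ^ (s + t) := lt_of_lt_of_le (mem_Ico.1 hi).2 hm
    simp only [this, if_true]
    exact x2 i hi hx j

end Pool.Agent.H12.NR
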