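import Pool.Agent.H12.NR1
import Pool.Agent.H12.NR3

set_option autoImplicit false

namespace Pool.Agent.H12.NR

open Finset Classical

lemma walk (a b : ℕ → ℕ) (T : ℕ) (Y : Finset ℕ) (P : ℕ × ℕ → Prop)
    (ha : ∀ i, i < T → a (i + 1) ≤ a i + 1 ∧ a i ≤ a (i + 1) + 1)
    (hb : ∀ i, i < T → b (i + 1) ≤ b i + 1 ∧ b i ≤ b (i + 1) + 1)
    (hP : ∀ i, i ≤ T → i ∉ Y → a i % 3 = b i % 3 ∧ P (a i, b i)) :
    ∃ M : Finset (ℕ × ℕ), Chain M ∧ (∀ p ∈ M, P p) ∧ a T + 1 ≤ a 0 + M.card + 5 * Y.card := by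
  have inv : ∀ i, i ≤ T → ∃ M : Finset (ℕ × ℕ), ∃ A B : ℕ, Chain M ∧
      (∀ p ∈ M, P p ∧ p.1 ≤ A ∧ p.2 ≤ B) ∧ a i ≤ A ∧ b i ≤ B ∧
      A + 1 + (if i ∈ Y then 2 else 0) ≤ a 0 + M.card + 5 * (Y.filter (· ≤ i)).card ∧
      B + a i + 1 + (if i ∈ Y then 2 else 0)
        ≤ a 0 + b i + M.card + 5 * (Y.filter (· ≤ i)).card := by
    intro i
    induction i with
    | zero =>
      intro _
      by_cases h : 0 ∈ Y
      · have : 0 < (Y.filter (· ≤ 0)).card := card_pos.2 ⟨0, by simp [h]⟩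
        refine ⟨∅, a 0, b 0, by simp [Chain], by simp, le_rfl, le_rfl, ?_, ?_⟩ <;>
          simp only [h, if_true, card_empty] <;> omega
      · refine ⟨{(a 0, b 0)}, a 0, b 0, by simp [Chain], ?_, le_rfl, le_rfl, ?_, ?_⟩
        · simpa using (hP 0 (by omega) h).2
        · simp only [h, if_false, card_singleton]; omega
        · simp only [h, if_false, card_singleton]; omega
    | succ i ih =>
      intro hi
      obtain ⟨M, A, B, m1, m2, m3, m4, m5, m6⟩ := ih (by omega)
      have h1 := ha i (by omega)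
      have h2 := hb i (by omega)
      by_cases hY : i + 1 ∈ Y
      · have e : (Y.filter (· ≤ i + 1)).card = (Y.filter (· ≤ i)).card + 1 := by
          rw [← card_insert_of_notMem (a := i + 1) (by simp)]
          congr 1
          ext x
          simp only [mem_filter, mem_insert]
          constructor
          · rintro ⟨x1, x2⟩
            by_cases c : x = i + 1
            · exact Or.inl c
            · exact Or.inr ⟨x1, by omega⟩
          · rintro (rfl | ⟨x1, x2⟩)
            · exact ⟨hY, le_rfl⟩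
            · exact ⟨x1, by omega⟩
        refine ⟨M, max A (a (i + 1)), max B (b (i + 1)), m1, ?_, by omega, by omega, ?_, ?_⟩
        · intro p hp
          have := m2 p hp
          exact ⟨this.1, by omega, by omega⟩
        · rw [e, if_pos hY]; split_ifs at m5 m6 <;> omega
        · rw [e, if_pos hY]; split_ifs at m5 m6 <;> omega
      · have e : (Y.filter (· ≤ i + 1)).card = (Y.filter (· ≤ i)).card := by
          congr 1
          apply filter_congr
          intro x hx
          have : x ≠ i + 1 := fun c => hY (c ▸ hx)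
          omega
        have h3 := hP (i + 1) hi hY
        by_cases hr : A < a (i + 1) ∧ B < b (i + 1)
        · have nm : (a (i + 1), b (i + 1)) ∉ M := fun c => by
            have := (m2 _ c).2.1
            simp only at this
            omega
          refine ⟨insert (a (i + 1), b (i + 1)) M, a (i + 1), b (i + 1), ?_, ?_, le_rfl, le_rfl,
            ?_, ?_⟩
          · intro p hp r hr'
            rcases mem_insert.1 hp with rfl | hp <;> rcases mem_insert.1 hr' with rfl | hr'
            · exact Or.inl rfl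
            · have := (m2 r hr').2
              right; right; simp only; omega
            · have := (m2 p hp).2
              right; left; simp only; omega
            · exact m1 p hp r hr'
          · intro p hp
            rcases mem_insert.1 hp with rfl | hp
            · exact ⟨h3.2, le_rfl, le_rfl⟩
            · have := m2 p hp
              exact ⟨this.1, by omega, by omega⟩
          · rw [e, if_neg hY, card_insert_of_notMem nm]; split_ifs at m5 m6 <;> omega
          · rw [e, if_neg hY, card_insert_of_notMem nm]; split_ifs at m5 m6 <;> omega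
        · refine ⟨M, max A (a (i + 1)), max B (b (i + 1)), m1, ?_, by omega, by omega, ?_, ?_⟩
          · intro p hp
            have := m2 p hp
            exact ⟨this.1, by omega, by omega⟩
          · rw [e, if_neg hY]
            by_cases c : i ∈ Y
            · rw [if_pos c] at m5 m6; omega
            · have := (hP i (by omega) c).1
              rw [if_neg c] at m5 m6; omega
          · rw [e, if_neg hY]
            by_cases c : i ∈ Y
            · rw [if_pos c] at m5 m6; omega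
            · have := (hP i (by omega) c).1
              rw [if_neg c] at m5 m6; omega
  obtain ⟨M, A, B, m1, m2, m3, m4, m5, m6⟩ := inv T le_rfl
  refine ⟨M, m1, fun p hp => (m2 p hp).1, ?_⟩
  have := card_filter_le Y (· ≤ T)
  omega

lemma walk2 (a b : ℕ → ℕ) (n : ℕ) (Y : Finset ℕ) (P : ℕ × ℕ → Prop)
    (ha : ∀ i, i + 1 < n → a (i + 1) ≤ a i + 1 ∧ a i ≤ a (i + 1) + 1)
    (hb : ∀ i, i + 1 < n → b (i + 1) ≤ b i + 1 ∧ b i ≤ b (i + 1) + 1)
    (hP : ∀ i, i < n → i ∉ Y → a i % 3 = b i % 3 ∧ P (a i, b i)) (x y : ℕ) (hx : x < n)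
    (hy : y < n) :
    ∃ M : Finset (ℕ × ℕ), Chain M ∧ (∀ p ∈ M, P p) ∧ a y + 1 ≤ a x + M.card + 5 * Y.card := by
  rcases le_total x y with h | h
  · obtain ⟨M, m1, m2, m3⟩ := walk (fun i => a (x + i)) (fun i => b (x + i)) (y - x)
      (Y.image (· - x)) P (fun i hi => ha (x + i) (by omega)) (fun i hi => hb (x + i) (by omega))
      (fun i hi hY => hP (x + i) (by omega) (fun c => hY (mem_image.2 ⟨_, c, by omega⟩)))
    refine ⟨M, m1, m2, ?_⟩
    have := card_image_le (s := Y) (f := (· - x))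
    simp only [Nat.add_sub_cancel' h, add_zero] at m3
    omega
  · obtain ⟨M, m1, m2, m3⟩ := walk (fun i => a (x - i)) (fun i => b (x - i)) (x - y)
      (Y.image (x - ·)) P
      (fun i hi => by
        have := ha (x - (i + 1)) (by omega)
        rw [show x - (i + 1) + 1 = x - i by omega] at this
        exact ⟨this.2.trans' (by omega) |>.trans le_rfl, this.1⟩)
      (fun i hi => by
        have := hb (x - (i + 1)) (by omega)
        rw [show x - (i + 1) + 1 = x - i by omega] at this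
        exact ⟨this.2.trans' (by omega) |>.trans le_rfl, this.1⟩)
      (fun i hi hY => hP (x - i) (by omega) (fun c => hY (mem_image.2 ⟨_, c, by omega⟩)))
    refine ⟨M, m1, m2, ?_⟩
    have := card_image_le (s := Y) (f := (x - ·))
    simp only [Nat.sub_sub_self h, Nat.sub_zero] at m3
    omega

lemma core {Q : Type} (u : ℕ → Q) (N lo l : ℕ) (hu : Good N u) (hl : lo + l ≤ N)
    (a b : ℕ → ℕ) (n : ℕ) (Y : Finset ℕ)
    (ha : ∀ i, i + 1 < n → a (i + 1) ≤ a i + 1 ∧ a i ≤ a (i + 1) + 1)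
    (hb : ∀ i, i + 1 < n → b (i + 1) ≤ b i + 1 ∧ b i ≤ b (i + 1) + 1)
    (hP : ∀ i, i < n → i ∉ Y → a i % 3 = b i % 3 ∧ a i ≠ b i ∧ u (a i) = u (b i) ∧
      lo ≤ a i ∧ a i < lo + l ∧ lo ≤ b i ∧ b i < lo + l) (x y : ℕ) (hx : x < n) (hy : y < n) :
    3 * a y + 3 ≤ 3 * a x + l + 15 * Y.card := by
  obtain ⟨M, m1, m2, m3⟩ := walk2 a b n Y (fun p => p.1 ≠ p.2 ∧ u p.1 = u p.2 ∧
      lo ≤ p.1 ∧ p.1 < lo + l ∧ lo ≤ p.2 ∧ p.2 < lo + l) ha hb hP x y hx hy
  have h1 := hu lo l (M.filter (fun p => p.1 < p.2)) hl (m1.sub (filter_subset _ _)) (by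
    intro p hp
    obtain ⟨p1, p2⟩ := mem_filter.1 hp
    have := m2 p p1
    tauto)
  have h2 := hu lo l ((M.filter (fun p => ¬ p.1 < p.2)).image Prod.swap) hl (by
    intro p hp r hr
    obtain ⟨p', hp', rfl⟩ := mem_image.1 hp
    obtain ⟨r', hr', rfl⟩ := mem_image.1 hr
    rcases m1 p' (mem_filter.1 hp').1 r' (mem_filter.1 hr').1 with c | c | c
    · exact Or.inl (by rw [c])
    · exact Or.inr (Or.inl ⟨c.2, c.1⟩)
    · exact Or.inr (Or.inr ⟨c.2, c.1⟩)) (by
    intro p hp
    obtain ⟨p', hp', rfl⟩ := mem_image.1 hp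
    obtain ⟨p1, p2⟩ := mem_filter.1 hp'
    obtain ⟨c1, c2, c3⟩ := m2 p' p1
    simp only [Prod.fst_swap, Prod.snd_swap]
    exact ⟨by omega, by omega, by omega, c2.symm⟩)
  rw [card_image_of_injective _ Prod.swap_injective] at h2
  have := card_filter_add_card_filter_not (s := M) (fun p => p.1 < p.2)
  omega

lemma third (lo hi s n : ℕ) (h0 : lo ≤ hi) (h1 : 3 * (hi - lo + 1) + 2 ≤ 2 ^ s) (hs : s ≤ n) :
    lo / 2 ^ s = hi / 2 ^ s ∨ (lo + 2 ^ n / 3) / 2 ^ s = (hi + 2 ^ n / 3) / 2 ^ s := by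
  by_contra hc
  rw [not_or] at hc
  obtain ⟨e, rfl⟩ := Nat.exists_eq_add_of_le hs
  have hE : ¬ 3 ∣ 2 ^ e := fun c => by
    have := Nat.Prime.dvd_of_dvd_pow Nat.prime_three c
    omega
  rw [pow_add] at hc
  generalize 2 ^ e = E at *
  generalize 2 ^ s = D at *
  have hD : 0 < D := by omega
  have key : ∀ x y : ℕ, x ≤ y → x / D ≠ y / D → x < y / D * D ∧ y / D * D ≤ y := by
    intro x y hxy hne
    refine ⟨?_, Nat.div_mul_le_self _ _⟩
    have : x / D < y / D := lt_of_le_of_ne (Nat.div_le_div_right hxy) hne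
    exact (Nat.div_lt_iff_lt_mul hD).1 this
  have k1 := key _ _ h0 hc.1
  have k2 := key _ _ (by omega) hc.2
  generalize hi / D = x at *
  generalize (hi + D * E / 3) / D = y at *
  rcases (by omega : 3 * x + E + 1 ≤ 3 * y ∨ 3 * y + 1 ≤ 3 * x + E) with c | c
  · have := Nat.mul_le_mul_right D c
    have e1 : (3 * x + E + 1) * D = 3 * (x * D) + D * E + D := by ring
    have e2 : 3 * y * D = 3 * (y * D) := by ring
    omega
  · have := Nat.mul_le_mul_right D c
    have e1 : (3 * x + E) * D = 3 * (x * D) + D * E := by ring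
    have e2 : (3 * y + 1) * D = 3 * (y * D) + D := by ring
    omega

/-- sublists such that in every interval most layers agree with one class map -/
lemma sublists2 {Q : Type} [Fintype Q] [DecidableEq Q] {k : ℕ} (L : ℕ × Fin k → Finset ℕ)
    (f : ℕ → Q) (b r g N : ℕ) (hk : 0 < k) (hg2 : 2 ≤ g)
    (hL : ∀ v, 2 * Fintype.card Q * (2 * Fintype.card Q *
      (2 * Fintype.card Q * (2 * Fintype.card Q * (b + r) + r) + r) + r) ≤ (L v).card)
    (hg : 2 * k * g ^ 2 ≤ 2 ^ r) :
    ∃ L' : ℕ × Fin k → Finset ℕ, (∀ v, L' v ⊆ L v) ∧ (∀ v, b ≤ (L' v).card) ∧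
      ∀ lo hi, lo ≤ hi → hi < N → ∃ π : ℕ → Q, ∃ X : Finset ℕ, g * X.card ≤ 20 * (hi - lo + 1) ∧
        ∀ i, lo ≤ i → i ≤ hi → i ∉ X → Conf L' f π i := by
  set n := 10 * N with hn
  have hN : 10 * N ≤ 2 ^ n := Nat.lt_two_pow_self.le
  set t := 2 ^ n / 3 with ht
  obtain ⟨L1, a1, a2, a3⟩ := sublists L f _ r g (n + 1) hk hg2 hL hg
  obtain ⟨L2, b1, b2, b3⟩ := sublists (fun v => L1 (v.1 - t, v.2)) (fun i => f (i - t)) b r g
    (n + 1) hk hg2 (fun v => a2 _) hg
  have sub : ∀ i j, L2 (i + t, j) ⊆ L1 (i, j) := by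
    intro i j
    simpa using b1 (i + t, j)
  refine ⟨fun v => L2 (v.1 + t, v.2), fun v => (sub _ _).trans (a1 v), fun v => b2 _, ?_⟩
  intro lo hi h0 h1
  set s := Nat.log 2 (3 * (hi - lo + 1) + 2) + 1 with hs
  have s1 : 3 * (hi - lo + 1) + 2 < 2 ^ s := Nat.lt_pow_succ_log_self (by norm_num) _
  have s2 : 2 ^ s ≤ 10 * (hi - lo + 1) := by
    have := Nat.pow_log_le_self 2 (x := 3 * (hi - lo + 1) + 2) (by omega)
    rw [hs, pow_succ]
    omega
  have s3 : 2 ^ s ≤ 2 ^ n := by omega
  have s4 : s ≤ n := (Nat.pow_le_pow_iff_right (by norm_num)).1 s3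
  have fit : ∀ p, p ≤ 2 ^ n → (p / 2 ^ s + 1) * 2 ^ s ≤ 2 ^ (n + 1) := by
    intro p hp
    have := Nat.div_mul_le_self p (2 ^ s)
    rw [add_mul, pow_succ 2 n]
    omega
  have mid : ∀ x y z : ℕ, x ≤ z → z ≤ y → x / 2 ^ s = y / 2 ^ s → z ∈ cell s (y / 2 ^ s) := by
    intro x y z c1 c2 c3
    rw [mem_cell]
    have := Nat.div_le_div_right (c := 2 ^ s) c1
    have := Nat.div_le_div_right (c := 2 ^ s) c2
    omega
  rcases third lo hi s n h0 s1.le s4 with c | c
  · obtain ⟨π, X, x1, x2⟩ := a3 s (hi / 2 ^ s) (by omega) (fit hi (by omega))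
    refine ⟨π, X, by omega, fun i i1 i2 hx j c' hc' => ?_⟩
    exact x2 i (mid lo hi i i1 i2 c) hx j c' (sub _ _ hc')
  · obtain ⟨π, X, x1, x2⟩ := b3 s ((hi + t) / 2 ^ s) (by omega) (fit _ (by omega))
    refine ⟨π, X.image (· - t), ?_, fun i i1 i2 hx j c' hc' => ?_⟩
    · have := Nat.mul_le_mul_left g (card_image_le (s := X) (f := (· - t)))
      omega
    · have := x2 (i + t) (mid (lo + t) (hi + t) (i + t) (by omega) (by omega) c)
        (fun z => hx (mem_image.2 ⟨_, z, by omega⟩)) j c' hc'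
      simpa using this

end Pool.Agent.H12.NR
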