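import Pool.Agent.H12.NR4

set_option autoImplicit false

namespace Pool.Agent.H12.NR

open Finset Classical

/-- the constant -/
def cc (q : ℕ) : ℕ := 2 * q * (2 * q * (2 * q * (2 * q * 27 + 26) + 26) + 26)

theorem finite_case (q0 : ℕ) (hq0 : 16 ^ 6 ≤ q0) (k : ℕ) (hk : 0 < k) (L : ℕ × Fin k → Finset ℕ)
    (hL : ∀ v, cc (3 * q0) * k ≤ (L v).card) (N : ℕ) :
    ∃ f : ℕ × Fin k → ℕ, (∀ v, f v ∈ L v) ∧
      ∀ n : ℕ, 0 < n → ∀ v : ℕ → ℕ × Fin k, (∀ i, i < 2 * n → (v i).1 < N) →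
        (∀ i j, i < 2 * n → j < 2 * n → v i = v j → i = j) →
        (∀ i, i + 1 < 2 * n → (v (i + 1)).1 ≤ (v i).1 + 1 ∧ (v i).1 ≤ (v (i + 1)).1 + 1) →
        ¬ (∀ i, i < n → f (v i) = f (v (i + n))) := by
  have hq1 : 0 < q0 := lt_of_lt_of_le (by norm_num) hq0
  obtain ⟨u, hu⟩ := exists_good (Q := Fin q0) ⟨0, hq1⟩ N (by simpa using hq0)
  have hc : Fintype.card (Fin 3 × Fin q0) = 3 * q0 := by simp
  obtain ⟨L', l1, l2, l3⟩ := sublists2 (Q := Fin 3 × Fin q0) L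
    (fun i => (⟨i % 3, Nat.mod_lt _ (by norm_num)⟩, u i)) k (26 * k) (2000 * k) N hk (by omega)
    (fun v => by
      rw [hc]
      refine le_trans (le_of_eq ?_) (hL v)
      unfold cc
      ring)
    (by
      have h1 : k ≤ 2 ^ k := Nat.lt_two_pow_self.le
      have h2 : 2 ^ 23 ≤ 2 ^ (23 * k) := Nat.pow_le_pow_right (by norm_num) (by omega)
      have h3 : k ^ 3 ≤ (2 ^ k) ^ 3 := Nat.pow_le_pow_left h1 3
      calc 2 * k * (2000 * k) ^ 2 = 8000000 * k ^ 3 := by ring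
        _ ≤ 2 ^ (23 * k) * (2 ^ k) ^ 3 := Nat.mul_le_mul (le_trans (by norm_num) h2) h3
        _ = 2 ^ (26 * k) := by rw [← pow_mul, ← pow_add]; congr 1; ring)
  have hall : ∀ i, ∃ φ : Fin k → ℕ, Function.Injective φ ∧ ∀ j, φ j ∈ L' (i, j) := by
    intro i
    apply (Finset.all_card_le_biUnion_card_iff_exists_injective (fun j => L' (i, j))).1
    intro s
    rcases s.eq_empty_or_nonempty with rfl | ⟨j, hj⟩
    · simp
    · calc s.card ≤ k := by simpa using card_le_univ s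
        _ ≤ (L' (i, j)).card := l2 _
        _ ≤ _ := card_le_card (subset_biUnion_of_mem (fun j => L' (i, j)) hj)
  choose φ φ1 φ2 using hall
  refine ⟨fun v => φ v.1 v.2, fun v => l1 v (φ2 v.1 v.2), ?_⟩
  intro n hn v hN hinj hadj hrep
  have ne : (range n).Nonempty := ⟨0, mem_range.2 hn⟩
  obtain ⟨x1, hx1, mx1⟩ := exists_min_image (range n) (fun i => (v i).1) ne
  obtain ⟨y1, hy1, my1⟩ := exists_max_image (range n) (fun i => (v i).1) ne
  obtain ⟨x2, hx2, mx2⟩ := exists_min_image (range n) (fun i => (v (i + n)).1) ne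
  obtain ⟨y2, hy2, my2⟩ := exists_max_image (range n) (fun i => (v (i + n)).1) ne
  simp only [mem_range] at hx1 hy1 hx2 hy2 mx1 my1 mx2 my2
  have n1 := hN y1 (by omega)
  have n2 := hN (y2 + n) (by omega)
  have j0 := hadj (n - 1) (by omega)
  rw [show n - 1 + 1 = 0 + n by omega] at j0
  have j1 := mx1 (n - 1) (by omega)
  have j2 := my1 (n - 1) (by omega)
  have j3 := mx2 0 hn
  have j4 := my2 0 hn
  obtain ⟨lo, hlo⟩ : ∃ lo, lo = min (v x1).1 (v (x2 + n)).1 := ⟨_, rfl⟩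
  obtain ⟨hi, hhi⟩ : ∃ hi, hi = max (v y1).1 (v (y2 + n)).1 := ⟨_, rfl⟩
  obtain ⟨π, X, X1, X2⟩ := l3 lo hi (by omega) (by omega)
  set Z := (range (2 * n)).filter (fun i => (v i).1 ∈ X) with hZ
  have cZ : Z.card ≤ X.card * k := by
    have : Z.card ≤ (X ×ˢ (univ : Finset (Fin k))).card := by
      apply card_le_card_of_injOn v
      · intro i hi
        simp only [hZ, coe_filter, mem_range, Set.mem_ofPred_eq] at hi
        simp [hi.2]
      · intro i hi j hj e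
        simp only [hZ, coe_filter, mem_range, Set.mem_ofPred_eq] at hi hj
        exact hinj i j hi.1 hj.1 e
    simpa using this
  set Y := Z ∪ Z.image (· - n) with hY
  have cY : Y.card ≤ 2 * Z.card := by
    have := card_union_le Z (Z.image (· - n))
    have := card_image_le (s := Z) (f := (· - n))
    rw [hY]
    omega
  have cY2 : 50 * Y.card ≤ hi - lo + 1 := by
    have : 2000 * k * X.card = 2000 * (X.card * k) := by ring
    omega
  have hP : ∀ i, i < n → i ∉ Y → (v i).1 % 3 = (v (i + n)).1 % 3 ∧ (v i).1 ≠ (v (i + n)).1 ∧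
      u (v i).1 = u (v (i + n)).1 ∧ lo ≤ (v i).1 ∧ (v i).1 < lo + (hi - lo + 1) ∧
      lo ≤ (v (i + n)).1 ∧ (v (i + n)).1 < lo + (hi - lo + 1) := by
    intro i hi' hiY
    have a1 := mx1 i hi'
    have a2 := my1 i hi'
    have a3 := mx2 i hi'
    have a4 := my2 i hi'
    rw [hY, mem_union, not_or] at hiY
    have b1 : (v i).1 ∉ X := fun c => hiY.1 (mem_filter.2 ⟨mem_range.2 (by omega), c⟩)
    have b2 : (v (i + n)).1 ∉ X := fun c => hiY.2
      (mem_image.2 ⟨i + n, mem_filter.2 ⟨mem_range.2 (by omega), c⟩, by omega⟩)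
    have c1 := X2 _ (by omega) (by omega) b1 _ _ (φ2 _ (v i).2)
    have c2 := X2 _ (by omega) (by omega) b2 _ _ (φ2 _ (v (i + n)).2)
    have r := hrep i hi'
    simp only at r
    rw [r, c2] at c1
    simp only [Prod.mk.injEq, Fin.mk.injEq] at c1
    refine ⟨c1.1.symm, ?_, c1.2.symm, by omega, by omega, by omega, by omega⟩
    intro e
    rw [← e] at r
    have := hinj i (i + n) (by omega) (by omega) (Prod.ext e (φ1 _ r))
    omega
  have w1 : ∀ i, i + 1 < n → (v (i + 1)).1 ≤ (v i).1 + 1 ∧ (v i).1 ≤ (v (i + 1)).1 + 1 :=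
    fun i hi => hadj i (by omega)
  have w2 : ∀ i, i + 1 < n →
      (v (i + 1 + n)).1 ≤ (v (i + n)).1 + 1 ∧ (v (i + n)).1 ≤ (v (i + 1 + n)).1 + 1 := by
    intro i hi
    have := hadj (i + n) (by omega)
    rwa [show i + n + 1 = i + 1 + n by omega] at this
  have r1 := core u N lo (hi - lo + 1) hu (by omega) (fun i => (v i).1) (fun i => (v (i + n)).1)
    n Y w1 w2 hP x1 y1 hx1 hy1
  have r2 := core u N lo (hi - lo + 1) hu (by omega) (fun i => (v (i + n)).1) (fun i => (v i).1)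
    n Y w2 w1 (fun i a b => by
      obtain ⟨c1, c2, c3, c4⟩ := hP i a b
      exact ⟨c1.symm, c2.symm, c3.symm, by omega⟩) x2 y2 hx2 hy2
  omega

theorem main : ∃ c : ℕ, ∀ k : ℕ, ∀ L : ℕ × Fin k → Finset ℕ, (∀ v, c * k ≤ (L v).card) →
    ∃ f : ℕ × Fin k → ℕ, (∀ v, f v ∈ L v) ∧
      ∀ n : ℕ, 0 < n → ∀ v : ℕ → ℕ × Fin k,
        (∀ i j, i < 2 * n → j < 2 * n → v i = v j → i = j) →
        (∀ i, i + 1 < 2 * n → (v (i + 1)).1 ≤ (v i).1 + 1 ∧ (v i).1 ≤ (v (i + 1)).1 + 1) →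
        ¬ (∀ i, i < n → f (v i) = f (v (i + n))) := by
  obtain ⟨q0, hq0⟩ : ∃ q0, 16 ^ 6 ≤ q0 := ⟨_, le_rfl⟩
  refine ⟨cc (3 * q0), fun k L hL => ?_⟩
  rcases Nat.eq_zero_or_pos k with rfl | hk
  · exact ⟨fun v => v.2.elim0, fun v => v.2.elim0, fun n _ v => (v 0).2.elim0⟩
  choose F F1 F2 using finite_case q0 hq0 k hk L hL
  let U : Ultrafilter ℕ := Ultrafilter.of Filter.atTop
  have hU : (U : Filter ℕ) ≤ Filter.atTop := Ultrafilter.of_le _
  have lim : ∀ v, ∃ c ∈ (L v : Set ℕ), ∀ᶠ N in (U : Filter ℕ), F N v = c := by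
    intro v
    rw [← Ultrafilter.eventually_exists_mem_iff (L v).finite_toSet]
    exact Filter.Eventually.of_forall (fun N => ⟨F N v, F1 N v, rfl⟩)
  choose f f1 f2 using lim
  refine ⟨f, f1, fun n hn v hinj hadj hrep => ?_⟩
  have : ∀ᶠ N in (U : Filter ℕ), ∀ i ∈ range (2 * n), (v i).1 < N ∧ F N (v i) = f (v i) := by
    rw [Filter.eventually_all_finset]
    intro i _
    exact ((Filter.eventually_gt_atTop _).filter_mono hU).and (f2 _)
  obtain ⟨N, hN⟩ := this.exists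
  apply F2 N n hn v (fun i hi => (hN i (mem_range.2 hi)).1) hinj hadj
  intro i hi
  rw [(hN i (mem_range.2 (by omega))).2, (hN (i + n) (mem_range.2 (by omega))).2]
  exact hrep i hi

end Pool.Agent.H12.NR
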