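import Mathlib

set_option autoImplicit false

namespace Pool.Agent.H12.NearChain

universe u

def Adm (G : Type u) [Group G] : Prop :=
  ∃ θ : Equiv.Perm G, ∃ b : G, ∀ y, (∃ x, x * θ x = y) ↔ y ≠ b

section Core

variable {G : Type u} [Group G] [Finite G]

omit [Finite G] in
theorem sq_inj (hodd : Odd (Nat.card G)) {x y : G} (h : x * x = y * y) : x = y := by
  have hc : (Nat.card G).Coprime 2 := by
    rw [Nat.coprime_two_right]; exact hodd
  apply (powCoprime hc).injective
  simp only [powCoprime_apply, pow_two, h]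

theorem core (hodd : Odd (Nat.card G)) {p : ℕ} (hp : Odd p) (φ : G → ZMod p)
    (hφ : ∀ x y, φ (x * y) = φ x + φ y) (D E : ZMod p → G) (hD : ∀ i, φ (D i) = i)
    (hE : ∀ i, φ (E i) = i) (i0 : ZMod p)
    (h1 : ∀ i, i ≠ i0 → E i * D (i + 2) = E (i + 1) * D (i + 1))
    (h2 : E i0 * D (i0 + 2) ≠ E (i0 + 1) * D (i0 + 1)) : Adm G := by
  classical
  have hφ1 : φ 1 = 0 := by
    have := hφ 1 1
    rw [mul_one] at this
    simpa using this
  have hφi : ∀ x, φ x⁻¹ = - φ x := by
    intro x
    have := hφ x x⁻¹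
    rw [mul_inv_cancel, hφ1] at this
    linear_combination -this
  have h2u : IsUnit (2 : ZMod p) := by
    have := (ZMod.isUnit_iff_coprime 2 p).2 (by rw [Nat.coprime_two_left]; exact hp)
    exact_mod_cast this
  let g : ZMod p → G := fun i => (E i)⁻¹ * D i
  have hg : ∀ i, φ (g i) = 0 := by
    intro i
    simp only [g, hφ, hφi, hD, hE]
    ring
  let ρ : ZMod p → G → G := fun k x => if x = E (φ x) then E (φ x + k) else x
  have hρE : ∀ k i, ρ k (E i) = E (i + k) := by
    intro k i
    simp only [ρ, hE, if_true]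
  have hρ : ∀ k x, ρ (-k) (ρ k x) = x := by
    intro k x
    by_cases h : x = E (φ x)
    · have : ρ k x = E (φ x + k) := by simp only [ρ]; rw [if_pos h]
      rw [this, hρE, add_neg_cancel_right, ← h]
    · have : ρ k x = x := by simp only [ρ]; rw [if_neg h]
      rw [this]
      simp only [ρ]; rw [if_neg h]
  have hρinj : ∀ k, Function.Injective (ρ k) := fun k => Function.LeftInverse.injective (hρ k)
  let θ1 : G → G := fun x => x * g (φ x)
  have hθ1 : Function.Injective θ1 := by
    intro x y h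
    have h3 : φ x = φ y := by
      have := congrArg φ h
      simpa only [θ1, hφ, hg, add_zero] using this
    simp only [θ1, h3] at h
    exact mul_right_cancel h
  let F0 : G → G := fun x => x * θ1 x
  have hF0 : Function.Injective F0 := by
    intro x y h
    have h3 : φ x = φ y := by
      have := congrArg φ h
      simp only [F0, θ1, hφ, hg, add_zero] at this
      apply h2u.mul_left_cancel
      linear_combination this
    simp only [F0, θ1, h3, ← mul_assoc] at h
    exact sq_inj hodd (mul_right_cancel h)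
  have hF : Function.Bijective (F0 ∘ ρ 1) :=
    Finite.injective_iff_bijective.1 (hF0.comp (hρinj 1))
  have hθE : ∀ i, θ1 (E i) = D i := by
    intro i
    simp only [θ1, g, hE, mul_inv_cancel_left]
  have key : ∀ x, x ≠ E i0 → x * θ1 (ρ 2 x) = F0 (ρ 1 x) := by
    intro x hx
    by_cases h : x = E (φ x)
    · obtain ⟨i, rfl⟩ : ∃ i, x = E i := ⟨_, h⟩
      simp only [F0]
      rw [hρE, hρE, hθE, hθE]
      exact h1 i (fun h => hx (by rw [h]))
    · have h3 : ∀ k, ρ k x = x := fun k => by simp only [ρ]; rw [if_neg h]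
      rw [h3, h3]
  have key2 : E i0 * θ1 (ρ 2 (E i0)) ≠ F0 (ρ 1 (E i0)) := by
    simp only [F0]
    rw [hρE, hρE, hθE, hθE]
    exact h2
  refine ⟨Equiv.ofBijective (θ1 ∘ ρ 2) (Finite.injective_iff_bijective.1 (hθ1.comp (hρinj 2))),
    F0 (ρ 1 (E i0)), ?_⟩
  intro y
  simp only [Equiv.ofBijective_apply, Function.comp_apply]
  constructor
  · rintro ⟨x, rfl⟩
    by_cases hx : x = E i0
    · rw [hx]; exact key2
    · rw [key x hx]
      exact fun h => hx (hF.1 h)
  · intro hy
    obtain ⟨x, rfl⟩ := hF.2 y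
    have hx : x ≠ E i0 := by
      rintro rfl
      exact hy rfl
    exact ⟨x, key x hx⟩

def seq {p : ℕ} (D : ZMod p → G) : ℕ → G
  | 0 => 1
  | m + 1 => seq D m * D (m + 2) * (D (m + 1))⁻¹

theorem of_seq (hodd : Odd (Nat.card G)) {p : ℕ} (hp : Odd p) (φ : G → ZMod p)
    (hφ : ∀ x y, φ (x * y) = φ x + φ y) (D : ZMod p → G) (hD : ∀ i, φ (D i) = i)
    (h : seq D p ≠ 1) : Adm G := by
  have hφ1 : φ 1 = 0 := by
    have := hφ 1 1
    rw [mul_one] at this
    simpa using this
  have hφi : ∀ x, φ x⁻¹ = - φ x := by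
    intro x
    have := hφ x x⁻¹
    rw [mul_inv_cancel, hφ1] at this
    linear_combination -this
  have hs : ∀ m : ℕ, φ (seq D m) = m := by
    intro m
    induction m with
    | zero => simp [seq, hφ1]
    | succ m ih =>
      simp only [seq, hφ, hφi, hD, ih]
      push_cast
      ring
  obtain ⟨r, rfl⟩ : ∃ r, p = r + 1 := ⟨p - 1, by have := hp.pos; omega⟩
  have hstep : ∀ i : ZMod (r + 1), seq D i.val * D (i + 2) = seq D (i.val + 1) * D (i + 1) := by
    intro i
    simp only [seq, ZMod.natCast_zmod_val, inv_mul_cancel_right]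
  refine core hodd hp φ hφ D (fun i => seq D i.val) hD
    (fun i => by rw [hs, ZMod.natCast_zmod_val]) (r : ZMod (r + 1)) ?_ ?_
  · intro i hi
    rw [hstep]
    have h1 : i.val < r + 1 := ZMod.val_lt i
    have h2 : i.val ≠ r := by
      intro h
      apply hi
      rw [← ZMod.natCast_zmod_val i, h]
    have h3 : (i + 1).val = i.val + 1 := by
      have : i + 1 = ((i.val + 1 : ℕ) : ZMod (r + 1)) := by
        push_cast
        rw [ZMod.natCast_zmod_val]
      rw [this, ZMod.val_natCast_of_lt (by omega)]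
    simp only [h3]
  · rw [hstep]
    have h1 : ((r : ℕ) : ZMod (r + 1)).val = r := ZMod.val_natCast_of_lt (by omega)
    have h2 : ((r : ℕ) : ZMod (r + 1)) + 1 = 0 := by
      have := ZMod.natCast_self (r + 1)
      push_cast at this
      exact this
    simp only [h1, h2, ZMod.val_zero]
    intro h3
    exact h (mul_right_cancel h3)

theorem of_hom (hodd : Odd (Nat.card G)) (hna : ∃ x y : G, x * y ≠ y * x) {p : ℕ} (hp : Odd p)
    (hp1 : 1 < p) (φ : G → ZMod p) (hφ : ∀ x y, φ (x * y) = φ x + φ y)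
    (hsurj : Function.Surjective φ) : Adm G := by
  classical
  have hφ1 : φ 1 = 0 := by
    have := hφ 1 1
    rw [mul_one] at this
    simpa using this
  have hφi : ∀ x, φ x⁻¹ = - φ x := by
    intro x
    have := hφ x x⁻¹
    rw [mul_inv_cancel, hφ1] at this
    linear_combination -this
  have hφp : ∀ x (n : ℕ), φ (x ^ n) = n * φ x := by
    intro x n
    induction n with
    | zero => simp [hφ1]
    | succ n ih => rw [pow_succ, hφ, ih]; push_cast; ring
  obtain ⟨r, rfl⟩ : ∃ r, p = r + 2 := ⟨p - 2, by omega⟩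
  have hr : 1 ≤ r := by
    obtain ⟨k, hk⟩ := hp
    omega
  have h2u : IsUnit (2 : ZMod (r + 2)) := by
    have := (ZMod.isUnit_iff_coprime 2 (r + 2)).2 (by rw [Nat.coprime_two_left]; exact hp)
    exact_mod_cast this
  obtain ⟨Y, a, hY, ha, hYa⟩ : ∃ Y a : G, φ Y = 2 ∧ φ a = 0 ∧ ¬ Commute a Y := by
    by_contra hn
    push Not at hn
    obtain ⟨Y, hY⟩ := hsurj 2
    have h1 : ∀ a b, φ a = 0 → φ b = 0 → Commute a b := by
      intro a b ha hb
      have h2 := hn (Y * b) a (by rw [hφ, hY, hb, add_zero]) ha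
      have h3 := (hn Y a hY ha).inv_right
      simpa using h3.mul_right h2
    have h4 : ∀ x, ∃ (j : ℕ) (a : G), φ a = 0 ∧ x = Y ^ j * a := by
      intro x
      obtain ⟨w, hw⟩ := h2u.exists_left_inv
      refine ⟨(φ x * w).val, (Y ^ (φ x * w).val)⁻¹ * x, ?_, by simp⟩
      rw [hφ, hφi, hφp, hY, ZMod.natCast_zmod_val, mul_assoc, hw]
      ring
    obtain ⟨x, y, hxy⟩ := hna
    obtain ⟨i, a, ha, rfl⟩ := h4 x
    obtain ⟨j, b, hb, rfl⟩ := h4 y
    apply hxy
    exact ((((Commute.refl Y).pow_pow i j).mul_right ((hn Y b hY hb).symm.pow_left i)).mul_left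
      (((hn Y a hY ha).pow_right j).mul_right (h1 a b ha hb))).eq
  choose σ hσ using hsurj
  let D : G → ZMod (r + 2) → G := fun c i => if i = 0 then c else if i = 1 then σ (-1) * Y else σ i
  have hD : ∀ c, φ c = 0 → ∀ i, φ (D c i) = i := by
    intro c hc i
    simp only [D]
    split_ifs with h1 h2
    · rw [hc, h1]
    · rw [hφ, hσ, hY, h2]; ring
    · exact hσ i
  have hne : ∀ m : ℕ, 0 < m → m < r + 2 → ((m : ℕ) : ZMod (r + 2)) ≠ 0 := by
    intro m h1 h2 h
    rw [ZMod.natCast_eq_zero_iff] at h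
    have := Nat.le_of_dvd h1 h
    omega
  have hsame : ∀ m, m ≤ r → seq (D a) m = seq (D 1) m := by
    intro m
    induction m with
    | zero => intro _; rfl
    | succ m ih =>
      intro hm
      have h1 := hne (m + 2) (by omega) (by omega)
      have h2 := hne (m + 1) (by omega) (by omega)
      push_cast at h1 h2
      simp only [seq, ih (by omega), D, if_neg h1, if_neg h2]
  have e0 : ((r : ℕ) : ZMod (r + 2)) + 2 = 0 := by
    have := ZMod.natCast_self (r + 2)
    push_cast at this
    exact this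
  have e1 : ((r : ℕ) : ZMod (r + 2)) + 1 = -1 := by linear_combination e0
  have n1 : (1 : ZMod (r + 2)) ≠ 0 := by simpa using hne 1 (by omega) (by omega)
  have n2 : (-1 : ZMod (r + 2)) ≠ 0 := neg_ne_zero.2 n1
  have n3 : (-1 : ZMod (r + 2)) ≠ 1 := by
    intro h
    have := hne 2 (by omega) (by omega)
    push_cast at this
    exact this (by linear_combination -h)
  have hfin : ∀ c, seq (D c) (r + 2) = seq (D c) r * (c * Y * c⁻¹) := by
    intro c
    have e2 : ((r + 1 : ℕ) : ZMod (r + 2)) + 2 = 1 := by push_cast; linear_combination e0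
    have e3 : ((r + 1 : ℕ) : ZMod (r + 2)) + 1 = 0 := by push_cast; linear_combination e0
    simp only [seq, e0, e1, e2, e3, D, if_true, if_neg n1, if_neg n2, if_neg n3]
    group
  by_cases h : seq (D a) (r + 2) = 1
  · apply of_seq hodd hp φ hφ (D 1) (hD 1 hφ1)
    intro h'
    rw [hfin] at h h'
    rw [hsame r le_rfl] at h
    have := mul_left_cancel (h.trans h'.symm)
    apply hYa
    rw [Commute, SemiconjBy, ← mul_inv_eq_iff_eq_mul, this]
    simp
  · exact of_seq hodd hp φ hφ (D a) (hD a ha) h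

theorem of_subgroup (hodd : Odd (Nat.card G)) (H : Subgroup G) (h : Adm H) : Adm G := by
  classical
  obtain ⟨θ, b, hθ⟩ := h
  have hsq : ∀ x : G, x * x ∈ H → x ∈ H := by
    intro x hx
    obtain ⟨k, hk⟩ := hodd
    have h1 : x = (x * x) ^ (k + 1) := by
      rw [← pow_two, ← pow_mul, show 2 * (k + 1) = 2 * k + 1 + 1 by ring, ← hk, pow_succ,
        pow_card_eq_one', one_mul]
    rw [h1]
    exact H.pow_mem hx _
  refine ⟨Equiv.Perm.ofSubtype (p := fun x => x ∈ H) θ, b, ?_⟩
  intro y
  constructor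
  · rintro ⟨x, rfl⟩
    by_cases hx : x ∈ H
    · rw [Equiv.Perm.ofSubtype_apply_of_mem θ hx]
      intro h
      exact (hθ (⟨x, hx⟩ * θ ⟨x, hx⟩)).1 ⟨_, rfl⟩ (Subtype.ext h)
    · rw [Equiv.Perm.ofSubtype_apply_of_not_mem θ hx]
      intro h
      exact hx (hsq x (h ▸ b.2))
  · intro hy
    by_cases hyH : y ∈ H
    · obtain ⟨x, hx⟩ := (hθ ⟨y, hyH⟩).2 (fun h => hy (congrArg Subtype.val h))
      refine ⟨x, ?_⟩
      rw [Equiv.Perm.ofSubtype_apply_of_mem θ x.2]
      exact congrArg Subtype.val hx
    · have hsurj : Function.Surjective (fun x : G => x * x) :=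
        Finite.injective_iff_surjective.1 (fun x y h => sq_inj hodd h)
      obtain ⟨x, rfl⟩ := hsurj y
      have hx : x ∉ H := fun h => hyH (H.mul_mem h h)
      exact ⟨x, by rw [Equiv.Perm.ofSubtype_apply_of_not_mem θ hx]⟩

open scoped IsMulCommutative in
theorem commutator_lt [Nontrivial G]
    (h : ∀ H : Subgroup G, H ≠ ⊤ → ∀ x ∈ H, ∀ y ∈ H, x * y = y * x) : commutator G < ⊤ := by
  by_cases hn : ∀ (p : ℕ) (_hp : Fact p.Prime) (P : Sylow p G), (↑P : Subgroup G).Normal
  · have : Group.IsNilpotent G := (Group.isNilpotent_of_finite_tfae.out 0 3 rfl rfl).mpr hn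
    exact Group.IsSolvable.commutator_lt_top_of_nontrivial G
  · push Not at hn
    obtain ⟨p, hp, P, hP⟩ := hn
    have h1 : Subgroup.normalizer (P : Set G) ≠ ⊤ := by
      intro h2
      exact hP (Subgroup.normalizer_eq_top_iff.1 h2)
    have h2 : Subgroup.normalizer (P : Set G) ≤ Subgroup.centralizer (P : Set G) := by
      intro x hx
      rw [Subgroup.mem_centralizer_iff]
      intro y hy
      exact h _ h1 y (Subgroup.le_normalizer hy) x hx
    have : IsMulCommutative P :=
      ⟨⟨fun a b => Subtype.ext (h2 (Subgroup.le_normalizer b.2) a a.2)⟩⟩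
    let f := MonoidHom.transferSylow P h2
    refine lt_of_le_of_lt (Abelianization.commutator_subset_ker f) ?_
    have h3 : (P : Subgroup G) ≠ ⊥ := by
      intro h4
      apply hP
      rw [h4]
      infer_instance
    contrapose h3
    rw [← Subgroup.isComplement'_top_left, ← (not_lt_top_iff.mp h3)]
    exact MonoidHom.ker_transferSylow_isComplement' P h2

theorem of_commutator (hodd : Odd (Nat.card G)) (hna : ∃ x y : G, x * y ≠ y * x)
    (h : commutator G < ⊤) : Adm G := by
  classical
  have hnt : Nontrivial (Abelianization G) :=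
    QuotientGroup.nontrivial_iff.2 h.ne
  obtain ⟨ι, _, n, hn, ⟨e⟩⟩ := CommGroup.equiv_prod_multiplicative_zmod_of_finite (Abelianization G)
  have hι : Nonempty ι := by
    by_contra hc
    rw [not_nonempty_iff] at hc
    exact not_subsingleton _ e.toEquiv.subsingleton
  obtain ⟨i⟩ := hι
  let f : G →* Multiplicative (ZMod (n i)) :=
    (Pi.evalMonoidHom (fun i => Multiplicative (ZMod (n i))) i).comp
      (e.toMonoidHom.comp Abelianization.of)
  have hf : Function.Surjective f := by
    intro z
    obtain ⟨w, hw⟩ := e.surjective (Function.update 1 i z)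
    obtain ⟨x, rfl⟩ := QuotientGroup.mk_surjective w
    refine ⟨x, ?_⟩
    show e (Abelianization.of x) i = z
    have := congrFun hw i
    rw [Function.update_self] at this
    exact this
  have hdvd : n i ∣ Nat.card G := by
    have := Subgroup.card_dvd_of_surjective f hf
    rwa [Nat.card_congr Multiplicative.toAdd, Nat.card_zmod] at this
  exact of_hom hodd hna (hodd.of_dvd_nat hdvd) (hn i) (fun x => (f x).toAdd)
    (fun x y => by simp) (fun z => by
      obtain ⟨x, hx⟩ := hf (Multiplicative.ofAdd z)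
      exact ⟨x, by simp [hx]⟩)

end Core

theorem main (n : ℕ) : ∀ (G : Type u) [Group G] [Finite G], Nat.card G = n → Odd n →
    (∃ x y : G, x * y ≠ y * x) → Adm G := by
  induction n using Nat.strong_induction_on with
  | _ n ih =>
    intro G _ _ hn hodd hna
    subst hn
    by_cases h : ∀ H : Subgroup G, H ≠ ⊤ → ∀ x ∈ H, ∀ y ∈ H, x * y = y * x
    · have : Nontrivial G := by
        obtain ⟨x, y, hxy⟩ := hna
        exact ⟨_, _, hxy⟩
      exact of_commutator hodd hna (commutator_lt h)
    · push Not at h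
      obtain ⟨H, hH, x, hx, y, hy, hxy⟩ := h
      apply of_subgroup hodd H
      refine ih (Nat.card H) ?_ H rfl (hodd.of_dvd_nat (Subgroup.card_subgroup_dvd_card H))
        ⟨⟨x, hx⟩, ⟨y, hy⟩, fun h => hxy (congrArg Subtype.val h)⟩
      exact lt_of_le_of_ne (Subgroup.card_le_card_group H)
        (fun h => hH (Subgroup.eq_top_of_card_eq H h))

end Pool.Agent.H12.NearChain
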