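import Mathlib

set_option autoImplicit false

namespace Pool.Agent.H12.NetTree

open SimpleGraph

variable {V : Type} {G : SimpleGraph V}

theorem lip_walk (f : V → ℕ) (hf : ∀ x y, G.Adj x y → f x ≤ f y + 1) {x y : V}
    (w : G.Walk x y) : f x ≤ f y + w.length := by
  induction w with
  | nil => simp
  | cons h w ih =>
    have := hf _ _ h
    simp only [Walk.length_cons]
    omega

theorem lip (hc : G.Connected) (f : V → ℕ) (hf : ∀ x y, G.Adj x y → f x ≤ f y + 1) (x y : V) :
    f x ≤ f y + G.dist x y := by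
  obtain ⟨w, hw⟩ := hc.exists_walk_length_eq_dist x y
  rw [← hw]
  exact lip_walk f hf w

theorem ball_finite (hc : G.Connected) (hfin : ∀ v, (G.neighborSet v).Finite) (x : V) (r : ℕ) :
    {y | G.dist x y ≤ r}.Finite := by
  induction r with
  | zero =>
    apply (Set.finite_singleton x).subset
    intro y hy
    simp only [Set.mem_ofPred_eq, Nat.le_zero] at hy
    exact ((hc.dist_eq_zero_iff).1 hy).symm
  | succ r ih =>
    apply (ih.union (ih.biUnion (fun z _ => hfin z))).subset
    intro y hy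
    simp only [Set.mem_ofPred_eq] at hy
    by_cases h : G.dist x y ≤ r
    · exact Or.inl h
    · right
      obtain ⟨w, hw⟩ := hc.exists_walk_length_eq_dist x y
      have hnil : ¬ w.Nil := by
        rw [← Walk.length_eq_zero_iff]; omega
      simp only [Set.mem_iUnion]
      refine ⟨w.penultimate, ?_, w.adj_penultimate hnil⟩
      have h1 := G.dist_le w.dropLast
      have h2 := Walk.length_dropLast_add_one hnil
      simp only [Set.mem_ofPred_eq]
      omega

theorem exists_parent (hT : G.IsTree) (ρ : V) :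
    ∃ p : V → V, (∀ v, v ≠ ρ → G.Adj v (p v) ∧ G.dist ρ (p v) + 1 = G.dist ρ v) ∧
      (∀ v w, G.Adj v w → G.dist ρ w = G.dist ρ v + 1 → p w = v) := by
  classical
  have hc := hT.connected
  choose q hq hq' using fun v => hc.exists_path_of_dist ρ v
  refine ⟨fun v => (q v).penultimate, ?_, ?_⟩
  · intro v hv
    have hnil : ¬ (q v).Nil := Walk.not_nil_of_ne hv.symm
    have hadj := (q v).adj_penultimate hnil
    refine ⟨hadj.symm, ?_⟩
    have h1 := G.dist_le (q v).dropLast
    have h2 := Walk.length_dropLast_add_one hnil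
    have h3 := hq' v
    show G.dist ρ (q v).penultimate + 1 = G.dist ρ v
    rcases hT.dist_eq_dist_add_one_of_adj ρ hadj with h | h <;> omega
  · intro v w hadj hd
    have hp : ((q v).concat hadj).IsPath := by
      apply Walk.isPath_of_length_eq_dist
      rw [Walk.length_concat, hq', hd]
    have : (⟨(q v).concat hadj, hp⟩ : G.Path ρ w) = ⟨q w, hq w⟩ :=
      (isAcyclic_iff_subsingleton_path.1 hT.isAcyclic ρ w).elim _ _
    have h2 : q w = (q v).concat hadj := (congrArg Subtype.val this).symm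
    show (q w).penultimate = v
    rw [h2]
    simp


structure Rooted (G : SimpleGraph V) (h : V → ℕ) (p : V → V) : Prop where
  conn : G.Connected
  edge : ∀ v w, G.Adj v w → (h w = h v + 1 ∧ p w = v) ∨ (h v = h w + 1 ∧ p v = w)
  par : ∀ v, h v ≠ 0 → G.Adj v (p v) ∧ h (p v) + 1 = h v

theorem exists_rooted (hT : G.IsTree) : ∃ h p, Rooted G h p := by
  obtain ⟨ρ⟩ := hT.connected.nonempty
  obtain ⟨p, h1, h2⟩ := exists_parent hT ρ
  refine ⟨G.dist ρ, p, hT.connected, ?_, ?_⟩
  · intro v w hadj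
    rcases hT.dist_eq_dist_add_one_of_adj ρ hadj with h | h
    · exact Or.inr ⟨h, h2 w v hadj.symm h⟩
    · exact Or.inl ⟨h, h2 v w hadj h⟩
  · intro v hv
    apply h1
    rintro rfl
    simp at hv

def D (h : V → ℕ) (p : V → V) (i : ℕ) (u x : V) : Prop := h x = h u + i ∧ p^[i] x = u

variable {h : V → ℕ} {p : V → V}

theorem D_zero (u : V) : D h p 0 u u := ⟨rfl, rfl⟩

theorem D_succ {i : ℕ} {u x y : V} (H : D h p i u x) (h1 : h y = h x + 1) (h2 : p y = x) :
    D h p (i + 1) u y := by
  refine ⟨by have := H.1; omega, ?_⟩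
  rw [Function.iterate_succ_apply, h2, H.2]

theorem D_pred (R : Rooted G h p) {i : ℕ} {u x : V} (H : D h p (i + 1) u x) :
    D h p i u (p x) := by
  have h1 := H.1
  have := (R.par x (by omega)).2
  refine ⟨by omega, ?_⟩
  rw [← Function.iterate_succ_apply, H.2]

theorem D_trans {i j : ℕ} {u x y : V} (H : D h p i u x) (H' : D h p j x y) :
    D h p (i + j) u y := by
  refine ⟨by have := H.1; have := H'.1; omega, ?_⟩
  rw [Function.iterate_add_apply, H'.2, H.2]

theorem D_cmp {i j : ℕ} {u u' x : V} (H : D h p i u x) (H' : D h p j u' x) (hij : i ≤ j) :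
    D h p (j - i) u' u := by
  refine ⟨by have := H.1; have := H'.1; omega, ?_⟩
  rw [← H.2, ← Function.iterate_add_apply, Nat.sub_add_cancel hij, H'.2]

theorem D_dist_le (R : Rooted G h p) {i : ℕ} {u x : V} (H : D h p i u x) : G.dist u x ≤ i := by
  induction i generalizing x with
  | zero =>
    have : x = u := H.2
    subst this
    simp
  | succ i ih =>
    have h1 := ih (D_pred R H)
    have h2 := H.1
    have h3 := (R.par x (by omega)).1
    have h4 : G.dist (p x) x = 1 := dist_eq_one_iff_adj.2 h3.symm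
    have h5 := R.conn.dist_triangle (u := u) (v := p x) (w := x)
    omega

theorem h_lip (R : Rooted G h p) (x y : V) : h x ≤ h y + G.dist x y := by
  apply lip R.conn
  intro a b hab
  rcases R.edge a b hab with h1 | h1 <;> omega

theorem exit (R : Rooted G h p) {u v t : V} {m : ℕ} (H : D h p m u v)
    (ht : ¬ ∃ i, D h p i u t) : m + 1 + G.dist (p u) t ≤ G.dist v t := by
  classical
  let f : V → ℕ := fun x => if ∃ i, D h p i u x then h x - h u + 1 + G.dist (p u) t
    else G.dist x t
  have hf : ∀ x y, G.Adj x y → f x ≤ f y + 1 := by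
    intro x y hxy
    by_cases hx : ∃ i, D h p i u x
    · by_cases hy : ∃ i, D h p i u y
      · simp only [f, if_pos hx, if_pos hy]
        rcases R.edge x y hxy with h1 | h1 <;> omega
      · simp only [f, if_pos hx, if_neg hy]
        obtain ⟨i, hi⟩ := hx
        rcases R.edge x y hxy with h1 | h1
        · exact absurd ⟨i + 1, D_succ hi h1.1 h1.2⟩ hy
        · cases i with
          | zero =>
            have : x = u := hi.2
            subst this
            rw [h1.2]
            omega
          | succ i =>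
            have := D_pred R hi
            rw [h1.2] at this
            exact absurd ⟨i, this⟩ hy
    · by_cases hy : ∃ i, D h p i u y
      · simp only [f, if_neg hx, if_pos hy]
        obtain ⟨i, hi⟩ := hy
        rcases R.edge x y hxy with h1 | h1
        · cases i with
          | zero =>
            have : y = u := hi.2
            subst this
            rw [h1.2]
            omega
          | succ i =>
            have := D_pred R hi
            rw [h1.2] at this
            exact absurd ⟨i, this⟩ hx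
        · exact absurd ⟨i + 1, D_succ hi h1.1 h1.2⟩ hx
      · simp only [f, if_neg hx, if_neg hy]
        have h4 : G.dist x y = 1 := dist_eq_one_iff_adj.2 hxy
        have h5 := R.conn.dist_triangle (u := x) (v := y) (w := t)
        omega
  have := lip R.conn f hf v t
  have hv : ∃ i, D h p i u v := ⟨m, H⟩
  simp only [f, if_pos hv, if_neg ht, dist_self] at this
  have := H.1
  omega

theorem many_desc (R : Rooted G h p) {d : ℕ} (hreg : ∀ v, (G.neighborSet v).ncard = d)
    (hd : 1 ≤ d) (s : V) (i : ℕ) :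
    ∃ U : Finset V, (d - 1) ^ i ≤ U.card ∧ ∀ u ∈ U, D h p i s u := by
  classical
  have hfin : ∀ v, (G.neighborSet v).Finite := fun v =>
    Set.finite_of_ncard_ne_zero (by rw [hreg]; omega)
  induction i with
  | zero => exact ⟨{s}, by simp, by simp [D_zero]⟩
  | succ i ih =>
    obtain ⟨U, hU, hU'⟩ := ih
    let C : V → Finset V := fun u => (hfin u).toFinset.erase (p u)
    have hC : ∀ u, ∀ w ∈ C u, h w = h u + 1 ∧ p w = u := by
      intro u w hw
      simp only [C, Finset.mem_erase, Set.Finite.mem_toFinset, mem_neighborSet] at hw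
      rcases R.edge u w hw.2 with h1 | h1
      · exact h1
      · exact absurd h1.2.symm hw.1
    have hCc : ∀ u, d - 1 ≤ (C u).card := by
      intro u
      have h1 : (hfin u).toFinset.card = d := by
        rw [← hreg u, Set.ncard_eq_toFinset_card _ (hfin u)]
      have := Finset.pred_card_le_card_erase (s := (hfin u).toFinset) (a := p u)
      simp only [C]
      omega
    refine ⟨U.biUnion C, ?_, ?_⟩
    · rw [Finset.card_biUnion]
      · calc (d - 1) ^ (i + 1) = (d - 1) ^ i * (d - 1) := pow_succ _ _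
          _ ≤ U.card * (d - 1) := Nat.mul_le_mul_right _ hU
          _ = ∑ _u ∈ U, (d - 1) := by simp
          _ ≤ _ := Finset.sum_le_sum (fun u _ => hCc u)
      · intro a _ b _ hab
        rw [Function.onFun, Finset.disjoint_left]
        intro w hwa hwb
        exact hab ((hC a w hwa).2.symm.trans (hC b w hwb).2)
    · intro w hw
      obtain ⟨u, hu, hw⟩ := Finset.mem_biUnion.1 hw
      exact D_succ (hU' u hu) (hC u w hw).1 (hC u w hw).2

theorem net_below (R : Rooted G h p) {d : ℕ} (hreg : ∀ v, (G.neighborSet v).ncard = d)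
    (hd : 2 ≤ d) {k : ℕ} (hk : 1 ≤ k) {S : Set V}
    (hsep : ∀ u ∈ S, ∀ v ∈ S, u ≠ v → k ≤ G.dist u v)
    (hcov : ∀ w, ∃ u ∈ S, G.dist w u < k) {s : V} (hs : s ∈ S) {u : V}
    (hu : D h p (k / 2 + 1) s u) :
    ∃ t ∈ S, (∃ i, D h p i u t) ∧ ∃ i, k ≤ i ∧ i < 2 * k ∧ D h p i s t := by
  obtain ⟨U, hU, hU'⟩ := many_desc R hreg (by omega) u (k - (k / 2 + 1))
  have hpos : 0 < U.card := lt_of_lt_of_le (pow_pos (by omega) _) hU
  obtain ⟨v, hv⟩ := Finset.card_pos.1 hpos
  have hv := hU' v hv
  obtain ⟨t, ht, hvt⟩ := hcov v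
  have hsv := D_trans hu hv
  have hst : s ≠ t := by
    rintro rfl
    have := h_lip R v s
    have := hsv.1
    omega
  have hsep' := hsep s hs t ht hst
  have hdesc : ∃ i, D h p i u t := by
    by_contra hn
    have h1 := exit R hv hn
    have h2 := D_dist_le R (D_pred R hu)
    have h3 := R.conn.dist_triangle (u := s) (v := p u) (w := t)
    omega
  refine ⟨t, ht, hdesc, ?_⟩
  obtain ⟨i, hi⟩ := hdesc
  have h1 := D_trans hu hi
  refine ⟨_, ?_, ?_, h1⟩
  · exact hsep'.trans (D_dist_le R h1)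
  · have h2 := h_lip R t v
    rw [dist_comm] at h2
    have := h1.1
    have := hsv.1
    omega

theorem net_many (R : Rooted G h p) {d : ℕ} (hreg : ∀ v, (G.neighborSet v).ncard = d)
    (hd : 2 ≤ d) {k : ℕ} (hk : 1 ≤ k) {S : Set V}
    (hsep : ∀ u ∈ S, ∀ v ∈ S, u ≠ v → k ≤ G.dist u v)
    (hcov : ∀ w, ∃ u ∈ S, G.dist w u < k) {s : V} (hs : s ∈ S) :
    ∃ T : Finset V, (d - 1) ^ (k / 2 + 1) ≤ T.card ∧
      ∀ t ∈ T, t ∈ S ∧ ∃ i, k ≤ i ∧ i < 2 * k ∧ D h p i s t := by
  classical
  obtain ⟨U, hU, hU'⟩ := many_desc R hreg (by omega) s (k / 2 + 1)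
  choose g hg1 hg2 hg3 using fun u (hu : u ∈ U) => net_below R hreg hd hk hsep hcov hs (hU' u hu)
  refine ⟨U.attach.image (fun u => g u.1 u.2), ?_, ?_⟩
  · rw [Finset.card_image_of_injective, Finset.card_attach]
    · exact hU
    · rintro ⟨a, ha⟩ ⟨b, hb⟩ hab
      simp only at hab
      obtain ⟨i, hi⟩ := hg2 a ha
      obtain ⟨j, hj⟩ := hg2 b hb
      rw [hab] at hi
      have h1 := (hU' a ha).1
      have h2 := (hU' b hb).1
      have h3 := hi.1
      have h4 := hj.1
      have hij : i = j := by omega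
      subst hij
      exact Subtype.ext (hi.2.symm.trans hj.2)
  · intro t ht
    obtain ⟨u, _, rfl⟩ := Finset.mem_image.1 ht
    exact ⟨hg1 _ _, hg3 _ _⟩

theorem boundary_bound (hT : G.IsTree) {d : ℕ} (hreg : ∀ v, (G.neighborSet v).ncard = d)
    (hd : 2 ≤ d) {k : ℕ} (hk : 1 ≤ k) {S : Set V}
    (hsep : ∀ u ∈ S, ∀ v ∈ S, u ≠ v → k ≤ G.dist u v)
    (hcov : ∀ w, ∃ u ∈ S, G.dist w u < k) (A : Finset V) (hA : (↑A : Set V) ⊆ S) :
    A.card * (d - 1) ^ (k / 2 + 1) ≤
      Set.ncard {q : V × V | q.1 ∈ A ∧ q.2 ∈ S ∧ q.2 ∉ A ∧ G.dist q.1 q.2 ≤ 2 * k} + A.card := by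
  classical
  obtain ⟨h, p, R⟩ := exists_rooted hT
  have hfin : ∀ v, (G.neighborSet v).Finite := fun v =>
    Set.finite_of_ncard_ne_zero (by rw [hreg]; omega)
  have hex : ∀ s, ∃ T : Finset V, s ∈ S → ((d - 1) ^ (k / 2 + 1) ≤ T.card ∧
      ∀ t ∈ T, t ∈ S ∧ ∃ i, k ≤ i ∧ i < 2 * k ∧ D h p i s t) := by
    intro s
    by_cases hs : s ∈ S
    · obtain ⟨T, hT⟩ := net_many R hreg hd hk hsep hcov hs
      exact ⟨T, fun _ => hT⟩
    · exact ⟨∅, fun h => absurd h hs⟩
  choose T hT' using hex
  set B := {q : V × V | q.1 ∈ A ∧ q.2 ∈ S ∧ q.2 ∉ A ∧ G.dist q.1 q.2 ≤ 2 * k} with hB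
  have hBfin : B.Finite := by
    apply ((A.finite_toSet).biUnion (fun a _ => (ball_finite R.conn hfin a (2 * k)).image
      (fun y => (a, y)))).subset
    rintro ⟨a, y⟩ ⟨h1, _, _, h4⟩
    simp only [Set.mem_iUnion]
    exact ⟨a, h1, y, h4, rfl⟩
  have h1 : A.card * (d - 1) ^ (k / 2 + 1) ≤ (A.biUnion T).card := by
    rw [Finset.card_biUnion]
    · calc A.card * (d - 1) ^ (k / 2 + 1) = ∑ _s ∈ A, (d - 1) ^ (k / 2 + 1) := by simp
        _ ≤ _ := Finset.sum_le_sum (fun s hs => (hT' s (hA hs)).1)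
    · intro a ha b hb hab
      rw [Function.onFun, Finset.disjoint_left]
      intro t hta htb
      obtain ⟨_, i, hi1, hi2, hi⟩ := (hT' a (hA ha)).2 t hta
      obtain ⟨_, j, hj1, hj2, hj⟩ := (hT' b (hA hb)).2 t htb
      have hs := hsep a (hA ha) b (hA hb) hab
      rcases le_total i j with hij | hij
      · have := D_dist_le R (D_cmp hi hj hij)
        rw [dist_comm] at this
        omega
      · have := D_dist_le R (D_cmp hj hi hij)
        omega
  have h2 : ((A.biUnion T) \ A).card ≤ B.ncard := by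
    have : (↑((A.biUnion T) \ A) : Set V) ⊆ Prod.snd '' B := by
      intro t ht
      simp only [Finset.coe_sdiff, Set.mem_sdiff, Finset.mem_coe, Finset.mem_biUnion] at ht
      obtain ⟨⟨s, hs, hts⟩, hta⟩ := ht
      obtain ⟨htS, i, hi1, hi2, hi⟩ := (hT' s (hA hs)).2 t hts
      refine ⟨(s, t), ⟨hs, htS, hta, ?_⟩, rfl⟩
      have := D_dist_le R hi
      show G.dist s t ≤ 2 * k
      omega
    calc ((A.biUnion T) \ A).card = (↑((A.biUnion T) \ A) : Set V).ncard :=
          (Set.ncard_coe_finset _).symm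
      _ ≤ (Prod.snd '' B).ncard := Set.ncard_le_ncard this (hBfin.image _)
      _ ≤ B.ncard := Set.ncard_image_le hBfin
  have h3 := Finset.le_card_sdiff A (A.biUnion T)
  omega

end Pool.Agent.H12.NetTree
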