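import Mathlib
import Pool.Agent.H12.NetTree

set_option autoImplicit false

namespace Pool.Agent.H12.NetVT

open SimpleGraph Pool.Agent.H12.NetTree

section General

variable {V : Type} {G : SimpleGraph V}

def Le (G : SimpleGraph V) (u v : V) (r : ℕ) : Prop := ∃ w : G.Walk u v, w.length ≤ r

theorem Le.refl (u : V) (r : ℕ) : Le G u u r := ⟨Walk.nil, by simp⟩

theorem Le.symm {u v : V} {r : ℕ} (h : Le G u v r) : Le G v u r := by
  obtain ⟨w, hw⟩ := h
  exact ⟨w.reverse, by simpa⟩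

theorem Le.trans {u v x : V} {r s : ℕ} (h : Le G u v r) (h' : Le G v x s) : Le G u x (r + s) := by
  obtain ⟨w, hw⟩ := h
  obtain ⟨w', hw'⟩ := h'
  exact ⟨w.append w', by rw [Walk.length_append]; omega⟩

theorem Le.mono {u v : V} {r s : ℕ} (h : Le G u v r) (hrs : r ≤ s) : Le G u v s := by
  obtain ⟨w, hw⟩ := h
  exact ⟨w, hw.trans hrs⟩

theorem Le.of_adj {u v : V} (h : G.Adj u v) : Le G u v 1 := ⟨h.toWalk, by simp⟩

theorem Le.dist_le {u v : V} {r : ℕ} (h : Le G u v r) : G.dist u v ≤ r := by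
  obtain ⟨w, hw⟩ := h
  exact (G.dist_le w).trans hw

theorem Le.reachable {u v : V} {r : ℕ} (h : Le G u v r) : G.Reachable u v := by
  obtain ⟨w, _⟩ := h
  exact ⟨w⟩

theorem le_of_dist (hc : G.Connected) {u v : V} {r : ℕ} (h : G.dist u v ≤ r) : Le G u v r := by
  obtain ⟨w, hw⟩ := hc.exists_walk_length_eq_dist u v
  exact ⟨w, by omega⟩

theorem step (hc : G.Connected) {u v : V} {r : ℕ} (h : G.dist u v ≤ r + 1) :
    ∃ u', (u = u' ∨ G.Adj u u') ∧ G.dist u' v ≤ r := by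
  obtain ⟨w, hw⟩ := hc.exists_walk_length_eq_dist u v
  cases w with
  | nil => exact ⟨u, Or.inl rfl, by simp⟩
  | cons h' w =>
    refine ⟨_, Or.inr h', ?_⟩
    have := G.dist_le w
    simp only [Walk.length_cons] at hw
    omega

theorem ball_card (hc : G.Connected) {c : ℕ}
    (hN : ∀ v, ∃ N : Finset V, N.card ≤ c ∧ v ∈ N ∧ ∀ w, G.Adj v w → w ∈ N) (x : V) (r : ℕ) :
    ∃ B : Finset V, B.card ≤ c ^ r ∧ ∀ y, G.dist y x ≤ r → y ∈ B := by
  classical
  choose N hN1 hN2 hN3 using hN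
  induction r with
  | zero =>
    refine ⟨{x}, by simp, ?_⟩
    intro y hy
    rw [Nat.le_zero, hc.dist_eq_zero_iff] at hy
    simp [hy]
  | succ r ih =>
    obtain ⟨B, hB, hB'⟩ := ih
    refine ⟨B.biUnion N, ?_, ?_⟩
    · calc (B.biUnion N).card ≤ B.card * c := Finset.card_biUnion_le_card_mul _ _ _ (fun a _ => hN1 a)
        _ ≤ c ^ r * c := Nat.mul_le_mul_right _ hB
        _ = c ^ (r + 1) := (pow_succ _ _).symm
    · intro y hy
      obtain ⟨u', hu', hd⟩ := step hc hy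
      refine Finset.mem_biUnion.2 ⟨u', hB' u' hd, ?_⟩
      rcases hu' with rfl | h
      · exact hN2 _
      · exact hN3 _ _ h.symm

theorem exists_net (G : SimpleGraph V) {k : ℕ} (hk : 1 ≤ k) (X : Set V)
    (hX : ∀ u ∈ X, ∀ v ∈ X, u ≠ v → k ≤ G.dist u v) :
    ∃ S : Set V, X ⊆ S ∧ (∀ u ∈ S, ∀ v ∈ S, u ≠ v → k ≤ G.dist u v) ∧
      ∀ w, ∃ u ∈ S, G.dist w u < k := by
  obtain ⟨S, hXS, hS⟩ := zorn_subset_nonempty
    {T : Set V | ∀ u ∈ T, ∀ v ∈ T, u ≠ v → k ≤ G.dist u v} (by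
      intro c hc hchain _
      refine ⟨⋃₀ c, ?_, fun s hs => Set.subset_sUnion_of_mem hs⟩
      rintro u ⟨s, hs, hu⟩ v ⟨t, ht, hv⟩ huv
      rcases hchain.total hs ht with h | h
      · exact hc ht u (h hu) v hv huv
      · exact hc hs u hu v (h hv) huv) X hX
  refine ⟨S, hXS, hS.1, ?_⟩
  intro w
  by_contra hn
  push Not at hn
  have h1 : insert w S ⊆ S := by
    apply hS.2 _ (Set.subset_insert w S)
    intro u hu v hv huv
    rcases hu with rfl | hu
    · rcases hv with rfl | hv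
      · exact absurd rfl huv
      · exact hn v hv
    · rcases hv with rfl | hv
      · rw [SimpleGraph.dist_comm]; exact hn u hu
      · exact hS.1 u hu v hv huv
  have := hn w (h1 (Set.mem_insert w S))
  simp at this
  omega

end General

section Product

variable {X Y : Type} (H : SimpleGraph X) (T : SimpleGraph Y)

def sprod : SimpleGraph (X × Y) where
  Adj u v := u ≠ v ∧ (u.1 = v.1 ∨ H.Adj u.1 v.1) ∧ (u.2 = v.2 ∨ T.Adj u.2 v.2)
  symm := ⟨by
    rintro u v ⟨h1, h2, h3⟩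
    exact ⟨h1.symm, h2.imp Eq.symm Adj.symm, h3.imp Eq.symm Adj.symm⟩⟩
  loopless := ⟨fun u h => h.1 rfl⟩

variable {H T}

theorem sprod_le (hH : H.Connected) (hT : T.Connected) (c : X) (d : Y) (r : ℕ) :
    ∀ a b, H.dist a c ≤ r → T.dist b d ≤ r → Le (sprod H T) (a, b) (c, d) r := by
  induction r with
  | zero =>
    intro a b h1 h2
    rw [Nat.le_zero, hH.dist_eq_zero_iff] at h1
    rw [Nat.le_zero, hT.dist_eq_zero_iff] at h2
    subst h1 h2
    exact Le.refl _ _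
  | succ r ih =>
    intro a b h1 h2
    obtain ⟨a', ha, ha'⟩ := step hH h1
    obtain ⟨b', hb, hb'⟩ := step hT h2
    have := ih a' b' ha' hb'
    by_cases h : (a, b) = (a', b')
    · rw [h]; exact this.mono (by omega)
    · have h3 : (sprod H T).Adj (a, b) (a', b') := ⟨h, ha, hb⟩
      exact ((Le.of_adj h3).trans this).mono (by omega)

theorem sprod_conn (hH : H.Connected) (hT : T.Connected) : (sprod H T).Connected := by
  have := hH.nonempty
  have := hT.nonempty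
  refine ⟨fun u v => ?_⟩
  exact (sprod_le hH hT v.1 v.2 (max (H.dist u.1 v.1) (T.dist u.2 v.2)) u.1 u.2
    (le_max_left _ _) (le_max_right _ _)).reachable

theorem dist_le_succ {V : Type} {G : SimpleGraph V} (hc : G.Connected) {a b : V}
    (h : a = b ∨ G.Adj a b) (c : V) : G.dist a c ≤ G.dist b c + 1 := by
  rcases h with rfl | h
  · omega
  · have h4 : G.dist a b = 1 := dist_eq_one_iff_adj.2 h
    have h5 := hc.dist_triangle (u := a) (v := b) (w := c)
    omega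

theorem sprod_dist (hH : H.Connected) (hT : T.Connected) (u v : X × Y) :
    (sprod H T).dist u v = max (H.dist u.1 v.1) (T.dist u.2 v.2) := by
  apply le_antisymm
  · exact (sprod_le hH hT v.1 v.2 _ u.1 u.2 (le_max_left _ _) (le_max_right _ _)).dist_le
  · apply max_le
    · have := lip (sprod_conn hH hT) (fun x => H.dist x.1 v.1)
        (fun x y hxy => dist_le_succ hH hxy.2.1 _) u v
      simpa using this
    · have := lip (sprod_conn hH hT) (fun x => T.dist x.2 v.2)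
        (fun x y hxy => dist_le_succ hT hxy.2.2 _) u v
      simpa using this

theorem sprod_trans (hH : ∀ u v, ∃ φ : H ≃g H, φ u = v) (hT : ∀ u v, ∃ φ : T ≃g T, φ u = v)
    (u v : X × Y) : ∃ φ : sprod H T ≃g sprod H T, φ u = v := by
  obtain ⟨φ, hφ⟩ := hH u.1 v.1
  obtain ⟨ψ, hψ⟩ := hT u.2 v.2
  refine ⟨⟨Equiv.prodCongr φ.toEquiv ψ.toEquiv, ?_⟩, Prod.ext hφ hψ⟩
  rintro ⟨a, b⟩ ⟨c, d⟩
  show ((φ a, ψ b) ≠ (φ c, ψ d) ∧ (φ a = φ c ∨ H.Adj (φ a) (φ c)) ∧
    (ψ b = ψ d ∨ T.Adj (ψ b) (ψ d))) ↔ ((a, b) ≠ (c, d) ∧ (a = c ∨ H.Adj a c) ∧ (b = d ∨ T.Adj b d))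
  simp [φ.map_adj_iff, ψ.map_adj_iff]

theorem sprod_nbhd {c e : ℕ}
    (hN : ∀ v, ∃ N : Finset X, N.card ≤ c ∧ v ∈ N ∧ ∀ w, H.Adj v w → w ∈ N)
    (hM : ∀ v, ∃ N : Finset Y, N.card ≤ e ∧ v ∈ N ∧ ∀ w, T.Adj v w → w ∈ N) (u : X × Y) :
    ((sprod H T).neighborSet u).Finite ∧ ((sprod H T).neighborSet u).ncard ≤ c * e := by
  obtain ⟨N, h1, h2, h3⟩ := hN u.1
  obtain ⟨M, h4, h5, h6⟩ := hM u.2
  have hsub : (sprod H T).neighborSet u ⊆ ↑(N ×ˢ M) := by
    rintro w ⟨_, h7, h8⟩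
    simp only [Finset.coe_product, Set.mem_prod, Finset.mem_coe]
    refine ⟨?_, ?_⟩
    · rcases h7 with h | h
      · exact h ▸ h2
      · exact h3 _ h
    · rcases h8 with h | h
      · exact h ▸ h5
      · exact h6 _ h
  refine ⟨(Finset.finite_toSet _).subset hsub, ?_⟩
  calc _ ≤ (↑(N ×ˢ M) : Set (X × Y)).ncard := Set.ncard_le_ncard hsub (Finset.finite_toSet _)
    _ = N.card * M.card := by rw [Set.ncard_coe_finset, Finset.card_product]
    _ ≤ c * e := Nat.mul_le_mul h1 h4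

theorem sprod_expand (f g : Y → Y) (hf : Function.Injective f) (hg : Function.Injective g)
    (hfg : ∀ a b, f a ≠ g b) (hf' : ∀ a, T.Adj a (f a)) (hg' : ∀ a, T.Adj a (g a))
    (A : Finset (X × Y)) :
    ∃ B : Finset (X × Y), A.card ≤ B.card ∧ ∀ w ∈ B, w ∉ A ∧ ∃ u ∈ A, (sprod H T).Adj u w := by
  classical
  refine ⟨(A.image (Prod.map id f) ∪ A.image (Prod.map id g)) \ A, ?_, ?_⟩
  · have h1 := Finset.le_card_sdiff A (A.image (Prod.map id f) ∪ A.image (Prod.map id g))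
    rw [Finset.card_union_of_disjoint, Finset.card_image_of_injective _ (Function.injective_id.prodMap hf),
      Finset.card_image_of_injective _ (Function.injective_id.prodMap hg)] at h1
    · omega
    · rw [Finset.disjoint_left]
      intro w h1 h2
      obtain ⟨a, _, rfl⟩ := Finset.mem_image.1 h1
      obtain ⟨b, _, hb⟩ := Finset.mem_image.1 h2
      exact hfg a.2 b.2 (congrArg Prod.snd hb).symm
  · intro w hw
    rw [Finset.mem_sdiff, Finset.mem_union] at hw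
    refine ⟨hw.2, ?_⟩
    rcases hw.1 with h | h
    · obtain ⟨a, ha, rfl⟩ := Finset.mem_image.1 h
      exact ⟨a, ha, fun h => (hf' a.2).ne (congrArg Prod.snd h), Or.inl rfl, Or.inr (hf' a.2)⟩
    · obtain ⟨a, ha, rfl⟩ := Finset.mem_image.1 h
      exact ⟨a, ha, fun h => (hg' a.2).ne (congrArg Prod.snd h), Or.inl rfl, Or.inr (hg' a.2)⟩

theorem sprod_net [Finite X] (hH : H.Connected) (hT : T.Connected) {e k : ℕ} (hk : 1 ≤ k)
    (hM : ∀ v, ∃ N : Finset Y, N.card ≤ e ∧ v ∈ N ∧ ∀ w, T.Adj v w → w ∈ N)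
    (Sm : Finset X) (hS1 : ∀ u ∈ Sm, ∀ v ∈ Sm, u ≠ v → k ≤ H.dist u v)
    (hS2 : ∀ w, ∃ u ∈ Sm, H.dist w u < k)
    (Bg : Finset X) (hB : ∀ u ∈ Bg, ∀ v ∈ Bg, u ≠ v → k ≤ H.dist u v) :
    ∃ S : Set (X × Y), (∀ u ∈ S, ∀ v ∈ S, u ≠ v → k ≤ (sprod H T).dist u v) ∧
      (∀ w, ∃ u ∈ S, (sprod H T).dist w u < k) ∧
      ∃ A : Finset (X × Y), (↑A : Set (X × Y)) ⊆ S ∧ Bg.card ≤ A.card ∧
        Set.ncard {p : (X × Y) × (X × Y) | p.1 ∈ A ∧ p.2 ∈ S ∧ p.2 ∉ A ∧
          (sprod H T).dist p.1 p.2 ≤ 2 * k} ≤ Sm.card * e ^ (2 * k) * (Sm.card * e ^ (4 * k)) := by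
  classical
  have := Fintype.ofFinite X
  obtain ⟨t0⟩ := hT.nonempty
  obtain ⟨N, hN0, hN1, hN2⟩ := exists_net T hk {t0} (by simp)
  obtain ⟨Z, hZ0, hZ1, hZ2⟩ := exists_net H hk (↑Bg) hB
  obtain ⟨B2, hB2, hB2'⟩ := ball_card hT hM t0 (2 * k)
  obtain ⟨B4, hB4, hB4'⟩ := ball_card hT hM t0 (4 * k)
  let S : Set (X × Y) := {u | u.2 ∈ N ∧ (if u.2 = t0 then u.1 ∈ Z else u.1 ∈ Sm)}
  refine ⟨S, ?_, ?_, (Finset.univ ×ˢ B2).filter (fun u => u ∈ S ∧ T.dist u.2 t0 ≤ 2 * k), ?_, ?_, ?_⟩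
  · rintro ⟨x, t⟩ ⟨h1, h2⟩ ⟨y, s⟩ ⟨h3, h4⟩ hne
    rw [sprod_dist hH hT]
    by_cases hts : t = s
    · subst hts
      have hxy : x ≠ y := fun h => hne (by rw [h])
      apply le_max_of_le_left
      by_cases ht : t = t0
      · simp only [ht, if_true] at h2 h4
        exact hZ1 x h2 y h4 hxy
      · simp only [ht, if_false] at h2 h4
        exact hS1 x h2 y h4 hxy
    · exact le_max_of_le_right (hN1 t h1 s h3 hts)
  · rintro ⟨x, t⟩
    obtain ⟨s, hs, hts⟩ := hN2 t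
    by_cases h : s = t0
    · obtain ⟨y, hy, hxy⟩ := hZ2 x
      refine ⟨(y, s), ⟨hs, by simpa [h] using hy⟩, ?_⟩
      rw [sprod_dist hH hT]
      exact max_lt hxy hts
    · obtain ⟨y, hy, hxy⟩ := hS2 x
      refine ⟨(y, s), ⟨hs, by simpa [h] using hy⟩, ?_⟩
      rw [sprod_dist hH hT]
      exact max_lt hxy hts
  · intro u hu
    simp only [Finset.coe_filter, Set.mem_ofPred_eq] at hu
    exact hu.2.1
  · rw [← Finset.card_image_of_injective Bg (f := fun x => (x, t0)) (fun a b h => congrArg Prod.fst h)]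
    apply Finset.card_le_card
    intro u hu
    obtain ⟨x, hx, rfl⟩ := Finset.mem_image.1 hu
    simp only [Finset.mem_filter, Finset.mem_product, Finset.mem_univ, true_and]
    refine ⟨hB2' _ (by simp), ⟨hN0 rfl, ?_⟩, by simp⟩
    simpa using hZ0 hx
  · calc _ ≤ (↑((Sm ×ˢ B2) ×ˢ (Sm ×ˢ B4)) : Set ((X × Y) × (X × Y))).ncard := by
          apply Set.ncard_le_ncard _ (Finset.finite_toSet _)
          rintro ⟨⟨x, t⟩, ⟨y, s⟩⟩ ⟨h1, h2, h3, h4⟩
          rw [sprod_dist hH hT] at h4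
          have h5 : T.dist t s ≤ 2 * k := le_of_max_le_right h4
          simp only [Finset.mem_filter, Finset.mem_product, Finset.mem_univ, true_and] at h1 h3
          have h6 : ¬ T.dist s t0 ≤ 2 * k := fun h => h3 ⟨hB2' _ h, h2, h⟩
          have h7 : s ≠ t0 := by
            rintro rfl
            simp at h6
          have h8 : t ≠ t0 := by
            rintro rfl
            rw [dist_comm] at h5
            exact h6 h5
          have h9 := hT.dist_triangle (u := s) (v := t) (w := t0)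
          rw [dist_comm] at h5
          have h10 := h1.2.2
          simp only [Finset.coe_product, Set.mem_prod, Finset.mem_coe]
          refine ⟨⟨?_, h1.1⟩, ?_, hB4' _ (by omega)⟩
          · simpa [h8] using h1.2.1.2
          · simpa [h7] using h2.2
      _ = Sm.card * B2.card * (Sm.card * B4.card) := by
          rw [Set.ncard_coe_finset, Finset.card_product, Finset.card_product, Finset.card_product]
      _ ≤ _ := by gcongr

end Product

end Pool.Agent.H12.NetVT
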