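import Mathlib
import Pool.Agent.H12.NetVT1

set_option autoImplicit false

namespace Pool.Agent.H12.NetVT

open SimpleGraph

section Free

abbrev F2 := FreeGroup (Fin 2)

def TG : SimpleGraph F2 := SimpleGraph.fromRel (fun g h => ∃ w : Fin 2 × Bool, h = FreeGroup.mk [w] * g)

theorem mk_ne_one (w : Fin 2 × Bool) : (FreeGroup.mk [w] : F2) ≠ 1 := by
  intro h
  have := congrArg FreeGroup.toWord h
  simp at this

theorem TG_adj (g : F2) (w : Fin 2 × Bool) : TG.Adj g (FreeGroup.mk [w] * g) := by
  refine (fromRel_adj _ _ _).2 ⟨?_, Or.inl ⟨w, rfl⟩⟩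
  intro h
  exact mk_ne_one w (by simpa using h.symm)

theorem TG_conn : TG.Connected := by
  have key : ∀ L : List (Fin 2 × Bool), TG.Reachable 1 (FreeGroup.mk L) := by
    intro L
    induction L with
    | nil => exact Reachable.refl _
    | cons w L ih =>
      have : (FreeGroup.mk (w :: L) : F2) = FreeGroup.mk [w] * FreeGroup.mk L := by
        rw [FreeGroup.mul_mk]; rfl
      rw [this]
      exact ih.trans (TG_adj _ w).reachable
  refine ⟨fun u v => ?_⟩
  have h1 := key u.toWord
  have h2 := key v.toWord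
  rw [FreeGroup.mk_toWord] at h1 h2
  exact h1.symm.trans h2

theorem TG_trans (u v : F2) : ∃ φ : TG ≃g TG, φ u = v := by
  refine ⟨⟨Equiv.mulRight (u⁻¹ * v), ?_⟩, by simp⟩
  intro a b
  simp only [TG, fromRel_adj, Equiv.coe_mulRight, ne_eq, mul_left_inj, ← mul_assoc]

theorem TG_nbhd (v : F2) : ∃ N : Finset F2, N.card ≤ 9 ∧ v ∈ N ∧ ∀ w, TG.Adj v w → w ∈ N := by
  classical
  refine ⟨insert v ((Finset.univ.image (fun w : Fin 2 × Bool => FreeGroup.mk [w] * v)) ∪
    (Finset.univ.image (fun w : Fin 2 × Bool => (FreeGroup.mk [w])⁻¹ * v))), ?_, by simp, ?_⟩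
  · refine (Finset.card_insert_le _ _).trans ?_
    have h1 := Finset.card_union_le
      (Finset.univ.image (fun w : Fin 2 × Bool => FreeGroup.mk [w] * v))
      (Finset.univ.image (fun w : Fin 2 × Bool => (FreeGroup.mk [w])⁻¹ * v))
    have h2 := Finset.card_image_le (s := Finset.univ) (f := fun w : Fin 2 × Bool => FreeGroup.mk [w] * v)
    have h3 := Finset.card_image_le (s := Finset.univ)
      (f := fun w : Fin 2 × Bool => (FreeGroup.mk [w])⁻¹ * v)
    simp only [Finset.card_univ, Fintype.card_prod, Fintype.card_fin, Fintype.card_bool] at h2 h3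
    omega
  · intro w hw
    obtain ⟨_, ⟨s, hs⟩ | ⟨s, hs⟩⟩ := (fromRel_adj _ _ _).1 hw
    · exact Finset.mem_insert_of_mem (Finset.mem_union_left _
        (Finset.mem_image.2 ⟨s, Finset.mem_univ _, hs.symm⟩))
    · exact Finset.mem_insert_of_mem (Finset.mem_union_right _
        (Finset.mem_image.2 ⟨s, Finset.mem_univ _, by rw [hs, inv_mul_cancel_left]⟩))

open Classical in
noncomputable def push (a : Fin 2) (g : F2) : F2 :=
  if g ∈ FreeGroup.startsWith (a, false) then FreeGroup.mk [(a, false)] * g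
  else FreeGroup.mk [(a, true)] * g

theorem sw_unique {g : F2} {w w' : Fin 2 × Bool} (h : g ∈ FreeGroup.startsWith w)
    (h' : g ∈ FreeGroup.startsWith w') : w = w' := by
  by_contra hne
  exact (FreeGroup.startsWith.disjoint_iff_ne.2 hne).notMem_of_mem_left h h'

theorem push_spec (a : Fin 2) (g : F2) :
    ∃ b : Bool, push a g = FreeGroup.mk [(a, b)] * g ∧ push a g ∈ FreeGroup.startsWith (a, b) := by
  unfold push
  split_ifs with h
  · refine ⟨false, rfl, FreeGroup.startsWith_mk_mul g ?_⟩
    intro h'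
    have := sw_unique h h'
    simp at this
  · exact ⟨true, rfl, FreeGroup.startsWith_mk_mul g h⟩

theorem push_adj (a : Fin 2) (g : F2) : TG.Adj g (push a g) := by
  obtain ⟨b, h, _⟩ := push_spec a g
  rw [h]
  exact TG_adj _ _

theorem push_inj (a : Fin 2) : Function.Injective (push a) := by
  intro g h hgh
  obtain ⟨b, h1, h2⟩ := push_spec a g
  obtain ⟨c, h3, h4⟩ := push_spec a h
  rw [hgh] at h2
  have := sw_unique h2 h4
  simp only [Prod.mk.injEq, true_and] at this
  subst this
  rw [h1, h3] at hgh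
  exact mul_left_cancel hgh

theorem push_ne (g h : F2) : push 0 g ≠ push 1 h := by
  intro hgh
  obtain ⟨b, _, h2⟩ := push_spec 0 g
  obtain ⟨c, _, h4⟩ := push_spec 1 h
  rw [hgh] at h2
  have := sw_unique h2 h4
  simp at this

end Free

section Lamp

variable (Γ : Type) [AddCommGroup Γ] (m : ℕ)

abbrev HV := (ZMod (3 * m) → Γ) × ZMod (6 * m)

def pos : ZMod (6 * m) →+* ZMod (3 * m) := ZMod.castHom ⟨2, by ring⟩ (ZMod (3 * m))

def up (u v : HV Γ m) : Prop := v.2 = u.2 + 1 ∧ ∀ j, j ≠ pos m u.2 → u.1 j = v.1 j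

def HG : SimpleGraph (HV Γ m) := SimpleGraph.fromRel (up Γ m)

variable {Γ m}

theorem cast_ne {n : ℕ} {p t : ℤ} (h1 : p ≠ t) (h2 : p - t < n) (h3 : t - p < n) :
    (p : ZMod n) ≠ (t : ZMod n) := by
  intro h
  rw [ZMod.intCast_eq_intCast_iff_dvd_sub] at h
  have := Int.eq_zero_of_abs_lt_dvd h (abs_lt.2 ⟨by omega, by omega⟩)
  omega

theorem rep {n : ℕ} (hn : 0 < n) (c j : ZMod n) (a : ℤ) :
    ∃ t : ℤ, a ≤ t ∧ t < a + n ∧ j = c + t := by
  have : NeZero n := ⟨hn.ne'⟩
  refine ⟨a + ((j - c - (a : ZMod n)).val : ℤ), by omega, ?_, ?_⟩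
  · have := ZMod.val_lt (j - c - (a : ZMod n))
    omega
  · push_cast
    rw [ZMod.natCast_zmod_val]
    ring

omit [AddCommGroup Γ] in
theorem inv_walk {u v : HV Γ m} (w : (HG Γ m).Walk u v) :
    ∃ a b δ : ℤ, a ≤ 0 ∧ 0 ≤ b ∧ a ≤ δ ∧ δ ≤ b ∧ v.2 = u.2 + δ ∧
      (∀ j, (∀ t : ℤ, a ≤ t → t < b → j ≠ pos m u.2 + t) → u.1 j = v.1 j) ∧
      (2 * (b - a) - δ ≤ w.length ∨ 2 * (b - a) + δ ≤ w.length) := by
  induction w with
  | nil => exact ⟨0, 0, 0, le_rfl, le_rfl, le_rfl, le_rfl, by simp, fun _ _ => rfl, by simp⟩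
  | @cons u u' v h w ih =>
    obtain ⟨a, b, δ, h1, h2, h3, h4, h5, h6, h7⟩ := ih
    obtain ⟨_, hu | hu⟩ := (fromRel_adj _ _ _).1 h
    · refine ⟨min (a + 1) 0, b + 1, δ + 1, by omega, by omega, by omega, by omega, ?_, ?_, ?_⟩
      · rw [h5, hu.1]; push_cast; ring
      · intro j hj
        rw [hu.2 j (by simpa using hj 0 (by omega) (by omega))]
        apply h6
        intro t ht1 ht2
        have := hj (t + 1) (by omega) (by omega)
        rw [hu.1, map_add, map_one]
        push_cast at this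
        intro h'
        exact this (by rw [h']; ring)
      · simp only [Walk.length_cons]
        push_cast
        omega
    · refine ⟨a - 1, max (b - 1) 0, δ - 1, by omega, by omega, by omega, by omega, ?_, ?_, ?_⟩
      · rw [h5, hu.1]; push_cast; ring
      · intro j hj
        have h8 := hj (-1) (by omega) (by omega)
        rw [hu.1, map_add, map_one] at h8
        rw [← hu.2 j (by simpa using h8)]
        apply h6
        intro t ht1 ht2
        have := hj (t - 1) (by omega) (by omega)
        rw [hu.1, map_add, map_one] at this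
        push_cast at this
        intro h'
        exact this (by rw [h']; ring)
      · simp only [Walk.length_cons]
        push_cast
        omega

omit [AddCommGroup Γ] in
theorem up_adj (hm : 1 ≤ m) {u v : HV Γ m} (h : up Γ m u v) : (HG Γ m).Adj u v := by
  refine (fromRel_adj _ _ _).2 ⟨?_, Or.inl h⟩
  rintro rfl
  have h1 := h.1
  have : Fact (1 < 6 * m) := ⟨by omega⟩
  simp at h1

omit [AddCommGroup Γ] in
theorem up_walk (hm : 1 ≤ m) (l : ℕ) : ∀ (x y : ZMod (3 * m) → Γ) (i : ZMod (6 * m)),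
    (∀ j, (∀ t : ℤ, 0 ≤ t → t < l → j ≠ pos m i + t) → x j = y j) →
    Le (HG Γ m) (x, i) (y, i + l) l := by
  classical
  induction l with
  | zero =>
    intro x y i h
    have : x = y := funext fun j => h j (fun t h1 h2 => by omega)
    subst this
    simpa using Le.refl _ _
  | succ l ih =>
    intro x y i h
    have h1 : up Γ m (x, i) (Function.update x (pos m i) (y (pos m i)), i + 1) :=
      ⟨rfl, fun j hj => (Function.update_of_ne hj _ _).symm⟩
    have h2 := ih (Function.update x (pos m i) (y (pos m i))) y (i + 1) (by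
      intro j hj
      by_cases hji : j = pos m i
      · subst hji; simp
      · rw [Function.update_of_ne hji]
        apply h
        intro t ht1 ht2
        by_cases ht : t = 0
        · subst ht; simpa using hji
        · have := hj (t - 1) (by omega) (by push_cast at ht2; omega)
          rw [map_add, map_one] at this
          push_cast at this
          intro h'
          exact this (by rw [h']; ring))
    have h3 := (Le.of_adj (up_adj hm h1)).trans h2
    have e1 : i + 1 + (l : ZMod (6 * m)) = i + ((l + 1 : ℕ) : ZMod (6 * m)) := by push_cast; ring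
    rw [e1, add_comm 1 l] at h3
    exact h3

omit [AddCommGroup Γ] in
theorem win (hm : 1 ≤ m) (x y : ZMod (3 * m) → Γ) (i : ZMod (6 * m)) (α β δ : ℕ) (hδ : δ ≤ β)
    (h : ∀ j, (∀ t : ℤ, -(α : ℤ) ≤ t → t < β → j ≠ pos m i + t) → x j = y j) :
    Le (HG Γ m) (x, i) (y, i + δ) (2 * (α + β) - δ) := by
  have h1 := up_walk hm α x x (i - α) (fun _ _ => rfl)
  have h2 := up_walk hm (α + β) x y (i - α) (by
    intro j hj
    apply h
    intro t ht1 ht2
    have := hj (t + α) (by omega) (by push_cast; omega)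
    rw [map_sub, map_natCast] at this
    push_cast at this
    intro h'
    exact this (by rw [h']; ring))
  have h3 := up_walk hm (β - δ) y y (i + δ) (fun _ _ => rfl)
  have e1 : i - α + (α : ZMod (6 * m)) = i := by ring
  have e2 : i - α + ((α + β : ℕ) : ZMod (6 * m)) = i + δ + ((β - δ : ℕ) : ZMod (6 * m)) := by
    push_cast [Nat.cast_sub hδ]; ring
  rw [e1] at h1
  rw [e2] at h2
  exact ((h1.symm.trans h2).trans h3.symm).mono (by omega)

omit [AddCommGroup Γ] in
theorem win_all (hm : 1 ≤ m) (x y : ZMod (3 * m) → Γ) (i : ZMod (6 * m)) (β δ : ℕ) (hδ : δ ≤ β)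
    (hβ : 3 * m ≤ β) : Le (HG Γ m) (x, i) (y, i + δ) (2 * β - δ) := by
  have := win hm x y i 0 β δ hδ (by
    intro j hj
    obtain ⟨t, h1, h2, h3⟩ := rep (n := 3 * m) (by omega) (pos m i) j 0
    exact absurd h3 (hj t (by simpa using h1) (by push_cast at h2; omega)))
  simpa using this

omit [AddCommGroup Γ] in
theorem HG_conn [Nonempty Γ] (hm : 1 ≤ m) : (HG Γ m).Connected := by
  refine ⟨?_⟩
  rintro ⟨x, i⟩ ⟨y, i'⟩
  have : NeZero (6 * m) := ⟨by omega⟩
  have h := win_all hm x y i ((i' - i).val + 3 * m) (i' - i).val (by omega) (by omega)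
  rw [ZMod.natCast_zmod_val, add_sub_cancel] at h
  exact h.reachable

def shift (z : ZMod (3 * m) → Γ) (s : ZMod (6 * m)) : HV Γ m ≃ HV Γ m where
  toFun u := (fun j => u.1 (j - pos m s) + z j, u.2 + s)
  invFun u := (fun j => u.1 (j + pos m s) - z (j + pos m s), u.2 - s)
  left_inv u := by ext <;> simp
  right_inv u := by ext <;> simp

theorem shift_up (z : ZMod (3 * m) → Γ) (s : ZMod (6 * m)) (u v : HV Γ m) :
    up Γ m (shift z s u) (shift z s v) ↔ up Γ m u v := by
  simp only [up, shift, Equiv.coe_fn_mk, map_add, add_left_inj]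
  constructor
  · rintro ⟨h1, h2⟩
    refine ⟨by linear_combination h1, fun j hj => ?_⟩
    have := h2 (j + pos m s) (by simpa using hj)
    simpa using this
  · rintro ⟨h1, h2⟩
    refine ⟨by linear_combination h1, fun j hj => ?_⟩
    apply h2
    intro h
    exact hj (by rw [← h]; ring)

theorem HG_trans (u v : HV Γ m) : ∃ φ : HG Γ m ≃g HG Γ m, φ u = v := by
  refine ⟨⟨shift (fun j => v.1 j - u.1 (j - pos m (v.2 - u.2))) (v.2 - u.2), ?_⟩, ?_⟩
  · intro a b
    simp only [HG, fromRel_adj, shift_up, ne_eq, EmbeddingLike.apply_eq_iff_eq]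
  · show shift _ _ u = v
    ext <;> simp [shift]

omit [AddCommGroup Γ] in
theorem HG_nbhd [Fintype Γ] (v : HV Γ m) :
    ∃ N : Finset (HV Γ m), N.card ≤ 2 * Fintype.card Γ + 1 ∧ v ∈ N ∧
      ∀ w, (HG Γ m).Adj v w → w ∈ N := by
  classical
  refine ⟨insert v ((Finset.univ.image (fun c : Γ => (Function.update v.1 (pos m v.2) c, v.2 + 1))) ∪
    (Finset.univ.image (fun c : Γ => (Function.update v.1 (pos m (v.2 - 1)) c, v.2 - 1)))), ?_,
    by simp, ?_⟩
  · refine (Finset.card_insert_le _ _).trans ?_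
    have h1 := Finset.card_union_le
      (Finset.univ.image (fun c : Γ => (Function.update v.1 (pos m v.2) c, v.2 + 1)))
      (Finset.univ.image (fun c : Γ => (Function.update v.1 (pos m (v.2 - 1)) c, v.2 - 1)))
    have h2 := Finset.card_image_le (s := Finset.univ)
      (f := fun c : Γ => (Function.update v.1 (pos m v.2) c, v.2 + 1))
    have h3 := Finset.card_image_le (s := Finset.univ)
      (f := fun c : Γ => (Function.update v.1 (pos m (v.2 - 1)) c, v.2 - 1))
    simp only [Finset.card_univ] at h2 h3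
    omega
  · intro w hw
    obtain ⟨_, hs | hs⟩ := (fromRel_adj _ _ _).1 hw
    · refine Finset.mem_insert_of_mem (Finset.mem_union_left _
        (Finset.mem_image.2 ⟨w.1 (pos m v.2), Finset.mem_univ _, ?_⟩))
      refine Prod.ext ?_ hs.1.symm
      funext j
      by_cases hj : j = pos m v.2
      · subst hj; simp
      · simp only [Function.update_of_ne hj]
        exact hs.2 j hj
    · have e : w.2 = v.2 - 1 := by rw [hs.1]; ring
      refine Finset.mem_insert_of_mem (Finset.mem_union_right _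
        (Finset.mem_image.2 ⟨w.1 (pos m (v.2 - 1)), Finset.mem_univ _, ?_⟩))
      refine Prod.ext ?_ e.symm
      funext j
      by_cases hj : j = pos m (v.2 - 1)
      · subst hj; simp
      · simp only [Function.update_of_ne hj]
        exact (hs.2 j (by rwa [e])).symm

end Lamp

end Pool.Agent.H12.NetVT
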