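import Mathlib
import Pool.Agent.H12.NetVT2

set_option autoImplicit false

namespace Pool.Agent.H12.NetVT

open SimpleGraph

section Lamp

variable {Γ : Type} [AddCommGroup Γ] {m : ℕ}

omit [AddCommGroup Γ] in
theorem close_agree {x y : ZMod (3 * m) → Γ} {L : ZMod (6 * m)} {d : ℤ} {l : ℕ} (hl : l < 4 * m)
    (hd0 : 0 ≤ d) (hd : d ≤ 2 * m) (h : Le (HG Γ m) (x, L) (y, L + d) l) :
    ∃ a b : ℤ, a ≤ 0 ∧ d ≤ b ∧ 2 * (b - a) < 4 * m + d ∧
      ∀ p : ℤ, b ≤ p → p < a + 3 * m → x (pos m L + p) = y (pos m L + p) := by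
  obtain ⟨w, hw⟩ := h
  obtain ⟨a, b, δ, h1, h2, h3, h4, h5, h6, h7⟩ := inv_walk w
  have hδ : δ = d := by
    by_contra hne
    have := cast_ne (n := 6 * m) hne (by push_cast; omega) (by push_cast; omega)
    exact this (add_left_cancel h5).symm
  subst hδ
  refine ⟨a, b, h1, h4, by omega, ?_⟩
  intro p hp1 hp2
  apply h6
  intro t ht1 ht2 h
  exact cast_ne (n := 3 * m) (p := p) (t := t) (by omega) (by push_cast; omega)
    (by push_cast; omega) (add_left_cancel h)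

open Classical in
noncomputable def ff (g : Γ) (m : ℕ) (c : Γ) (t : ZMod (3 * m)) : Γ :=
  if t.val < m then (if c = 0 then g else c) else if t.val < 2 * m then c else 0

theorem val_cast {n : ℕ} {t : ℤ} (h0 : 0 ≤ t) (h1 : t < n) : (((t : ZMod n).val : ℕ) : ℤ) = t := by
  have : NeZero n := ⟨by omega⟩
  rw [ZMod.val_intCast, Int.emod_eq_of_lt h0 h1]

theorem ff0 {g : Γ} (hg : g ≠ 0) (c : Γ) {t : ℤ} (h0 : 0 ≤ t) (h1 : t < m) :
    ff g m c t ≠ 0 ∧ (c ≠ 0 → ff g m c t = c) := by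
  have := val_cast (n := 3 * m) h0 (by push_cast; omega)
  unfold ff
  rw [if_pos (by omega)]
  split_ifs with h
  · exact ⟨hg, fun h' => absurd h h'⟩
  · exact ⟨h, fun _ => rfl⟩

theorem ff1 (g c : Γ) {t : ℤ} (h0 : m ≤ t) (h1 : t < 2 * m) : ff g m c t = c := by
  have := val_cast (n := 3 * m) (t := t) (by omega) (by push_cast; omega)
  unfold ff
  rw [if_neg (by omega), if_pos (by omega)]

theorem ff2 (g c : Γ) {t : ℤ} (h0 : 2 * m ≤ t) (h1 : t < 3 * m) : ff g m c t = 0 := by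
  have := val_cast (n := 3 * m) (t := t) (by omega) (by push_cast; omega)
  unfold ff
  rw [if_neg (by omega), if_neg (by omega)]

noncomputable def PP (g : Γ) (L : ZMod (6 * m)) (c : Γ) : HV Γ m :=
  (fun j => ff g m c (j - pos m L), L)

theorem PP_same (g : Γ) (L : ZMod (6 * m)) {c c' : Γ} {l : ℕ} (hl : l < 4 * m)
    (h : Le (HG Γ m) (PP g L c) (PP g L c') l) : c = c' := by
  have h' : Le (HG Γ m) ((PP g L c).1, L) ((PP g L c').1, L + ((0 : ℤ) : ZMod (6 * m))) l := by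
    rw [Int.cast_zero, add_zero]
    exact h
  obtain ⟨a, b, h1, h2, h3, h4⟩ := close_agree hl le_rfl (by omega) h'
  have := h4 (max b m) (by omega) (by omega)
  simp only [PP, add_sub_cancel_left] at this
  rwa [ff1 g c (by omega) (by omega), ff1 g c' (by omega) (by omega)] at this

theorem PP_next {g : Γ} (hg : g ≠ 0) (L : ZMod (6 * m)) {c c' : Γ} {l : ℕ} (hl : l < 4 * m)
    (h : Le (HG Γ m) (PP g L c) (PP g (L + ((2 * m : ℤ) : ZMod (6 * m))) c') l) : False := by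
  obtain ⟨a, b, h1, h2, h3, h4⟩ := close_agree hl (by omega) le_rfl h
  have := h4 b le_rfl (by omega)
  simp only [add_sub_cancel_left] at this
  rw [ff2 g c (by omega) (by omega)] at this
  have e : pos m L + b - pos m (L + ((2 * m : ℤ) : ZMod (6 * m))) =
      ((b - 2 * m : ℤ) : ZMod (3 * m)) := by
    rw [map_add, map_intCast]; push_cast; ring
  rw [e] at this
  exact (ff0 hg c' (by omega) (by omega)).1 this.symm

def IsL (m : ℕ) (L : ZMod (6 * m)) : Prop :=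
  L = 0 ∨ L = ((2 * m : ℤ) : ZMod (6 * m)) ∨ L = ((4 * m : ℤ) : ZMod (6 * m))

theorem six (m : ℕ) : (6 * m : ZMod (6 * m)) = 0 := by
  have := ZMod.natCast_self (6 * m)
  push_cast at this
  exact this

theorem IsL_add {L : ZMod (6 * m)} (h : IsL m L) : IsL m (L + ((2 * m : ℤ) : ZMod (6 * m))) := by
  have := six m
  rcases h with rfl | rfl | rfl
  · right; left; simp
  · right; right; push_cast; ring
  · left; push_cast; linear_combination this

theorem IsL_tri {L L' : ZMod (6 * m)} (h : IsL m L) (h' : IsL m L') :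
    L = L' ∨ L' = L + ((2 * m : ℤ) : ZMod (6 * m)) ∨ L = L' + ((2 * m : ℤ) : ZMod (6 * m)) := by
  have := six m
  rcases h with rfl | rfl | rfl <;> rcases h' with rfl | rfl | rfl
  · left; rfl
  · right; left; simp
  · right; right; push_cast; linear_combination -this
  · right; right; simp
  · left; rfl
  · right; left; push_cast; ring
  · right; left; push_cast; linear_combination -this
  · right; right; push_cast; ring
  · left; rfl

theorem IsL_cover (hm : 1 ≤ m) (i : ZMod (6 * m)) :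
    ∃ L, IsL m L ∧ ∃ r : ℕ, r < 2 * m ∧ i = L + r := by
  have : NeZero (6 * m) := ⟨by omega⟩
  have h1 := ZMod.val_lt i
  have h2 := ZMod.natCast_zmod_val i
  by_cases h3 : i.val < 2 * m
  · exact ⟨0, Or.inl rfl, i.val, h3, by simp⟩
  · by_cases h4 : i.val < 4 * m
    · refine ⟨_, Or.inr (Or.inl rfl), i.val - 2 * m, by omega, ?_⟩
      push_cast [Nat.cast_sub (show 2 * m ≤ i.val by omega)]
      rw [h2]; ring
    · refine ⟨_, Or.inr (Or.inr rfl), i.val - 4 * m, by omega, ?_⟩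
      push_cast [Nat.cast_sub (show 4 * m ≤ i.val by omega)]
      rw [h2]; ring

theorem PP_cover (hm : 1 ≤ m) {g : Γ} (hg : g ≠ 0) (w : HV Γ m) :
    ∃ L, IsL m L ∧ ∃ c, Le (HG Γ m) w (PP g L c) (4 * m - 1) := by
  obtain ⟨y, i⟩ := w
  obtain ⟨L, hL, r, hr, rfl⟩ := IsL_cover hm i
  by_cases hr0 : r = 0
  · subst hr0
    simp only [Nat.cast_zero, add_zero]
    by_cases hy : ∃ p : ℕ, 2 * m ≤ p ∧ p < 3 * m ∧ y (pos m L + p) ≠ 0
    · obtain ⟨p, hp1, hp2, hp⟩ := hy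
      refine ⟨_, IsL_add hL, y (pos m L + p), ?_⟩
      have := win hm y (PP g (L + ((2 * m : ℤ) : ZMod (6 * m))) (y (pos m L + p))).1 L
        (3 * m - 1 - p) p (2 * m) hp1 (by
          intro j hj
          obtain ⟨t, h1, h2, h3⟩ := rep (n := 3 * m) (by omega) (pos m L) j
            (-((3 * m - 1 - p : ℕ) : ℤ))
          have htp : t = p := by
            by_contra hne
            exact hj t h1 (by push_cast at h2; omega) h3
          subst h3
          simp only [PP]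
          have e : pos m L + t - pos m (L + ((2 * m : ℤ) : ZMod (6 * m))) =
              ((t - 2 * m : ℤ) : ZMod (3 * m)) := by
            rw [map_add, map_intCast]; push_cast; ring
          rw [e, (ff0 hg _ (by omega) (by omega)).2 hp, htp]
          simp)
      have e2 : ((2 * m : ℕ) : ZMod (6 * m)) = ((2 * m : ℤ) : ZMod (6 * m)) := by push_cast; ring
      rw [e2] at this
      exact this.mono (by omega)
    · push Not at hy
      refine ⟨L, hL, y (pos m L + ((2 * m - 1 : ℤ) : ZMod (3 * m))), ?_⟩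
      have := win hm y (PP g L (y (pos m L + ((2 * m - 1 : ℤ) : ZMod (3 * m))))).1 L
        0 (2 * m - 1) 0 (by omega) (by
          intro j hj
          obtain ⟨t, h1, h2, h3⟩ := rep (n := 3 * m) (by omega) (pos m L) j 0
          have ht : 2 * (m : ℤ) - 1 ≤ t := by
            by_contra hne
            exact hj t (by simpa using h1) (by omega) h3
          subst h3
          simp only [PP, add_sub_cancel_left]
          by_cases ht2 : t = 2 * m - 1
          · rw [ff1 g _ (by omega) (by omega), ht2]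
          · rw [ff2 g _ (by omega) (by push_cast at h2; omega)]
            have := hy t.toNat (by omega) (by push_cast at h2; omega)
            have e : ((t.toNat : ℕ) : ZMod (3 * m)) = (t : ZMod (3 * m)) := by
              rw [← Int.cast_natCast, Int.toNat_of_nonneg h1]
            rwa [e] at this)
      simp only [Nat.cast_zero, add_zero] at this
      exact this.mono (by omega)
  · refine ⟨_, IsL_add (IsL_add hL), 0, ?_⟩
    apply Le.symm
    have := win_all hm (PP g (L + ((2 * m : ℤ) : ZMod (6 * m)) + ((2 * m : ℤ) : ZMod (6 * m))) 0).1 y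
      (L + ((2 * m : ℤ) : ZMod (6 * m)) + ((2 * m : ℤ) : ZMod (6 * m))) (max (2 * m + r) (3 * m))
      (2 * m + r) (le_max_left _ _) (le_max_right _ _)
    have e : L + ((2 * m : ℤ) : ZMod (6 * m)) + ((2 * m : ℤ) : ZMod (6 * m)) +
        ((2 * m + r : ℕ) : ZMod (6 * m)) = L + r := by
      push_cast; linear_combination six m
    rw [e] at this
    exact this.mono (by omega)

theorem small_net [Fintype Γ] (hm : 1 ≤ m) {g : Γ} (hg : g ≠ 0) :
    ∃ Sm : Finset (HV Γ m), Sm.card ≤ 3 * Fintype.card Γ ∧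
      (∀ u ∈ Sm, ∀ v ∈ Sm, u ≠ v → 4 * m ≤ (HG Γ m).dist u v) ∧
      ∀ w, ∃ u ∈ Sm, (HG Γ m).dist w u < 4 * m := by
  classical
  have hc : (HG Γ m).Connected := HG_conn hm
  let Ls : Finset (ZMod (6 * m)) := {0, ((2 * m : ℤ) : ZMod (6 * m)), ((4 * m : ℤ) : ZMod (6 * m))}
  have hLs : ∀ L, L ∈ Ls ↔ IsL m L := by
    intro L
    simp only [Ls, IsL, Finset.mem_insert, Finset.mem_singleton]
  refine ⟨(Ls ×ˢ Finset.univ).image (fun z : ZMod (6 * m) × Γ => PP g z.1 z.2), ?_, ?_, ?_⟩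
  · refine Finset.card_image_le.trans ?_
    rw [Finset.card_product, Finset.card_univ]
    exact Nat.mul_le_mul_right _ Finset.card_le_three
  · intro u hu v hv huv
    obtain ⟨⟨L, c⟩, h1, rfl⟩ := Finset.mem_image.1 hu
    obtain ⟨⟨L', c'⟩, h2, rfl⟩ := Finset.mem_image.1 hv
    have h3 := (hLs _).1 (Finset.mem_product.1 h1).1
    have h4 := (hLs _).1 (Finset.mem_product.1 h2).1
    by_contra hlt
    push Not at hlt
    have h5 := le_of_dist hc (le_refl ((HG Γ m).dist (PP g L c) (PP g L' c')))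
    rcases IsL_tri h3 h4 with h | h | h
    · simp only at h
      subst h
      exact huv (by rw [PP_same g L hlt h5])
    · simp only at h
      subst h
      exact PP_next hg L hlt h5
    · simp only at h
      subst h
      exact PP_next hg L' hlt h5.symm
  · intro w
    obtain ⟨L, hL, c, h⟩ := PP_cover hm hg w
    refine ⟨PP g L c, Finset.mem_image.2 ⟨(L, c), ?_, rfl⟩, ?_⟩
    · exact Finset.mem_product.2 ⟨(hLs _).2 hL, Finset.mem_univ _⟩
    · have := h.dist_le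
      omega

theorem big_set [Fintype Γ] (hm : 1 ≤ m) :
    ∃ Bg : Finset (HV Γ m), Bg.card = Fintype.card Γ ^ m ∧
      (∀ u ∈ Bg, ∀ v ∈ Bg, u ≠ v → 4 * m ≤ (HG Γ m).dist u v) := by
  classical
  have hc : (HG Γ m).Connected := HG_conn hm
  have : NeZero m := ⟨by omega⟩
  let red : ZMod (3 * m) →+* ZMod m := ZMod.castHom ⟨3, by ring⟩ (ZMod m)
  refine ⟨Finset.univ.image (fun f : ZMod m → Γ => ((fun j => f (red j), 0) : HV Γ m)), ?_, ?_⟩
  · rw [Finset.card_image_of_injective]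
    · simp
    · intro f f' h
      funext r
      obtain ⟨t, rfl⟩ := ZMod.intCast_surjective r
      have := congrFun (congrArg Prod.fst h) (t : ZMod (3 * m))
      simpa [red] using this
  · intro u hu v hv huv
    obtain ⟨f, _, rfl⟩ := Finset.mem_image.1 hu
    obtain ⟨f', _, rfl⟩ := Finset.mem_image.1 hv
    by_contra hlt
    push Not at hlt
    have h5 := le_of_dist hc (le_refl ((HG Γ m).dist ((fun j => f (red j), 0) : HV Γ m)
      ((fun j => f' (red j), 0) : HV Γ m)))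
    have h6 : Le (HG Γ m) ((fun j => f (red j), 0) : HV Γ m)
        ((fun j => f' (red j), 0 + ((0 : ℤ) : ZMod (6 * m))) : HV Γ m)
        ((HG Γ m).dist ((fun j => f (red j), 0) : HV Γ m) ((fun j => f' (red j), 0) : HV Γ m)) := by
      rw [Int.cast_zero, add_zero]
      exact h5
    obtain ⟨a, b, h1, h2, h3, h4⟩ := close_agree hlt le_rfl (by omega) h6
    apply huv
    have : f = f' := by
      funext r
      obtain ⟨t, ht1, ht2, ht⟩ := rep (n := m) (by omega) 0 r b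
      have := h4 t ht1 (by omega)
      rw [ht]
      simpa [red] using this
    rw [this]

end Lamp

theorem main (ε : ℝ) (hε : 0 < ε) :
    ∃ (V : Type) (G : SimpleGraph V), Infinite V ∧ G.Connected ∧
      (∀ v, (G.neighborSet v).Finite) ∧ (∀ v, (G.neighborSet v).ncard ≤ (4 * 9 ^ 24 + 1) * 9) ∧
      (∀ u v : V, ∃ φ : G ≃g G, φ u = v) ∧
      (∀ A : Finset V, ∃ B : Finset V, A.card ≤ B.card ∧ ∀ w ∈ B, w ∉ A ∧ ∃ u ∈ A, G.Adj u w) ∧
      ∃ k : ℕ, 1 ≤ k ∧ ∃ S : Set V, (∀ u ∈ S, ∀ v ∈ S, u ≠ v → k ≤ G.dist u v) ∧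
        (∀ w, ∃ u ∈ S, G.dist w u < k) ∧
        ∃ A : Finset V, A.Nonempty ∧ (↑A : Set V) ⊆ S ∧
          (Set.ncard {p : V × V | p.1 ∈ A ∧ p.2 ∈ S ∧ p.2 ∉ A ∧ G.dist p.1 p.2 ≤ 2 * k} : ℝ)
            / (A.card : ℝ) < ε := by
  obtain ⟨K, hK⟩ : ∃ K : ℕ, K = 9 ^ 24 := ⟨_, rfl⟩
  have hK1 : 1 ≤ K := by rw [hK]; norm_num
  rw [← hK]
  obtain ⟨q, hq⟩ : ∃ q : ℕ, q = 2 * K := ⟨_, rfl⟩
  have : Fact (1 < q) := ⟨by omega⟩
  have : NeZero q := ⟨by omega⟩
  obtain ⟨m0, hm0⟩ := pow_unbounded_of_one_lt (9 * (q : ℝ) ^ 2 / ε) (show (1 : ℝ) < 2 by norm_num)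
  obtain ⟨m, hm, hm1⟩ : ∃ m : ℕ, 1 ≤ m ∧ 9 * (q : ℝ) ^ 2 / ε < 2 ^ m :=
    ⟨m0 + 1, by omega, hm0.trans_le (pow_le_pow_right₀ (by norm_num) (by omega))⟩
  have : NeZero (3 * m) := ⟨by omega⟩
  have : NeZero (6 * m) := ⟨by omega⟩
  have hc : (HG (ZMod q) m).Connected := HG_conn hm
  have hN := HG_nbhd (Γ := ZMod q) (m := m)
  rw [ZMod.card] at hN
  obtain ⟨Sm, hS0, hS1, hS2⟩ := small_net (Γ := ZMod q) hm (one_ne_zero)
  obtain ⟨Bg, hB0, hB1⟩ := big_set (Γ := ZMod q) hm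
  rw [ZMod.card] at hS0 hB0
  obtain ⟨S, h1, h2, A, h3, h4, h5⟩ := sprod_net hc TG_conn (by omega) TG_nbhd Sm hS1 hS2 Bg hB1
  refine ⟨HV (ZMod q) m × F2, sprod (HG (ZMod q) m) TG, inferInstance, sprod_conn hc TG_conn,
    fun v => (sprod_nbhd hN TG_nbhd v).1, fun v => ?_, sprod_trans HG_trans TG_trans,
    sprod_expand (push 0) (push 1) (push_inj 0) (push_inj 1) push_ne (push_adj 0) (push_adj 1),
    4 * m, by omega, S, h1, h2, A, ?_, h3, ?_⟩
  · have := (sprod_nbhd hN TG_nbhd v).2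
    have e : 2 * q + 1 = 4 * K + 1 := by omega
    rwa [e] at this
  · rw [← Finset.card_pos]
    have : 0 < q ^ m := pow_pos (by omega) _
    omega
  · have hA : q ^ m ≤ A.card := by omega
    have hA' : (2 : ℝ) ^ m * (K : ℝ) ^ m ≤ A.card := by
      rw [← mul_pow]
      have hA2 : (2 * K) ^ m ≤ A.card := by rw [← hq]; exact hA
      exact_mod_cast hA2
    have hKpos : (0 : ℝ) < (K : ℝ) ^ m := pow_pos (by exact_mod_cast hK1) _
    have hApos : (0 : ℝ) < A.card := lt_of_lt_of_le (by positivity) hA'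
    have h6 : Sm.card * 9 ^ (2 * (4 * m)) * (Sm.card * 9 ^ (4 * (4 * m))) ≤ 9 * q ^ 2 * K ^ m := by
      calc _ ≤ (3 * q) * 9 ^ (2 * (4 * m)) * ((3 * q) * 9 ^ (4 * (4 * m))) := by gcongr
        _ = 9 * q ^ 2 * (9 ^ (2 * (4 * m)) * 9 ^ (4 * (4 * m))) := by ring
        _ = 9 * q ^ 2 * K ^ m := by
          rw [hK, ← pow_mul, ← pow_add]
          congr 2
          ring
    have h7 := h5.trans h6
    have h8 : (Set.ncard _ : ℝ) ≤ ((9 * q ^ 2 * K ^ m : ℕ) : ℝ) := Nat.cast_le.2 h7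
    push_cast at h8
    rw [div_lt_iff₀ hApos]
    rw [div_lt_iff₀ hε] at hm1
    calc _ ≤ 9 * (q : ℝ) ^ 2 * (K : ℝ) ^ m := h8
      _ < 2 ^ m * ε * (K : ℝ) ^ m := by gcongr
      _ = ε * (2 ^ m * (K : ℝ) ^ m) := by ring
      _ ≤ ε * A.card := by gcongr

section Final

variable {V : Type} {G : SimpleGraph V}

theorem one_le_cheeger [Nonempty V] (hfin : ∀ v, (G.neighborSet v).Finite)
    (hex : ∀ A : Finset V, ∃ B : Finset V, A.card ≤ B.card ∧ ∀ w ∈ B, w ∉ A ∧ ∃ u ∈ A, G.Adj u w) :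
    1 ≤ sInf {r : ℝ | ∃ A : Finset V, A.Nonempty ∧
      r = (Set.ncard {p : V × V | p.1 ∈ A ∧ p.2 ∉ A ∧ G.Adj p.1 p.2} : ℝ) / (A.card : ℝ)} := by
  apply le_csInf
  · obtain ⟨v⟩ := ‹Nonempty V›
    exact ⟨_, {v}, by simp, rfl⟩
  · rintro r ⟨A, hA, rfl⟩
    obtain ⟨B, hB, hB'⟩ := hex A
    have hpos : (0 : ℝ) < A.card := by exact_mod_cast hA.card_pos
    rw [le_div_iff₀ hpos, one_mul]
    have hE : {p : V × V | p.1 ∈ A ∧ p.2 ∉ A ∧ G.Adj p.1 p.2}.Finite := by
      apply ((A.finite_toSet).biUnion (fun a _ => (hfin a).image (fun y => (a, y)))).subset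
      rintro ⟨a, y⟩ ⟨h1, _, h3⟩
      simp only [Set.mem_iUnion]
      exact ⟨a, h1, y, h3, rfl⟩
    have h1 : (↑B : Set V) ⊆ Prod.snd '' {p : V × V | p.1 ∈ A ∧ p.2 ∉ A ∧ G.Adj p.1 p.2} := by
      intro w hw
      obtain ⟨h2, u, hu, huw⟩ := hB' w hw
      exact ⟨(u, w), ⟨hu, h2, huw⟩, rfl⟩
    have h2 := (Set.ncard_le_ncard h1 (hE.image _)).trans (Set.ncard_image_le hE)
    rw [Set.ncard_coe_finset] at h2
    exact_mod_cast hB.trans h2

theorem vertex_expand (hfin : ∀ v, (G.neighborSet v).Finite)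
    (hex : ∀ A : Finset V, ∃ B : Finset V, A.card ≤ B.card ∧ ∀ w ∈ B, w ∉ A ∧ ∃ u ∈ A, G.Adj u w)
    (A : Finset V) : A.card ≤ Set.ncard {w : V | w ∉ A ∧ ∃ u ∈ A, G.Adj u w} := by
  obtain ⟨B, hB, hB'⟩ := hex A
  have hE : {w : V | w ∉ A ∧ ∃ u ∈ A, G.Adj u w}.Finite := by
    apply ((A.finite_toSet).biUnion (fun a _ => hfin a)).subset
    rintro w ⟨_, u, hu, huw⟩
    simp only [Set.mem_iUnion]
    exact ⟨u, hu, huw⟩
  have h2 := Set.ncard_le_ncard (s := (↑B : Set V)) (fun w hw => hB' w hw) hE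
  rw [Set.ncard_coe_finset] at h2
  exact hB.trans h2

theorem net_le (k : ℕ) (S : Set V) (A : Finset V) (hA : A.Nonempty) (hAS : (↑A : Set V) ⊆ S) :
    sInf {r : ℝ | ∃ A : Finset V, A.Nonempty ∧ (↑A : Set V) ⊆ S ∧
      r = (Set.ncard {p : V × V | p.1 ∈ A ∧ p.2 ∈ S ∧ p.2 ∉ A ∧ G.dist p.1 p.2 ≤ 2 * k} : ℝ)
        / (A.card : ℝ)} ≤
      (Set.ncard {p : V × V | p.1 ∈ A ∧ p.2 ∈ S ∧ p.2 ∉ A ∧ G.dist p.1 p.2 ≤ 2 * k} : ℝ)
        / (A.card : ℝ) := by
  apply csInf_le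
  · refine ⟨0, ?_⟩
    rintro r ⟨B, _, _, rfl⟩
    positivity
  · exact ⟨A, hA, hAS, rfl⟩

theorem maximal_of_cover {k : ℕ} {S : Set V}
    (h1 : ∀ u ∈ S, ∀ v ∈ S, u ≠ v → k ≤ G.dist u v) (h2 : ∀ w, ∃ u ∈ S, G.dist w u < k) :
    Maximal (fun T : Set V => ∀ u ∈ T, ∀ v ∈ T, u ≠ v → k ≤ G.dist u v) S := by
  refine ⟨h1, ?_⟩
  intro T hT hST w hw
  obtain ⟨u, hu, hwu⟩ := h2 w
  by_cases h : w = u
  · exact h ▸ hu
  · have := hT w hw u (hST hu) h
    omega

theorem ncard_eq_of_trans (ht : ∀ u v : V, ∃ φ : G ≃g G, φ u = v) (u v : V) :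
    (G.neighborSet u).ncard = (G.neighborSet v).ncard := by
  obtain ⟨φ, rfl⟩ := ht u v
  exact Nat.card_congr (φ.mapNeighborSet u)

end Final

theorem pigeon (Q : ℕ → ℝ → Prop) (N : ℕ) (mono : ∀ D C C', C ≤ C' → Q D C → Q D C')
    (h : ∀ C, 0 < C → ∃ D ≤ N, Q D C) : ∃ D, ∀ C, 0 < C → Q D C := by
  by_contra hn
  push Not at hn
  choose c hc1 hc2 using hn
  obtain ⟨D0, _, hD0⟩ := Finset.exists_min_image (Finset.range (N + 1)) c ⟨0, by simp⟩
  obtain ⟨D, hD, hQ⟩ := h (c D0) (hc1 D0)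
  exact hc2 D (mono D _ _ (hD0 D (by simp; omega)) hQ)

end Pool.Agent.H12.NetVT
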