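import Mathlib

set_option autoImplicit false

namespace Pool.Agent.H12.NimSq

structure Rules (mul : ℕ → ℕ → ℕ) : Prop where
  ha : ∀ a n, n < 2 ^ 2 ^ a → mul (2 ^ 2 ^ a) n = 2 ^ 2 ^ a * n
  hb : ∀ a, mul (2 ^ 2 ^ a) (2 ^ 2 ^ a) = 3 * 2 ^ 2 ^ a / 2
  assoc : ∀ x y z, mul (mul x y) z = mul x (mul y z)
  comm : ∀ x y, mul x y = mul y x
  dist : ∀ x y z, mul x (y ^^^ z) = mul x y ^^^ mul x z

theorem join_eq (k a : ℕ) {b : ℕ} (hb : b < 2 ^ k) : 2 ^ k * a + b = 2 ^ k * a ^^^ b := by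
  apply Nat.eq_of_testBit_eq
  intro j
  rw [Nat.testBit_two_pow_mul_add _ hb, Nat.testBit_xor, Nat.testBit_two_pow_mul]
  by_cases h : j < k
  · simp [h, show ¬ k ≤ j by omega]
  · have : b.testBit j = false :=
      Nat.testBit_lt_two_pow (hb.trans_le (Nat.pow_le_pow_right (by norm_num) (by omega)))
    simp [h, this, show k ≤ j by omega]

theorem F_succ (i : ℕ) : 2 ^ 2 ^ (i + 1) = 2 ^ 2 ^ i * 2 ^ 2 ^ i := by
  rw [← pow_add, pow_succ]; congr 1; ring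

theorem F_half (i : ℕ) : 2 ^ 2 ^ i = 2 * 2 ^ (2 ^ i - 1) := by
  have : 1 ≤ 2 ^ i := Nat.one_le_two_pow
  rw [← pow_succ']; congr 1; omega

theorem P_lt (i : ℕ) : 2 ^ (2 ^ i - 1) < 2 ^ 2 ^ i := by
  rw [F_half i]
  have : 0 < 2 ^ (2 ^ i - 1) := by positivity
  omega

theorem P_succ (i : ℕ) : 2 ^ (2 ^ (i + 1) - 1) = 2 ^ 2 ^ i * 2 ^ (2 ^ i - 1) := by
  have : 1 ≤ 2 ^ i := Nat.one_le_two_pow
  rw [← pow_add, pow_succ]; congr 1; omega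

theorem split (i x : ℕ) (hx : x < 2 ^ 2 ^ (i + 1)) :
    ∃ a b, a < 2 ^ 2 ^ i ∧ b < 2 ^ 2 ^ i ∧ x = 2 ^ 2 ^ i * a ^^^ b := by
  have hp : 0 < 2 ^ 2 ^ i := by positivity
  refine ⟨x / 2 ^ 2 ^ i, x % 2 ^ 2 ^ i, ?_, Nat.mod_lt _ hp, ?_⟩
  · rw [Nat.div_lt_iff_lt_mul hp, ← F_succ]; exact hx
  · rw [← join_eq _ _ (Nat.mod_lt _ hp), Nat.div_add_mod]

theorem join_lt (i : ℕ) {a b : ℕ} (ha : a < 2 ^ 2 ^ i) (hb : b < 2 ^ 2 ^ i) :
    2 ^ 2 ^ i * a ^^^ b < 2 ^ 2 ^ (i + 1) := by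
  rw [← join_eq _ _ hb, F_succ]
  nlinarith

variable {mul : ℕ → ℕ → ℕ} (R : Rules mul)
include R

theorem dist' (x y z : ℕ) : mul (y ^^^ z) x = mul y x ^^^ mul z x := by
  rw [R.comm, R.dist, R.comm x y, R.comm x z]

theorem mul_zero' (x : ℕ) : mul x 0 = 0 := by
  have := R.dist x 0 0
  simpa using this

theorem FF (i : ℕ) : mul (2 ^ 2 ^ i) (2 ^ 2 ^ i) = 2 ^ 2 ^ i ^^^ 2 ^ (2 ^ i - 1) := by
  rw [R.hb]
  have h := join_eq (2 ^ i) 1 (P_lt i)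
  rw [mul_one] at h
  rw [← h]
  have := F_half i
  omega

theorem one_one : mul 1 1 = 1 := by
  have h1 : mul 2 1 = 2 := R.ha 0 1 (by norm_num)
  have h2 : mul 2 2 = 3 := R.hb 0
  have h3 : mul 2 3 = 1 := by
    have := R.dist 2 2 1
    rw [h1, h2] at this
    exact this
  calc mul 1 1 = mul (mul 2 3) 1 := by rw [h3]
    _ = mul (mul 3 2) 1 := by rw [R.comm 2 3]
    _ = mul 3 (mul 2 1) := R.assoc _ _ _
    _ = 1 := by rw [h1, R.comm, h3]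

theorem mul4 (a b c d : ℕ) : mul (mul a b) (mul c d) = mul (mul a c) (mul b d) := by
  rw [R.assoc, R.assoc, ← R.assoc b, R.comm b c, R.assoc]

theorem formula (i : ℕ) {a b c d : ℕ} (ha : a < 2 ^ 2 ^ i) (hc : c < 2 ^ 2 ^ i) :
    mul (2 ^ 2 ^ i * a ^^^ b) (2 ^ 2 ^ i * c ^^^ d) =
      mul (2 ^ 2 ^ i) (mul a c ^^^ mul a d ^^^ mul b c) ^^^
        (mul (2 ^ (2 ^ i - 1)) (mul a c) ^^^ mul b d) := by
  rw [← R.ha i a ha, ← R.ha i c hc, R.dist, dist' R, dist' R, mul4 R, FF R, dist' R, R.dist, R.dist,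
    R.assoc, ← R.assoc b, R.comm b (2 ^ 2 ^ i), R.assoc]
  simp only [Nat.xor_comm, Nat.xor_left_comm]

theorem closed (i : ℕ) : ∀ x y, x < 2 ^ 2 ^ i → y < 2 ^ 2 ^ i → mul x y < 2 ^ 2 ^ i := by
  induction i with
  | zero =>
    intro x y hx hy
    have hx' : x = 0 ∨ x = 1 := by omega
    have hy' : y = 0 ∨ y = 1 := by omega
    rcases hx' with rfl | rfl <;> rcases hy' with rfl | rfl
    · simp [mul_zero' R]
    · rw [R.comm]; simp [mul_zero' R]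
    · simp [mul_zero' R]
    · simp [one_one R]
  | succ i ih =>
    intro x y hx hy
    obtain ⟨a, b, ha, hb, rfl⟩ := split i x hx
    obtain ⟨c, d, hc, hd, rfl⟩ := split i y hy
    have h1 : mul a c ^^^ mul a d ^^^ mul b c < 2 ^ 2 ^ i :=
      Nat.xor_lt_two_pow (Nat.xor_lt_two_pow (ih _ _ ha hc) (ih _ _ ha hd)) (ih _ _ hb hc)
    rw [formula R i ha hc, R.ha i _ h1]
    exact join_lt i h1 (Nat.xor_lt_two_pow (ih _ _ (P_lt i) (ih _ _ ha hc)) (ih _ _ hb hd))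

theorem sq_formula (i : ℕ) {a b : ℕ} (ha : a < 2 ^ 2 ^ i) :
    mul (2 ^ 2 ^ i * a ^^^ b) (2 ^ 2 ^ i * a ^^^ b) =
      2 ^ 2 ^ i * mul a a ^^^ (mul (2 ^ (2 ^ i - 1)) (mul a a) ^^^ mul b b) := by
  rw [formula R i ha ha, R.comm b a, Nat.xor_assoc, Nat.xor_self, Nat.xor_zero,
    R.ha i _ (closed R i _ _ ha ha)]

theorem surj (i : ℕ) : ∀ y, y < 2 ^ 2 ^ i → ∃ x, x < 2 ^ 2 ^ i ∧ mul x x = y := by
  induction i with
  | zero =>
    intro y hy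
    have hy' : y = 0 ∨ y = 1 := by omega
    rcases hy' with rfl | rfl
    · exact ⟨0, hy, mul_zero' R 0⟩
    · exact ⟨1, hy, one_one R⟩
  | succ i ih =>
    intro y hy
    obtain ⟨c, d, hc, hd, rfl⟩ := split i y hy
    obtain ⟨a, ha, rfl⟩ := ih c hc
    obtain ⟨b, hb, hb'⟩ := ih (mul (2 ^ (2 ^ i - 1)) (mul a a) ^^^ d)
      (Nat.xor_lt_two_pow (closed R i _ _ (P_lt i) hc) hd)
    refine ⟨_, join_lt i ha hb, ?_⟩
    rw [sq_formula R i ha, hb', ← Nat.xor_assoc (mul _ _), Nat.xor_self, Nat.zero_xor]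

theorem inv (i : ℕ) : ∃ y, y < 2 ^ 2 ^ i ∧ mul (2 ^ (2 ^ i - 1)) y = 1 := by
  induction i with
  | zero => exact ⟨1, by norm_num, one_one R⟩
  | succ i ih =>
    obtain ⟨y, hy, hy'⟩ := ih
    have h1 : 1 < 2 ^ 2 ^ i := Nat.one_lt_two_pow (by positivity)
    have h2 : 2 ^ 2 ^ i ≤ 2 ^ 2 ^ (i + 1) := by rw [F_succ]; nlinarith
    refine ⟨mul (2 ^ 2 ^ i * 1 ^^^ 1) (mul y y), closed R (i + 1) _ _ (join_lt i h1 h1)
      ((closed R i _ _ hy hy).trans_le h2), ?_⟩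
    rw [P_succ, ← R.ha i _ (P_lt i), mul4 R, R.dist, mul_one, FF R, R.ha i 1 h1, mul_one,
      Nat.xor_comm (2 ^ 2 ^ i), Nat.xor_assoc, Nat.xor_self, Nat.xor_zero, ← R.assoc _ y y, hy',
      ← R.assoc, R.comm _ 1, R.assoc, hy', one_one R]

theorem parity (i : ℕ) {n : ℕ} (hn : n < 2 ^ 2 ^ i) :
    mul (2 ^ 2 ^ i * n) (2 ^ 2 ^ i * n) % 2 = mul (2 ^ (2 ^ i - 1)) (mul n n) % 2 := by
  have h := sq_formula R i (b := 0) hn
  rw [Nat.xor_zero, mul_zero' R, Nat.xor_zero] at h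
  rw [h, Nat.xor_mod_two_eq, F_half i, mul_assoc]
  omega

theorem even_small (i : ℕ) {n : ℕ} (hn : n < 2 ^ 2 ^ i) :
    mul (2 ^ 2 ^ (i + 1) * n) (2 ^ 2 ^ (i + 1) * n) % 2 = 0 := by
  have h1 : 1 < 2 ^ 2 ^ i := Nat.one_lt_two_pow (by positivity)
  have h2 : 2 ^ 2 ^ i ≤ 2 ^ 2 ^ (i + 1) := by rw [F_succ]; nlinarith
  rw [parity R (i + 1) (hn.trans_le h2), P_succ, ← R.ha i _ (P_lt i), R.assoc,
    R.ha i _ (closed R i _ _ (P_lt i) (closed R i _ _ hn hn)), F_half i, mul_assoc]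
  omega

theorem odd_some (i : ℕ) : ∃ n, n < 2 ^ 2 ^ i ∧ mul (2 ^ 2 ^ i * n) (2 ^ 2 ^ i * n) % 2 = 1 := by
  obtain ⟨y, hy, hy'⟩ := inv R i
  obtain ⟨x, hx, rfl⟩ := surj R i y hy
  exact ⟨x, hx, by rw [parity R i hx, hy']⟩

theorem not_fg (M : Submodule ℤ (ℕ → ℤ))
    (hM : ∀ e : ℕ, (fun n => (mul (2 ^ e * n) (2 ^ e * n) : ℤ)) ∈ M) : ¬ M.FG := by
  intro hfg
  let φ : (ℕ → ℤ) →ₗ[ℤ] (ℕ → ZMod 2) := (Int.castAddHom (ZMod 2)).toIntLinearMap.compLeft ℕ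
  have h1 : Module.Finite ℤ (M.map φ) := Module.Finite.iff_fg.2 (hfg.map φ)
  have h2 : Finite (M.map φ) := by
    apply Module.finite_of_fg_torsion
    intro x
    refine ⟨⟨2, by simp⟩, ?_⟩
    ext n
    simp only [Submonoid.mk_smul, SetLike.val_smul, Pi.smul_apply, zsmul_eq_mul, Int.cast_ofNat,
      ZeroMemClass.coe_zero, Pi.zero_apply]
    have : (2 : ZMod 2) = 0 := rfl
    rw [this, zero_mul]
  let u : ℕ → (ℕ → ZMod 2) := fun i n => ((mul (2 ^ 2 ^ (i + 1) * n) (2 ^ 2 ^ (i + 1) * n) : ℕ) : ZMod 2)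
  have hu : ∀ i, u i ∈ (M.map φ : Set (ℕ → ZMod 2)) := by
    intro i
    refine ⟨_, hM (2 ^ (i + 1)), ?_⟩
    ext n
    simp [φ, u]
  have hlt : ∀ i j, i < j → u i ≠ u j := by
    intro i j hij h
    obtain ⟨n, hn, hn'⟩ := odd_some R (i + 1)
    have h3 := even_small R j (n := n) (hn.trans_le (Nat.pow_le_pow_right (by norm_num)
      (Nat.pow_le_pow_right (by norm_num) hij)))
    have h4 := congrFun h n
    simp only [u] at h4
    rw [ZMod.natCast_eq_natCast_iff'] at h4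
    omega
  have hinj : Function.Injective u := by
    intro i j h
    rcases lt_trichotomy i j with h' | h' | h'
    · exact absurd h (hlt i j h')
    · exact h'
    · exact absurd h.symm (hlt j i h')
  exact Set.infinite_of_injective_forall_mem hinj hu (Set.toFinite _)

end Pool.Agent.H12.NimSq
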