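import Mathlib

set_option autoImplicit false

namespace Pool.Agent.H12.Rank2Perm

open Finset Polynomial ComplexConjugate Nat

theorem card_map {ι : Type} [Fintype ι] [DecidableEq ι] (T S : Finset ι) (h : #T = #S) :
    #{σ : Equiv.Perm ι | T.map σ.toEmbedding = S} = (#T)! * (Fintype.card ι - #T)! := by
  obtain ⟨τ, hτ⟩ := Equiv.Perm.exists_map_finset_eq T S h
  have h1 := DomMulAct.stabilizer_card fun a => decide (a ∈ T)
  rw [Fintype.prod_bool, Fintype.card_subtype, Fintype.card_subtype, Fintype.card_subtype] at h1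
  have e1 : ({a | decide (a ∈ T) = true} : Finset ι) = T := by ext; simp
  have e2 : ({a | decide (a ∈ T) = false} : Finset ι) = Tᶜ := by ext; simp
  rw [e1, e2, card_compl] at h1
  rw [← h1]
  symm
  refine card_equiv (Equiv.mulLeft τ) fun σ => ?_
  simp only [mem_filter, mem_univ, true_and, Equiv.coe_mulLeft]
  have : T.map (τ * σ).toEmbedding = (T.map σ.toEmbedding).map τ.toEmbedding := by
    rw [Finset.map_map]; rfl
  rw [this, ← hτ, map_inj]
  constructor
  · intro hσ
    refine eq_of_subset_of_card_le (fun x hx => ?_) (by simp)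
    obtain ⟨a, ha, rfl⟩ := mem_map.1 hx
    simpa [ha] using congrFun hσ a
  · intro hσ
    funext a
    have : σ a ∈ T.map σ.toEmbedding ↔ a ∈ T := mem_map' σ.toEmbedding
    rw [hσ] at this
    simp [this]

theorem per_eq {ι : Type} [Fintype ι] [DecidableEq ι] (x y : ι → ℂ) :
    (Matrix.of fun i j => x i * conj (x j) + y i * conj (y j)).permanent =
      ∑ j ∈ range (Fintype.card ι + 1), ((j ! * (Fintype.card ι - j)! : ℕ) : ℂ) *
        ((∏ i, (C (x i) * X + C (y i))).coeff j * conj ((∏ i, (C (x i) * X + C (y i))).coeff j)) := by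
  let u : Finset ι → ℂ := fun S => (∏ i ∈ S, x i) * ∏ i ∈ Sᶜ, y i
  have hc : ∀ j, (∏ i, (C (x i) * X + C (y i))).coeff j = ∑ S ∈ powersetCard j univ, u S := by
    intro j
    rw [prod_add, finsetSum_coeff, powersetCard_eq_filter, sum_filter]
    refine sum_congr rfl fun S _ => ?_
    rw [prod_mul_distrib, prod_const, ← map_prod, ← map_prod, mul_right_comm, ← C_mul,
      coeff_C_mul_X_pow]
    simp [u, eq_comm, compl_eq_univ_sdiff]
  have h1 : ∀ T : Finset ι, ∑ σ : Equiv.Perm ι, u (T.map σ.toEmbedding) =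
      (((#T)! * (Fintype.card ι - #T)! : ℕ) : ℂ) * ∑ S ∈ powersetCard (#T) univ, u S := by
    intro T
    rw [← sum_fiberwise_of_maps_to (t := powersetCard (#T) univ)
      (g := fun σ : Equiv.Perm ι => T.map σ.toEmbedding) (fun σ _ => by simp), mul_sum]
    refine sum_congr rfl fun S hS => ?_
    rw [sum_congr rfl fun σ hσ => by rw [(mem_filter.1 hσ).2], sum_const,
      card_map T S (mem_powersetCard.1 hS).2.symm, nsmul_eq_mul]
  have h2 : ∀ σ : Equiv.Perm ι, ∏ i, (x (σ i) * conj (x i) + y (σ i) * conj (y i)) =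
      ∑ T ∈ (univ : Finset ι).powerset, u (T.map σ.toEmbedding) * conj (u T) := by
    intro σ
    rw [prod_add]
    refine sum_congr rfl fun T _ => ?_
    have : (T.map σ.toEmbedding)ᶜ = Tᶜ.map σ.toEmbedding := by
      ext a; simp [mem_map_equiv]
    simp only [u, this, prod_map, prod_mul_distrib, map_mul, map_prod, ← compl_eq_univ_sdiff]
    simp only [Equiv.toEmbedding_apply]
    ring
  simp only [Matrix.permanent, Matrix.of_apply, h2, hc]
  rw [sum_comm, sum_powerset, Finset.card_univ]
  refine sum_congr rfl fun j _ => ?_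
  rw [map_sum, mul_sum, mul_sum]
  refine sum_congr rfl fun T hT => ?_
  rw [← sum_mul, h1, (mem_powersetCard.1 hT).2, mul_assoc]

def addL : List GaussianInt → List GaussianInt → List GaussianInt
  | [], b => b
  | a, [] => a
  | a :: s, b :: t => (a + b) :: addL s t

theorem addL_getD : ∀ (a b : List GaussianInt) (j : ℕ),
    (addL a b).getD j 0 = a.getD j 0 + b.getD j 0
  | [], _, _ => by simp [addL]
  | _ :: _, [], _ => by simp [addL]
  | _ :: _, _ :: _, 0 => by simp [addL]
  | _ :: s, _ :: t, j + 1 => by simpa [addL] using addL_getD s t j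

def cs : List (GaussianInt × GaussianInt) → List GaussianInt
  | [] => [1]
  | p :: l => addL (0 :: (cs l).map (p.1 * ·)) ((cs l).map (p.2 * ·))

theorem cs_eq : ∀ (l : List (GaussianInt × GaussianInt)) (j : ℕ),
    (l.map fun p : GaussianInt × GaussianInt => C (p.1 : ℂ) * X + C (p.2 : ℂ)).prod.coeff j =
      GaussianInt.toComplex ((cs l).getD j 0)
  | [], j => by cases j <;> simp [cs, coeff_one]
  | p :: l, j => by
    have m : ∀ (a : GaussianInt) (i : ℕ), ((cs l).map (a * ·)).getD i 0 = a * (cs l).getD i 0 :=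
      fun a i => by simpa using List.getD_map (cs l) 0 (n := i) (a * ·)
    rw [List.map_cons, List.prod_cons, cs, addL_getD, add_mul, coeff_add, mul_assoc, coeff_C_mul,
      coeff_C_mul, cs_eq l, m]
    cases j with
    | zero => simp
    | succ j => rw [coeff_X_mul, cs_eq l, List.getD_cons_succ, m]; simp

def N (l : List (GaussianInt × GaussianInt)) (m : ℕ) : ℤ :=
  ∑ j ∈ range (m + 1), ((j ! * (m - j)! : ℕ) : ℤ) * ((cs l).getD j 0).norm

/-- The Gram matrix of the vectors `v i ∈ ℤ[i]²`. -/
def gram {n : ℕ} (v : Fin n → GaussianInt × GaussianInt) : Matrix (Fin n) (Fin n) ℂ :=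
  Matrix.of fun i j => (v i).1 * conj ((v j).1 : ℂ) + (v i).2 * conj ((v j).2 : ℂ)

open ComplexOrder in
theorem gram_psd {n : ℕ} (v : Fin n → GaussianInt × GaussianInt) : (gram v).PosSemidef := by
  have : gram v = (Matrix.of fun i => ![((v i).1 : ℂ), (v i).2]) *
      (Matrix.of fun i => ![((v i).1 : ℂ), (v i).2]).conjTranspose := by
    ext i j
    simp [gram, Matrix.mul_apply]
  rw [this]
  exact Matrix.posSemidef_self_mul_conjTranspose _

theorem per_sub {n : ℕ} (v : Fin n → GaussianInt × GaussianInt) {ι : Type} [Fintype ι]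
    [DecidableEq ι] (e : ι → Fin n) (he : Function.Injective e) (p : Fin n → Bool)
    (hp : ∀ i, p i = true ↔ ∃ a, e a = i) :
    ((gram v).submatrix e e).permanent =
      (N (List.ofFn fun i => if p i then v i else (0, 1)) (Fintype.card ι) : ℤ) := by
  have h := per_eq (fun a => ((v (e a)).1 : ℂ)) fun a => ((v (e a)).2 : ℂ)
  have e1 : ∏ a, (C ((v (e a)).1 : ℂ) * X + C ((v (e a)).2 : ℂ)) =
      ((List.ofFn fun i => if p i then v i else (0, 1)).map
        fun p => C (p.1 : ℂ) * X + C (p.2 : ℂ)).prod := by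
    rw [List.map_ofFn, List.prod_ofFn]
    refine prod_of_injOn e he.injOn (fun _ _ => mem_univ _) (fun i _ hi => ?_) fun a _ => ?_
    · have : ¬ p i = true := fun h => hi (by simpa using (hp i).1 h)
      simp [this]
    · simp [(hp (e a)).2 ⟨a, rfl⟩]
  rw [e1] at h
  refine h.trans ?_
  rw [N, Int.cast_sum]
  refine sum_congr rfl fun j _ => ?_
  rw [cs_eq, Complex.mul_conj, Int.cast_mul, Int.cast_natCast, GaussianInt.intCast_complex_norm]

theorem entry {n : ℕ} (v : Fin n → GaussianInt × GaussianInt) (i j : Fin n) :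
    ‖gram v i j‖ ^ 2 = (((v i).1 * star (v j).1 + (v i).2 * star (v j).2).norm : ℤ) := by
  rw [GaussianInt.intCast_real_norm, Complex.normSq_eq_norm_sq]
  simp [gram, GaussianInt.toComplex_star]

end Pool.Agent.H12.Rank2Perm
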