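import Mathlib

set_option autoImplicit false

namespace Pool.Agent.H12.Tang

open scoped Classical Matroid

variable {α : Type}

/-- The characteristic polynomial of a finite matroid, evaluated at an integer. -/
noncomputable def chi [Fintype α] (M : Matroid α) (x : ℤ) : ℤ :=
  ∑ X ∈ Finset.univ.filter (fun X : Finset α => (↑X : Set α) ⊆ M.E),
    (-1 : ℤ) ^ X.card * x ^ ((M.eRk M.E).toNat - (M.eRk (↑X : Set α)).toNat)

/-- No loops and no parallel pairs. -/
def Simple (M : Matroid α) : Prop := ∀ e ∈ M.E, ∀ f ∈ M.E, M.Indep {e, f}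

/-- Representable over the field F. -/
def Rep (F : Type) [Field F] (M : Matroid α) : Prop :=
  ∃ (n : ℕ) (v : α → Fin n → F), ∀ I ⊆ M.E, (M.Indep I ↔ LinearIndepOn F v I)

/-- The critical exponent over a field of order q exceeds k. -/
def CritGt [Fintype α] (q k : ℕ) (M : Matroid α) : Prop := ∀ j ≤ k, chi M ((q : ℤ) ^ j) ≤ 0

/-- Tangential k-block over the finite field F. -/
def Tangential (F : Type) [Field F] [Fintype F] [Fintype α] (k : ℕ) (M : Matroid α) : Prop :=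
  Rep F M ∧ Simple M ∧ CritGt (Fintype.card F) k M ∧
    ∀ N : Matroid α, N <m M → Simple N → ¬ CritGt (Fintype.card F) k N

/-- Modular flat. -/
def Modular (M : Matroid α) (H : Set α) : Prop :=
  M.IsFlat H ∧ ∀ X : Set α, M.IsFlat X → M.eRk H + M.eRk X = M.eRk (H ∪ X) + M.eRk (H ∩ X)

/-- There is a chain of modular flats, one of each rank from 0 to the rank of M. -/
def Supersolvable (M : Matroid α) : Prop :=
  ∃ Fl : ℕ → Set α, Monotone Fl ∧
    ∀ i : ℕ, (i : ℕ∞) ≤ M.eRk M.E → Modular M (Fl i) ∧ M.eRk (Fl i) = i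

/-- M is isomorphic to the simplification of a quotient Q of the cycle matroid K of the complete
graph on n vertices. -/
def SimpQuot (n : ℕ) (M : Matroid α) : Prop :=
  ∃ K Q : Matroid (Sym2 (Fin n)),
    K.E = {e | ¬ e.IsDiag} ∧
    (∀ I ⊆ K.E, (K.Indep I ↔ (SimpleGraph.fromEdgeSet I).IsAcyclic)) ∧
    Q.E = K.E ∧ (∀ X, Q.IsFlat X → K.IsFlat X) ∧
    ∃ S ⊆ Q.E, (∀ e ∈ S, ∀ f ∈ S, Q.Indep {e, f}) ∧
      (∀ e ∈ Q.E, Q.Indep {e} → ∃ f ∈ S, e = f ∨ ¬ Q.Indep {e, f}) ∧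
      ∃ g : α → Sym2 (Fin n), Set.InjOn g M.E ∧ g '' M.E = S ∧
        ∀ I ⊆ M.E, (M.Indep I ↔ Q.Indep (g '' I))

end Pool.Agent.H12.Tang
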