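import Mathlib
import Pool.Agent.H12.TangDefs

set_option autoImplicit false

namespace Pool.Agent.H12.Tang

open scoped Classical Matroid
open Set Submodule Module

section Rep

variable {α F W : Type} [Field F] [AddCommGroup W] [Module F W] {M : Matroid α} {v : α → W}

noncomputable def vecM [Finite α] (F : Type) [Field F] [Module F W] (E : Set α) (v : α → W) :
    Matroid α :=
  (IndepMatroid.ofFinite (E := E) (toFinite E) (fun I => I ⊆ E ∧ LinearIndepOn F v I)
    ⟨empty_subset _, linearIndepOn_empty _ _⟩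
    (fun I J hJ hIJ => ⟨hIJ.trans hJ.1, hJ.2.mono hIJ⟩)
    (fun I J hI hJ hlt => by
      by_contra hn
      push Not at hn
      have h1 : ∀ e ∈ J, v e ∈ span F (v '' I) := by
        intro e he
        by_cases heI : e ∈ I
        · exact subset_span ⟨e, heI, rfl⟩
        · by_contra h
          exact hn e he heI (insert_subset (hJ.1 he) hI.1) ((linearIndepOn_insert heI).2 ⟨hI.2, h⟩)
      have h2 : span F (v '' J) ≤ span F (v '' I) := by
        rw [span_le]
        rintro _ ⟨e, he, rfl⟩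
        exact h1 e he
      have : Fintype I := Fintype.ofFinite I
      have : Fintype J := Fintype.ofFinite J
      have h3 := finrank_span_eq_card (R := F) hI.2
      have h4 := finrank_span_eq_card (R := F) hJ.2
      rw [← image_eq_range] at h3 h4
      have : Module.Finite F (span F (v '' I)) := Module.Finite.span_of_finite F (toFinite _)
      have h5 := Submodule.finrank_mono h2
      rw [h3, h4, ← Nat.card_eq_fintype_card, ← Nat.card_eq_fintype_card, Nat.card_coe_set_eq,
        Nat.card_coe_set_eq] at h5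
      omega)
    (fun I hI => hI.1)).matroid

theorem vecM_E [Finite α] (E : Set α) : (vecM F E v).E = E := rfl

theorem vecM_indep [Finite α] (E I : Set α) :
    (vecM F E v).Indep I ↔ I ⊆ E ∧ LinearIndepOn F v I := by
  simp [vecM]

theorem vecM_rep [Finite α] (E : Set α) :
    ∀ I ⊆ (vecM F E v).E, ((vecM F E v).Indep I ↔ LinearIndepOn F v I) := by
  intro I hI
  rw [vecM_indep]
  exact ⟨fun h => h.2, fun h => ⟨hI, h⟩⟩

variable (hv : ∀ I ⊆ M.E, (M.Indep I ↔ LinearIndepOn F v I))
include hv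

theorem indep_closure {I : Set α} (hI : M.Indep I) {e : α} (he : e ∈ M.E) :
    e ∈ M.closure I ↔ v e ∈ span F (v '' I) := by
  by_cases heI : e ∈ I
  · exact ⟨fun _ => subset_span ⟨e, heI, rfl⟩, fun _ => M.subset_closure I hI.subset_ground heI⟩
  · rw [hI.mem_closure_iff_of_notMem heI, Matroid.dep_iff, hv _ (insert_subset he hI.subset_ground),
      linearIndepOn_insert heI]
    have := (hv I hI.subset_ground).1 hI
    simp [this, insert_subset he hI.subset_ground]

theorem span_basis {I X : Set α} (h : M.IsBasis I X) : span F (v '' I) = span F (v '' X) := by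
  apply le_antisymm (span_mono (image_mono h.subset))
  rw [span_le]
  rintro _ ⟨e, he, rfl⟩
  exact (indep_closure hv h.indep (h.subset_ground he)).1 (h.subset_closure he)

theorem mem_closure {X : Set α} (hX : X ⊆ M.E) {e : α} (he : e ∈ M.E) :
    e ∈ M.closure X ↔ v e ∈ span F (v '' X) := by
  obtain ⟨I, hI⟩ := M.exists_isBasis X hX
  rw [← hI.closure_eq_closure, indep_closure hv hI.indep he, span_basis hv hI]

theorem eRk_eq [Finite α] {X : Set α} (hX : X ⊆ M.E) :
    M.eRk X = (finrank F (span F (v '' X)) : ℕ) := by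
  obtain ⟨I, hI⟩ := M.exists_isBasis X hX
  have : Fintype I := Fintype.ofFinite I
  have h3 := finrank_span_eq_card (R := F) ((hv I hI.indep.subset_ground).1 hI.indep)
  rw [← image_eq_range] at h3
  rw [← span_basis hv hI, h3, hI.eRk_eq_encard, ← Nat.card_eq_fintype_card, Nat.card_coe_set_eq,
    (toFinite I).cast_ncard_eq]

end Rep

theorem contract_rk {α : Type} {M : Matroid α} {C X : Set α} (hC : C ⊆ M.E) (hX : X ⊆ M.E \ C) :
    (M ／ C).eRk X + M.eRk C = M.eRk (X ∪ C) := by
  obtain ⟨I, hI⟩ := M.exists_isBasis C hC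
  obtain ⟨J, hJ⟩ := (M ／ C).exists_isBasis X hX
  have h1 := hI.contract_indep_iff.1 hJ.indep
  have h2 : M.IsBasis (J ∪ I) (X ∪ C) := by
    apply h1.1.isBasis_of_subset_of_subset_closure (union_subset_union hJ.subset hI.subset)
    have h3 : M.closure (J ∪ I) = M.closure (J ∪ C) := by
      rw [← M.closure_union_closure_right_eq, hI.closure_eq_closure, M.closure_union_closure_right_eq]
    rw [h3]
    apply union_subset
    · have := hJ.subset_closure
      rw [Matroid.contract_closure_eq] at this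
      exact this.trans sdiff_subset
    · exact subset_union_right.trans (M.subset_closure _
        (union_subset (hJ.subset.trans (hX.trans sdiff_subset)) hC))
  rw [h2.eRk_eq_encard, hJ.eRk_eq_encard, hI.eRk_eq_encard,
    encard_union_eq (h1.2.symm.mono_right hI.subset)]

section Count

variable {α F W : Type} [Field F] [Fintype F] [AddCommGroup W] [Module F W] [Module.Finite F W]

theorem card_vanish (U : Submodule F W) (j : ℕ) :
    Nat.card {φ : W →ₗ[F] (Fin j → F) // U ≤ LinearMap.ker φ} =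
      (Fintype.card F ^ j) ^ (finrank F W - finrank F U) := by
  have e : {φ : W →ₗ[F] (Fin j → F) // U ≤ LinearMap.ker φ} ≃ ((W ⧸ U) →ₗ[F] (Fin j → F)) :=
    { toFun := fun φ => U.liftQ φ.1 φ.2
      invFun := fun ψ => ⟨ψ.comp U.mkQ, fun x hx => by
        simp [(Submodule.Quotient.mk_eq_zero U).2 hx]⟩
      left_inv := fun φ => Subtype.ext (U.liftQ_mkQ _ _)
      right_inv := fun ψ => by
        apply LinearMap.ext
        intro x
        obtain ⟨y, rfl⟩ := U.mkQ_surjective x
        simp }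
  rw [Nat.card_congr e, Module.natCard_eq_pow_finrank (K := F), Module.finrank_linearMap,
    Nat.card_eq_fintype_card, ← pow_mul]
  have := U.finrank_quotient_add_finrank
  simp only [Module.finrank_fintype_fun_eq_card, Fintype.card_fin]
  congr 1
  rw [mul_comm]
  congr 1
  omega

theorem incl_excl (v : α → W) (C : Set α) (Y : Finset α) (j : ℕ) :
    (Nat.card {φ : W →ₗ[F] (Fin j → F) // (∀ c ∈ C, φ (v c) = 0) ∧ ∀ e ∈ Y, φ (v e) ≠ 0} : ℤ) =
      ∑ X ∈ Y.powerset, (-1 : ℤ) ^ X.card *
        ((Fintype.card F : ℤ) ^ j) ^ (finrank F W - finrank F (span F (v '' (↑X ∪ C)))) := by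
  have : Finite W := Module.finite_of_finite F
  have : Finite (W →ₗ[F] (Fin j → F)) := Finite.of_injective _ DFunLike.coe_injective
  have := Fintype.ofFinite (W →ₗ[F] (Fin j → F))
  have h1 : ∀ X : Finset α,
      ((Fintype.card F : ℤ) ^ j) ^ (finrank F W - finrank F (span F (v '' (↑X ∪ C)))) =
        ∑ φ : W →ₗ[F] (Fin j → F), if (∀ c ∈ C, φ (v c) = 0) ∧ ∀ e ∈ X, φ (v e) = 0 then 1 else 0 := by
    intro X
    have h2 := card_vanish (span F (v '' (↑X ∪ C))) j
    rw [Nat.card_eq_fintype_card, Fintype.card_subtype] at h2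
    rw [Finset.sum_boole]
    have h3 : (Finset.univ.filter (fun φ : W →ₗ[F] (Fin j → F) =>
        (∀ c ∈ C, φ (v c) = 0) ∧ ∀ e ∈ X, φ (v e) = 0)) =
        Finset.univ.filter (fun φ : W →ₗ[F] (Fin j → F) =>
          span F (v '' (↑X ∪ C)) ≤ LinearMap.ker φ) := by
      apply Finset.filter_congr
      intro φ _
      rw [span_le]
      constructor
      · rintro ⟨h4, h5⟩ _ ⟨e, he | he, rfl⟩
        · exact h5 e he
        · exact h4 e he
      · intro h
        exact ⟨fun c hc => h ⟨c, Or.inr hc, rfl⟩, fun e he => h ⟨e, Or.inl he, rfl⟩⟩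
    rw [h3, h2]
    push_cast
    rfl
  simp only [h1, Finset.mul_sum]
  rw [Finset.sum_comm, Nat.card_eq_fintype_card, Fintype.card_subtype, ← Finset.sum_boole]
  apply Finset.sum_congr rfl
  intro φ _
  by_cases hC : ∀ c ∈ C, φ (v c) = 0
  · have h4 := Finset.prod_one_add (s := Y) (f := fun e => if φ (v e) = 0 then (-1 : ℤ) else 0)
    have h5 : ∀ X ∈ Y.powerset, ∏ e ∈ X, (if φ (v e) = 0 then (-1 : ℤ) else 0) =
        (-1 : ℤ) ^ X.card * if (∀ c ∈ C, φ (v c) = 0) ∧ ∀ e ∈ X, φ (v e) = 0 then 1 else 0 := by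
      intro X _
      by_cases h : ∀ e ∈ X, φ (v e) = 0
      · rw [if_pos ⟨hC, h⟩, Finset.prod_congr rfl (fun e he => if_pos (h e he))]
        simp
      · rw [if_neg (fun h' => h h'.2), mul_zero]
        push Not at h
        obtain ⟨e, he, he'⟩ := h
        exact Finset.prod_eq_zero he (if_neg he')
    rw [← Finset.sum_congr rfl h5, ← h4]
    by_cases h : ∀ e ∈ Y, φ (v e) ≠ 0
    · rw [if_pos ⟨hC, h⟩]
      symm
      exact Finset.prod_eq_one (fun e he => by rw [if_neg (h e he)]; simp)
    · rw [if_neg (fun h' => h h'.2)]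
      push Not at h
      obtain ⟨e, he, he'⟩ := h
      symm
      exact Finset.prod_eq_zero he (by rw [if_pos he']; simp)
  · simp [hC]

theorem chi_pos_iff [Fintype α] {M : Matroid α} {v : α → W}
    (hv : ∀ I ⊆ M.E, (M.Indep I ↔ LinearIndepOn F v I)) {C : Set α} (hC : C ⊆ M.E) (D : Set α)
    (j : ℕ) :
    0 < chi (M ／ C ＼ D) ((Fintype.card F : ℤ) ^ j) ↔
      ∃ φ : W →ₗ[F] (Fin j → F), (∀ c ∈ C, φ (v c) = 0) ∧ ∀ e ∈ (M.E \ C) \ D, φ (v e) ≠ 0 := by
  have : Finite W := Module.finite_of_finite F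
  have : Finite (W →ₗ[F] (Fin j → F)) := Finite.of_injective _ DFunLike.coe_injective
  obtain ⟨Y, hY⟩ : ∃ Y : Finset α, (↑Y : Set α) = (M.E \ C) \ D :=
    ⟨Finset.univ.filter (fun e => e ∈ (M.E \ C) \ D), by ext e; simp⟩
  have hrk : ∀ X : Set α, X ⊆ (M.E \ C) \ D →
      ((M ／ C ＼ D).eRk X).toNat + finrank F (span F (v '' C)) = finrank F (span F (v '' (X ∪ C))) := by
    intro X hX
    have h1 : (M ／ C ＼ D).eRk X = (M ／ C).eRk X := by
      rw [Matroid.delete_eq_restrict]
      exact Matroid.restrict_eRk_eq _ hX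
    have h2 := contract_rk hC (hX.trans sdiff_subset)
    rw [eRk_eq hv hC, eRk_eq hv (union_subset (hX.trans (sdiff_subset.trans sdiff_subset)) hC)] at h2
    rw [h1]
    generalize (M ／ C).eRk X = a at h2
    induction a with
    | top => simp at h2
    | coe a => exact_mod_cast h2
  have hcount := incl_excl (F := F) v C Y j
  have hq : (0 : ℤ) < (Fintype.card F : ℤ) ^ j := pow_pos (by exact_mod_cast Fintype.card_pos) _
  have hmul : (Nat.card {φ : W →ₗ[F] (Fin j → F) // (∀ c ∈ C, φ (v c) = 0) ∧ ∀ e ∈ Y, φ (v e) ≠ 0} : ℤ) =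
      chi (M ／ C ＼ D) ((Fintype.card F : ℤ) ^ j) *
        ((Fintype.card F : ℤ) ^ j) ^ (finrank F W - finrank F (span F (v '' (↑Y ∪ C)))) := by
    rw [hcount, chi, Finset.sum_mul]
    apply Finset.sum_congr
    · ext X
      simp only [Finset.mem_powerset, Finset.mem_filter, Finset.mem_univ, true_and,
        Matroid.delete_ground, Matroid.contract_ground, ← hY, Finset.coe_subset]
    · intro X hX
      simp only [Finset.mem_filter, Finset.mem_univ, true_and, Matroid.delete_ground,
        Matroid.contract_ground] at hX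
      rw [mul_assoc, ← pow_add]
      have h1 := hrk X hX
      have h2 := hrk _ (le_refl ((M.E \ C) \ D))
      have h3 : finrank F (span F (v '' (↑X ∪ C))) ≤ finrank F (span F (v '' (((M.E \ C) \ D) ∪ C))) :=
        Submodule.finrank_mono (span_mono (image_mono (union_subset_union_left _ hX)))
      have h4 := Submodule.finrank_le (span F (v '' (((M.E \ C) \ D) ∪ C)))
      simp only [Matroid.delete_ground, Matroid.contract_ground]
      rw [hY]
      congr 2
      omega
  have hpos := pow_pos hq (finrank F W - finrank F (span F (v '' (↑Y ∪ C))))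
  rw [← mul_pos_iff_of_pos_right hpos, ← hmul, Nat.cast_pos, Nat.card_pos_iff]
  simp only [← hY, Finset.mem_coe]
  constructor
  · rintro ⟨⟨φ, h⟩, _⟩
    exact ⟨φ, h⟩
  · rintro ⟨φ, h⟩
    exact ⟨⟨⟨φ, h⟩⟩, inferInstance⟩

omit [Fintype F] [Module.Finite F W] in
theorem pad {j k : ℕ} (hjk : j ≤ k) (φ : W →ₗ[F] (Fin j → F)) :
    ∃ ψ : W →ₗ[F] (Fin k → F), ∀ w, ψ w = 0 ↔ φ w = 0 := by
  refine ⟨LinearMap.pi (fun i : Fin k => if h : i.val < j then (LinearMap.proj ⟨i.val, h⟩).comp φ else 0), ?_⟩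
  intro w
  constructor
  · intro h
    funext i
    have := congrFun h ⟨i.val, by omega⟩
    simpa using this
  · intro h
    funext i
    by_cases hi : i.val < j <;> simp [hi, h]

theorem not_critGt_iff [Fintype α] {M : Matroid α} {v : α → W}
    (hv : ∀ I ⊆ M.E, (M.Indep I ↔ LinearIndepOn F v I)) {C : Set α} (hC : C ⊆ M.E) (D : Set α)
    (k : ℕ) :
    ¬ CritGt (Fintype.card F) k (M ／ C ＼ D) ↔
      ∃ φ : W →ₗ[F] (Fin k → F), (∀ c ∈ C, φ (v c) = 0) ∧ ∀ e ∈ (M.E \ C) \ D, φ (v e) ≠ 0 := by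
  unfold CritGt
  push Not
  constructor
  · rintro ⟨j, hj, h⟩
    obtain ⟨φ, h1, h2⟩ := (chi_pos_iff hv hC D j).1 h
    obtain ⟨ψ, hψ⟩ := pad hj φ
    exact ⟨ψ, fun c hc => (hψ _).2 (h1 c hc), fun e he h => h2 e he ((hψ _).1 h)⟩
  · intro h
    exact ⟨k, le_rfl, (chi_pos_iff hv hC D k).2 h⟩

theorem critGt_iff [Fintype α] {M : Matroid α} {v : α → W}
    (hv : ∀ I ⊆ M.E, (M.Indep I ↔ LinearIndepOn F v I)) (k : ℕ) :
    CritGt (Fintype.card F) k M ↔ ∀ φ : W →ₗ[F] (Fin k → F), ∃ e ∈ M.E, φ (v e) = 0 := by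
  have h := not_critGt_iff hv (empty_subset _) ∅ k
  simp only [Matroid.contract_empty, Matroid.delete_empty, mem_empty_iff_false, false_imp_iff,
    implies_true, true_and, sdiff_empty] at h
  rw [← not_iff_not, h]
  push Not
  rfl

end Count

end Pool.Agent.H12.Tang
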