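import Mathlib
import Pool.Agent.H12.Tang1

set_option autoImplicit false

namespace Pool.Agent.H12.Tang

open scoped Classical Matroid
open Set Submodule Module

section Graphic

variable {V : Type}

noncomputable def inc : Sym2 V → (V → ZMod 2) :=
  Sym2.lift ⟨fun a b => Pi.single a 1 + Pi.single b 1, fun _ _ => add_comm _ _⟩

theorem inc_mk (a b : V) : inc s(a, b) = Pi.single a 1 + Pi.single b 1 := rfl

theorem inc_mem_span [Fintype V] (J : Set (Sym2 V)) (a b : V) :
    inc s(a, b) ∈ span (ZMod 2) (inc '' J) ↔ (SimpleGraph.fromEdgeSet J).Reachable a b := by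
  constructor
  · intro h
    let f : (V → ZMod 2) →ₗ[ZMod 2] ZMod 2 :=
      ∑ x ∈ Finset.univ.filter (fun x => (SimpleGraph.fromEdgeSet J).Reachable a x), LinearMap.proj x
    have hf : ∀ x, f (Pi.single x 1) = if (SimpleGraph.fromEdgeSet J).Reachable a x then 1 else 0 := by
      intro x
      simp only [f, LinearMap.coe_sum, Finset.sum_apply, LinearMap.proj_apply, Pi.single_apply]
      rw [Finset.sum_ite_eq']
      simp
    have h1 : span (ZMod 2) (inc '' J) ≤ LinearMap.ker f := by
      rw [span_le]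
      rintro _ ⟨e, he, rfl⟩
      induction e with
      | h x y =>
        simp only [SetLike.mem_coe, LinearMap.mem_ker, inc_mk, map_add, hf]
        have : (SimpleGraph.fromEdgeSet J).Reachable a x ↔ (SimpleGraph.fromEdgeSet J).Reachable a y := by
          by_cases hxy : x = y
          · rw [hxy]
          · have hadj : (SimpleGraph.fromEdgeSet J).Adj x y := by simp [he, hxy]
            exact ⟨fun h => h.trans hadj.reachable, fun h => h.trans hadj.symm.reachable⟩
        by_cases hx : (SimpleGraph.fromEdgeSet J).Reachable a x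
        · rw [if_pos hx, if_pos (this.1 hx)]
          rfl
        · rw [if_neg hx, if_neg (fun h => hx (this.2 h)), add_zero]
    have h2 := h1 h
    simp only [LinearMap.mem_ker, inc_mk, map_add, hf, SimpleGraph.Reachable.refl, if_true] at h2
    by_contra hn
    rw [if_neg hn] at h2
    simp at h2
  · rintro ⟨w⟩
    induction w with
    | nil =>
      rw [inc_mk, ← Pi.single_add]
      have : (1 : ZMod 2) + 1 = 0 := rfl
      rw [this, Pi.single_zero]
      exact zero_mem _
    | @cons x y z h w ih =>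
      have h1 : inc s(x, z) = inc s(x, y) + inc s(y, z) := by
        rw [inc_mk, inc_mk, inc_mk, add_assoc, ← add_assoc (Pi.single y 1), ← Pi.single_add]
        have : (1 : ZMod 2) + 1 = 0 := rfl
        rw [this, Pi.single_zero, zero_add]
      rw [h1]
      exact add_mem (subset_span ⟨_, ((SimpleGraph.fromEdgeSet_adj _).1 h).1, rfl⟩) ih

theorem inc_indep [Fintype V] (I : Set (Sym2 V)) (hI : I ⊆ {e | ¬ e.IsDiag}) :
    LinearIndepOn (ZMod 2) inc I ↔ (SimpleGraph.fromEdgeSet I).IsAcyclic := by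
  rw [linearIndepOn_iff_notMem_span, SimpleGraph.isAcyclic_iff_forall_adj_isBridge]
  have key : ∀ a b : V, (SimpleGraph.fromEdgeSet I).deleteEdges {s(a, b)} =
      SimpleGraph.fromEdgeSet (I \ {s(a, b)}) := by
    intro a b
    ext x y
    simp only [SimpleGraph.deleteEdges_adj, SimpleGraph.fromEdgeSet_adj, mem_sdiff]
    tauto
  constructor
  · intro h a b hab
    rw [SimpleGraph.isBridge_iff, key, ← inc_mem_span]
    exact h _ ((SimpleGraph.fromEdgeSet_adj _).1 hab).1
  · intro h e he
    induction e with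
    | h a b =>
      have := h (v := a) (w := b) ((SimpleGraph.fromEdgeSet_adj _).2 ⟨he, by simpa using hI he⟩)
      rwa [SimpleGraph.isBridge_iff, key, ← inc_mem_span] at this

end Graphic

section Points

variable {α F W : Type} [Field F] [AddCommGroup W] [Module F W] {M : Matroid α} {v : α → W}

theorem simple_ne_zero (hv : ∀ I ⊆ M.E, (M.Indep I ↔ LinearIndepOn F v I)) (hs : Simple M)
    {e : α} (he : e ∈ M.E) : v e ≠ 0 := by
  have := (hv _ (by simp [he])).1 (hs e he e he)
  exact this.ne_zero (i := e) (by simp)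

theorem simple_eq (hv : ∀ I ⊆ M.E, (M.Indep I ↔ LinearIndepOn F v I)) (hs : Simple M)
    {e e' : α} (he : e ∈ M.E) (he' : e' ∈ M.E) {c : F} (h : v e = c • v e') : e = e' := by
  by_contra hne
  have h1 := (hv _ (by simp [insert_subset_iff, he, he'])).1 (hs e he e' he')
  rw [linearIndepOn_insert (by simpa using hne)] at h1
  apply h1.2
  rw [h]
  exact smul_mem _ _ (subset_span ⟨e', rfl, rfl⟩)

theorem simpQuot_of_points [Finite α] (hv : ∀ I ⊆ M.E, (M.Indep I ↔ LinearIndepOn F v I))
    (hs : Simple M) {n : ℕ} (hn : 0 < n) (p : Fin n → W)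
    (h1 : ∀ a b, a ≠ b → ∃ e ∈ M.E, ∃ c : F, c ≠ 0 ∧ p a - p b = c • v e)
    (h2 : ∀ e ∈ M.E, ∃ a b, a ≠ b ∧ ∃ c : F, c ≠ 0 ∧ p a - p b = c • v e) : SimpQuot n M := by
  have hex : ∀ ε : Sym2 (Fin n), ∃ w : W, ¬ ε.IsDiag → (∃ e ∈ M.E, w = v e) ∧
      ∀ a b, ε = s(a, b) → ∃ c : F, c ≠ 0 ∧ p a - p b = c • w := by
    intro ε
    induction ε with
    | h a b =>
      by_cases hab : a = b
      · exact ⟨0, fun h => absurd (by simp [hab]) h⟩
      · obtain ⟨e, he, c, hc, h⟩ := h1 a b hab
        refine ⟨v e, fun _ => ⟨⟨e, he, rfl⟩, ?_⟩⟩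
        intro a' b' h'
        rcases Sym2.eq_iff.1 h' with ⟨rfl, rfl⟩ | ⟨rfl, rfl⟩
        · exact ⟨c, hc, h⟩
        · exact ⟨-c, neg_ne_zero.2 hc, by rw [neg_smul, ← h]; abel⟩
  choose w hw using hex
  have hg : ∀ e, ∃ ε : Sym2 (Fin n), e ∈ M.E → ¬ ε.IsDiag ∧ w ε = v e := by
    intro e
    by_cases he : e ∈ M.E
    · obtain ⟨a, b, hab, c, hc, h⟩ := h2 e he
      have hd : ¬ (s(a, b) : Sym2 (Fin n)).IsDiag := by simpa using hab
      obtain ⟨⟨e', he', h3⟩, h4⟩ := hw _ hd
      obtain ⟨c', hc', h5⟩ := h4 a b rfl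
      refine ⟨s(a, b), fun _ => ⟨hd, ?_⟩⟩
      rw [h3] at h5 ⊢
      have : v e' = (c'⁻¹ * c) • v e := by
        rw [mul_smul, ← h, h5, smul_smul, inv_mul_cancel₀ hc', one_smul]
      rw [simple_eq hv hs he' he this]
    · exact ⟨s(⟨0, hn⟩, ⟨0, hn⟩), fun h => absurd h he⟩
  choose g hg using hg
  have hinj : InjOn g M.E := by
    intro e he e' he' h
    apply simple_eq hv hs he he' (c := 1)
    rw [one_smul, ← (hg e he).2, ← (hg e' he').2, h]
  have hind : ∀ I ⊆ M.E, (M.Indep I ↔ (vecM F {e : Sym2 (Fin n) | ¬ e.IsDiag} w).Indep (g '' I)) := by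
    intro I hI
    rw [hv I hI, vecM_indep]
    have h3 : LinearIndepOn F v I ↔ LinearIndepOn F (w ∘ g) I :=
      linearIndepOn_congr (fun e he => ((hg e (hI he)).2).symm)
    rw [h3]
    constructor
    · intro h
      refine ⟨?_, h.image_of_comp g w⟩
      rintro _ ⟨e, he, rfl⟩
      exact (hg e (hI he)).1
    · intro h
      exact h.2.comp_of_image (hinj.mono hI)
  refine ⟨vecM (ZMod 2) {e : Sym2 (Fin n) | ¬ e.IsDiag} inc, vecM F {e : Sym2 (Fin n) | ¬ e.IsDiag} w,
    rfl, ?_, rfl, ?_, g '' M.E, ?_, ?_, ?_, g, hinj, rfl, hind⟩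
  · intro I hI
    rw [vecM_indep, inc_indep I hI]
    exact ⟨fun h => h.2, fun h => ⟨hI, h⟩⟩
  · intro X hX
    have hXE : X ⊆ {e : Sym2 (Fin n) | ¬ e.IsDiag} := hX.subset_ground
    rw [Matroid.isFlat_iff_closure_eq]
    apply Subset.antisymm _ (Matroid.subset_closure _ _ hXE)
    intro e he
    have heE : e ∈ {e : Sym2 (Fin n) | ¬ e.IsDiag} := Matroid.closure_subset_ground _ _ he
    replace he := (mem_closure (vecM_rep (F := ZMod 2) (v := inc) {e : Sym2 (Fin n) | ¬ e.IsDiag})
      hXE heE).1 he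
    rw [← hX.closure]
    apply (mem_closure (vecM_rep (F := F) (v := w) {e : Sym2 (Fin n) | ¬ e.IsDiag}) hXE heE).2
    induction e with
    | h a b =>
      rw [inc_mem_span] at he
      have h5 : p a - p b ∈ span F (w '' X) := by
        obtain ⟨wk⟩ := he
        clear heE
        induction wk with
        | nil => simp
        | @cons x y z h wk ih =>
          have h6 := (SimpleGraph.fromEdgeSet_adj _).1 h
          obtain ⟨c, _, h7⟩ := (hw _ (hXE h6.1)).2 x y rfl
          have : p x - p z = (p x - p y) + (p y - p z) := by abel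
          rw [this, h7]
          exact add_mem (smul_mem _ _ (subset_span ⟨_, h6.1, rfl⟩)) ih
      obtain ⟨c, hc, h6⟩ := (hw _ heE).2 a b rfl
      rw [h6] at h5
      have := smul_mem _ c⁻¹ h5
      rwa [smul_smul, inv_mul_cancel₀ hc, one_smul] at this
  · rintro _ ⟨e, he, rfl⟩
    exact (hg e he).1
  · rintro _ ⟨e, he, rfl⟩ _ ⟨f, hf, rfl⟩
    rw [← image_pair, ← hind _ (by simp [insert_subset_iff, he, hf])]
    exact hs e he f hf
  · intro e he _
    obtain ⟨e', he', h3⟩ := (hw e he).1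
    refine ⟨g e', ⟨e', he', rfl⟩, ?_⟩
    by_cases h : e = g e'
    · exact Or.inl h
    · right
      rw [vecM_indep]
      rintro ⟨_, h4⟩
      apply h
      apply h4.injOn (by simp) (by simp)
      rw [h3, (hg e' he').2]

end Points

end Pool.Agent.H12.Tang
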