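import Mathlib
import Pool.Agent.H12.Tang2

set_option autoImplicit false

namespace Pool.Agent.H12.Tang

open scoped Classical Matroid
open Set Submodule Module

variable {α F W : Type} [Field F] [AddCommGroup W] [Module F W] {M : Matroid α} {v : α → W}

theorem simpQuot_of_family [Finite α] (hv : ∀ I ⊆ M.E, (M.Indep I ↔ LinearIndepOn F v I))
    (hs : Simple M) {n : ℕ} (hn : 0 < n) {ι : Type} [Finite ι] (hι : Nat.card ι = n) (p : ι → W)
    (h1 : ∀ a b, a ≠ b → ∃ e ∈ M.E, ∃ c : F, c ≠ 0 ∧ p a - p b = c • v e)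
    (h2 : ∀ e ∈ M.E, ∃ a b, a ≠ b ∧ ∃ c : F, c ≠ 0 ∧ p a - p b = c • v e) : SimpQuot n M := by
  have eq : ι ≃ Fin n := Finite.equivFinOfCardEq hι
  apply simpQuot_of_points hv hs hn (p ∘ eq.symm)
  · intro a b hab
    exact h1 _ _ (fun h => hab (eq.symm.injective h))
  · intro e he
    obtain ⟨a, b, hab, c, hc, h⟩ := h2 e he
    exact ⟨eq a, eq b, fun h => hab (eq.injective h), c, hc, by simpa using h⟩

theorem pair_meets [Finite α] (hv : ∀ I ⊆ M.E, (M.Indep I ↔ LinearIndepOn F v I))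
    (hs : Simple M) {H : Set α} (hH : Modular M H) (hr : M.eRk H + 1 = M.eRk M.E)
    {u u' : α} (hu : u ∈ M.E) (hu' : u' ∈ M.E) (hne : u ≠ u') :
    ∃ h ∈ H, ∃ a b : F, a • v u + b • v u' = v h := by
  have hsub : ({u, u'} : Set α) ⊆ M.E := by simp [insert_subset_iff, hu, hu']
  have h1 := hH.2 _ (M.isFlat_closure {u, u'})
  rw [Matroid.eRk_closure_eq, (hs u hu u' hu').eRk_eq_encard, encard_pair hne] at h1
  have h2 : M.eRk (H ∪ M.closure {u, u'}) ≤ M.eRk H + 1 := by
    rw [hr]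
    exact M.eRk_mono (union_subset hH.1.subset_ground (M.closure_subset_ground _))
  have h3 : (H ∩ M.closure {u, u'}).Nonempty := by
    by_contra hn
    rw [not_nonempty_iff_eq_empty] at hn
    rw [hn, Matroid.eRk_empty, add_zero] at h1
    rw [← h1, eRk_eq hv hH.1.subset_ground] at h2
    norm_cast at h2
    omega
  obtain ⟨h, hh, hh'⟩ := h3
  rw [mem_closure hv hsub (hH.1.subset_ground hh), image_pair, mem_span_pair] at hh'
  exact ⟨h, hh, hh'⟩

theorem normal_of_modular [Finite α] [Fintype F]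
    (hv : ∀ I ⊆ M.E, (M.Indep I ↔ LinearIndepOn F v I)) (hs : Simple M) (k : ℕ)
    (hb : ∀ φ : W →ₗ[F] (Fin k → F), ∃ e ∈ M.E, φ (v e) = 0)
    (ht : ∀ x ∈ M.E, ∃ φ : W →ₗ[F] (Fin k → F), φ (v x) = 0 ∧ ∀ e ∈ M.E, e ≠ x → φ (v e) ≠ 0)
    {H : Set α} (hH : Modular M H) (hr : M.eRk H + 1 = M.eRk M.E) :
    SimpQuot (Fintype.card F ^ k + 1) M := by
  have hHE := hH.1.subset_ground
  obtain ⟨u0, hu0E, hu0⟩ : ∃ u0 ∈ M.E, u0 ∉ H := by
    by_contra hn
    push Not at hn
    have : H = M.E := Subset.antisymm hHE hn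
    rw [this, eRk_eq hv (le_refl M.E)] at hr
    norm_cast at hr
    omega
  have hu0' : v u0 ∉ span F (v '' H) := by
    rw [← mem_closure hv hHE hu0E, hH.1.closure]
    exact hu0
  obtain ⟨f, hf0, hf1⟩ := Submodule.exists_le_ker_of_notMem hu0'
  have hfH : ∀ h ∈ H, f (v h) = 0 := fun h hh => hf1 (subset_span ⟨h, hh, rfl⟩)
  have hfU : ∀ u ∈ M.E, u ∉ H → f (v u) ≠ 0 := by
    intro u hu huH hfu
    by_cases hne : u = u0
    · exact hf0 (hne ▸ hfu)
    obtain ⟨h, hh, a, b, hab⟩ := pair_meets hv hs hH hr hu hu0E hne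
    have h1 := congrArg f hab
    rw [map_add, map_smul, map_smul, hfu, hfH h hh, smul_zero, zero_add, smul_eq_mul] at h1
    have hb0 : b = 0 := (mul_eq_zero.1 h1).resolve_right hf0
    rw [hb0, zero_smul, add_zero] at hab
    exact huH (simple_eq hv hs (hHE hh) hu hab.symm ▸ hh)
  let U := {u // u ∈ M.E ∧ u ∉ H}
  let p : U → W := fun u => (f (v u))⁻¹ • v u
  have hpv : ∀ u : U, v u = f (v u) • p u := fun u => by
    simp only [p]
    rw [smul_smul, mul_inv_cancel₀ (hfU u u.2.1 u.2.2), one_smul]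
  have hdiff : ∀ u u' : U, u ≠ u' → ∃ h ∈ H, ∃ c : F, c ≠ 0 ∧ p u - p u' = c • v h := by
    intro u u' hne
    obtain ⟨h, hh, a, b, hab⟩ := pair_meets hv hs hH hr u.2.1 u'.2.1 (fun h => hne (Subtype.ext h))
    have h1 := congrArg f hab
    rw [map_add, map_smul, map_smul, hfH h hh, smul_eq_mul, smul_eq_mul] at h1
    have h2 : v h = (a * f (v u)) • (p u - p u') := by
      rw [← hab, smul_sub, mul_smul, ← hpv, eq_neg_of_add_eq_zero_left h1, neg_smul, mul_smul, ← hpv,
        sub_neg_eq_add]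
    have h3 : a * f (v u) ≠ 0 := by
      intro h0
      rw [h0, zero_smul] at h2
      exact simple_ne_zero hv hs (hHE hh) h2
    exact ⟨h, hh, (a * f (v u))⁻¹, inv_ne_zero h3, by rw [h2, smul_smul, inv_mul_cancel₀ h3, one_smul]⟩
  have hcard : Nat.card U = Fintype.card F ^ k := by
    obtain ⟨φ, -, hφ⟩ := ht u0 hu0E
    have hφH : ∀ h ∈ H, φ (v h) ≠ 0 := fun h hh => hφ h (hHE hh) (fun h' => hu0 (h' ▸ hh))
    have hbij : Function.Bijective (fun u : U => φ (p u)) := by
      constructor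
      · intro u u' h
        by_contra hne
        obtain ⟨x, hx, c, hc, h1⟩ := hdiff u u' hne
        have h2 := congrArg φ h1
        simp only at h
        rw [map_sub, h, sub_self, map_smul] at h2
        exact hφH x hx ((smul_eq_zero.1 h2.symm).resolve_left hc)
      · intro w
        obtain ⟨e, he, h1⟩ := hb (φ - f.smulRight w)
        simp only [LinearMap.sub_apply, LinearMap.smulRight_apply] at h1
        by_cases heH : e ∈ H
        · rw [hfH e heH, zero_smul, sub_zero] at h1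
          exact absurd h1 (hφH e heH)
        · refine ⟨⟨e, he, heH⟩, ?_⟩
          simp only [p, map_smul]
          rw [sub_eq_zero.1 h1, smul_smul, inv_mul_cancel₀ (hfU e he heH), one_smul]
    rw [Nat.card_eq_of_bijective _ hbij, Nat.card_eq_fintype_card]
    simp
  have hall : ∀ x ∈ H, ∃ u u' : U, u ≠ u' ∧ ∃ c : F, c ≠ 0 ∧ p u - p u' = c • v x := by
    intro x hx
    by_contra hn
    obtain ⟨φ, -, hφ⟩ := ht x (hHE hx)
    have hinj : Function.Injective (fun u : U => φ (p u)) := by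
      intro u u' h
      by_contra hne
      obtain ⟨y, hy, c, hc, h1⟩ := hdiff u u' hne
      have hyx : y ≠ x := fun h' => hn ⟨u, u', hne, c, hc, h' ▸ h1⟩
      have h2 := congrArg φ h1
      simp only at h
      rw [map_sub, h, sub_self, map_smul] at h2
      exact hφ y (hHE hy) hyx ((smul_eq_zero.1 h2.symm).resolve_left hc)
    have hsurj := (hinj.bijective_of_nat_card_le (by
      rw [hcard, Nat.card_eq_fintype_card]; simp)).2
    obtain ⟨u, hu⟩ := hsurj 0
    apply hφ u u.2.1 (fun h => u.2.2 (h ▸ hx))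
    simp only at hu
    rw [hpv u, map_smul, hu, smul_zero]
  apply simpQuot_of_family hv hs (Nat.succ_pos _) (ι := Option U)
    (by rw [← hcard]; simp) (fun o => o.elim 0 p)
  · rintro (_ | u) (_ | u') hne
    · exact absurd rfl hne
    · exact ⟨u', u'.2.1, -(f (v u'))⁻¹, by simpa using hfU u' u'.2.1 u'.2.2, by simp [p]⟩
    · exact ⟨u, u.2.1, (f (v u))⁻¹, by simpa using hfU u u.2.1 u.2.2, by simp [p]⟩
    · obtain ⟨h, hh, c, hc, h1⟩ := hdiff u u' (fun h => hne (congrArg _ h))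
      exact ⟨h, hHE hh, c, hc, h1⟩
  · intro e he
    by_cases heH : e ∈ H
    · obtain ⟨u, u', hne, c, hc, h1⟩ := hall e heH
      exact ⟨some u, some u', fun h => hne (Option.some_injective _ h), c, hc, h1⟩
    · exact ⟨some ⟨e, he, heH⟩, none, by simp, (f (v e))⁻¹, by simpa using hfU e he heH, by simp [p]⟩

/-- In a simple represented matroid whose simple minors M / x \ D are not blocks, each point has a tangent. -/
theorem tangent_of_simple_minors [Fintype α] [Fintype F] [Module.Finite F W]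
    (hv : ∀ I ⊆ M.E, (M.Indep I ↔ LinearIndepOn F v I)) (hs : Simple M) (k : ℕ) {x : α} (hx : x ∈ M.E)
    (hm : ∀ D : Set α, D ⊆ M.E \ {x} → Simple (M ／ {x} ＼ D) →
      ¬ CritGt (Fintype.card F) k (M ／ {x} ＼ D)) :
    ∃ φ : W →ₗ[F] (Fin k → F), φ (v x) = 0 ∧ ∀ e ∈ M.E, e ≠ x → φ (v e) ≠ 0 := by
  have hxI : M.Indep {x} := by simpa using hs x hx x hx
  obtain ⟨S, hS⟩ := Finite.exists_maximal (s := {S : Set α | S ⊆ M.E \ {x} ∧
    ∀ e ∈ S, ∀ f ∈ S, M.Indep ({e, f} ∪ {x})}) (toFinite _) ⟨∅, by simp⟩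
  have hS1 := hS.prop
  have hE : (M.E \ {x}) \ ((M.E \ {x}) \ S) = S := by
    rw [sdiff_sdiff_right_self]
    exact inter_eq_self_of_subset_right hS1.1
  have hsim : Simple (M ／ {x} ＼ ((M.E \ {x}) \ S)) := by
    intro e he f hf
    rw [Matroid.delete_ground, Matroid.contract_ground, hE] at he hf
    rw [Matroid.delete_indep_iff, hxI.contract_indep_iff]
    refine ⟨⟨?_, hS1.2 e he f hf⟩, ?_⟩
    · rw [disjoint_singleton_right]
      rintro (h | h)
      · exact (hS1.1 he).2 h.symm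
      · exact (hS1.1 hf).2 h.symm
    · rw [disjoint_left]
      rintro y (rfl | rfl) hy
      · exact hy.2 he
      · exact hy.2 hf
  obtain ⟨φ, h1, h2⟩ := (not_critGt_iff hv (singleton_subset_iff.2 hx) _ k).1
    (hm _ sdiff_subset hsim)
  rw [hE] at h2
  refine ⟨φ, h1 x rfl, ?_⟩
  intro e he hex h0
  have key : ∀ f ∈ S, M.Indep ({e, f} ∪ {x}) := by
    intro f hf
    have hfE := (hS1.1 hf).1
    have hfe : f ≠ e := fun h => h2 f hf (h ▸ h0)
    have : ({e, f} ∪ {x} : Set α) = insert f {e, x} := by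
      ext y
      simp only [mem_union, mem_insert_iff, mem_singleton_iff]
      tauto
    rw [this, hv _ (by simp [insert_subset_iff, he, hx, hfE]),
      linearIndepOn_insert (by simpa [hfe] using (hS1.1 hf).2)]
    refine ⟨(hv _ (by simp [insert_subset_iff, he, hx])).1 (hs e he x hx), ?_⟩
    rw [image_pair, mem_span_pair]
    rintro ⟨a, b, hab⟩
    apply h2 f hf
    rw [← hab, map_add, map_smul, map_smul, h0, h1 x rfl, smul_zero, smul_zero, add_zero]
  have hins : insert e S ∈ {S : Set α | S ⊆ M.E \ {x} ∧ ∀ e ∈ S, ∀ f ∈ S, M.Indep ({e, f} ∪ {x})} := by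
    refine ⟨insert_subset ⟨he, hex⟩ hS1.1, ?_⟩
    rintro a (rfl | ha) b (rfl | hb)
    · simpa [pair_comm] using hs _ he x hx
    · exact key b hb
    · rw [pair_comm]
      exact key a ha
    · exact hS1.2 a ha b hb
  exact h2 e (hS.le_of_ge hins (subset_insert _ _) (mem_insert _ _)) h0

end Pool.Agent.H12.Tang
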