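import Mathlib
import Pool.Agent.H12.Tang3

set_option autoImplicit false

namespace Pool.Agent.H12.Tang

open scoped Classical Matroid
open Set Submodule Module

variable {α F W : Type} [Field F] [AddCommGroup W] [Module F W] {M : Matroid α} {v : α → W}

theorem exists_ker_eq [Module.Finite F W] (U : Submodule F W) (k : ℕ)
    (h : finrank F W ≤ finrank F U + k) :
    ∃ φ : W →ₗ[F] (Fin k → F), ∀ w, φ w = 0 ↔ w ∈ U := by
  have h1 := U.finrank_quotient_add_finrank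
  have h2 : finrank F (W ⧸ U) ≤ finrank F (Fin k → F) := by
    simp only [Module.finrank_fintype_fun_eq_card, Fintype.card_fin]
    omega
  obtain ⟨ψ, hψ⟩ := finrank_le_iff_exists_linearMap.1 h2
  refine ⟨ψ.comp U.mkQ, fun w => ?_⟩
  rw [LinearMap.comp_apply, map_eq_zero_iff ψ hψ]
  simp

theorem minor_fun [Finite α] [Module.Finite F W]
    (hv : ∀ I ⊆ M.E, (M.Indep I ↔ LinearIndepOn F v I)) (hs : Simple M) (k : ℕ)
    (hW : finrank F W ≤ 2 + k)
    (ht : ∀ x ∈ M.E, ∃ φ : W →ₗ[F] (Fin k → F), φ (v x) = 0 ∧ ∀ e ∈ M.E, e ≠ x → φ (v e) ≠ 0)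
    {C D : Set α} (hC : C ⊆ M.E) (hD : D ⊆ M.E) (hne : (C ∪ D).Nonempty)
    (hl : ∀ e ∈ (M ／ C ＼ D).E, (M ／ C ＼ D).Indep {e}) :
    ∃ φ : W →ₗ[F] (Fin k → F), (∀ c ∈ C, φ (v c) = 0) ∧ ∀ e ∈ (M.E \ C) \ D, φ (v e) ≠ 0 := by
  by_cases h : C.Nontrivial
  · obtain ⟨x, hx, y, hy, hxy⟩ := h
    have h1 : M.eRk {x, y} ≤ M.eRk C := M.eRk_mono (by simp [insert_subset_iff, hx, hy])
    rw [(hs x (hC hx) y (hC hy)).eRk_eq_encard, encard_pair hxy, eRk_eq hv hC] at h1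
    have h2 : 2 ≤ finrank F (span F (v '' C)) := by exact_mod_cast h1
    obtain ⟨φ, hφ⟩ := exists_ker_eq (span F (v '' C)) k (by omega)
    refine ⟨φ, fun c hc => (hφ _).2 (subset_span ⟨c, hc, rfl⟩), fun e he h0 => ?_⟩
    have h3 := (Matroid.delete_indep_iff.1 (hl e he)).1
    rw [Matroid.indep_singleton, Matroid.contract_isNonloop_iff] at h3
    exact h3.2 ((mem_closure hv hC he.1.1).2 ((hφ _).1 h0))
  · rw [not_nontrivial_iff] at h
    by_cases h' : C.Nonempty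
    · obtain ⟨x, hx⟩ := h'
      obtain ⟨φ, h1, h2⟩ := ht x (hC hx)
      exact ⟨φ, fun c hc => h hc hx ▸ h1, fun e he => h2 e he.1.1 (fun h => he.1.2 (h ▸ hx))⟩
    · obtain ⟨x, hx | hx⟩ := hne
      · exact absurd ⟨x, hx⟩ h'
      · obtain ⟨φ, -, h2⟩ := ht x (hD hx)
        exact ⟨φ, fun c hc => absurd ⟨c, hc⟩ h', fun e he => h2 e he.1.1 (fun h => he.2 (h ▸ hx))⟩

theorem strict_minor_form {N : Matroid α} (h : N <m M) :
    ∃ C D : Set α, C ⊆ M.E ∧ D ⊆ M.E ∧ (C ∪ D).Nonempty ∧ N = M ／ C ＼ D := by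
  obtain ⟨C, D, hC, hD, -, rfl⟩ := h.isMinor.exists_eq_contract_delete_disjoint
  refine ⟨C, D, hC, hD, ?_, rfl⟩
  by_contra hn
  rw [not_nonempty_iff_eq_empty, union_empty_iff] at hn
  apply h.ne
  simp [hn.1, hn.2]

def dot3 (a b c : F) (x : Fin 3 → F) : F := a * x 0 + b * x 1 + c * x 2

def det3 (x y z : Fin 3 → F) : F :=
  x 0 * (y 1 * z 2 - y 2 * z 1) - x 1 * (y 0 * z 2 - y 2 * z 0) + x 2 * (y 0 * z 1 - y 1 * z 0)

theorem fun_eq_dot3 (f : (Fin 3 → F) →ₗ[F] F) (x : Fin 3 → F) :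
    f x = dot3 (f (Pi.single 0 1)) (f (Pi.single 1 1)) (f (Pi.single 2 1)) x := by
  have : x = x 0 • Pi.single 0 1 + x 1 • Pi.single 1 1 + x 2 • Pi.single 2 1 := by
    ext i
    fin_cases i <;> simp
  conv_lhs => rw [this]
  simp only [map_add, map_smul, smul_eq_mul, dot3]
  ring

theorem block_of_dot3 {v : α → Fin 3 → F} {E : Set α}
    (h : ∀ a b c : F, ∃ e ∈ E, dot3 a b c (v e) = 0) :
    ∀ φ : (Fin 3 → F) →ₗ[F] (Fin 1 → F), ∃ e ∈ E, φ (v e) = 0 := by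
  intro φ
  obtain ⟨e, he, h1⟩ := h (φ (Pi.single 0 1) 0) (φ (Pi.single 1 1) 0) (φ (Pi.single 2 1) 0)
  refine ⟨e, he, ?_⟩
  funext i
  rw [Subsingleton.elim i 0]
  exact (fun_eq_dot3 ((LinearMap.proj 0).comp φ) (v e)).trans h1

theorem exists_of_dot3 (a b c : F) :
    ∃ φ : (Fin 3 → F) →ₗ[F] (Fin 1 → F), ∀ x, φ x = 0 ↔ dot3 a b c x = 0 := by
  refine ⟨LinearMap.pi (fun _ => a • LinearMap.proj 0 + b • LinearMap.proj 1 + c • LinearMap.proj 2), ?_⟩
  intro x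
  constructor
  · intro h
    simpa [dot3] using congrFun h 0
  · intro h
    funext i
    simpa [dot3] using h

theorem det3_of_comb {x y z : Fin 3 → F} {s t : F} (h : s • x + t • y = z) : det3 x y z = 0 := by
  subst h
  simp only [det3, Pi.add_apply, Pi.smul_apply, smul_eq_mul]
  ring

theorem simple_vecM [Finite α] (E : Set α) (h0 : ∀ e ∈ E, v e ≠ 0)
    (h1 : ∀ e ∈ E, ∀ f ∈ E, ∀ c : F, v e = c • v f → e = f) : Simple (vecM F E v) := by
  intro e he f hf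
  rw [vecM_indep]
  refine ⟨by simp only [insert_subset_iff, singleton_subset_iff]; exact ⟨he, hf⟩, ?_⟩
  by_cases hef : e = f
  · subst hef
    simpa using h0 e he
  · rw [linearIndepOn_insert (by simpa using hef)]
    refine ⟨by simpa using h0 f hf, ?_⟩
    rw [image_singleton, mem_span_singleton]
    rintro ⟨c, hc⟩
    exact hef (h1 e he f hf c hc.symm)

/-- A modular hyperplane of a simple matroid represented in dimension three lies on a line that meets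
every secant in a point of the matroid. -/
theorem modular_line3 [Finite α] {v : α → Fin 3 → F}
    (hv : ∀ I ⊆ M.E, (M.Indep I ↔ LinearIndepOn F v I)) (hs : Simple M) {H : Set α}
    (hH : Modular M H) (hr : M.eRk H + 1 = M.eRk M.E) :
    ∃ a b c : F, ¬ (a = 0 ∧ b = 0 ∧ c = 0) ∧ ∀ u ∈ M.E, ∀ u' ∈ M.E, u ≠ u' →
      ∃ h ∈ M.E, dot3 a b c (v h) = 0 ∧ det3 (v u) (v u') (v h) = 0 := by
  have hHE := hH.1.subset_ground
  have h1 : span F (v '' H) < ⊤ := by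
    rw [lt_top_iff_ne_top]
    intro h
    rw [eRk_eq hv hHE, eRk_eq hv (le_refl M.E), h] at hr
    have h2 := Submodule.finrank_le (span F (v '' M.E))
    rw [finrank_top] at hr
    norm_cast at hr
    omega
  obtain ⟨f, hf0, hf⟩ := Submodule.exists_le_ker_of_lt_top _ h1
  refine ⟨f (Pi.single 0 1), f (Pi.single 1 1), f (Pi.single 2 1), ?_, ?_⟩
  · rintro ⟨h2, h3, h4⟩
    apply hf0
    apply LinearMap.ext
    intro x
    rw [fun_eq_dot3, h2, h3, h4]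
    simp [dot3]
  · intro u hu u' hu' hne
    obtain ⟨h, hh, s, t, hst⟩ := pair_meets hv hs hH hr hu hu' hne
    exact ⟨h, hHE hh, by rw [← fun_eq_dot3]; exact hf (subset_span ⟨h, hh, rfl⟩), det3_of_comb hst⟩

theorem supersolvable_hyperplane [Finite α] (hv : ∀ I ⊆ M.E, (M.Indep I ↔ LinearIndepOn F v I))
    (hs : Simple M) (hne : M.E.Nonempty) (hss : Supersolvable M) :
    ∃ H, Modular M H ∧ M.eRk H + 1 = M.eRk M.E := by
  obtain ⟨Fl, -, hFl⟩ := hss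
  obtain ⟨e, he⟩ := hne
  have h1 : M.eRk {e} ≤ M.eRk M.E := M.eRk_mono (Set.singleton_subset_iff.2 he)
  have h2 : M.Indep {e} := by simpa using hs e he e he
  rw [h2.eRk_eq_encard, Set.encard_singleton] at h1
  obtain ⟨r, hr⟩ : ∃ r : ℕ, M.eRk M.E = r := ⟨_, eRk_eq hv (le_refl M.E)⟩
  rw [hr] at h1 hFl
  have h3 : 1 ≤ r := by exact_mod_cast h1
  obtain ⟨h4, h5⟩ := hFl (r - 1) (by exact_mod_cast Nat.sub_le r 1)
  refine ⟨_, h4, ?_⟩
  rw [h5, hr]
  exact_mod_cast Nat.sub_add_cancel h3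

end Pool.Agent.H12.Tang
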