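import Mathlib
import Pool.Agent.H12.Tang4

set_option autoImplicit false

namespace Pool.Agent.H12.Prism

open scoped Classical Matroid
open Set Submodule Module Pool.Agent.H12.Tang

theorem fact5 : Fact (Nat.Prime 5) := ⟨by norm_num⟩

attribute [local instance] fact5

def v : Fin 10 → Fin 3 → ZMod 5 :=
  ![![1, 0, 0], ![0, 1, 0], ![0, 0, 1], ![0, 1, 1], ![1, 0, 1], ![1, 4, 0], ![1, 0, 4], ![1, 4, 4],
    ![0, 1, 4], ![1, 4, 1]]

def p : Fin 6 → Fin 3 → ZMod 5 :=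
  ![![0, 0, 0], ![1, 0, 0], ![0, 1, 0], ![0, 0, 1], ![0, 1, 1], ![1, 0, 1]]

theorem v_ne : ∀ e, v e ≠ 0 := by decide +kernel

theorem v_par : ∀ e f, ∀ c : ZMod 5, v e = c • v f → e = f := by decide +kernel

theorem v_block : ∀ a b c : ZMod 5, ∃ e, dot3 a b c (v e) = 0 := by decide +kernel

theorem v_tan : ∀ x, ∃ a b c : ZMod 5, ∀ e, dot3 a b c (v e) = 0 ↔ e = x := by decide +kernel

theorem p_h1 : ∀ a b, a ≠ b → ∃ e, ∃ c : ZMod 5, c ≠ 0 ∧ p a - p b = c • v e := by decide +kernel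

theorem p_h2 : ∀ e, ∃ a b, a ≠ b ∧ ∃ c : ZMod 5, c ≠ 0 ∧ p a - p b = c • v e := by decide +kernel

theorem v_nomod : ∀ a b c : ZMod 5, ¬ (a = 0 ∧ b = 0 ∧ c = 0) → ∃ u u', u ≠ u' ∧
    ∀ h, dot3 a b c (v h) = 0 → det3 (v u) (v u') (v h) ≠ 0 := by decide +kernel

noncomputable def M : Matroid (Fin 10) := vecM (ZMod 5) univ v

theorem hv : ∀ I ⊆ M.E, (M.Indep I ↔ LinearIndepOn (ZMod 5) v I) := vecM_rep _

theorem mem_E (e : Fin 10) : e ∈ M.E := mem_univ e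

theorem simple : Simple M := simple_vecM _ (fun e _ => v_ne e) (fun e _ f _ c => v_par e f c)

theorem block : CritGt (Fintype.card (ZMod 5)) 1 M :=
  (critGt_iff hv 1).2 (block_of_dot3 (fun a b c => (v_block a b c).imp (fun e h => ⟨mem_E e, h⟩)))

theorem minor_pos {C D : Set (Fin 10)} (hne : (C ∪ D).Nonempty)
    (hl : ∀ e ∈ (M ／ C ＼ D).E, (M ／ C ＼ D).Indep {e}) :
    0 < chi (M ／ C ＼ D) ((Fintype.card (ZMod 5) : ℤ) ^ 1) := by
  rw [chi_pos_iff hv (fun e _ => mem_E e)]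
  refine minor_fun hv simple 1 (by simp) ?_ (fun e _ => mem_E e) (fun e _ => mem_E e) hne hl
  intro x _
  obtain ⟨a, b, c, h⟩ := v_tan x
  obtain ⟨φ, hφ⟩ := exists_of_dot3 a b c
  exact ⟨φ, (hφ _).2 ((h x).2 rfl), fun e _ hex h0 => hex ((h e).1 ((hφ _).1 h0))⟩

theorem normal : SimpQuot (Fintype.card (ZMod 5) ^ 1 + 1) M :=
  simpQuot_of_family hv simple (Nat.succ_pos _) (by simp) p
    (fun a b hab => (p_h1 a b hab).imp (fun e h => ⟨mem_E e, h⟩)) (fun e _ => p_h2 e)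

theorem no_modular {H : Set (Fin 10)} (hH : Modular M H) (hr : M.eRk H + 1 = M.eRk M.E) : False := by
  obtain ⟨a, b, c, h0, h⟩ := modular_line3 hv simple hH hr
  obtain ⟨u, u', hne, h1⟩ := v_nomod a b c h0
  obtain ⟨x, -, h2, h3⟩ := h u (mem_E u) u' (mem_E u') hne
  exact h1 x h2 h3

end Pool.Agent.H12.Prism
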