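import Mathlib

set_option autoImplicit false

namespace Pool.Agent.H12.PsdIrr

open Matrix

def nonE (i j : Fin 10) : Bool :=
  (i.1, j.1) ∈ [(0,2),(1,3),(4,5),(2,7),(3,7),(5,7),(0,8),(4,8),(1,9),(4,9),
    (2,0),(3,1),(5,4),(7,2),(7,3),(7,5),(8,0),(8,4),(9,1),(9,4)]

def G : SimpleGraph (Fin 10) where
  Adj i j := i ≠ j ∧ nonE i j = false
  symm := ⟨by decide⟩
  loopless := ⟨fun _ h => h.1 rfl⟩

instance : DecidableRel G.Adj := fun i j => inferInstanceAs (Decidable (i ≠ j ∧ nonE i j = false))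

def x : Fin 10 → Fin 10 → ℚ :=
  ![![1, 1/2, 0, 1/2, 0, 0, 0, 3/4, 0, 3/14],
    ![1/2, 1, 1/2, 0, 0, 0, 0, 3/4, 1/6, 0],
    ![0, 1/2, 1, 1/2, 0, 0, 0, 0, 1/3, 3/14],
    ![1/2, 0, 1/2, 1, 0, 0, 0, 0, 1/6, 3/7],
    ![0, 0, 0, 0, 1, 0, 1/2, 1/2, 0, 0],
    ![0, 0, 0, 0, 0, 1, 0, 0, -2/3, -2/7],
    ![0, 0, 0, 0, 1/2, 0, 1, 1/4, 2/3, 6/7],
    ![3/4, 3/4, 0, 0, 1/2, 0, 1/4, 1, 1/12, 3/28],
    ![0, 1/6, 1/3, 1/6, 0, -2/3, 2/3, 1/12, 1, 5/6],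
    ![3/14, 0, 3/14, 3/7, 0, -2/7, 6/7, 3/28, 5/6, 1]]

noncomputable def V (t : ℝ) : Matrix (Fin 5) (Fin 10) ℝ :=
  !![1, 2*t/3, 1, 2*t/3, 0, 0, 0, (1+2*t/3)/2, 1/3, 2*t/7;
     1, 0, -1, 0, 0, 0, 0, 1/2, -1/3, 0;
     0, 1, 0, -1, 0, 0, 0, 1/2, 0, -3/7;
     0, 0, 0, 0, 1/2, 0, 1, 1/4, 2/3, 6/7;
     0, 0, 0, 0, t, 1, 0, t/2, -2/3, -2/7]

noncomputable def D (t : ℝ) : Fin 5 → ℝ := ![t, 1 - t, 1 - t/3, 1, 1]

lemma X_apply (t : ℝ) (i j : Fin 10) : ((V t)ᴴ * diagonal (D t) * V t) i j =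
    V t 0 i * t * V t 0 j + V t 1 i * (1 - t) * V t 1 j + V t 2 i * (1 - t/3) * V t 2 j
      + V t 3 i * V t 3 j + V t 4 i * V t 4 j := by
  rw [Matrix.mul_apply]
  simp [Matrix.mul_diagonal, Fin.sum_univ_succ, D]
  ring

lemma real_completion : ∃ X : Matrix (Fin 10) (Fin 10) ℝ, X.PosSemidef ∧ (∀ i, X i i = 1) ∧
    ∀ i j, G.Adj i j → X i j = (x i j : ℝ) := by
  set t : ℝ := Real.sqrt 3 / 2 with ht
  have h3 : Real.sqrt 3 ^ 2 = 3 := Real.sq_sqrt (by norm_num)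
  have ht2 : t ^ 2 = 3 / 4 := by rw [ht, div_pow, h3]; norm_num
  have ht0 : 0 ≤ t := by positivity
  have ht1 : t ≤ 1 := by nlinarith
  have ht3 : t ^ 3 = 3 / 4 * t := by rw [pow_succ, ht2]
  clear_value t
  refine ⟨(V t)ᴴ * diagonal (D t) * V t, ?_, ?_, ?_⟩
  · apply PosSemidef.conjTranspose_mul_mul_same
    apply PosSemidef.diagonal
    intro i
    fin_cases i <;> simp [D] <;> linarith
  · intro i
    rw [X_apply]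
    fin_cases i <;> simp [V] <;> nlinarith
  · intro i j h
    rw [X_apply]
    fin_cases i <;> fin_cases j <;>
      first
        | exact absurd h (by decide)
        | (simp [V, x] <;> nlinarith)

lemma no_rational (Y : Matrix (Fin 10) (Fin 10) ℚ)
    (hY : (Y.map (fun q : ℚ => (q : ℝ))).PosSemidef) (hd : ∀ i, Y i i = 1)
    (he : ∀ i j, G.Adj i j → Y i j = x i j) : False := by
  set Z := Y.map (fun q : ℚ => (q : ℝ)) with hZ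
  have hs : ∀ i j, Z j i = Z i j := fun i j => by
    have := hY.1.apply i j
    simpa using this
  have hk : ∀ i j, (i = j ∨ nonE i j = false) → Z i j = (x i j : ℝ) := by
    intro i j h
    by_cases hij : i = j
    · subst hij
      have : x i i = 1 := by fin_cases i <;> simp [x]
      simp [hZ, hd, this]
    · have := he i j ⟨hij, h.resolve_left hij⟩
      simp [hZ, this]
  obtain ⟨a, ha⟩ : ∃ a, a = Z 0 2 := ⟨_, rfl⟩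
  obtain ⟨b, hb⟩ : ∃ a, a = Z 1 3 := ⟨_, rfl⟩
  obtain ⟨t, ht⟩ : ∃ a, a = Z 4 5 := ⟨_, rfl⟩
  obtain ⟨c1, h1⟩ : ∃ a, a = Z 2 7 := ⟨_, rfl⟩
  obtain ⟨c2, h2⟩ : ∃ a, a = Z 3 7 := ⟨_, rfl⟩
  obtain ⟨c3, h3⟩ : ∃ a, a = Z 5 7 := ⟨_, rfl⟩
  obtain ⟨c4, h4⟩ : ∃ a, a = Z 0 8 := ⟨_, rfl⟩
  obtain ⟨c5, h5⟩ : ∃ a, a = Z 4 8 := ⟨_, rfl⟩
  obtain ⟨c6, h6⟩ : ∃ a, a = Z 1 9 := ⟨_, rfl⟩
  obtain ⟨c7, h7⟩ : ∃ a, a = Z 4 9 := ⟨_, rfl⟩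
  have hZe : Z = !![1, 1/2, a, 1/2, 0, 0, 0, 3/4, c4, 3/14;
    1/2, 1, 1/2, b, 0, 0, 0, 3/4, 1/6, c6;
    a, 1/2, 1, 1/2, 0, 0, 0, c1, 1/3, 3/14;
    1/2, b, 1/2, 1, 0, 0, 0, c2, 1/6, 3/7;
    0, 0, 0, 0, 1, t, 1/2, 1/2, c5, c7;
    0, 0, 0, 0, t, 1, 0, c3, -2/3, -2/7;
    0, 0, 0, 0, 1/2, 0, 1, 1/4, 2/3, 6/7;
    3/4, 3/4, c1, c2, 1/2, c3, 1/4, 1, 1/12, 3/28;
    c4, 1/6, 1/3, 1/6, c5, -2/3, 2/3, 1/12, 1, 5/6;
    3/14, c6, 3/14, 3/7, c7, -2/7, 6/7, 3/28, 5/6, 1] := by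
    ext i j
    fin_cases i <;> fin_cases j <;>
      first
        | (rw [hk _ _ (by decide)]; simp [x])
        | (simp [ha, hb, ht, h1, h2, h3, h4, h5, h6, h7]; done)
        | (rw [hs]; simp [ha, hb, ht, h1, h2, h3, h4, h5, h6, h7])
  have htq : t = ((Y 4 5 : ℚ) : ℝ) := by rw [ht]; simp [hZ]
  clear_value Z
  have q := fun v => hY.dotProduct_mulVec_nonneg v
  have z := fun v => (hY.dotProduct_mulVec_zero_iff v).1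
  have zp := z ![-1, -1, 0, 0, -1, 0, 0, 2, 0, 0] (by
    simp [hZe, dotProduct, mulVec, Fin.sum_univ_succ]; norm_num)
  have zq1 := z ![0, 0, -1, 0, 0, 2, -2, 0, 3, 0] (by
    simp [hZe, dotProduct, mulVec, Fin.sum_univ_succ]; norm_num)
  have zq2 := z ![0, 0, 0, -3, 0, 2, -6, 0, 0, 7] (by
    simp [hZe, dotProduct, mulVec, Fin.sum_univ_succ]; norm_num)
  have e1 := congrFun zp 8
  have e2 := congrFun zp 9
  have e3 := congrFun zq1 0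
  have e4 := congrFun zq1 4
  have e5 := congrFun zq2 1
  have e6 := congrFun zq2 4
  simp [hZe, dotProduct, mulVec, Fin.sum_univ_succ] at e1 e2 e3 e4 e5 e6
  have ea : a = 2 * t - 1 := by linarith
  have eb : b = 2 * t / 3 - 1 := by linarith
  have i1 := q ![0, 0, 0, 0, 1, -t, -1/2, 0, 0, 0]
  have i2 := q ![-1, 2*t, -1, 2*t, 0, 0, 0, 0, 0, 0]
  have i3 := q ![1, -1, 1, -1, 0, 0, 0, 0, 0, 0]
  simp [hZe, dotProduct, mulVec, Fin.sum_univ_succ] at i1 i2 i3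
  rw [ea, eb] at i2 i3
  have tpos : 0 < t := by linarith
  have u1 : t ^ 2 ≤ 3 / 4 := by nlinarith
  have u2 : 3 / 4 ≤ t ^ 2 := by
    by_contra hlt
    push Not at hlt
    have : t * (t ^ 2 - 3 / 4) < 0 := mul_neg_of_pos_of_neg tpos (by linarith)
    nlinarith
  have e : ((2 * Y 4 5) * (2 * Y 4 5) : ℚ) = 3 := by
    have : ((2 * Y 4 5 * (2 * Y 4 5) : ℚ) : ℝ) = 3 := by
      push_cast; rw [← htq]; nlinarith
    exact_mod_cast this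
  have : IsSquare (3 : ℚ) := ⟨_, e.symm⟩
  norm_num at this

end Pool.Agent.H12.PsdIrr
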