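import Mathlib

set_option autoImplicit false

namespace Pool.Agent.H12.QMat

open Module Submodule Finset

abbrev F := ZMod 2

variable {n : ℕ}

/-- The `F`-linear map determined by the columns. -/
noncomputable def phi {K : Type} [Field K] [Algebra F K] {k : ℕ} (col : Fin n → Fin k → K) :
    (Fin n → F) →ₗ[F] (Fin k → K) := Fintype.linearCombination F col

/-- The rank of a set of vectors. -/
noncomputable def rk {K : Type} [Field K] [Algebra F K] {k : ℕ} (col : Fin n → Fin k → K)
    (V : Set (Fin n → F)) : ℕ := finrank K (span K (phi col '' V))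

lemma phi_single {K : Type} [Field K] [Algebra F K] {k : ℕ} (col : Fin n → Fin k → K) (i : Fin n) :
    phi col (Pi.single i 1) = col i := by
  simp [phi]

lemma li3 {K : Type} [Field K] (w : Fin 3 → Fin 3 → K) :
    LinearIndependent K w ↔ (Matrix.of w).det ≠ 0 := by
  rw [← isUnit_iff_ne_zero, ← Matrix.isUnit_iff_isUnit_det,
    ← Matrix.linearIndependent_rows_iff_isUnit]
  rfl

lemma rk_le {K₁ K₂ : Type} [Field K₁] [Algebra F K₁] [Field K₂] [Algebra F K₂]
    (c₁ : Fin n → Fin 3 → K₁) (c₂ : Fin n → Fin 3 → K₂)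
    (hs : span K₁ (Set.range (phi c₁)) = ⊤)
    (h : ∀ u : Fin 3 → Fin n → F, LinearIndependent K₁ (phi c₁ ∘ u) →
      LinearIndependent K₂ (phi c₂ ∘ u)) (V : Set (Fin n → F)) : rk c₁ V ≤ rk c₂ V := by
  have key : ∀ d r, r + d = 3 → ∀ u : Fin r → Fin n → F, LinearIndependent K₁ (phi c₁ ∘ u) →
      LinearIndependent K₂ (phi c₂ ∘ u) := by
    intro d
    induction d with
    | zero => rintro r rfl; exact h
    | succ d ih =>
      intro r hr u hu
      have : ∃ x, phi c₁ x ∉ span K₁ (Set.range (phi c₁ ∘ u)) := by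
        by_contra hc
        push Not at hc
        have h1 : span K₁ (Set.range (phi c₁ ∘ u)) = ⊤ :=
          top_le_iff.1 (hs ▸ span_le.2 (by rintro _ ⟨x, rfl⟩; exact hc x))
        have h2 := finrank_span_eq_card hu
        rw [h1] at h2
        simp at h2
        omega
      obtain ⟨x, hx⟩ := this
      have h3 := ih (r + 1) (by omega) (Fin.cons x u) (by
        rw [Fin.comp_cons]; exact hu.finCons hx)
      rw [Fin.comp_cons] at h3
      exact (linearIndependent_finCons.1 h3).1
  obtain ⟨f, hf, -, hli⟩ := exists_fun_fin_finrank_span_eq K₁ (phi c₁ '' V)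
  choose u hu1 hu2 using hf
  have e : f = phi c₁ ∘ u := funext fun i => (hu2 i).symm
  have hle : rk c₁ V ≤ 3 := (finrank_le _).trans (by simp)
  have h2 := key (3 - rk c₁ V) _ (Nat.add_sub_cancel' hle) u (e ▸ hli)
  have h3 := finrank_span_eq_card h2
  rw [Fintype.card_fin] at h3
  refine h3.symm.le.trans ?_
  exact finrank_mono (span_mono (by rintro _ ⟨i, rfl⟩; exact ⟨u i, hu1 i, rfl⟩))

lemma li_iff_rk {K : Type} [Field K] [Algebra F K] {k : ℕ} (c : Fin n → Fin k → K)
    (u : Fin 3 → Fin n → F) :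
    LinearIndependent K (phi c ∘ u) ↔ rk c (span F (Set.range u)) = 3 := by
  rw [linearIndependent_iff_card_eq_finrank_span, rk, ← map_coe, map_span, span_span_of_tower,
    ← Set.range_comp, Fintype.card_fin, eq_comm]
  rfl

/-- Field-independent description of dependent triples. -/
def Z (dep : (Fin 3 → Fin n) → Prop) (u : Fin 3 → Fin n → F) : Prop :=
  ∀ r₀ : Fin 3 → Fin n, Function.Injective r₀ →
    (∑ r ∈ univ.filter (fun r : Fin 3 → Fin n => Function.Injective r ∧
      univ.image r = univ.image r₀), ∏ a, u a (r a)) = 0 ∨ dep r₀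

lemma det_perm {k : Type} [Field k] [Algebra F k] (g : Fin n → Fin 3 → k) (r r₀ : Fin 3 → Fin n)
    (hr : Function.Injective r) (h : univ.image r = univ.image r₀) :
    (Matrix.of (g ∘ r)).det = (Matrix.of (g ∘ r₀)).det := by
  have hc : CharP k 2 := charP_of_injective_algebraMap (algebraMap F k).injective 2
  have : ∀ a, ∃ b, r₀ b = r a := fun a => by
    have : r a ∈ univ.image r₀ := h ▸ mem_image_of_mem _ (mem_univ a)
    simpa using this
  choose σ hσ using this
  have hi : Function.Injective σ := fun a b e => hr (by rw [← hσ, ← hσ, e])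
  have e : Matrix.of (g ∘ r) = (Matrix.of (g ∘ r₀)).submatrix
      (Equiv.ofBijective σ (Finite.injective_iff_bijective.1 hi)) id := by
    ext a b; simp [hσ]
  rw [e, Matrix.det_permute]
  rcases Int.units_eq_one_or (Equiv.Perm.sign (Equiv.ofBijective σ
    (Finite.injective_iff_bijective.1 hi))) with h1 | h1 <;> rw [h1] <;> simp [CharTwo.neg_eq]

lemma generic {k K : Type} [Field k] [Algebra F k] [Field K] [Algebra F K] [Algebra k K]
    [IsScalarTower F k K] (g : Fin n → Fin 3 → k) (t : Fin n → K)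
    (ht : LinearIndependent k fun s : Finset (Fin n) => ∏ i ∈ s, t i)
    (dep : (Fin 3 → Fin n) → Prop)
    (hd : ∀ r, Function.Injective r → ((Matrix.of (g ∘ r)).det = 0 ↔ dep r))
    (u : Fin 3 → Fin n → F) :
    LinearIndependent K (phi (fun i a => t i * algebraMap k K (g i a)) ∘ u) ↔ ¬ Z dep u := by
  classical
  rw [li3, not_iff_not]
  let c : Finset (Fin n) → k := fun s => ∑ r ∈ univ.filter (fun r : Fin 3 → Fin n =>
    Function.Injective r ∧ univ.image r = s),
      algebraMap F k (∏ a, u a (r a)) * (Matrix.of (g ∘ r)).det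
  have e : (Matrix.of (phi (fun i a => t i * algebraMap k K (g i a)) ∘ u)).det =
      ∑ s, c s • ∏ i ∈ s, t i := by
    have e1 : (phi (fun i a => t i * algebraMap k K (g i a)) ∘ u) = fun a => ∑ i,
        (algebraMap F K (u a i) * t i) • fun b => algebraMap k K (g i b) := by
      funext a b
      simp [phi, Fintype.linearCombination_apply, Algebra.smul_def, mul_assoc]
    have e2 := (Matrix.detRowAlternating (R := K) (n := Fin 3)).toMultilinearMap.map_sum
      (fun a i => (algebraMap F K (u a i) * t i) • fun b => algebraMap k K (g i b))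
    simp only [MultilinearMap.map_smul_univ] at e2
    rw [e1]
    refine e2.trans ?_
    rw [← sum_filter_of_ne (p := fun r : Fin 3 → Fin n => Function.Injective r),
      ← sum_fiberwise _ (fun r : Fin 3 → Fin n => univ.image r)]
    · refine sum_congr rfl fun s _ => ?_
      rw [filter_filter, sum_smul]
      refine sum_congr rfl fun r hr => ?_
      obtain ⟨h1, rfl⟩ := (mem_filter.1 hr).2
      have e3 : (Matrix.detRowAlternating (R := K) (n := Fin 3)).toMultilinearMap
          (fun a b => algebraMap k K (g (r a) b)) = algebraMap k K (Matrix.of (g ∘ r)).det := by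
        rw [RingHom.map_det]; rfl
      rw [e3, prod_image fun a _ b _ h => h1 h, prod_mul_distrib, smul_eq_mul,
        Algebra.smul_def, map_mul, ← IsScalarTower.algebraMap_apply, map_prod]
      ring
    · intro r _ hr
      by_contra hc
      refine hr (smul_eq_zero_of_right _ ((Matrix.detRowAlternating (R := K)
        (n := Fin 3)).map_eq_zero_of_not_injective _ fun h => hc fun a b e => h ?_))
      simp only [e]
  have hc : ∀ r₀ : Fin 3 → Fin n, c (univ.image r₀) = algebraMap F k
      (∑ r ∈ univ.filter (fun r : Fin 3 → Fin n => Function.Injective r ∧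
        univ.image r = univ.image r₀), ∏ a, u a (r a)) * (Matrix.of (g ∘ r₀)).det := by
    intro r₀
    rw [map_sum, sum_mul]
    exact sum_congr rfl fun r hr => by
      rw [det_perm g r r₀ (mem_filter.1 hr).2.1 (mem_filter.1 hr).2.2]
  rw [e]
  constructor
  · intro h r₀ h₀
    have := Fintype.linearIndependent_iff.1 ht c h (univ.image r₀)
    rw [hc r₀, mul_eq_zero, map_eq_zero, hd r₀ h₀] at this
    convert this
  · intro h
    refine sum_eq_zero fun s _ => smul_eq_zero_of_left ?_ _
    by_cases hs : ∃ r₀ : Fin 3 → Fin n, Function.Injective r₀ ∧ univ.image r₀ = s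
    · obtain ⟨r₀, h₀, rfl⟩ := hs
      rw [hc r₀, mul_eq_zero, map_eq_zero, hd r₀ h₀]
      convert h r₀ h₀
    · exact sum_eq_zero fun r hr => absurd ⟨r, (mem_filter.1 hr).2⟩ hs

lemma exists_ext (d N r : ℕ) (hd : d ≠ 0) (hN : 2 ^ n ≤ N) (hr : r ∣ 2 ^ d - 1) :
    ∃ (k K : Type) (_ : Field k) (_ : Algebra F k) (_ : Field K) (_ : Algebra F K)
      (_ : Algebra k K) (_ : IsScalarTower F k K) (_ : FiniteDimensional F K) (γ : k) (t : Fin n → K),
      finrank F K = d * N ∧ orderOf γ = r ∧
      LinearIndependent k fun s : Finset (Fin n) => ∏ i ∈ s, t i := by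
  have : NeZero N := ⟨by have := Nat.two_pow_pos n; omega⟩
  let k := GaloisField 2 d
  let K := FiniteField.Extension k 2 N
  let pb := Field.powerBasisOfFiniteOfSeparable k K
  have hdim : pb.dim = N := pb.finrank.symm.trans (FiniteField.finrank_extension k 2 N)
  obtain ⟨g, hg⟩ := IsCyclic.exists_ofOrder_eq_natCard (α := kˣ)
  rw [Nat.card_units, GaloisField.card 2 d hd] at hg
  have h0 : orderOf g ≠ 0 := (orderOf_pos g).ne'
  refine ⟨k, K, inferInstance, inferInstance, inferInstance, inferInstance, inferInstance,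
    inferInstance, inferInstance, (g ^ (orderOf g / r) : kˣ), fun i => pb.gen ^ (2 ^ (i : ℕ)),
    ?_, ?_, ?_⟩
  · rw [FiniteField.finrank_zmod_extension, GaloisField.finrank 2 hd]
  · rw [orderOf_units, orderOf_pow_orderOf_div h0 (hg ▸ hr)]
  · have hlt : ∀ s : Finset (Fin n), ∑ i ∈ s.map Fin.valEmbedding, 2 ^ i < pb.dim := fun s =>
      (Nat.geomSum_lt le_rfl (by simp)).trans_le (hdim ▸ hN)
    have := pb.basis.linearIndependent.comp (fun s : Finset (Fin n) => ⟨_, hlt s⟩)
      (fun s s' e => map_injective _ (geomSum_injective le_rfl (congrArg Fin.val e)))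
    have e : (fun s : Finset (Fin n) => ∏ i ∈ s, pb.gen ^ (2 ^ (i : ℕ))) =
        pb.basis ∘ fun s : Finset (Fin n) => ⟨_, hlt s⟩ := by
      funext s; simp [prod_pow_eq_pow_sum]
    exact e ▸ this

/-- Matrices whose columns all lie in `W`. -/
noncomputable def cols (m : ℕ) (W : Submodule F (Fin n → F)) : Submodule F (Fin n → Fin m → F) :=
  ⨅ j : Fin m, Submodule.comap (LinearMap.pi (fun i : Fin n =>
    LinearMap.comp (LinearMap.proj j : (Fin m → F) →ₗ[F] F)
      (LinearMap.proj i : (Fin n → Fin m → F) →ₗ[F] (Fin m → F)))) W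

/-- Orthogonal complement. -/
noncomputable def perp (V : Submodule F (Fin n → F)) : Submodule F (Fin n → F) :=
  ⨅ (v : Fin n → F) (_ : v ∈ V), LinearMap.ker
    (∑ i : Fin n, v i • (LinearMap.proj i : (Fin n → F) →ₗ[F] F))

lemma mem_perp (V : Submodule F (Fin n → F)) (x : Fin n → F) :
    x ∈ perp V ↔ ∀ v ∈ V, ∑ i, v i * x i = 0 := by
  simp [perp, mem_iInf]

lemma perp_perp (W : Submodule F (Fin n → F)) : perp (perp W) = W := by
  ext x
  rw [mem_perp]
  constructor
  · intro h
    by_contra hx
    obtain ⟨f, hf1, hf2⟩ := exists_dual_map_eq_bot_of_notMem hx inferInstance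
    have e : ∀ y : Fin n → F, ∑ i, f (Pi.single i 1) * y i = f y := fun y => by
      conv_rhs => rw [pi_eq_sum_univ' y]
      simp only [map_sum, map_smul, smul_eq_mul, mul_comm]
    refine hf1 ((e x).symm.trans (h _ ((mem_perp _ _).2 fun w hw => ?_)))
    simp only [mul_comm (w _)]
    rw [e]
    exact (mem_bot F).1 (hf2 ▸ mem_map_of_mem hw)
  · intro hx v hv
    simp only [mul_comm (v _)]
    exact (mem_perp _ _).1 hv x hx

lemma finrank_ann {K : Type} [Field K] [Algebra F K] (c : Fin n → Fin 3 → K)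
    (V : Set (Fin n → F)) :
    finrank F ((span K (phi c '' V)).dualAnnihilator.restrictScalars F) =
      finrank F K * (3 - rk c V) := by
  have h := Subspace.finrank_add_finrank_dualAnnihilator_eq (span K (phi c '' V))
  rw [finrank_fintype_fun_eq_card, Fintype.card_fin] at h
  have h2 : finrank K (span K (phi c '' V)).dualAnnihilator = 3 - rk c V := by
    rw [rk]; omega
  rw [← h2]
  generalize (span K (phi c '' V)).dualAnnihilator = W
  have : Module.Free K W := Module.Free.of_divisionRing K W
  exact (finrank_mul_finrank F K W).symm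

lemma finrank_sprod {A B : Type} [AddCommGroup A] [AddCommGroup B] [Module F A] [Module F B]
    [FiniteDimensional F A] [FiniteDimensional F B] (p : Submodule F A) (q : Submodule F B) :
    finrank F (p.prod q) = finrank F p + finrank F q := by
  rw [← finrank_prod]
  exact LinearEquiv.finrank_eq
    { toFun := fun x => (⟨x.1.1, x.2.1⟩, ⟨x.1.2, x.2.2⟩)
      invFun := fun y => ⟨(y.1.1, y.2.1), y.1.2, y.2.2⟩
      map_add' := fun _ _ => rfl
      map_smul' := fun _ _ => rfl
      left_inv := fun _ => rfl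
      right_inv := fun _ => rfl }

lemma code {K₁ K₂ : Type} [Field K₁] [Algebra F K₁] [Field K₂] [Algebra F K₂]
    [FiniteDimensional F K₁] [FiniteDimensional F K₂]
    (c₁ : Fin n → Fin 3 → K₁) (c₂ : Fin n → Fin 3 → K₂) (m : ℕ)
    (hm : finrank F K₁ + finrank F K₂ = m) (h₁ : rk c₁ Set.univ = 3)
    (h : ∀ V, rk c₂ V = rk c₁ V) :
    ∃ C : Submodule F (Fin n → Fin m → F), finrank F C = m * 3 ∧
      ∀ V : Submodule F (Fin n → F), finrank F ↥(C ⊓ cols m (perp V)) = m * (3 - rk c₁ V) := by
  let e : (K₁ × K₂) ≃ₗ[F] (Fin m → F) := LinearEquiv.ofFinrankEq _ _ (by simp [hm])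
  let Φ : (Dual K₁ (Fin 3 → K₁) × Dual K₂ (Fin 3 → K₂)) →ₗ[F] (Fin n → Fin m → F) :=
    { toFun := fun a i => e (a.1 (c₁ i), a.2 (c₂ i))
      map_add' := fun a b => by funext i; rw [Pi.add_apply, ← map_add]; rfl
      map_smul' := fun x a => by funext i; rw [Pi.smul_apply, RingHom.id_apply, ← map_smul]; rfl }
  have : FiniteDimensional F (Dual K₁ (Fin 3 → K₁)) := Module.Finite.trans K₁ _
  have : FiniteDimensional F (Dual K₂ (Fin 3 → K₂)) := Module.Finite.trans K₂ _
  have key : ∀ V : Submodule F (Fin n → F), (cols m (perp V)).comap Φ =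
      ((span K₁ (phi c₁ '' V)).dualAnnihilator.restrictScalars F).prod
        ((span K₂ (phi c₂ '' V)).dualAnnihilator.restrictScalars F) := by
    intro V
    ext a
    have e1 : ∀ v : Fin n → F, (fun j => ∑ i, v i * Φ a i j) =
        e (a.1 (phi c₁ v), a.2 (phi c₂ v)) := fun v => by
      have : (a.1 (phi c₁ v), a.2 (phi c₂ v)) = ∑ i, v i • (a.1 (c₁ i), a.2 (c₂ i)) := by
        ext <;> simp [phi, Fintype.linearCombination_apply, Prod.fst_sum, Prod.snd_sum]
      rw [this, map_sum]
      funext j
      simp only [map_smul, Finset.sum_apply, Pi.smul_apply, smul_eq_mul]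
      rfl
    have e2 : a ∈ (cols m (perp V)).comap Φ ↔
        ∀ v ∈ V, a.1 (phi c₁ v) = 0 ∧ a.2 (phi c₂ v) = 0 := by
      simp only [mem_comap, cols, mem_iInf, mem_perp]
      rw [forall_comm]
      refine forall_congr' fun v => ?_
      rw [forall_comm]
      refine forall_congr' fun hv => ?_
      rw [← Prod.mk_eq_zero, ← e.map_eq_zero_iff, ← e1, funext_iff]
      rfl
    rw [e2]
    simp only [mem_prod, restrictScalars_mem, mem_dualAnnihilator]
    constructor
    · intro h
      exact ⟨fun w hw => (span_le (p := LinearMap.ker a.1)).2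
          (by rintro _ ⟨v, hv, rfl⟩; exact (h v hv).1) hw,
        fun w hw => (span_le (p := LinearMap.ker a.2)).2
          (by rintro _ ⟨v, hv, rfl⟩; exact (h v hv).2) hw⟩
    · exact fun h v hv => ⟨h.1 _ (subset_span ⟨v, hv, rfl⟩), h.2 _ (subset_span ⟨v, hv, rfl⟩)⟩
  have dim : ∀ V : Submodule F (Fin n → F),
      finrank F ((cols m (perp V)).comap Φ) = m * (3 - rk c₁ V) := fun V => by
    rw [key, finrank_sprod, finrank_ann, finrank_ann, h, ← add_mul, hm]
  have hinj : Function.Injective Φ := by
    rw [← LinearMap.ker_eq_bot, ← finrank_eq_zero]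
    have h1 := dim ⊤
    rw [top_coe, h₁] at h1
    refine Nat.le_zero.1 ((finrank_mono fun a ha => ?_).trans h1.le)
    rw [mem_comap, LinearMap.mem_ker.1 ha]
    exact zero_mem _
  have fin : ∀ V : Submodule F (Fin n → F),
      finrank F ↥(LinearMap.range Φ ⊓ cols m (perp V)) = m * (3 - rk c₁ V) := fun V => by
    rw [← map_comap_eq, ← dim]
    exact (equivMapOfInjective Φ hinj _).finrank_eq.symm
  refine ⟨LinearMap.range Φ, ?_, fin⟩
  have h0 := fin ⊥
  have e1 : cols m (perp (⊥ : Submodule F (Fin n → F))) = ⊤ := by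
    rw [eq_top_iff]; intro x _; simp [cols, mem_iInf, mem_perp]
  have e2 : rk c₁ (⊥ : Submodule F (Fin n → F)) = 0 := by simp [rk]
  rwa [e1, e2, inf_top_eq] at h0

lemma coords {K : Type} [Field K] [Algebra F K] {k : ℕ} (P : Fin n → Fin k → K)
    (b : Fin 3 → Fin n) (hb : LinearIndependent K (P ∘ b)) (h : rk P Set.univ ≤ 3) :
    ∃ M : Fin n → Fin 3 → K, (∀ a, M (b a) = Pi.single a 1) ∧
      ∀ r : Fin 3 → Fin n, (LinearIndependent K (P ∘ r) ↔ (Matrix.of (M ∘ r)).det ≠ 0) := by
  have hP : ∀ i, P i ∈ span K (phi P '' Set.univ) := fun i =>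
    subset_span ⟨_, trivial, phi_single P i⟩
  have e : span K (Set.range (P ∘ b)) = span K (phi P '' Set.univ) :=
    eq_of_le_of_finrank_le (span_le.2 (by rintro _ ⟨a, rfl⟩; exact hP _))
      (by rw [finrank_span_eq_card hb, Fintype.card_fin]; exact h)
  have : ∀ i, ∃ c : Fin 3 → K, Fintype.linearCombination K (P ∘ b) c = P i := fun i => by
    simpa [Fintype.linearCombination_apply] using
      (mem_span_range_iff_exists_fun K).1 (e ▸ hP i)
  choose M hM using this
  have hi := hb.fintypeLinearCombination_injective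
  refine ⟨M, fun a => hi (by rw [hM]; simp), fun r => ?_⟩
  rw [← li3, ← (Fintype.linearCombination K (P ∘ b)).linearIndependent_iff
    (LinearMap.ker_eq_bot.2 hi)]
  have e2 : P ∘ r = Fintype.linearCombination K (P ∘ b) ∘ M ∘ r := funext fun a => (hM _).symm
  rw [e2]

end Pool.Agent.H12.QMat
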