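import Mathlib

set_option autoImplicit false

namespace Pool.Agent.H12.RegSeq

/-- Regular type A sequences: start from (1,1); put in front the sum of the first `j ≥ 1` terms,
or put at the end the sum of the terms from position `i` on (a nonempty final block). -/
inductive RegA : List ℕ → Prop
  | base : RegA [1, 1]
  | front (d : List ℕ) (j : ℕ) : RegA d → 1 ≤ j → j ≤ d.length → RegA ((d.take j).sum :: d)
  | back (d : List ℕ) (i : ℕ) : RegA d → i < d.length → RegA (d ++ [(d.drop i).sum])

/-- Regular type B sequences: the new term (in front or at the end) is the sum of any block of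
`j ≥ 1` consecutive terms, starting at position `i`. -/
inductive RegB : List ℕ → Prop
  | base : RegB [1, 1]
  | front (d : List ℕ) (i j : ℕ) : RegB d → 1 ≤ j → i + j ≤ d.length →
      RegB (((d.drop i).take j).sum :: d)
  | back (d : List ℕ) (i j : ℕ) : RegB d → 1 ≤ j → i + j ≤ d.length →
      RegB (d ++ [((d.drop i).take j).sum])

/-- `d` has some ordering of `ks` as a subsequence. -/
def Has (d ks : List ℕ) : Prop := ∃ l : List ℕ, l.Perm ks ∧ l.Sublist d

/-- Least length of a regular type A sequence having an ordering of `ks` as a subsequence. -/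
noncomputable def a (ks : List ℕ) : ℕ := sInf {n | ∃ d, RegA d ∧ d.length = n ∧ Has d ks}

/-- Least length of a regular type B sequence having an ordering of `ks` as a subsequence. -/
noncomputable def b (ks : List ℕ) : ℕ := sInf {n | ∃ d, RegB d ∧ d.length = n ∧ Has d ks}

/-! ### A checked search over type A sequences -/

def kids (d : List ℕ) : List (List ℕ) :=
  (List.range d.length).map (fun j => (d.take (j + 1)).sum :: d) ++
    (List.range d.length).map (fun i => d ++ [(d.drop i).sum])

def cnt (x y : ℕ) (d : List ℕ) : ℕ := d.countP (fun t => t == x || t == y)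

def Safe (x y : ℕ) : ℕ → List ℕ → Prop
  | 0, d => ¬ Has d [x, y]
  | f + 1, d => ¬ Has d [x, y] ∧ ∀ c ∈ kids d, Safe x y f c

theorem Safe.not_has {x y f : ℕ} {d : List ℕ} (h : Safe x y f d) : ¬ Has d [x, y] := by
  cases f with
  | zero => exact h
  | succ f => exact h.1

theorem two_le_cnt {x y : ℕ} {d : List ℕ} (h : Has d [x, y]) : 2 ≤ cnt x y d := by
  obtain ⟨l, h1, h2⟩ := h
  have h3 := h2.countP_le (p := fun t => t == x || t == y)
  rw [h1.countP_eq] at h3
  simpa [cnt] using h3

theorem mem_kids {d c : List ℕ} (h : c ∈ kids d) :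
    ∃ t, t ≤ d.sum ∧ (c = t :: d ∨ c = d ++ [t]) := by
  simp only [kids, List.mem_append, List.mem_map, List.mem_range] at h
  rcases h with ⟨j, -, rfl⟩ | ⟨i, -, rfl⟩
  · exact ⟨_, (List.take_sublist _ _).sum_le_sum (fun _ _ => Nat.zero_le _), Or.inl rfl⟩
  · exact ⟨_, (List.drop_sublist _ _).sum_le_sum (fun _ _ => Nat.zero_le _), Or.inr rfl⟩

theorem safe_of_cnt (x y : ℕ) : ∀ (f : ℕ) (d : List ℕ), cnt x y d + f ≤ 1 → Safe x y f d
  | 0, d, h => fun h2 => by have := two_le_cnt h2; omega
  | f + 1, d, h => ⟨fun h2 => by have := two_le_cnt h2; omega, fun c hc => by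
      apply safe_of_cnt
      obtain ⟨t, -, rfl | rfl⟩ := mem_kids hc
      · simp only [cnt, List.countP_cons] at h ⊢
        split_ifs <;> omega
      · simp only [cnt, List.countP_append, List.countP_cons, List.countP_nil] at h ⊢
        split_ifs <;> omega⟩

theorem cnt_zero {x y : ℕ} (hxy : x ≤ y) {d : List ℕ} (h : ∀ t ∈ d, t < x) : cnt x y d = 0 := by
  simp only [cnt, List.countP_eq_zero]
  intro t ht
  have := h t ht
  simp only [Bool.or_eq_true, beq_iff_eq]
  omega

theorem safe_of_sum {x y : ℕ} (hxy : x ≤ y) :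
    ∀ (f : ℕ) (d : List ℕ), d.sum * 2 ^ f < x → Safe x y (f + 2) d := by
  intro f
  induction f with
  | zero =>
    intro d h
    have h0 : ∀ t ∈ d, t < x := fun t ht => by
      have := List.single_le_sum (l := d) (fun _ _ => Nat.zero_le _) t ht
      omega
    refine ⟨fun h2 => ?_, fun c hc => safe_of_cnt _ _ _ _ ?_⟩
    · have := two_le_cnt h2
      have := cnt_zero hxy h0
      omega
    · obtain ⟨t, h1, h3⟩ := mem_kids hc
      have : cnt x y c = 0 := cnt_zero hxy fun s hs => by
        rcases h3 with rfl | rfl
        · rcases List.mem_cons.1 hs with rfl | hs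
          · omega
          · exact h0 s hs
        · rcases List.mem_append.1 hs with hs | hs
          · exact h0 s hs
          · rw [List.mem_singleton] at hs
            omega
      rw [this]
  | succ f ih =>
    intro d h
    have hp : 1 ≤ 2 ^ f := Nat.one_le_two_pow
    rw [pow_succ] at h
    refine ⟨fun h2 => ?_, fun c hc => ih c ?_⟩
    · have h0 : ∀ t ∈ d, t < x := fun t ht => by
        have := List.single_le_sum (l := d) (fun _ _ => Nat.zero_le _) t ht
        nlinarith
      have := two_le_cnt h2
      have := cnt_zero hxy h0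
      omega
    · obtain ⟨t, h1, rfl | rfl⟩ := mem_kids hc
      · simp only [List.sum_cons]
        nlinarith
      · simp only [List.sum_append, List.sum_cons, List.sum_nil]
        nlinarith

def chk (x y : ℕ) : ℕ → List ℕ → Bool
  | 0, d => !(d.contains x && d.contains y)
  | f + 1, d => decide (cnt x y d + (f + 1) ≤ 1) ||
      (decide (1 ≤ f) && decide (d.sum * 2 ^ (f - 1) < x)) ||
      (!(d.contains x && d.contains y) && (kids d).all (chk x y f))

theorem not_has {x y : ℕ} {d : List ℕ} (h : (!(d.contains x && d.contains y)) = true) :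
    ¬ Has d [x, y] := by
  rintro ⟨l, h1, h2⟩
  have hx : x ∈ d := h2.subset (h1.mem_iff.2 (by simp))
  have hy : y ∈ d := h2.subset (h1.mem_iff.2 (by simp))
  simp [hx, hy] at h

theorem safe_of_chk {x y : ℕ} (hxy : x ≤ y) :
    ∀ (f : ℕ) (d : List ℕ), chk x y f d = true → Safe x y f d
  | 0, _, h => not_has h
  | f + 1, d, h => by
    simp only [chk, Bool.or_eq_true, Bool.and_eq_true, decide_eq_true_eq] at h
    rcases h with (h | ⟨h1, h2⟩) | ⟨h1, h2⟩
    · exact safe_of_cnt _ _ _ _ h
    · obtain ⟨g, rfl⟩ : ∃ g, f = g + 1 := ⟨f - 1, by omega⟩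
      exact safe_of_sum hxy g d (by simpa using h2)
    · exact ⟨not_has h1, fun c hc => safe_of_chk hxy f c (List.all_eq_true.1 h2 c hc)⟩

theorem RegA.two_le {d : List ℕ} (h : RegA d) : 2 ≤ d.length := by
  induction h with
  | base => simp
  | front d j _ _ _ ih => simp only [List.length_cons]; omega
  | back d i _ _ ih => simp only [List.length_append]; omega

theorem safe_of_reg {x y N : ℕ} (h0 : Safe x y N [1, 1]) {d : List ℕ} (h : RegA d) :
    ∀ f, d.length + f = N + 2 → Safe x y f d := by
  induction h with
  | base =>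
    intro f hf
    obtain rfl : f = N := by simp at hf; omega
    exact h0
  | front d j _ h1 h2 ih =>
    intro f hf
    refine (ih (f + 1) (by simp only [List.length_cons] at hf; omega)).2 _ ?_
    simp only [kids, List.mem_append, List.mem_map, List.mem_range]
    exact Or.inl ⟨j - 1, by omega, by rw [Nat.sub_add_cancel h1]⟩
  | back d i _ h1 ih =>
    intro f hf
    refine (ih (f + 1) (by simp only [List.length_append, List.length_singleton] at hf; omega)).2
      _ ?_
    simp only [kids, List.mem_append, List.mem_map, List.mem_range]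
    exact Or.inr ⟨i, h1, rfl⟩

/-- The value of `a [x, y]` from a witness of length `N + 3` and the search to length `N + 2`. -/
theorem a_eq {x y N : ℕ} (hxy : x ≤ y) (h : chk x y N [1, 1] = true) {d : List ℕ} (h1 : RegA d)
    (h2 : d.length = N + 3) (h3 : Has d [x, y]) : a [x, y] = N + 3 := by
  have hm : N + 3 ∈ {n | ∃ d, RegA d ∧ d.length = n ∧ Has d [x, y]} := ⟨d, h1, h2, h3⟩
  apply le_antisymm (Nat.sInf_le hm)
  apply le_csInf ⟨_, hm⟩
  rintro n ⟨e, g1, g2, g3⟩
  by_contra hn
  exact (safe_of_reg (safe_of_chk hxy N _ h) g1 (N + 2 - n) (by omega)).not_has g3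

end Pool.Agent.H12.RegSeq
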