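import Mathlib
import Pool.Agent.H12.RegSeq

set_option autoImplicit false

namespace Pool.Agent.H12.RegSeq

/-! ### A checked search over type B sequences -/

def sums (d : List ℕ) : List ℕ :=
  (List.range d.length).flatMap fun i =>
    (List.range (d.length - i)).map fun j => ((d.drop i).take (j + 1)).sum

def kidsB (d : List ℕ) : List (List ℕ) :=
  (sums d).map (fun t => t :: d) ++ (sums d).map (fun t => d ++ [t])

def SafeB (x y : ℕ) : ℕ → List ℕ → Prop
  | 0, d => ¬ Has d [x, y]
  | f + 1, d => ¬ Has d [x, y] ∧ ∀ c ∈ kidsB d, SafeB x y f c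

theorem SafeB.not_has {x y f : ℕ} {d : List ℕ} (h : SafeB x y f d) : ¬ Has d [x, y] := by
  cases f with
  | zero => exact h
  | succ f => exact h.1

theorem le_of_mem_sums {d : List ℕ} {t : ℕ} (h : t ∈ sums d) : t ≤ d.sum := by
  simp only [sums, List.mem_flatMap, List.mem_map, List.mem_range] at h
  obtain ⟨i, -, j, -, rfl⟩ := h
  exact ((List.take_sublist _ _).trans (List.drop_sublist _ _)).sum_le_sum
    (fun _ _ => Nat.zero_le _)

theorem mem_sums {d : List ℕ} {i j : ℕ} (h1 : 1 ≤ j) (h2 : i + j ≤ d.length) :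
    ((d.drop i).take j).sum ∈ sums d := by
  simp only [sums, List.mem_flatMap, List.mem_map, List.mem_range]
  exact ⟨i, by omega, j - 1, by omega, by rw [Nat.sub_add_cancel h1]⟩

theorem mem_kidsB {d c : List ℕ} (h : c ∈ kidsB d) :
    ∃ t, t ≤ d.sum ∧ (c = t :: d ∨ c = d ++ [t]) := by
  simp only [kidsB, List.mem_append, List.mem_map] at h
  rcases h with ⟨t, h, rfl⟩ | ⟨t, h, rfl⟩
  · exact ⟨_, le_of_mem_sums h, Or.inl rfl⟩
  · exact ⟨_, le_of_mem_sums h, Or.inr rfl⟩

theorem safeB_of_cnt (x y : ℕ) : ∀ (f : ℕ) (d : List ℕ), cnt x y d + f ≤ 1 → SafeB x y f d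
  | 0, d, h => fun h2 => by have := two_le_cnt h2; omega
  | f + 1, d, h => ⟨fun h2 => by have := two_le_cnt h2; omega, fun c hc => by
      apply safeB_of_cnt
      obtain ⟨t, -, rfl | rfl⟩ := mem_kidsB hc
      · simp only [cnt, List.countP_cons] at h ⊢
        split_ifs <;> omega
      · simp only [cnt, List.countP_append, List.countP_cons, List.countP_nil] at h ⊢
        split_ifs <;> omega⟩

theorem safeB_of_sum {x y : ℕ} (hxy : x ≤ y) :
    ∀ (f : ℕ) (d : List ℕ), d.sum * 2 ^ f < x → SafeB x y (f + 2) d := by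
  intro f
  induction f with
  | zero =>
    intro d h
    have h0 : ∀ t ∈ d, t < x := fun t ht => by
      have := List.single_le_sum (l := d) (fun _ _ => Nat.zero_le _) t ht
      omega
    refine ⟨fun h2 => ?_, fun c hc => safeB_of_cnt _ _ _ _ ?_⟩
    · have := two_le_cnt h2
      have := cnt_zero hxy h0
      omega
    · obtain ⟨t, h1, h3⟩ := mem_kidsB hc
      have : cnt x y c = 0 := cnt_zero hxy fun s hs => by
        rcases h3 with rfl | rfl
        · rcases List.mem_cons.1 hs with rfl | hs
          · omega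
          · exact h0 s hs
        · rcases List.mem_append.1 hs with hs | hs
          · exact h0 s hs
          · rw [List.mem_singleton] at hs
            omega
      rw [this]
  | succ f ih =>
    intro d h
    have hp : 1 ≤ 2 ^ f := Nat.one_le_two_pow
    rw [pow_succ] at h
    refine ⟨fun h2 => ?_, fun c hc => ih c ?_⟩
    · have h0 : ∀ t ∈ d, t < x := fun t ht => by
        have := List.single_le_sum (l := d) (fun _ _ => Nat.zero_le _) t ht
        nlinarith
      have := two_le_cnt h2
      have := cnt_zero hxy h0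
      omega
    · obtain ⟨t, h1, rfl | rfl⟩ := mem_kidsB hc
      · simp only [List.sum_cons]
        nlinarith
      · simp only [List.sum_append, List.sum_cons, List.sum_nil]
        nlinarith

def chkB (x y : ℕ) : ℕ → List ℕ → Bool
  | 0, d => !(d.contains x && d.contains y)
  | f + 1, d => decide (cnt x y d + (f + 1) ≤ 1) ||
      (decide (1 ≤ f) && decide (d.sum * 2 ^ (f - 1) < x)) ||
      (!(d.contains x && d.contains y) && (kidsB d).all (chkB x y f))

theorem safeB_of_chk {x y : ℕ} (hxy : x ≤ y) :
    ∀ (f : ℕ) (d : List ℕ), chkB x y f d = true → SafeB x y f d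
  | 0, _, h => not_has h
  | f + 1, d, h => by
    simp only [chkB, Bool.or_eq_true, Bool.and_eq_true, decide_eq_true_eq] at h
    rcases h with (h | ⟨h1, h2⟩) | ⟨h1, h2⟩
    · exact safeB_of_cnt _ _ _ _ h
    · obtain ⟨g, rfl⟩ : ∃ g, f = g + 1 := ⟨f - 1, by omega⟩
      exact safeB_of_sum hxy g d (by simpa using h2)
    · exact ⟨not_has h1, fun c hc => safeB_of_chk hxy f c (List.all_eq_true.1 h2 c hc)⟩

theorem safeB_of_reg {x y N : ℕ} (h0 : SafeB x y N [1, 1]) {d : List ℕ} (h : RegB d) :
    ∀ f, d.length + f = N + 2 → SafeB x y f d := by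
  induction h with
  | base =>
    intro f hf
    obtain rfl : f = N := by simp at hf; omega
    exact h0
  | front d i j _ h1 h2 ih =>
    intro f hf
    refine (ih (f + 1) (by simp only [List.length_cons] at hf; omega)).2 _ ?_
    simp only [kidsB, List.mem_append, List.mem_map]
    exact Or.inl ⟨_, mem_sums h1 h2, rfl⟩
  | back d i j _ h1 h2 ih =>
    intro f hf
    refine (ih (f + 1) (by simp only [List.length_append, List.length_singleton] at hf; omega)).2
      _ ?_
    simp only [kidsB, List.mem_append, List.mem_map]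
    exact Or.inr ⟨_, mem_sums h1 h2, rfl⟩

theorem no_short {x y N : ℕ} (hxy : x ≤ y) (h : chkB x y N [1, 1] = true) {d : List ℕ}
    (h1 : RegB d) (h2 : Has d [x, y]) : N + 3 ≤ d.length := by
  by_contra hn
  exact (safeB_of_reg (safeB_of_chk hxy N _ h) h1 (N + 2 - d.length) (by omega)).not_has h2

theorem chk5762 : chkB 57 62 7 [1, 1] = true := by decide +kernel

end Pool.Agent.H12.RegSeq
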