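import Mathlib
import Pool.Agent.H12.Tang4

set_option autoImplicit false

namespace Pool.Agent.H12.Tang

open scoped Classical Matroid
open Set Submodule Module

variable {α F W : Type} [Field F] [AddCommGroup W] [Module F W] {M : Matroid α} {v : α → W}

theorem minor_rep_aux (hv : ∀ I ⊆ M.E, (M.Indep I ↔ LinearIndepOn F v I)) {C : Set α}
    (hC : C ⊆ M.E) (D : Set α) {W' : Type} [AddCommGroup W'] [Module F W'] (φ : W →ₗ[F] W')
    (hφ : ∀ w, φ w = 0 ↔ w ∈ span F (v '' C)) :
    ∀ I ⊆ (M ／ C ＼ D).E, ((M ／ C ＼ D).Indep I ↔ LinearIndepOn F (φ ∘ v) I) := by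
  intro I hI
  have hI' : I ⊆ (M.E \ C) \ D := hI
  have hI1 : I ⊆ (M ／ C).E := hI'.trans sdiff_subset
  have hIE : I ⊆ M.E := hI1.trans sdiff_subset
  rw [Matroid.delete_indep_iff, and_iff_left (disjoint_left.2 fun e he => (hI' he).2),
    Matroid.indep_iff_forall_notMem_closure_sdiff hI1, linearIndepOn_iff_notMem_span]
  apply forall_congr'
  intro e
  apply imp_congr_right
  intro he
  have hk : LinearMap.ker φ = span F (v '' C) := by
    ext w
    exact hφ w
  rw [Matroid.contract_closure_eq, mem_sdiff, and_iff_left (hI' he).1.2,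
    mem_closure hv (union_subset (sdiff_subset.trans hIE) hC) (hIE he), image_union, span_union,
    image_comp, span_image, Function.comp_apply, ← mem_comap, comap_map_eq, hk]

theorem minor_rep [Module.Finite F W] (hv : ∀ I ⊆ M.E, (M.Indep I ↔ LinearIndepOn F v I))
    {N : Matroid α} (hN : N ≤m M) : Rep F N := by
  obtain ⟨C, D, hC, -, -, rfl⟩ := hN.exists_eq_contract_delete_disjoint
  obtain ⟨φ, hφ⟩ := exists_ker_eq (span F (v '' C)) (finrank F W) (by omega)
  exact ⟨_, φ ∘ v, minor_rep_aux hv hC D φ hφ⟩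

theorem exists_tangential [Fintype α] [Fintype F] (hrep : Rep F M) (k : ℕ) (n : ℕ) :
    ∀ N : Matroid α, N.E.ncard = n → N ≤m M → Simple N → CritGt (Fintype.card F) k N →
      ∃ N' : Matroid α, N' ≤m M ∧ Tangential F k N' := by
  induction n using Nat.strong_induction_on with
  | _ n ih =>
    intro N hn hN hs hb
    by_cases h : ∀ N' : Matroid α, N' <m N → Simple N' → ¬ CritGt (Fintype.card F) k N'
    · obtain ⟨m, v, hv⟩ := hrep
      exact ⟨N, hN, minor_rep hv hN, hs, hb, h⟩
    · push Not at h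
      obtain ⟨N', h1, h2, h3⟩ := h
      exact ih _ (hn ▸ ncard_lt_ncard h1.ssubset (toFinite _)) N' rfl (h1.isMinor.trans hN) h2 h3

theorem det3_ne_zero {v : α → Fin 3 → F} {x y z : α} (hxy : x ≠ y) (hxz : x ≠ z) (hyz : y ≠ z)
    (h : LinearIndepOn F v {x, y, z}) : det3 (v x) (v y) (v z) ≠ 0 := by
  have h1 : LinearIndependent F (Matrix.of ![v x, v y, v z]).row := by
    have h2 := LinearIndependent.comp h (fun i : Fin 3 => (⟨![x, y, z] i, by
      fin_cases i <;> simp⟩ : ({x, y, z} : Set α))) (by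
        intro i j hij
        have := congrArg Subtype.val hij
        fin_cases i <;> fin_cases j <;> simp_all)
    convert h2 using 1
    funext i
    fin_cases i <;> rfl
  rw [Matrix.linearIndependent_rows_iff_isUnit, Matrix.isUnit_iff_isUnit_det, Matrix.det_fin_three,
    isUnit_iff_ne_zero] at h1
  intro h0
  apply h1
  rw [← h0]
  simp [det3]
  ring

theorem det3_eq_zero {v : α → Fin 3 → F} (hv : ∀ I ⊆ M.E, (M.Indep I ↔ LinearIndepOn F v I))
    (hs : Simple M) {x y z : α} (hx : x ∈ M.E) (hy : y ∈ M.E) (hz : z ∈ M.E)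
    (h : ¬ M.Indep {z, x, y}) : det3 (v x) (v y) (v z) = 0 := by
  have h1 := hs x hx y hy
  have hz' : z ∉ ({x, y} : Set α) := fun h' => h (by rwa [insert_eq_of_mem h'])
  rw [hv _ (by simp [insert_subset_iff, hx, hy, hz]), linearIndepOn_insert hz', not_and, not_not,
    image_pair, mem_span_pair] at h
  obtain ⟨s, t, hst⟩ := h ((hv _ h1.subset_ground).1 h1)
  exact det3_of_comb hst

theorem contract_indep_card [Finite α] [Module.Finite F W]
    (hv : ∀ I ⊆ M.E, (M.Indep I ↔ LinearIndepOn F v I)) {C D I : Set α} (hC : C ⊆ M.E)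
    (hI : (M ／ C ＼ D).Indep I) : I.encard + M.eRk C ≤ finrank F W := by
  have h1 := (Matroid.delete_indep_iff.1 hI).1
  have h2 := contract_rk hC h1.subset_ground
  rw [h1.eRk_eq_encard] at h2
  rw [h2, eRk_eq hv (union_subset (h1.subset_ground.trans sdiff_subset) hC)]
  exact_mod_cast Submodule.finrank_le _

theorem chi_nonneg [Fintype α] [Fintype F] [Module.Finite F W]
    (hv : ∀ I ⊆ M.E, (M.Indep I ↔ LinearIndepOn F v I)) (j : ℕ) :
    0 ≤ chi M ((Fintype.card F : ℤ) ^ j) := by
  obtain ⟨Y, hY⟩ : ∃ Y : Finset α, (↑Y : Set α) = M.E :=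
    ⟨Finset.univ.filter (fun e => e ∈ M.E), by ext e; simp⟩
  have hcount := incl_excl (F := F) v ∅ Y j
  have hq : (0 : ℤ) < (Fintype.card F : ℤ) ^ j := pow_pos (by exact_mod_cast Fintype.card_pos) _
  have hmul : (Nat.card {φ : W →ₗ[F] (Fin j → F) //
      (∀ c ∈ (∅ : Set α), φ (v c) = 0) ∧ ∀ e ∈ Y, φ (v e) ≠ 0} : ℤ) =
      chi M ((Fintype.card F : ℤ) ^ j) *
        ((Fintype.card F : ℤ) ^ j) ^ (finrank F W - finrank F (span F (v '' M.E))) := by
    rw [hcount, chi, Finset.sum_mul]
    apply Finset.sum_congr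
    · ext X
      simp only [Finset.mem_powerset, Finset.mem_filter, Finset.mem_univ, true_and, ← hY,
        Finset.coe_subset]
    · intro X hX
      simp only [Finset.mem_filter, Finset.mem_univ, true_and] at hX
      rw [mul_assoc, ← pow_add, eRk_eq hv hX, eRk_eq hv (le_refl M.E), union_empty]
      have h3 : finrank F (span F (v '' ↑X)) ≤ finrank F (span F (v '' M.E)) :=
        Submodule.finrank_mono (span_mono (image_mono hX))
      have h4 := Submodule.finrank_le (span F (v '' M.E))
      simp only [ENat.toNat_natCast]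
      congr 2
      omega
  have hpos := pow_pos hq (finrank F W - finrank F (span F (v '' M.E)))
  rw [← mul_nonneg_iff_of_pos_right hpos, ← hmul]
  exact Nat.cast_nonneg _

end Pool.Agent.H12.Tang
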