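import Mathlib
import Pool.Agent.H12.Tang5

set_option autoImplicit false

namespace Pool.Agent.H12.Tang

open scoped Classical Matroid
open Set Submodule Module

variable {α F W : Type} [Field F] [AddCommGroup W] [Module F W] {M : Matroid α} {v : α → W}

theorem modular_of_pairs (hs : Simple M) {X : Set α} (hX : M.IsFlat X)
    (hp : ∀ u ∈ M.E, ∀ u' ∈ M.E, u ∉ X → u' ∉ X → u ≠ u' → ∃ h ∈ X, h ∈ M.closure {u, u'}) :
    Modular M X := by
  refine ⟨hX, fun Y hY => le_antisymm ?_ (by rw [add_comm]; exact M.eRk_inter_add_eRk_union_le X Y)⟩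
  by_cases h : Y ⊆ X
  · rw [union_eq_left.2 h, inter_eq_right.2 h]
  · obtain ⟨u, huY, huX⟩ := not_subset.1 h
    have huE := hY.subset_ground huY
    have h1 : M.eRk X + 1 ≤ M.eRk (X ∪ Y) := by
      rw [← M.eRk_insert_eq_add_one (e := u) ⟨huE, by rwa [hX.closure]⟩]
      exact M.eRk_mono (insert_subset (Or.inr huY) subset_union_left)
    have hsub : insert u (X ∩ Y) ⊆ M.E := insert_subset huE (inter_subset_left.trans hX.subset_ground)
    have h2 : Y ⊆ M.closure (insert u (X ∩ Y)) := by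
      intro y hy
      by_cases hyX : y ∈ X
      · exact M.subset_closure _ hsub (Or.inr ⟨hyX, hy⟩)
      by_cases hyu : y = u
      · exact M.subset_closure _ hsub (Or.inl hyu)
      obtain ⟨x, hx, hx'⟩ := hp y (hY.subset_ground hy) u huE hyX huX hyu
      have hxY : x ∈ Y := by
        rw [← hY.closure]
        exact M.closure_subset_closure (by simp [insert_subset_iff, hy, huY]) hx'
      have hxu : x ∉ M.closure {u} := by
        have h3 := hs x (hX.subset_ground hx) u huE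
        have hne : x ≠ u := fun h => huX (h ▸ hx)
        have := h3.notMem_closure_sdiff_of_mem (e := x) (by simp)
        rwa [pair_sdiff_left hne] at this
      have h4 := (Matroid.closure_exchange ⟨hx', hxu⟩).1
      refine M.closure_subset_closure ?_ h4
      exact insert_subset (Or.inr ⟨hx, hxY⟩) (by simp)
    have h3 : M.eRk Y ≤ M.eRk (X ∩ Y) + 1 :=
      (M.eRk_mono h2).trans (by rw [M.eRk_closure_eq]; exact M.eRk_insert_le_add_one _ _)
    calc M.eRk X + M.eRk Y ≤ M.eRk X + (M.eRk (X ∩ Y) + 1) := by gcongr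
      _ = (M.eRk X + 1) + M.eRk (X ∩ Y) := by ring
      _ ≤ _ := by gcongr

theorem block_of_points [Fintype F] {E : Set α} {ι : Type} [Finite ι] (k : ℕ)
    (hι : Nat.card ι = Fintype.card F ^ k) (u : ι → α) (hu : ∀ i, u i ∈ E)
    (hd : ∀ i j, i ≠ j → ∃ e ∈ E, ∃ c : F, c ≠ 0 ∧ v (u i) - v (u j) = c • v e) :
    ∀ φ : W →ₗ[F] (Fin k → F), ∃ e ∈ E, φ (v e) = 0 := by
  intro φ
  by_contra hn
  push Not at hn
  have hinj : Function.Injective (fun i => φ (v (u i))) := by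
    intro i j h
    by_contra hne
    obtain ⟨e, he, c, hc, h1⟩ := hd i j hne
    have h2 := congrArg φ h1
    simp only at h
    rw [map_sub, h, sub_self, map_smul] at h2
    exact hn e he ((smul_eq_zero.1 h2.symm).resolve_left hc)
  obtain ⟨i, hi⟩ := (hinj.bijective_of_nat_card_le (by
    rw [hι, Nat.card_eq_fintype_card]; simp)).2 0
  exact hn _ (hu i) hi

theorem minor_fun4 [Finite α] [Module.Finite F W]
    (hv : ∀ I ⊆ M.E, (M.Indep I ↔ LinearIndepOn F v I)) (hs : Simple M) (k : ℕ)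
    (hW : finrank F W ≤ 3 + k)
    (ht : ∀ x ∈ M.E, ∃ φ : W →ₗ[F] (Fin k → F), φ (v x) = 0 ∧ ∀ e ∈ M.E, e ≠ x → φ (v e) ≠ 0)
    (ht2 : ∀ x ∈ M.E, ∀ y ∈ M.E, x ≠ y → ∃ φ : W →ₗ[F] (Fin k → F), φ (v x) = 0 ∧ φ (v y) = 0 ∧
      ∀ e ∈ M.E, φ (v e) = 0 → ∃ s t : F, s • v x + t • v y = v e)
    {C D : Set α} (hC : C ⊆ M.E) (hD : D ⊆ M.E) (hne : (C ∪ D).Nonempty)
    (hl : ∀ e ∈ (M ／ C ＼ D).E, (M ／ C ＼ D).Indep {e}) :
    ∃ φ : W →ₗ[F] (Fin k → F), (∀ c ∈ C, φ (v c) = 0) ∧ ∀ e ∈ (M.E \ C) \ D, φ (v e) ≠ 0 := by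
  have hcl : ∀ e ∈ (M.E \ C) \ D, v e ∉ span F (v '' C) := by
    intro e he h0
    have h3 := (Matroid.delete_indep_iff.1 (hl e he)).1
    rw [Matroid.indep_singleton, Matroid.contract_isNonloop_iff] at h3
    exact h3.2 ((mem_closure hv hC he.1.1).2 h0)
  by_cases h : C.Nontrivial
  · obtain ⟨x, hx, y, hy, hxy⟩ := h
    have hsub : ({x, y} : Set α) ⊆ C := by simp [insert_subset_iff, hx, hy]
    by_cases h3 : C ⊆ M.closure {x, y}
    · obtain ⟨φ, h4, h5, h6⟩ := ht2 x (hC hx) y (hC hy) hxy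
      refine ⟨φ, fun c hc => ?_, fun e he h0 => hcl e he ?_⟩
      · have := (mem_closure hv (hsub.trans hC) (hC hc)).1 (h3 hc)
        rw [image_pair, mem_span_pair] at this
        obtain ⟨s, t, hst⟩ := this
        rw [← hst, map_add, map_smul, map_smul, h4, h5, smul_zero, smul_zero, add_zero]
      · obtain ⟨s, t, hst⟩ := h6 e he.1.1 h0
        rw [← hst]
        exact add_mem (smul_mem _ _ (subset_span ⟨x, hx, rfl⟩)) (smul_mem _ _ (subset_span ⟨y, hy, rfl⟩))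
    · obtain ⟨z, hz, hz'⟩ := not_subset.1 h3
      have h1 : M.eRk (insert z {x, y}) ≤ M.eRk C := M.eRk_mono (insert_subset hz hsub)
      rw [M.eRk_insert_eq_add_one ⟨hC hz, hz'⟩, (hs x (hC hx) y (hC hy)).eRk_eq_encard,
        encard_pair hxy, eRk_eq hv hC] at h1
      have h2 : 2 + 1 ≤ finrank F (span F (v '' C)) := by exact_mod_cast h1
      obtain ⟨φ, hφ⟩ := exists_ker_eq (span F (v '' C)) k (by omega)
      exact ⟨φ, fun c hc => (hφ _).2 (subset_span ⟨c, hc, rfl⟩), fun e he h0 => hcl e he ((hφ _).1 h0)⟩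
  · rw [not_nontrivial_iff] at h
    by_cases h' : C.Nonempty
    · obtain ⟨x, hx⟩ := h'
      obtain ⟨φ, h1, h2⟩ := ht x (hC hx)
      exact ⟨φ, fun c hc => h hc hx ▸ h1, fun e he => h2 e he.1.1 (fun h => he.1.2 (h ▸ hx))⟩
    · obtain ⟨x, hx | hx⟩ := hne
      · exact absurd ⟨x, hx⟩ h'
      · obtain ⟨φ, -, h2⟩ := ht x (hD hx)
        exact ⟨φ, fun c hc => absurd ⟨c, hc⟩ h', fun e he => h2 e he.1.1 (fun h => he.2 (h ▸ hx))⟩

def dotL {n : ℕ} (a : Fin n → F) : (Fin n → F) →ₗ[F] F where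
  toFun x := a ⬝ᵥ x
  map_add' x y := dotProduct_add a x y
  map_smul' c x := dotProduct_smul c a x

theorem exists_of_dot {n : ℕ} (a : Fin n → F) :
    ∃ φ : (Fin n → F) →ₗ[F] (Fin 1 → F), ∀ x, φ x = 0 ↔ a ⬝ᵥ x = 0 := by
  refine ⟨LinearMap.pi (fun _ => dotL a), fun x => ⟨fun h => congrFun h 0, fun h => ?_⟩⟩
  funext i
  exact h

theorem rk_le_of_fun [Finite α] [Module.Finite F W]
    (hv : ∀ I ⊆ M.E, (M.Indep I ↔ LinearIndepOn F v I)) {X : Set α} (hX : X ⊆ M.E)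
    (f : W →ₗ[F] F) (hf : f ≠ 0) (h : ∀ e ∈ X, f (v e) = 0) : M.eRk X + 1 ≤ finrank F W := by
  rw [eRk_eq hv hX]
  have h1 : span F (v '' X) < ⊤ := by
    refine lt_of_le_of_lt (b := LinearMap.ker f) ?_ ?_
    · rw [span_le]
      rintro _ ⟨e, he, rfl⟩
      exact h e he
    · rw [lt_top_iff_ne_top, Ne, LinearMap.ker_eq_top]
      exact hf
  have h2 := Submodule.finrank_lt_finrank_of_lt h1
  rw [finrank_top] at h2
  exact_mod_cast h2

theorem flat_of_fun (hv : ∀ I ⊆ M.E, (M.Indep I ↔ LinearIndepOn F v I)) {W' : Type} [AddCommGroup W']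
    [Module F W'] (f : W →ₗ[F] W') : M.IsFlat {e | e ∈ M.E ∧ f (v e) = 0} := by
  have hX : {e | e ∈ M.E ∧ f (v e) = 0} ⊆ M.E := fun e he => he.1
  rw [Matroid.isFlat_iff_closure_eq]
  apply Subset.antisymm _ (M.subset_closure _ hX)
  intro e he
  have heE := M.closure_subset_ground _ he
  rw [mem_closure hv hX heE] at he
  refine ⟨heE, ?_⟩
  have : span F (v '' {e | e ∈ M.E ∧ f (v e) = 0}) ≤ LinearMap.ker f := by
    rw [span_le]
    rintro _ ⟨e, he, rfl⟩
    exact he.2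
  exact this he

end Pool.Agent.H12.Tang
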