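import Mathlib
import Pool.Agent.H12.Tang6

set_option autoImplicit false

namespace Pool.Agent.H12.Seven4

open scoped Classical Matroid
open Set Submodule Module Pool.Agent.H12.Tang

theorem fact7 : Fact (Nat.Prime 7) := ⟨by norm_num⟩

attribute [local instance] fact7

def el (c i : ℕ) : ZMod 7 := (Fin.ofNat 7 ((c >>> (3 * i)) % 8) : Fin 7)

def v (e : Fin 19) (i : Fin 4) : ZMod 7 := el 364825023557098609458918852363885291636261640182586665307711870111745 (4 * e.val + i.val)

def t (e : Fin 19) (i : Fin 4) : ZMod 7 := el 226798485917777518367191198744670287869097024047316931267557621438600 (4 * e.val + i.val)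

def cA : ℕ := 501938566182127229412445102831255135658451256259248427200246424499573900529337959778459789051054716736995276969531270888187564956148556492204588165623512069721752927510475978451914026797063688062949927671184129530489044148131582741772755871448909548919208407391594027155630028698343651557265599868640072395927050174049612131549675998025697301205115536127640038027655567619899960622423256938122975521532697553220613013809402012069828845298723899888525191254504054035856185570939583703311787588062084031468359385488701927172264824649026924627623710285852489757137438529885554196043016795699274770702709678995537365000844358546533724368496931148546189116576433314315197773161484329037236695429693106602632729802526322635319411023005382438160806680981022586384327338110839016772322771692727417282494102355700738284421422443961157291440311913343363791473307543787415791722983538930213682840238375163331705810431034451086280706173922602494004902124806925398376205521649794863020949016035333586144153588634410814744822348965579847499196040576555444526758944554705488742752232596216352610892462905092713524328452033159519231853025885892230100894497165398545601538623390300356270934263752873802248230053135478494296488486453305980635805744865072845804796019371942073376692381474231736193450022011716986208256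

def cG : ℕ := 6875865333983810915603322235113462913437651990551448679080370347337315513685567353550981718019223265864799588987076828753014326322850653079674539821206350348453734495591420097561776313933670844137906472886007078647259627972810869949903653825765607368586787990838173660677420749894223017479117795069458409610500473104719807496621914909441803011252408769344301752442766945369768208964682493273660225822341668168801664413512898939904808228409671116543843073560669488653145867658718580955326382354212907976763844605533234313858258404398164534650904189192228023886837268595601968079432833213299461001981924879501711143224352047081431473806578766329797601975144992768161454401072557396071335744609515870587637004851549539983193513181404628724656438008706276118291352590606698920094127858192330049939289737963965087374459289085784210225101240199584254400960327012352504163177673097411497310287242487185256640105953372860937108318656712909129523818767541886884705888021002144375627825836682499191371993222772455852256330333369538442839037385319135496765853213974609337705400228400340158192768417512116798256343902617752544087109998384092633340489279343895665622325783353631321779192282752304342306180983716041303052449652475485123432373956814938475227561818855106088605723781463131568827638408509158326272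

def cU : ℕ := 2275482872776686933758026859551475564601473141560756558473673502717412998466998711125166549302741604242978036963852741296976436346508443720548126497009737773683692162129130458438339122494153294532875769094258466694490256976414493844972395626296081397726363824171074282924678041751582066470822857037260988886619617729145238496263058616375985612896329207668689303161870608404698740482710921293022333524210498916168575685641504160641918102179664384585242515481582248902526852426609150054813770308736752606524722847414562550308711588000543782346184743715776120192975436190740927398341673853189966024069732893801601152520720220162454186566355425295218028963545170144649947214699944265728265772194858870516713356479976715787801241380442858779101915135415744295952948493315588074681032115992141574880200011105357202806492816932971035892004070519797996389337568708948346510809560675383850093178360949000339301348642941032885633107819538629470059082371848989570197645927402461518567957407114852737707956347823840967631312607398460979435607767570269342083898122095197222671362697251455621303296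

def A (x y : Fin 19) (i : Fin 4) : ZMod 7 := el cA (4 * (19 * x.val + y.val) + i.val)

def G (x y : Fin 19) (i : Fin 4) : ZMod 7 := el cG (4 * (19 * x.val + y.val) + i.val)

def P (x y : Fin 19) (i : ℕ) : Fin 19 := Fin.ofNat 19 ((cU >>> (5 * (2 * (19 * x.val + y.val) + i))) % 32)

def u (i : Fin 7) : Fin 19 := Fin.castLE (by norm_num) i

def d4 (a x : Fin 4 → ZMod 7) : ZMod 7 := a 0 * x 0 + a 1 * x 1 + a 2 * x 2 + a 3 * x 3

theorem d4_eq (a x : Fin 4 → ZMod 7) : a ⬝ᵥ x = d4 a x := by
  simp [dotProduct, Fin.sum_univ_four, d4]

theorem v_ne : ∀ e, v e ≠ 0 := by decide +kernel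

theorem v_tan : ∀ x e, d4 (t x) (v e) = 0 ↔ e = x := by decide +kernel

theorem v_A : ∀ x y, x ≠ y → d4 (A x y) (v x) = 0 ∧ d4 (A x y) (v y) = 0 ∧
    ∀ e, d4 (A x y) (v e) = 0 → ∃ s r : ZMod 7, s • v x + r • v y = v e := by decide +kernel

theorem v_G : ∀ x y, x ≠ y → G x y ≠ 0 ∧ P x y 0 ≠ P x y 1 ∧ d4 (G x y) (v x) = 0 ∧
    d4 (G x y) (v y) = 0 ∧ d4 (G x y) (v (P x y 0)) = 0 ∧ d4 (G x y) (v (P x y 1)) = 0 ∧
    ∀ h, d4 (A x y) (v h) = 0 → d4 (A (P x y 0) (P x y 1)) (v h) ≠ 0 := by decide +kernel

theorem v_diff : ∀ i j, i ≠ j → ∃ e, ∃ c : ZMod 7, c ≠ 0 ∧ v (u i) - v (u j) = c • v e := by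
  decide +kernel

theorem v_mod : ∀ x y, v x 0 ≠ 0 → v y 0 ≠ 0 → x ≠ y → ∃ h, v h 0 = 0 ∧
    ∃ s r : ZMod 7, s • v x + r • v y = v h := by decide +kernel

noncomputable def M : Matroid (Fin 19) := vecM (ZMod 7) univ v

theorem hv : ∀ I ⊆ M.E, (M.Indep I ↔ LinearIndepOn (ZMod 7) v I) := vecM_rep _

theorem mem_E (e : Fin 19) : e ∈ M.E := mem_univ e

theorem sub_E (X : Set (Fin 19)) : X ⊆ M.E := fun e _ => mem_E e

theorem d4_comb (a x y : Fin 4 → ZMod 7) (s r : ZMod 7) :
    d4 a (s • x + r • y) = s * d4 a x + r * d4 a y := by
  simp only [d4, Pi.add_apply, Pi.smul_apply, smul_eq_mul]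
  ring

theorem simple : Simple M := by
  refine simple_vecM _ (fun e _ => v_ne e) (fun e _ f _ c h => ?_)
  rw [← v_tan, h, ← d4_eq, dotProduct_smul, d4_eq, (v_tan f f).2 rfl, smul_zero]

theorem tangential : Tangential (ZMod 7) 1 M := by
  refine ⟨⟨4, v, hv⟩, simple, (critGt_iff hv 1).2 (block_of_points 1 (by simp) u (fun i => mem_E _)
    (fun i j hij => (v_diff i j hij).imp fun e h => ⟨mem_E e, h⟩)), ?_⟩
  intro N hN hs
  obtain ⟨C, D, hC, hD, hne, rfl⟩ := strict_minor_form hN
  refine (not_critGt_iff hv hC D 1).2 (minor_fun4 hv simple 1 (by simp) ?_ ?_ hC hD hne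
    (fun e he => by simpa using hs e he e he))
  · intro x _
    obtain ⟨φ, hφ⟩ := exists_of_dot (t x)
    simp only [d4_eq] at hφ
    exact ⟨φ, (hφ _).2 ((v_tan x x).2 rfl), fun e _ hex h0 => hex ((v_tan x e).1 ((hφ _).1 h0))⟩
  · intro x _ y _ hxy
    obtain ⟨φ, hφ⟩ := exists_of_dot (A x y)
    simp only [d4_eq] at hφ
    obtain ⟨h1, h2, h3⟩ := v_A x y hxy
    exact ⟨φ, (hφ _).2 h1, (hφ _).2 h2, fun e _ h => h3 e ((hφ _).1 h)⟩

def X : Set (Fin 19) := {e | e ∈ M.E ∧ (LinearMap.proj 0 : (Fin 4 → ZMod 7) →ₗ[ZMod 7] ZMod 7) (v e) = 0}

theorem modX : Modular M X := by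
  refine modular_of_pairs simple (flat_of_fun hv _) ?_
  intro x _ y _ hx hy hxy
  obtain ⟨h, h1, h2⟩ := v_mod x y (fun h => hx ⟨mem_E _, h⟩) (fun h => hy ⟨mem_E _, h⟩) hxy
  refine ⟨h, ⟨mem_E _, h1⟩, ?_⟩
  rw [mem_closure hv (sub_E _) (mem_E _), image_pair, mem_span_pair]
  exact h2

theorem rkX : 3 ≤ M.eRk X := by
  have h1 : (7 : Fin 19) ∉ M.closure {12, 8} := by
    rw [mem_closure hv (sub_E _) (mem_E _), image_pair, mem_span_pair]
    decide +kernel
  have h2 := M.eRk_insert_eq_add_one ⟨mem_E _, h1⟩
  rw [(simple _ (mem_E _) _ (mem_E _)).eRk_eq_encard, encard_pair (by decide)] at h2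
  refine le_trans (le_of_eq ?_) (M.eRk_mono (a := {7, 12, 8}) ?_)
  · rw [h2]
    rfl
  · rintro e (rfl | rfl | rfl) <;> exact ⟨mem_E _, by decide +kernel⟩

theorem rkE_le : M.eRk M.E ≤ 4 := by
  rw [eRk_eq hv (le_refl M.E)]
  have := Submodule.finrank_le (span (ZMod 7) (v '' M.E))
  simp only [Module.finrank_fintype_fun_eq_card, Fintype.card_fin] at this
  exact_mod_cast this

theorem rkX_le : M.eRk X + 1 ≤ M.eRk M.E := by
  have h1 : (0 : Fin 19) ∉ M.closure X := by
    rw [modX.1.closure]
    exact fun h => absurd h.2 (by decide +kernel)
  rw [← M.eRk_insert_eq_add_one ⟨mem_E _, h1⟩]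
  exact M.eRk_mono (sub_E _)

theorem rkXE : M.eRk X + 1 = M.eRk M.E :=
  le_antisymm rkX_le (rkE_le.trans (add_le_add_left rkX 1))

theorem cl_pair {a x y : _} {h : Fin 19} (hh : h ∈ M.closure {x, y}) (hx : d4 a (v x) = 0)
    (hy : d4 a (v y) = 0) : d4 a (v h) = 0 := by
  rw [mem_closure hv (sub_E _) (mem_E _), image_pair, mem_span_pair] at hh
  obtain ⟨s, r, h⟩ := hh
  rw [← h, d4_comb, hx, hy]
  simp

theorem not_ss : ¬ Supersolvable M := by
  rintro ⟨Fl, -, h⟩
  obtain ⟨h1, h2⟩ := h 2 (le_trans (by norm_num) ((add_le_add_left rkX 1).trans rkX_le))
  obtain ⟨I, hI⟩ := M.exists_isBasis (Fl 2) (sub_E _)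
  have h3 := hI.eRk_eq_encard
  rw [h2] at h3
  obtain ⟨x, y, hxy, rfl⟩ := encard_eq_two.1 h3.symm
  obtain ⟨g0, g1, g2, g3, g4, g5, g6⟩ := v_G x y hxy
  have h4 := h1.2 _ (M.isFlat_closure {P x y 0, P x y 1})
  rw [Matroid.eRk_closure_eq, (simple _ (mem_E _) _ (mem_E _)).eRk_eq_encard, encard_pair g1, h2] at h4
  have h5 : Fl 2 ∩ M.closure {P x y 0, P x y 1} = ∅ := by
    rw [eq_empty_iff_forall_notMem]
    rintro z ⟨hz, hz'⟩
    obtain ⟨a1, a2, -⟩ := v_A x y hxy
    obtain ⟨b1, b2, -⟩ := v_A _ _ g1
    exact g6 z (cl_pair (hI.subset_closure hz) a1 a2) (cl_pair hz' b1 b2)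
  have h6 := rk_le_of_fun hv (sub_E (Fl 2 ∪ M.closure {P x y 0, P x y 1})) (dotL (G x y))
    (by
      intro h
      apply g0
      funext i
      have := LinearMap.congr_fun h (Pi.single i 1)
      simpa [dotL] using this)
    (by
      rintro z (hz | hz)
      · exact (d4_eq _ _).trans (cl_pair (hI.subset_closure hz) g2 g3)
      · exact (d4_eq _ _).trans (cl_pair hz g4 g5))
  rw [h5, Matroid.eRk_empty, add_zero] at h4
  rw [← h4] at h6
  simp at h6
  norm_cast at h6

end Pool.Agent.H12.Seven4
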