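import Mathlib
import Pool.Agent.H12.Tang6

set_option autoImplicit false

namespace Pool.Agent.H12.Seven5

open scoped Classical Matroid
open Set Submodule Module Pool.Agent.H12.Tang

theorem fact7 : Fact (Nat.Prime 7) := ⟨by norm_num⟩

attribute [local instance] fact7

def el (c i : ℕ) : ZMod 7 := (Fin.ofNat 7 ((c >>> (3 * i)) % 8) : Fin 7)

def v (e : Fin 26) (i : Fin 5) : ZMod 7 := el 30169134779628613733190750242043727515163588980875931263778374741197709264990726980193474735987969142161223920680961 (5 * e.val + i.val)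

def t (e : Fin 26) (i : Fin 5) : ZMod 7 := el 793698029172120523563039766703375961949413124438162313136109857009577996019798005765673981441434889484145528497814664 (5 * e.val + i.val)

def u (i : Fin 7) : Fin 26 := Fin.castLE (by norm_num) i

def d5 (a x : Fin 5 → ZMod 7) : ZMod 7 :=
  a 0 * x 0 + a 1 * x 1 + a 2 * x 2 + a 3 * x 3 + a 4 * x 4

theorem d5_eq (a x : Fin 5 → ZMod 7) : a ⬝ᵥ x = d5 a x := by
  simp [dotProduct, Fin.sum_univ_five, d5]

theorem v_ne : ∀ e, v e ≠ 0 := by decide +kernel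

theorem v_tan : ∀ x e, d5 (t x) (v e) = 0 ↔ e = x := by decide +kernel

theorem v_diff : ∀ i j, i ≠ j → ∃ e, v e 0 = 0 ∧ ∃ c : ZMod 7, c ≠ 0 ∧ v (u i) - v (u j) = c • v e := by
  decide +kernel

theorem v_u : ∀ x, v x 0 ≠ 0 → ∃ i, x = u i := by decide +kernel

theorem v_Y : ∀ a b c : ZMod 7, ∃ e, ¬ (v e 0 = 0 ∧ v e 1 = 0 ∧ v e 2 = 0) ∧
    a * v e 0 + b * v e 1 + c * v e 2 = 0 := by decide +kernel

theorem v_e : v 15 = Pi.single 1 1 ∧ v 10 = Pi.single 2 1 ∧ v 8 = Pi.single 3 1 ∧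
    v 7 = Pi.single 4 1 ∧ v 0 = Pi.single 0 1 := by decide +kernel

noncomputable def M : Matroid (Fin 26) := vecM (ZMod 7) univ v

theorem hv : ∀ I ⊆ M.E, (M.Indep I ↔ LinearIndepOn (ZMod 7) v I) := vecM_rep _

theorem mem_E (e : Fin 26) : e ∈ M.E := mem_univ e

theorem sub_E (X : Set (Fin 26)) : X ⊆ M.E := fun e _ => mem_E e

theorem simple : Simple M := by
  refine simple_vecM _ (fun e _ => v_ne e) (fun e _ f _ c h => ?_)
  rw [← v_tan, h, ← d5_eq, dotProduct_smul, d5_eq, (v_tan f f).2 rfl, smul_zero]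

theorem block (j : ℕ) (hj : j ≤ 1) : chi M ((Fintype.card (ZMod 7) : ℤ) ^ j) = 0 :=
  le_antisymm ((critGt_iff hv 1).2 (block_of_points 1 (by simp) u (fun _ => mem_E _)
    (fun i j hij => (v_diff i j hij).imp fun e h => ⟨mem_E e, h.2⟩)) j hj) (chi_nonneg hv j)

theorem minimal (x : Fin 26) : chi (M ＼ {x}) ((Fintype.card (ZMod 7) : ℤ) ^ 1) ≠ 0 := by
  have h := (chi_pos_iff hv (empty_subset _) {x} 1).2 (by
    obtain ⟨φ, hφ⟩ := exists_of_dot (t x)
    simp only [d5_eq] at hφ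
    exact ⟨φ, by simp, fun e he h0 => he.2 ((v_tan x e).1 ((hφ _).1 h0))⟩)
  rw [Matroid.contract_empty] at h
  exact h.ne'

theorem step {I : Set (Fin 26)} {e : Fin 26} (i : Fin 5) (h : ∀ x ∈ I, v x i = 0) (he : v e i ≠ 0) :
    M.eRk (insert e I) = M.eRk I + 1 := by
  refine M.eRk_insert_eq_add_one ⟨mem_E _, fun h1 => he ?_⟩
  have h2 := flat_of_fun hv (LinearMap.proj i : (Fin 5 → ZMod 7) →ₗ[ZMod 7] ZMod 7)
  have h3 : I ⊆ {e | e ∈ M.E ∧ (LinearMap.proj i : (Fin 5 → ZMod 7) →ₗ[ZMod 7] ZMod 7) (v e) = 0} :=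
    fun x hx => ⟨mem_E x, h x hx⟩
  have h4 := M.closure_subset_closure h3 h1
  rw [h2.closure] at h4
  exact h4.2

def X : Set (Fin 26) := {e | e ∈ M.E ∧ (LinearMap.proj 0 : (Fin 5 → ZMod 7) →ₗ[ZMod 7] ZMod 7) (v e) = 0}

theorem flatX : M.IsFlat X := flat_of_fun hv _

theorem rkX : 4 ≤ M.eRk X := by
  have h2 : M.eRk {8, 7} = 2 := by
    rw [(simple _ (mem_E _) _ (mem_E _)).eRk_eq_encard, encard_pair (by decide)]
  have h3 := step (I := {8, 7}) (e := 10) 2 (by rintro e (rfl | rfl) <;> decide +kernel)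
    (by decide +kernel)
  have h4 := step (I := {10, 8, 7}) (e := 15) 1 (by rintro e (rfl | rfl | rfl) <;> decide +kernel)
    (by decide +kernel)
  refine le_trans (le_of_eq ?_) (M.eRk_mono (a := {15, 10, 8, 7}) ?_)
  · rw [h4, h3, h2]
    rfl
  · rintro e (rfl | rfl | rfl | rfl) <;> exact ⟨mem_E _, by decide +kernel⟩

theorem rkE_le : M.eRk M.E ≤ 5 := by
  rw [eRk_eq hv (le_refl M.E)]
  have := Submodule.finrank_le (span (ZMod 7) (v '' M.E))
  simp only [Module.finrank_fintype_fun_eq_card, Fintype.card_fin] at this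
  exact_mod_cast this

theorem rkX_le : M.eRk X + 1 ≤ M.eRk M.E := by
  rw [← step (e := 0) 0 (fun x hx => hx.2) (by decide +kernel)]
  exact M.eRk_mono (sub_E _)

theorem rkE : M.eRk M.E = (5 : ℕ) := le_antisymm rkE_le ((add_le_add_left rkX 1).trans rkX_le)

theorem rkX1 : M.eRk X + 1 = (5 : ℕ) := le_antisymm (rkX_le.trans rkE_le) (add_le_add_left rkX 1)

theorem meets (L : Set (Fin 26)) (hL : M.IsFlat L) (hr : M.eRk L = 2) : (L ∩ X).Nonempty := by
  obtain ⟨I, hI⟩ := M.exists_isBasis L (sub_E _)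
  have h3 := hI.eRk_eq_encard
  rw [hr] at h3
  obtain ⟨x, y, hxy, rfl⟩ := encard_eq_two.1 h3.symm
  by_cases hx : v x 0 = 0
  · exact ⟨x, hI.subset (by simp), mem_E _, hx⟩
  by_cases hy : v y 0 = 0
  · exact ⟨y, hI.subset (by simp), mem_E _, hy⟩
  obtain ⟨i, rfl⟩ := v_u x hx
  obtain ⟨j, rfl⟩ := v_u y hy
  obtain ⟨e, h1, c, hc, h2⟩ := v_diff i j (fun h => hxy (by rw [h]))
  refine ⟨e, ?_, mem_E _, h1⟩
  rw [← hL.closure, ← hI.closure_eq_closure, mem_closure hv (sub_E _) (mem_E _), image_pair,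
    mem_span_pair]
  refine ⟨c⁻¹, -c⁻¹, ?_⟩
  rw [neg_smul, ← sub_eq_add_neg, ← smul_sub, h2, smul_smul, inv_mul_cancel₀ hc, one_smul]

def Y : Set (Fin 26) := M.closure {8, 7}

theorem rkY : M.eRk Y + (1 : ℕ) ≤ (5 : ℕ) := by
  rw [Y, M.eRk_closure_eq, (simple _ (mem_E _) _ (mem_E _)).eRk_eq_encard, encard_pair (by decide)]
  norm_cast

theorem memY1 : (8 : Fin 26) ∈ Y := M.subset_closure _ (sub_E _) (by simp)

theorem memY2 : (7 : Fin 26) ∈ Y := M.subset_closure _ (sub_E _) (by simp)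

theorem no_tangent (U : Submodule (ZMod 7) (Fin 5 → ZMod 7)) (hU : finrank (ZMod 7) U + 1 = 5)
    (h : ∀ e ∈ M.E, (v e ∈ U ↔ e ∈ Y)) : False := by
  obtain ⟨φ, hφ⟩ := exists_ker_eq U 1 (by simp; omega)
  let f : (Fin 5 → ZMod 7) →ₗ[ZMod 7] ZMod 7 := (LinearMap.proj 0).comp φ
  have h3 : f (Pi.single 3 1) = 0 := by
    rw [← v_e.2.2.1]
    exact congrFun ((hφ _).2 ((h _ (mem_E _)).2 memY1)) 0
  have h4 : f (Pi.single 4 1) = 0 := by
    rw [← v_e.2.2.2.1]
    exact congrFun ((hφ _).2 ((h _ (mem_E _)).2 memY2)) 0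
  obtain ⟨e, h1, h2⟩ := v_Y (f (Pi.single 0 1)) (f (Pi.single 1 1)) (f (Pi.single 2 1))
  have h5 : v e = v e 0 • Pi.single 0 1 + v e 1 • Pi.single 1 1 + v e 2 • Pi.single 2 1 +
      v e 3 • Pi.single 3 1 + v e 4 • Pi.single 4 1 := by
    funext i
    fin_cases i <;> simp
  have h6 : f (v e) = 0 := by
    rw [h5]
    simp only [map_add, map_smul, smul_eq_mul, h3, h4]
    linear_combination h2
  have h7 : φ (v e) = 0 := by
    funext i
    rw [Subsingleton.elim i 0]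
    exact h6
  have h8 := (h e (mem_E e)).1 ((hφ _).1 h7)
  rw [Y, mem_closure hv (sub_E _) (mem_E _), image_pair, mem_span_pair, v_e.2.2.1, v_e.2.2.2.1] at h8
  obtain ⟨s, r, h8⟩ := h8
  apply h1
  rw [← h8]
  simp

end Pool.Agent.H12.Seven5
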