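import Mathlib

set_option autoImplicit false

namespace Pool.Agent.H12.Sig

open scoped Classical
open Finset

variable {V : Type} [Fintype V]

structure Setup (G : SimpleGraph V) where
  ord : V → ℕ
  ρ : V
  p : V → V
  inj : Function.Injective ord
  adj : ∀ k, k ≠ ρ → G.Adj (p k) k
  lt : ∀ k, k ≠ ρ → ord (p k) < ord k
  min : ∀ k j, G.Adj j k → ord (p k) ≤ ord j
  root : ∀ k, ord ρ ≤ ord k

variable {G : SimpleGraph V} (S : Setup G)

namespace Setup

def A (u j : V) : Prop := Relation.ReflTransGen (fun a b => a ≠ S.ρ ∧ b = S.p a) u j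

def E (j k : V) : Prop := G.Adj j k ∧ j ≠ S.p k ∧ S.ord j < S.ord k

noncomputable def σ (j : V) : ℝ := (4 * (Fintype.card V : ℝ) + 1) ^ S.ord j

noncomputable def R (j : V) : ℝ := 2 * (Fintype.card V : ℝ) * S.σ j

noncomputable def a (k : V) : ℝ :=
  S.R k - (∑ k', if S.E k k' then S.σ k else 0) - ∑ j, if S.E j k then S.σ j else 0

noncomputable def X (u : V) : V ⊕ V × V → ℝ
  | .inl j => if S.A u j then S.a j else 0
  | .inr e => if S.E e.1 e.2 ∧ (S.A u e.1 ∨ S.A u e.2) then S.σ e.1 else 0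

noncomputable def d (u v : V) : ℝ := ∑ i, |S.X u i - S.X v i|

noncomputable def T (k l : V) : ℝ := ∑ j, if S.E j k ∧ S.A l j then S.σ j else 0

noncomputable def F (k l : V) : ℝ := S.d (S.p k) l - 2 * S.T k l

omit [Fintype V] in
theorem A_le {u j : V} (h : S.A u j) : S.ord j ≤ S.ord u := by
  induction h with
  | refl => exact le_rfl
  | tail _ h ih => exact (h.2 ▸ S.lt _ h.1).le.trans ih

omit [Fintype V] in
theorem A_iff {k : V} (hk : k ≠ S.ρ) (j : V) : S.A k j ↔ j = k ∨ S.A (S.p k) j := by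
  unfold A
  rw [Relation.ReflTransGen.cases_head_iff]
  constructor
  · rintro (h | ⟨c, ⟨-, rfl⟩, h⟩)
    exacts [Or.inl h.symm, Or.inr h]
  · rintro (h | h)
    exacts [Or.inl h.symm, Or.inr ⟨_, ⟨hk, rfl⟩, h⟩]

omit [Fintype V] in
theorem E_lt {j k : V} (h : S.E j k) : S.ord (S.p k) < S.ord j :=
  lt_of_le_of_ne (S.min k j h.1) (fun h' => h.2.1 (S.inj h').symm)

omit [Fintype V] in
theorem ne_root {k l : V} (h : S.ord l < S.ord k) : k ≠ S.ρ := by
  rintro rfl
  exact absurd (S.root l) (by omega)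

theorem σ_pos (j : V) : 0 < S.σ j := by
  unfold σ
  positivity

theorem σ_mono {j k : V} (h : S.ord j ≤ S.ord k) : S.σ j ≤ S.σ k :=
  pow_le_pow_right₀ (by have : (0 : ℝ) ≤ Fintype.card V := Nat.cast_nonneg _; linarith) h

theorem σ_lt {j k : V} (h : S.ord j < S.ord k) : (4 * (Fintype.card V : ℝ) + 1) * S.σ j ≤ S.σ k := by
  unfold σ
  rw [← pow_succ']
  exact pow_le_pow_right₀ (by have : (0 : ℝ) ≤ Fintype.card V := Nat.cast_nonneg _; linarith) h

theorem sum_le (P : V → Prop) (f : V → ℝ) (c : ℝ) (hc : 0 ≤ c) (h : ∀ j, P j → f j ≤ c) :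
    (∑ j, if P j then f j else 0) ≤ Fintype.card V * c := by
  have := Finset.sum_le_card_nsmul univ (fun j => if P j then f j else 0) c (fun j _ => by
    split_ifs with hj
    exacts [h j hj, hc])
  simpa using this

theorem a_nonneg (k : V) : 0 ≤ S.a k := by
  have h1 := sum_le (fun k' => S.E k k') (fun _ => S.σ k) _ (S.σ_pos k).le (fun _ _ => le_rfl)
  have h2 := sum_le (fun j => S.E j k) S.σ _ (S.σ_pos k).le (fun j hj => S.σ_mono hj.2.2.le)
  unfold a R
  linarith

theorem d_comm (u v : V) : S.d u v = S.d v u := sum_congr rfl fun _ _ => abs_sub_comm _ _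

theorem d_self (u : V) : S.d u u = 0 := by simp [d]

theorem d_nonneg (u v : V) : 0 ≤ S.d u v := sum_nonneg fun _ _ => abs_nonneg _

theorem d_tri (u v w : V) : S.d u w ≤ S.d u v + S.d v w := by
  unfold d
  rw [← sum_add_distrib]
  exact sum_le_sum fun _ _ => abs_sub_le _ _ _

theorem T_nonneg (k l : V) : 0 ≤ S.T k l :=
  sum_nonneg fun j _ => by split_ifs; exacts [(S.σ_pos j).le, le_rfl]

theorem recur {k l : V} (h : S.ord l < S.ord k) : S.d k l = S.R k + S.F k l := by
  have hk := S.ne_root h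
  have hlk : ¬ S.A l k := fun h' => absurd (S.A_le h') (by omega)
  have hpk : ¬ S.A (S.p k) k := fun h' => absurd (S.A_le h') (by have := S.lt k hk; omega)
  have h1 : ∀ j, |S.X k (.inl j) - S.X l (.inl j)| =
      |S.X (S.p k) (.inl j) - S.X l (.inl j)| + if j = k then S.a k else 0 := by
    intro j
    simp only [X]
    by_cases hj : j = k
    · subst hj
      simp [hlk, hpk, S.A_iff hk, abs_of_nonneg (S.a_nonneg j)]
    · simp [S.A_iff hk, hj]
  have h2 : ∀ j k', |S.X k (.inr (j, k')) - S.X l (.inr (j, k'))| =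
      |S.X (S.p k) (.inr (j, k')) - S.X l (.inr (j, k'))| +
        (if j = k then (if S.E k k' then S.σ k else 0) else 0) +
        (if k' = k then ((if S.E j k then S.σ j else 0) -
          2 * if S.E j k ∧ S.A l j then S.σ j else 0) else 0) := by
    intro j k'
    simp only [X]
    by_cases hE : S.E j k'
    · by_cases hj : j = k
      · subst hj
        have h3 : k' ≠ j := fun h' => absurd hE.2.2 (by rw [h']; omega)
        have h4 : ¬ S.A l k' := fun h' => absurd (S.A_le h') (by have := hE.2.2; omega)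
        have h5 : ¬ S.A (S.p j) k' := fun h' => absurd (S.A_le h') (by
          have := hE.2.2; have := S.lt j hk; omega)
        simp [hE, hlk, hpk, h3, h4, h5, S.A_iff hk, abs_of_pos (S.σ_pos j)]
      · by_cases hk' : k' = k
        · subst hk'
          have h5 : ¬ S.A (S.p k') j := fun h' => absurd (S.A_le h') (by have := S.E_lt hE; omega)
          by_cases h6 : S.A l j
          · simp [hE, hlk, hpk, hj, h5, h6, S.A_iff hk, abs_of_pos (S.σ_pos j)]
            ring
          · simp [hE, hlk, hpk, hj, h5, h6, S.A_iff hk, abs_of_pos (S.σ_pos j)]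
        · simp [hj, hk', S.A_iff hk]
    · by_cases hj : j = k
      · subst hj
        by_cases hk' : k' = j
        · subst hk'
          simp [hE]
        · simp [hE, hk']
      · by_cases hk' : k' = k
        · subst hk'
          simp [hE, hj]
        · simp [hE, hj, hk']
  unfold F d T
  simp only [Fintype.sum_sum_type, Fintype.sum_prod_type, h1, h2, sum_add_distrib, sum_ite_eq',
    mem_univ, if_true, sum_sub_distrib, ← mul_sum]
  rw [sum_comm (f := fun j k' => if j = k then (if S.E k k' then S.σ k else 0) else 0)]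
  simp only [sum_ite_eq', mem_univ, if_true, a]
  ring

theorem T_zero {k l : V} (h : ¬ ∃ j, S.E j k ∧ S.A l j) : S.T k l = 0 :=
  sum_eq_zero fun j _ => if_neg (fun h' => h ⟨j, h'⟩)

theorem F_nonneg (n : ℕ) : ∀ k l : V, S.ord k = n → S.ord l < S.ord k → 0 ≤ S.F k l := by
  induction n using Nat.strong_induction_on with
  | _ n ih =>
    intro k l hn h
    by_cases h1 : ∃ j, S.E j k ∧ S.A l j
    · obtain ⟨j, h2, h3⟩ := h1
      have h4 : S.ord (S.p k) < S.ord l := (S.E_lt h2).trans_le (S.A_le h3)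
      have h5 := ih _ (hn ▸ h) l (S.p k) rfl h4
      have h6 : S.T k l ≤ Fintype.card V * S.σ l := by
        unfold T
        convert sum_le (fun j => S.E j k ∧ S.A l j) S.σ _ (S.σ_pos l).le
          (fun j hj => S.σ_mono (S.A_le hj.2))
      unfold F
      rw [S.d_comm, S.recur h4]
      unfold R
      linarith
    · unfold F
      rw [S.T_zero h1, mul_zero, sub_zero]
      exact S.d_nonneg _ _

theorem R_pos [Nonempty V] (k : V) : 0 < S.R k := by
  have : (0 : ℝ) < Fintype.card V := by exact_mod_cast Fintype.card_pos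
  have := S.σ_pos k
  unfold R
  positivity

theorem R_mono {j k : V} (h : S.ord j ≤ S.ord k) : S.R j ≤ S.R k :=
  mul_le_mul_of_nonneg_left (S.σ_mono h) (by positivity)

theorem R_le {k l : V} (h : S.ord l < S.ord k) : S.R k ≤ S.d k l := by
  rw [S.recur h]
  linarith [S.F_nonneg _ k l rfl h]

theorem F_par (k : V) : S.F k (S.p k) = 0 := by
  unfold F
  rw [S.d_self, S.T_zero, mul_zero, sub_zero]
  rintro ⟨j, h1, h2⟩
  exact absurd (S.A_le h2) (by have := S.E_lt h1; omega)

theorem d_root (n : ℕ) : ∀ k : V, S.ord k = n → S.d k S.ρ ≤ 2 * S.R k := by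
  induction n using Nat.strong_induction_on with
  | _ n ih =>
    intro k hn
    have : Nonempty V := ⟨k⟩
    by_cases hk : k = S.ρ
    · rw [hk, S.d_self]
      linarith [S.R_pos S.ρ]
    · have h1 := S.lt k hk
      have h2 := ih _ (hn ▸ h1) (S.p k) rfl
      have h3 := S.σ_lt h1
      have h4 : (1 : ℝ) ≤ Fintype.card V := by exact_mod_cast Fintype.card_pos
      have h5 := S.σ_pos (S.p k)
      have h6 := S.T_nonneg k S.ρ
      have h7 : 2 * S.R (S.p k) ≤ S.R k := by
        unfold R
        have : 2 * S.σ (S.p k) ≤ S.σ k := by nlinarith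
        nlinarith
      rw [S.recur ((S.root _).trans_lt h1)]
      unfold F
      linarith

theorem F_lt {k l : V} (h : S.E l k) : S.F k l < S.R l := by
  have h1 := S.E_lt h
  have h2 := S.lt l (S.ne_root h1)
  have h3 : S.σ l ≤ S.T k l := by
    have := single_le_sum (f := fun j => if S.E j k ∧ S.A l j then S.σ j else 0) (s := univ)
      (fun j _ => by split_ifs; exacts [(S.σ_pos j).le, le_rfl]) (mem_univ l)
    rwa [if_pos ⟨h, Relation.ReflTransGen.refl⟩] at this
  have h4 := S.d_tri (S.p l) S.ρ (S.p k)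
  have h5 := S.d_root _ (S.p l) rfl
  have h6 := S.d_root _ (S.p k) rfl
  rw [S.d_comm] at h6
  have h7 := S.σ_lt h1
  have h8 := S.σ_lt h2
  have h9 := S.T_nonneg l (S.p k)
  have := S.σ_pos (S.p k)
  have := S.σ_pos (S.p l)
  unfold F
  rw [S.d_comm, S.recur h1]
  unfold F
  unfold R at h5 h6
  linarith

theorem F_ge {k l : V} (h : S.ord l < S.ord k) (hn : ¬ G.Adj l k) (h1 : ∃ j, S.E j k ∧ S.A l j) :
    l ≠ S.ρ ∧ S.R l ≤ S.F k l := by
  obtain ⟨j, h2, h3⟩ := h1
  have h4 : S.ord (S.p k) < S.ord l := (S.E_lt h2).trans_le (S.A_le h3)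
  have hl := S.ne_root h4
  have key : ∀ j, S.E j k → (S.A l j ↔ S.A (S.p l) j) := by
    intro j hj
    rw [S.A_iff hl]
    exact or_iff_right (fun h => hn (h ▸ hj.1))
  have h5 : S.ord (S.p k) < S.ord (S.p l) := (S.E_lt h2).trans_le (S.A_le ((key j h2).1 h3))
  have h6 : S.T l (S.p k) = 0 := by
    apply S.T_zero
    rintro ⟨i, h6, h7⟩
    have := S.E_lt h6
    have := S.A_le h7
    omega
  have h7 : S.T k l = S.T k (S.p l) :=
    sum_congr rfl fun j _ => if_congr (and_congr_right (key j)) rfl rfl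
  have h8 := S.F_nonneg _ k (S.p l) rfl ((S.lt l hl).trans h)
  refine ⟨hl, ?_⟩
  unfold F at h8 ⊢
  rw [S.d_comm, S.recur h4]
  unfold F
  rw [h6, h7, S.d_comm]
  linarith

theorem main [Nontrivial V] : ∃ r : V → ℝ, (∀ i, 0 < r i) ∧
    (∀ i, IsLeast {x | ∃ j, j ≠ i ∧ x = S.d i j} (r i)) ∧
    ∀ i j, i ≠ j → (G.Adj i j ↔ S.d i j < r i + r j) := by
  obtain ⟨c, hc, hc'⟩ := exists_min_image (univ.filter (· ≠ S.ρ)) S.ord
    (by obtain ⟨x, hx⟩ := exists_ne S.ρ; exact ⟨x, by simpa using hx⟩)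
  simp only [mem_filter, mem_univ, true_and] at hc hc'
  have hpc : S.p c = S.ρ := by
    by_contra h
    exact absurd (hc' _ h) (by have := S.lt c hc; omega)
  have hpar : ∀ k, k ≠ S.ρ → S.d k (S.p k) = S.R k := fun k hk => by
    rw [S.recur (S.lt k hk), S.F_par, add_zero]
  have hlow : ∀ i j, j ≠ i → (if i = S.ρ then S.R c else S.R i) ≤ S.d i j := by
    intro i j hji
    rcases lt_or_gt_of_ne (fun h => hji (S.inj h)) with h | h
    · rw [if_neg (S.ne_root h)]
      exact S.R_le h
    · rw [S.d_comm]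
      refine le_trans ?_ (S.R_le h)
      split_ifs
      exacts [S.R_mono (hc' j (S.ne_root h)), S.R_mono h.le]
  have hsig : ∀ k l, S.ord l < S.ord k → (G.Adj l k ↔ S.F k l < if l = S.ρ then S.R c else S.R l) := by
    intro k l h
    constructor
    · intro ha
      by_cases h1 : l = S.p k
      · rw [h1, S.F_par]
        split_ifs <;> exact S.R_pos _
      · have h2 : S.E l k := ⟨ha, h1, h⟩
        rw [if_neg (S.ne_root (S.E_lt h2))]
        exact S.F_lt h2
    · intro hlt
      by_contra hn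
      by_cases h1 : ∃ j, S.E j k ∧ S.A l j
      · obtain ⟨h2, h3⟩ := S.F_ge h hn h1
        rw [if_neg h2] at hlt
        linarith
      · have h2 := hlow l (S.p k) (fun h' => hn (h' ▸ S.adj k (S.ne_root h)))
        unfold F at hlt
        rw [S.T_zero h1, S.d_comm] at hlt
        linarith
  refine ⟨fun i => if i = S.ρ then S.R c else S.R i, fun i => ?_, fun i => ⟨?_, ?_⟩, ?_⟩
  · beta_reduce
    split_ifs <;> exact S.R_pos _
  · by_cases hi : i = S.ρ
    · refine ⟨c, hi ▸ hc, ?_⟩
      simp only [if_pos hi]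
      rw [hi, ← hpc, S.d_comm, hpar c hc]
    · exact ⟨S.p i, (S.adj i hi).ne, by simp only [if_neg hi]; rw [hpar i hi]⟩
  · rintro _ ⟨j, hj, rfl⟩
    exact hlow i j hj
  · intro i j hij
    rcases lt_or_gt_of_ne (fun h => hij (S.inj h)) with h | h
    · rw [hsig j i h, S.d_comm, S.recur h]
      simp only [if_neg (S.ne_root h)]
      constructor <;> intro h <;> linarith
    · rw [G.adj_comm, hsig i j h, S.recur h]
      simp only [if_neg (S.ne_root h)]
      constructor <;> intro h <;> linarith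

end Setup

theorem exists_setup {n : ℕ} (G : SimpleGraph (Fin n)) (hn : 2 ≤ n) (hG : G.Connected) :
    Nonempty (Setup G) := by
  let ρ : Fin n := ⟨0, by omega⟩
  let ord : Fin n → ℕ := fun v => G.dist ρ v * n + v.val
  have hnb : ∀ k, k ≠ ρ → ∃ j, G.Adj j k ∧ ord j < ord k := by
    intro k hk
    obtain ⟨w, hw⟩ := hG.exists_walk_length_eq_dist k ρ
    cases w with
    | nil => exact absurd rfl hk
    | @cons _ j _ h w =>
      refine ⟨j, h.symm, ?_⟩
      have h1 := SimpleGraph.dist_le w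
      rw [SimpleGraph.Walk.length_cons] at hw
      simp only [ord]
      rw [SimpleGraph.dist_comm (u := ρ) (v := j), SimpleGraph.dist_comm (u := ρ) (v := k)]
      have h2 : (G.dist j ρ + 1) * n ≤ G.dist k ρ * n := Nat.mul_le_mul_right _ (by omega)
      have := j.2
      nlinarith
  have hp : ∀ k, ∃ q, (k ≠ ρ → G.Adj q k ∧ ord q < ord k) ∧ ∀ j, G.Adj j k → ord q ≤ ord j := by
    intro k
    by_cases hk : k = ρ
    · exact ⟨ρ, fun h => absurd hk h, fun j _ => by simp [ord, ρ]⟩
    · obtain ⟨j, h1, h2⟩ := hnb k hk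
      obtain ⟨q, h3, h4⟩ := exists_min_image (univ.filter (fun j => G.Adj j k)) ord
        ⟨j, by simpa using h1⟩
      simp only [mem_filter, mem_univ, true_and] at h3 h4
      exact ⟨q, fun _ => ⟨h3, (h4 j h1).trans_lt h2⟩, h4⟩
  choose p hp using hp
  refine ⟨⟨ord, ρ, p, ?_, fun k hk => ((hp k).1 hk).1, fun k hk => ((hp k).1 hk).2,
    fun k => (hp k).2, fun k => by simp [ord, ρ]⟩⟩
  intro u v h
  have h1 := congrArg (· % n) h
  simp only [ord, Nat.mul_add_mod_self_right, Nat.mod_eq_of_lt u.2, Nat.mod_eq_of_lt v.2] at h1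
  exact Fin.ext h1

end Pool.Agent.H12.Sig
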