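import Mathlib

set_option autoImplicit false

namespace Pool.Agent.H12.Sts

open Finset

/-- Steiner quasigroup -/
structure IsSQ {V : Type} (op : V → V → V) : Prop where
  comm : ∀ x y, op x y = op y x
  idem : ∀ x, op x x = x
  canc : ∀ x y, op x (op x y) = y

lemma IsSQ.ne_left {V : Type} {op : V → V → V} (h : IsSQ op) {x y : V} (hxy : x ≠ y) :
    op x y ≠ x := by
  intro e
  have := h.canc x y
  rw [e, h.idem] at this
  exact hxy this

lemma IsSQ.ne_right {V : Type} {op : V → V → V} (h : IsSQ op) {x y : V} (hxy : x ≠ y) :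
    op x y ≠ y := by
  rw [h.comm]; exact h.ne_left hxy.symm

/-- blocks of a Steiner quasigroup -/
theorem blocks {V : Type} [Fintype V] [DecidableEq V] (op : V → V → V) (h : IsSQ op) :
    ∃ B : Finset (Finset V), (∀ b ∈ B, b.card = 3) ∧
      (∀ x y : V, x ≠ y → ∃! b, b ∈ B ∧ x ∈ b ∧ y ∈ b) ∧
      ∀ σ : Equiv.Perm V, (∀ x y, σ (op x y) = op (σ x) (σ y)) → ∀ b ∈ B, b.image σ ∈ B := by
  refine ⟨(univ.filter (fun p : V × V => p.1 ≠ p.2)).image (fun p => {p.1, p.2, op p.1 p.2}),
    ?_, ?_, ?_⟩
  · intro b hb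
    obtain ⟨⟨x, y⟩, hp, rfl⟩ := mem_image.mp hb
    have hxy : x ≠ y := (mem_filter.mp hp).2
    exact Finset.card_eq_three.mpr ⟨x, y, op x y, hxy, (h.ne_left hxy).symm, (h.ne_right hxy).symm, rfl⟩
  · intro x y hxy
    refine ⟨{x, y, op x y}, ⟨mem_image.mpr ⟨(x, y), mem_filter.mpr ⟨mem_univ _, hxy⟩, rfl⟩,
      by simp, by simp⟩, ?_⟩
    rintro b ⟨hb, hx, hy⟩
    obtain ⟨⟨u, v⟩, -, rfl⟩ := mem_image.mp hb
    have c1 : op u (op u v) = v := h.canc u v
    have c2 : op v (op u v) = u := by rw [h.comm u v]; exact h.canc v u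
    have c3 : op (op u v) u = v := by rw [h.comm]; exact c1
    have c4 : op (op u v) v = u := by rw [h.comm]; exact c2
    have c5 : op v u = op u v := h.comm v u
    simp only [mem_insert, mem_singleton] at hx hy
    rcases hx with rfl | rfl | rfl <;> rcases hy with rfl | rfl | rfl
    · exact absurd rfl hxy
    · rfl
    · rw [c1]; ext z; simp only [mem_insert, mem_singleton]; tauto
    · rw [c5]; ext z; simp only [mem_insert, mem_singleton]; tauto
    · exact absurd rfl hxy
    · rw [c2]; ext z; simp only [mem_insert, mem_singleton]; tauto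
    · rw [c3]; ext z; simp only [mem_insert, mem_singleton]; tauto
    · rw [c4]; ext z; simp only [mem_insert, mem_singleton]; tauto
    · exact absurd rfl hxy
  · intro σ hσ b hb
    obtain ⟨⟨x, y⟩, hp, rfl⟩ := mem_image.mp hb
    have hxy : x ≠ y := (mem_filter.mp hp).2
    refine mem_image.mpr ⟨(σ x, σ y), mem_filter.mpr ⟨mem_univ _, σ.injective.ne hxy⟩, ?_⟩
    simp [Finset.image_insert, hσ]

/-- Bose's operation -/
def bose (m : ℕ) (p q : ZMod (2 * m + 1) × ZMod 3) : ZMod (2 * m + 1) × ZMod 3 :=
  if p.1 = q.1 then (p.1, -p.2 - q.2)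
  else if p.2 = q.2 then ((p.1 + q.1) * ((m : ZMod (2 * m + 1)) + 1), p.2 + 1)
  else if q.2 = p.2 + 1 then (2 * q.1 - p.1, p.2)
  else (2 * p.1 - q.1, q.2)

lemma bose_sq (m : ℕ) : IsSQ (bose m) := by
  have hh : (2 : ZMod (2 * m + 1)) * ((m : ZMod (2 * m + 1)) + 1) = 1 := by
    have : ((2 * m + 1 : ℕ) : ZMod (2 * m + 1)) = 0 := ZMod.natCast_self _
    push_cast at this
    linear_combination this
  have z3 : ∀ a b : ZMod 3, a ≠ b → b ≠ a + 1 → a = b + 1 := by decide
  have z4 : ∀ a b : ZMod 3, b = a + 1 → a ≠ b + 1 := by decide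
  have z5 : ∀ a : ZMod 3, a ≠ a + 1 := by decide
  have z6 : ∀ a : ZMod 3, -a - a = a := by decide
  refine ⟨?_, ?_, ?_⟩
  · rintro ⟨x, a⟩ ⟨y, b⟩
    unfold bose
    by_cases h1 : x = y
    · subst h1; simp only [if_true]; congr 1; ring
    · have h1' : ¬ y = x := fun h => h1 h.symm
      simp only [h1, h1', if_false]
      by_cases h2 : a = b
      · subst h2; simp only [if_true]; congr 1; ring
      · have h2' : ¬ b = a := fun h => h2 h.symm
        simp only [h2, h2', if_false]
        by_cases h3 : b = a + 1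
        · rw [if_pos h3, if_neg (z4 a b h3)]
        · rw [if_neg h3, if_pos (z3 a b h2 h3)]
  · rintro ⟨x, a⟩
    simp [bose, z6]
  · rintro ⟨x, a⟩ ⟨y, b⟩
    by_cases h1 : x = y
    · subst h1; simp [bose]
    · by_cases h2 : a = b
      · subst h2
        have e : bose m (x, a) (y, a) = ((x + y) * ((m : ZMod (2 * m + 1)) + 1), a + 1) := by
          simp [bose, h1]
        have n1 : ¬ x = (x + y) * ((m : ZMod (2 * m + 1)) + 1) := by
          intro h; apply h1; linear_combination 2 * h + (x + y) * hh
        rw [e]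
        unfold bose
        simp only [n1, z5 a, if_false, if_true]
        congr 1
        linear_combination (x + y) * hh
      · by_cases h3 : b = a + 1
        · have e : bose m (x, a) (y, b) = (2 * y - x, a) := by
            simp only [bose, h1, h2, if_false, if_pos h3]
          have n1 : ¬ x = 2 * y - x := by
            intro h; apply h1
            linear_combination ((m : ZMod (2 * m + 1)) + 1) * h - (x - y) * hh
          rw [e]
          unfold bose
          simp only [n1, if_false, if_true]
          rw [h3]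
          congr 1
          linear_combination y * hh
        · have e : bose m (x, a) (y, b) = (2 * x - y, b) := by
            simp only [bose, h1, h2, if_false, if_neg h3]
          have n1 : ¬ x = 2 * x - y := by
            intro h; apply h1; linear_combination -h
          rw [e]
          unfold bose
          simp only [n1, h2, h3, if_false]
          congr 1
          ring

theorem exists_sq (Y : Type) [Fintype Y] (h : Fintype.card Y % 6 = 3) :
    ∃ op : Y → Y → Y, IsSQ op := by
  obtain ⟨m, hm⟩ : ∃ m, Fintype.card Y = (2 * m + 1) * 3 := ⟨Fintype.card Y / 6, by omega⟩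
  have e : Y ≃ ZMod (2 * m + 1) × ZMod 3 := Fintype.equivOfCardEq (by simp [hm, ZMod.card])
  have hb := bose_sq m
  refine ⟨fun x y => e.symm (bose m (e x) (e y)), ?_, ?_, ?_⟩
  · intro x y; rw [hb.comm]
  · intro x; rw [hb.idem]; simp
  · intro x y; simp [hb.canc]

end Pool.Agent.H12.Sts
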