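import Pool.Agent.H12.Sts1

set_option autoImplicit false

namespace Pool.Agent.H12.Sts

open Finset

structure Data (Γ M : Type) [Group Γ] [AddCommGroup M] where
  t : Γ
  R : Γ → Prop
  ι : Γ → M
  ρ : M → Γ
  n : M → ℕ
  h2 : ∀ a : M, a + a = 0
  ninj : Function.Injective n
  ρι : ∀ g, ρ (ι g) = g
  ι0 : ∀ g, ι g ≠ 0
  t1 : t ≠ 1
  t3 : t * t = t⁻¹
  Rt : ∀ r, R r → r ≠ t
  Rt' : ∀ r, R r → r ≠ t⁻¹
  Rsq : ∀ r, R r → r * r ≠ t
  Rinv : ∀ r, R r → ¬ R r⁻¹
  Rtot : ∀ g, g * g ≠ 1 → g ≠ t → g ≠ t⁻¹ → R g ∨ R g⁻¹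

variable {Γ M : Type} [Group Γ] [AddCommGroup M] (D : Data Γ M)

namespace Data

def s (i d : M) : Prop := D.n i < D.n (i + d)

include D in
lemma add_add (i d : M) : i + d + d = i := by rw [add_assoc, D.h2, add_zero]

include D in
lemma add_add' (i d : M) : i + (i + d) = d := by rw [← add_assoc, D.h2, zero_add]

include D in
lemma add_add'' (i d : M) : i + d + i = d := by rw [add_comm, D.add_add']

lemma s_zero (i : M) : ¬ D.s i 0 := by simp [s]

lemma s_flip (i d : M) (hd : d ≠ 0) : D.s (i + d) d ↔ ¬ D.s i d := by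
  unfold s
  rw [D.add_add]
  have : D.n i ≠ D.n (i + d) := fun h => hd (by simpa using D.ninj h)
  omega

lemma R1 (r : Γ) (h : D.R r) : r ≠ 1 := by
  intro e; subst e; exact D.Rinv 1 h (by simpa using h)

lemma Rii (r : Γ) (h : D.R r) : r⁻¹ ≠ r := by
  intro e; exact D.Rinv r h (by rw [e]; exact h)

lemma tt : D.t⁻¹ ≠ D.t := by
  intro e
  apply D.t1
  have := D.t3
  rw [e] at this
  simpa using this

open Classical in
noncomputable def a (i d : M) : Γ := if D.s i d then 1 else D.t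

open Classical in
noncomputable def key (w w' : Γ × M) : M × Γ :=
  (w.2 + w'.2, if D.s w.2 (w.2 + w'.2) then w.1⁻¹ * w'.1 else w'.1⁻¹ * w.1)

open Classical in
noncomputable def μ (p : M × Γ) (w : Γ × M) : Γ × M :=
  (w.1 * (if D.s w.2 p.1 then p.2 else p.2⁻¹), w.2 + p.1)

open Classical in
noncomputable def third (w w' : Γ × M) : Γ × M :=
  if w.2 = w'.2 then
    if w'.1 = w.1 * D.t then (w.1 * D.t⁻¹, w.2)
    else if w'.1 = w.1 * D.t⁻¹ then (w.1 * D.t, w.2)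
    else if D.R (w.1⁻¹ * w'.1) then
      (w.1 * D.a w.2 (D.ι (w.1⁻¹ * w'.1)), w.2 + D.ι (w.1⁻¹ * w'.1))
    else (w'.1 * D.a w.2 (D.ι (w'.1⁻¹ * w.1)), w.2 + D.ι (w'.1⁻¹ * w.1))
  else
    if w'.1 = w.1 * D.a w.2 (w.2 + w'.2) then (w.1 * D.ρ (w.2 + w'.2), w.2)
    else if w'.1 = w.1 * ((D.ρ (w.2 + w'.2))⁻¹ * D.a w.2 (w.2 + w'.2)) then
      (w.1 * (D.ρ (w.2 + w'.2))⁻¹, w.2)
    else if w.1 = w'.1 * D.a w'.2 (w.2 + w'.2) then (w'.1 * D.ρ (w.2 + w'.2), w'.2)
    else (w'.1 * (D.ρ (w.2 + w'.2))⁻¹, w'.2)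

def bad (p : M × Γ) : Prop :=
  p = (0, 1) ∨ p = (0, D.t) ∨ p = (0, D.t⁻¹) ∨ ∃ r, D.R r ∧ (p = (0, r) ∨ p = (0, r⁻¹) ∨
    p = (D.ι r, 1) ∨ p = (D.ι r, r⁻¹) ∨ p = (D.ι r, D.t⁻¹) ∨ p = (D.ι r, D.t⁻¹ * r))

lemma μ_key (w w' : Γ × M) : D.μ (D.key w w') w = w' := by
  unfold μ key
  apply Prod.ext
  · by_cases h : D.s w.2 (w.2 + w'.2) <;> simp [h]
  · simp [D.add_add']

lemma key_μ (p : M × Γ) (w : Γ × M) : D.key w (D.μ p w) = p := by
  unfold μ key
  apply Prod.ext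
  · simp [D.add_add']
  · by_cases h : D.s w.2 p.1 <;> simp [h, D.add_add']

lemma good_zero (g : Γ) (h : ¬ D.bad (0, g)) : g⁻¹ = g := by
  by_contra hc
  have h1 : g * g ≠ 1 := fun e => hc (inv_eq_of_mul_eq_one_right e)
  have h2 : g ≠ D.t := fun e => h (Or.inr (Or.inl (by rw [e])))
  have h3 : g ≠ D.t⁻¹ := fun e => h (Or.inr (Or.inr (Or.inl (by rw [e]))))
  rcases D.Rtot g h1 h2 h3 with hr | hr
  · exact h (Or.inr (Or.inr (Or.inr ⟨g, hr, Or.inl rfl⟩)))
  · exact h (Or.inr (Or.inr (Or.inr ⟨g⁻¹, hr, Or.inr (Or.inl (by simp))⟩)))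

lemma μ_μ (p : M × Γ) (hp : ¬ D.bad p) (w : Γ × M) : D.μ p (D.μ p w) = w := by
  obtain ⟨d, g⟩ := p
  unfold μ
  apply Prod.ext
  · by_cases hd : d = 0
    · subst hd
      have := D.good_zero g hp
      simp only [D.s_zero, if_false]
      rw [mul_assoc]
      nth_rewrite 1 [this]
      simp
    · have := D.s_flip w.2 d hd
      by_cases h : D.s w.2 d
      · have h' : ¬ D.s (w.2 + d) d := fun hh => this.mp hh h
        simp [h, h']
      · have h' : D.s (w.2 + d) d := this.mpr h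
        simp [h, h']
  · simp [D.add_add]

lemma μ_ne (p : M × Γ) (hp : ¬ D.bad p) (w : Γ × M) : w ≠ D.μ p w := by
  intro e
  have h := D.key_μ p w
  rw [← e] at h
  apply hp
  left
  rw [← h]
  unfold key
  simp [D.h2]

def E (u v w : Γ × M) : Prop := u ≠ v ∧ D.bad (D.key u v) ∧ D.third u v = w

def Tri (u v w : Γ × M) : Prop :=
  D.E u v w ∧ D.E v u w ∧ D.E u w v ∧ D.E w u v ∧ D.E v w u ∧ D.E w v u

lemma E_t (x : Γ) (i : M) : D.E (x, i) (x * D.t, i) (x * D.t⁻¹, i) := by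
  refine ⟨?_, ?_, ?_⟩
  · simp [D.t1]
  · unfold key bad
    simp [D.h2, D.s_zero]
  · unfold third
    simp

lemma E_t' (x : Γ) (i : M) : D.E (x, i) (x * D.t⁻¹, i) (x * D.t, i) := by
  refine ⟨?_, ?_, ?_⟩
  · simp [D.t1]
  · unfold key bad
    simp [D.h2, D.s_zero]
  · unfold third
    simp [D.tt]

lemma tri_t (x : Γ) (i : M) : D.Tri (x, i) (x * D.t, i) (x * D.t⁻¹, i) := by
  have e1 : x * D.t * D.t = x * D.t⁻¹ := by rw [mul_assoc, D.t3]
  have e2 : x * D.t⁻¹ * D.t⁻¹ = x * D.t := by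
    rw [mul_assoc, ← mul_inv_rev, D.t3, inv_inv]
  refine ⟨D.E_t x i, ?_, D.E_t' x i, ?_, ?_, ?_⟩
  · have := D.E_t' (x * D.t) i
    rw [e1] at this
    simpa using this
  · have := D.E_t (x * D.t⁻¹) i
    rw [e2] at this
    simpa using this
  · have := D.E_t (x * D.t) i
    rw [e1] at this
    simpa using this
  · have := D.E_t' (x * D.t⁻¹) i
    rw [e2] at this
    simpa using this

lemma tri_r (r : Γ) (hr : D.R r) (x : Γ) (i : M) :
    D.Tri (x, i) (x * r, i) (x * D.a i (D.ι r), i + D.ι r) := by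
  have h1 := D.R1 r hr
  have ht := D.Rt r hr
  have ht' := D.Rt' r hr
  have hsq := D.Rsq r hr
  have hinv := D.Rinv r hr
  have hii := D.Rii r hr
  have h0 := D.ι0 r
  have hf := D.s_flip i (D.ι r) h0
  have t1 := D.t1
  have n1 : ¬ i = i + D.ι r := by simpa using h0
  have n2 : ¬ i + D.ι r = i := by simpa using h0
  have k1 := D.add_add' i (D.ι r)
  have k2 := D.add_add'' i (D.ι r)
  have q1 : ¬ x = x * r * D.t := by
    intro e; apply ht'
    rw [mul_assoc] at e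
    exact eq_inv_of_mul_eq_one_left (by simpa using e)
  have q2 : ¬ x = x * r * D.t⁻¹ := by
    intro e; apply ht
    rw [mul_assoc] at e
    have : r * D.t⁻¹ = 1 := by simpa using e
    exact mul_inv_eq_one.mp this
  refine ⟨⟨by simp [h1], ?_, ?_⟩, ⟨by simp [h1], ?_, ?_⟩, ⟨by simp [h0], ?_, ?_⟩,
    ⟨by simp [h0], ?_, ?_⟩, ⟨by simp [h0], ?_, ?_⟩, ⟨by simp [h0], ?_, ?_⟩⟩
  · unfold key bad
    refine Or.inr (Or.inr (Or.inr ⟨r, hr, ?_⟩))
    simp [D.h2, D.s_zero]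
  · unfold third
    simp [ht, ht', hr]
  · unfold key bad
    refine Or.inr (Or.inr (Or.inr ⟨r, hr, ?_⟩))
    simp [D.h2, D.s_zero]
  · unfold third
    simp [q1, q2, hinv]
  · unfold key bad
    refine Or.inr (Or.inr (Or.inr ⟨r, hr, ?_⟩))
    by_cases h : D.s i (D.ι r) <;> simp [k1, h, a]
  · unfold third
    simp [n1, k1, D.ρι]
  · unfold key bad
    refine Or.inr (Or.inr (Or.inr ⟨r, hr, ?_⟩))
    by_cases h : D.s i (D.ι r) <;> simp [k2, h, a, hf]
  · unfold third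
    by_cases h : D.s i (D.ι r)
    · have z1 : ¬ r⁻¹ * D.t = 1 := fun e => ht (inv_mul_eq_one.mp e)
      simp [n2, k2, D.ρι, h, a, hf, t1, z1]
    · have z1 : ¬ x = x * D.t * r⁻¹ := by
        intro e; apply ht
        rw [mul_assoc] at e
        have : D.t * r⁻¹ = 1 := by simpa using e
        exact (mul_inv_eq_one.mp this).symm
      simp [n2, k2, D.ρι, h, a, hf, t1, z1]
  · unfold key bad
    refine Or.inr (Or.inr (Or.inr ⟨r, hr, ?_⟩))
    by_cases h : D.s i (D.ι r) <;> simp [k1, h, a]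
  · unfold third
    by_cases h : D.s i (D.ι r)
    · simp [n1, k1, D.ρι, h, a, h1]
    · simp [n1, k1, D.ρι, h, a, h1]
  · unfold key bad
    refine Or.inr (Or.inr (Or.inr ⟨r, hr, ?_⟩))
    by_cases h : D.s i (D.ι r) <;> simp [k2, h, a, hf]
  · unfold third
    by_cases h : D.s i (D.ι r)
    · have z : ¬ r = r⁻¹ * D.t := fun e => hsq (by rw [eq_inv_mul_iff_mul_eq] at e; exact e)
      simp [n2, k2, D.ρι, h, a, hf, h1, ht, z]
    · have z : ¬ x * r = x * D.t * r⁻¹ := by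
        intro e; apply hsq
        rw [eq_mul_inv_iff_mul_eq, mul_assoc] at e
        exact mul_left_cancel e
      simp [n2, k2, D.ρι, h, a, hf, h1, ht, z]

lemma cover (w w' : Γ × M) (hne : w ≠ w') (hb : D.bad (D.key w w')) :
    ∃ u, D.E w w' u ∧ D.E w' w u ∧ D.E w u w' := by
  have hw := D.μ_key w w'
  generalize D.key w w' = p at hb hw
  obtain ⟨x, i⟩ := w
  subst hw
  rcases hb with rfl | rfl | rfl | ⟨r, hr, rfl | rfl | rfl | rfl | rfl | rfl⟩
  · exact absurd (by simp [μ]) hne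
  · obtain ⟨a1, a2, a3, a4, a5, a6⟩ := D.tri_t x i
    have e : D.μ (0, D.t) (x, i) = (x * D.t⁻¹, i) := by simp [μ, D.s_zero]
    rw [e]; exact ⟨_, a3, a4, a1⟩
  · obtain ⟨a1, a2, a3, a4, a5, a6⟩ := D.tri_t x i
    have e : D.μ (0, D.t⁻¹) (x, i) = (x * D.t, i) := by simp [μ, D.s_zero]
    rw [e]; exact ⟨_, a1, a2, a3⟩
  · obtain ⟨a1, a2, a3, a4, a5, a6⟩ := D.tri_r r hr (x * r⁻¹) i
    have e : D.μ (0, r) (x, i) = (x * r⁻¹, i) := by simp [μ, D.s_zero]
    rw [inv_mul_cancel_right] at a1 a2 a5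
    rw [e]; exact ⟨_, a2, a1, a5⟩
  · obtain ⟨a1, a2, a3, a4, a5, a6⟩ := D.tri_r r hr x i
    have e : D.μ (0, r⁻¹) (x, i) = (x * r, i) := by simp [μ, D.s_zero]
    rw [e]; exact ⟨_, a1, a2, a3⟩
  · have hf := D.s_flip i (D.ι r) (D.ι0 r)
    have e : D.μ (D.ι r, 1) (x, i) = (x, i + D.ι r) := by simp [μ]
    rw [e]
    by_cases h : D.s i (D.ι r)
    · obtain ⟨a1, a2, a3, a4, a5, a6⟩ := D.tri_r r hr x i
      simp only [a, h, if_true, mul_one] at a1 a3 a4
      exact ⟨_, a3, a4, a1⟩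
    · obtain ⟨a1, a2, a3, a4, a5, a6⟩ := D.tri_r r hr x (i + D.ι r)
      simp only [a, hf.mpr h, if_true, mul_one, D.add_add] at a3 a4 a6
      exact ⟨_, a4, a3, a6⟩
  · have hf := D.s_flip i (D.ι r) (D.ι0 r)
    by_cases h : D.s i (D.ι r)
    · have e : D.μ (D.ι r, r⁻¹) (x, i) = (x * r⁻¹, i + D.ι r) := by simp [μ, h]
      obtain ⟨a1, a2, a3, a4, a5, a6⟩ := D.tri_r r hr (x * r⁻¹) i
      simp only [a, h, if_true, mul_one, inv_mul_cancel_right] at a2 a5 a6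
      rw [e]; exact ⟨_, a5, a6, a2⟩
    · have e : D.μ (D.ι r, r⁻¹) (x, i) = (x * r, i + D.ι r) := by simp [μ, h]
      obtain ⟨a1, a2, a3, a4, a5, a6⟩ := D.tri_r r hr x (i + D.ι r)
      simp only [a, hf.mpr h, if_true, mul_one, D.add_add] at a4 a5 a6
      rw [e]; exact ⟨_, a6, a5, a4⟩
  · have hf := D.s_flip i (D.ι r) (D.ι0 r)
    by_cases h : D.s i (D.ι r)
    · have e : D.μ (D.ι r, D.t⁻¹) (x, i) = (x * D.t⁻¹, i + D.ι r) := by simp [μ, h]
      have h' : ¬ D.s (i + D.ι r) (D.ι r) := fun hh => hf.mp hh h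
      obtain ⟨a1, a2, a3, a4, a5, a6⟩ := D.tri_r r hr (x * D.t⁻¹) (i + D.ι r)
      simp only [a, h', if_false, inv_mul_cancel_right, D.add_add] at a3 a4 a6
      rw [e]; exact ⟨_, a4, a3, a6⟩
    · have e : D.μ (D.ι r, D.t⁻¹) (x, i) = (x * D.t, i + D.ι r) := by simp [μ, h]
      obtain ⟨a1, a2, a3, a4, a5, a6⟩ := D.tri_r r hr x i
      simp only [a, h, if_false] at a1 a3 a4
      rw [e]; exact ⟨_, a3, a4, a1⟩
  · have hf := D.s_flip i (D.ι r) (D.ι0 r)
    by_cases h : D.s i (D.ι r)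
    · have e : D.μ (D.ι r, D.t⁻¹ * r) (x, i) = (x * D.t⁻¹ * r, i + D.ι r) := by
        simp [μ, h, mul_assoc]
      have h' : ¬ D.s (i + D.ι r) (D.ι r) := fun hh => hf.mp hh h
      obtain ⟨a1, a2, a3, a4, a5, a6⟩ := D.tri_r r hr (x * D.t⁻¹) (i + D.ι r)
      simp only [a, h', if_false, inv_mul_cancel_right, D.add_add] at a4 a5 a6
      rw [e]; exact ⟨_, a6, a5, a4⟩
    · have e : D.μ (D.ι r, D.t⁻¹ * r) (x, i) = (x * r⁻¹ * D.t, i + D.ι r) := by
        simp [μ, h, mul_assoc]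
      obtain ⟨a1, a2, a3, a4, a5, a6⟩ := D.tri_r r hr (x * r⁻¹) i
      simp only [a, h, if_false, inv_mul_cancel_right] at a2 a5 a6
      rw [e]; exact ⟨_, a5, a6, a2⟩

/-- the fixed points -/
def Y : Type := {p : M × Γ // ¬ D.bad p}

open Classical in
noncomputable def op (o : D.Y → D.Y → D.Y) : D.Y ⊕ (Γ × M) → D.Y ⊕ (Γ × M) → D.Y ⊕ (Γ × M)
  | Sum.inl y, Sum.inl y' => Sum.inl (o y y')
  | Sum.inl y, Sum.inr w => Sum.inr (D.μ y.1 w)
  | Sum.inr w, Sum.inl y => Sum.inr (D.μ y.1 w)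
  | Sum.inr w, Sum.inr w' => if w = w' then Sum.inr w else
      if h : D.bad (D.key w w') then Sum.inr (D.third w w') else Sum.inl ⟨D.key w w', h⟩

lemma op_E (o : D.Y → D.Y → D.Y) (u v w : Γ × M) (h : D.E u v w) :
    D.op o (Sum.inr u) (Sum.inr v) = Sum.inr w := by
  obtain ⟨h1, h2, h3⟩ := h
  simp only [op, if_neg h1, dif_pos h2, h3]

lemma op_μ (o : D.Y → D.Y → D.Y) (y : D.Y) (w : Γ × M) :
    D.op o (Sum.inr w) (Sum.inr (D.μ y.1 w)) = Sum.inl y := by
  have h1 := D.μ_ne y.1 y.2 w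
  have h2 : ¬ D.bad (D.key w (D.μ y.1 w)) := by rw [D.key_μ]; exact y.2
  simp only [op, if_neg h1, dif_neg h2]
  congr 1
  exact Subtype.ext (D.key_μ _ _)

theorem op_sq (o : D.Y → D.Y → D.Y) (ho : IsSQ o) : IsSQ (D.op o) := by
  have main : ∀ w w' : Γ × M, D.op o (Sum.inr w) (Sum.inr w') = D.op o (Sum.inr w') (Sum.inr w) ∧
      D.op o (Sum.inr w) (D.op o (Sum.inr w) (Sum.inr w')) = Sum.inr w' := by
    intro w w'
    by_cases hne : w = w'
    · subst hne; simp [op]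
    · by_cases hb : D.bad (D.key w w')
      · obtain ⟨u, a1, a2, a3⟩ := D.cover w w' hne hb
        rw [D.op_E o _ _ _ a1, D.op_E o _ _ _ a2, D.op_E o _ _ _ a3]
        exact ⟨rfl, rfl⟩
      · have e1 := D.op_μ o ⟨_, hb⟩ w
        have e2 := D.op_μ o ⟨_, hb⟩ (D.μ (D.key w w') w)
        simp only [D.μ_key] at e1 e2
        have e3 : D.μ (D.key w w') w' = w := by
          have := D.μ_μ _ hb w
          rwa [D.μ_key] at this
        rw [e3] at e2
        rw [e1, e2]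
        refine ⟨rfl, ?_⟩
        simp only [op, D.μ_key]
  refine ⟨?_, ?_, ?_⟩
  · rintro (y | w) (y' | w')
    · simp only [op, ho.comm y y']
    · rfl
    · rfl
    · exact (main w w').1
  · rintro (y | w)
    · simp only [op, ho.idem]
    · simp [op]
  · rintro (y | w) (y' | w')
    · simp only [op, ho.canc]
    · simp only [op, D.μ_μ _ y.2]
    · exact D.op_μ o y' w
    · exact (main w w').2

/-- left multiplication -/
def act (g : Γ) : Equiv.Perm (D.Y ⊕ (Γ × M)) :=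
  Equiv.sumCongr (Equiv.refl _) (Equiv.prodCongr (Equiv.mulLeft g) (Equiv.refl _))

lemma act_inl (g : Γ) (y : D.Y) : D.act g (Sum.inl y) = Sum.inl y := rfl

lemma act_inr (g : Γ) (w : Γ × M) : D.act g (Sum.inr w) = Sum.inr (g * w.1, w.2) := rfl

lemma key_act (g : Γ) (w w' : Γ × M) : D.key (g * w.1, w.2) (g * w'.1, w'.2) = D.key w w' := by
  simp [key, mul_assoc]

lemma third_act (g : Γ) (w w' : Γ × M) :
    D.third (g * w.1, w.2) (g * w'.1, w'.2) = (g * (D.third w w').1, (D.third w w').2) := by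
  have c : ∀ a b z : Γ, (g * a = g * b * z) = (a = b * z) := by
    intro a b z; rw [mul_assoc, mul_right_inj]
  have d : ∀ a b : Γ, (g * a)⁻¹ * (g * b) = a⁻¹ * b := by intro a b; group
  unfold third
  dsimp only
  rw [c, c, c, c, c, d, d]
  split_ifs <;> simp only [mul_assoc]

lemma act_op (o : D.Y → D.Y → D.Y) (g : Γ) (u v : D.Y ⊕ (Γ × M)) :
    D.act g (D.op o u v) = D.op o (D.act g u) (D.act g v) := by
  rcases u with y | w <;> rcases v with y' | w'
  · rfl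
  · simp [op, act_inl, act_inr, μ, mul_assoc]
  · simp [op, act_inl, act_inr, μ, mul_assoc]
  · rw [act_inr, act_inr]
    by_cases hne : w = w'
    · subst hne; simp [op, act_inr]
    · have hne' : ¬ (g * w.1, w.2) = (g * w'.1, w'.2) := by
        intro e; apply hne
        simp only [Prod.mk.injEq, mul_right_inj] at e
        exact Prod.ext e.1 e.2
      by_cases hb : D.bad (D.key w w')
      · have hb' : D.bad (D.key (g * w.1, w.2) (g * w'.1, w'.2)) := by rw [key_act]; exact hb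
        simp only [op, if_neg hne, if_neg hne', dif_pos hb, dif_pos hb', act_inr, third_act]
      · have hb' : ¬ D.bad (D.key (g * w.1, w.2) (g * w'.1, w'.2)) := by rw [key_act]; exact hb
        simp only [op, if_neg hne, if_neg hne', dif_neg hb, dif_neg hb', act_inl]
        congr 1
        exact Subtype.ext (D.key_act g w w').symm

def actHom : Γ →* Equiv.Perm (D.Y ⊕ (Γ × M)) where
  toFun := D.act
  map_one' := by
    ext u
    rcases u with y | w
    · rfl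
    · simp [act_inr]
  map_mul' g h := by
    ext u
    rcases u with y | w
    · rfl
    · simp [act_inr, mul_assoc]

lemma actHom_inj : Function.Injective D.actHom := by
  intro g h e
  have := congrArg (fun σ : Equiv.Perm (D.Y ⊕ (Γ × M)) => σ (Sum.inr (1, 0))) e
  simpa [actHom, act_inr] using this

end Data

end Pool.Agent.H12.Sts
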