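import Pool.Agent.H12.Sts2

set_option autoImplicit false

namespace Pool.Agent.H12.Sts

open Finset

variable {Γ M : Type} [Group Γ] [AddCommGroup M] (D : Data Γ M)

namespace Data

def β : Fin 3 ⊕ ({r // D.R r} × Fin 6) → M × Γ
  | Sum.inl k => ![(0, 1), (0, D.t), (0, D.t⁻¹)] k
  | Sum.inr (r, k) => ![(0, r.1), (0, r.1⁻¹), (D.ι r.1, 1), (D.ι r.1, r.1⁻¹), (D.ι r.1, D.t⁻¹),
      (D.ι r.1, D.t⁻¹ * r.1)] k

lemma bad_iff (p : M × Γ) : D.bad p ↔ p ∈ Set.range D.β := by
  constructor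
  · rintro (rfl | rfl | rfl | ⟨r, hr, rfl | rfl | rfl | rfl | rfl | rfl⟩)
    · exact ⟨Sum.inl 0, rfl⟩
    · exact ⟨Sum.inl 1, rfl⟩
    · exact ⟨Sum.inl 2, rfl⟩
    · exact ⟨Sum.inr (⟨r, hr⟩, 0), rfl⟩
    · exact ⟨Sum.inr (⟨r, hr⟩, 1), rfl⟩
    · exact ⟨Sum.inr (⟨r, hr⟩, 2), rfl⟩
    · exact ⟨Sum.inr (⟨r, hr⟩, 3), rfl⟩
    · exact ⟨Sum.inr (⟨r, hr⟩, 4), rfl⟩
    · exact ⟨Sum.inr (⟨r, hr⟩, 5), rfl⟩
  · rintro ⟨k | ⟨⟨r, hr⟩, k⟩, rfl⟩
    · fin_cases k
      · exact Or.inl rfl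
      · exact Or.inr (Or.inl rfl)
      · exact Or.inr (Or.inr (Or.inl rfl))
    · refine Or.inr (Or.inr (Or.inr ⟨r, hr, ?_⟩))
      fin_cases k <;> simp [β]

lemma β_inj : Function.Injective D.β := by
  have t1 := D.t1
  have tt := D.tt
  have ιinj : Function.Injective D.ι := Function.LeftInverse.injective D.ρι
  have mix : ∀ (k : Fin 3) (r : {r // D.R r}) (l : Fin 6),
      D.β (Sum.inl k) ≠ D.β (Sum.inr (r, l)) := by
    rintro k ⟨r, hr⟩ l
    have h1 := (D.R1 r hr).symm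
    have ht := (D.Rt r hr).symm
    have ht' := (D.Rt' r hr).symm
    have h0 := (D.ι0 r).symm
    have h1' := D.R1 r hr
    have z : D.t ≠ r⁻¹ := fun e => ht' (by rw [e, inv_inv])
    fin_cases k <;> fin_cases l <;> simp [β, h1, ht, ht', h0, h1', z]
  rintro (k | ⟨r, k⟩) (l | ⟨r', l⟩) h
  · have tt' := tt.symm
    have t1' := t1.symm
    fin_cases k <;> fin_cases l <;> simp_all [β]
  · exact absurd h (mix _ _ _)
  · exact absurd h.symm (mix _ _ _)
  · obtain ⟨r, hr⟩ := r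
    obtain ⟨r', hr'⟩ := r'
    by_cases e : r = r'
    · subst e
      have h1 := D.R1 r hr
      have ht := D.Rt r hr
      have h0 := D.ι0 r
      have hii := D.Rii r hr
      have z1 : ¬ (1 : Γ) = D.t⁻¹ * r := fun e => ht (inv_mul_eq_one.mp e.symm).symm
      have z2 : ¬ r⁻¹ = D.t⁻¹ * r := by
        intro e; apply D.Rsq r hr
        rw [eq_inv_mul_iff_mul_eq, mul_inv_eq_iff_eq_mul] at e
        exact e.symm
      have a1 := h1.symm
      have a2 := ht.symm
      have a3 := h0.symm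
      have a4 := hii.symm
      have a5 := Ne.symm z1
      have a6 := Ne.symm z2
      have a7 := t1.symm
      fin_cases k <;> fin_cases l <;>
        first
        | rfl
        | (exfalso; simp [β, h1, ht, h0, hii, z1, z2, a1, a2, a3, a4, a5, a6, a7, t1] at h)
    · exfalso
      have h0 := D.ι0 r
      have h0' := (D.ι0 r').symm
      have z0 : ¬ D.ι r = D.ι r' := fun hh => e (ιinj hh)
      have z1 : ¬ r = r'⁻¹ := fun hh => D.Rinv r' hr' (hh ▸ hr)
      have z2 : ¬ r⁻¹ = r' := fun hh => D.Rinv r hr (hh ▸ hr')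
      fin_cases k <;> fin_cases l <;> simp [β, h0, h0', z0, z1, z2, e] at h

lemma card_Y [Fintype Γ] [Fintype M] :
    Nat.card D.Y + (3 + Nat.card {r // D.R r} * 6) = Fintype.card M * Fintype.card Γ := by
  classical
  have h1 : Nat.card {p : M × Γ // D.bad p} = 3 + Nat.card {r // D.R r} * 6 := by
    rw [Nat.card_congr (Equiv.subtypeEquivRight D.bad_iff),
      ← Nat.card_congr (Equiv.ofInjective _ D.β_inj)]
    simp
  have h2 : Nat.card D.Y = Fintype.card {p : M × Γ // ¬ D.bad p} :=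
    Nat.card_eq_fintype_card (α := {p : M × Γ // ¬ D.bad p})
  rw [← h1, h2, Nat.card_eq_fintype_card, Fintype.card_subtype_compl, Fintype.card_prod]
  have := Fintype.card_subtype_le (fun p : M × Γ => D.bad p)
  rw [Fintype.card_prod] at this
  omega

end Data

theorem exists_data (Γ M : Type) [Group Γ] [AddCommGroup M] [Fintype Γ] [Fintype M] (t : Γ)
    (t1 : t ≠ 1) (t3 : t * t = t⁻¹) (h2 : ∀ a : M, a + a = 0)
    (hc : Fintype.card Γ < Fintype.card M) : Nonempty (Data Γ M) := by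
  classical
  obtain ⟨e⟩ : Nonempty (Γ ↪ {d : M // ¬ d = 0}) := by
    apply Function.Embedding.nonempty_of_card_le
    rw [Fintype.card_subtype_compl, Fintype.card_subtype_eq]
    omega
  have ιinj : Function.Injective (fun g => (e g).1) :=
    fun g h hh => e.injective (Subtype.ext hh)
  let ν : Γ → ℕ := fun g => (Fintype.equivFin Γ g : ℕ)
  have νinj : Function.Injective ν :=
    fun g h hh => (Fintype.equivFin Γ).injective (Fin.ext hh)
  have tt : t⁻¹ ≠ t := by
    intro e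
    apply t1
    rw [e] at t3
    simpa using t3
  have both : ∀ g : Γ, g * g = t → g⁻¹ * g⁻¹ ≠ t := by
    intro g h1 h3
    apply tt
    rw [← h1, mul_inv_rev, h3, h1]
  refine ⟨{
    t := t
    R := fun g => g * g ≠ 1 ∧ g ≠ t ∧ g ≠ t⁻¹ ∧ (g⁻¹ * g⁻¹ = t ∨ (g * g ≠ t ∧ ν g < ν g⁻¹))
    ι := fun g => (e g).1
    ρ := Function.invFun (fun g => (e g).1)
    n := fun a => (Fintype.equivFin M a : ℕ)
    h2 := h2
    ninj := fun a b hh => (Fintype.equivFin M).injective (Fin.ext hh)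
    ρι := Function.leftInverse_invFun ιinj
    ι0 := fun g => (e g).2
    t1 := t1
    t3 := t3
    Rt := fun r hr => hr.2.1
    Rt' := fun r hr => hr.2.2.1
    Rsq := ?_
    Rinv := ?_
    Rtot := ?_ }⟩
  · rintro r ⟨-, -, -, h | h⟩
    · exact fun hh => both r hh h
    · exact h.1
  · rintro r ⟨-, -, -, h | h⟩ ⟨-, -, -, h' | h'⟩
    · rw [inv_inv] at h'
      exact both r h' h
    · exact h'.1 h
    · rw [inv_inv] at h'
      exact h.1 h'
    · rw [inv_inv] at h'
      omega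
  · intro g h1 h3 h4
    have i1 : g⁻¹ * g⁻¹ ≠ 1 := by
      intro hh; apply h1
      rw [← mul_inv_rev, inv_eq_one] at hh
      exact hh
    have i3 : g⁻¹ ≠ t := fun hh => h4 (by rw [← hh, inv_inv])
    have i4 : g⁻¹ ≠ t⁻¹ := fun hh => h3 (inv_injective hh)
    have i5 : ν g ≠ ν g⁻¹ := fun hh => h1 (by
      have := νinj hh
      nth_rewrite 2 [this]
      simp)
    by_cases c1 : g⁻¹ * g⁻¹ = t
    · exact Or.inl ⟨h1, h3, h4, Or.inl c1⟩
    · by_cases c2 : g * g = t
      · exact Or.inr ⟨i1, i3, i4, Or.inl (by rw [inv_inv]; exact c2)⟩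
      · rcases lt_or_gt_of_ne i5 with c3 | c3
        · exact Or.inl ⟨h1, h3, h4, Or.inr ⟨c2, c3⟩⟩
        · exact Or.inr ⟨i1, i3, i4, Or.inr ⟨c1, by rw [inv_inv]; exact c3⟩⟩

theorem main (G : Type) [Group G] [Fintype G] :
    ∃ (V : Type) (_ : Fintype V) (op : V → V → V), IsSQ op ∧
      Fintype.card V ≤ 36 * Fintype.card G ^ 2 ∧
      ∃ φ : G →* Equiv.Perm V, Function.Injective φ ∧
        ∀ g x y, φ g (op x y) = op (φ g x) (φ g y) := by
  classical
  have hn : 0 < Fintype.card G := Fintype.card_pos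
  have hΓ : Fintype.card (G × Multiplicative (ZMod 3)) = 3 * Fintype.card G := by
    simp [ZMod.card, mul_comm]
  obtain ⟨b, hb⟩ : ∃ b, b = Nat.log 2 (3 * Fintype.card G) := ⟨_, rfl⟩
  have hM : Fintype.card (Fin (b + 1) → ZMod 2) = 2 * 2 ^ b := by
    simp [ZMod.card, pow_succ, mul_comm]
  have b1 : 2 ^ b ≤ 3 * Fintype.card G := by
    rw [hb]; exact Nat.pow_log_le_self 2 (by omega)
  have b2 : 3 * Fintype.card G < 2 * 2 ^ b := by
    have := Nat.lt_pow_succ_log_self (b := 2) (by norm_num) (3 * Fintype.card G)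
    rw [← hb, pow_succ] at this
    omega
  have z2 : ∀ a : ZMod 2, a + a = 0 := by decide
  obtain ⟨D⟩ := exists_data (G × Multiplicative (ZMod 3)) (Fin (b + 1) → ZMod 2)
    (1, Multiplicative.ofAdd 1) (by
      intro h
      have : (Multiplicative.ofAdd 1 : Multiplicative (ZMod 3)) = 1 := congrArg Prod.snd h
      revert this
      decide) (by
      apply Prod.ext
      · simp
      · show Multiplicative.ofAdd (1 : ZMod 3) * Multiplicative.ofAdd 1 = (Multiplicative.ofAdd 1)⁻¹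
        decide) (fun a => funext (fun i => z2 (a i))) (by rw [hΓ, hM]; exact b2)
  have hY := D.card_Y
  rw [hΓ, hM] at hY
  letI : Fintype D.Y := (inferInstance : Fintype {p // ¬ D.bad p})
  rw [Nat.card_eq_fintype_card] at hY
  have e6 : 2 * 2 ^ b * (3 * Fintype.card G) = 6 * (2 ^ b * Fintype.card G) := by ring
  obtain ⟨o, ho⟩ := exists_sq D.Y (by omega)
  refine ⟨_, inferInstance, D.op o, D.op_sq o ho, ?_, D.actHom.comp (MonoidHom.inl _ _), ?_, ?_⟩
  · rw [Fintype.card_sum, Fintype.card_prod, hΓ, hM]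
    have : 2 ^ b * Fintype.card G ≤ 3 * Fintype.card G * Fintype.card G :=
      Nat.mul_le_mul_right _ b1
    nlinarith
  · intro g h e
    have := D.actHom_inj e
    simpa using this
  · intro g x y
    exact D.act_op o _ x y

end Pool.Agent.H12.Sts
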