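import Mathlib

set_option autoImplicit false

namespace Pool.Agent.H12.Tang

open Set

/-- N is isomorphic to the n-point line U_{2,n}. -/
def IsLine {α : Type} (n : ℕ) (N : Matroid α) : Prop :=
  N.E.encard = n ∧ ∀ I ⊆ N.E, (N.Indep I ↔ I.encard ≤ 2)

/-- N is isomorphic to the cycle matroid of the complete graph on four vertices. -/
def IsK4 {α : Type} (N : Matroid α) : Prop :=
  ∃ g : α → Sym2 (Fin 4), InjOn g N.E ∧ g '' N.E = {e | ¬ e.IsDiag} ∧
    ∀ I ⊆ N.E, (N.Indep I ↔ (SimpleGraph.fromEdgeSet (g '' I)).IsAcyclic)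

end Pool.Agent.H12.Tang
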