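import Mathlib
import Pool.Agent.H12.TangDefs

set_option autoImplicit false

namespace Pool.Agent.H12.Tang

open scoped Matroid

/-- The largest number of points of a simple F-representable matroid of rank n with no minor in the
class P (all finite matroids are taken on a ground set inside some Fin m). -/
noncomputable def sizeFn (F : Type) [Field F] (P : ∀ m : ℕ, Matroid (Fin m) → Prop) (n : ℕ) : ℕ∞ :=
  ⨆ (m : ℕ) (M : Matroid (Fin m))
    (_ : Rep F M ∧ Simple M ∧ M.eRk M.E = n ∧ ∀ N : Matroid (Fin m), N ≤m M → ¬ P m N), M.E.encard

end Pool.Agent.H12.Tang
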