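import Mathlib

set_option autoImplicit false

namespace Pool.Agent.H12.U36

open Set

instance fact7 : Fact (Nat.Prime 7) := ⟨by norm_num⟩

noncomputable def M : Matroid (Fin 6) :=
  (IndepMatroid.ofFinite (E := (univ : Set (Fin 6))) finite_univ (fun I => I.ncard ≤ 3)
    (by simp)
    (fun I J hJ hIJ => (ncard_le_ncard hIJ (toFinite J)).trans hJ)
    (fun I J _ hJ hlt => by
      obtain ⟨e, heJ, heI⟩ := exists_mem_notMem_of_ncard_lt_ncard hlt (toFinite I)
      refine ⟨e, heJ, heI, ?_⟩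
      rw [ncard_insert_of_notMem heI (toFinite I)]
      omega)
    (fun I _ => subset_univ I)).matroid

lemma M_E : M.E = univ := rfl

lemma M_indep (I : Set (Fin 6)) : M.Indep I ↔ I.ncard ≤ 3 := by
  simp [M]

def phi1 : Fin 6 → Fin 3 → ZMod 7 :=
  ![![1,0,0], ![0,1,0], ![0,0,1], ![1,1,1], ![1,2,3], ![1,3,4]]

def phi2 : Fin 6 → Fin 3 → ZMod 7 :=
  ![![1,0,0], ![0,1,0], ![0,0,1], ![1,1,1], ![1,2,3], ![1,3,2]]

def d3 (u v w : Fin 3 → ZMod 7) : ZMod 7 :=
  u 0 * v 1 * w 2 - u 0 * v 2 * w 1 - u 1 * v 0 * w 2 + u 1 * v 2 * w 0 + u 2 * v 0 * w 1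
    - u 2 * v 1 * w 0

lemma rep (φ : Fin 6 → Fin 3 → ZMod 7)
    (h : ∀ a b c : Fin 6, a ≠ b → a ≠ c → b ≠ c → d3 (φ a) (φ b) (φ c) ≠ 0) (I : Set (Fin 6)) :
    M.Indep I ↔ LinearIndepOn (ZMod 7) φ I := by
  rw [M_indep]
  constructor
  · intro hI
    obtain ⟨J, hIJ, -, hJ⟩ := Set.exists_subsuperset_card_eq (subset_univ I) hI
      (by simp [ncard_univ])
    obtain ⟨a, b, c, hab, hac, hbc, rfl⟩ := ncard_eq_three.1 hJ
    refine LinearIndepOn.mono ?_ hIJ
    have hinj : Function.Injective ![a, b, c] := by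
      intro i j hij
      fin_cases i <;> fin_cases j <;> simp_all [eq_comm]
    have hr : range ![a, b, c] = {a, b, c} := by
      ext x; simp [Matrix.range_cons, Matrix.range_empty]; tauto
    rw [← hr, linearIndepOn_range_iff hinj]
    have : LinearIndependent (ZMod 7) (Matrix.of (φ ∘ ![a, b, c])).row := by
      rw [Matrix.linearIndependent_rows_iff_isUnit, Matrix.isUnit_iff_isUnit_det,
        isUnit_iff_ne_zero, Matrix.det_fin_three]
      simpa [d3] using h a b c hab hac hbc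
    exact this
  · intro hI
    classical
    have := LinearIndependent.fintype_card_le_finrank hI
    simp only [Module.finrank_fintype_fun_eq_card, Fintype.card_fin] at this
    rw [← Nat.card_coe_set_eq, Nat.card_eq_fintype_card]
    exact this

lemma rep1 (I : Set (Fin 6)) : M.Indep I ↔ LinearIndepOn (ZMod 7) phi1 I :=
  rep phi1 (by decide +kernel) I

lemma rep2 (I : Set (Fin 6)) : M.Indep I ↔ LinearIndepOn (ZMod 7) phi2 I :=
  rep phi2 (by decide +kernel) I

lemma loopless : M.Loopless := by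
  rw [Matroid.loopless_iff_forall_isNonloop]
  intro e _
  rw [← Matroid.indep_singleton, M_indep]
  simp

def cross (p u v : Fin 3 → ZMod 7) : ZMod 7 := d3 p u v

noncomputable def Lp (p : Fin 3 → ZMod 7) : (Fin 3 → ZMod 7) [⋀^Fin 2]→ₗ[ZMod 7] (ZMod 7) :=
  (Matrix.detRowAlternating (n := Fin 3) (R := ZMod 7)).curryLeft p

lemma Lp_apply (p u v : Fin 3 → ZMod 7) : Lp p ![u, v] = d3 p u v := by
  unfold Lp
  rw [AlternatingMap.curryLeft_apply_apply]
  have : Matrix.detRowAlternating (Matrix.vecCons p ![u, v]) =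
      Matrix.det (Matrix.of (Matrix.vecCons p ![u, v])) := rfl
  rw [this, Matrix.det_fin_three]
  simp [d3]

lemma alt_expand (L : (Fin 3 → ZMod 7) [⋀^Fin 2]→ₗ[ZMod 7] (ZMod 7)) :
    ∃ p : Fin 3 → ZMod 7, ∀ u v : Fin 3 → ZMod 7, L ![u, v] = d3 p u v := by
  let e : Fin 3 → Fin 3 → ZMod 7 := fun i => Pi.single i 1
  let B : (Fin 3 → ZMod 7) →ₗ[ZMod 7] (Fin 3 → ZMod 7) →ₗ[ZMod 7] ZMod 7 :=
    LinearMap.mk₂ (ZMod 7) (fun u v => L ![u, v])
      (fun a b c => by
        simpa using L.toMultilinearMap.cons_add ![c] a b)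
      (fun t a c => by
        simpa using L.toMultilinearMap.cons_smul ![c] t a)
      (fun a b c => by
        have := L.map_update_add ![a, b] 1 b c
        have h1 : ∀ x, Function.update ![a, b] 1 x = ![a, x] := by
          intro x; ext i; fin_cases i <;> simp
        simpa [h1] using this)
      (fun t a c => by
        have := L.map_update_smul ![a, c] 1 t c
        have h1 : ∀ x, Function.update ![a, c] 1 x = ![a, x] := by
          intro x; ext i; fin_cases i <;> simp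
        simpa [h1] using this)
  have hB : ∀ u v, B u v = L ![u, v] := fun u v => rfl
  have h0 : ∀ u, B u u = 0 := fun u => by
    rw [hB]; exact L.map_eq_zero_of_eq _ (i := 0) (j := 1) (by simp) (by simp)
  have hs : ∀ u v, B v u = - B u v := fun u v => by
    have := h0 (u + v)
    simp only [map_add, LinearMap.add_apply, h0] at this
    linear_combination this
  refine ⟨![B (e 1) (e 2), - B (e 0) (e 2), B (e 0) (e 1)], fun u v => ?_⟩
  have hu : u = u 0 • e 0 + u 1 • e 1 + u 2 • e 2 := by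
    ext i; fin_cases i <;> simp [e]
  have hv : v = v 0 • e 0 + v 1 • e 1 + v 2 • e 2 := by
    ext i; fin_cases i <;> simp [e]
  rw [← hB]
  conv_lhs => rw [hu, hv]
  simp only [map_add, map_smul, LinearMap.add_apply, LinearMap.smul_apply, h0, smul_eq_mul,
    hs (e 0) (e 1), hs (e 0) (e 2), hs (e 1) (e 2)]
  simp [d3]
  ring

lemma complete : ∀ x y z : ZMod 7, ∃ a b : Fin 6, a ≠ b ∧
    d3 ![x, y, z] (phi1 a) (phi1 b) = 0 ∧ d3 ![x, y, z] (phi1 b) (phi1 a) = 0 := by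
  decide +kernel

lemma incomplete : ∀ a b : Fin 6, a ≠ b → d3 ![1, 5, 6] (phi2 a) (phi2 b) ≠ 0 := by
  decide +kernel

lemma pair_indep {a b : Fin 6} (hab : a ≠ b) : M.Indep {a, b} := by
  rw [M_indep, ncard_pair hab]; omega

lemma pair_flat {a b : Fin 6} (hab : a ≠ b) : M.IsFlat {a, b} := by
  refine ⟨fun I X hI hX => ?_, by rw [M_E]; exact subset_univ _⟩
  have hIe : I = {a, b} := ((pair_indep hab).eq_of_isBasis hI)
  subst hIe
  intro x hx
  by_contra hxI
  have := hX.insert_dep ⟨hx, hxI⟩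
  apply this.not_indep
  rw [M_indep, ncard_insert_of_notMem hxI (toFinite _), ncard_pair hab]

lemma pair_rk {a b : Fin 6} (hab : a ≠ b) : M.eRk {a, b} = ((2 : ℕ) : ℕ∞) := by
  rw [(pair_indep hab).eRk_eq_encard, encard_pair hab]; rfl

lemma two : ∃ L : Fin 1 → ((Fin 3 → ZMod 7) [⋀^Fin 2]→ₗ[ZMod 7] (ZMod 7)),
    ∀ X : Set (Fin 6), M.IsFlat X → M.eRk X = ((2 : ℕ) : ℕ∞) →
      ∃ i : Fin 1, ∃ e : Fin 2 → Fin 6,
        Function.Injective e ∧ M.IsBasis (Set.range e) X ∧ L i (phi2 ∘ e) ≠ 0 := by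
  refine ⟨fun _ => Lp ![1, 5, 6], fun X hX hr => ?_⟩
  obtain ⟨I, hI⟩ := M.exists_isBasis X hX.subset_ground
  have hc : I.encard = 2 := by rw [hI.encard_eq_eRk, hr]; rfl
  obtain ⟨a, b, hab, rfl⟩ := encard_eq_two.1 hc
  refine ⟨0, ![a, b], ?_, ?_, ?_⟩
  · intro i j hij
    fin_cases i <;> fin_cases j <;> simp_all [eq_comm]
  · have hr : range ![a, b] = {a, b} := by
      ext x; simp [Matrix.range_cons, Matrix.range_empty]; tauto
    rwa [hr]
  · have : phi2 ∘ ![a, b] = ![phi2 a, phi2 b] := by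
      ext i : 1; fin_cases i <;> rfl
    rw [this, Lp_apply]
    exact incomplete a b hab

lemma not_one : ¬ ∃ L : Fin 1 → ((Fin 3 → ZMod 7) [⋀^Fin 2]→ₗ[ZMod 7] (ZMod 7)),
    ∀ X : Set (Fin 6), M.IsFlat X → M.eRk X = ((2 : ℕ) : ℕ∞) →
      ∃ i : Fin 1, ∃ e : Fin 2 → Fin 6,
        Function.Injective e ∧ M.IsBasis (Set.range e) X ∧ L i (phi1 ∘ e) ≠ 0 := by
  rintro ⟨L, hL⟩
  obtain ⟨p, hp⟩ := alt_expand (L 0)
  obtain ⟨a, b, hab, h1, h2⟩ := complete (p 0) (p 1) (p 2)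
  have hpe : ![p 0, p 1, p 2] = p := by ext i; fin_cases i <;> rfl
  rw [hpe] at h1 h2
  obtain ⟨i, e, he, hb, hne⟩ := hL {a, b} (pair_flat hab) (pair_rk hab)
  have hi : i = 0 := Subsingleton.elim _ _
  subst hi
  have hc : phi1 ∘ e = ![phi1 (e 0), phi1 (e 1)] := by
    ext i : 1; fin_cases i <;> rfl
  rw [hc, hp] at hne
  have h0 : e 0 ∈ ({a, b} : Set (Fin 6)) := hb.subset ⟨0, rfl⟩
  have h1' : e 1 ∈ ({a, b} : Set (Fin 6)) := hb.subset ⟨1, rfl⟩
  have h01 : e 0 ≠ e 1 := fun h => by simpa using he h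
  rcases h0 with h0 | h0 <;> rcases h1' with h1' | h1'
  · exact h01 (h0.trans h1'.symm)
  · rw [h0, mem_singleton_iff.1 h1'] at hne; exact hne h1
  · rw [mem_singleton_iff.1 h0, h1'] at hne; exact hne h2
  · exact h01 ((mem_singleton_iff.1 h0).trans (mem_singleton_iff.1 h1').symm)

end Pool.Agent.H12.U36
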