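import Mathlib
import Pool.Agent.H12.Unital28a
import Pool.Agent.H12.TangDefs2

set_option autoImplicit false

namespace Pool.Agent.H12.Unital28

open scoped Classical Matroid
open Set Pool.Agent.H12.Tang

attribute [local instance] fact9 fin9

noncomputable def M : Matroid (Fin 28) := vecM F9 univ v

theorem hv : ∀ I ⊆ M.E, (M.Indep I ↔ LinearIndepOn F9 v I) := vecM_rep _

theorem mem_E (e : Fin 28) : e ∈ M.E := mem_univ e

theorem simple : Simple M := by
  refine simple_vecM _ (fun e _ => v_ne e) (fun e _ f _ c h => ?_)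
  rw [← v_tan, h]
  have := (v_tan f f).2 rfl
  simp only [dot3, Pi.smul_apply, smul_eq_mul] at this ⊢
  linear_combination c * this

theorem block : CritGt (Fintype.card F9) 1 M := by
  refine (critGt_iff hv 1).2 (block_of_dot3 (fun a b c => ?_))
  obtain ⟨a, rfl⟩ := elt_surj a
  obtain ⟨b, rfl⟩ := elt_surj b
  obtain ⟨c, rfl⟩ := elt_surj c
  exact (v_block a b c).imp (fun e h => ⟨mem_E e, h⟩)

theorem minor_pos {C D : Set (Fin 28)} (hne : (C ∪ D).Nonempty)
    (hl : ∀ e ∈ (M ／ C ＼ D).E, (M ／ C ＼ D).Indep {e}) :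
    0 < chi (M ／ C ＼ D) ((Fintype.card F9 : ℤ) ^ 1) := by
  rw [chi_pos_iff hv (fun e _ => mem_E e)]
  refine minor_fun hv simple 1 (by simp) ?_ (fun e _ => mem_E e) (fun e _ => mem_E e) hne hl
  intro x _
  obtain ⟨φ, hφ⟩ := exists_of_dot3 (t x 0) (t x 1) (t x 2)
  exact ⟨φ, (hφ _).2 ((v_tan x x).2 rfl), fun e _ hex h0 => hex ((v_tan x e).1 ((hφ _).1 h0))⟩

theorem rk_pair {C : Set (Fin 28)} {x y : Fin 28} (hx : x ∈ C) (hy : y ∈ C) :
    ({x, y} : Set (Fin 28)).encard ≤ M.eRk C := by
  rw [← (simple x (mem_E x) y (mem_E y)).eRk_eq_encard]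
  exact M.eRk_mono (by simp [insert_subset_iff, hx, hy])

theorem no_line (C D : Set (Fin 28)) : ¬ IsLine 10 (M ／ C ＼ D) := by
  rintro ⟨h1, h2⟩
  have hnt : (M ／ C ＼ D).E.Nontrivial := by
    rw [← one_lt_encard_iff_nontrivial, h1]
    norm_num
  have hpair : ∀ e ∈ (M ／ C ＼ D).E, ∀ f ∈ (M ／ C ＼ D).E, (M ／ C ＼ D).Indep {e, f} := by
    intro e he f hf
    rw [h2 _ (by simp only [insert_subset_iff, singleton_subset_iff]; exact ⟨he, hf⟩)]
    exact (encard_insert_le _ _).trans (by simp; norm_num)
  obtain ⟨e, he, f, hf, hef⟩ := hnt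
  by_cases hC : C.Nontrivial
  · obtain ⟨x, hx, y, hy, hxy⟩ := hC
    have h3 := contract_indep_card hv (fun e _ => mem_E e) (hpair e he f hf)
    have h4 := rk_pair hx hy
    rw [encard_pair hxy] at h4
    rw [encard_pair hef] at h3
    have h5 := (add_le_add_right h4 2).trans h3
    simp at h5
    norm_cast at h5
  rw [not_nontrivial_iff] at hC
  rcases hC.eq_empty_or_singleton with rfl | ⟨x, rfl⟩
  · have h3 : (M ／ ∅ ＼ D).E ⊆ Fin.val ⁻¹' {e.val, f.val, n1 e f, n2 e f} := by
      intro g hg
      by_cases hge : g = e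
      · simp [hge]
      by_cases hgf : g = f
      · simp [hgf]
      have h4 : ¬ (M ／ ∅ ＼ D).Indep {g, e, f} := by
        rw [h2 _ (by simp only [insert_subset_iff, singleton_subset_iff]; exact ⟨hg, he, hf⟩),
          encard_insert_of_notMem (by simp [hge, hgf]), encard_pair hef]
        norm_num
      have h5 : ¬ M.Indep {g, e, f} := by
        intro h
        apply h4
        rw [Matroid.delete_indep_iff, Matroid.contract_empty]
        refine ⟨h, disjoint_left.2 ?_⟩
        rintro y (rfl | rfl | rfl)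
        exacts [hg.2, he.2, hf.2]
      have h6 := v_col e f hef g (det3_eq_zero hv simple (mem_E _) (mem_E _) (mem_E _) h5)
      simp only [mem_preimage, mem_insert_iff, mem_singleton_iff]
      tauto
    have h4 : (Fin.val '' (M ／ ∅ ＼ D).E).encard ≤ 4 := by
      refine (encard_le_encard (image_subset_iff.2 h3)).trans ?_
      refine (encard_insert_le _ _).trans ?_
      refine (add_le_add_left (encard_insert_le _ _) 1).trans ?_
      refine (add_le_add_left (add_le_add_left (encard_insert_le _ _) 1) 1).trans ?_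
      simp
      norm_num
    rw [Fin.val_injective.encard_image, h1] at h4
    norm_cast at h4
  · have hxI : M.Indep {x} := by simpa using simple x (mem_E x) x (mem_E x)
    have h3 : InjOn (lab x) (M ／ {x} ＼ D).E := by
      intro a ha b hb hab
      by_contra hne
      have h4 := (hxI.contract_indep_iff.1 (Matroid.delete_indep_iff.1 (hpair a ha b hb)).1).2
      have hxa : x ≠ a := fun h => ha.1.2 h.symm
      have hxb : x ≠ b := fun h => hb.1.2 h.symm
      have h5 : ({a, b} ∪ {x} : Set (Fin 28)) = {x, a, b} := by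
        ext y
        simp only [mem_union, mem_insert_iff, mem_singleton_iff]
        tauto
      rw [h5, hv _ (fun e _ => mem_E e)] at h4
      exact det3_ne_zero hxa hxb hne h4 (v_lab x a b hxa hxb.symm hab)
    have h4 := encard_le_encard (subset_univ (lab x '' (M ／ {x} ＼ D).E))
    rw [h3.encard_image, h1] at h4
    simp at h4
    norm_cast at h4

theorem tri (i j k : Fin 4) (hij : i ≠ j) (hik : i ≠ k) (hjk : j ≠ k) :
    ¬ (SimpleGraph.fromEdgeSet {s(j, k), s(i, j), s(i, k)}).IsAcyclic := by
  intro h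
  apply h.cliqueFree (n := 3) le_rfl {i, j, k}
  rw [SimpleGraph.is3Clique_triple_iff]
  simp [hij, hik, hjk]

theorem no_K4 (C D : Set (Fin 28)) : ¬ IsK4 (M ／ C ＼ D) := by
  rintro ⟨g, h1, h2, h3⟩
  have hex : ∀ i j : Fin 4, i ≠ j → ∃ x ∈ (M ／ C ＼ D).E, g x = s(i, j) := by
    intro i j hij
    have : s(i, j) ∈ g '' (M ／ C ＼ D).E := by
      rw [h2]
      simpa using hij
    exact this
  obtain ⟨a, ha, ga⟩ := hex 0 1 (by decide)
  obtain ⟨b, hb, gb⟩ := hex 0 2 (by decide)
  obtain ⟨c, hc, gc⟩ := hex 1 2 (by decide)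
  obtain ⟨d, hd, gd⟩ := hex 0 3 (by decide)
  obtain ⟨e, he, ge⟩ := hex 1 3 (by decide)
  obtain ⟨f, hf, gf⟩ := hex 2 3 (by decide)
  have hne : ∀ {x y : Fin 28} {p q : Sym2 (Fin 4)}, g x = p → g y = q → p ≠ q → x ≠ y := by
    rintro x y p q rfl rfl h rfl
    exact h rfl
  have hab := hne ga gb (by decide)
  have had := hne ga gd (by decide)
  have hbd := hne gb gd (by decide)
  have hst : (M ／ C ＼ D).Indep {a, b, d} := by
    rw [h3 _ (by simp only [insert_subset_iff, singleton_subset_iff]; exact ⟨ha, hb, hd⟩)]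
    refine SimpleGraph.IsAcyclic.anti ?_ (SimpleGraph.isAcyclic_starGraph (0 : Fin 4))
    intro x y h
    simp only [image_insert_eq, image_singleton, ga, gb, gd, SimpleGraph.fromEdgeSet_adj,
      mem_insert_iff, mem_singleton_iff, Sym2.eq_iff] at h
    rw [SimpleGraph.starGraph_adj]
    tauto
  have hC : C = ∅ := by
    by_contra hn
    obtain ⟨x, hx⟩ := nonempty_iff_ne_empty.2 hn
    have h4 := contract_indep_card hv (fun e _ => mem_E e) hst
    have h5 := rk_pair hx hx
    rw [pair_eq_singleton, encard_singleton] at h5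
    rw [encard_insert_of_notMem (by simp [hab, had]), encard_pair hbd] at h4
    have h6 := (add_le_add_right h5 _).trans h4
    simp at h6
    norm_cast at h6
  subst hC
  have key : ∀ {x y z : Fin 28} {i j k : Fin 4}, x ∈ (M ／ ∅ ＼ D).E → y ∈ (M ／ ∅ ＼ D).E →
      z ∈ (M ／ ∅ ＼ D).E → x ≠ y → z ≠ x → z ≠ y →
      g '' {z, x, y} = {s(j, k), s(i, j), s(i, k)} → i ≠ j → i ≠ k → j ≠ k →
      z.val = n1 x y ∨ z.val = n2 x y := by
    intro x y z i j k hx hy hz hxy hzx hzy hg hij hik hjk
    have h5 : ¬ M.Indep {z, x, y} := by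
      intro h
      apply tri i j k hij hik hjk
      rw [← hg, ← h3 _ (by simp only [insert_subset_iff, singleton_subset_iff]; exact ⟨hz, hx, hy⟩),
        Matroid.delete_indep_iff, Matroid.contract_empty]
      refine ⟨h, disjoint_left.2 ?_⟩
      rintro y (rfl | rfl | rfl)
      exacts [hz.2, hx.2, hy.2]
    have h6 := v_col x y hxy z (det3_eq_zero hv simple (mem_E _) (mem_E _) (mem_E _) h5)
    tauto
  have k1 := key (i := 0) (j := 1) (k := 2) ha hb hc hab (hne gc ga (by decide)) (hne gc gb (by decide))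
    (by simp only [image_insert_eq, image_singleton, ga, gb, gc]) (by decide) (by decide) (by decide)
  have k2 := key (i := 0) (j := 1) (k := 3) ha hd he had (hne ge ga (by decide)) (hne ge gd (by decide))
    (by simp only [image_insert_eq, image_singleton, ga, gd, ge]) (by decide) (by decide) (by decide)
  have k3 := key (i := 0) (j := 2) (k := 3) hb hd hf hbd (hne gf gb (by decide)) (hne gf gd (by decide))
    (by simp only [image_insert_eq, image_singleton, gb, gd, gf]) (by decide) (by decide) (by decide)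
  have k4 := key (i := 1) (j := 2) (k := 3) hc he hf (hne gc ge (by decide)) (hne gf gc (by decide))
    (hne gf ge (by decide))
    (by simp only [image_insert_eq, image_singleton, gc, ge, gf]) (by decide) (by decide) (by decide)
  exact onan a b d c e f a.2 b.2 d.2 (Fin.val_ne_of_ne hab) (Fin.val_ne_of_ne had.symm)
    (Fin.val_ne_of_ne hbd.symm) (Fin.val_ne_of_ne (hne gc gd (by decide)))
    (Fin.val_ne_of_ne (hne ge gb (by decide))) (Fin.val_ne_of_ne (hne ge gc (by decide))) k1 k2 k3 k4

theorem chi_zero : chi M (Fintype.card F9) = 0 := by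
  simpa using le_antisymm (block 1 le_rfl) (chi_nonneg hv 1)

theorem chi_minor (N : Matroid (Fin 28)) (hN : N <m M) (hs : Simple N) :
    chi N (Fintype.card F9) ≠ 0 := by
  obtain ⟨C, D, -, -, hne, rfl⟩ := strict_minor_form hN
  simpa using (minor_pos hne (fun e he => by simpa using hs e he e he)).ne'

end Pool.Agent.H12.Unital28
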