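import Mathlib
import Pool.Agent.H12.Tang5

set_option autoImplicit false

namespace Pool.Agent.H12.Unital9

open scoped Matroid
open Set Submodule Module Pool.Agent.H12.Tang

abbrev F4 : Type := QuadraticAlgebra (ZMod 2) 1 1

theorem fact4 : Fact (∀ r : ZMod 2, r ^ 2 ≠ 1 + 1 * r) := ⟨by decide⟩

attribute [local instance] fact4

@[reducible] def fin4 : Fintype F4 := Fintype.ofEquiv _ (QuadraticAlgebra.equivProd 1 1).symm

attribute [local instance] fin4

def el (n : ℕ) : F4 := ⟨(Fin.ofNat 2 n : Fin 2), (Fin.ofNat 2 (n / 2) : Fin 2)⟩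

def cL : ℕ := 102277791060258167261574528973988199398191784532691609011738794925784521703624564459168462007049994206854721667533456957470354994735701051658642065691435357037576433934662785509440384515415532709543035858820511408759850676331017533128886116323855465951217759114568260698153718249683793674594816971432276141072001471995726810610609408917467308739817493349546067050304894327230049550350

def v (e : Fin 9) (i : Fin 3) : F4 := el ((14796416964040785 >>> (2 * (3 * e.val + i.val))) % 4)

def t (e : Fin 9) (i : Fin 3) : F4 := el ((10363181852925009 >>> (2 * (3 * e.val + i.val))) % 4)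

def lm (x d : ℕ) : ℕ := (cL >>> (16 * (5 * x + d))) % 65536

theorem el_surj : ∀ a b : F4, ∃ i : Fin 16, a = el (i / 4) ∧ b = el i := by decide +kernel

theorem dir_fact : ∀ b c : F4, ∃ d : Fin 5, ∀ x y : Fin 16, (lm x d).testBit y = true →
    y ≠ x ∧ b * (el (y / 4) - el (x / 4)) + c * (el y - el x) = 0 := by decide +kernel

def bad (m : ℕ) : Bool :=
  (List.range 16).any fun x => m.testBit x && (List.range 5).all fun d => !(Nat.beq (m &&& lm x d) 0)

def chk : List ℕ → ℕ → ℕ → Bool
  | _, 0, m => bad m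
  | [], _ + 1, _ => true
  | i :: l, n + 1, m => chk l n (m ||| 2 ^ i) && chk l (n + 1) m

theorem chk_run : chk [2, 3, 5, 6, 7, 8, 9, 10, 11, 12, 13, 14, 15] 6 19 = true := by decide +kernel

theorem chk_sound (S : ℕ → Prop) [DecidablePred S] : ∀ (l : List ℕ) (n m : ℕ), chk l n m = true →
    (∀ j, m.testBit j = true → S j) → n ≤ l.countP (fun j => decide (S j)) →
    ∃ x, S x ∧ ∀ d < 5, ∃ y, S y ∧ (lm x d).testBit y = true := by
  have h0 : ∀ m, bad m = true → (∀ j, m.testBit j = true → S j) →
      ∃ x, S x ∧ ∀ d < 5, ∃ y, S y ∧ (lm x d).testBit y = true := by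
    intro m h hS
    simp only [bad, List.any_eq_true, List.mem_range, Bool.and_eq_true, List.all_eq_true,
      Bool.not_eq_true', ← Bool.not_eq_true, Nat.beq_eq] at h
    obtain ⟨x, -, h1, h2⟩ := h
    refine ⟨x, hS x h1, fun d hd => ?_⟩
    obtain ⟨y, hy⟩ := Nat.exists_testBit_of_ne_zero (h2 d hd)
    rw [Nat.testBit_and, Bool.and_eq_true] at hy
    exact ⟨y, hS y hy.1, hy.2⟩
  intro l
  induction l with
  | nil =>
    intro n m h hS hn
    have : n = 0 := by simpa using hn
    subst this
    exact h0 m h hS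
  | cons i l ih =>
    intro n m h hS hn
    cases n with
    | zero => exact h0 m h hS
    | succ n =>
      simp only [chk, Bool.and_eq_true] at h
      by_cases hi : S i
      · refine ih n _ h.1 (fun j hj => ?_) (by simpa [List.countP_cons, hi] using hn)
        rw [Nat.testBit_or, Bool.or_eq_true, Nat.testBit_two_pow, decide_eq_true_eq] at hj
        rcases hj with hj | rfl
        exacts [hS j hj, hi]
      · exact ih (n + 1) m h.2 hS (by simpa [List.countP_cons, hi] using hn)

theorem nine (T : Finset (Fin 16)) (h0 : 0 ∈ T) (h1 : 1 ∈ T) (h4 : 4 ∈ T) (hT : 9 ≤ T.card) :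
    ∃ x ∈ T, ∀ d : Fin 5, ∃ y ∈ T, (lm x d).testBit y = true := by
  obtain ⟨x, ⟨hx, hx'⟩, h⟩ := chk_sound (fun j => ∃ h : j < 16, (⟨j, h⟩ : Fin 16) ∈ T) _ _ _ chk_run
    (by
      intro j hj
      have : j < 5 := by
        by_contra hn
        rw [Nat.testBit_lt_two_pow (lt_of_lt_of_le (by norm_num : 19 < 2 ^ 5)
          (Nat.pow_le_pow_right (by norm_num) (by omega)))] at hj
        simp at hj
      interval_cases j
      · exact ⟨by norm_num, h0⟩
      · exact ⟨by norm_num, h1⟩
      · simp [Nat.testBit] at hj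
      · simp [Nat.testBit] at hj
      · exact ⟨by norm_num, h4⟩)
    (by
      rw [List.countP_eq_length_filter, ← List.toFinset_card_of_nodup
        (List.Nodup.filter _ (by decide))]
      have h5 : (T \ {0, 1, 4}).card + 3 ≥ T.card := by
        have := Finset.le_card_sdiff ({0, 1, 4} : Finset (Fin 16)) T
        have h6 : ({0, 1, 4} : Finset (Fin 16)).card = 3 := rfl
        omega
      refine le_trans (by omega : 6 ≤ (T \ {0, 1, 4}).card) ?_
      apply Finset.card_le_card_of_injOn Fin.val _ Fin.val_injective.injOn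
      intro y hy
      simp only [Finset.coe_sdiff, mem_sdiff, Finset.mem_coe] at hy
      simp only [List.toFinset_filter, Finset.coe_filter, List.mem_toFinset, decide_eq_true_eq,
        mem_ofPred_eq]
      refine ⟨?_, y.2, hy.1⟩
      have key : ∀ z : Fin 16, z ∉ ({0, 1, 4} : Finset (Fin 16)) →
          z.val ∈ [2, 3, 5, 6, 7, 8, 9, 10, 11, 12, 13, 14, 15] := by decide
      exact key y hy.2)
  refine ⟨_, hx', fun d => ?_⟩
  obtain ⟨y, ⟨hy, hy'⟩, h'⟩ := h d d.2
  exact ⟨_, hy', h'⟩

theorem v_ne : ∀ e, v e ≠ 0 := by decide +kernel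

theorem v_tan : ∀ x e, dot3 (t x 0) (t x 1) (t x 2) (v e) = 0 ↔ e = x := by decide +kernel

theorem v_nomod : ∀ a b c : F4, ¬ (a = 0 ∧ b = 0 ∧ c = 0) → ∃ u u', u ≠ u' ∧
    ∀ h, dot3 a b c (v h) = 0 → det3 (v u) (v u') (v h) ≠ 0 := by decide +kernel

theorem v_det : det3 (v 0) (v 1) (v 3) ≠ 0 := by decide +kernel

end Pool.Agent.H12.Unital9
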