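import Mathlib
import Pool.Agent.H12.Unital9a

set_option autoImplicit false

namespace Pool.Agent.H12.Unital9

open scoped Classical Matroid
open Set Submodule Module Pool.Agent.H12.Tang

attribute [local instance] fact4 fin4

theorem upper {α : Type} [Fintype α] (M : Matroid α) (hrep : Rep F4 M) (hs : Simple M)
    (hr : M.eRk M.E = 3) (hm : ∀ N : Matroid α, N ≤m M → ¬ Tangential F4 1 N) : M.E.encard ≤ 8 := by
  have hnb : ∀ N : Matroid α, N ≤m M → Simple N → ¬ CritGt (Fintype.card F4) 1 N := by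
    intro N hN h1 h2
    obtain ⟨N', h3, h4⟩ := exists_tangential hrep 1 _ N rfl hN h1 h2
    exact hm N' h3 h4
  obtain ⟨n, v, hv⟩ := hrep
  have h1 := hnb M Matroid.IsMinor.refl hs
  rw [critGt_iff hv] at h1
  push Not at h1
  obtain ⟨φ, hφ⟩ := h1
  have ht : ∀ x ∈ M.E, ∃ ψ : (Fin n → F4) →ₗ[F4] (Fin 1 → F4),
      ψ (v x) = 0 ∧ ∀ e ∈ M.E, e ≠ x → ψ (v e) ≠ 0 := fun x hx =>
    tangent_of_simple_minors hv hs 1 hx (fun D _ hD => hnb _ (M.contract_delete_isMinor _ _) hD)
  have one : ∀ (ψ : (Fin n → F4) →ₗ[F4] (Fin 1 → F4)) (w : Fin n → F4), ψ w = 0 ↔ ψ w 0 = 0 := by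
    intro ψ w
    refine ⟨fun h => by rw [h]; rfl, fun h => ?_⟩
    funext i
    rw [Subsingleton.elim i 0]
    exact h
  let f : (Fin n → F4) →ₗ[F4] F4 := (LinearMap.proj 0).comp φ
  have hf : ∀ e ∈ M.E, f (v e) ≠ 0 := fun e he h => hφ e he ((one φ _).2 h)
  obtain ⟨B, hB⟩ := M.exists_isBase
  have hB3 : B.encard = 3 := by rw [← hr, ← hB.isBasis_ground.eRk_eq_encard]
  obtain ⟨b0, b1, b2, h01, h02, h12, rfl⟩ := encard_eq_three.1 hB3
  have hb0 : b0 ∈ M.E := hB.subset_ground (by simp)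
  have hb1 : b1 ∈ M.E := hB.subset_ground (by simp)
  have hb2 : b2 ∈ M.E := hB.subset_ground (by simp)
  let p : α → Fin n → F4 := fun e => (f (v e))⁻¹ • v e
  have hpv : ∀ e ∈ M.E, v e = f (v e) • p e := fun e he => by
    simp only [p]
    rw [smul_smul, mul_inv_cancel₀ (hf e he), one_smul]
  have e0 : el 0 = 0 := rfl
  have e1 : el 1 = 1 := rfl
  have e4 : el 4 = 0 := rfl
  have hc : ∀ e, ∃ i : Fin 16, e ∈ M.E →
      p e = p b0 + el (i / 4) • (p b1 - p b0) + el i • (p b2 - p b0) ∧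
      (e = b0 → i = 0) ∧ (e = b1 → i = 4) ∧ (e = b2 → i = 1) := by
    intro e
    by_cases c0 : e = b0
    · subst c0
      exact ⟨0, fun _ => ⟨by simp [e0], fun _ => rfl, fun h => absurd h h01, fun h => absurd h h02⟩⟩
    by_cases c1 : e = b1
    · subst c1
      exact ⟨4, fun _ => ⟨by
        show p e = p b0 + el 1 • (p e - p b0) + el 4 • (p b2 - p b0)
        simp [e1, e4], fun h => absurd h c0, fun _ => rfl, fun h => absurd h h12⟩⟩
    by_cases c2 : e = b2
    · subst c2
      exact ⟨1, fun _ => ⟨by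
        show p e = p b0 + el 0 • (p b1 - p b0) + el 1 • (p e - p b0)
        simp [e1, e0], fun h => absurd h c0, fun h => absurd h c1, fun _ => rfl⟩⟩
    by_cases he : e ∈ M.E
    · have h2 : e ∈ M.closure {b0, b1, b2} := by rw [hB.closure_eq]; exact he
      rw [mem_closure hv hB.subset_ground he, image_insert_eq, image_pair, mem_span_triple] at h2
      obtain ⟨x, y, z, h2⟩ := h2
      obtain ⟨i, h3, h4⟩ := el_surj ((f (v e))⁻¹ * (y * f (v b1))) ((f (v e))⁻¹ * (z * f (v b2)))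
      refine ⟨i, fun _ => ⟨?_, fun h => absurd h c0, fun h => absurd h c1, fun h => absurd h c2⟩⟩
      rw [← h3, ← h4]
      have h5 := congrArg f h2
      simp only [map_add, map_smul, smul_eq_mul] at h5
      have h6 : p e = ((f (v e))⁻¹ * (x * f (v b0))) • p b0 + ((f (v e))⁻¹ * (y * f (v b1))) • p b1 +
          ((f (v e))⁻¹ * (z * f (v b2))) • p b2 := by
        simp only [mul_smul]
        rw [← hpv b0 hb0, ← hpv b1 hb1, ← hpv b2 hb2, ← smul_add, ← smul_add, h2]
      have h7 : (f (v e))⁻¹ * (x * f (v b0)) =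
          1 - (f (v e))⁻¹ * (y * f (v b1)) - (f (v e))⁻¹ * (z * f (v b2)) := by
        rw [← inv_mul_cancel₀ (hf e he), ← h5]
        ring
      rw [h6, h7]
      module
    · exact ⟨0, fun h => absurd h he⟩
  choose c hc using hc
  have hinj : InjOn c M.E := by
    intro e he e' he' h
    have h2 : p e = p e' := by rw [(hc e he).1, (hc e' he').1, h]
    apply simple_eq hv hs he he' (c := f (v e) * (f (v e'))⁻¹)
    rw [mul_smul]
    exact (hpv e he).trans (by rw [h2])
  by_contra hn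
  have h9 : 9 ≤ (Finset.univ.filter (fun i => i ∈ c '' M.E)).card := by
    have h2 : ((Finset.univ.filter (fun i => i ∈ c '' M.E) : Finset (Fin 16)) : Set (Fin 16)) =
        c '' M.E := by
      ext i
      simp
    have h3 := hinj.encard_image
    rw [← h2, encard_coe_eq_coe_finsetCard] at h3
    rw [← h3] at hn
    norm_cast at hn
    omega
  obtain ⟨x, hx, h⟩ := nine _ (by simpa using ⟨b0, hb0, (hc b0 hb0).2.1 rfl⟩)
    (by simpa using ⟨b2, hb2, (hc b2 hb2).2.2.2 rfl⟩)
    (by simpa using ⟨b1, hb1, (hc b1 hb1).2.2.1 rfl⟩) h9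
  simp only [Finset.mem_filter, Finset.mem_univ, true_and] at hx h
  obtain ⟨x, hx, rfl⟩ := hx
  obtain ⟨ψ, h1, h2⟩ := ht x hx
  let g : (Fin n → F4) →ₗ[F4] F4 := (LinearMap.proj 0).comp ψ
  obtain ⟨d, hd⟩ := dir_fact (g (p b1 - p b0)) (g (p b2 - p b0))
  obtain ⟨_, ⟨y, hy, rfl⟩, h3⟩ := h d
  obtain ⟨h4, h5⟩ := hd _ _ h3
  apply h2 y hy (fun h => h4 (by rw [h]))
  have h6 : g (p x) = 0 := by
    simp only [p, map_smul]
    rw [show g (v x) = 0 from (one ψ _).1 h1, smul_zero]
  have h7 : g (p y) = 0 := by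
    have h8 := congrArg g (hc x hx).1
    have h9 := congrArg g (hc y hy).1
    simp only [map_add, map_smul, smul_eq_mul] at h8 h9
    rw [h6] at h8
    rw [h9]
    linear_combination h5 - h8
  rw [one, hpv y hy]
  show g _ = 0
  rw [map_smul, h7, smul_zero]

noncomputable def M : Matroid (Fin 9) := vecM F4 univ v

theorem hv : ∀ I ⊆ M.E, (M.Indep I ↔ LinearIndepOn F4 v I) := vecM_rep _

theorem mem_E (e : Fin 9) : e ∈ M.E := mem_univ e

theorem simple : Simple M := by
  refine simple_vecM _ (fun e _ => v_ne e) (fun e _ f _ c h => ?_)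
  rw [← v_tan, h]
  have := (v_tan f f).2 rfl
  simp only [dot3, Pi.smul_apply, smul_eq_mul] at this ⊢
  linear_combination c * this

theorem rank : M.eRk M.E = 3 := by
  apply le_antisymm
  · rw [eRk_eq hv (le_refl M.E)]
    have := Submodule.finrank_le (span F4 (v '' M.E))
    simp only [Module.finrank_fintype_fun_eq_card, Fintype.card_fin] at this
    exact_mod_cast this
  · have h : M.Indep {3, 0, 1} := by
      by_contra h
      exact v_det (det3_eq_zero hv simple (mem_E _) (mem_E _) (mem_E _) h)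
    have h2 : ({3, 0, 1} : Set (Fin 9)).encard = 3 :=
      encard_eq_three.2 ⟨3, 0, 1, by decide, by decide, by decide, rfl⟩
    rw [← h2, ← h.eRk_eq_encard]
    exact M.eRk_mono h.subset_ground

theorem card_E : M.E.encard = 9 := by
  show (univ : Set (Fin 9)).encard = 9
  simp

theorem no_minor (N : Matroid (Fin 9)) (hN : N ≤m M) : ¬ (Tangential F4 1 N ∧ Supersolvable N) := by
  rintro ⟨⟨-, hs, hb, -⟩, hss⟩
  by_cases h : N = M
  · subst h
    obtain ⟨H, h1, h2⟩ := supersolvable_hyperplane hv simple ⟨0, mem_E 0⟩ hss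
    obtain ⟨a, b, c, h0, h⟩ := modular_line3 hv simple h1 h2
    obtain ⟨u, u', hne, h1⟩ := v_nomod a b c h0
    obtain ⟨x, -, h2, h3⟩ := h u (mem_E u) u' (mem_E u') hne
    exact h1 x h2 h3
  · obtain ⟨C, D, hC, hD, hne, rfl⟩ :=
      strict_minor_form (Matroid.isStrictMinor_iff_isMinor_ne.2 ⟨hN, h⟩)
    refine (not_critGt_iff hv hC D 1).2 ?_ hb
    refine minor_fun hv simple 1 (by simp) ?_ hC hD hne (fun e he => by simpa using hs e he e he)
    intro x _
    obtain ⟨φ, hφ⟩ := exists_of_dot3 (t x 0) (t x 1) (t x 2)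
    exact ⟨φ, (hφ _).2 ((v_tan x x).2 rfl), fun e _ hex h0 => hex ((v_tan x e).1 ((hφ _).1 h0))⟩

end Pool.Agent.H12.Unital9
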